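import Mathlib

/-!
# Hausdorff convergence of Lagrangians under `J`-adapted metrics: the definitions

`V` is a finite-dimensional real inner product space (used only as the space of coordinates) and
`M` a smooth manifold without boundary modelled on `V`.  A chart of `M` is an element of the maximal
smooth atlas, and all the tensors are described by their coordinate expressions in all the charts.
-/

open scoped Topology ContDiff Manifold
open Set Metric Filter MeasureTheory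

noncomputable section

namespace Pool.Agent.H823.HC

universe u v

section Defs

variable {V : Type u} [NormedAddCommGroup V] [InnerProductSpace ℝ V]
  {M : Type v} [TopologicalSpace M] [ChartedSpace V M]

/-- The charts of the smooth manifold `M`: the elements of its maximal smooth atlas. -/
abbrev Charts (V : Type u) [NormedAddCommGroup V] [InnerProductSpace ℝ V]
    (M : Type v) [TopologicalSpace M] [ChartedSpace V M] : Set (OpenPartialHomeomorph M V) :=
  IsManifold.maximalAtlas 𝓘(ℝ, V) ∞ M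

/-- The tangent vector of `M` at `e.symm x` whose coordinate vector in the chart `e` is `v`. -/
def frame (e : OpenPartialHomeomorph M V) (x v : V) : TangentSpace 𝓘(ℝ, V) (e.symm x) :=
  mfderiv 𝓘(ℝ, V) 𝓘(ℝ, V) e.symm x v

end Defs

/-- An almost Kähler structure on the smooth manifold `M`: a symplectic form `ω`, a compatible
almost complex structure `J` (the metric `g_J = ω(·, J ·)` being smooth, symmetric and positive
definite), such that the distance of `M` is the distance of the Riemannian metric `g_J`. -/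
structure AlmostKahler (V : Type u) [NormedAddCommGroup V] [InnerProductSpace ℝ V]
    (M : Type v) [MetricSpace M] [ChartedSpace V M] where
  /-- the symplectic form -/
  om : (x : M) → TangentSpace 𝓘(ℝ, V) x →L[ℝ] TangentSpace 𝓘(ℝ, V) x →L[ℝ] ℝ
  /-- the almost complex structure -/
  J : (x : M) → TangentSpace 𝓘(ℝ, V) x →L[ℝ] TangentSpace 𝓘(ℝ, V) x
  /-- `ω` is alternating -/
  alt : ∀ x v, om x v v = 0
  /-- `J ^ 2 = -1` -/
  J_sq : ∀ x v, J x (J x v) = -v
  /-- `g_J` is symmetric -/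
  symm : ∀ x v w, om x v (J x w) = om x w (J x v)
  /-- `g_J` is positive definite -/
  pos : ∀ x v, v ≠ 0 → 0 < om x v (J x v)
  /-- the coordinate expressions of `ω` are smooth -/
  smooth_om : ∀ e ∈ Charts V M, ∀ v w : V,
    ContDiffOn ℝ ∞ (fun x => om (e.symm x) (frame e x v) (frame e x w)) e.target
  /-- the coordinate expressions of `g_J` are smooth (equivalently, `J` is smooth) -/
  smooth_g : ∀ e ∈ Charts V M, ∀ v w : V,
    ContDiffOn ℝ ∞ (fun x => om (e.symm x) (frame e x v) (J (e.symm x) (frame e x w))) e.target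
  /-- `ω` is closed: `dω = 0` in all the charts -/
  closed : ∀ e ∈ Charts V M, ∀ x ∈ e.target, ∀ u v w : V,
    fderiv ℝ (fun y => om (e.symm y) (frame e y v) (frame e y w)) x u +
    fderiv ℝ (fun y => om (e.symm y) (frame e y w) (frame e y u)) x v +
    fderiv ℝ (fun y => om (e.symm y) (frame e y u) (frame e y v)) x w = 0
  /-- the distance is the infimum of the lengths of the curves of class `C^1` -/
  isGLB_dist : ∀ x y : M, IsGLB {ℓ : ℝ | ∃ c : ℝ → M, ContMDiff 𝓘(ℝ, ℝ) 𝓘(ℝ, V) 1 c ∧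
    c 0 = x ∧ c 1 = y ∧ ℓ = ∫ t in (0:ℝ)..1, Real.sqrt (om (c t)
      (mfderiv 𝓘(ℝ, ℝ) 𝓘(ℝ, V) c t (1:ℝ)) (J (c t) (mfderiv 𝓘(ℝ, ℝ) 𝓘(ℝ, V) c t (1:ℝ))))}
    (dist x y)

section AK

variable {V : Type u} [NormedAddCommGroup V] [InnerProductSpace ℝ V]
  {M : Type v} [MetricSpace M] [ChartedSpace V M] (A : AlmostKahler V M)

/-- The norm of a tangent vector for the metric `g_J`. -/
def AlmostKahler.nrm (x : M) (v : TangentSpace 𝓘(ℝ, V) x) : ℝ := Real.sqrt (A.om x v (A.J x v))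

/-- The coordinate expression of the symplectic form in a chart. -/
def AlmostKahler.omC (e : OpenPartialHomeomorph M V) (x v w : V) : ℝ :=
  A.om (e.symm x) (frame e x v) (frame e x w)

/-- The coordinate expression of the metric `g_J` in a chart. -/
def AlmostKahler.gC (e : OpenPartialHomeomorph M V) (x v w : V) : ℝ :=
  A.om (e.symm x) (frame e x v) (A.J (e.symm x) (frame e x w))

/-- `e` is a chart centred at `p`, defined at least over the ball of radius `r`, in which the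
coefficients of `g_J` are bounded in `C^1` and `g_J` is uniformly elliptic. -/
structure AlmostKahler.GoodChart (r K : ℝ) (p : M) (e : OpenPartialHomeomorph M V) : Prop where
  mem : e ∈ Charts V M
  mem_source : p ∈ e.source
  centre : e p = 0
  ball_subset : ball (0 : V) r ⊆ e.target
  lower : ∀ x ∈ ball (0 : V) r, ∀ v, (K⁻¹ * ‖v‖) ^ 2 ≤ A.gC e x v v
  upper : ∀ x ∈ ball (0 : V) r, ∀ v, A.gC e x v v ≤ (K * ‖v‖) ^ 2
  deriv_le : ∀ x ∈ ball (0 : V) r, ∀ u v w,
    |fderiv ℝ (fun y => A.gC e y v w) x u| ≤ K * ‖u‖ * ‖v‖ * ‖w‖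

/-- **Bounded geometry** of the metric `g_J`: there are centred charts of a uniform size at all the
points of `M` in which the coefficients of `g_J` are uniformly bounded in `C^1` and `g_J` is
uniformly equivalent to the Euclidean metric. -/
def AlmostKahler.BoundedGeometry : Prop :=
  ∃ r K : ℝ, 0 < r ∧ 1 ≤ K ∧ ∀ p : M, ∃ e : OpenPartialHomeomorph M V, A.GoodChart r K p e

/-- A smooth curve germ at the time `0` which stays in the set `L`. -/
def CurveIn (L : Set M) (c : ℝ → M) : Prop :=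
  ContMDiffAt 𝓘(ℝ, ℝ) 𝓘(ℝ, V) ∞ c 0 ∧ ∀ᶠ t in 𝓝 (0:ℝ), c t ∈ L

/-- The coordinates, in the chart `e`, of the tangent vectors of the set `L` at its point `y`: the
velocities of the smooth curves in `L`. -/
def tanC (e : OpenPartialHomeomorph M V) (L : Set M) (y : M) : Set V :=
  {v | ∃ c : ℝ → M, c 0 = y ∧ CurveIn (V := V) L c ∧ deriv (fun t => e (c t)) 0 = v}

/-- `L` is an embedded smooth submanifold of dimension `n`, without boundary: near each of its
points, it is in some chart the intersection with a linear subspace of dimension `n`. -/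
def IsSubmfd (V : Type u) [NormedAddCommGroup V] [InnerProductSpace ℝ V]
    {M : Type v} [MetricSpace M] [ChartedSpace V M] (n : ℕ) (L : Set M) : Prop :=
  ∀ y ∈ L, ∃ e ∈ Charts V M, y ∈ e.source ∧ ∃ W : Submodule ℝ V, Module.finrank ℝ W = n ∧
    ∀ z ∈ e.source, (z ∈ L ↔ e z ∈ W)

/-- `L` is a closed (compact without boundary) connected Lagrangian submanifold. -/
structure AlmostKahler.IsLagr (L : Set M) : Prop where
  compact : IsCompact L
  connected : IsConnected L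
  submfd : ∃ n, 2 * n = Module.finrank ℝ V ∧ IsSubmfd V n L
  isotropic : ∀ e ∈ Charts V M, ∀ y ∈ L, y ∈ e.source → ∀ v ∈ tanC e L y, ∀ w ∈ tanC e L y,
    A.omC e (e y) v w = 0

/-- The scalar product, for `g_J`, of the vector with coordinates `ξ` with the covariant
acceleration `∇_t c'` (Levi-Civita connection of `g_J`) of the curve `c` at the time `0`, written
in the chart `e` with the Christoffel symbols of the first kind:
`g(ξ, ∇_t c') = g(ξ, c'') + (∂_{c'} g)(c', ξ) - (∂_ξ g)(c', c') / 2`. -/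
def AlmostKahler.covAcc (e : OpenPartialHomeomorph M V) (c : ℝ → M) (ξ : V) : ℝ :=
  A.gC e (e (c 0)) ξ (deriv (deriv (fun t => e (c t))) 0) +
  fderiv ℝ (fun y => A.gC e y (deriv (fun t => e (c t)) 0) ξ) (e (c 0))
    (deriv (fun t => e (c t)) 0) -
  (1 / 2) * fderiv ℝ (fun y => A.gC e y (deriv (fun t => e (c t)) 0)
    (deriv (fun t => e (c t)) 0)) (e (c 0)) ξ

/-- `‖B_L‖ ≤ Λ`: the second fundamental form `B_L(v, v) = (∇_v v)^⊥` of `L` satisfies
`|g(ξ, B_L(v, v))| ≤ Λ |ξ| |v|^2` for all the normal vectors `ξ` and tangent vectors `v`.  (For a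
curve `c` in `L`, `B_L(c', c')` is the normal component of `∇_t c'`.) -/
def AlmostKahler.SFFBound (L : Set M) (Lam : ℝ) : Prop :=
  ∀ e ∈ Charts V M, ∀ c : ℝ → M, CurveIn (V := V) L c → c 0 ∈ e.source →
    ∀ ξ : V, (∀ v ∈ tanC e L (c 0), A.gC e (e (c 0)) ξ v = 0) →
    |A.covAcc e c ξ| ≤ Lam * Real.sqrt (A.gC e (e (c 0)) ξ ξ) *
      A.gC e (e (c 0)) (deriv (fun t => e (c t)) 0) (deriv (fun t => e (c t)) 0)

/-- Two submanifolds intersect transversely. -/
def Transverse (V : Type u) [NormedAddCommGroup V] [InnerProductSpace ℝ V]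
    {M : Type v} [MetricSpace M] [ChartedSpace V M] (L N : Set M) : Prop :=
  ∀ e ∈ Charts V M, ∀ y ∈ L ∩ N, y ∈ e.source →
    Submodule.span ℝ (tanC e L y ∪ tanC e N y) = (⊤ : Submodule ℝ V)

/-- `φ` is the time one map of a compactly supported Hamiltonian isotopy with Hofer length less
than `ε`, and its `C^0` distance to the identity is less than `ε`. -/
def AlmostKahler.HamSmall (φ : M → M) (ε : ℝ) : Prop :=
  ∃ (H : ℝ × M → ℝ) (ψ : ℝ × M → M),
    ContMDiff (𝓘(ℝ, ℝ).prod 𝓘(ℝ, V)) 𝓘(ℝ, ℝ) ∞ H ∧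
    ContMDiff (𝓘(ℝ, ℝ).prod 𝓘(ℝ, V)) 𝓘(ℝ, V) ∞ ψ ∧
    (∃ K : Set M, IsCompact K ∧ ∀ t ∈ Icc (0:ℝ) 1, ∀ x ∉ K, H (t, x) = 0) ∧
    (∀ x, ψ (0, x) = x) ∧
    (∀ t ∈ Icc (0:ℝ) 1, ∀ x, ∀ v : TangentSpace 𝓘(ℝ, V) (ψ (t, x)),
      A.om (ψ (t, x)) (mfderiv 𝓘(ℝ, ℝ) 𝓘(ℝ, V) (fun s => ψ (s, x)) t (1:ℝ)) v =
        mfderiv 𝓘(ℝ, V) 𝓘(ℝ, ℝ) (fun y => H (t, y)) (ψ (t, x)) v) ∧
    (∀ x, ψ (1, x) = φ x) ∧
    (∫ t in (0:ℝ)..1, ((⨆ x, H (t, x)) - ⨅ x, H (t, x))) < ε ∧
    ∀ x, dist (φ x) x < ε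

/-- The point of the unit circle with argument `s`. -/
def circ (s : ℝ) : ℂ := Complex.exp (s * Complex.I)

/-- The area `∫ u^* ω` of a map from the closed unit disk. -/
def AlmostKahler.area (u : ℂ → M) : ℝ :=
  ∫ z in ball (0:ℂ) 1, A.om (u z) (mfderiv 𝓘(ℝ, ℂ) 𝓘(ℝ, V) u z (1:ℂ))
    (mfderiv 𝓘(ℝ, ℂ) 𝓘(ℝ, V) u z Complex.I)

/-- `u` is a `J`-holomorphic polygon with the `m + 2 ≥ 2` boundary punctures
`circ (t 0), circ (t 1), …` in the counterclockwise order; the boundary arc between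
`circ (t i)` and `circ (t (i + 1))` is mapped to `Lag i`, and `u` converges at the punctures. -/
structure AlmostKahler.IsPolygon {m : ℕ} (t : Fin (m + 3) → ℝ) (Lag : Fin (m + 2) → Set M)
    (u : ℂ → M) : Prop where
  mono : StrictMono t
  turn : t (Fin.last (m + 2)) = t 0 + 2 * Real.pi
  cont : ContinuousOn u (closedBall 0 1)
  smooth : ContMDiffOn 𝓘(ℝ, ℂ) 𝓘(ℝ, V) ∞ u (closedBall 0 1 \ range fun i => circ (t i))
  hol : ∀ z ∈ ball (0:ℂ) 1, ∀ h : ℂ, mfderiv 𝓘(ℝ, ℂ) 𝓘(ℝ, V) u z (Complex.I * h) =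
    A.J (u z) (mfderiv 𝓘(ℝ, ℂ) 𝓘(ℝ, V) u z h)
  boundary : ∀ i : Fin (m + 2), ∀ s ∈ Ioo (t i.castSucc) (t i.succ), u (circ s) ∈ Lag i
  energy : IntegrableOn (fun z => A.om (u z) (mfderiv 𝓘(ℝ, ℂ) 𝓘(ℝ, V) u z (1:ℂ))
    (mfderiv 𝓘(ℝ, ℂ) 𝓘(ℝ, V) u z Complex.I)) (ball 0 1)

/-- `u` is a `J`-holomorphic polygon with boundary on the Lagrangians `G 0, G 1, …` which passes
through the point `x` of `G j`: the first boundary arc is mapped to `G j` and its image contains
`x`; the other arcs are mapped to Lagrangians `G i` with `i ≠ j`. -/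
def AlmostKahler.PolygonThrough {k : ℕ} (G : Fin (k + 2) → Set M) (j : Fin (k + 2)) (x : M)
    (u : ℂ → M) : Prop :=
  ∃ (m : ℕ) (t : Fin (m + 3) → ℝ) (lab : Fin (m + 2) → Fin (k + 2)), lab 0 = j ∧
    (∀ i, i ≠ 0 → lab i ≠ j) ∧ A.IsPolygon t (fun i => G (lab i)) u ∧
    ∃ s ∈ Icc (t 0) (t 1), u (circ s) = x

/-- The function `d` (the pseudometric `d^𝓕`) is `J`-adapted: for all `δ > 0` and `L, L'` there
are `F_1, …, F_k` in `𝓕` such that for all sufficiently `C^0`- and Hofer-small Hamiltonian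
perturbations of `L, L', F_1, …, F_k` which make them pairwise transverse, through every point of
the perturbed `L` and `L'` passes a nonconstant `J`-holomorphic polygon with boundary on these
perturbations and with area at most `d(L, L') + δ`. -/
def AlmostKahler.JAdapted (𝓛 𝓕 : Set (Set M)) (d : Set M → Set M → ℝ) : Prop :=
  ∀ δ > 0, ∀ L ∈ 𝓛, ∀ L' ∈ 𝓛, ∃ (k : ℕ) (F : Fin k → Set M), (∀ i, F i ∈ 𝓕) ∧ ∃ ε > 0,
    ∀ Φ : Fin (k + 2) → M → M, (∀ i, A.HamSmall (Φ i) ε) →
    ∀ G : Fin (k + 2) → Set M,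
      (∀ i, G i = Φ i '' ((Fin.cons L (Fin.cons L' F) : Fin (k + 2) → Set M) i)) →
      (∀ i j, i ≠ j → Transverse V (G i) (G j)) →
      ∀ j : Fin (k + 2), j = 0 ∨ j = 1 → ∀ x ∈ G j, ∃ u : ℂ → M, A.PolygonThrough G j x u ∧
        (∃ z ∈ closedBall (0:ℂ) 1, u z ≠ x) ∧ A.area u ≤ d L L' + δ

end AK

/-- `d` is a pseudometric on the set `𝓛`. -/
structure IsPseudometricOn {X : Type*} (𝓛 : Set X) (d : X → X → ℝ) : Prop where
  self : ∀ x ∈ 𝓛, d x x = 0
  nonneg : ∀ x ∈ 𝓛, ∀ y ∈ 𝓛, 0 ≤ d x y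
  comm : ∀ x ∈ 𝓛, ∀ y ∈ 𝓛, d x y = d y x
  triangle : ∀ x ∈ 𝓛, ∀ y ∈ 𝓛, ∀ z ∈ 𝓛, d x z ≤ d x y + d y z

end Pool.Agent.H823.HC
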