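import Mathlib
import Pool.Agent.H823.HC.Defs

/-!
# Project HC, part HP: the half-plane theorem (pure analysis in the upper half-plane)

Every `S_X` below is a closed statement to be proved (`theorem t_X : S_X`), with a complete paper
proof in its docstring.
-/

open scoped Topology ContDiff Manifold
open Set Metric Filter MeasureTheory

noncomputable section

namespace Pool.Agent.H823.HC

universe w

/-- The upper half-plane together with the negative real axis. -/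
def Dom : Set ℂ := {z | 0 < z.im ∨ (z.im = 0 ∧ z.re < 0)}

/-- The open upper half-plane. -/
def UH : Set ℂ := {z | 0 < z.im}

/-- The closed upper half-plane. -/
def UHc : Set ℂ := {z | 0 ≤ z.im}

/-- The closed upper half disk with centre the real number `m` and radius `ρ`. -/
def Hc (m ρ : ℝ) : Set ℂ := {z | ‖z - m‖ ≤ ρ ∧ 0 ≤ z.im}

/-- The situation of the half-plane theorem: `u` is a map from the closed upper half-plane to a
metric space, `φ` its conformal factor (defined on `Dom`), `E` bounds the energy; closed disks and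
half disks whose image is in the `κ`-ball of a point of their boundary circle satisfy the
isoperimetric inequality with the constant `C₁`. -/
structure HP {X : Type w} [MetricSpace X] (u : ℂ → X) (φ : ℂ → ℝ) (κ C₁ E : ℝ) : Prop where
  unif : UniformContinuousOn u UHc
  cont : ContinuousOn φ Dom
  nonneg : ∀ z, 0 ≤ φ z
  int : IntegrableOn (fun z => φ z ^ 2) UH
  energy : ∫ z in UH, φ z ^ 2 ≤ E
  len : ∀ γ : ℝ → ℂ, ContDiff ℝ ∞ γ → ∀ a b : ℝ, a ≤ b → (∀ t ∈ Icc a b, γ t ∈ Dom) →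
    dist (u (γ a)) (u (γ b)) ≤ ∫ t in a..b, φ (γ t) * ‖deriv γ t‖
  iso_int : ∀ (z : ℂ) (s : ℝ), 0 < s → closedBall z s ⊆ UH →
    (∀ w ∈ closedBall z s, dist (u w) (u (z + s)) < κ) →
    ∫ w in closedBall z s, φ w ^ 2 ≤ C₁ * (∫ θ in (0:ℝ)..(2 * Real.pi), φ (z + s * circ θ) * s) ^ 2
  iso_bd : ∀ m ρ : ℝ, 0 < ρ → m + ρ < 0 →
    (∀ w ∈ Hc m ρ, dist (u w) (u ((m + ρ : ℝ) : ℂ)) < κ) →
    ∫ w in Hc m ρ, φ w ^ 2 ≤ C₁ * (∫ θ in (0:ℝ)..Real.pi, φ (m + ρ * circ θ) * ρ) ^ 2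

/-- The threshold for the energy. -/
def cz (κ C₁ : ℝ) : ℝ := min (C₁ * (κ / 4) ^ 2) ((κ / (8 * (20 * √C₁))) ^ 2)

/-- **POLAR.** Polar coordinates with an arbitrary centre and an arbitrary angular interval of
length `2π`.

Proof.  `Complex.lintegral_comp_polarCoord_symm` gives the case `c = 0`, `α = -π` (up to the null
set of the negative real axis; `circ θ = cos θ + i sin θ`).  Translate for the centre
(`MeasureTheory.lintegral_add_left_eq_self`); for the angular interval use that for each `t` the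
function `θ ↦ f (c + t * circ θ)` is `2π`-periodic (a lintegral version of
`Function.Periodic.intervalIntegral_add_eq`; split `Ioc α (α + 2π)` or use rotation invariance of
the Lebesgue measure: replace `f` by `z ↦ f (c + circ (α + π) * z)`, a linear isometry). -/
def S_POLAR : Prop := ∀ (f : ℂ → ENNReal), Measurable f → ∀ (c : ℂ) (α : ℝ),
  ∫⁻ z, f z = ∫⁻ t in Ioi (0:ℝ), ∫⁻ θ in Ioc α (α + 2 * Real.pi),
    f (c + t * circ θ) * ENNReal.ofReal t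

/-- **POLD.** The integral over a closed disk in polar coordinates, for a continuous function.
Proof: `S_POLAR` (or directly the Mathlib polar coordinates) applied to the function times the
indicator of the disk; everything is continuous on compact sets. -/
def S_POLD : Prop := ∀ (f : ℂ → ℝ) (c : ℂ) (ρ α : ℝ), 0 < ρ → ContinuousOn f (closedBall c ρ) →
  (∀ z, 0 ≤ f z) →
  ∫ z in closedBall c ρ, f z =
    ∫ t in (0:ℝ)..ρ, ∫ θ in α..(α + 2 * Real.pi), f (c + t * circ θ) * t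

/-- **POLH.** The integral over a closed half disk in polar coordinates, for a continuous
nonnegative function.  Proof: as `S_POLD` (with `α = -π` the points of the disk in `UHc` are, up to
a null set, those with `θ ∈ [0, π]`). -/
def S_POLH : Prop := ∀ (f : ℂ → ℝ) (m ρ : ℝ), 0 < ρ → ContinuousOn f (Hc m ρ) →
  (∀ z, 0 ≤ f z) →
  ∫ z in Hc m ρ, f z =
    ∫ t in (0:ℝ)..ρ, ∫ θ in (0:ℝ)..Real.pi, f (m + t * circ θ) * t

/-- **RAY.** Integrals over the rays in a sector where the isoperimetric inequality holds for all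
the radii.

Proof.  Put `a t = ∫ θ, Q t θ ^ 2 * t` (continuous on `[0, T]`), `A t = ∫ s in 0..t, a s`, so
`A' = a` on `(0, T)`, `A` nondecreasing.  By Cauchy-Schwarz
`(∫ θ, Q t θ * t) ^ 2 ≤ Θ * t * a t`, so `A t ≤ C₁ * Θ * t * a t` for `0 < t ≤ T`.  Also
`∫ θ, Q t θ ≤ √(Θ * ∫ θ, Q t θ ^ 2) = √(Θ * a t / t)`.  At a point `t` with `A t > 0` we have
`a t > 0` and `√(a t / t) = a t / √(t * a t) ≤ √(C₁ Θ) * a t / √(A t) = 2 √(C₁ Θ) (√A)'(t)`; if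
`A t₀ = 0` then `Q = 0` on `(0, t₀]` by continuity.  Let `t₀` be the supremum of the zeros of `A` in
`[0, T]`: integrating over `[t₀ + ε, T]` and letting `ε → 0`,
`∫ t in 0..T, ∫ θ, Q t θ ≤ √Θ * 2 * √(C₁ Θ) * √(A T) = 2 * Θ * √(C₁ * A T)`. -/
def S_RAY : Prop := ∀ (Q : ℝ → ℝ → ℝ) (C₁ T α Θ : ℝ), 0 ≤ C₁ → 0 < T → 0 < Θ →
  ContinuousOn (Function.uncurry Q) (Icc 0 T ×ˢ Icc α (α + Θ)) → (∀ t θ, 0 ≤ Q t θ) →
  (∀ t ∈ Ioc 0 T, ∫ s in (0:ℝ)..t, ∫ θ in α..(α + Θ), Q s θ ^ 2 * s ≤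
    C₁ * (∫ θ in α..(α + Θ), Q t θ * t) ^ 2) →
  ∫ t in (0:ℝ)..T, ∫ θ in α..(α + Θ), Q t θ ≤
    2 * Θ * √(C₁ * ∫ s in (0:ℝ)..T, ∫ θ in α..(α + Θ), Q s θ ^ 2 * s)

/-- **SELECT.** A short ray.  `c` is a point such that the sector of radius `T` with angles in
`[α, α + Θ]` is in `Dom` and the isoperimetric inequality holds in it for all the radii `≤ T`.  Then
in every set of directions of measure `≥ π / 4` there is one such that the integral of `φ` over the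
ray up to time `T`, plus the integral over the part in the compact set `D` of the ray between the
times `T` and `4 T`, is at most `20 √C₁ √E`.

Proof.  By `S_POLAR` (the real line is a null set) `∫ s in 0..T, ∫ θ, φ ^ 2 * s ≤ ∫ UH, φ ^ 2 ≤ E`,
so `S_RAY` gives
`∫ θ in θ₁..θ₂, ∫ t in 0..T, φ ≤ 2 Θ √(C₁ E) ≤ 4 π √(C₁ E)` (Fubini, continuity).  For the outer part
put `F t θ = D.indicator φ (c + t * circ θ)`, a bounded measurable function on
`[T, 4T] × [θ₁, θ₂]` (`φ` is continuous on the compact set `D`).  By Cauchy-Schwarz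
`∫∫ F ≤ (∫∫ F ^ 2 * t) ^ (1/2) * (∫∫ 1 / t) ^ (1/2) ≤ √E * √(2 π log 4) ≤ 3 √E` (again `S_POLAR`).  The sum of the
two integrals over `θ ∈ [θ₁, θ₂]` is at most `(4 π √C₁ + 3) √E ≤ (4 π + 3) √C₁ √E`, and
`(4 π + 3) / (π / 4) ≤ 20`: so not all the `θ` in `[θ₁, θ₂]` can violate the claim. -/
def S_SELECT : Prop := ∀ (φ : ℂ → ℝ) (C₁ E : ℝ), 1 ≤ C₁ → ContinuousOn φ Dom → (∀ z, 0 ≤ φ z) →
  IntegrableOn (fun z => φ z ^ 2) UH → ∫ z in UH, φ z ^ 2 ≤ E →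
  ∀ (c : ℂ) (α Θ T θ₁ θ₂ : ℝ) (D : Set ℂ), 0 < T → 0 < Θ → Θ ≤ 2 * Real.pi → α ≤ θ₁ →
  θ₂ ≤ α + Θ → Real.pi / 4 ≤ θ₂ - θ₁ →
  (∀ t ∈ Icc 0 T, ∀ θ ∈ Icc α (α + Θ), c + t * circ θ ∈ Dom) →
  (∀ t ∈ Ioc 0 T, ∫ s in (0:ℝ)..t, ∫ θ in α..(α + Θ), φ (c + s * circ θ) ^ 2 * s ≤
    C₁ * (∫ θ in α..(α + Θ), φ (c + t * circ θ) * t) ^ 2) →
  IsCompact D → D ⊆ Dom →
  ∃ θ ∈ Icc θ₁ θ₂, (∫ t in (0:ℝ)..T, φ (c + t * circ θ)) +
    (∫ t in T..(4 * T), D.indicator φ (c + t * circ θ)) ≤ 20 * √C₁ * √E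

/-- **EXIT.** Rays which make an angle at most `π / 3` with the outward direction leave a disk
after at most twice the distance to the circle.

Proof.  Let `a = ‖z' - z‖`, `z' - z = a * circ θ₀`, `ψ = θ - θ₀`, `|ψ| ≤ π / 3`.  Then
`‖z' + t * circ θ - z‖ ^ 2 = a ^ 2 + 2 t a cos ψ + t ^ 2`, which is increasing in `t ≥ 0`, less than `s ^ 2` at
`t = 0`, and at `t = 2 (s - a)` it is at least `a ^ 2 + 2 (s - a) a + 4 (s - a) ^ 2 =
s ^ 2 + 3 (s - a) ^ 2 ≥ s ^ 2`.  So by the intermediate value theorem it is equal to `s ^ 2` for some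
`τ ∈ (0, 2 (s - a)]` and `≤ s ^ 2` before. -/
def S_EXIT : Prop := ∀ (z z' : ℂ) (s θ₀ θ : ℝ), ‖z' - z‖ < s → z' - z = ‖z' - z‖ * circ θ₀ →
  |θ - θ₀| ≤ Real.pi / 3 →
  ∃ τ ∈ Ioc 0 (2 * (s - ‖z' - z‖)), ‖z' + τ * circ θ - z‖ = s ∧
    ∀ t ∈ Icc 0 τ, z' + t * circ θ ∈ closedBall z s

/-- **INT.** The isoperimetric inequality for all the disks of the open upper half-plane with a
short boundary circle.

Proof.  Write `a(z, s) = ∫ closedBall z s, φ ^ 2`, `l(z, s) = ∫ θ in 0..2π, φ (z + s circ θ) * s`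
(the integral over any interval `[α, α + 2π]`), `η = κ / 4`, `C₅ = 20 √C₁`.  Let `P r` be the
statement: for all `z`, `0 < s ≤ r` with `closedBall z s ⊆ UH` and `l(z, s) ≤ η`:
`a(z, s) ≤ C₁ l(z, s) ^ 2`.
* `P r₀` for some `r₀ > 0`: by uniform continuity choose `r₀` such that `dist (u w) (u w') < κ` for
  `w, w' ∈ UHc`, `‖w - w'‖ ≤ 2 r₀`, and apply `iso_int`.
* `P r → P (2 r)`: let `s ≤ 2 r`, `closedBall z s ⊆ UH`, `l(z, s) ≤ η`.  Let `z' ∈ ball z s`,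
  `ρ' = s - ‖z' - z‖`, `T = ρ' / 2 ≤ r`.  For `0 < t ≤ T` the disk `closedBall z' t` is in
  `closedBall z s ⊆ UH` and `a(z', t) ≤ C₁ l(z', t) ^ 2`: by `P r` if `l(z', t) ≤ η`, and because
  `a(z', t) ≤ E ≤ C₁ η ^ 2` otherwise.  By `S_POLD`, `a(z', t)` is the iterated integral.  Choose
  `θ₀` with `z' - z = ‖z' - z‖ circ θ₀` and apply `S_SELECT` with `c = z'`, `α = θ₀ - π`, `Θ = 2π`,
  `[θ₁, θ₂] = [θ₀ - π/3, θ₀ + π/3]`, `D = closedBall z s`: there is a `θ` such that the sum of the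
  integrals is `≤ C₅ √E`.  With the exit time `τ ≤ 2 ρ' = 4 T` of `S_EXIT`, the segment from `z'` to
  `y = z' + τ circ θ` is in `closedBall z s`, so `dist (u z') (u y) ≤ C₅ √E` by `len` (the integral over
  `[0, τ]` is at most the sum, also if `τ ≤ T`).  And `dist (u y) (u (z + s)) ≤ l(z, s) ≤ η` by `len`
  along the circle.  Hence
  `dist (u z') (u (z + s)) ≤ C₅ √E + η < κ` since `√E ≤ κ / (8 C₅)`; it also holds for `z'` on the
  circle.  So `iso_int` applies.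
* Induction: `P (2 ^ n r₀)` for all `n`. -/
def S_INT : Prop := ∀ (X : Type w) [MetricSpace X] (u : ℂ → X) (φ : ℂ → ℝ) (κ C₁ E : ℝ),
  0 < κ → 1 ≤ C₁ → HP u φ κ C₁ E → E ≤ cz κ C₁ →
  ∀ (z : ℂ) (s : ℝ), 0 < s → closedBall z s ⊆ UH →
    ∫ θ in (0:ℝ)..(2 * Real.pi), φ (z + s * circ θ) * s ≤ κ / 4 →
    ∫ w in closedBall z s, φ w ^ 2 ≤ C₁ * (∫ θ in (0:ℝ)..(2 * Real.pi), φ (z + s * circ θ) * s) ^ 2

/-- **BD.** The isoperimetric inequality for all the half disks with centre on the negative real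
axis, contained in `Dom`, with a short boundary semicircle.

Proof.  Write `A(m, ρ) = ∫ Hc m ρ, φ ^ 2`, `ℓ(m, ρ) = ∫ θ in 0..π, φ (m + ρ circ θ) * ρ`,
`η = κ / 4`, `C₅ = 20 √C₁`.  Let `P r`: for all `m`, `0 < ρ ≤ r` with `m + ρ < 0` and
`ℓ(m, ρ) ≤ η`: `A(m, ρ) ≤ C₁ ℓ(m, ρ) ^ 2`.
* `P r₀` for a small `r₀ > 0` by uniform continuity and `iso_bd`.
* `P r → P (2 r)`: let `ρ ≤ 2 r`, `m + ρ < 0`, `ℓ(m, ρ) ≤ η`.
  (i) Let `m' ∈ (m - ρ, m + ρ)` be real, `ρ' = ρ - |m' - m|`, `T = ρ' / 2 ≤ r`.  For `0 < t ≤ T`: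
  `A(m', t) ≤ C₁ ℓ(m', t) ^ 2` (by `P r` or because `A ≤ E ≤ C₁ η ^ 2`); use `S_POLH`.  Apply
  `S_SELECT` with `c = m'`, `α = 0`, `Θ = π`, `[θ₁, θ₂] = [0, π/3]` if `m' ≥ m` and `[2π/3, π]` if
  `m' < m`, `D = Hc m ρ`, and `S_EXIT` (centre `m`, `θ₀ = 0` resp. `π`): there is a point `y` with
  `‖y - m‖ = ρ`, `0 ≤ y.im`, such that the segment from `m'` to `y` is in `Hc m ρ` (the imaginary part is
  `≥ 0` along the ray) and `dist (u m') (u y) ≤ C₅ √E`.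
  (ii) Let `z' ∈ Hc m ρ` with `0 < z'.im` and `‖z' - m‖ < ρ`; `s₀ = min z'.im (ρ - ‖z' - m‖)`,
  `T = s₀ / 2`.  For `0 < t ≤ T` the disk `closedBall z' t` is in `UH` and
  `a(z', t) ≤ C₁ l(z', t) ^ 2` by `S_INT` (or because `a ≤ E ≤ C₁ η ^ 2`).
  Case 1: `s₀ = ρ - ‖z' - m‖`.  Let `z' - m = ‖z' - m‖ circ θ₀` with `θ₀ ∈ (0, π)`; take
  `[θ₁, θ₂] = [θ₀, θ₀ + π/3]` if `θ₀ ≤ π/2`, and `[θ₀ - π/3, θ₀]` otherwise: these directions have a
  nonnegative imaginary part.  `S_SELECT` with `Θ = 2π`, `α = θ₀ - π`, `D = Hc m ρ`, and `S_EXIT` give as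
  before `y` with `‖y - m‖ = ρ`, `0 ≤ y.im` and `dist (u z') (u y) ≤ C₅ √E`.
  Case 2: `s₀ = z'.im`.  Take `[θ₁, θ₂] = [-3π/4, -π/4]`, `α = -π`, `Θ = 2π`, `D = Hc m ρ`.  The ray
  in the direction `θ` reaches the real axis at the time
  `τ = z'.im / |sin θ| ≤ √2 z'.im ≤ 4 T = 2 z'.im`, at a point `m''` with
  `|m'' - z'.re| ≤ z'.im ≤ ρ - ‖z' - m‖`, so that `|m'' - m| ≤ ρ`; by convexity the segment from
  `z'` to `m''` is in `Hc m ρ`.  So
  `dist (u z') (u m'') ≤ C₅ √E`, and by (i) (or trivially if `|m'' - m| = ρ`) there is a `y` on the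
  semicircle with `dist (u z') (u y) ≤ 2 C₅ √E`.
  In all the cases `dist (u y) (u (m + ρ)) ≤ ℓ(m, ρ) ≤ η` by `len`, and
  `2 C₅ √E + η ≤ κ / 4 + κ / 4 < κ`, so `iso_bd` applies. -/
def S_BD : Prop := ∀ (X : Type w) [MetricSpace X] (u : ℂ → X) (φ : ℂ → ℝ) (κ C₁ E : ℝ),
  0 < κ → 1 ≤ C₁ → HP u φ κ C₁ E → E ≤ cz κ C₁ →
  ∀ m ρ : ℝ, 0 < ρ → m + ρ < 0 →
    ∫ θ in (0:ℝ)..Real.pi, φ (m + ρ * circ θ) * ρ ≤ κ / 4 →
    ∫ w in Hc m ρ, φ w ^ 2 ≤ C₁ * (∫ θ in (0:ℝ)..Real.pi, φ (m + ρ * circ θ) * ρ) ^ 2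

/-- **FIN.** The half-plane theorem: if the energy is at most `cz κ C₁` then every point of the
negative real axis is mapped close to the image of the nonnegative real axis.

Proof.  Let `m < 0`, `T = |m| / 2`.  For `0 < t ≤ T` (so `m + t < 0`), `A(m, t) ≤ C₁ ℓ(m, t) ^ 2` by
`S_BD` (or because `A ≤ E ≤ C₁ (κ / 4) ^ 2`); use `S_POLH`.  `S_SELECT` with `c = m`, `α = 0`, `Θ = π`,
`[θ₁, θ₂] = [π/4, 3π/4]`, `D = {m + t circ θ | T ≤ t ≤ 4 T, θ ∈ [π/4, 3π/4]}` gives a `θ` such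
that `∫ t in 0..4T, φ (m + t circ θ) ≤ 20 √C₁ √E`.  By the polar coordinates
`∫ r in 2T..4T, ∫ ϑ in (0, π), φ (m + r circ ϑ) ^ 2 * r ≤ E`, hence there is an `r ∈ [2T, 4T]` with
`r * ∫ ϑ in (0, π), φ (m + r circ ϑ) ^ 2 * r ≤ E / log 2` (use lower integrals), and by
Cauchy-Schwarz `(∫ ϑ in ε..θ, φ (m + r circ ϑ) * r) ^ 2 ≤ π E / log 2` for all `0 < ε < θ`.  By `len`
along the ray up to the time `r ≤ 4T` and along the arc from `θ` to `ε`,
`dist (u m) (u (m + r circ ε)) ≤ 20 √C₁ √E + √(π / log 2) √E ≤ 23 √C₁ √E`; let `ε → 0` (continuity of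
`u` on `UHc`): `y = m + r ≥ m + 2T = 0`. -/
def S_FIN : Prop := ∀ (X : Type w) [MetricSpace X] (u : ℂ → X) (φ : ℂ → ℝ) (κ C₁ E : ℝ),
  0 < κ → 1 ≤ C₁ → HP u φ κ C₁ E → E ≤ cz κ C₁ →
  ∀ m : ℝ, m < 0 → ∃ y : ℝ, 0 ≤ y ∧ dist (u m) (u y) ≤ 23 * √C₁ * √E

end Pool.Agent.H823.HC
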