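import Mathlib
import Pool.Agent.H823.HC.StmHP

/-!
# Project HC, part V: the local geometry in a chart (everything happens in the vector space `V`)

Every `S_X` below is a closed statement to be proved (`theorem t_X : S_X`), with a complete paper
proof in its docstring.
-/

open scoped Topology ContDiff Manifold
open Set Metric Filter MeasureTheory

noncomputable section

namespace Pool.Agent.H823.HC

universe u

section

variable {V : Type u} [NormedAddCommGroup V] [InnerProductSpace ℝ V]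

/-- The tangent vectors of the set `S` at `x`: velocities of smooth curve germs in `S`. -/
def tanV (S : Set V) (x : V) : Set V :=
  {v | ∃ c : ℝ → V, ContDiffAt ℝ ∞ c 0 ∧ c 0 = x ∧ (∀ᶠ t in 𝓝 (0:ℝ), c t ∈ S) ∧ deriv c 0 = v}

/-- Near `x` the set `S` is, up to a diffeomorphism, a linear subspace of dimension `n`. -/
def SliceAt (n : ℕ) (S : Set V) (x : V) : Prop :=
  ∃ Φ : OpenPartialHomeomorph V V, x ∈ Φ.source ∧ ContDiffOn ℝ ∞ Φ Φ.source ∧
    ContDiffOn ℝ ∞ Φ.symm Φ.target ∧ ∃ W : Submodule ℝ V, Module.finrank ℝ W = n ∧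
      ∀ z ∈ Φ.source, (z ∈ S ↔ Φ z ∈ W)

/-- A closed alternating smooth two-form on the open ball of radius `R`. -/
structure ClosedForm (R : ℝ) (Om : V → V →L[ℝ] V →L[ℝ] ℝ) : Prop where
  smooth : ContDiffOn ℝ ∞ Om (ball 0 R)
  alt : ∀ x ∈ ball (0:V) R, ∀ v, Om x v v = 0
  closed : ∀ x ∈ ball (0:V) R, ∀ u v w,
    fderiv ℝ Om x u v w + fderiv ℝ Om x v w u + fderiv ℝ Om x w u v = 0

/-- The coordinate expressions `G` of a metric and `Om` of a symplectic form on the open ball of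
radius `r`: `G` is bounded in `C^1` (constant `K`) and uniformly elliptic. -/
structure ChartTensors (r K : ℝ) (G Om : V → V →L[ℝ] V →L[ℝ] ℝ) : Prop where
  form : ClosedForm r Om
  G_smooth : ContDiffOn ℝ ∞ G (ball 0 r)
  G_symm : ∀ x ∈ ball (0:V) r, ∀ v w, G x v w = G x w v
  G_lower : ∀ x ∈ ball (0:V) r, ∀ v, (K⁻¹ * ‖v‖) ^ 2 ≤ G x v v
  G_upper : ∀ x ∈ ball (0:V) r, ∀ v, G x v v ≤ (K * ‖v‖) ^ 2
  G_deriv : ∀ x ∈ ball (0:V) r, ∀ u v w, |fderiv ℝ G x u v w| ≤ K * ‖u‖ * ‖v‖ * ‖w‖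
  Om_le : ∀ x ∈ ball (0:V) r, ∀ v w, |Om x v w| ≤ √(G x v v) * √(G x w w)

/-- A piece `S` of an `n`-dimensional isotropic submanifold in the ball of radius `r`, with second
fundamental form bounded by `Lam` for the metric `G`. -/
structure ChartPiece (r K Lam : ℝ) (n : ℕ) (G Om : V → V →L[ℝ] V →L[ℝ] ℝ) (S : Set V) :
    Prop where
  tens : ChartTensors r K G Om
  S_sub : S ⊆ ball 0 r
  S_closed : ∀ x ∈ ball (0:V) r, x ∈ closure S → x ∈ S
  S_slice : ∀ x ∈ S, SliceAt n S x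
  S_iso : ∀ x ∈ S, ∀ v ∈ tanV S x, ∀ w ∈ tanV S x, Om x v w = 0
  S_sff : ∀ c : ℝ → V, ContDiffAt ℝ ∞ c 0 → (∀ᶠ t in 𝓝 (0:ℝ), c t ∈ S) → ∀ ξ : V,
    (∀ v ∈ tanV S (c 0), G (c 0) ξ v = 0) →
    |G (c 0) ξ (deriv (deriv c) 0) + fderiv ℝ G (c 0) (deriv c 0) (deriv c 0) ξ
      - (1 / 2) * fderiv ℝ G (c 0) ξ (deriv c 0) (deriv c 0)| ≤
      Lam * √(G (c 0) ξ ξ) * G (c 0) (deriv c 0) (deriv c 0)

/-- The size of the sheets: with `C₂ = 3 (Lam + 3/2) K ^ 3` (the bound of `S_HESS`) we have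
`C₂ * Rad ≤ 1/4`. -/
def Rad (r K Lam : ℝ) : ℝ := min (r / 8) (1 / (12 * (Lam + 3 / 2) * K ^ 3))

end

/-- **TANV.** The tangent vectors form a linear subspace of dimension `n`.

Proof.  Let `Φ`, `W` be the slice chart.  If `c` is a curve in `S` with `c 0 = x` then `Φ ∘ c` is a curve in the
(closed) subspace `W` near `0`, so its velocity `DΦ_x v` is in `W`; conversely for `w ∈ W` the curve
`t ↦ Φ.symm (Φ x + t w)` is in `S` for small `t` and has the velocity `(DΦ_x)⁻¹ w`.  So the set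
is the preimage of `W` under the linear isomorphism `DΦ_x` (its inverse is `D(Φ.symm)` at `Φ x`). -/
def S_TANV : Prop := ∀ (V : Type u) [NormedAddCommGroup V] [InnerProductSpace ℝ V]
  [FiniteDimensional ℝ V] (n : ℕ) (S : Set V) (x : V), SliceAt n S x → x ∈ S →
  ∃ Tx : Submodule ℝ V, Module.finrank ℝ Tx = n ∧ (Tx : Set V) = tanV S x

/-- **LOC.** Local graphs.  If the orthogonal projection to the subspace `T` of dimension `n` is
injective on the tangent space of `S` at `x₀` then `S` is near `x₀` the graph of a smooth function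
on a ball of `T`: there is a smooth local section `f` of the projection, with values in `S`, which
contains all the points of `S` close to `x₀`.

Proof.  Let `Φ`, `W` be a slice chart at `x₀` and `P = T.orthogonalProjectionOnto`.  The map
`q : W → T`, `q w = P (Φ.symm w)` is smooth near `w₀ = Φ x₀` and its derivative
`P ∘ D(Φ.symm)(w₀)` is injective on `W` (the range of `D(Φ.symm)(w₀)` on `W` is the tangent space)
hence bijective (`finrank W = n = finrank T`).  The inverse function theorem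
(`ContDiffAt.toOpenPartialHomeomorph`, `ContDiffAt.to_localInverse`) gives a smooth local inverse
`q'`; put `f = Φ.symm ∘ q'`, on a small ball.  If `x ∈ S` is close to `x₀` then `Φ x ∈ W` is close
to `w₀`, so `x = Φ.symm (Φ x)`, `q (Φ x) = P x` and `q' (P x) = Φ x`, i.e. `f (P x) = x`. -/
def S_LOC : Prop := ∀ (V : Type u) [NormedAddCommGroup V] [InnerProductSpace ℝ V]
  [FiniteDimensional ℝ V] (n : ℕ) (S : Set V) (x₀ : V) (T : Submodule ℝ V), SliceAt n S x₀ →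
  x₀ ∈ S → Module.finrank ℝ T = n →
  (∀ v ∈ tanV S x₀, T.orthogonalProjectionOnto v = 0 → v = 0) →
  ∃ δ > 0, ∃ δ' > 0, ∃ f : T → V, ContDiffOn ℝ ∞ f (ball (T.orthogonalProjectionOnto x₀) δ) ∧
    f (T.orthogonalProjectionOnto x₀) = x₀ ∧
    (∀ t ∈ ball (T.orthogonalProjectionOnto x₀) δ, f t ∈ S ∧ T.orthogonalProjectionOnto (f t) = t) ∧
    ∀ x ∈ S, dist x x₀ < δ' → T.orthogonalProjectionOnto x ∈ ball (T.orthogonalProjectionOnto x₀) δ ∧
      f (T.orthogonalProjectionOnto x) = x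

/-- **HESS.** The second fundamental form bounds the second derivative of local sections of the
projection to `T` with slope at most `1`.

Proof.  Let `w ∈ T` and `c s = f (t₀ + s w)`: a curve in `S` near `s = 0`, `P (c s) = t₀ + s w`.
So `c' = Df w`, `‖c'‖ ^ 2 = ‖w‖ ^ 2 + ‖c' - w‖ ^ 2 ≤ 2 ‖w‖ ^ 2` and `q := c'' = D²f(w, w)` is in `Tᗮ`.
The tangent space `Tx` of `S` at `x = f t₀` (`S_TANV`) contains the range of `Df(t₀)`, which has the
dimension `n`, so `Tx = {Df w' | w' ∈ T}`.  Write `q = τ + ν` with `τ ∈ Tx` and `ν` `G`-orthogonal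
to `Tx` (`G x` is an inner product).  Then `G(ν, ν) = G(ν, q)`, and by `S_sff` with `ξ = ν`, `G_deriv`,
`G_upper`, `G_lower` (`‖ν‖ ≤ K √G(ν,ν)`):
`G(ν, ν) ≤ Lam √G(ν,ν) K ^ 2 ‖c'‖ ^ 2 + (3/2) K ‖c'‖ ^ 2 ‖ν‖ ≤ √G(ν,ν) (Lam + 3/2) K ^ 2 ‖c'‖ ^ 2`, so
`√G(ν,ν) ≤ 2 (Lam + 3/2) K ^ 2 ‖w‖ ^ 2`.  For `τ = Df w' = w' + A w'` with `A w' ∈ Tᗮ`,
`‖A w'‖ ≤ ‖w'‖`: `‖ν‖ ^ 2 = ‖q - τ‖ ^ 2 = ‖w'‖ ^ 2 + ‖q - A w'‖ ^ 2 ≥ ‖q‖ ^ 2 / 2` (as
`‖q‖ ≤ ‖q - A w'‖ + ‖w'‖`).  So `‖q‖ ≤ √2 ‖ν‖ ≤ √2 K √G(ν,ν) ≤ 2 √2 (Lam + 3/2) K ^ 3 ‖w‖ ^ 2`, i.e.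
`‖D²f(w, w)‖ ≤ C ‖w‖ ^ 2` with `C = 3 (Lam + 3/2) K ^ 3`.  By polarization of the symmetric bilinear map
`D²f(t₀)` and the parallelogram law, `‖D²f(w, w')‖ ≤ C ‖w‖ ‖w'‖`. -/
def S_HESS : Prop := ∀ (V : Type u) [NormedAddCommGroup V] [InnerProductSpace ℝ V]
  [FiniteDimensional ℝ V] (r K Lam : ℝ) (n : ℕ) (G Om : V → V →L[ℝ] V →L[ℝ] ℝ) (S : Set V),
  0 < r → 1 ≤ K → 0 ≤ Lam → ChartPiece r K Lam n G Om S → ∀ (T : Submodule ℝ V),
  Module.finrank ℝ T = n → ∀ (f : T → V) (t₀ : T), ContDiffAt ℝ ∞ f t₀ →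
  (∀ᶠ t in 𝓝 t₀, f t ∈ S ∧ T.orthogonalProjectionOnto (f t) = t) →
  (∀ w : T, ‖fderiv ℝ f t₀ w - w‖ ≤ ‖w‖) →
  ∀ w w' : T, ‖fderiv ℝ (fderiv ℝ f) t₀ w w'‖ ≤ 3 * (Lam + 3 / 2) * K ^ 3 * ‖w‖ * ‖w'‖

/-- **LIFT.** Lifts of rays.  Let `T` be the tangent space of `S` at `0`.  Every segment
`t ↦ t v`, `0 ≤ t ≤ 1`, with `v ∈ T`, `‖v‖ < Rad`, has a continuous lift to `S` from `0`, along which the
slope of `S` over `T` is at most `1/4`.

Proof.  Put `C₂ = 3 (Lam + 3/2) K ^ 3`, so `C₂ * Rad ≤ 1/4`, `Rad ≤ r/8`.  Say that `x ∈ S` has slope `≤ a` if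
`‖w - P w‖ ≤ a ‖P w‖` for all `w ∈ tanV S x`.  Let `I` be the set of `τ ∈ [0, 1]` such that there
is a continuous `γ : [0, τ] → V` with `γ 0 = 0`, `γ t ∈ S`, `P (γ t) = t v` and slope
`≤ C₂ t ‖v‖` at `γ t`.  `0 ∈ I`.
Open: if `τ ∈ I`, `τ < 1`, take the local section `f` of `S_LOC` at `x₀ = γ τ` (slope `≤ 1/4 < 1`
gives the injectivity); near `t₀ = τ v` the derivative of `f` has slope `< 1` by continuity (the range
of `Df(t)` is the tangent space at `f t`, by dimension and `S_TANV`), so by `S_HESS` and the mean value inequality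
`‖Df(t₀ + s v) - Df(t₀)‖ ≤ C₂ s ‖v‖` and the slope at `f (t₀ + s v)` is `≤ C₂ (τ + s) ‖v‖` for small
`s ≥ 0` (note `P ∘ Df = id`, so `Df w - w ∈ Tᗮ`).  Extend `γ` by `γ (τ + s) = f (t₀ + s v)`.
Unique: two lifts on `[0, τ]` agree (the set where they agree is closed, and open by the last
clause of `S_LOC`).
Closed: let `τ = sup`.  The unique lift on `[0, τ)` is locally of the form `f (t v)` with `f` smooth of
slope `≤ 1/4`, so it is Lipschitz with the constant `(5/4) ‖v‖`, so it has a limit `x* `,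
`‖x*‖ ≤ (5/4) ‖v‖ < r`, and `x* ∈ S` by `S_closed`.
The tangent vectors at `x*` are limits of tangent vectors at `γ t` (use the slice chart at `x*`), so
the slope at `x*` is `≤ C₂ τ ‖v‖`.  (Instead of the supremum one can use
`IsClosed.Icc_subset_of_forall_exists_gt`.) -/
def S_LIFT : Prop := ∀ (V : Type u) [NormedAddCommGroup V] [InnerProductSpace ℝ V]
  [FiniteDimensional ℝ V] (r K Lam : ℝ) (n : ℕ) (G Om : V → V →L[ℝ] V →L[ℝ] ℝ) (S : Set V),
  0 < r → 1 ≤ K → 0 ≤ Lam → ChartPiece r K Lam n G Om S → (0:V) ∈ S →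
  ∀ (T : Submodule ℝ V), Module.finrank ℝ T = n → (T : Set V) = tanV S 0 →
  ∀ v : T, ‖v‖ < Rad r K Lam → ∃ γ : ℝ → V, ContinuousOn γ (Icc 0 1) ∧ γ 0 = 0 ∧
    ∀ t ∈ Icc (0:ℝ) 1, γ t ∈ S ∧ T.orthogonalProjectionOnto (γ t) = t • v ∧
      ∀ w ∈ tanV S (γ t), ‖w - T.orthogonalProjectionOnto w‖ ≤
        (1 / 4) * ‖T.orthogonalProjectionOnto w‖

/-- **SECT.** The sheet through `0`: a smooth section of the projection to `T = T_0 S` over the ball
of radius `Rad`, with values in `S` and slope at most `1/4`.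

Proof.  For `v` in the ball `B` of `T` choose the lift `γ_v` of `S_LIFT` and put `g (t, v) = γ_v t`.
Let `S'` be the set of the points of `S` with `‖w - P w‖ ≤ (1/4) ‖P w‖` replaced by the open condition
that `P` is injective on `tanV S x`; by `S_LOC` the map `P : S' → T` is a local homeomorphism (on the
subtype; `S'` is relatively open in `S` because of the last clause of `S_LOC` and the fact that the
tangent space at `f t` is the range of `Df(t)`, on which `P` is injective).  `g : I × B → S'` is a lift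
of the continuous map `(t, v) ↦ t v`, continuous in `t` for each `v`, and constant for `t = 0`.  By
`IsLocalHomeomorph.continuous_lift` (Mathlib/Topology/Homotopy/Lifting.lean; `S'` is Hausdorff so
the map is separated) `g` is continuous.  Put `f v = g (1, v)`: continuous, `P (f v) = v`, `f v ∈ S`,
`f 0 = 0` (the lift of the constant path is constant by uniqueness, or use `S_LOC`).  By the last clause of
`S_LOC` the map `f` coincides near every point with a smooth local section, so it is smooth; the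
range of `Df(t)` is in `tanV S (f t)`, and `P (Df(t) w) = w`, so the slope bound of `S_LIFT` gives
`‖Df(t) w - w‖ ≤ (1/4) ‖w‖`. -/
def S_SECT : Prop := ∀ (V : Type u) [NormedAddCommGroup V] [InnerProductSpace ℝ V]
  [FiniteDimensional ℝ V] (r K Lam : ℝ) (n : ℕ) (G Om : V → V →L[ℝ] V →L[ℝ] ℝ) (S : Set V),
  0 < r → 1 ≤ K → 0 ≤ Lam → ChartPiece r K Lam n G Om S → (0:V) ∈ S →
  ∃ (T : Submodule ℝ V) (f : T → V), Module.finrank ℝ T = n ∧ (T : Set V) = tanV S 0 ∧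
    ContDiffOn ℝ ∞ f (ball 0 (Rad r K Lam)) ∧ f 0 = 0 ∧
    (∀ t ∈ ball (0:T) (Rad r K Lam), f t ∈ S ∧ T.orthogonalProjectionOnto (f t) = t) ∧
    ∀ t ∈ ball (0:T) (Rad r K Lam), ∀ w : T, ‖fderiv ℝ f t w - w‖ ≤ (1 / 4) * ‖w‖

/-- **CONT.** A continuous path in `S`, inside the ball of radius `Rad`, which ends at `0`, stays in
the sheet through `0`.

Proof.  Let `A = {t ∈ [a, b] | c t = f (P (c t))}`; `‖P (c t)‖ ≤ ‖c t‖ < Rad`.  `b ∈ A`.  `A` is closed in
`[a, b]` by continuity.  `A` is open in `[a, b]`: if `t₀ ∈ A`, `x₀ = c t₀ = f (P x₀)`, the tangent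
space of `S` at `x₀` is the range of `Df(P x₀)` (dimension `n`: `P ∘ Df = id`), on which `P` is
injective, so `S_LOC` applies at `x₀`: for `t` close to `t₀` both `c t` and `f (P (c t))` are points
of `S` close to `x₀` with the same projection, so they are equal.  `[a, b]` is connected. -/
def S_CONT : Prop := ∀ (V : Type u) [NormedAddCommGroup V] [InnerProductSpace ℝ V]
  [FiniteDimensional ℝ V] (n : ℕ) (S : Set V) (R : ℝ) (T : Submodule ℝ V) (f : T → V),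
  (∀ x ∈ S, SliceAt n S x) → Module.finrank ℝ T = n → ContDiffOn ℝ ∞ f (ball 0 R) → f 0 = 0 →
  (∀ t ∈ ball (0:T) R, f t ∈ S ∧ T.orthogonalProjectionOnto (f t) = t) →
  ∀ (c : ℝ → V) (a b : ℝ), a ≤ b → ContinuousOn c (Icc a b) →
  (∀ t ∈ Icc a b, c t ∈ S ∧ ‖c t‖ < R) → c b = 0 →
  ∀ t ∈ Icc a b, c t = f (T.orthogonalProjectionOnto (c t))

/-- **PRIM.** Primitives of closed two-forms on a ball, by the radial homotopy.

Proof.  `lam x v = ∫ t in 0..1, t * Om (t x) x v`.  It is of class `C^1` (differentiation under the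
integral sign; `Om` is smooth on the ball).  One computes
`D lam(x)(u)(v) - D lam(x)(v)(u) = ∫ t in 0..1, t^2 (DOm(tx)(u)(x,v) - DOm(tx)(v)(x,u)) + 2 t Om(tx)(u,v)`
(using `Om(u,v) = -Om(v,u)`), and closedness gives
`DOm(tx)(u)(x,v) - DOm(tx)(v)(x,u) = DOm(tx)(x)(u,v)` up to the alternating rule
(`DOm(u)(v,x) + DOm(v)(x,u) + DOm(x)(u,v) = 0` with
`DOm(u)(v,x) = -DOm(u)(x,v)`), so the integrand is the derivative of
`t ^ 2 * Om(tx)(u,v)` and the integral is `Om(x)(u,v)`.  The bound and the vanishing on isotropic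
subspaces `T` are clear from the formula. -/
def S_PRIM : Prop := ∀ (V : Type u) [NormedAddCommGroup V] [InnerProductSpace ℝ V]
  [FiniteDimensional ℝ V] (R B : ℝ) (Om : V → V →L[ℝ] V →L[ℝ] ℝ), 0 < R → 0 ≤ B →
  ClosedForm R Om → (∀ x ∈ ball (0:V) R, ∀ v w, |Om x v w| ≤ B * ‖v‖ * ‖w‖) →
  ∃ lam : V → V →L[ℝ] ℝ, ContDiffOn ℝ 1 lam (ball 0 R) ∧
    (∀ x ∈ ball (0:V) R, ∀ u v, fderiv ℝ lam x u v - fderiv ℝ lam x v u = Om x u v) ∧
    (∀ x ∈ ball (0:V) R, ∀ v, |lam x v| ≤ B / 2 * ‖x‖ * ‖v‖) ∧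
    ∀ T : Submodule ℝ V, (∀ x ∈ T, x ∈ ball (0:V) R → ∀ v ∈ T, ∀ w ∈ T, Om x v w = 0) →
      ∀ x ∈ T, x ∈ ball (0:V) R → ∀ v ∈ T, lam x v = 0

/-- **GREENH.** Stokes' theorem for the pull back of a one-form of class `C^1` by a smooth map from
a closed half disk.

Proof.  Put `F(t, θ) = û (m + t circ θ)` on `[0, ρ] × [0, π]`.  The functions
`p = lam(F)(∂_t F)`, `q = lam(F)(∂_θ F)` are `C^1` on the closed rectangle in the sense: continuous on the
closed rectangle, differentiable in the interior, and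
`∂_t q - ∂_θ p = Dlam(F)(∂_t F)(∂_θ F) - Dlam(F)(∂_θ F)(∂_t F) = t * (Dlam(û)(∂_x û)(∂_y û) - Dlam(û)(∂_y û)(∂_x û))`
(chain rule; mixed derivatives of `F` commute in the interior; `∂_t F = Dû(circ θ)`,
`∂_θ F = Dû(t i circ θ)`, and an alternating bilinear form satisfies
`β(Dû(circ θ), Dû(t i circ θ)) = t β(∂_x û, ∂_y û)`).  The divergence theorem on rectangles
(`MeasureTheory.integral2_divergence_prod_of_hasFDerivAt_off_countable` or
`integral_divergence_prod_Icc_of_hasFDerivAt_off_countable_of_le`) gives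
`∫∫ = ∫ θ in 0..π, q(ρ, θ) - ∫ θ in 0..π, q(0, θ) + ∫ t in 0..ρ, p(t, 0) - ∫ t in 0..ρ, p(t, π)`; `q(0, θ) = 0`,
`p(t, 0) = lam(û(m + t))(∂_x û)`, `p(t, π) = -lam(û(m - t))(∂_x û)`; and the left hand side is the integral over
the half disk by `S_POLH` (proved there for nonnegative functions; write the function as a difference
`g + C - C`, or redo the polar coordinates). -/
def S_GREENH : Prop := ∀ (V : Type u) [NormedAddCommGroup V] [InnerProductSpace ℝ V]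
  [FiniteDimensional ℝ V] (R m ρ : ℝ) (lam : V → V →L[ℝ] ℝ) (v : ℂ → V), 0 < R → 0 < ρ →
  ContDiffOn ℝ 1 lam (ball 0 R) → ContDiffOn ℝ ∞ v (Hc m ρ) → (∀ z ∈ Hc m ρ, v z ∈ ball (0:V) R) →
  ∫ z in Hc m ρ, (fderiv ℝ lam (v z) (fderivWithin ℝ v (Hc m ρ) z 1)
      (fderivWithin ℝ v (Hc m ρ) z Complex.I) -
    fderiv ℝ lam (v z) (fderivWithin ℝ v (Hc m ρ) z Complex.I)
      (fderivWithin ℝ v (Hc m ρ) z 1)) =
  (∫ θ in (0:ℝ)..Real.pi, lam (v (m + ρ * circ θ))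
    (fderivWithin ℝ v (Hc m ρ) (m + ρ * circ θ) (ρ * (Complex.I * circ θ)))) +
  ∫ x in (m - ρ)..(m + ρ), lam (v x) (fderivWithin ℝ v (Hc m ρ) x 1)

/-- **GREEND.** The same for a closed disk.

Proof.  As for `S_GREENH`, on the rectangle `[0, ρ] × [0, 2π]`; the contributions of the sides
`θ = 0` and `θ = 2π` cancel. -/
def S_GREEND : Prop := ∀ (V : Type u) [NormedAddCommGroup V] [InnerProductSpace ℝ V]
  [FiniteDimensional ℝ V] (R ρ : ℝ) (c : ℂ) (lam : V → V →L[ℝ] ℝ) (v : ℂ → V), 0 < R → 0 < ρ →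
  ContDiffOn ℝ 1 lam (ball 0 R) → ContDiffOn ℝ ∞ v (closedBall c ρ) →
  (∀ z ∈ closedBall c ρ, v z ∈ ball (0:V) R) →
  ∫ z in closedBall c ρ, (fderiv ℝ lam (v z) (fderivWithin ℝ v (closedBall c ρ) z 1)
      (fderivWithin ℝ v (closedBall c ρ) z Complex.I) -
    fderiv ℝ lam (v z) (fderivWithin ℝ v (closedBall c ρ) z Complex.I)
      (fderivWithin ℝ v (closedBall c ρ) z 1)) =
  ∫ θ in (0:ℝ)..(2 * Real.pi), lam (v (c + ρ * circ θ))
    (fderivWithin ℝ v (closedBall c ρ) (c + ρ * circ θ) (ρ * (Complex.I * circ θ)))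

/-- **PULL.** The pull back of a closed alternating two-form is closed.

Proof.  Product and chain rules:
`D(ψ^*Om)(x)(u)(v,w) = DOm(ψ x)(Dψ u)(Dψ v, Dψ w) + Om(ψ x)(D²ψ(u,v), Dψ w) + Om(ψ x)(Dψ v, D²ψ(u,w))`;
in the cyclic sum the first terms cancel by closedness and the others by the symmetry of
`D²ψ(x)` (`ContDiffAt.isSymmSndFDerivAt`) and the antisymmetry of `Om`. -/
def S_PULL : Prop := ∀ (V : Type u) [NormedAddCommGroup V] [InnerProductSpace ℝ V]
  [FiniteDimensional ℝ V] (R R' : ℝ) (Om : V → V →L[ℝ] V →L[ℝ] ℝ) (ψ : V → V),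
  ClosedForm R Om → ContDiffOn ℝ ∞ ψ (ball 0 R') → (∀ x ∈ ball (0:V) R', ψ x ∈ ball (0:V) R) →
  ClosedForm R' (fun x => (Om (ψ x)).bilinearComp (fderiv ℝ ψ x) (fderiv ℝ ψ x))

/-- **ISOVH.** The isoperimetric inequality for half disks in the flat model: the real segment is
mapped to the isotropic linear subspace `T`, and the right end of the segment to `0`.

Proof.  Take the primitive `lam` of `S_PRIM`; by `S_GREENH` the left hand side is
`∫ θ in 0..π, lam(v)(∂_θ v)` because `lam = 0` on `T` and `∂_x v ∈ T` along the segment (a closed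
subspace; `v` maps the segment to `T`).  Since `‖v (m + ρ circ θ)‖ ≤ ∫ ‖∂_θ v‖ =: ℓ` (from `0` to `θ`), the absolute
value is at most `(B / 2) * ℓ * ℓ`. -/
def S_ISOVH : Prop := ∀ (V : Type u) [NormedAddCommGroup V] [InnerProductSpace ℝ V]
  [FiniteDimensional ℝ V] (R B m ρ : ℝ) (Om : V → V →L[ℝ] V →L[ℝ] ℝ) (T : Submodule ℝ V)
  (v : ℂ → V), 0 < R → 0 ≤ B → 0 < ρ → ClosedForm R Om →
  (∀ x ∈ ball (0:V) R, ∀ v w, |Om x v w| ≤ B * ‖v‖ * ‖w‖) →
  (∀ x ∈ T, x ∈ ball (0:V) R → ∀ v ∈ T, ∀ w ∈ T, Om x v w = 0) →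
  ContDiffOn ℝ ∞ v (Hc m ρ) → (∀ z ∈ Hc m ρ, v z ∈ ball (0:V) R) →
  (∀ x ∈ Icc (m - ρ) (m + ρ), v (x : ℂ) ∈ T) → v ((m + ρ : ℝ) : ℂ) = 0 →
  |∫ z in Hc m ρ, Om (v z) (fderivWithin ℝ v (Hc m ρ) z 1)
      (fderivWithin ℝ v (Hc m ρ) z Complex.I)| ≤
  B / 2 * (∫ θ in (0:ℝ)..Real.pi,
    ‖fderivWithin ℝ v (Hc m ρ) (m + ρ * circ θ) (ρ * (Complex.I * circ θ))‖) ^ 2

/-- **ISOVD.** The isoperimetric inequality for disks in the flat model.  Proof: as `S_ISOVH`, with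
`S_GREEND`. -/
def S_ISOVD : Prop := ∀ (V : Type u) [NormedAddCommGroup V] [InnerProductSpace ℝ V]
  [FiniteDimensional ℝ V] (R B ρ : ℝ) (c : ℂ) (Om : V → V →L[ℝ] V →L[ℝ] ℝ)
  (v : ℂ → V), 0 < R → 0 ≤ B → 0 < ρ → ClosedForm R Om →
  (∀ x ∈ ball (0:V) R, ∀ v w, |Om x v w| ≤ B * ‖v‖ * ‖w‖) →
  ContDiffOn ℝ ∞ v (closedBall c ρ) → (∀ z ∈ closedBall c ρ, v z ∈ ball (0:V) R) →
  v (c + ρ) = 0 →
  |∫ z in closedBall c ρ, Om (v z) (fderivWithin ℝ v (closedBall c ρ) z 1)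
      (fderivWithin ℝ v (closedBall c ρ) z Complex.I)| ≤
  B / 2 * (∫ θ in (0:ℝ)..(2 * Real.pi),
    ‖fderivWithin ℝ v (closedBall c ρ) (c + ρ * circ θ) (ρ * (Complex.I * circ θ))‖) ^ 2

/-- **SARD.** Parametric transversality in finite dimensions.  `G(p, q)` is smooth near `(p₀, q₀)`,
`D_p G` is onto and `dim Q = dim V`.  Then for almost all `p` near `p₀`, at all the zeros
`q` near `q₀` of `G(p, ·)` the derivative `D_q G` is bijective (onto).

Proof.  Write `P` for the Euclidean space.  Choose a subspace `P₁ ⊆ P` such that `D_p G(p₀,q₀) : P₁ → V` is an isomorphism, and a complement `P₂`.  By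
the implicit function theorem there are neighbourhoods such that, with `p = a + b`, `a ∈ P₁`,
`b ∈ P₂`, `G(a + b, q) = 0` iff `a = σ(b, q)`, with `σ` smooth.  Let `Σ(b, q) = σ(b, q) + b ∈ P`; the source
`P₂ × Q` has the dimension of `P`.  If `G(p, q) = 0` with `p = Σ(b, q)` and `D_q G(p, q)` is not onto, then since
`D_q G = - D_a G ∘ D_q σ` and `D_a G` is an isomorphism, `D_q σ` is not bijective `Q → P₁`, hence
`DΣ(b, q)` is not bijective.  By Sard's theorem for maps between spaces of the same dimension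
(`MeasureTheory.addHaar_image_eq_zero_of_det_fderiv_eq_zero`, after identifying
`P₂ × Q` with `P` by a linear isomorphism) the set of such `p` is a null set. -/
def S_SARD : Prop := ∀ (N : ℕ) (Q V : Type u) [NormedAddCommGroup Q] [NormedSpace ℝ Q]
  [FiniteDimensional ℝ Q] [NormedAddCommGroup V] [NormedSpace ℝ V] [FiniteDimensional ℝ V]
  (G : EuclideanSpace ℝ (Fin N) × Q → V) (p₀ : EuclideanSpace ℝ (Fin N)) (q₀ : Q),
  Module.finrank ℝ Q = Module.finrank ℝ V → ContDiffAt ℝ ∞ G (p₀, q₀) →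
  Function.Surjective (fderiv ℝ (fun p => G (p, q₀)) p₀) →
  ∃ O ∈ 𝓝 p₀, ∃ O' ∈ 𝓝 q₀, (volume : Measure (EuclideanSpace ℝ (Fin N)))
    {p ∈ O | ∃ q ∈ O', G (p, q) = 0 ∧ ¬ Function.Surjective (fderiv ℝ (fun q => G (p, q)) q)} = 0

end Pool.Agent.H823.HC
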