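import Mathlib
import Pool.Agent.H823.HC.StmV

/-!
# Project HC, part M: from the chart to the manifold, transversality, polygons, conclusion

Every `S_X` below is a closed statement to be proved (`theorem t_X : S_X`), with a complete paper
proof in its docstring.
-/

open scoped Topology ContDiff Manifold
open Set Metric Filter MeasureTheory

noncomputable section

namespace Pool.Agent.H823.HC

universe u v

section

variable {V : Type u} [NormedAddCommGroup V] [InnerProductSpace ℝ V]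
  {M : Type v} [MetricSpace M] [ChartedSpace V M] (A : AlmostKahler V M)

/-- The conformal factor of a `J`-holomorphic map defined on `D ⊆ ℂ`: the norm of `∂_x u`. -/
def AlmostKahler.sp (D : Set ℂ) (u : ℂ → M) (z : ℂ) : ℝ :=
  A.nrm (u z) (mfderivWithin 𝓘(ℝ, ℂ) 𝓘(ℝ, V) u D z (1:ℂ))

/-- `u` is smooth on `D` (up to the boundary points which belong to `D`) and `J`-holomorphic. -/
structure AlmostKahler.HolOn (D : Set ℂ) (u : ℂ → M) : Prop where
  smooth : ContMDiffOn 𝓘(ℝ, ℂ) 𝓘(ℝ, V) ∞ u D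
  hol : ∀ z ∈ D, ∀ h : ℂ, mfderivWithin 𝓘(ℝ, ℂ) 𝓘(ℝ, V) u D z (Complex.I * h) =
    A.J (u z) (mfderivWithin 𝓘(ℝ, ℂ) 𝓘(ℝ, V) u D z h)

end

/-- The map from the upper half-plane to the unit disk used for the polygons: it maps the negative
real axis to the arc between `circ t₀` and `circ t₁` if `β = - cot ((t₁ - t₀) / 2)`. -/
def cay (t₀ β : ℝ) (z : ℂ) : ℂ := circ t₀ * ((z + β - Complex.I) / (z + β + Complex.I))

/-- **LEN.** The distance is at most the length, for curves of class `C^1` on a closed interval.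

Proof.  Let `a < b` (the case `a = b` is trivial).  For small `ε > 0` put
`g t = a + ε + (b - a - 2 ε) * Real.smoothTransition t`, a smooth monotone function with values in
`[a + ε, b - ε]`, `g 0 = a + ε`, `g 1 = b - ε`.  The curve `c ∘ g : ℝ → M` is of class `C^1` (`c` is `C^1` at the
interior points), so by `isGLB_dist` (lower bound) `dist (c (a + ε)) (c (b - ε))` is at most its length,
which by the chain rule and the substitution rule
(`intervalIntegral.integral_comp_mul_deriv'`) is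
`∫ t in (a + ε)..(b - ε)` of the speed of `c`, at most the right hand side (the integrand is
continuous and nonnegative; the derivative within `Icc a b` is the derivative at interior points).
Let `ε → 0`, using the continuity of `c`. -/
def S_LEN : Prop := ∀ (V : Type u) [NormedAddCommGroup V] [InnerProductSpace ℝ V]
  [FiniteDimensional ℝ V] (M : Type v) [MetricSpace M] [ChartedSpace V M]
  [IsManifold 𝓘(ℝ, V) ∞ M] (A : AlmostKahler V M) (c : ℝ → M) (a b : ℝ), a ≤ b →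
  ContMDiffOn 𝓘(ℝ, ℝ) 𝓘(ℝ, V) 1 c (Icc a b) →
  dist (c a) (c b) ≤ ∫ t in a..b, A.nrm (c t)
    (mfderivWithin 𝓘(ℝ, ℝ) 𝓘(ℝ, V) c (Icc a b) t (1:ℝ))

/-- **DIST.** Distances and the Euclidean norm in a good chart.

Proof.  Let `dist p x < ℓ < r / K` and `c` a `C^1` curve from `p` to `x` of length `< ℓ`.  Let
`I = {t ∈ [0,1] | ∀ s ∈ [0,t], c s ∈ e.source ∧ e (c s) ∈ ball 0 r}`.  On `I` the curve `e ∘ c` is `C^1`
and by `lower` its speed is `≤ K` times the speed of `c`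
(`mfderiv c t 1 = frame e (e (c t)) (deriv (e ∘ c) t)`), so `‖e (c t)‖ ≤ K ℓ < r`.  So `I` is open and closed in
`[0, 1]` (closed: `c s` is in the compact, hence closed set `e.symm '' closedBall 0 (K ℓ)`), `I = [0, 1]`,
and `‖e x‖ ≤ K ℓ` for all such `ℓ`. -/
def S_DIST : Prop := ∀ (V : Type u) [NormedAddCommGroup V] [InnerProductSpace ℝ V]
  [FiniteDimensional ℝ V] (M : Type v) [MetricSpace M] [ChartedSpace V M]
  [IsManifold 𝓘(ℝ, V) ∞ M] (A : AlmostKahler V M) (r K : ℝ) (p : M)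
  (e : OpenPartialHomeomorph M V), 0 < r → 1 ≤ K → A.GoodChart r K p e →
  ∀ x : M, dist p x < r / K → x ∈ e.source ∧ ‖e x‖ ≤ K * dist p x

/-- **PROPER.** Bounded geometry implies that closed balls are compact.

Proof.  With `κ = r / (2 K)`: by `S_DIST`, `closedBall p κ ⊆ e.symm '' closedBall 0 (r / 2)` which
is compact, so all closed balls of radius `κ` are compact.  If `closedBall p R` is compact then so is
`closedBall p (R + κ / 4)`: cover `closedBall p R` by finitely many balls `ball (y i) (κ / 4)`; a point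
`z` with `dist p z ≤ R + κ / 4` has a point `y` with `dist p y ≤ R`, `dist y z ≤ κ / 2` (on a curve
from `p` to `z` of length `< dist p z + κ / 8`, the distance to `p` is continuous, and lengths of
the two parts add up; use `isGLB_dist` and `S_LEN`), so `closedBall p (R + κ / 4)` is contained in the finite
union of the compact sets `closedBall (y i) κ`.  Induction. -/
def S_PROPER : Prop := ∀ (V : Type u) [NormedAddCommGroup V] [InnerProductSpace ℝ V]
  [FiniteDimensional ℝ V] (M : Type v) [MetricSpace M] [ChartedSpace V M]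
  [IsManifold 𝓘(ℝ, V) ∞ M] (A : AlmostKahler V M), A.BoundedGeometry → ProperSpace M

/-- **TENS.** The coordinate expressions of `g_J` and `ω` in a good chart, as smooth maps to the
space of continuous bilinear forms.

Proof.  `frame e x` is the continuous linear map `mfderiv e.symm x`; define
`Om x v w = A.omC e x v w` and `G x v w = A.gC e x v w` as continuous bilinear maps (compose; everything is
finite-dimensional, `LinearMap.toContinuousLinearMap` if needed).  A map to the finite-dimensional space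
of bilinear forms is smooth if its evaluations at all the pairs `(v, w)` are (`smooth_om`, `smooth_g`; use a basis);
`fderiv ℝ G x u v w = fderiv ℝ (fun y => G y v w) x u`.  The other fields: `alt`, `closed`,
`symm` (`ω(v, J w) = ω(w, J v)`), the `GoodChart` bounds, and the Cauchy-Schwarz inequality
`|ω(v, w)| = |g(v, J w)| ≤ |v| |J w| = |v| |w|` (`ω(v, w) = - ω(v, J (J w)) = - g(v, J w)`,
`g(J w, J w) = ω(J w, J (J w)) = - ω(J w, w) = ω(w, J w)`). -/
def S_TENS : Prop := ∀ (V : Type u) [NormedAddCommGroup V] [InnerProductSpace ℝ V]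
  [FiniteDimensional ℝ V] (M : Type v) [MetricSpace M] [ChartedSpace V M]
  [IsManifold 𝓘(ℝ, V) ∞ M] (A : AlmostKahler V M) (r K : ℝ) (p : M)
  (e : OpenPartialHomeomorph M V), 0 < r → 1 ≤ K → A.GoodChart r K p e →
  ∃ G Om : V → V →L[ℝ] V →L[ℝ] ℝ, ChartTensors r K G Om ∧
    ∀ x ∈ ball (0:V) r, ∀ v w, G x v w = A.gC e x v w ∧ Om x v w = A.omC e x v w

/-- **PIECE.** A Lagrangian submanifold with bounded second fundamental form, in a good chart.

Proof.  `S = {x ∈ ball 0 r | e.symm x ∈ L}`.  Closedness: `L` is compact, hence closed, and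
`e.symm` is continuous on the target.  Slices: for `x ∈ S` let `e'`, `W` be a slice chart of `L` at
`e.symm x`; `Φ = e.symm.trans e'` restricted to the ball (`OpenPartialHomeomorph.restr`,
`symm_trans_mem_contDiffGroupoid`/`IsManifold.compatible_of_mem_maximalAtlas` give smoothness).
A smooth curve germ `c` in `S` gives the curve germ `e.symm ∘ c` in `L`, with `e ∘ e.symm ∘ c = c` near `0`; so
`tanV S x = tanC e L (e.symm x)`, and `S_iso`, `S_sff` follow from `isotropic`, `SFFBound`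
(`A.covAcc` is the expression in `S_sff`, because
`fderiv ℝ (fun y => A.gC e y v w) x u = fderiv ℝ G x u v w`). -/
def S_PIECE : Prop := ∀ (V : Type u) [NormedAddCommGroup V] [InnerProductSpace ℝ V]
  [FiniteDimensional ℝ V] (M : Type v) [MetricSpace M] [ChartedSpace V M]
  [IsManifold 𝓘(ℝ, V) ∞ M] (A : AlmostKahler V M) (r K Lam : ℝ) (p : M)
  (e : OpenPartialHomeomorph M V) (G Om : V → V →L[ℝ] V →L[ℝ] ℝ) (n : ℕ) (L : Set M),
  0 < r → 1 ≤ K → A.GoodChart r K p e → ChartTensors r K G Om →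
  (∀ x ∈ ball (0:V) r, ∀ v w, G x v w = A.gC e x v w ∧ Om x v w = A.omC e x v w) →
  A.IsLagr L → IsSubmfd V n L → A.SFFBound L Lam →
  ChartPiece r K Lam n G Om {x ∈ ball (0:V) r | e.symm x ∈ L}

/-- **HOLB.** A map which is smooth on `Dom` and `J`-holomorphic in the open upper half-plane
satisfies the Cauchy-Riemann equation also at the points of the negative real axis; its
conformal factor is continuous on `Dom`, and its square is `ω(∂_x u, ∂_y u)`.

Proof.  `Dom` is convex with nonempty interior, so it has unique derivatives.  Let `z₀ ∈ Dom`, `e` a chart at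
`u z₀`; near `z₀` in `Dom`, `mfderivWithin u Dom z h = frame e (e (u z)) (fderivWithin (e ∘ u) Dom z h)`, and
`fderivWithin (e ∘ u) Dom` is continuous.  The equation `w = J v` at a point is equivalent to
`∀ ξ, ω(ξ, w) = g(ξ, v)`, i.e. in coordinates `omC (ξ, w) = gC (ξ, v)` (nondegeneracy); for fixed
`ξ` and `h` both sides, with `v = D(e ∘ u) h`, `w = D(e ∘ u) (i h)`, are continuous on `Dom` near `z₀` and
agree on `UH`, which is dense in `Dom`.  The continuity of the conformal factor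
`√(gC (e (u z)) (∂_x) (∂_x))` is similar.  Finally `ω(∂_x u, ∂_y u) = ω(∂_x u, J ∂_x u)`. -/
def S_HOLB : Prop := ∀ (V : Type u) [NormedAddCommGroup V] [InnerProductSpace ℝ V]
  [FiniteDimensional ℝ V] (M : Type v) [MetricSpace M] [ChartedSpace V M]
  [IsManifold 𝓘(ℝ, V) ∞ M] (A : AlmostKahler V M) (u : ℂ → M),
  ContMDiffOn 𝓘(ℝ, ℂ) 𝓘(ℝ, V) ∞ u Dom →
  (∀ z ∈ UH, ∀ h : ℂ, mfderiv 𝓘(ℝ, ℂ) 𝓘(ℝ, V) u z (Complex.I * h) =
    A.J (u z) (mfderiv 𝓘(ℝ, ℂ) 𝓘(ℝ, V) u z h)) →
  A.HolOn Dom u ∧ ContinuousOn (A.sp Dom u) Dom ∧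
    ∀ z ∈ UH, A.sp Dom u z ^ 2 = A.om (u z) (mfderiv 𝓘(ℝ, ℂ) 𝓘(ℝ, V) u z (1:ℂ))
      (mfderiv 𝓘(ℝ, ℂ) 𝓘(ℝ, V) u z Complex.I)

/-- **RESTR.** Restriction of a `J`-holomorphic map from `Dom` to a convex subset with nonempty
interior: the derivatives within the two sets agree.

Proof.  `mfderivWithin_subset`/`MDifferentiableWithinAt.mono` and uniqueness of the derivative within a
convex set with nonempty interior. -/
def S_RESTR : Prop := ∀ (V : Type u) [NormedAddCommGroup V] [InnerProductSpace ℝ V]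
  [FiniteDimensional ℝ V] (M : Type v) [MetricSpace M] [ChartedSpace V M]
  [IsManifold 𝓘(ℝ, V) ∞ M] (A : AlmostKahler V M) (u : ℂ → M), A.HolOn Dom u →
  ∀ D : Set ℂ, D ⊆ Dom → Convex ℝ D → (interior D).Nonempty →
  A.HolOn D u ∧ ∀ z ∈ D, A.sp D u z = A.sp Dom u z

/-- **LENU.** Lengths of the images of smooth curves in `Dom` under a `J`-holomorphic map.

Proof.  `S_LEN` for `c = u ∘ γ` on `[a, b]`; by the chain rule the velocity is
`mfderivWithin u Dom (γ t) (γ' t)` (`γ` maps `[a, b]` into `Dom`), and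
`nrm (Du (x + i y)) = |x + i y| nrm (Du 1)` because `Du(x + i y) = x Du(1) + y J Du(1)`,
`g(v, J v) = ω(v, J (J v)) = - ω(v, v) = 0` and `g(J v, J v) = g(v, v)`. -/
def S_LENU : Prop := ∀ (V : Type u) [NormedAddCommGroup V] [InnerProductSpace ℝ V]
  [FiniteDimensional ℝ V] (M : Type v) [MetricSpace M] [ChartedSpace V M]
  [IsManifold 𝓘(ℝ, V) ∞ M] (A : AlmostKahler V M) (u : ℂ → M), A.HolOn Dom u →
  ∀ γ : ℝ → ℂ, ContDiff ℝ ∞ γ → ∀ a b : ℝ, a ≤ b → (∀ t ∈ Icc a b, γ t ∈ Dom) →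
    dist (u (γ a)) (u (γ b)) ≤ ∫ t in a..b, A.sp Dom u (γ t) * ‖deriv γ t‖

/-- **ISOMH.** The isoperimetric inequality for half disks with boundary on a Lagrangian with
bounded second fundamental form.

Proof.  Let `r, K` be the constants of the bounded geometry, `R = Rad r K Lam`, `κ = R / (4 K)`,
`C₁ = 64 K ^ 4` (not optimal; any constant depending only on `A`, `Lam`).  Let `b = u (m + ρ) ∈ L`, `e` the good chart at `b`,
`w = e ∘ u` on `D = Hc m ρ`: by `S_DIST`, `u` maps `D` into `e.source` and `‖w‖ < K κ = R / 4`.  Let `G, Om` be as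
in `S_TENS`, `S` as in `S_PIECE`, `T, f` as in `S_SECT` (`0 = e b ∈ S`).  Put
`h x = f (P x) - P x` (with values in `Tᗮ`), `ψ x = x + h x`, `Ψ x = x - h x`, smooth on `ball 0 R`, with
`P (h x) = 0`, `h (ψ x) = h x = h (Ψ x)`, `Ψ ∘ ψ = ψ ∘ Ψ = id` where `‖P x‖ < R`,
`‖h x‖ ≤ ‖x‖ / 4` and `‖Dh‖ ≤ 1/4`; `ψ` maps `ball 0 R` into `ball 0 (2 R) ⊆ ball 0 r`.  Let `Om' = ψ^* Om`
(`S_PULL`), `|Om'(x)(v, w)| ≤ K ^ 2 ‖Dψ v‖ ‖Dψ w‖ ≤ 2 K ^ 2 ‖v‖ ‖w‖` (`Om_le`, `G_upper`).  `Om'` vanishes on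
`T`: for `x ∈ T`, `ψ x = f x` and `Dψ(x) v = Df(x) v ∈ tanV S (f x)` for `v ∈ T`; use `S_iso`.  Let
`v = Ψ ∘ w : D → ball 0 R`, smooth, `v (m + ρ) = 0`.  The path `x ↦ w x`, `x ∈ [m - ρ, m + ρ]` is in `S`, ends
at `0`, and has norm `< R`, so by `S_CONT` `w x = f (P (w x))`, i.e. `v x = P (w x) ∈ T`.  By `S_ISOVH`
`|∫ Om'(v)(∂_x v, ∂_y v)| ≤ K ^ 2 (∫ ‖∂_θ v‖) ^ 2`.  Since `w = ψ ∘ v`,
`Om'(v)(∂_x v, ∂_y v) = Om(w)(∂_x w, ∂_y w) = ω(∂_x u, ∂_y u) = ω(∂_x u, J ∂_x u) = sp ^ 2`, and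
`‖∂_θ v‖ ≤ 2 ‖∂_θ w‖ ≤ 2 K |∂_θ u|_g = 2 K ρ sp` (`HolOn.hol`: `|Du(h)|_g = |h| sp`).  So
`∫ sp ^ 2 ≤ K ^ 2 * 4 K ^ 2 (∫ ρ sp) ^ 2`. -/
def S_ISOMH : Prop := ∀ (V : Type u) [NormedAddCommGroup V] [InnerProductSpace ℝ V]
  [FiniteDimensional ℝ V] (M : Type v) [MetricSpace M] [ChartedSpace V M]
  [IsManifold 𝓘(ℝ, V) ∞ M] (A : AlmostKahler V M), A.BoundedGeometry → ∀ Lam : ℝ, 0 ≤ Lam →
  ∃ κ > 0, ∃ C₁ ≥ (1:ℝ), ∀ L : Set M, A.IsLagr L → A.SFFBound L Lam →
  ∀ (u : ℂ → M) (m ρ : ℝ), 0 < ρ → A.HolOn (Hc m ρ) u →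
    (∀ x ∈ Icc (m - ρ) (m + ρ), u (x : ℂ) ∈ L) →
    (∀ w ∈ Hc m ρ, dist (u w) (u ((m + ρ : ℝ) : ℂ)) < κ) →
    ∫ w in Hc m ρ, A.sp (Hc m ρ) u w ^ 2 ≤
      C₁ * (∫ θ in (0:ℝ)..Real.pi, A.sp (Hc m ρ) u (m + ρ * circ θ) * ρ) ^ 2

/-- **ISOMD.** The isoperimetric inequality for disks.

Proof.  As `S_ISOMH`, more simply: `κ = r / (2 K)`, the good chart `e` at `u (c + ρ)`, `v = e ∘ u` and
`S_ISOVD` with `R = r`, `B = K ^ 2`; no Lagrangian is involved. -/
def S_ISOMD : Prop := ∀ (V : Type u) [NormedAddCommGroup V] [InnerProductSpace ℝ V]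
  [FiniteDimensional ℝ V] (M : Type v) [MetricSpace M] [ChartedSpace V M]
  [IsManifold 𝓘(ℝ, V) ∞ M] (A : AlmostKahler V M), A.BoundedGeometry →
  ∃ κ > 0, ∃ C₁ ≥ (1:ℝ), ∀ (u : ℂ → M) (c : ℂ) (ρ : ℝ), 0 < ρ → A.HolOn (closedBall c ρ) u →
    (∀ w ∈ closedBall c ρ, dist (u w) (u (c + ρ)) < κ) →
    ∫ w in closedBall c ρ, A.sp (closedBall c ρ) u w ^ 2 ≤
      C₁ * (∫ θ in (0:ℝ)..(2 * Real.pi), A.sp (closedBall c ρ) u (c + ρ * circ θ) * ρ) ^ 2

/-- **CAY.** The Cayley transform and the boundary arcs.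

Proof.  `C x = (x - i) / (x + i)`; for `0 < θ < 2π` and `x = - cot (θ / 2)` one has
`C x = circ θ`, and `θ ↦ - cot (θ / 2)` is an increasing bijection `(0, 2π) → ℝ`.  On `UHc` the denominator
has imaginary part `≥ 1`; `‖C z‖ ≤ 1` on `UHc`, `< 1` on `UH`; `C` is a bijection from `UH` to the open unit
disk with the holomorphic derivative `2 i / (z + i) ^ 2` of norm `≤ 2` on the convex set `UHc`.
The change of variables: `integral_image_eq_integral_abs_det_fderiv_smul`; the real determinant of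
the multiplication with a complex number `c` is `‖c‖ ^ 2`. -/
def S_CAY : Prop := ∀ (t₀ t₁ β : ℝ), t₀ < t₁ → t₁ < t₀ + 2 * Real.pi →
  β = - (Real.cos ((t₁ - t₀) / 2) / Real.sin ((t₁ - t₀) / 2)) →
  (∀ z ∈ UHc, cay t₀ β z ∈ closedBall (0:ℂ) 1 ∧ DifferentiableAt ℂ (cay t₀ β) z ∧
    ContDiffAt ℝ ∞ (cay t₀ β) z) ∧
  (∀ z ∈ UH, cay t₀ β z ∈ ball (0:ℂ) 1 ∧ deriv (cay t₀ β) z ≠ 0) ∧
  (∀ z ∈ UHc, ∀ z' ∈ UHc, dist (cay t₀ β z) (cay t₀ β z') ≤ 2 * dist z z') ∧
  (∀ s ∈ Ioo t₀ t₁, ∃ x : ℝ, x < 0 ∧ cay t₀ β x = circ s) ∧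
  (∀ x : ℝ, x < 0 → ∃ s ∈ Ioo t₀ t₁, cay t₀ β x = circ s) ∧
  (∀ x : ℝ, 0 ≤ x → ∃ s ∈ Ico t₁ (t₀ + 2 * Real.pi), cay t₀ β x = circ s) ∧
  (∀ f : ℂ → ℝ, IntegrableOn f (ball 0 1) →
    IntegrableOn (fun z => f (cay t₀ β z) * ‖deriv (cay t₀ β) z‖ ^ 2) UH ∧
    ∫ z in UH, f (cay t₀ β z) * ‖deriv (cay t₀ β) z‖ ^ 2 = ∫ z in ball 0 1, f z)

/-- **PULLU.** Pulling a polygon back to the half-plane.

Proof.  `v = u ∘ cay t₀ β` with `t₀ = t 0`, `t₁ = t 1`, `β` as in `S_CAY`.  Uniform continuity: `u` is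
continuous on the compact disk and `cay` is Lipschitz on `UHc`.  The points of `Dom` are mapped to the
closed disk minus the punctures (`Ioo (t 0) (t 1)` contains no `t i`, and
`circ` is injective on `Ico (t 0) (t 0 + 2π)`), so
`v` is smooth on `Dom`; by the chain rule
`mfderiv v z h = mfderiv u (cay z) (cay' z * h)` for `z ∈ UH`, so it is `J`-holomorphic, and
`ω(∂_x v, ∂_y v) = ω(u)(∂_x u, ∂_y u) * ‖cay'‖ ^ 2` (for a `J`-linear differential
`ω(Du(c), Du(i c)) = |c|^2 ω(Du(1), Du(i))`). -/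
def S_PULLU : Prop := ∀ (V : Type u) [NormedAddCommGroup V] [InnerProductSpace ℝ V]
  [FiniteDimensional ℝ V] (M : Type v) [MetricSpace M] [ChartedSpace V M]
  [IsManifold 𝓘(ℝ, V) ∞ M] (A : AlmostKahler V M) (m : ℕ) (t : Fin (m + 3) → ℝ)
  (Lag : Fin (m + 2) → Set M) (u : ℂ → M), A.IsPolygon t Lag u →
  ∃ v : ℂ → M, UniformContinuousOn v UHc ∧ ContMDiffOn 𝓘(ℝ, ℂ) 𝓘(ℝ, V) ∞ v Dom ∧
    (∀ z ∈ UH, ∀ h : ℂ, mfderiv 𝓘(ℝ, ℂ) 𝓘(ℝ, V) v z (Complex.I * h) =
      A.J (v z) (mfderiv 𝓘(ℝ, ℂ) 𝓘(ℝ, V) v z h)) ∧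
    (∀ x : ℝ, x < 0 → v x ∈ Lag 0) ∧
    (∀ s ∈ Ioo (t 0) (t 1), ∃ x : ℝ, x < 0 ∧ v x = u (circ s)) ∧
    (∀ x : ℝ, 0 ≤ x → ∃ s ∈ Icc (t 1) (t 0 + 2 * Real.pi), v x = u (circ s)) ∧
    IntegrableOn (fun z => A.om (v z) (mfderiv 𝓘(ℝ, ℂ) 𝓘(ℝ, V) v z (1:ℂ))
      (mfderiv 𝓘(ℝ, ℂ) 𝓘(ℝ, V) v z Complex.I)) UH ∧
    ∫ z in UH, A.om (v z) (mfderiv 𝓘(ℝ, ℂ) 𝓘(ℝ, V) v z (1:ℂ))
      (mfderiv 𝓘(ℝ, ℂ) 𝓘(ℝ, V) v z Complex.I) = A.area u

/-- **ARCS.** Every point of the closed complementary arc is mapped to one of the other boundary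
conditions, if these are closed.

Proof.  `s ∈ [t 1, t 0 + 2π] = [t 1, t (last)]` is in some `[t i, t (i + 1)]` with `i ≥ 1`; if it is in the open interval use
`boundary`; otherwise `circ s` is a limit of points `circ s'` with `s'` in an adjacent open
interval with index `i ≥ 1`, `u` is continuous on the closed disk and `Lag i` is closed. -/
def S_ARCS : Prop := ∀ (V : Type u) [NormedAddCommGroup V] [InnerProductSpace ℝ V]
  [FiniteDimensional ℝ V] (M : Type v) [MetricSpace M] [ChartedSpace V M]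
  [IsManifold 𝓘(ℝ, V) ∞ M] (A : AlmostKahler V M) (m : ℕ) (t : Fin (m + 3) → ℝ)
  (Lag : Fin (m + 2) → Set M) (u : ℂ → M), A.IsPolygon t Lag u → (∀ i, IsClosed (Lag i)) →
  ∀ s ∈ Icc (t 1) (t 0 + 2 * Real.pi), ∃ i, i ≠ 0 ∧ u (circ s) ∈ Lag i

/-- **COMP.** Closed manifolds have bounded geometry.

Proof.  Let `p ∈ M`, `e` a chart at `p`.  On a compact ball `closedBall (e p) (2 r) ⊆ e.target` the
coefficients of `g_J` and their first derivatives are bounded and `g_J` is uniformly elliptic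
(compactness and positivity).  For `q ∈ e.source` with `‖e q - e p‖ < r` the translated chart
`e - e q` is a `GoodChart r K q`.  Finitely many such neighbourhoods cover `M`; take the smallest `r`
and the largest `K` (`GoodChart` is monotone in `r` and `K`; if `M` is empty there is nothing to show). -/
def S_COMP : Prop := ∀ (V : Type u) [NormedAddCommGroup V] [InnerProductSpace ℝ V]
  [FiniteDimensional ℝ V] (M : Type v) [MetricSpace M] [ChartedSpace V M]
  [IsManifold 𝓘(ℝ, V) ∞ M] (A : AlmostKahler V M), CompactSpace M → A.BoundedGeometry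

/-! ### Transversality -/

/-- **SPAN.** Compactly supported functions whose differentials span the cotangent spaces over a
compact set.

Proof.  For `p ∈ F` take a chart `e` at `p`, a smooth bump function `χ` around `p` with compact support in the
source of `e`, equal to `1` near `p` (`SmoothBumpFunction`), and the functions
`χ * ⟪b i, e ·⟫` for an orthonormal basis `b` of `V`; near `p` their differentials are a basis of the
cotangent space.  Cover `F` by finitely many such neighbourhoods. -/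
def S_SPAN : Prop := ∀ (V : Type u) [NormedAddCommGroup V] [InnerProductSpace ℝ V]
  [FiniteDimensional ℝ V] (M : Type v) [MetricSpace M] [ChartedSpace V M]
  [IsManifold 𝓘(ℝ, V) ∞ M] (F : Set M), IsCompact F →
  ∃ (N : ℕ) (h : Fin N → M → ℝ), (∀ j, ContMDiff 𝓘(ℝ, V) 𝓘(ℝ, ℝ) ∞ (h j)) ∧
    (∃ K : Set M, IsCompact K ∧ ∀ j, ∀ x ∉ K, h j x = 0) ∧
    ∀ x ∈ F, ∀ w : TangentSpace 𝓘(ℝ, V) x, (∀ j, mfderiv 𝓘(ℝ, V) 𝓘(ℝ, ℝ) (h j) x w = 0) → w = 0

/-- **HAMF.** The finite-dimensional family of small Hamiltonian diffeomorphisms generated by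
finitely many compactly supported functions `h j`: the time one maps of the Hamiltonians
`H_s = ∑ s j * h j`.

Proof.  For a compactly supported smooth `h` let `X_h` be the vector field with
`ω(X_h, ·) = dh`: `X_h` exists and is unique (nondegeneracy, finite dimension), smooth (in a chart it solves
a linear system with smooth coefficients; see `contMDiffAt_of_pairing` in the library module
Pool/Graph/R_seed8/Helper186/Hamiltonian.lean and the modules it imports) and supported in `K`; it is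
linear in `h`.  Let `χ` be a cutoff on the parameter space (`1` on the unit ball, compact support).  The vector
field `(s, x) ↦ (0, χ(s) ∑ s j X_{h j}(x))` on `ℝ^N × M` is smooth with compact support, so it has a
complete smooth flow: library modules Pool/Graph/R_seed8/Helper186/Flow.lean (`contMDiff_flow`), TimeFlow.lean
(`exists_evolution`, `exists_uniform_time_compact`, `timeField_complete`).  Let
`Fl (τ, s, x)` be its second component and `ψ (s, x) = Fl (1, s, x)`; inverse: `Fl (-1, s, ·)`.  For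
`‖s‖ ≤ 1` the curves `τ ↦ Fl (τ, s, x)` are the trajectories of the autonomous Hamiltonian
`H_s`, so `HamSmall` holds with `H (τ, x) = H_s x` and the isotopy `Fl (·, s, ·)` as soon as
`sup H_s - inf H_s < ε` (`H_s → 0` uniformly as `s → 0`) and `dist (ψ (s, x)) x < ε` for all `x`
(`= 0` outside the compact set `K`; uniform continuity on `closedBall 0 1 × K`).
The derivative at `s = 0`: for small `τ`, `ψ (τ s, x) = Fl (τ, s, x)` by rescaling the time, so
`D_sψ(0, x) s = ∑ s j X_{h j}(x)`; if the `dh j` span the cotangent space at `x` then the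
`X_{h j}(x)` span the tangent space (by the isomorphism `v ↦ ω(v, ·)`). -/
def S_HAMF : Prop := ∀ (V : Type u) [NormedAddCommGroup V] [InnerProductSpace ℝ V]
  [FiniteDimensional ℝ V] (M : Type v) [MetricSpace M] [ChartedSpace V M]
  [IsManifold 𝓘(ℝ, V) ∞ M] (A : AlmostKahler V M) (N : ℕ) (h : Fin N → M → ℝ) (K : Set M),
  (∀ j, ContMDiff 𝓘(ℝ, V) 𝓘(ℝ, ℝ) ∞ (h j)) → IsCompact K → (∀ j, ∀ x ∉ K, h j x = 0) →
  ∃ ψ : EuclideanSpace ℝ (Fin N) × M → M,
    ContMDiff (𝓘(ℝ, EuclideanSpace ℝ (Fin N)).prod 𝓘(ℝ, V)) 𝓘(ℝ, V) ∞ ψ ∧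
    (∀ x, ψ (0, x) = x) ∧
    (∀ s, ∃ ψi : M → M, ContMDiff 𝓘(ℝ, V) 𝓘(ℝ, V) ∞ ψi ∧ (∀ x, ψi (ψ (s, x)) = x) ∧
      ∀ x, ψ (s, ψi x) = x) ∧
    (∀ x, (∀ w : TangentSpace 𝓘(ℝ, V) x,
        (∀ j, mfderiv 𝓘(ℝ, V) 𝓘(ℝ, ℝ) (h j) x w = 0) → w = 0) →
      Function.Surjective
        (mfderiv 𝓘(ℝ, EuclideanSpace ℝ (Fin N)) 𝓘(ℝ, V) (fun s => ψ (s, x)) 0)) ∧
    ∀ ε > 0, ∃ δ > 0, ∀ s, ‖s‖ < δ → A.HamSmall (fun x => ψ (s, x)) ε

/-- **IMG.** Images of submanifolds under diffeomorphisms.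

Proof.  For `y ∈ L` with slice chart `e`, `W` the chart `φ⁻¹` followed by `e` is a slice chart of `φ '' L` at
`φ y`; it is in the maximal atlas because `φ` and its inverse are smooth. -/
def S_IMG : Prop := ∀ (V : Type u) [NormedAddCommGroup V] [InnerProductSpace ℝ V]
  [FiniteDimensional ℝ V] (M : Type v) [MetricSpace M] [ChartedSpace V M]
  [IsManifold 𝓘(ℝ, V) ∞ M] (φ φi : M → M) (n : ℕ) (L : Set M),
  ContMDiff 𝓘(ℝ, V) 𝓘(ℝ, V) ∞ φ → ContMDiff 𝓘(ℝ, V) 𝓘(ℝ, V) ∞ φi → (∀ x, φi (φ x) = x) →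
  (∀ x, φ (φi x) = x) → IsSubmfd V n L → IsSubmfd V n (φ '' L)

/-- **TRANS1.** A small Hamiltonian perturbation of one compact submanifold makes it transverse to
finitely many others (all of half the dimension).

Proof.  Take `h` as in `S_SPAN` for the compact set `F`, and `ψ` as in `S_HAMF`; by continuity and compactness
`D_sψ(s, x)` is onto for `x ∈ F`, `‖s‖ ≤ δ₁`.  Fix `i`.  Let `B` be the set of the `s`, `‖s‖ ≤ δ₁`, such
that `ψ_s '' F` is not transverse to `N i`.  Claim: `B` is a null set.  Let `‖s₀‖ ≤ δ₁`, `x₀ ∈ F`,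
`y₀ ∈ N i`.  If `ψ (s₀, x₀) ≠ y₀` then this holds nearby.  Otherwise let `e₁, W₁` be a slice chart of
`F` at `x₀`, `e₂, W₂` one of `N i` at `y₀`, and
`G(s, (a, b)) = e₂ (ψ (s, e₁.symm (e₁ x₀ + a))) - (e₂ y₀ + b)`, `a ∈ W₁`, `b ∈ W₂`:
`dim (W₁ × W₂) = 2 n = dim V`, and `D_s G` is onto at `(s₀, 0)`.  If `x ∈ F` near `x₀`, `y ∈ N i` near
`y₀`, `ψ (s, x) = y`, `s` near `s₀`, then for `a = e₁ x - e₁ x₀ ∈ W₁`, `b = e₂ y - e₂ y₀ ∈ W₂`: `G(s, (a, b)) = 0`; and if `D_{(a,b)} G` is onto then the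
tangent spaces of `ψ_s '' F` and `N i` at `y` span (the velocities of the curves
`ψ (s, e₁.symm (e₁ x + τ a'))` and `e₂.symm (e₂ y + τ b')`; the statement does not depend on the chart `e` in the
definition of `Transverse`, because a change of charts acts on the tangent vectors by a linear
isomorphism).  `S_SARD` gives neighbourhoods `O` of `s₀`, `O'` such that the bad `s` are a null set.
By compactness of `closedBall 0 δ₁ × F × N i` finitely many of these neighbourhoods suffice.  The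
union over `i` is a null set, so there is a good `s` with norm `< δ` (balls have positive measure). -/
def S_TRANS1 : Prop := ∀ (V : Type u) [NormedAddCommGroup V] [InnerProductSpace ℝ V]
  [FiniteDimensional ℝ V] (M : Type v) [MetricSpace M] [ChartedSpace V M]
  [IsManifold 𝓘(ℝ, V) ∞ M] (A : AlmostKahler V M) (n k : ℕ) (F : Set M) (N : Fin k → Set M),
  2 * n = Module.finrank ℝ V → IsCompact F → IsSubmfd V n F → (∀ i, IsCompact (N i)) →
  (∀ i, IsSubmfd V n (N i)) → ∀ ε > 0, ∃ φ φi : M → M,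
    ContMDiff 𝓘(ℝ, V) 𝓘(ℝ, V) ∞ φ ∧ ContMDiff 𝓘(ℝ, V) 𝓘(ℝ, V) ∞ φi ∧ (∀ x, φi (φ x) = x) ∧
    (∀ x, φ (φi x) = x) ∧ A.HamSmall φ ε ∧ ∀ i, Transverse V (φ '' F) (N i)

/-- **TRANS.** Pairwise transversality by small Hamiltonian perturbations, one of which is the
identity.

Proof.  The identity is `HamSmall` for all `ε > 0` (`H = 0`, constant isotopy).  Order the indices with
`j₀` first; choose the perturbations successively by `S_TRANS1` (with the already perturbed
submanifolds as `N`, which are compact submanifolds by `S_IMG`).  `Transverse` is symmetric. -/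
def S_TRANS : Prop := ∀ (V : Type u) [NormedAddCommGroup V] [InnerProductSpace ℝ V]
  [FiniteDimensional ℝ V] (M : Type v) [MetricSpace M] [ChartedSpace V M]
  [IsManifold 𝓘(ℝ, V) ∞ M] (A : AlmostKahler V M) (n k : ℕ) (F : Fin k → Set M) (j₀ : Fin k),
  2 * n = Module.finrank ℝ V → (∀ i, IsCompact (F i)) → (∀ i, IsSubmfd V n (F i)) →
  ∀ ε > 0, ∃ Φ : Fin k → M → M, Φ j₀ = id ∧ (∀ i, A.HamSmall (Φ i) ε) ∧
    (∀ i, Continuous (Φ i)) ∧ ∀ i j, i ≠ j → Transverse V (Φ i '' F i) (Φ j '' F j)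

/-! ### The conclusion -/

/-- **ACC.** Submanifolds of positive dimension have no isolated points.

Proof.  In a slice chart at `x` the points `e.symm (e x + t w)`, `w ≠ 0` in `W`, `t → 0`, are
points of `L` different from `x` which converge to `x`. -/
def S_ACC : Prop := ∀ (V : Type u) [NormedAddCommGroup V] [InnerProductSpace ℝ V]
  [FiniteDimensional ℝ V] (M : Type v) [MetricSpace M] [ChartedSpace V M]
  [IsManifold 𝓘(ℝ, V) ∞ M] (n : ℕ) (L : Set M), 0 < n → IsSubmfd V n L →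
  ∀ x ∈ L, AccPt x (𝓟 L)

/-- **TOP.** The topological part of the argument.

Proof.  (b) `sup_{x ∈ L₀} infDist x (L n) → 0`.  Otherwise there are `η > 0`, a subsequence and points
`x_k ∈ L₀` with `infDist x_k (L (n k)) ≥ η`, `x_k → x ∈ L₀`; so `infDist y (L (n k)) ≥ η / 4` for all `y ∈ L₀` with
`dist x y < η / 4`, `k` large.  As `x` is an accumulation point of `L₀` and `B₁ ∩ B₂` is closed and
discrete there is such a `y` which is not in `B₁ ∩ B₂`, say `y ∉ B₁`.  Then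
`infDist y (L (n k) ∪ B₁)` is bounded below by a positive number (`B₁` is closed), a contradiction.
(a) Let `s₀ > 0`.  The set `B₁ ∩ B₂ ∩ {x | infDist x L₀ ≤ 1}` is compact (the space is proper) and discrete, hence
finite, so there is `0 < s ≤ s₀` such that no point of `B₁ ∩ B₂` has its distance to `L₀` in
`(0, s]`.  For large `n` no point of `L n` is in the compact shell `{x | s / 2 ≤ infDist x L₀ ≤ s}`:
otherwise a limit point `x` of such points is in the shell and satisfies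
`infDist x (L₀ ∪ B_i) = 0`, so `x ∈ B₁ ∩ B₂`, a contradiction.  By (b), `L n` contains a point
at a distance `< s / 2` of `L₀`; as `L n` is connected, `infDist x L₀ < s / 2` on `L n`.
(a) and (b) give the convergence for the Hausdorff distance. -/
def S_TOP : Prop := ∀ (X : Type v) [MetricSpace X] [ProperSpace X] (B₁ B₂ L₀ : Set X)
  (L : ℕ → Set X) (ε : ℕ → ℝ), IsClosed B₁ → IsClosed B₂ →
  DiscreteTopology ↥(B₁ ∩ B₂) → IsCompact L₀ → L₀.Nonempty → (∀ x ∈ L₀, AccPt x (𝓟 L₀)) →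
  (∀ n, IsCompact (L n)) → (∀ n, IsConnected (L n)) → Tendsto ε atTop (𝓝 0) →
  (∀ᶠ n in atTop, (∀ x ∈ L n, infDist x (L₀ ∪ B₁) ≤ ε n ∧ infDist x (L₀ ∪ B₂) ≤ ε n) ∧
    ∀ x ∈ L₀, infDist x (L n ∪ B₁) ≤ ε n ∧ infDist x (L n ∪ B₂) ≤ ε n) →
  Tendsto (fun n => hausdorffDist (L n) L₀) atTop (𝓝 0)

end Pool.Agent.H823.HC
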