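import Mathlib
import Pool.Agent.H823.HC.StmM

/-!
# Distances and the Euclidean norm in a good chart
-/

open scoped Topology ContDiff Manifold
open Set Metric Filter MeasureTheory

noncomputable section

universe u v w

namespace Pool.Agent.H823.HC.PDIST

section

variable {V : Type u} [NormedAddCommGroup V] [InnerProductSpace ℝ V]
  {M : Type v} [MetricSpace M] [ChartedSpace V M] (A : AlmostKahler V M)

/-- the square of the norm of a tangent vector -/
def G (y : M) (v : V) : ℝ :=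
  A.om y (v : TangentSpace 𝓘(ℝ, V) y) (A.J y (v : TangentSpace 𝓘(ℝ, V) y))

/-- the square of the speed of a curve -/
def sp2 (c : ℝ → M) (t : ℝ) : ℝ :=
  A.om (c t) (mfderiv 𝓘(ℝ, ℝ) 𝓘(ℝ, V) c t (1:ℝ))
    (A.J (c t) (mfderiv 𝓘(ℝ, ℝ) 𝓘(ℝ, V) c t (1:ℝ)))

theorem gC_sum (e : OpenPartialHomeomorph M V) (x : V) {ι : Type*} [Fintype ι] (b : ι → V)
    (a : ι → ℝ) : A.gC e x (∑ i, a i • b i) (∑ i, a i • b i) =
      ∑ i, ∑ j, a i * a j * A.gC e x (b i) (b j) := by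
  obtain ⟨D, hD⟩ : ∃ D : V →L[ℝ] V, D = mfderiv 𝓘(ℝ, V) 𝓘(ℝ, V) e.symm x := ⟨_, rfl⟩
  obtain ⟨O, hO⟩ : ∃ O : V →L[ℝ] V →L[ℝ] ℝ, O = A.om (e.symm x) := ⟨_, rfl⟩
  obtain ⟨J, hJ⟩ : ∃ J : V →L[ℝ] V, J = A.J (e.symm x) := ⟨_, rfl⟩
  have h : ∀ v w, A.gC e x v w = O (D v) (J (D w)) := by
    intro v w
    rw [hD, hO, hJ]
    rfl
  simp only [h, map_sum, map_smul, sum_apply, smul_apply, smul_eq_mul, Finset.mul_sum]
  rw [Finset.sum_comm]
  refine Finset.sum_congr rfl fun i _ => Finset.sum_congr rfl fun j _ => ?_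
  ring

theorem gC_cont [FiniteDimensional ℝ V] {e : OpenPartialHomeomorph M V} (he : e ∈ Charts V M)
    {x₀ : V} (hx₀ : x₀ ∈ e.target) (v₀ : V) :
    ContinuousAt (fun q : V × V => A.gC e q.1 q.2 q.2) (x₀, v₀) := by
  set b := Module.finBasis ℝ V with hb
  have h1 : (fun q : V × V => A.gC e q.1 q.2 q.2) = fun q : V × V =>
      ∑ i, ∑ j, b.repr q.2 i * b.repr q.2 j * A.gC e q.1 (b i) (b j) := by
    funext q
    rw [← gC_sum A e q.1 (fun i => b i) (fun i => b.repr q.2 i), b.sum_repr]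
  rw [h1]
  have h2 : ∀ i, Continuous fun q : V × V => b.repr q.2 i := by
    intro i
    have h3 : Continuous (b.coord i) := (b.coord i).continuous_of_finiteDimensional
    exact h3.comp continuous_snd
  have h4 : ∀ i j, ContinuousAt (fun q : V × V => A.gC e q.1 (b i) (b j)) (x₀, v₀) := by
    intro i j
    have h5 : ContinuousAt (fun x => A.gC e x (b i) (b j)) x₀ :=
      ((A.smooth_g e he (b i) (b j)).continuousOn).continuousAt (e.open_target.mem_nhds hx₀)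
    have h6 : ContinuousAt (fun q : V × V => q.1) (x₀, v₀) := continuous_fst.continuousAt
    exact ContinuousAt.comp (g := fun x => A.gC e x (b i) (b j)) (f := fun q : V × V => q.1) h5 h6
  refine tendsto_finsetSum _ fun i _ => tendsto_finsetSum _ fun j _ => ?_
  exact (((h2 i).mul (h2 j)).continuousAt).mul (h4 i j)

/-- a curve in a chart -/
theorem curve_chart {e : OpenPartialHomeomorph M V} (he : e ∈ Charts V M) {c : ℝ → M} {s : ℝ}
    (hc : ContMDiffAt 𝓘(ℝ, ℝ) 𝓘(ℝ, V) 1 c s) (hs : c s ∈ e.source) :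
    ContDiffAt ℝ 1 (fun t => e (c t)) s ∧
      sp2 A c s = A.gC e (e (c s)) (deriv (fun t => e (c t)) s) (deriv (fun t => e (c t)) s) := by
  have h1 : ContMDiffAt 𝓘(ℝ, V) 𝓘(ℝ, V) ∞ e (c s) :=
    (contMDiffOn_of_mem_maximalAtlas he).contMDiffAt (e.open_source.mem_nhds hs)
  have h2 : ContMDiffAt 𝓘(ℝ, V) 𝓘(ℝ, V) ∞ e.symm (e (c s)) :=
    (contMDiffOn_symm_of_mem_maximalAtlas he).contMDiffAt
      (e.open_target.mem_nhds (e.map_source hs))
  have h3 : ContDiffAt ℝ 1 (fun t => e (c t)) s :=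
    contMDiffAt_iff_contDiffAt.1 ((h1.of_le (by simp)).comp s hc)
  refine ⟨h3, ?_⟩
  have h4 : c =ᶠ[𝓝 s] e.symm ∘ fun t => e (c t) := by
    filter_upwards [hc.continuousAt.eventually (e.open_source.mem_nhds hs)] with t ht
    exact (e.left_inv ht).symm
  have h5 : MDifferentiableAt 𝓘(ℝ, ℝ) 𝓘(ℝ, V) (fun t => e (c t)) s :=
    (h3.differentiableAt (by simp)).mdifferentiableAt
  have h6 : MDifferentiableAt 𝓘(ℝ, V) 𝓘(ℝ, V) e.symm (e (c s)) := h2.mdifferentiableAt (by simp)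
  have h7 : (mfderiv 𝓘(ℝ, ℝ) 𝓘(ℝ, V) c s : ℝ →L[ℝ] V) =
      (mfderiv 𝓘(ℝ, V) 𝓘(ℝ, V) e.symm (e (c s)) : V →L[ℝ] V).comp
        (fderiv ℝ (fun t => e (c t)) s) := by
    have h8 : (mfderiv 𝓘(ℝ, ℝ) 𝓘(ℝ, V) c s : ℝ →L[ℝ] V) =
        (mfderiv 𝓘(ℝ, ℝ) 𝓘(ℝ, V) (e.symm ∘ fun t => e (c t)) s : ℝ →L[ℝ] V) := h4.mfderiv_eq
    rw [h8, mfderiv_comp s h6 h5, mfderiv_eq_fderiv]
    rfl
  have h9 : ((mfderiv 𝓘(ℝ, ℝ) 𝓘(ℝ, V) c s : ℝ →L[ℝ] V) (1:ℝ) : V) =
      (frame e (e (c s)) (deriv (fun t => e (c t)) s) : V) := by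
    rw [h7]
    rfl
  have h10 : sp2 A c s = G A (c s) ((mfderiv 𝓘(ℝ, ℝ) 𝓘(ℝ, V) c s : ℝ →L[ℝ] V) (1:ℝ)) := rfl
  have h11 : A.gC e (e (c s)) (deriv (fun t => e (c t)) s) (deriv (fun t => e (c t)) s) =
      G A (e.symm (e (c s))) (frame e (e (c s)) (deriv (fun t => e (c t)) s) : V) := rfl
  rw [h10, h9, h11, e.left_inv hs]

/-- the speed is continuous -/
theorem sp2_cont [FiniteDimensional ℝ V] [IsManifold 𝓘(ℝ, V) ∞ M] {c : ℝ → M} (hc : ContMDiff 𝓘(ℝ, ℝ) 𝓘(ℝ, V) 1 c) :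
    Continuous (sp2 A c) := by
  rw [continuous_iff_continuousAt]
  intro s
  set e := chartAt V (c s) with he'
  have he : e ∈ Charts V M := IsManifold.chart_mem_maximalAtlas (c s)
  have hs : c s ∈ e.source := mem_chart_source V (c s)
  have h1 : sp2 A c =ᶠ[𝓝 s] fun s' => A.gC e (e (c s')) (deriv (fun t => e (c t)) s')
      (deriv (fun t => e (c t)) s') := by
    filter_upwards [hc.continuous.continuousAt.eventually (e.open_source.mem_nhds hs)] with t ht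
    exact (curve_chart A he (hc t) ht).2
  refine ContinuousAt.congr ?_ h1.symm
  have h2 := (curve_chart A he (hc s) hs).1
  have h3 : ContinuousAt (deriv fun t => e (c t)) s := by
    have h4 : ContDiffAt ℝ 0 (fderiv ℝ fun t => e (c t)) s := h2.fderiv_right (by simp)
    have h5 : (deriv fun t => e (c t)) = fun t' => fderiv ℝ (fun t => e (c t)) t' 1 := by
      funext t'
      exact (fderiv_apply_one_eq_deriv).symm
    rw [h5]
    exact h4.continuousAt.clm_apply continuousAt_const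
  have h6 : ContinuousAt (fun s' => ((e (c s'), deriv (fun t => e (c t)) s') : V × V)) s :=
    h2.continuousAt.prodMk h3
  exact ContinuousAt.comp (g := fun q : V × V => A.gC e q.1 q.2 q.2)
    (f := fun s' => ((e (c s'), deriv (fun t => e (c t)) s') : V × V))
    (gC_cont A he (e.map_source hs) _) h6

theorem sp2_nonneg (c : ℝ → M) (t : ℝ) : 0 ≤ sp2 A c t := by
  unfold sp2
  by_cases h : mfderiv 𝓘(ℝ, ℝ) 𝓘(ℝ, V) c t (1:ℝ) = 0
  · rw [h]
    simp
  · exact (A.pos _ _ h).le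

/-- as long as the curve stays in the chart, the coordinates are bounded by the length -/
theorem est [FiniteDimensional ℝ V] [IsManifold 𝓘(ℝ, V) ∞ M] {r K : ℝ} {p : M} {e : OpenPartialHomeomorph M V}
    (hK : 1 ≤ K) (hG : A.GoodChart r K p e) {c : ℝ → M}
    (hc : ContMDiff 𝓘(ℝ, ℝ) 𝓘(ℝ, V) 1 c) (h0 : c 0 = p) {t : ℝ} (ht0 : 0 ≤ t) (ht1 : t ≤ 1)
    (hU : ∀ s ∈ Icc 0 t, c s ∈ e.source ∧ e (c s) ∈ ball (0:V) r) :
    ‖e (c t)‖ ≤ K * ∫ s in (0:ℝ)..1, Real.sqrt (sp2 A c s) := by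
  have hK0 : 0 < K := by linarith
  have hcont : Continuous fun s => Real.sqrt (sp2 A c s) :=
    Real.continuous_sqrt.comp (sp2_cont A hc)
  set f : ℝ → V := fun t => e (c t) with hf
  have hdiff : ∀ s ∈ Icc 0 t, ContDiffAt ℝ 1 f s := fun s hs =>
    (curve_chart A hG.mem (hc s) (hU s hs).1).1
  have hder : ∀ s ∈ Icc 0 t, ‖deriv f s‖ ≤ K * Real.sqrt (sp2 A c s) := by
    intro s hs
    have h1 := (curve_chart A hG.mem (hc s) (hU s hs).1).2
    have h2 := hG.lower (e (c s)) (hU s hs).2 (deriv f s)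
    rw [← h1] at h2
    have h3 : K⁻¹ * ‖deriv f s‖ ≤ Real.sqrt (sp2 A c s) := Real.le_sqrt_of_sq_le h2
    rwa [inv_mul_le_iff₀ hK0] at h3
  have hdc : ContinuousOn (deriv f) (Icc 0 t) := by
    intro s hs
    have h4 : ContDiffAt ℝ 0 (fderiv ℝ f) s := (hdiff s hs).fderiv_right (by simp)
    have h5 : deriv f = fun t' => fderiv ℝ f t' 1 := by
      funext t'
      exact (fderiv_apply_one_eq_deriv).symm
    rw [h5]
    exact (h4.continuousAt.clm_apply continuousAt_const).continuousWithinAt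
  have hint : IntervalIntegrable (deriv f) volume 0 t := by
    apply ContinuousOn.intervalIntegrable
    rwa [uIcc_of_le ht0]
  have hftc : ∫ s in (0:ℝ)..t, deriv f s = f t - f 0 := by
    refine intervalIntegral.integral_eq_sub_of_hasDerivAt (fun s hs => ?_) hint
    rw [uIcc_of_le ht0] at hs
    exact ((hdiff s hs).differentiableAt (by simp)).hasDerivAt
  have hf0 : f 0 = 0 := by
    rw [hf]
    show e (c 0) = 0
    rw [h0]
    exact hG.centre
  rw [hf0, sub_zero] at hftc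
  have hi1 : ∀ a b : ℝ, IntervalIntegrable (fun s => Real.sqrt (sp2 A c s)) volume a b :=
    fun a b => hcont.intervalIntegrable a b
  calc ‖e (c t)‖ = ‖∫ s in (0:ℝ)..t, deriv f s‖ := by rw [hftc]
    _ ≤ ∫ s in (0:ℝ)..t, ‖deriv f s‖ := intervalIntegral.norm_integral_le_integral_norm ht0
    _ ≤ ∫ s in (0:ℝ)..t, K * Real.sqrt (sp2 A c s) :=
        intervalIntegral.integral_mono_on ht0 hint.norm ((hi1 0 t).const_mul K) hder
    _ = K * ∫ s in (0:ℝ)..t, Real.sqrt (sp2 A c s) := intervalIntegral.integral_const_mul _ _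
    _ ≤ K * ∫ s in (0:ℝ)..1, Real.sqrt (sp2 A c s) := by
        refine mul_le_mul_of_nonneg_left ?_ hK0.le
        rw [← intervalIntegral.integral_add_adjacent_intervals (hi1 0 t) (hi1 t 1)]
        have h6 : 0 ≤ ∫ s in t..1, Real.sqrt (sp2 A c s) :=
          intervalIntegral.integral_nonneg ht1 fun s _ => Real.sqrt_nonneg _
        linarith

/-- a short curve from the centre stays in the chart -/
theorem stay [FiniteDimensional ℝ V] [IsManifold 𝓘(ℝ, V) ∞ M] {r K : ℝ} {p : M} {e : OpenPartialHomeomorph M V}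
    (hr : 0 < r) (hK : 1 ≤ K) (hG : A.GoodChart r K p e) {c : ℝ → M}
    (hc : ContMDiff 𝓘(ℝ, ℝ) 𝓘(ℝ, V) 1 c) (h0 : c 0 = p)
    (hL : K * (∫ s in (0:ℝ)..1, Real.sqrt (sp2 A c s)) < r) :
    ∀ s ∈ Icc (0:ℝ) 1, c s ∈ e.source ∧ e (c s) ∈ ball (0:V) r := by
  by_contra hcon
  push Not at hcon
  obtain ⟨ρ, hρ⟩ : ∃ ρ, ρ = K * (∫ s in (0:ℝ)..1, Real.sqrt (sp2 A c s)) := ⟨_, rfl⟩
  set U : Set M := e.source ∩ e ⁻¹' ball (0:V) r with hU
  have hUo : IsOpen U := e.isOpen_inter_preimage isOpen_ball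
  set T : Set ℝ := Icc (0:ℝ) 1 ∩ c ⁻¹' Uᶜ with hT
  have hTc : IsCompact T := by
    refine isCompact_Icc.inter_right ?_
    exact hUo.isClosed_compl.preimage hc.continuous
  have hTne : T.Nonempty := by
    obtain ⟨s, hs, h1⟩ := hcon
    exact ⟨s, hs, fun h2 => h1 h2.1 h2.2⟩
  obtain ⟨t₁, ht₁, hmin⟩ := hTc.exists_isLeast hTne
  have ht01 : t₁ ∈ Icc (0:ℝ) 1 := ht₁.1
  have hlt : ∀ s ∈ Icc (0:ℝ) 1, s < t₁ → c s ∈ U := by
    intro s hs hst
    by_contra h1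
    exact absurd (hmin ⟨hs, h1⟩) (not_le.2 hst)
  have hpU : c 0 ∈ U := by
    rw [h0]
    refine ⟨hG.mem_source, ?_⟩
    show e p ∈ ball (0:V) r
    rw [hG.centre]
    exact mem_ball_self hr
  have ht1pos : 0 < t₁ := by
    rcases lt_or_eq_of_le ht01.1 with h | h
    · exact h
    · exfalso
      apply ht₁.2
      rw [← h]
      exact hpU
  -- the compact set
  have hsub : closedBall (0:V) ρ ⊆ ball (0:V) r := closedBall_subset_ball (by rw [hρ]; exact hL)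
  have hCc : IsCompact (e.symm '' closedBall (0:V) ρ) :=
    (isCompact_closedBall (0:V) ρ).image_of_continuousOn
      (e.continuousOn_symm.mono (hsub.trans hG.ball_subset))
  have hmem : ∀ s ∈ Ico (0:ℝ) t₁, c s ∈ e.symm '' closedBall (0:V) ρ := by
    intro s hs
    have h1 : ∀ s' ∈ Icc 0 s, c s' ∈ U := fun s' hs' =>
      hlt s' ⟨hs'.1, (hs'.2.trans hs.2.le).trans ht01.2⟩ (lt_of_le_of_lt hs'.2 hs.2)
    have h2 := est A hK hG hc h0 hs.1 (hs.2.le.trans ht01.2) fun s' hs' =>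
      ⟨(h1 s' hs').1, (h1 s' hs').2⟩
    rw [← hρ] at h2
    refine ⟨e (c s), mem_closedBall_zero_iff.2 h2, e.left_inv (h1 s ⟨hs.1, le_rfl⟩).1⟩
  have hlim : c t₁ ∈ e.symm '' closedBall (0:V) ρ := by
    have h3 : Tendsto c (𝓝[<] t₁) (𝓝 (c t₁)) := hc.continuous.continuousWithinAt
    have h4 : ∀ᶠ s in 𝓝[<] t₁, c s ∈ e.symm '' closedBall (0:V) ρ := by
      filter_upwards [Ico_mem_nhdsLT ht1pos] with s hs
      exact hmem s hs
    exact hCc.isClosed.mem_of_tendsto h3 h4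
  apply ht₁.2
  obtain ⟨v, hv, hv'⟩ := hlim
  rw [← hv']
  have hvt : v ∈ e.target := hG.ball_subset (hsub hv)
  refine ⟨e.map_target hvt, ?_⟩
  show e (e.symm v) ∈ ball (0:V) r
  rw [e.right_inv hvt]
  exact hsub hv

end

end Pool.Agent.H823.HC.PDIST

namespace Pool.Agent.H823.HC

open PDIST

/-- **Distances and the Euclidean norm in a good chart.** -/
theorem t_DIST : S_DIST.{u, v} := by
  intro V _ _ _ M _ _ _ A r K p e hr hK hG x hx
  have hK0 : 0 < K := by linarith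
  have key : ∀ ℓ : ℝ, dist p x < ℓ → ℓ ≤ r / K → x ∈ e.source ∧ ‖e x‖ ≤ K * ℓ := by
    intro ℓ h1 h2
    obtain ⟨L, ⟨c, hc, h0, h1', hL⟩, hLℓ⟩ := (isGLB_lt_iff (A.isGLB_dist p x)).1 h1
    have hL' : L = ∫ t in (0:ℝ)..1, Real.sqrt (sp2 A c t) := hL
    have hlt : K * (∫ s in (0:ℝ)..1, Real.sqrt (sp2 A c s)) < r := by
      rw [← hL']
      have h3 : L < r / K := hLℓ.trans_le h2
      rw [lt_div_iff₀ hK0] at h3
      linarith
    have h4 := stay A hr hK hG hc h0 hlt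
    have h5 := est A hK hG hc h0 zero_le_one le_rfl h4
    rw [h1', ← hL'] at h5
    refine ⟨?_, h5.trans (mul_le_mul_of_nonneg_left hLℓ.le hK0.le)⟩
    have h6 := (h4 1 ⟨zero_le_one, le_rfl⟩).1
    rwa [h1'] at h6
  refine ⟨(key (r / K) hx le_rfl).1, ?_⟩
  refine le_of_forall_gt_imp_ge_of_dense fun y hy => ?_
  -- `y > K * dist p x`
  have h7 : dist p x < min (y / K) (r / K) := by
    refine lt_min ?_ hx
    rw [lt_div_iff₀ hK0]
    linarith
  have h8 := (key (min (y / K) (r / K)) h7 (min_le_right _ _)).2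
  refine h8.trans ?_
  calc K * min (y / K) (r / K) ≤ K * (y / K) := mul_le_mul_of_nonneg_left (min_le_left _ _) hK0.le
    _ = y := by field_simp

end Pool.Agent.H823.HC
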