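import Mathlib
import Pool.Agent.H823.HC.StmM

/-!
# TENS: bundled coordinate expressions of the metric and of the symplectic form in a good chart
-/

open scoped Topology ContDiff Manifold
open Set Metric Filter MeasureTheory

noncomputable section

namespace Pool.Agent.H823.HC

universe u v w

namespace PTENS

section lin

variable {V : Type u} [NormedAddCommGroup V] [InnerProductSpace ℝ V] [FiniteDimensional ℝ V]

/-- the continuous bilinear form given by a bilinear function -/
theorem exists_bil (B : V → V → V → ℝ) (h1 : ∀ p x y z, B p (x + y) z = B p x z + B p y z)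
    (h2 : ∀ p (c : ℝ) x z, B p (c • x) z = c • B p x z)
    (h3 : ∀ p x y z, B p x (y + z) = B p x y + B p x z)
    (h4 : ∀ p (c : ℝ) x z, B p x (c • z) = c • B p x z) :
    ∃ G : V → V →L[ℝ] V →L[ℝ] ℝ, ∀ p v w, G p v w = B p v w :=
  ⟨fun p => LinearMap.toContinuousLinearMap
    ((LinearMap.toContinuousLinearMap : (V →ₗ[ℝ] ℝ) ≃ₗ[ℝ] (V →L[ℝ] ℝ)).toLinearMap ∘ₗ
      LinearMap.mk₂ ℝ (B p) (h1 p) (h2 p) (h3 p) (h4 p)), fun _ _ _ => rfl⟩

theorem smooth_bil {G : V → V →L[ℝ] V →L[ℝ] ℝ} {s : Set V}
    (h : ∀ v w, ContDiffOn ℝ ∞ (fun x => G x v w) s) : ContDiffOn ℝ ∞ G s :=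
  contDiffOn_clm_apply.2 fun v => contDiffOn_clm_apply.2 fun w => h v w

omit [FiniteDimensional ℝ V] in
theorem fderiv_bil {G : V → V →L[ℝ] V →L[ℝ] ℝ} {x : V} (hG : DifferentiableAt ℝ G x)
    (u v w : V) : fderiv ℝ G x u v w = fderiv ℝ (fun y => G y v w) x u := by
  have h1 := (hG.hasFDerivAt.clm_apply (hasFDerivAt_const v x)).clm_apply (hasFDerivAt_const w x)
  rw [h1.fderiv]
  simp

end lin

section AK

variable {V : Type u} [NormedAddCommGroup V] [InnerProductSpace ℝ V]
  {M : Type v} [MetricSpace M] [ChartedSpace V M] (A : AlmostKahler V M)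

theorem frame_add (e : OpenPartialHomeomorph M V) (x v w : V) :
    frame e x (v + w) = frame e x v + frame e x w :=
  (mfderiv 𝓘(ℝ, V) 𝓘(ℝ, V) e.symm x).map_add v w

theorem frame_smul (e : OpenPartialHomeomorph M V) (x : V) (c : ℝ) (v : V) :
    frame e x (c • v) = c • frame e x v :=
  (mfderiv 𝓘(ℝ, V) 𝓘(ℝ, V) e.symm x).map_smul c v

theorem om_anti (q : M) (a b : TangentSpace 𝓘(ℝ, V) q) : A.om q a b = -A.om q b a := by
  have h := A.alt q (a + b)
  simp only [map_add, add_apply, A.alt, zero_add, add_zero] at h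
  linarith

theorem g_nonneg (q : M) (a : TangentSpace 𝓘(ℝ, V) q) : 0 ≤ A.om q a (A.J q a) := by
  by_cases h : a = 0
  · rw [h, map_zero, map_zero]
    exact le_refl _
  · exact (A.pos q a h).le

theorem g_cs (q : M) (a c : TangentSpace 𝓘(ℝ, V) q) :
    A.om q a (A.J q c) ^ 2 ≤ A.om q a (A.J q a) * A.om q c (A.J q c) := by
  have h : ∀ t : ℝ, 0 ≤ A.om q c (A.J q c) * (t * t) + (2 * A.om q a (A.J q c)) * t +
      A.om q a (A.J q a) := by
    intro t
    have h1 := g_nonneg A q (a + t • c)
    have h2 : A.om q (a + t • c) (A.J q (a + t • c)) = A.om q c (A.J q c) * (t * t) +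
        (2 * A.om q a (A.J q c)) * t + A.om q a (A.J q a) := by
      simp only [map_add, map_smul, add_apply, smul_apply,
        smul_eq_mul]
      rw [A.symm q c a]
      ring
    rw [h2] at h1
    exact h1
  have h3 := discrim_le_zero h
  unfold discrim at h3
  nlinarith

theorem g_J (q : M) (b : TangentSpace 𝓘(ℝ, V) q) :
    A.om q (A.J q b) (A.J q (A.J q b)) = A.om q b (A.J q b) := by
  rw [A.J_sq, map_neg, om_anti A q b (A.J q b)]

theorem om_le (q : M) (a b : TangentSpace 𝓘(ℝ, V) q) :
    |A.om q a b| ≤ √(A.om q a (A.J q a)) * √(A.om q b (A.J q b)) := by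
  have h1 : A.om q a b = -A.om q a (A.J q (A.J q b)) := by
    rw [A.J_sq, map_neg, neg_neg]
  rw [h1, abs_neg, ← Real.sqrt_mul (g_nonneg A q a)]
  refine Real.abs_le_sqrt ?_
  have h2 := g_cs A q a (A.J q b)
  rw [g_J] at h2
  exact h2

end AK

end PTENS

open PTENS in
theorem t_TENS : S_TENS.{u, v} := by
  intro V _ _ _ M _ _ _ A r K p e hr hK he
  have hC := he.mem
  obtain ⟨G, hG⟩ := exists_bil (fun x v w => A.gC e x v w)
    (fun p x y z => by
      show A.gC e p (x + y) z = A.gC e p x z + A.gC e p y z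
      unfold AlmostKahler.gC
      rw [frame_add, map_add]; rfl)
    (fun p c x z => by
      show A.gC e p (c • x) z = c • A.gC e p x z
      unfold AlmostKahler.gC
      rw [frame_smul, map_smul]; rfl)
    (fun p x y z => by
      show A.gC e p x (y + z) = A.gC e p x y + A.gC e p x z
      unfold AlmostKahler.gC
      rw [frame_add, map_add, map_add])
    (fun p c x z => by
      show A.gC e p x (c • z) = c • A.gC e p x z
      unfold AlmostKahler.gC
      rw [frame_smul, map_smul, map_smul])
  obtain ⟨Om, hOm⟩ := exists_bil (fun x v w => A.omC e x v w)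
    (fun p x y z => by
      show A.omC e p (x + y) z = A.omC e p x z + A.omC e p y z
      unfold AlmostKahler.omC
      rw [frame_add, map_add]; rfl)
    (fun p c x z => by
      show A.omC e p (c • x) z = c • A.omC e p x z
      unfold AlmostKahler.omC
      rw [frame_smul, map_smul]; rfl)
    (fun p x y z => by
      show A.omC e p x (y + z) = A.omC e p x y + A.omC e p x z
      unfold AlmostKahler.omC
      rw [frame_add, map_add])
    (fun p c x z => by
      show A.omC e p x (c • z) = c • A.omC e p x z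
      unfold AlmostKahler.omC
      rw [frame_smul, map_smul])
  have fG : ∀ v w, (fun y => G y v w) = fun y => A.gC e y v w := fun v w =>
    funext fun y => hG y v w
  have fOm : ∀ v w, (fun y => Om y v w) = fun y => A.omC e y v w := fun v w =>
    funext fun y => hOm y v w
  have sG : ContDiffOn ℝ ∞ G (ball 0 r) := smooth_bil fun v w => by
    rw [fG]
    exact (A.smooth_g e hC v w).mono he.ball_subset
  have sOm : ContDiffOn ℝ ∞ Om (ball 0 r) := smooth_bil fun v w => by
    rw [fOm]
    exact (A.smooth_om e hC v w).mono he.ball_subset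
  have dG : ∀ x ∈ ball (0:V) r, DifferentiableAt ℝ G x := fun x hx =>
    (sG.contDiffAt (isOpen_ball.mem_nhds hx)).differentiableAt (by simp)
  have dOm : ∀ x ∈ ball (0:V) r, DifferentiableAt ℝ Om x := fun x hx =>
    (sOm.contDiffAt (isOpen_ball.mem_nhds hx)).differentiableAt (by simp)
  refine ⟨G, Om, ⟨⟨sOm, ?_, ?_⟩, sG, ?_, ?_, ?_, ?_, ?_⟩, fun x _ v w => ⟨hG x v w, hOm x v w⟩⟩
  · intro x _ v
    rw [hOm]
    exact A.alt (e.symm x) (frame e x v)
  · intro x hx u v w
    rw [fderiv_bil (dOm x hx), fderiv_bil (dOm x hx), fderiv_bil (dOm x hx), fOm, fOm, fOm]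
    exact A.closed e hC x (he.ball_subset hx) u v w
  · intro x _ v w
    rw [hG, hG]
    exact A.symm (e.symm x) (frame e x v) (frame e x w)
  · intro x hx v
    rw [hG]
    exact he.lower x hx v
  · intro x hx v
    rw [hG]
    exact he.upper x hx v
  · intro x hx u v w
    rw [fderiv_bil (dG x hx), fG]
    exact he.deriv_le x hx u v w
  · intro x _ v w
    rw [hG, hG, hOm]
    exact om_le A (e.symm x) (frame e x v) (frame e x w)

end Pool.Agent.H823.HC
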