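import Mathlib
import Pool.Agent.H823.HC.StmM

open scoped Topology ContDiff Manifold
open Set Metric Filter MeasureTheory

namespace Pool.Agent.H823.HC

universe u v w

theorem t_ACC : S_ACC.{u, v} := by
  intro V _ _ _ M _ _ _ n L hn hL x hx
  obtain ⟨e, -, hxe, W, hW, hmem⟩ := hL x hx
  obtain ⟨w, hw, hw0⟩ : ∃ w ∈ W, w ≠ 0 := by
    by_contra hc
    push Not at hc
    have h1 : W = ⊥ := by
      rw [eq_bot_iff]
      intro w hw
      exact (Submodule.mem_bot ℝ).2 (hc w hw)
    rw [h1, finrank_bot] at hW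
    omega
  have hxW : e x ∈ W := (hmem x hxe).1 hx
  have hcont : Continuous (fun t : ℝ => e x + t • w) := by fun_prop
  have h0 : e x + (0 : ℝ) • w = e x := by rw [zero_smul, add_zero]
  have htgt : e x ∈ e.target := e.map_source hxe
  have hev : ∀ᶠ t in 𝓝 (0 : ℝ), e x + t • w ∈ e.target := by
    have h1 : e.target ∈ 𝓝 (e x + (0 : ℝ) • w) := by
      rw [h0]
      exact e.open_target.mem_nhds htgt
    exact hcont.continuousAt.eventually_mem h1
  have htend : Tendsto (fun t : ℝ => e.symm (e x + t • w)) (𝓝[≠] 0) (𝓝 x) := by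
    have h1 : ContinuousAt e.symm (e x + (0 : ℝ) • w) := by
      rw [h0]
      exact e.continuousAt_symm htgt
    have h2 : Tendsto (fun t : ℝ => e.symm (e x + t • w)) (𝓝 0) (𝓝 (e.symm (e x + (0 : ℝ) • w))) :=
      h1.tendsto.comp hcont.continuousAt.tendsto
    rw [h0, e.left_inv hxe] at h2
    exact h2.mono_left nhdsWithin_le_nhds
  rw [accPt_iff_frequently]
  refine htend.frequently (Filter.Eventually.frequently ?_)
  filter_upwards [self_mem_nhdsWithin, nhdsWithin_le_nhds hev] with t ht ht2
  have h3 : e (e.symm (e x + t • w)) = e x + t • w := e.right_inv ht2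
  refine ⟨fun h => ?_, ?_⟩
  · rw [h] at h3
    have h4 : t • w = 0 := by
      have h5 : e x + 0 = e x + t • w := by rw [add_zero]; exact h3
      exact (add_left_cancel h5).symm
    rcases smul_eq_zero.1 h4 with h5 | h5
    · exact ht h5
    · exact hw0 h5
  · rw [hmem _ (e.map_target ht2), h3]
    exact W.add_mem hxW (W.smul_mem t hw)

end Pool.Agent.H823.HC
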