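import Mathlib
import Pool.Agent.H823.HC.StmM

/-!
# Project HC: boundary values of a polygon on the closed complementary arc (task ARCS)
-/

open scoped Topology ContDiff Manifold
open Set Metric Filter MeasureTheory

noncomputable section

namespace Pool.Agent.H823.HC

universe u v w

namespace PARCS

theorem circ_cont : Continuous circ := by
  unfold circ
  fun_prop

theorem circ_mem (s : ℝ) : circ s ∈ closedBall (0 : ℂ) 1 := by
  rw [mem_closedBall_zero_iff]
  exact (Complex.norm_exp_ofReal_mul_I s).le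

/-- the arc which contains `s` -/
theorem exists_arc (τ : ℕ → ℝ) (s : ℝ) (h1 : τ 1 ≤ s) (k : ℕ) (hk : 1 ≤ k) (hs : s ≤ τ (k + 1)) :
    ∃ i, 1 ≤ i ∧ i ≤ k ∧ τ i ≤ s ∧ s ≤ τ (i + 1) := by
  induction k, hk using Nat.le_induction with
  | base => exact ⟨1, le_rfl, le_rfl, h1, hs⟩
  | succ k hk ih =>
    rcases le_total s (τ (k + 1)) with h | h
    · obtain ⟨i, a, b, c, d⟩ := ih h
      exact ⟨i, a, b.trans (Nat.le_succ k), c, d⟩
    · exact ⟨k + 1, by omega, le_rfl, h, hs⟩

end PARCS

open PARCS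

theorem t_ARCS : S_ARCS.{u, v} := by
  intro V _ _ _ M _ _ _ A m t Lag u hu hcl s hs
  set τ : ℕ → ℝ := fun j => t ⟨min j (m + 2), by omega⟩ with hτ
  have e1 : τ 1 = t 1 := by
    simp only [hτ]
    congr 1
  have e2 : τ (m + 2) = t (Fin.last (m + 2)) := by
    simp only [hτ]
    congr 1
    apply Fin.ext
    simp
  obtain ⟨i, hi1, hi2, hi3, hi4⟩ := exists_arc τ s (by rw [e1]; exact hs.1) (m + 1) (by omega)
    (by rw [e2, hu.turn]; exact hs.2)
  set j : Fin (m + 2) := ⟨i, by omega⟩ with hj
  have f1 : τ i = t j.castSucc := by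
    simp only [hτ]
    congr 1
    apply Fin.ext
    simp only [hj, Fin.val_castSucc]
    omega
  have f2 : τ (i + 1) = t j.succ := by
    simp only [hτ]
    congr 1
    apply Fin.ext
    simp only [hj, Fin.val_succ]
    omega
  rw [f1] at hi3
  rw [f2] at hi4
  refine ⟨j, ?_, ?_⟩
  · intro h
    have := congrArg Fin.val h
    simp only [hj, Fin.val_zero] at this
    omega
  · have hcont : Continuous fun s : ℝ => u (circ s) :=
      hu.cont.comp_continuous circ_cont circ_mem
    have hlt : t j.castSucc < t j.succ := hu.mono Fin.castSucc_lt_succ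
    have h1 : Ioo (t j.castSucc) (t j.succ) ⊆ {s : ℝ | u (circ s) ∈ Lag j} := fun x hx =>
      hu.boundary j x hx
    have h2 : IsClosed {s : ℝ | u (circ s) ∈ Lag j} := (hcl j).preimage hcont
    have h3 := closure_minimal h1 h2
    rw [closure_Ioo hlt.ne] at h3
    exact h3 ⟨hi3, hi4⟩

end Pool.Agent.H823.HC
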