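import Mathlib
import Pool.Agent.H823.HC.StmHP

open scoped Topology ContDiff Manifold
open Set Metric Filter MeasureTheory

noncomputable section

universe u v w

namespace Pool.Agent.H823.HC.PBD

theorem circ_re (s : ℝ) : (circ s).re = Real.cos s := Complex.exp_ofReal_mul_I_re s

theorem circ_im (s : ℝ) : (circ s).im = Real.sin s := Complex.exp_ofReal_mul_I_im s

theorem norm_circ (s : ℝ) : ‖circ s‖ = 1 := Complex.norm_exp_ofReal_mul_I s

theorem norm_mul_circ (t s : ℝ) : ‖(t : ℂ) * circ s‖ = |t| := by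
  rw [norm_mul, norm_circ, mul_one, Complex.norm_real, Real.norm_eq_abs]

theorem circ_per (s : ℝ) : circ (s + 2 * Real.pi) = circ s := by
  unfold circ
  have e : ((s + 2 * Real.pi : ℝ) : ℂ) * Complex.I = s * Complex.I + 2 * Real.pi * Complex.I := by
    push_cast
    ring
  rw [e, Complex.exp_add, Complex.exp_two_pi_mul_I, mul_one]

theorem circ_zero : circ 0 = 1 := by
  unfold circ
  simp

theorem circ_pi : circ Real.pi = -1 := by
  unfold circ
  exact Complex.exp_pi_mul_I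

theorem contDiff_circ : ContDiff ℝ ∞ circ := by
  unfold circ
  exact ((Complex.ofRealCLM.contDiff).mul contDiff_const).cexp

theorem continuous_circ : Continuous circ := contDiff_circ.continuous

theorem re_add (c : ℂ) (t θ : ℝ) : (c + t * circ θ).re = c.re + t * Real.cos θ := by
  rw [Complex.add_re, Complex.re_ofReal_mul, circ_re]

theorem im_add (c : ℂ) (t θ : ℝ) : (c + t * circ θ).im = c.im + t * Real.sin θ := by
  rw [Complex.add_im, Complex.im_ofReal_mul, circ_im]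

theorem Hc_subset_Dom {m ρ : ℝ} (h : m + ρ < 0) : Hc m ρ ⊆ Dom := by
  rintro z ⟨h1, h2⟩
  rcases h2.lt_or_eq with h3 | h3
  · exact Or.inl h3
  · right
    refine ⟨h3.symm, ?_⟩
    have h4 := (Complex.abs_re_le_norm (z - m)).trans h1
    rw [Complex.sub_re, Complex.ofReal_re] at h4
    have h5 := (abs_le.1 h4).2
    linarith

theorem isClosed_Hc (m ρ : ℝ) : IsClosed (Hc m ρ) := by
  have h1 : IsClosed {z : ℂ | ‖z - m‖ ≤ ρ} :=
    isClosed_le (continuous_id.sub continuous_const).norm continuous_const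
  have h2 : IsClosed {z : ℂ | 0 ≤ z.im} := isClosed_le continuous_const Complex.continuous_im
  exact h1.inter h2

theorem isCompact_Hc (m ρ : ℝ) : IsCompact (Hc m ρ) := by
  refine (isCompact_closedBall (m : ℂ) ρ).of_isClosed_subset (isClosed_Hc m ρ) ?_
  rintro z ⟨h1, -⟩
  rw [mem_closedBall, dist_eq_norm]
  exact h1

theorem UH_subset_Dom : UH ⊆ Dom := fun _ h => Or.inl h

theorem null_real : volume {z : ℂ | z.im = 0} = 0 := by
  have h1 : LinearMap.ker Complex.imLm ≠ ⊤ := by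
    intro h
    have h2 : Complex.I ∈ LinearMap.ker Complex.imLm := by rw [h]; trivial
    rw [LinearMap.mem_ker] at h2
    simp at h2
  have h2 := Measure.addHaar_submodule (volume : Measure ℂ) _ h1
  have e : {z : ℂ | z.im = 0} = (LinearMap.ker Complex.imLm : Set ℂ) := by
    ext z
    rfl
  rw [e]
  exact h2

section hp

variable {X : Type w} [MetricSpace X] {u : ℂ → X} {φ : ℂ → ℝ} {κ C₁ E : ℝ}

theorem le_E (h : HP u φ κ C₁ E) {S : Set ℂ} (hS : S ⊆ UHc) : ∫ z in S, φ z ^ 2 ≤ E := by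
  refine (setIntegral_mono_set h.int (Eventually.of_forall fun z => sq_nonneg _) ?_).trans h.energy
  have h1 : ∀ᵐ z : ℂ, z ∉ {z : ℂ | z.im = 0} := measure_eq_zero_iff_ae_notMem.1 null_real
  filter_upwards [h1] with z hz hzS
  exact lt_of_le_of_ne (hS hzS) fun h0 => hz h0.symm

theorem E_nonneg (h : HP u φ κ C₁ E) : 0 ≤ E :=
  (integral_nonneg fun _ => sq_nonneg _).trans h.energy

theorem E_le1 (hE : E ≤ cz κ C₁) : E ≤ C₁ * (κ / 4) ^ 2 := hE.trans (min_le_left _ _)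

theorem E_le2 (hκ : 0 < κ) (hC : 1 ≤ C₁) (hE : E ≤ cz κ C₁) : 20 * √C₁ * √E ≤ κ / 8 := by
  have h1 : E ≤ (κ / (8 * (20 * √C₁))) ^ 2 := hE.trans (min_le_right _ _)
  have h2 : 0 < √C₁ := Real.sqrt_pos.2 (by linarith)
  have h3 : 0 ≤ κ / (8 * (20 * √C₁)) := by positivity
  have h4 : √E ≤ κ / (8 * (20 * √C₁)) := by
    have := Real.sqrt_le_sqrt h1
    rwa [Real.sqrt_sq h3] at this
  calc 20 * √C₁ * √E ≤ 20 * √C₁ * (κ / (8 * (20 * √C₁))) :=
        mul_le_mul_of_nonneg_left h4 (by positivity)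
    _ = κ / 8 := by field_simp

theorem gam_contDiff (c : ℂ) (θ : ℝ) : ContDiff ℝ ∞ fun t : ℝ => c + t * circ θ :=
  contDiff_const.add ((Complex.ofRealCLM.contDiff).mul contDiff_const)

theorem gam_deriv (c : ℂ) (θ t : ℝ) : deriv (fun t : ℝ => c + t * circ θ) t = circ θ := by
  have h1 : HasDerivAt (fun t : ℝ => c + t * circ θ) (1 * circ θ) t :=
    ((Complex.ofRealCLM.hasDerivAt (x := t)).mul_const (circ θ)).const_add c
  rw [h1.deriv, one_mul]

/-- the length of a segment of a ray -/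
theorem ray_len (h : HP u φ κ C₁ E) {c : ℂ} {θ T τ : ℝ} {D : Set ℂ} (hT : 0 < T) (hτ0 : 0 ≤ τ)
    (hτ : τ ≤ 4 * T) (hD : IsCompact D) (hDD : D ⊆ Dom)
    (hsec : ∀ t ∈ Icc 0 T, c + (t : ℂ) * circ θ ∈ Dom)
    (hseg : ∀ t ∈ Icc 0 τ, c + (t : ℂ) * circ θ ∈ D) :
    dist (u c) (u (c + τ * circ θ)) ≤ (∫ t in (0:ℝ)..T, φ (c + t * circ θ)) +
      ∫ t in T..(4 * T), D.indicator φ (c + t * circ θ) := by
  obtain ⟨γ, hγ⟩ : ∃ γ : ℝ → ℂ, γ = fun t : ℝ => c + t * circ θ := ⟨_, rfl⟩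
  have hγc : ContDiff ℝ ∞ γ := by rw [hγ]; exact gam_contDiff c θ
  have hγv : ∀ t : ℝ, c + (t : ℂ) * circ θ = γ t := fun t => by rw [hγ]
  have hγ0 : γ 0 = c := by rw [hγ]; simp
  have hγd : ∀ t, ‖deriv γ t‖ = 1 := fun t => by rw [hγ, gam_deriv, norm_circ]
  simp only [hγv] at hsec hseg ⊢
  have hlen := h.len γ hγc 0 τ hτ0 (fun t ht => hDD (hseg t ht))
  simp only [hγd, mul_one] at hlen
  rw [hγ0] at hlen
  refine hlen.trans ?_
  have hcT : ContinuousOn (fun t => φ (γ t)) (Icc 0 T) :=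
    h.cont.comp hγc.continuous.continuousOn fun t ht => hsec t ht
  have hiT : IntervalIntegrable (fun t => φ (γ t)) volume 0 T := by
    apply ContinuousOn.intervalIntegrable
    rwa [uIcc_of_le hT.le]
  have hcτ : ContinuousOn (fun t => φ (γ t)) (Icc 0 τ) :=
    h.cont.comp hγc.continuous.continuousOn fun t ht => hDD (hseg t ht)
  have h4T : T ≤ 4 * T := by linarith
  have hnn : ∀ t, 0 ≤ D.indicator φ (γ t) := fun t => indicator_nonneg (fun z _ => h.nonneg z) _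
  -- integrability of the outer part
  have hout : IntervalIntegrable (fun t => D.indicator φ (γ t)) volume T (4 * T) := by
    rw [intervalIntegrable_iff_integrableOn_Icc_of_le h4T]
    obtain ⟨K, hK⟩ : ∃ K : Set ℝ, K = Icc T (4 * T) ∩ γ ⁻¹' D := ⟨_, rfl⟩
    have hKc : IsCompact K := by
      rw [hK]
      exact isCompact_Icc.inter_right (hD.isClosed.preimage hγc.continuous)
    have hKi : IntegrableOn (fun t => φ (γ t)) K := by
      apply ContinuousOn.integrableOn_compact hKc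
      refine h.cont.comp hγc.continuous.continuousOn fun t ht => ?_
      rw [hK] at ht
      exact hDD ht.2
    have h1 : Integrable (K.indicator fun t => φ (γ t)) := by
      rw [integrable_indicator_iff hKc.isClosed.measurableSet]
      exact hKi
    refine (h1.integrableOn (s := Icc T (4 * T))).congr_fun ?_ measurableSet_Icc
    intro t ht
    show K.indicator (fun t => φ (γ t)) t = D.indicator φ (γ t)
    by_cases hd : γ t ∈ D
    · rw [indicator_of_mem hd, indicator_of_mem]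
      rw [hK]
      exact ⟨ht, hd⟩
    · rw [indicator_of_notMem hd, indicator_of_notMem]
      rw [hK]
      exact fun h' => hd h'.2
  have hout0 : 0 ≤ ∫ t in T..(4 * T), D.indicator φ (γ t) :=
    intervalIntegral.integral_nonneg h4T fun t _ => hnn t
  rcases le_or_gt τ T with hτT | hτT
  · have h1 : ∫ t in (0:ℝ)..τ, φ (γ t) ≤ ∫ t in (0:ℝ)..T, φ (γ t) :=
      intervalIntegral.integral_mono_interval le_rfl hτ0 hτT
        (Eventually.of_forall fun t => h.nonneg _) hiT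
    linarith
  · have hiτ : IntervalIntegrable (fun t => φ (γ t)) volume T τ := by
      apply ContinuousOn.intervalIntegrable
      rw [uIcc_of_le hτT.le]
      exact hcτ.mono (Icc_subset_Icc_left hT.le)
    rw [← intervalIntegral.integral_add_adjacent_intervals hiT hiτ]
    have h1 : ∫ t in T..τ, φ (γ t) = ∫ t in T..τ, D.indicator φ (γ t) := by
      apply intervalIntegral.integral_congr
      intro t ht
      rw [uIcc_of_le hτT.le] at ht
      show φ (γ t) = D.indicator φ (γ t)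
      rw [indicator_of_mem (hseg t ⟨hT.le.trans ht.1, ht.2⟩)]
    have h2 : ∫ t in T..τ, D.indicator φ (γ t) ≤ ∫ t in T..(4 * T), D.indicator φ (γ t) :=
      intervalIntegral.integral_mono_interval le_rfl hτT.le hτ
        (Eventually.of_forall fun t => hnn t) hout
    rw [h1]
    linarith

/-- the length of an arc of the semicircle -/
theorem arc_len (h : HP u φ κ C₁ E) {m ρ : ℝ} (hρ : 0 < ρ) (hm : m + ρ < 0) {y : ℂ}
    (hy : ‖y - m‖ = ρ) (hyi : 0 ≤ y.im) :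
    dist (u y) (u ((m + ρ : ℝ) : ℂ)) ≤ ∫ θ in (0:ℝ)..Real.pi, φ (m + ρ * circ θ) * ρ := by
  -- the angle of `y`
  obtain ⟨ψ, hψ0, hψπ, hψ⟩ : ∃ ψ : ℝ, 0 ≤ ψ ∧ ψ ≤ Real.pi ∧ y = m + ρ * circ ψ := by
    refine ⟨(y - m).arg, ?_, Complex.arg_le_pi _, ?_⟩
    · rw [Complex.arg_nonneg_iff, Complex.sub_im, Complex.ofReal_im, sub_zero]
      exact hyi
    · have h1 := Complex.norm_mul_exp_arg_mul_I (y - m)
      rw [hy] at h1
      unfold circ
      rw [h1]
      ring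
  obtain ⟨γ, hγ⟩ : ∃ γ : ℝ → ℂ, γ = fun t : ℝ => (m : ℂ) + ρ * circ t := ⟨_, rfl⟩
  have hγc : ContDiff ℝ ∞ γ := by
    rw [hγ]
    exact contDiff_const.add (contDiff_const.mul contDiff_circ)
  have hγv : ∀ t : ℝ, (m : ℂ) + ρ * circ t = γ t := fun t => by rw [hγ]
  have hγ0 : γ 0 = ((m + ρ : ℝ) : ℂ) := by
    rw [hγ]
    simp only [circ_zero]
    push_cast
    ring
  have hγd : ∀ t, ‖deriv γ t‖ = ρ := by
    intro t
    have h1 : HasDerivAt circ (circ t * Complex.I) t := by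
      unfold circ
      have h2 : HasDerivAt (fun s : ℝ => (s : ℂ) * Complex.I) (1 * Complex.I) t :=
        (Complex.ofRealCLM.hasDerivAt (x := t)).mul_const Complex.I
      rw [one_mul] at h2
      exact h2.cexp
    have h3 : HasDerivAt γ ((ρ : ℂ) * (circ t * Complex.I)) t := by
      rw [hγ]
      exact (h1.const_mul (ρ : ℂ)).const_add (m : ℂ)
    rw [h3.deriv, norm_mul, norm_mul, norm_circ, Complex.norm_I, Complex.norm_real,
      Real.norm_eq_abs, abs_of_pos hρ, mul_one, mul_one]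
  have hDom : ∀ t ∈ Icc 0 Real.pi, γ t ∈ Dom := by
    intro t ht
    rw [hγ]
    apply Hc_subset_Dom hm
    refine ⟨?_, ?_⟩
    · rw [add_sub_cancel_left, norm_mul_circ, abs_of_pos hρ]
    · rw [im_add, Complex.ofReal_im, zero_add]
      exact mul_nonneg hρ.le (Real.sin_nonneg_of_nonneg_of_le_pi ht.1 ht.2)
  simp only [hγv] at hψ ⊢
  have hlen := h.len γ hγc 0 ψ hψ0 (fun t ht => hDom t ⟨ht.1, ht.2.trans hψπ⟩)
  simp only [hγd] at hlen
  rw [hψ, dist_comm, ← hγ0]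
  refine hlen.trans ?_
  apply intervalIntegral.integral_mono_interval le_rfl hψ0 hψπ
    (Eventually.of_forall fun t => mul_nonneg (h.nonneg _) hρ.le)
  apply ContinuousOn.intervalIntegrable
  rw [uIcc_of_le Real.pi_pos.le]
  exact (h.cont.comp hγc.continuous.continuousOn hDom).mul continuousOn_const

/-- the statement of the induction -/
def PP (φ : ℂ → ℝ) (κ C₁ r : ℝ) : Prop := ∀ m ρ : ℝ, 0 < ρ → ρ ≤ r → m + ρ < 0 →
  ∫ θ in (0:ℝ)..Real.pi, φ (m + ρ * circ θ) * ρ ≤ κ / 4 →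
  ∫ w in Hc m ρ, φ w ^ 2 ≤ C₁ * (∫ θ in (0:ℝ)..Real.pi, φ (m + ρ * circ θ) * ρ) ^ 2

theorem Hc_UHc (m ρ : ℝ) : Hc m ρ ⊆ UHc := fun _ h => h.2

/-- the isoperimetric inequality without the condition on the length -/
theorem iso_all {a l : ℝ} (hC : 1 ≤ C₁) (hκ : 0 < κ) (hE : E ≤ cz κ C₁) (ha : a ≤ E)
    (h : l ≤ κ / 4 → a ≤ C₁ * l ^ 2) : a ≤ C₁ * l ^ 2 := by
  rcases le_or_gt l (κ / 4) with h1 | h1
  · exact h h1
  · refine ha.trans ((E_le1 hE).trans ?_)
    have h2 : (κ / 4) ^ 2 ≤ l ^ 2 := pow_le_pow_left₀ (by positivity) h1.le 2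
    exact mul_le_mul_of_nonneg_left h2 (by linarith)

/-- (i) real points -/
theorem pt_real (hPOLH : S_POLH) (hSELECT : S_SELECT) (hEXIT : S_EXIT) (h : HP u φ κ C₁ E)
    (hκ : 0 < κ) (hC : 1 ≤ C₁) (hE : E ≤ cz κ C₁) {r : ℝ} (hP : PP φ κ C₁ r) {m ρ m' : ℝ}
    (hρr : ρ ≤ 2 * r) (hm : m + ρ < 0) (hm' : |m' - m| < ρ) :
    ∃ y : ℂ, ‖y - m‖ = ρ ∧ 0 ≤ y.im ∧ dist (u m') (u y) ≤ 20 * √C₁ * √E := by
  obtain ⟨T, hT⟩ : ∃ T : ℝ, T = (ρ - |m' - m|) / 2 := ⟨_, rfl⟩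
  have hT0 : 0 < T := by rw [hT]; linarith
  have habs := abs_nonneg (m' - m)
  have hTr : T ≤ r := by rw [hT]; linarith
  have hmT : m' + T < 0 := by
    have := le_abs_self (m' - m)
    linarith
  have hn : ‖((m' : ℝ) : ℂ) - m‖ = |m' - m| := by
    rw [← Complex.ofReal_sub, Complex.norm_real, Real.norm_eq_abs]
  have hsecH : ∀ t ∈ Icc 0 T, ∀ θ ∈ Icc 0 Real.pi, (m' : ℂ) + t * circ θ ∈ Hc m' T := by
    intro t ht θ hθ
    refine ⟨?_, ?_⟩
    · rw [add_sub_cancel_left, norm_mul_circ, abs_of_nonneg ht.1]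
      exact ht.2
    · rw [im_add, Complex.ofReal_im, zero_add]
      exact mul_nonneg ht.1 (Real.sin_nonneg_of_nonneg_of_le_pi hθ.1 hθ.2)
  have hsec : ∀ t ∈ Icc 0 T, ∀ θ ∈ Icc (0:ℝ) (0 + Real.pi), (m' : ℂ) + t * circ θ ∈ Dom := by
    intro t ht θ hθ
    rw [zero_add] at hθ
    exact Hc_subset_Dom hmT (hsecH t ht θ hθ)
  have hiso : ∀ t ∈ Ioc 0 T, ∫ s in (0:ℝ)..t, ∫ θ in (0:ℝ)..(0 + Real.pi),
      φ (m' + s * circ θ) ^ 2 * s ≤
      C₁ * (∫ θ in (0:ℝ)..(0 + Real.pi), φ (m' + t * circ θ) * t) ^ 2 := by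
    intro t ht
    rw [zero_add]
    have hmt : m' + t < 0 := by linarith [ht.2]
    have hcont : ContinuousOn (fun z => φ z ^ 2) (Hc m' t) :=
      (h.cont.mono (Hc_subset_Dom hmt)).pow 2
    rw [← hPOLH (fun z => φ z ^ 2) m' t ht.1 hcont (fun z => sq_nonneg _)]
    exact iso_all hC hκ hE (le_E h (Hc_UHc _ _))
      (hP m' t ht.1 (ht.2.trans hTr) hmt)
  -- the angles
  obtain ⟨θ₀, θ₁, θ₂, hθ₀, h1, h2, h3, hang⟩ : ∃ θ₀ θ₁ θ₂ : ℝ,
      ((m' : ℝ) : ℂ) - m = ‖((m' : ℝ) : ℂ) - m‖ * circ θ₀ ∧ 0 ≤ θ₁ ∧ θ₂ ≤ 0 + Real.pi ∧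
      Real.pi / 4 ≤ θ₂ - θ₁ ∧ ∀ θ ∈ Icc θ₁ θ₂, |θ - θ₀| ≤ Real.pi / 3 := by
    have hpi := Real.pi_pos
    rcases le_total m m' with hmm | hmm
    · refine ⟨0, 0, Real.pi / 3, ?_, le_rfl, by linarith, by linarith, ?_⟩
      · rw [hn, circ_zero, mul_one, abs_of_nonneg (by linarith)]
        push_cast
        ring
      · intro θ hθ
        rw [sub_zero, abs_of_nonneg hθ.1]
        exact hθ.2
    · refine ⟨Real.pi, 2 * Real.pi / 3, Real.pi, ?_, by linarith, by linarith, by linarith, ?_⟩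
      · rw [hn, circ_pi, abs_of_nonpos (by linarith)]
        push_cast
        ring
      · intro θ hθ
        rw [abs_of_nonpos (by linarith [hθ.2])]
        linarith [hθ.1]
  obtain ⟨θ, hθ, hsel⟩ := hSELECT φ C₁ E hC h.cont h.nonneg h.int h.energy m' 0 Real.pi T θ₁ θ₂
    (Hc m ρ) hT0 Real.pi_pos (by linarith [Real.pi_pos]) h1 h2 h3 hsec hiso (isCompact_Hc m ρ)
    (Hc_subset_Dom hm)
  have hθ' : θ ∈ Icc (0:ℝ) (0 + Real.pi) := ⟨h1.trans hθ.1, hθ.2.trans h2⟩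
  have hsin : 0 ≤ Real.sin θ := by
    rw [zero_add] at hθ'
    exact Real.sin_nonneg_of_nonneg_of_le_pi hθ'.1 hθ'.2
  obtain ⟨τ, hτ, hτn, hτs⟩ := hEXIT m m' ρ θ₀ θ (by rw [hn]; exact hm') hθ₀ (hang θ hθ)
  rw [hn] at hτ
  refine ⟨m' + τ * circ θ, hτn, ?_, ?_⟩
  · rw [im_add, Complex.ofReal_im, zero_add]
    exact mul_nonneg hτ.1.le hsin
  · refine (ray_len h hT0 hτ.1.le (by rw [hT]; linarith [hτ.2]) (isCompact_Hc m ρ)
      (Hc_subset_Dom hm) (fun t ht => hsec t ht θ hθ') ?_).trans hsel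
    intro t ht
    refine ⟨?_, ?_⟩
    · have := hτs t ht
      rwa [mem_closedBall, dist_eq_norm] at this
    · rw [im_add, Complex.ofReal_im, zero_add]
      exact mul_nonneg ht.1 hsin

/-- (ii) points of the open half disk -/
theorem pt_int (hPOLD : S_POLD) (hPOLH : S_POLH) (hSELECT : S_SELECT) (hEXIT : S_EXIT)
    (hINT : S_INT.{w}) (h : HP u φ κ C₁ E)
    (hκ : 0 < κ) (hC : 1 ≤ C₁) (hE : E ≤ cz κ C₁) {r : ℝ} (hP : PP φ κ C₁ r) {m ρ : ℝ}
    (hρr : ρ ≤ 2 * r) (hm : m + ρ < 0) {z' : ℂ} (hz : ‖z' - m‖ < ρ) (hzi : 0 < z'.im) :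
    ∃ y : ℂ, ‖y - m‖ = ρ ∧ 0 ≤ y.im ∧ dist (u z') (u y) ≤ 2 * (20 * √C₁ * √E) := by
  have hpi := Real.pi_pos
  have hCE : 0 ≤ 20 * √C₁ * √E := by positivity
  obtain ⟨s₀, hs₀⟩ : ∃ s₀ : ℝ, s₀ = min z'.im (ρ - ‖z' - m‖) := ⟨_, rfl⟩
  have hs₀0 : 0 < s₀ := by rw [hs₀]; exact lt_min hzi (by linarith)
  have hs₀1 : s₀ ≤ z'.im := by rw [hs₀]; exact min_le_left _ _
  have hs₀2 : s₀ ≤ ρ - ‖z' - m‖ := by rw [hs₀]; exact min_le_right _ _
  obtain ⟨T, hT⟩ : ∃ T : ℝ, T = s₀ / 2 := ⟨_, rfl⟩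
  have hT0 : 0 < T := by rw [hT]; linarith
  have hball : ∀ t, t ≤ T → closedBall z' t ⊆ UH := by
    intro t ht w hw
    rw [mem_closedBall, dist_eq_norm] at hw
    have h1 := (Complex.abs_im_le_norm (w - z')).trans hw
    rw [Complex.sub_im] at h1
    have h2 := (abs_le.1 h1).1
    show 0 < w.im
    linarith
  have hsec : ∀ α : ℝ, ∀ t ∈ Icc 0 T, ∀ θ ∈ Icc α (α + 2 * Real.pi), z' + (t : ℂ) * circ θ ∈ Dom := by
    intro α t ht θ _
    apply UH_subset_Dom
    apply hball T le_rfl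
    rw [mem_closedBall, dist_eq_norm, add_sub_cancel_left, norm_mul_circ, abs_of_nonneg ht.1]
    exact ht.2
  have hper : ∀ (t α : ℝ), ∫ θ in α..(α + 2 * Real.pi), φ (z' + t * circ θ) * t =
      ∫ θ in (0:ℝ)..(2 * Real.pi), φ (z' + t * circ θ) * t := by
    intro t α
    have h1 : Function.Periodic (fun θ : ℝ => φ (z' + t * circ θ) * t) (2 * Real.pi) := by
      intro θ
      simp only [circ_per]
    have h2 := h1.intervalIntegral_add_eq α 0
    rwa [zero_add] at h2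
  have hiso : ∀ α : ℝ, ∀ t ∈ Ioc 0 T, ∫ s in (0:ℝ)..t, ∫ θ in α..(α + 2 * Real.pi),
      φ (z' + s * circ θ) ^ 2 * s ≤
      C₁ * (∫ θ in α..(α + 2 * Real.pi), φ (z' + t * circ θ) * t) ^ 2 := by
    intro α t ht
    have hb := hball t ht.2
    have hcont : ContinuousOn (fun z => φ z ^ 2) (closedBall z' t) :=
      (h.cont.mono (hb.trans UH_subset_Dom)).pow 2
    rw [← hPOLD (fun z => φ z ^ 2) z' t α ht.1 hcont (fun z => sq_nonneg _), hper]
    exact iso_all hC hκ hE (le_E h (hb.trans fun w hw => (show (0:ℝ) ≤ w.im from le_of_lt hw)))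
      (hINT X u φ κ C₁ E hκ hC h hE z' t ht.1 hb)
  rcases le_total (ρ - ‖z' - m‖) z'.im with hcase | hcase
  · -- case 1
    have hs₀e : s₀ = ρ - ‖z' - m‖ := by rw [hs₀]; exact min_eq_right hcase
    obtain ⟨θ₀, hθ₀⟩ : ∃ θ₀ : ℝ, θ₀ = (z' - m).arg := ⟨_, rfl⟩
    have hθ0 : 0 ≤ θ₀ := by
      rw [hθ₀, Complex.arg_nonneg_iff, Complex.sub_im, Complex.ofReal_im, sub_zero]
      exact hzi.le
    have hθπ : θ₀ ≤ Real.pi := by rw [hθ₀]; exact Complex.arg_le_pi _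
    have hpol : z' - m = ‖z' - m‖ * circ θ₀ := by
      rw [hθ₀]
      unfold circ
      exact (Complex.norm_mul_exp_arg_mul_I (z' - m)).symm
    obtain ⟨θ₁, θ₂, h1, h2, h3, hang, hpos⟩ : ∃ θ₁ θ₂ : ℝ, θ₀ - Real.pi ≤ θ₁ ∧
        θ₂ ≤ θ₀ - Real.pi + 2 * Real.pi ∧ Real.pi / 4 ≤ θ₂ - θ₁ ∧
        (∀ θ ∈ Icc θ₁ θ₂, |θ - θ₀| ≤ Real.pi / 3) ∧
        ∀ θ ∈ Icc θ₁ θ₂, 0 ≤ θ ∧ θ ≤ Real.pi := by
      rcases le_total θ₀ (Real.pi / 2) with hh | hh
      · refine ⟨θ₀, θ₀ + Real.pi / 3, by linarith, by linarith, by linarith, ?_, ?_⟩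
        · intro θ hθ
          rw [abs_of_nonneg (by linarith [hθ.1])]
          linarith [hθ.2]
        · intro θ hθ
          exact ⟨hθ0.trans hθ.1, by linarith [hθ.2]⟩
      · refine ⟨θ₀ - Real.pi / 3, θ₀, by linarith, by linarith, by linarith, ?_, ?_⟩
        · intro θ hθ
          rw [abs_of_nonpos (by linarith [hθ.2])]
          linarith [hθ.1]
        · intro θ hθ
          exact ⟨by linarith [hθ.1], hθ.2.trans hθπ⟩
    obtain ⟨θ, hθ, hsel⟩ := hSELECT φ C₁ E hC h.cont h.nonneg h.int h.energy z' (θ₀ - Real.pi)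
      (2 * Real.pi) T θ₁ θ₂ (Hc m ρ) hT0 (by linarith) le_rfl h1 h2 h3 (hsec _) (hiso _)
      (isCompact_Hc m ρ) (Hc_subset_Dom hm)
    obtain ⟨hp1, hp2⟩ := hpos θ hθ
    have hsin : 0 ≤ Real.sin θ := Real.sin_nonneg_of_nonneg_of_le_pi hp1 hp2
    obtain ⟨τ, hτ, hτn, hτs⟩ := hEXIT m z' ρ θ₀ θ hz hpol (hang θ hθ)
    refine ⟨z' + τ * circ θ, hτn, ?_, ?_⟩
    · rw [im_add]
      exact add_nonneg hzi.le (mul_nonneg hτ.1.le hsin)
    · have h5 := (ray_len h hT0 hτ.1.le (by rw [hT, hs₀e]; linarith [hτ.2]) (isCompact_Hc m ρ)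
        (Hc_subset_Dom hm) (fun t ht => hsec (θ₀ - Real.pi) t ht θ ⟨h1.trans hθ.1, hθ.2.trans h2⟩)
        (fun t ht => ?_)).trans hsel
      · linarith
      · refine ⟨?_, ?_⟩
        · have := hτs t ht
          rwa [mem_closedBall, dist_eq_norm] at this
        · rw [im_add]
          exact add_nonneg hzi.le (mul_nonneg ht.1 hsin)
  · -- case 2
    have hs₀e : s₀ = z'.im := by rw [hs₀]; exact min_eq_left hcase
    obtain ⟨θ, hθ, hsel⟩ := hSELECT φ C₁ E hC h.cont h.nonneg h.int h.energy z' (-Real.pi)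
      (2 * Real.pi) T (-(3 * Real.pi / 4)) (-(Real.pi / 4)) (Hc m ρ) hT0 (by linarith) le_rfl
      (by linarith) (by linarith) (by linarith) (hsec _) (hiso _)
      (isCompact_Hc m ρ) (Hc_subset_Dom hm)
    obtain ⟨σ, hσ⟩ : ∃ σ : ℝ, σ = -Real.sin θ := ⟨_, rfl⟩
    have hs2 : 0 < √2 / 2 := by positivity
    have hσ1 : Real.cos θ ≤ σ := by
      have h1 : Real.sin (θ + Real.pi / 4) ≤ 0 :=
        Real.sin_nonpos_of_nonpos_of_neg_pi_le (by linarith [hθ.2]) (by linarith [hθ.1])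
      rw [Real.sin_add, Real.cos_pi_div_four, Real.sin_pi_div_four, ← add_mul] at h1
      have h2 := nonpos_of_mul_nonpos_left h1 hs2
      rw [hσ]
      linarith
    have hσ2 : -Real.cos θ ≤ σ := by
      have h1 : Real.sin (θ - Real.pi / 4) ≤ 0 :=
        Real.sin_nonpos_of_nonpos_of_neg_pi_le (by linarith [hθ.2]) (by linarith [hθ.1])
      rw [Real.sin_sub, Real.cos_pi_div_four, Real.sin_pi_div_four, ← sub_mul] at h1
      have h2 := nonpos_of_mul_nonpos_left h1 hs2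
      rw [hσ]
      linarith
    have hcos : |Real.cos θ| ≤ σ := abs_le.2 ⟨by linarith, hσ1⟩
    have hσ0 : 0 ≤ σ := (abs_nonneg _).trans hcos
    have hσh : 1 / 2 ≤ σ := by
      by_contra hcon
      push Not at hcon
      have h1 := Real.sin_sq_add_cos_sq θ
      have h2 : Real.cos θ ^ 2 ≤ σ ^ 2 := by
        rw [← sq_abs]
        exact pow_le_pow_left₀ (abs_nonneg _) hcos 2
      have h3 : Real.sin θ ^ 2 = σ ^ 2 := by rw [hσ]; ring
      have h4 : σ ^ 2 < (1 / 2) ^ 2 := pow_lt_pow_left₀ hcon hσ0 two_ne_zero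
      linarith
    have hσp : 0 < σ := by linarith
    obtain ⟨τ, hτ⟩ : ∃ τ : ℝ, τ = z'.im / σ := ⟨_, rfl⟩
    have hτσ : τ * σ = z'.im := by rw [hτ]; field_simp
    have hτ0 : 0 < τ := by rw [hτ]; positivity
    have hτT : τ ≤ 4 * T := by
      rw [hT, hs₀e, hτ, div_le_iff₀ hσp]
      have := mul_le_mul_of_nonneg_left hσh hzi.le
      linarith
    have hsinθ : Real.sin θ = -σ := by rw [hσ, neg_neg]
    obtain ⟨m'', hm''⟩ : ∃ m'' : ℝ, m'' = z'.re + τ * Real.cos θ := ⟨_, rfl⟩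
    have hend : z' + τ * circ θ = (m'' : ℂ) := by
      apply Complex.ext
      · rw [re_add, Complex.ofReal_re, hm'']
      · rw [im_add, Complex.ofReal_im, hsinθ]
        linarith
    have hmm : |m'' - m| ≤ ρ := by
      have h1 : |z'.re - m| ≤ ‖z' - m‖ := by
        have := Complex.abs_re_le_norm (z' - m)
        rwa [Complex.sub_re, Complex.ofReal_re] at this
      have h2 : |τ * Real.cos θ| ≤ z'.im := by
        rw [abs_mul, abs_of_pos hτ0, ← hτσ]
        exact mul_le_mul_of_nonneg_left hcos hτ0.le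
      have e : m'' - m = (z'.re - m) + τ * Real.cos θ := by rw [hm'']; ring
      rw [e]
      exact (abs_add_le _ _).trans (by linarith)
    have hnm : ‖(m'' : ℂ) - m‖ = |m'' - m| := by
      rw [← Complex.ofReal_sub, Complex.norm_real, Real.norm_eq_abs]
    have hseg : ∀ t ∈ Icc 0 τ, z' + (t : ℂ) * circ θ ∈ Hc m ρ := by
      intro t ht
      refine ⟨?_, ?_⟩
      · have h1 : z' ∈ closedBall (m : ℂ) ρ := by
          rw [mem_closedBall, dist_eq_norm]
          exact hz.le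
        have h2 : z' + τ * circ θ ∈ closedBall (m : ℂ) ρ := by
          rw [hend, mem_closedBall, dist_eq_norm, hnm]
          exact hmm
        have h3 := (convex_closedBall (m : ℂ) ρ).add_smul_sub_mem h1 h2 (t := t / τ)
          ⟨div_nonneg ht.1 hτ0.le, div_le_one_of_le₀ ht.2 hτ0.le⟩
        have e : z' + (t / τ) • (z' + τ * circ θ - z') = z' + (t : ℂ) * circ θ := by
          rw [add_sub_cancel_left, Complex.real_smul]
          have : (τ : ℂ) ≠ 0 := Complex.ofReal_ne_zero.2 hτ0.ne'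
          push_cast
          field_simp
        rw [e, mem_closedBall, dist_eq_norm] at h3
        exact h3
      · rw [im_add, hsinθ]
        have := mul_le_mul_of_nonneg_right ht.2 hσ0
        linarith
    have h5 := (ray_len h hT0 hτ0.le hτT (isCompact_Hc m ρ) (Hc_subset_Dom hm)
      (fun t ht => hsec (-Real.pi) t ht θ ⟨by linarith [hθ.1], by linarith [hθ.2]⟩) hseg).trans hsel
    rw [hend] at h5
    rcases hmm.lt_or_eq with hlt | heq
    · obtain ⟨y, hy1, hy2, hy3⟩ := pt_real hPOLH hSELECT hEXIT h hκ hC hE hP hρr hm hlt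
      refine ⟨y, hy1, hy2, (dist_triangle _ (u (m'' : ℂ)) _).trans ?_⟩
      linarith
    · refine ⟨m'', by rw [hnm]; exact heq, by rw [Complex.ofReal_im], ?_⟩
      linarith

/-- doubling -/
theorem PP_double (hPOLD : S_POLD) (hPOLH : S_POLH) (hSELECT : S_SELECT) (hEXIT : S_EXIT)
    (hINT : S_INT.{w}) (h : HP u φ κ C₁ E)
    (hκ : 0 < κ) (hC : 1 ≤ C₁) (hE : E ≤ cz κ C₁) {r : ℝ} (hP : PP φ κ C₁ r) :
    PP φ κ C₁ (2 * r) := by
  intro m ρ hρ hρr hm hl
  have hE2 := E_le2 hκ hC hE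
  have hCE : 0 ≤ 20 * √C₁ * √E := by positivity
  refine h.iso_bd m ρ hρ hm fun w hw => ?_
  obtain ⟨y, hy1, hy2, hy3⟩ : ∃ y : ℂ, ‖y - m‖ = ρ ∧ 0 ≤ y.im ∧
      dist (u w) (u y) ≤ 2 * (20 * √C₁ * √E) := by
    rcases hw.1.lt_or_eq with h1 | h1
    · rcases hw.2.lt_or_eq with h2 | h2
      · exact pt_int hPOLD hPOLH hSELECT hEXIT hINT h hκ hC hE hP hρr hm h1 h2
      · have e : w = ((w.re : ℝ) : ℂ) := by
          apply Complex.ext
          · rw [Complex.ofReal_re]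
          · rw [Complex.ofReal_im, ← h2]
        have h3 : |w.re - m| < ρ := by
          have := (Complex.abs_re_le_norm (w - m)).trans_lt h1
          rwa [Complex.sub_re, Complex.ofReal_re] at this
        obtain ⟨y, hy1, hy2, hy3⟩ := pt_real hPOLH hSELECT hEXIT h hκ hC hE hP hρr hm h3
        refine ⟨y, hy1, hy2, ?_⟩
        rw [e]
        linarith
    · refine ⟨w, h1, hw.2, ?_⟩
      rw [dist_self]
      positivity
  have h4 := arc_len h hρ hm hy1 hy2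
  calc dist (u w) (u ((m + ρ : ℝ) : ℂ)) ≤ dist (u w) (u y) + dist (u y) (u ((m + ρ : ℝ) : ℂ)) :=
        dist_triangle _ _ _
    _ < κ := by linarith

/-- small radii -/
theorem PP_base (h : HP u φ κ C₁ E) (hκ : 0 < κ) : ∃ r : ℝ, 0 < r ∧ PP φ κ C₁ r := by
  obtain ⟨δ, hδ, hu⟩ := Metric.uniformContinuousOn_iff.1 h.unif κ hκ
  refine ⟨δ / 4, by linarith, ?_⟩
  intro m ρ hρ hρr hm _
  refine h.iso_bd m ρ hρ hm fun w hw => ?_
  apply hu w hw.2
  · show 0 ≤ ((m + ρ : ℝ) : ℂ).im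
    rw [Complex.ofReal_im]
  · have h1 : dist w ((m + ρ : ℝ) : ℂ) ≤ dist w m + dist (m : ℂ) ((m + ρ : ℝ) : ℂ) :=
      dist_triangle _ _ _
    have h2 : dist w m ≤ ρ := by rw [dist_eq_norm]; exact hw.1
    have h3 : dist (m : ℂ) ((m + ρ : ℝ) : ℂ) = ρ := by
      rw [dist_eq_norm, ← Complex.ofReal_sub, Complex.norm_real, Real.norm_eq_abs,
        show m - (m + ρ) = -ρ by ring, abs_neg, abs_of_pos hρ]
    linarith

end hp

end Pool.Agent.H823.HC.PBD

namespace Pool.Agent.H823.HC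

open PBD in
/-- **BD.** -/
theorem t_BD (hPOLD : S_POLD) (hPOLH : S_POLH) (hSELECT : S_SELECT) (hEXIT : S_EXIT)
    (hINT : S_INT.{w}) : S_BD.{w} := by
  intro X _ u φ κ C₁ E hκ hC h hE m ρ hρ hm hl
  obtain ⟨r, hr, hP⟩ := PP_base h hκ
  have hall : ∀ n : ℕ, PP φ κ C₁ (2 ^ n * r) := by
    intro n
    induction n with
    | zero => rw [pow_zero, one_mul]; exact hP
    | succ n ih =>
      have h1 := PP_double hPOLD hPOLH hSELECT hEXIT hINT h hκ hC hE ih
      have e : (2 : ℝ) ^ (n + 1) * r = 2 * (2 ^ n * r) := by ring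
      rw [e]
      exact h1
  obtain ⟨n, hn⟩ := pow_unbounded_of_one_lt (ρ / r) (one_lt_two : (1 : ℝ) < 2)
  rw [div_lt_iff₀ hr] at hn
  exact hall n m ρ hρ hn.le hm hl

end Pool.Agent.H823.HC
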