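import Mathlib
import Pool.Agent.H823.HC.StmM

open scoped Topology ContDiff Manifold
open Set Metric Filter MeasureTheory

universe u v w

namespace Pool.Agent.H823.HC

namespace PCAY

lemma circ_ne (t : ℝ) : circ t ≠ 0 := Complex.exp_ne_zero _

lemma circ_norm (t : ℝ) : ‖circ t‖ = 1 := by
  unfold circ
  rw [Complex.norm_exp_ofReal_mul_I]

lemma circ_add (s t : ℝ) : circ (s + t) = circ s * circ t := by
  unfold circ
  rw [← Complex.exp_add]
  congr 1
  push_cast
  ring

lemma den_im (β : ℝ) (z : ℂ) : (z + β + Complex.I).im = z.im + 1 := by simp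

lemma den_norm {β : ℝ} {z : ℂ} (hz : 0 ≤ z.im) : 1 ≤ ‖z + β + Complex.I‖ := by
  have h := Complex.abs_im_le_norm (z + β + Complex.I)
  rw [den_im, abs_of_nonneg (by linarith)] at h
  linarith

lemma den_ne {β : ℝ} {z : ℂ} (hz : 0 ≤ z.im) : z + β + Complex.I ≠ 0 := by
  intro h
  have := den_norm (β := β) hz
  rw [h, norm_zero] at this
  linarith

lemma num_sq (β : ℝ) (z : ℂ) :
    ‖z + β - Complex.I‖ ^ 2 = (z.re + β) ^ 2 + (z.im - 1) ^ 2 := by
  rw [Complex.sq_norm, Complex.normSq_apply]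
  simp
  ring

lemma den_sq (β : ℝ) (z : ℂ) :
    ‖z + β + Complex.I‖ ^ 2 = (z.re + β) ^ 2 + (z.im + 1) ^ 2 := by
  rw [Complex.sq_norm, Complex.normSq_apply]
  simp
  ring

lemma cay_norm (t₀ β : ℝ) (z : ℂ) :
    ‖cay t₀ β z‖ = ‖z + β - Complex.I‖ / ‖z + β + Complex.I‖ := by
  unfold cay
  rw [norm_mul, circ_norm, one_mul, norm_div]

lemma cay_le (t₀ β : ℝ) {z : ℂ} (hz : 0 ≤ z.im) : ‖cay t₀ β z‖ ≤ 1 := by
  rw [cay_norm, div_le_one (by linarith [den_norm (β := β) hz])]
  refine (pow_le_pow_iff_left₀ (norm_nonneg _) (norm_nonneg _) two_ne_zero).1 ?_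
  rw [num_sq, den_sq]
  nlinarith

lemma cay_lt (t₀ β : ℝ) {z : ℂ} (hz : 0 < z.im) : ‖cay t₀ β z‖ < 1 := by
  rw [cay_norm, div_lt_one (by linarith [den_norm (β := β) hz.le])]
  refine (pow_lt_pow_iff_left₀ (norm_nonneg _) (norm_nonneg _) two_ne_zero).1 ?_
  rw [num_sq, den_sq]
  nlinarith

lemma cay_deriv (t₀ β : ℝ) {z : ℂ} (hz : 0 ≤ z.im) :
    HasDerivAt (cay t₀ β) (circ t₀ * (2 * Complex.I / (z + β + Complex.I) ^ 2)) z := by
  have hd := den_ne (β := β) hz
  have h1 : HasDerivAt (fun z : ℂ => z + β - Complex.I) 1 z :=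
    ((hasDerivAt_id z).add_const _).sub_const _
  have h2 : HasDerivAt (fun z : ℂ => z + β + Complex.I) 1 z :=
    ((hasDerivAt_id z).add_const _).add_const _
  have h3 := (h1.div h2 hd).const_mul (circ t₀)
  refine h3.congr_deriv ?_
  congr 2
  ring

lemma cay_diff (t₀ β : ℝ) {z z' : ℂ} (hz : 0 ≤ z.im) (hz' : 0 ≤ z'.im) :
    cay t₀ β z - cay t₀ β z' = circ t₀ * (2 * Complex.I * (z - z')) /
      ((z + β + Complex.I) * (z' + β + Complex.I)) := by
  have h1 := den_ne (β := β) hz
  have h2 := den_ne (β := β) hz'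
  unfold cay
  field_simp
  ring

lemma det_mul (c : ℂ) : (ContinuousLinearMap.mul ℝ ℂ c).det = ‖c‖ ^ 2 := by
  have h : (ContinuousLinearMap.mul ℝ ℂ c).det = Algebra.norm ℝ c := by
    rw [Algebra.norm_apply]
    rfl
  rw [h, Algebra.norm_complex_apply, Complex.sq_norm]

/-- the real parameter -/
noncomputable def ct (φ : ℝ) : ℝ := -(Real.cos φ / Real.sin φ)

lemma cay_ct (t₀ β φ : ℝ) (hφ : 0 < Real.sin φ) :
    cay t₀ β ((ct φ - β : ℝ) : ℂ) = circ (t₀ + 2 * φ) := by
  have hs : ((Real.sin φ : ℝ) : ℂ) ≠ 0 := by exact_mod_cast hφ.ne'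
  have e1 : circ (2 * φ) = circ φ * circ φ := by rw [← circ_add]; congr 1; ring
  have e2 : circ φ = (Real.cos φ : ℂ) + (Real.sin φ : ℂ) * Complex.I := by
    unfold circ
    rw [Complex.exp_mul_I, Complex.ofReal_cos, Complex.ofReal_sin]
  have e3 : ((Real.cos φ : ℂ) - (Real.sin φ : ℂ) * Complex.I) *
      ((Real.cos φ : ℂ) + (Real.sin φ : ℂ) * Complex.I) = 1 := by
    have h := Real.sin_sq_add_cos_sq φ
    have h' : ((Real.sin φ : ℂ)) ^ 2 + ((Real.cos φ : ℂ)) ^ 2 = 1 := by exact_mod_cast h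
    have hI : Complex.I ^ 2 = -1 := Complex.I_sq
    linear_combination h' - ((Real.sin φ : ℂ)) ^ 2 * hI
  have e4 : ((Real.cos φ : ℂ) - (Real.sin φ : ℂ) * Complex.I) ≠ 0 := by
    intro h
    rw [h, zero_mul] at e3
    exact zero_ne_one e3
  unfold cay
  rw [circ_add, e1]
  congr 1
  have e0 : ((ct φ - β : ℝ) : ℂ) = -((Real.cos φ : ℂ) / (Real.sin φ : ℂ)) - (β : ℂ) := by
    unfold ct
    rw [Complex.ofReal_sub, Complex.ofReal_neg, Complex.ofReal_div]
  have e5 : (((ct φ - β : ℝ) : ℂ) + β - Complex.I) =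
      -((Real.cos φ : ℂ) + (Real.sin φ : ℂ) * Complex.I) / (Real.sin φ : ℂ) := by
    rw [e0, eq_div_iff hs]
    have := div_mul_cancel₀ (Real.cos φ : ℂ) hs
    linear_combination - this
  have e6 : (((ct φ - β : ℝ) : ℂ) + β + Complex.I) =
      -((Real.cos φ : ℂ) - (Real.sin φ : ℂ) * Complex.I) / (Real.sin φ : ℂ) := by
    rw [e0, eq_div_iff hs]
    have := div_mul_cancel₀ (Real.cos φ : ℂ) hs
    linear_combination - this
  rw [e5, e6, div_div_div_cancel_right₀ hs, neg_div_neg_eq, div_eq_iff e4, e2, mul_assoc, mul_comm _ (_ - _ : ℂ),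
    e3, mul_one]

lemma ct_lt {φ φ' : ℝ} (h0 : 0 < φ) (h1 : φ < φ') (h2 : φ' < Real.pi) : ct φ < ct φ' := by
  have s1 : 0 < Real.sin φ := Real.sin_pos_of_pos_of_lt_pi h0 (h1.trans h2)
  have s2 : 0 < Real.sin φ' := Real.sin_pos_of_pos_of_lt_pi (h0.trans h1) h2
  have s3 : 0 < Real.sin (φ' - φ) := Real.sin_pos_of_pos_of_lt_pi (by linarith) (by linarith)
  unfold ct
  rw [neg_lt_neg_iff, div_lt_div_iff₀ s2 s1]
  rw [Real.sin_sub] at s3
  linarith

/-- the angle of a real parameter -/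
lemma ct_surj (y : ℝ) : ∃ φ : ℝ, 0 < φ ∧ φ < Real.pi ∧ ct φ = y := by
  have h1 := Real.neg_pi_div_two_lt_arctan y
  have h2 := Real.arctan_lt_pi_div_two y
  refine ⟨Real.arctan y + Real.pi / 2, by linarith, by linarith, ?_⟩
  unfold ct
  rw [Real.cos_add_pi_div_two, Real.sin_add_pi_div_two, neg_div, neg_neg,
    ← Real.tan_eq_sin_div_cos, Real.tan_arctan]

end PCAY

open PCAY

theorem t_CAY : S_CAY := by
  intro t₀ t₁ β h01 h10 hβ
  obtain ⟨τ, hτ⟩ : ∃ τ, τ = (t₁ - t₀) / 2 := ⟨_, rfl⟩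
  have hβ' : β = ct τ := by rw [hβ, hτ]; rfl
  have hτ0 : 0 < τ := by rw [hτ]; linarith
  have hτ1 : τ < Real.pi := by rw [hτ]; linarith
  refine ⟨fun z hz => ⟨?_, ?_, ?_⟩, fun z hz => ⟨?_, ?_⟩, fun z hz z' hz' => ?_, fun s hs => ?_,
    fun x hx => ?_, fun x hx => ?_, fun f hf => ?_⟩
  · rw [mem_closedBall_zero_iff]
    exact cay_le t₀ β hz
  · exact (cay_deriv t₀ β hz).differentiableAt
  · have hd := den_ne (β := β) hz
    have h1 : ContDiffAt ℂ ∞ (cay t₀ β) z := by
      unfold cay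
      refine contDiffAt_const.mul (ContDiffAt.div ?_ ?_ hd)
      · exact (contDiffAt_id.add contDiffAt_const).sub contDiffAt_const
      · exact (contDiffAt_id.add contDiffAt_const).add contDiffAt_const
    exact h1.restrict_scalars ℝ
  · rw [mem_ball_zero_iff]
    exact cay_lt t₀ β hz
  · rw [(cay_deriv t₀ β (le_of_lt hz)).deriv]
    have hd := den_ne (β := β) (le_of_lt (show 0 < z.im from hz))
    have : (2 * Complex.I : ℂ) ≠ 0 := mul_ne_zero two_ne_zero Complex.I_ne_zero
    exact mul_ne_zero (circ_ne _) (div_ne_zero this (pow_ne_zero 2 hd))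
  · rw [dist_eq_norm, cay_diff t₀ β hz hz', norm_div, norm_mul, norm_mul, norm_mul, norm_mul,
      circ_norm, Complex.norm_I, Complex.norm_ofNat, dist_eq_norm, one_mul, mul_one]
    have h1 := den_norm (β := β) hz
    have h2 := den_norm (β := β) hz'
    rw [div_le_iff₀ (by positivity)]
    have h3 : 1 ≤ ‖z + β + Complex.I‖ * ‖z' + β + Complex.I‖ := one_le_mul_of_one_le_of_one_le h1 h2
    have h4 : 0 ≤ 2 * ‖z - z'‖ := by positivity
    nlinarith
  · have h1 : 0 < (s - t₀) / 2 := by linarith [hs.1]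
    have h2 : (s - t₀) / 2 < τ := by rw [hτ]; linarith [hs.2]
    refine ⟨ct ((s - t₀) / 2) - β, ?_, ?_⟩
    · have := ct_lt h1 h2 hτ1
      rw [hβ']
      linarith
    · rw [cay_ct t₀ β _ (Real.sin_pos_of_pos_of_lt_pi h1 (h2.trans hτ1))]
      congr 1
      ring
  · obtain ⟨φ, h1, h2, h3⟩ := ct_surj (x + β)
    have h4 : φ < τ := by
      by_contra hcon
      rcases eq_or_lt_of_le (not_lt.1 hcon) with h5 | h5
      · rw [← h5, ← hβ'] at h3
        linarith
      · have := ct_lt hτ0 h5 h2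
        rw [h3, ← hβ'] at this
        linarith
    refine ⟨t₀ + 2 * φ, ⟨by linarith, ?_⟩, ?_⟩
    · rw [hτ] at h4; linarith
    · rw [← cay_ct t₀ β φ (Real.sin_pos_of_pos_of_lt_pi h1 h2), h3]
      congr 1
      push_cast
      ring
  · obtain ⟨φ, h1, h2, h3⟩ := ct_surj (x + β)
    have h4 : τ ≤ φ := by
      by_contra hcon
      have := ct_lt h1 (not_le.1 hcon) hτ1
      rw [h3, ← hβ'] at this
      linarith
    refine ⟨t₀ + 2 * φ, ⟨?_, by linarith⟩, ?_⟩
    · rw [hτ] at h4; linarith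
    · rw [← cay_ct t₀ β φ (Real.sin_pos_of_pos_of_lt_pi h1 h2), h3]
      congr 1
      push_cast
      ring
  · -- the change of variables
    have hopen : IsOpen UH := isOpen_lt continuous_const Complex.continuous_im
    have hmeas : MeasurableSet UH := hopen.measurableSet
    have hinj : InjOn (cay t₀ β) UH := by
      intro z hz z' hz' h
      have h1 := cay_diff t₀ β (le_of_lt hz) (le_of_lt hz')
      rw [sub_eq_zero.2 h] at h1
      have d1 := den_ne (β := β) (le_of_lt (show 0 < z.im from hz))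
      have d2 := den_ne (β := β) (le_of_lt (show 0 < z'.im from hz'))
      have h2 := (div_eq_zero_iff.1 h1.symm).resolve_right (mul_ne_zero d1 d2)
      have h3 := (mul_eq_zero.1 h2).resolve_left (circ_ne _)
      have h4 := (mul_eq_zero.1 h3).resolve_left (mul_ne_zero two_ne_zero Complex.I_ne_zero)
      exact sub_eq_zero.1 h4
    have himg : cay t₀ β '' UH = ball 0 1 := by
      apply Subset.antisymm
      · rintro _ ⟨z, hz, rfl⟩
        rw [mem_ball_zero_iff]
        exact cay_lt t₀ β hz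
      · intro ζ hζ
        rw [mem_ball_zero_iff] at hζ
        obtain ⟨ξ, hξ⟩ : ∃ ξ : ℂ, ξ = ζ / circ t₀ := ⟨_, rfl⟩
        have hξn : ‖ξ‖ < 1 := by rw [hξ, norm_div, circ_norm, div_one]; exact hζ
        have hξ1 : (1 : ℂ) - ξ ≠ 0 := by
          intro h
          have : ξ = 1 := (sub_eq_zero.1 h).symm
          rw [this, norm_one] at hξn
          exact lt_irrefl _ hξn
        refine ⟨Complex.I * (1 + ξ) / (1 - ξ) - β, ?_, ?_⟩
        · change 0 < (Complex.I * (1 + ξ) / (1 - ξ) - β).im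
          have h1 : (Complex.I * (1 + ξ) / (1 - ξ) - β).im =
              (1 - Complex.normSq ξ) / Complex.normSq (1 - ξ) := by
            rw [Complex.sub_im, Complex.ofReal_im, sub_zero, Complex.div_im]
            simp only [Complex.normSq_apply, Complex.mul_im, Complex.mul_re, Complex.I_re,
              Complex.I_im, Complex.add_re, Complex.add_im, Complex.sub_re, Complex.sub_im,
              Complex.one_re, Complex.one_im]
            ring
          rw [h1]
          apply div_pos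
          · rw [← Complex.sq_norm]
            have := norm_nonneg ξ
            nlinarith
          · exact Complex.normSq_pos.2 hξ1
        · unfold cay
          have h2 : Complex.I * (1 + ξ) / (1 - ξ) - (β : ℂ) + β - Complex.I =
              2 * Complex.I * ξ / (1 - ξ) := by
            field_simp
            ring
          have h3 : Complex.I * (1 + ξ) / (1 - ξ) - (β : ℂ) + β + Complex.I =
              2 * Complex.I / (1 - ξ) := by
            field_simp
            ring
          rw [h2, h3, div_div_div_cancel_right₀ hξ1,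
            mul_div_cancel_left₀ ξ (mul_ne_zero two_ne_zero Complex.I_ne_zero), hξ]
          field_simp [circ_ne t₀]
    have hfd : ∀ z ∈ UH, HasFDerivWithinAt (cay t₀ β)
        (ContinuousLinearMap.mul ℝ ℂ (deriv (cay t₀ β) z)) UH z := by
      intro z hz
      have h1 := (cay_deriv t₀ β (le_of_lt hz)).differentiableAt.hasDerivAt.hasFDerivAt.restrictScalars ℝ
      refine (h1.congr_fderiv ?_).hasFDerivWithinAt
      ext
      simp [mul_comm]
    have hint := integrableOn_image_iff_integrableOn_abs_det_fderiv_smul volume hmeas hfd hinj f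
    have hval := integral_image_eq_integral_abs_det_fderiv_smul volume hmeas hfd hinj f
    rw [himg] at hint hval
    have he : (fun x => |(ContinuousLinearMap.mul ℝ ℂ (deriv (cay t₀ β) x)).det| • f (cay t₀ β x)) =
        fun z => f (cay t₀ β z) * ‖deriv (cay t₀ β) z‖ ^ 2 := by
      funext z
      rw [det_mul, abs_of_nonneg (by positivity), smul_eq_mul, mul_comm]
    rw [he] at hint hval
    exact ⟨hint.1 hf, hval.symm⟩

end Pool.Agent.H823.HC
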