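import Mathlib
import Pool.Agent.H823.HC.StmM

/-!
Leaf COMP of project HC: closed manifolds have bounded geometry.
-/

open scoped Topology ContDiff Manifold
open Set Metric Filter MeasureTheory

noncomputable section

namespace Pool.Agent.H823.HC

universe u v w

namespace PCOMP

section transl

variable {V : Type u} [NormedAddCommGroup V] [InnerProductSpace ℝ V]

/-- the translation `x ↦ x - a` of `V` -/
def tau (a : V) : OpenPartialHomeomorph V V := (Homeomorph.addRight (-a)).toOpenPartialHomeomorph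

theorem tau_mem (a : V) : tau a ∈ contDiffGroupoid ∞ 𝓘(ℝ, V) := by
  rw [contDiffGroupoid, mem_groupoid_of_pregroupoid]
  constructor
  · show ContDiffOn ℝ ∞ (fun x : V => x + -a) _
    exact (contDiff_id.add contDiff_const).contDiffOn
  · show ContDiffOn ℝ ∞ (fun x : V => x + - -a) _
    exact (contDiff_id.add contDiff_const).contDiffOn

variable {M : Type v} [TopologicalSpace M] [ChartedSpace V M]

/-- the chart `e - a` -/
def tr (e : OpenPartialHomeomorph M V) (a : V) : OpenPartialHomeomorph M V := e.trans (tau a)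

theorem tr_mem {e : OpenPartialHomeomorph M V} (he : e ∈ Charts V M) (a : V) :
    tr e a ∈ Charts V M := by
  intro e' he'
  obtain ⟨h1, h2⟩ := he e' he'
  constructor
  · have h := (contDiffGroupoid ∞ 𝓘(ℝ, V)).trans ((contDiffGroupoid ∞ 𝓘(ℝ, V)).symm (tau_mem a)) h1
    rw [tr, OpenPartialHomeomorph.trans_symm_eq_symm_trans_symm, OpenPartialHomeomorph.trans_assoc]
    exact h
  · have h := (contDiffGroupoid ∞ 𝓘(ℝ, V)).trans h2 (tau_mem a)
    rw [tr, ← OpenPartialHomeomorph.trans_assoc]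
    exact h

theorem tr_apply (e : OpenPartialHomeomorph M V) (a : V) (x : M) : tr e a x = e x - a := by
  show e x + -a = _
  abel

theorem tr_symm_apply (e : OpenPartialHomeomorph M V) (a : V) (x : V) :
    (tr e a).symm x = e.symm (x + a) := by
  show e.symm (x + - -a) = _
  rw [neg_neg]

theorem tr_source (e : OpenPartialHomeomorph M V) (a : V) : (tr e a).source = e.source := by
  rw [tr, OpenPartialHomeomorph.trans_source]
  simp [tau]

theorem tr_target (e : OpenPartialHomeomorph M V) (a : V) (x : V) :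
    x ∈ (tr e a).target ↔ x + a ∈ e.target := by
  rw [tr, OpenPartialHomeomorph.trans_target]
  have h : ((tau a).symm x : V) = x + a := by
    show x + - -a = _
    rw [neg_neg]
  constructor
  · intro hx
    have := hx.2
    rwa [mem_preimage, h] at this
  · intro hx
    refine ⟨by simp [tau], ?_⟩
    rwa [mem_preimage, h]

end transl

section metric

variable {V : Type u} [NormedAddCommGroup V] [InnerProductSpace ℝ V]
  {M : Type v} [MetricSpace M] [ChartedSpace V M]

theorem symm_mdiff {e : OpenPartialHomeomorph M V} (he : e ∈ Charts V M) {x : V}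
    (hx : x ∈ e.target) : MDifferentiableAt 𝓘(ℝ, V) 𝓘(ℝ, V) e.symm x :=
  ((contMDiffOn_symm_of_mem_maximalAtlas he).contMDiffAt
    (e.open_target.mem_nhds hx)).mdifferentiableAt (by simp)

theorem mdiff {e : OpenPartialHomeomorph M V} (he : e ∈ Charts V M) {x : M}
    (hx : x ∈ e.source) : MDifferentiableAt 𝓘(ℝ, V) 𝓘(ℝ, V) e x :=
  ((contMDiffOn_of_mem_maximalAtlas he).contMDiffAt
    (e.open_source.mem_nhds hx)).mdifferentiableAt (by simp)

theorem frame_inj {e : OpenPartialHomeomorph M V} (he : e ∈ Charts V M) {x : V}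
    (hx : x ∈ e.target) {v : V} (hv : frame e x v = 0) : v = 0 := by
  have hm : e.MDifferentiable 𝓘(ℝ, V) 𝓘(ℝ, V) :=
    ⟨fun y hy => (mdiff he hy).mdifferentiableWithinAt,
      fun y hy => (symm_mdiff he hy).mdifferentiableWithinAt⟩
  have h := hm.comp_symm_deriv hx
  have h1 := congrArg (fun L => L v) h
  simp only [ContinuousLinearMap.comp_apply] at h1
  have h2 : (mfderiv 𝓘(ℝ, V) 𝓘(ℝ, V) e.symm x) v = 0 := hv
  rw [h2, map_zero] at h1
  exact h1.symm

theorem frame_tr {e : OpenPartialHomeomorph M V} (he : e ∈ Charts V M) (a : V) {x : V}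
    (hx : x + a ∈ e.target) (v : V) :
    (frame (tr e a) x v : V) = (frame e (x + a) v : V) := by
  unfold frame
  have e1 : ((tr e a).symm : V → M) = e.symm ∘ fun x => x + a := by
    funext y
    exact tr_symm_apply e a y
  have h2 : MDifferentiableAt 𝓘(ℝ, V) 𝓘(ℝ, V) (fun x : V => x + a) x :=
    (differentiableAt_id.add_const a).mdifferentiableAt
  have h3 := mfderiv_comp x (symm_mdiff he hx) h2
  rw [e1, h3]
  have h4 : mfderiv 𝓘(ℝ, V) 𝓘(ℝ, V) (fun x : V => x + a) x = ContinuousLinearMap.id ℝ V := by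
    rw [mfderiv_eq_fderiv, fderiv_add_const]
    exact fderiv_id
  rw [h4]
  rfl

theorem gC_tr (A : AlmostKahler V M) {e : OpenPartialHomeomorph M V} (he : e ∈ Charts V M) (a : V)
    {x : V} (hx : x + a ∈ e.target) (v w : V) : A.gC (tr e a) x v w = A.gC e (x + a) v w := by
  have h1 := frame_tr he a hx v
  have h2 := frame_tr he a hx w
  have h3 := tr_symm_apply e a x
  unfold AlmostKahler.gC
  revert h1 h2
  generalize frame (tr e a) x v = v'
  generalize frame (tr e a) x w = w'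
  revert v' w'
  rw [h3]
  intro v' w' h1 h2
  subst h1 h2
  rfl

theorem gC_add_left (A : AlmostKahler V M) (e : OpenPartialHomeomorph M V) (x v v' w : V) :
    A.gC e x (v + v') w = A.gC e x v w + A.gC e x v' w := by
  have h : frame e x (v + v') = frame e x v + frame e x v' :=
    (mfderiv 𝓘(ℝ, V) 𝓘(ℝ, V) e.symm x).map_add v v'
  unfold AlmostKahler.gC
  rw [h, map_add]
  rfl

theorem gC_smul_left (A : AlmostKahler V M) (e : OpenPartialHomeomorph M V) (x : V) (c : ℝ)
    (v w : V) : A.gC e x (c • v) w = c * A.gC e x v w := by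
  have h : frame e x (c • v) = c • frame e x v :=
    (mfderiv 𝓘(ℝ, V) 𝓘(ℝ, V) e.symm x).map_smul c v
  unfold AlmostKahler.gC
  rw [h, map_smul]
  rfl

theorem gC_symm (A : AlmostKahler V M) (e : OpenPartialHomeomorph M V) (x v w : V) :
    A.gC e x v w = A.gC e x w v :=
  A.symm _ _ _

/-- the metric in a chart as a bilinear map -/
def bil (A : AlmostKahler V M) (e : OpenPartialHomeomorph M V) (x : V) : V →ₗ[ℝ] V →ₗ[ℝ] ℝ :=
  LinearMap.mk₂ ℝ (fun v w => A.gC e x v w) (gC_add_left A e x)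
    (fun c v w => gC_smul_left A e x c v w)
    (fun v w w' => by
      rw [gC_symm, gC_add_left, gC_symm A e x w, gC_symm A e x w'])
    (fun c v w => by
      rw [gC_symm, gC_smul_left, gC_symm A e x w]
      rfl)

theorem gC_expand [FiniteDimensional ℝ V] (A : AlmostKahler V M) (e : OpenPartialHomeomorph M V)
    (x v w : V) : A.gC e x v w = ∑ i, ∑ j, inner ℝ (stdOrthonormalBasis ℝ V i) v *
      inner ℝ (stdOrthonormalBasis ℝ V j) w *
      A.gC e x (stdOrthonormalBasis ℝ V i) (stdOrthonormalBasis ℝ V j) := by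
  set b := stdOrthonormalBasis ℝ V with hb
  have h1 : A.gC e x v w = bil A e x v w := rfl
  have h2 : bil A e x v w = bil A e x (∑ i, inner ℝ (b i) v • b i) (∑ j, inner ℝ (b j) w • b j) := by
    rw [b.sum_repr', b.sum_repr']
  rw [h1, h2]
  simp only [map_sum, LinearMap.sum_apply, map_smul, LinearMap.smul_apply, smul_eq_mul,
    Finset.mul_sum]
  rw [Finset.sum_comm]
  refine Finset.sum_congr rfl fun i _ => Finset.sum_congr rfl fun j _ => ?_
  have h3 : bil A e x (b i) (b j) = A.gC e x (b i) (b j) := rfl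
  rw [h3]
  ring

theorem sum_bound [FiniteDimensional ℝ V] (F : Fin (Module.finrank ℝ V) → Fin (Module.finrank ℝ V) → ℝ)
    (v w : V) : |∑ i, ∑ j, inner ℝ (stdOrthonormalBasis ℝ V i) v *
      inner ℝ (stdOrthonormalBasis ℝ V j) w * F i j| ≤ (∑ i, ∑ j, |F i j|) * (‖v‖ * ‖w‖) := by
  have hb : ∀ i, ∀ v : V, |inner ℝ (stdOrthonormalBasis ℝ V i) v| ≤ ‖v‖ := by
    intro i v
    have h := abs_real_inner_le_norm (stdOrthonormalBasis ℝ V i) v
    rwa [(stdOrthonormalBasis ℝ V).norm_eq_one, one_mul] at h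
  rw [Finset.sum_mul]
  refine (Finset.abs_sum_le_sum_abs _ _).trans (Finset.sum_le_sum fun i _ => ?_)
  rw [Finset.sum_mul]
  refine (Finset.abs_sum_le_sum_abs _ _).trans (Finset.sum_le_sum fun j _ => ?_)
  rw [abs_mul, abs_mul, mul_comm (|F i j|)]
  exact mul_le_mul_of_nonneg_right (mul_le_mul (hb i v) (hb j w) (abs_nonneg _) (norm_nonneg _))
    (abs_nonneg _)

/-- uniform bounds near a point -/
theorem loc_bound [FiniteDimensional ℝ V] (A : AlmostKahler V M) {e : OpenPartialHomeomorph M V}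
    (he : e ∈ Charts V M) {x₀ : V} (hx₀ : x₀ ∈ e.target) :
    ∃ r K : ℝ, 0 < r ∧ 1 ≤ K ∧ ball x₀ (2 * r) ⊆ e.target ∧
      ∀ x ∈ ball x₀ (2 * r), (∀ v, (K⁻¹ * ‖v‖) ^ 2 ≤ A.gC e x v v) ∧
        (∀ v, A.gC e x v v ≤ (K * ‖v‖) ^ 2) ∧
        ∀ u v w, |fderiv ℝ (fun y => A.gC e y v w) x u| ≤ K * ‖u‖ * ‖v‖ * ‖w‖ := by
  obtain ⟨R, hR, hRs⟩ := Metric.isOpen_iff.1 e.open_target x₀ hx₀
  set B := closedBall x₀ (R / 2) with hB
  have hBt : B ⊆ e.target := (closedBall_subset_ball (by linarith)).trans hRs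
  have : ProperSpace V := FiniteDimensional.proper_real V
  have hBc : IsCompact B := isCompact_closedBall _ _
  set b := stdOrthonormalBasis ℝ V with hb
  have hsm : ∀ v w : V, ContDiffOn ℝ ∞ (fun x => A.gC e x v w) e.target := fun v w =>
    A.smooth_g e he v w
  have hco : ∀ v w : V, ContinuousOn (fun x => A.gC e x v w) B := fun v w =>
    (hsm v w).continuousOn.mono hBt
  have hdo : ∀ v w : V, ContinuousOn (fun x => fderiv ℝ (fun y => A.gC e y v w) x) B := fun v w =>
    ((hsm v w).continuousOn_fderiv_of_isOpen e.open_target (by simp)).mono hBt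
  -- upper bounds
  obtain ⟨C, hC⟩ := hBc.bddAbove_image (f := fun x => ∑ i, ∑ j, |A.gC e x (b i) (b j)|)
    (continuousOn_finsetSum _ fun i _ => continuousOn_finsetSum _ fun j _ => (hco _ _).abs)
  obtain ⟨D, hD⟩ := hBc.bddAbove_image
    (f := fun x => ∑ i, ∑ j, ‖fderiv ℝ (fun y => A.gC e y (b i) (b j)) x‖)
    (continuousOn_finsetSum _ fun i _ => continuousOn_finsetSum _ fun j _ => (hdo _ _).norm)
  have hC' : ∀ x ∈ B, ∑ i, ∑ j, |A.gC e x (b i) (b j)| ≤ C := fun x hx =>
    hC (mem_image_of_mem _ hx)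
  have hD' : ∀ x ∈ B, ∑ i, ∑ j, ‖fderiv ℝ (fun y => A.gC e y (b i) (b j)) x‖ ≤ D := fun x hx =>
    hD (mem_image_of_mem _ hx)
  -- lower bound
  have hcc : ContinuousOn (fun z : V × V => A.gC e z.1 z.2 z.2) (B ×ˢ sphere (0 : V) 1) := by
    have e1 : (fun z : V × V => A.gC e z.1 z.2 z.2) = fun z : V × V =>
        ∑ i, ∑ j, inner ℝ (b i) z.2 * inner ℝ (b j) z.2 * A.gC e z.1 (b i) (b j) := by
      funext z
      exact gC_expand A e z.1 z.2 z.2
    rw [e1]
    refine continuousOn_finsetSum _ fun i _ => continuousOn_finsetSum _ fun j _ => ?_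
    refine ContinuousOn.mul (Continuous.continuousOn (by fun_prop)) ?_
    exact (hco (b i) (b j)).comp continuousOn_fst fun z hz => hz.1
  obtain ⟨m, hm0, hm⟩ := (hBc.prod (isCompact_sphere (0 : V) 1)).exists_forall_le' hcc (a := 0)
    (by
      rintro ⟨x, v⟩ ⟨hx, hv⟩
      refine A.pos _ _ fun h => ?_
      have h0 : v = 0 := frame_inj he (hBt hx) h
      have hv' : ‖v‖ = 1 := mem_sphere_zero_iff_norm.1 hv
      rw [h0, norm_zero] at hv'
      exact zero_ne_one hv')
  have hm' : ∀ x ∈ B, ∀ v : V, m * ‖v‖ ^ 2 ≤ A.gC e x v v := by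
    intro x hx v
    by_cases hv : v = 0
    · subst hv
      have : A.gC e x (0 : V) 0 = 0 := by
        have := gC_smul_left A e x 0 0 0
        simpa using this
      simp [this]
    · have hn : 0 < ‖v‖ := norm_pos_iff.2 hv
      have h1 := hm (x, ‖v‖⁻¹ • v) ⟨hx, by
        rw [mem_sphere_zero_iff_norm, norm_smul, norm_inv, norm_norm, inv_mul_cancel₀ hn.ne']⟩
      simp only [gC_smul_left] at h1
      rw [gC_symm, gC_smul_left] at h1
      have h2 : ‖v‖⁻¹ * (‖v‖⁻¹ * A.gC e x v v) * ‖v‖ ^ 2 = A.gC e x v v := by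
        field_simp
      calc m * ‖v‖ ^ 2 ≤ ‖v‖⁻¹ * (‖v‖⁻¹ * A.gC e x v v) * ‖v‖ ^ 2 :=
            mul_le_mul_of_nonneg_right h1 (sq_nonneg _)
        _ = _ := h2
  set K := max 1 (max C (max D m⁻¹)) with hK
  have hK1 : 1 ≤ K := le_max_left _ _
  have hKC : C ≤ K := (le_max_left _ _).trans (le_max_right _ _)
  have hKD : D ≤ K := (le_max_left _ _).trans ((le_max_right _ _).trans (le_max_right _ _))
  have hKm : m⁻¹ ≤ K := (le_max_right _ _).trans ((le_max_right _ _).trans (le_max_right _ _))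
  have hK0 : 0 < K := by linarith
  refine ⟨R / 4, K, by linarith, hK1, ?_, fun x hx => ⟨fun v => ?_, fun v => ?_, fun u v w => ?_⟩⟩
  · exact (ball_subset_ball (by linarith)).trans hRs
  all_goals
    have hxB : x ∈ B := ball_subset_closedBall ((ball_subset_ball (by linarith)) hx)
  · refine le_trans ?_ (hm' x hxB v)
    rw [mul_pow]
    refine mul_le_mul_of_nonneg_right ?_ (sq_nonneg _)
    have h1 : K⁻¹ ≤ m := by
      rw [inv_le_comm₀ hK0 hm0]
      exact hKm
    have h2 : K⁻¹ ≤ 1 := inv_le_one_of_one_le₀ hK1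
    have h3 : 0 ≤ K⁻¹ := (inv_pos.2 hK0).le
    nlinarith
  · have h1 : A.gC e x v v ≤ C * (‖v‖ * ‖v‖) := by
      refine (le_abs_self _).trans ?_
      rw [gC_expand]
      refine (sum_bound (fun i j => A.gC e x (b i) (b j)) v v).trans ?_
      exact mul_le_mul_of_nonneg_right (hC' x hxB) (by positivity)
    refine h1.trans ?_
    rw [mul_pow, ← pow_two]
    refine mul_le_mul_of_nonneg_right ?_ (sq_nonneg _)
    nlinarith
  · have h0 : (fun y => A.gC e y v w) = fun y => ∑ i, ∑ j, inner ℝ (b i) v * inner ℝ (b j) w *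
        A.gC e y (b i) (b j) := by
      funext y
      exact gC_expand A e y v w
    have hd : ∀ i j, DifferentiableAt ℝ (fun y => A.gC e y (b i) (b j)) x := fun i j =>
      ((hsm (b i) (b j)).contDiffAt (e.open_target.mem_nhds (hBt hxB))).differentiableAt (by simp)
    have h1 : HasFDerivAt (fun y => A.gC e y v w) (∑ i, ∑ j, (inner ℝ (b i) v * inner ℝ (b j) w) •
        fderiv ℝ (fun y => A.gC e y (b i) (b j)) x) x := by
      rw [h0]
      exact HasFDerivAt.fun_sum fun i _ => HasFDerivAt.fun_sum fun j _ =>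
        (hd i j).hasFDerivAt.const_mul _
    rw [h1.fderiv]
    simp only [sum_apply, smul_apply, smul_eq_mul]
    refine (sum_bound (fun i j => fderiv ℝ (fun y => A.gC e y (b i) (b j)) x u) v w).trans ?_
    have h2 : ∑ i, ∑ j, |fderiv ℝ (fun y => A.gC e y (b i) (b j)) x u| ≤ K * ‖u‖ := by
      calc ∑ i, ∑ j, |fderiv ℝ (fun y => A.gC e y (b i) (b j)) x u|
          ≤ ∑ i, ∑ j, ‖fderiv ℝ (fun y => A.gC e y (b i) (b j)) x‖ * ‖u‖ := by
            refine Finset.sum_le_sum fun i _ => Finset.sum_le_sum fun j _ => ?_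
            rw [← Real.norm_eq_abs]
            exact ContinuousLinearMap.le_opNorm _ _
        _ = (∑ i, ∑ j, ‖fderiv ℝ (fun y => A.gC e y (b i) (b j)) x‖) * ‖u‖ := by
            simp only [Finset.sum_mul]
        _ ≤ K * ‖u‖ := mul_le_mul_of_nonneg_right ((hD' x hxB).trans hKD) (norm_nonneg _)
    calc _ ≤ K * ‖u‖ * (‖v‖ * ‖w‖) := mul_le_mul_of_nonneg_right h2 (by positivity)
      _ = _ := by ring

theorem good [FiniteDimensional ℝ V] (A : AlmostKahler V M) {e : OpenPartialHomeomorph M V}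
    (he : e ∈ Charts V M) {x₀ : V} {r K : ℝ} (hs : ball x₀ (2 * r) ⊆ e.target)
    (h : ∀ x ∈ ball x₀ (2 * r), (∀ v, (K⁻¹ * ‖v‖) ^ 2 ≤ A.gC e x v v) ∧
        (∀ v, A.gC e x v v ≤ (K * ‖v‖) ^ 2) ∧
        ∀ u v w, |fderiv ℝ (fun y => A.gC e y v w) x u| ≤ K * ‖u‖ * ‖v‖ * ‖w‖)
    {q : M} (hq : q ∈ e.source) (hq2 : e q ∈ ball x₀ r) : A.GoodChart r K q (tr e (e q)) := by
  have hb : ∀ x ∈ ball (0 : V) r, x + e q ∈ ball x₀ (2 * r) := by
    intro x hx
    rw [mem_ball, dist_eq_norm] at hq2 ⊢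
    rw [mem_ball_zero_iff] at hx
    calc ‖x + e q - x₀‖ = ‖x + (e q - x₀)‖ := by rw [add_sub_assoc]
      _ ≤ ‖x‖ + ‖e q - x₀‖ := norm_add_le _ _
      _ < 2 * r := by linarith
  refine ⟨tr_mem he _, by rw [tr_source]; exact hq, by rw [tr_apply, sub_self], ?_, ?_, ?_, ?_⟩
  · intro x hx
    rw [tr_target]
    exact hs (hb x hx)
  · intro x hx v
    rw [gC_tr A he _ (hs (hb x hx))]
    exact (h _ (hb x hx)).1 v
  · intro x hx v
    rw [gC_tr A he _ (hs (hb x hx))]
    exact (h _ (hb x hx)).2.1 v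
  · intro x hx u v w
    have e1 : (fun y => A.gC (tr e (e q)) y v w) =ᶠ[𝓝 x] fun y => A.gC e (y + e q) v w := by
      filter_upwards [isOpen_ball.mem_nhds hx] with y hy
      exact gC_tr A he _ (hs (hb y hy)) v w
    rw [e1.fderiv_eq, fderiv_comp_add_right (f := fun y => A.gC e y v w)]
    exact (h _ (hb x hx)).2.2 u v w

theorem good_mono (A : AlmostKahler V M) {r r' K K' : ℝ} (hr : r' ≤ r) (hK : 1 ≤ K) (hKK : K ≤ K')
    {p : M} {e : OpenPartialHomeomorph M V} (h : A.GoodChart r K p e) : A.GoodChart r' K' p e := by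
  have hb : ball (0 : V) r' ⊆ ball 0 r := ball_subset_ball hr
  have hK0 : 0 < K := by linarith
  refine ⟨h.mem, h.mem_source, h.centre, hb.trans h.ball_subset, fun x hx v => ?_, fun x hx v => ?_,
    fun x hx u v w => ?_⟩
  · refine le_trans ?_ (h.lower x (hb hx) v)
    have h1 : K'⁻¹ ≤ K⁻¹ := inv_anti₀ hK0 hKK
    have h2 : 0 ≤ K'⁻¹ := (inv_pos.2 (hK0.trans_le hKK)).le
    exact pow_le_pow_left₀ (mul_nonneg h2 (norm_nonneg _))
      (mul_le_mul_of_nonneg_right h1 (norm_nonneg _)) 2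
  · refine (h.upper x (hb hx) v).trans ?_
    exact pow_le_pow_left₀ (by positivity) (mul_le_mul_of_nonneg_right hKK (norm_nonneg _)) 2
  · refine (h.deriv_le x (hb hx) u v w).trans ?_
    gcongr

end metric

end PCOMP

open PCOMP in
/-- **COMP.** -/
theorem t_COMP : S_COMP.{u, v} := by
  intro V _ _ _ M _ _ _ A hc
  have key : ∃ r K : ℝ, 0 < r ∧ 1 ≤ K ∧ ∀ p ∈ (univ : Set M),
      ∃ e : OpenPartialHomeomorph M V, A.GoodChart r K p e := by
    refine isCompact_univ.induction_on
      (p := fun s : Set M => ∃ r K : ℝ, 0 < r ∧ 1 ≤ K ∧ ∀ p ∈ s,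
        ∃ e : OpenPartialHomeomorph M V, A.GoodChart r K p e) ?_ ?_ ?_ ?_
    · exact ⟨1, 1, one_pos, le_refl _, fun p hp => hp.elim⟩
    · rintro s t hst ⟨r, K, hr, hK, h⟩
      exact ⟨r, K, hr, hK, fun p hp => h p (hst hp)⟩
    · rintro s t ⟨r, K, hr, hK, h⟩ ⟨r', K', hr', hK', h'⟩
      refine ⟨min r r', max K K', lt_min hr hr', hK.trans (le_max_left _ _), ?_⟩
      rintro p (hp | hp)
      · obtain ⟨e, he⟩ := h p hp
        exact ⟨e, good_mono A (min_le_left _ _) hK (le_max_left _ _) he⟩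
      · obtain ⟨e, he⟩ := h' p hp
        exact ⟨e, good_mono A (min_le_right _ _) hK' (le_max_right _ _) he⟩
    · intro p _
      have he : chartAt V p ∈ Charts V M := IsManifold.chart_mem_maximalAtlas p
      obtain ⟨r, K, hr, hK, hs, h⟩ := loc_bound A he (mem_chart_target V p)
      refine ⟨(chartAt V p).source ∩ (chartAt V p) ⁻¹' ball ((chartAt V p) p) r, ?_, r, K, hr, hK, ?_⟩
      · rw [nhdsWithin_univ]
        exact ((chartAt V p).isOpen_inter_preimage isOpen_ball).mem_nhds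
          ⟨mem_chart_source V p, mem_ball_self hr⟩
      · intro q hq
        exact ⟨_, good A he hs h hq.1 hq.2⟩
  obtain ⟨r, K, hr, hK, h⟩ := key
  exact ⟨r, K, hr, hK, fun p => h p (mem_univ p)⟩

end Pool.Agent.H823.HC
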