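import Mathlib
import Pool.Agent.H823.HC.StmV

/-!
# Project HC: paths in the submanifold stay in the sheet
-/

open scoped Topology ContDiff Manifold
open Set Metric Filter MeasureTheory

noncomputable section

namespace Pool.Agent.H823.HC

universe u v w

namespace PCONT

variable {V : Type u} [NormedAddCommGroup V] [InnerProductSpace ℝ V] [FiniteDimensional ℝ V]

/-- the derivative of a section is a right inverse of the projection -/
lemma proj_deriv {T : Submodule ℝ V} {f : T → V} {R : ℝ} (hf : ContDiffOn ℝ ∞ f (ball 0 R))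
    (hP : ∀ t ∈ ball (0:T) R, T.orthogonalProjectionOnto (f t) = t) {y : T}
    (hy : y ∈ ball (0:T) R) (w : T) :
    T.orthogonalProjectionOnto (fderiv ℝ f y w) = w := by
  have h1 : ContDiffAt ℝ ∞ f y := hf.contDiffAt (isOpen_ball.mem_nhds hy)
  have h2 : HasFDerivAt f (fderiv ℝ f y) y := (h1.differentiableAt (by simp)).hasFDerivAt
  have h3 : HasFDerivAt (fun t => T.orthogonalProjectionOnto (f t))
      ((T.orthogonalProjectionOnto : V →L[ℝ] T).comp (fderiv ℝ f y)) y :=
    (T.orthogonalProjectionOnto : V →L[ℝ] T).hasFDerivAt.comp y h2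
  have h4 : HasFDerivAt (fun t : T => T.orthogonalProjectionOnto (f t))
      (ContinuousLinearMap.id ℝ T) y := by
    refine (hasFDerivAt_id y).congr_of_eventuallyEq ?_
    filter_upwards [isOpen_ball.mem_nhds hy] with t ht
    exact hP t ht
  have h5 := h3.unique h4
  have := congrArg (fun L : T →L[ℝ] T => L w) h5
  simpa using this

/-- the range of the derivative consists of tangent vectors -/
lemma deriv_tan {T : Submodule ℝ V} {S : Set V} {f : T → V} {R : ℝ}
    (hf : ContDiffOn ℝ ∞ f (ball 0 R)) (hS : ∀ t ∈ ball (0:T) R, f t ∈ S) {y : T}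
    (hy : y ∈ ball (0:T) R) (w : T) : fderiv ℝ f y w ∈ tanV S (f y) := by
  have h1 : ContDiffAt ℝ ∞ f y := hf.contDiffAt (isOpen_ball.mem_nhds hy)
  have h2 : HasFDerivAt f (fderiv ℝ f y) y := (h1.differentiableAt (by simp)).hasFDerivAt
  have hc : ContDiff ℝ ∞ (fun s : ℝ => y + s • w) := contDiff_const.add (contDiff_id.smul contDiff_const)
  have h0 : (fun s : ℝ => y + s • w) 0 = y := by simp
  refine ⟨fun s => f (y + s • w), ?_, by simp, ?_, ?_⟩
  · refine ContDiffAt.comp (g := f) (f := fun s : ℝ => y + s • w) 0 ?_ hc.contDiffAt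
    rw [show y + (0:ℝ) • w = y by simp]
    exact h1
  · have h3 : Tendsto (fun s : ℝ => y + s • w) (𝓝 0) (𝓝 y) := by
      have := hc.continuous.tendsto 0
      rwa [show y + (0:ℝ) • w = y by simp] at this
    filter_upwards [h3 (isOpen_ball.mem_nhds hy)] with s hs
    exact hS _ hs
  · have h3 : HasDerivAt (fun s : ℝ => y + s • w) w 0 := by
      have := ((hasDerivAt_id (0:ℝ)).smul_const w).const_add y
      simpa using this
    have h4 : HasFDerivAt f (fderiv ℝ f y) ((fun s : ℝ => y + s • w) 0) := by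
      rw [h0]
      exact h2
    exact (h4.comp_hasDerivAt 0 h3).deriv

lemma tan_inj (hTANV : S_TANV.{u}) {n : ℕ} {T : Submodule ℝ V} {S : Set V} {f : T → V} {R : ℝ}
    (hS0 : ∀ x ∈ S, SliceAt n S x) (hn : Module.finrank ℝ T = n)
    (hf : ContDiffOn ℝ ∞ f (ball 0 R))
    (hS : ∀ t ∈ ball (0:T) R, f t ∈ S ∧ T.orthogonalProjectionOnto (f t) = t) {y : T}
    (hy : y ∈ ball (0:T) R) (v : V) (hv : v ∈ tanV S (f y))
    (h0 : T.orthogonalProjectionOnto v = 0) : v = 0 := by
  have hmem := (hS y hy).1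
  obtain ⟨Tx, hx1, hx2⟩ := hTANV V n S (f y) (hS0 _ hmem) hmem
  have hpr := proj_deriv hf (fun t ht => (hS t ht).2) hy
  set L : T →ₗ[ℝ] V := (fderiv ℝ f y : T →ₗ[ℝ] V) with hL
  have hLi : Function.Injective L := by
    intro a b hab
    have h1 : fderiv ℝ f y a = fderiv ℝ f y b := hab
    rw [← hpr a, ← hpr b, h1]
  have hle : LinearMap.range L ≤ Tx := by
    rintro _ ⟨w, rfl⟩
    have h1 : fderiv ℝ f y w ∈ tanV S (f y) := deriv_tan hf (fun t ht => (hS t ht).1) hy w
    rw [← hx2] at h1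
    exact h1
  have hfr : Module.finrank ℝ (LinearMap.range L) = Module.finrank ℝ Tx := by
    rw [LinearMap.finrank_range_of_inj hLi, hn, hx1]
  have heq := Submodule.eq_of_le_of_finrank_eq hle hfr
  have hv' : v ∈ LinearMap.range L := by
    rw [heq]
    show v ∈ (Tx : Set V)
    rw [hx2]
    exact hv
  obtain ⟨w, rfl⟩ := hv'
  have h1 : T.orthogonalProjectionOnto (fderiv ℝ f y w) = 0 := h0
  rw [hpr] at h1
  rw [h1, map_zero]

end PCONT

theorem t_CONT (hTANV : S_TANV.{u}) (hLOC : S_LOC.{u}) : S_CONT.{u} := by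
  intro V _ _ _ n S R T f hS0 hn hf _hf0 hS c a b hab hc hcS hcb t ht
  have : PreconnectedSpace (Icc a b) := isPreconnected_iff_preconnectedSpace.1 isPreconnected_Icc
  have hPn : ∀ x : V, ‖T.orthogonalProjectionOnto x‖ ≤ ‖x‖ :=
    fun x => Submodule.norm_orthogonalProjectionOnto_apply_le T x
  have hball : ∀ t ∈ Icc a b, T.orthogonalProjectionOnto (c t) ∈ ball (0:T) R := by
    intro t ht
    rw [mem_ball_zero_iff]
    exact (hPn _).trans_lt (hcS t ht).2
  set A : Set (Icc a b) := {t | c t = f (T.orthogonalProjectionOnto (c t))} with hA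
  have hc1 : Continuous fun t : Icc a b => c t := continuousOn_iff_continuous_domRestrict.1 hc
  have hc2 : Continuous fun t : Icc a b => T.orthogonalProjectionOnto (c t) :=
    T.orthogonalProjectionOnto.continuous.comp hc1
  have hc3 : Continuous fun t : Icc a b => f (T.orthogonalProjectionOnto (c t)) :=
    hf.continuousOn.comp_continuous hc2 fun t => hball t t.2
  have hclosed : IsClosed A := isClosed_eq hc1 hc3
  have hopen : IsOpen A := by
    rw [isOpen_iff_mem_nhds]
    intro t₀ h0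
    have h0' : c t₀ = f (T.orthogonalProjectionOnto (c t₀)) := h0
    have hb := hball t₀ t₀.2
    have htan : ∀ v ∈ tanV S (c t₀), T.orthogonalProjectionOnto v = 0 → v = 0 := by
      intro v hv hv0
      rw [h0'] at hv
      exact PCONT.tan_inj hTANV hS0 hn hf hS hb v hv hv0
    obtain ⟨δ, -, δ', hδ', g, -, -, -, hg⟩ := hLOC V n S (c t₀) T (hS0 _ (hcS t₀ t₀.2).1)
      (hcS t₀ t₀.2).1 hn htan
    have e1 : ∀ᶠ t : Icc a b in 𝓝 t₀, dist (c t) (c t₀) < δ' :=
      (hc1.tendsto t₀) (ball_mem_nhds _ hδ')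
    have e2 : ∀ᶠ t : Icc a b in 𝓝 t₀,
        dist (f (T.orthogonalProjectionOnto (c t))) (c t₀) < δ' := by
      have h1 := hc3.tendsto t₀
      rw [← h0'] at h1
      exact h1 (ball_mem_nhds _ hδ')
    filter_upwards [e1, e2] with t h1 h2
    have hbt := hball t t.2
    have h3 := (hg (c t) (hcS t t.2).1 h1).2
    have h4 := (hg _ (hS _ hbt).1 h2).2
    rw [(hS _ hbt).2] at h4
    show c t = f (T.orthogonalProjectionOnto (c t))
    rw [← h4]
    exact h3.symm
  have hne : A.Nonempty := by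
    refine ⟨⟨b, right_mem_Icc.2 hab⟩, ?_⟩
    show c b = f (T.orthogonalProjectionOnto (c b))
    rw [hcb, map_zero, _hf0]
  have huniv := IsClopen.eq_univ ⟨hclosed, hopen⟩ hne
  have : (⟨t, ht⟩ : Icc a b) ∈ A := by
    rw [huniv]
    trivial
  exact this

end Pool.Agent.H823.HC
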