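import Mathlib
import Pool.Agent.H823.HC.StmHP

/-!
# Project HC, task EXIT: exit time of rays from a disk
-/

set_option autoImplicit false

open scoped Topology ContDiff Manifold
open Set Metric Filter MeasureTheory

noncomputable section

namespace Pool.Agent.H823.HC

universe u v w

namespace PEXIT

theorem circ_re (s : ℝ) : (circ s).re = Real.cos s := by
  unfold circ
  exact Complex.exp_ofReal_mul_I_re s

theorem circ_im (s : ℝ) : (circ s).im = Real.sin s := by
  unfold circ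
  exact Complex.exp_ofReal_mul_I_im s

/-- The norm of `a circ θ₀ + t circ θ`. -/
theorem norm_sq (a t θ₀ θ : ℝ) : ‖(a : ℂ) * circ θ₀ + t * circ θ‖ ^ 2 =
    a ^ 2 + 2 * t * a * Real.cos (θ - θ₀) + t ^ 2 := by
  rw [← Complex.normSq_eq_norm_sq, Complex.normSq_apply]
  simp only [Complex.add_re, Complex.add_im, Complex.re_ofReal_mul, Complex.im_ofReal_mul, circ_re,
    circ_im]
  rw [Real.cos_sub]
  have h1 := Real.sin_sq_add_cos_sq θ₀
  have h2 := Real.sin_sq_add_cos_sq θ
  linear_combination a ^ 2 * h1 + t ^ 2 * h2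

end PEXIT

theorem t_EXIT : S_EXIT := by
  intro z z' s θ₀ θ has hz hθ
  set a : ℝ := ‖z' - z‖ with ha
  have ha0 : 0 ≤ a := norm_nonneg _
  set c : ℝ := Real.cos (θ - θ₀) with hc
  have hc1 : 1 / 2 ≤ c := by
    rw [hc, ← Real.cos_abs, ← Real.cos_pi_div_three]
    apply Real.cos_le_cos_of_nonneg_of_le_pi (abs_nonneg _) _ hθ
    linarith [Real.pi_pos]
  have hc2 : c ≤ 1 := Real.cos_le_one _
  have hn : ∀ t : ℝ, ‖z' + t * circ θ - z‖ ^ 2 = a ^ 2 + 2 * t * a * c + t ^ 2 := by
    intro t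
    rw [← PEXIT.norm_sq, ← hz]
    congr 2
    ring
  set d : ℝ := s ^ 2 - a ^ 2 + a ^ 2 * c ^ 2 with hd
  have hs0 : 0 < s := lt_of_le_of_lt ha0 has
  have hdpos : a ^ 2 * c ^ 2 < d := by
    rw [hd]
    nlinarith
  have hd0 : 0 ≤ d := le_trans (by positivity) hdpos.le
  set τ : ℝ := -(a * c) + √d with hτ
  have hsq : √d ^ 2 = d := Real.sq_sqrt hd0
  have hac : 0 ≤ a * c := mul_nonneg ha0 (by linarith)
  have hτpos : 0 < τ := by
    have h1 : a * c < √d := by
      apply Real.lt_sqrt_of_sq_lt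
      rw [mul_pow]
      exact hdpos
    linarith
  have hτle : τ ≤ 2 * (s - a) := by
    have h1 : √d ≤ 2 * (s - a) + a * c := by
      apply Real.sqrt_le_iff.2
      constructor
      · linarith
      · rw [hd]
        nlinarith [mul_nonneg (mul_nonneg (sub_nonneg.2 has.le) ha0) (sub_nonneg.2 hc1),
          sq_nonneg (s - a)]
    linarith
  have hroot : τ ^ 2 + 2 * τ * a * c + a ^ 2 = s ^ 2 := by
    have h1 : (τ + a * c) ^ 2 = d := by
      have h0 : τ + a * c = √d := by rw [hτ]; ring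
      rw [h0, hsq]
    rw [hd] at h1
    linear_combination h1
  refine ⟨τ, ⟨hτpos, hτle⟩, ?_, ?_⟩
  · have h1 := hn τ
    have h2 : ‖z' + τ * circ θ - z‖ ^ 2 = s ^ 2 := by rw [h1, ← hroot]; ring
    exact (pow_left_inj₀ (norm_nonneg _) hs0.le two_ne_zero).1 h2
  · intro t ht
    rw [mem_closedBall, dist_eq_norm]
    apply le_of_sq_le_sq _ hs0.le
    rw [hn t, ← hroot]
    have h1 : 0 ≤ t := ht.1
    have h2 : t ≤ τ := ht.2
    nlinarith [mul_nonneg hac (sub_nonneg.2 h2)]

end Pool.Agent.H823.HC
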