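import Mathlib
import Pool.Agent.H823.HC.StmHP

/-!
# Project HC, part HP: the half-plane theorem, final step
-/

open scoped Topology ContDiff Manifold
open Set Metric Filter MeasureTheory

noncomputable section

universe u v w

namespace Pool.Agent.H823.HC.PFIN

open Pool.Agent.H823.HC

theorem circ_re (s : ℝ) : (circ s).re = Real.cos s := Complex.exp_ofReal_mul_I_re s

theorem circ_im (s : ℝ) : (circ s).im = Real.sin s := Complex.exp_ofReal_mul_I_im s

theorem norm_circ (s : ℝ) : ‖circ s‖ = 1 := Complex.norm_exp_ofReal_mul_I s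

theorem re_pt (m t s : ℝ) : ((m : ℂ) + t * circ s).re = m + t * Real.cos s := by
  simp [circ_re]

theorem im_pt (m t s : ℝ) : ((m : ℂ) + t * circ s).im = t * Real.sin s := by
  simp [circ_im]

theorem contDiff_circ : ContDiff ℝ ∞ circ := by
  unfold circ
  exact (Complex.contDiff_exp (𝕜 := ℝ)).comp ((Complex.ofRealCLM.contDiff).mul contDiff_const)

theorem continuous_circ : Continuous circ := contDiff_circ.continuous

theorem hasDerivAt_circ (s : ℝ) : HasDerivAt circ (circ s * Complex.I) s := by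
  unfold circ
  have h1 : HasDerivAt (fun x : ℝ => (x : ℂ) * Complex.I) (1 * Complex.I) s :=
    (HasDerivAt.ofReal_comp (hasDerivAt_id s)).mul_const Complex.I
  have h2 := h1.cexp
  simpa using h2

theorem continuous_pt (m : ℝ) : Continuous fun x : ℝ × ℝ => (m : ℂ) + x.1 * circ x.2 :=
  continuous_const.add ((Complex.continuous_ofReal.comp continuous_fst).mul
    (continuous_circ.comp continuous_snd))

/-- Cauchy-Schwarz on an interval. -/
theorem sq_intervalIntegral_le {h : ℝ → ℝ} {a b : ℝ} (hab : a ≤ b) (hh : ContinuousOn h (Icc a b)) :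
    (∫ t in a..b, h t) ^ 2 ≤ (b - a) * ∫ t in a..b, h t ^ 2 := by
  rcases hab.eq_or_lt with rfl | hlt
  · simp
  have h1 : IntervalIntegrable h volume a b := hh.intervalIntegrable_of_Icc hab
  have h2 : IntervalIntegrable (fun t => h t ^ 2) volume a b :=
    (hh.pow 2).intervalIntegrable_of_Icc hab
  set c : ℝ := (∫ t in a..b, h t) / (b - a) with hc
  have hba : 0 < b - a := sub_pos.2 hlt
  have h3 : 0 ≤ ∫ t in a..b, (h t - c) ^ 2 :=
    intervalIntegral.integral_nonneg hab fun t _ => sq_nonneg _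
  have h4 : ∫ t in a..b, (h t - c) ^ 2 =
      (∫ t in a..b, h t ^ 2) - 2 * c * (∫ t in a..b, h t) + c ^ 2 * (b - a) := by
    have h5 : (fun t => (h t - c) ^ 2) = fun t => (h t ^ 2 - 2 * c * h t) + c ^ 2 := by
      funext t; ring
    rw [h5, intervalIntegral.integral_add (h2.sub (h1.const_mul _)) intervalIntegrable_const,
      intervalIntegral.integral_sub h2 (h1.const_mul _), intervalIntegral.integral_const_mul,
      intervalIntegral.integral_const, smul_eq_mul]
    ring
  have h6 : c * (b - a) = ∫ t in a..b, h t := div_mul_cancel₀ _ hba.ne'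
  rw [h4] at h3
  have h7 : 0 ≤ ((∫ t in a..b, h t ^ 2) - 2 * c * (∫ t in a..b, h t) + c ^ 2 * (b - a)) * (b - a) :=
    mul_nonneg h3 hba.le
  have h8 : ((∫ t in a..b, h t ^ 2) - 2 * c * (∫ t in a..b, h t) + c ^ 2 * (b - a)) * (b - a) =
      (b - a) * (∫ t in a..b, h t ^ 2) - 2 * (c * (b - a)) * (∫ t in a..b, h t) +
        (c * (b - a)) ^ 2 := by ring
  rw [h8, h6] at h7
  nlinarith

theorem measurableSet_UH : MeasurableSet UH := by
  have : UH = Complex.im ⁻¹' Ioi 0 := rfl
  rw [this]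
  exact Complex.measurable_im measurableSet_Ioi

theorem ae_im_ne_zero : ∀ᵐ z : ℂ, z.im ≠ 0 := by
  have h : (volume : Measure ℂ) (LinearMap.ker Complex.imLm : Submodule ℝ ℂ) = 0 := by
    refine Measure.addHaar_submodule _ _ ?_
    intro h
    have h1 : Complex.I ∈ (LinearMap.ker Complex.imLm : Submodule ℝ ℂ) := by
      rw [h]; trivial
    rw [LinearMap.mem_ker] at h1
    simp at h1
  rw [ae_iff]
  refine measure_mono_null ?_ h
  intro z hz
  simp only [mem_ofPred_eq, not_not] at hz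
  simpa using hz

theorem UH_subset_Dom : UH ⊆ Dom := fun _ hz => Or.inl hz

theorem Hc_subset_Dom {m ρ : ℝ} (h : m + ρ < 0) : Hc m ρ ⊆ Dom := by
  rintro z ⟨h1, h2⟩
  rcases h2.eq_or_lt with h3 | h3
  · right
    refine ⟨h3.symm, ?_⟩
    have h4 : |(z - m).re| ≤ ρ := (Complex.abs_re_le_norm _).trans h1
    rw [Complex.sub_re, Complex.ofReal_re] at h4
    have := (abs_le.1 h4).2
    linarith
  · exact Or.inl h3

theorem integral_Hc_le {φ : ℂ → ℝ} (hint : IntegrableOn (fun z => φ z ^ 2) UH) (m ρ : ℝ) :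
    ∫ z in Hc m ρ, φ z ^ 2 ≤ ∫ z in UH, φ z ^ 2 := by
  refine setIntegral_mono_set hint (Eventually.of_forall fun z => sq_nonneg _) ?_
  filter_upwards [ae_im_ne_zero] with z hz hz1
  exact lt_of_le_of_ne hz1.2 (Ne.symm hz)

/-- The situation with only what is needed here. -/
theorem arc {X : Type w} [MetricSpace X] {u : ℂ → X} {φ : ℂ → ℝ} {κ C₁ E : ℝ}
    (hHP : HP u φ κ C₁ E) {m r ε θ : ℝ} (hr : 0 < r) (hε : 0 < ε) (hεθ : ε ≤ θ)
    (hθ : θ < Real.pi) :
    dist (u (m + r * circ ε)) (u (m + r * circ θ)) ≤ ∫ t in ε..θ, φ (m + r * circ t) * r := by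
  have hγ : ContDiff ℝ ∞ fun t : ℝ => (m : ℂ) + r * circ t :=
    contDiff_const.add (contDiff_const.mul contDiff_circ)
  have h := hHP.len (fun t : ℝ => (m : ℂ) + r * circ t) hγ ε θ hεθ (by
    intro t ht
    left
    rw [im_pt]
    exact mul_pos hr (Real.sin_pos_of_pos_of_lt_pi (hε.trans_le ht.1) (ht.2.trans_lt hθ)))
  refine h.trans (le_of_eq ?_)
  refine intervalIntegral.integral_congr fun t _ => ?_
  have h2 : HasDerivAt (fun t : ℝ => (m : ℂ) + r * circ t) (r * (circ t * Complex.I)) t :=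
    ((hasDerivAt_circ t).const_mul (r : ℂ)).const_add (m : ℂ)
  rw [h2.deriv, norm_mul, norm_mul, norm_circ, Complex.norm_I, Complex.norm_real,
    Real.norm_of_nonneg hr.le]
  ring

theorem ray {X : Type w} [MetricSpace X] {u : ℂ → X} {φ : ℂ → ℝ} {κ C₁ E : ℝ}
    (hHP : HP u φ κ C₁ E) {m r θ : ℝ} (hm : m < 0) (hr : 0 ≤ r) (hθ0 : 0 < θ)
    (hθ : θ < Real.pi) :
    dist (u m) (u (m + r * circ θ)) ≤ ∫ t in (0:ℝ)..r, φ (m + t * circ θ) := by
  have hγ : ContDiff ℝ ∞ fun t : ℝ => (m : ℂ) + t * circ θ :=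
    contDiff_const.add ((Complex.ofRealCLM.contDiff).mul contDiff_const)
  have h := hHP.len (fun t : ℝ => (m : ℂ) + t * circ θ) hγ 0 r hr (by
    intro t ht
    rcases ht.1.eq_or_lt with h0 | h0
    · right
      rw [im_pt, re_pt, ← h0]
      simpa using hm
    · left
      rw [im_pt]
      exact mul_pos h0 (Real.sin_pos_of_pos_of_lt_pi hθ0 hθ))
  have h1 : (m : ℂ) + ((0:ℝ) : ℂ) * circ θ = (m : ℂ) := by simp
  rw [h1] at h
  refine h.trans (le_of_eq ?_)
  refine intervalIntegral.integral_congr fun t _ => ?_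
  have h2 : HasDerivAt (fun t : ℝ => (m : ℂ) + t * circ θ) (1 * circ θ) t :=
    ((HasDerivAt.ofReal_comp (hasDerivAt_id t)).mul_const (circ θ)).const_add (m : ℂ)
  rw [h2.deriv, norm_mul, norm_circ]
  simp

/-- A circle on which the energy is small. -/
theorem good_circle (hPOLAR : S_POLAR) {φ : ℂ → ℝ} {E : ℝ} (hcont : ContinuousOn φ Dom)
    (hint : IntegrableOn (fun z => φ z ^ 2) UH) (hE : ∫ z in UH, φ z ^ 2 ≤ E) (m : ℝ) {T : ℝ}
    (hT : 0 < T) :
    ∃ r ∈ Ioc (2 * T) (4 * T), ∫⁻ θ in Ioc 0 Real.pi,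
      ENNReal.ofReal (φ (m + r * circ θ) ^ 2 * r) ≤ ENNReal.ofReal (E / (2 * T)) := by
  classical
  set f : ℂ → ENNReal := UH.indicator (fun z => ENNReal.ofReal (φ z ^ 2)) with hf
  have hfm : Measurable f := by
    have h1 : ContinuousOn (fun z => ENNReal.ofReal (φ z ^ 2)) UH :=
      ENNReal.continuous_ofReal.comp_continuousOn ((hcont.mono UH_subset_Dom).pow 2)
    rw [hf, ← piecewise_eq_indicator]
    exact h1.measurable_piecewise continuousOn_const measurableSet_UH
  have hpol := hPOLAR f hfm m 0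
  have hlf : ∫⁻ z, f z ≤ ENNReal.ofReal E := by
    rw [hf, lintegral_indicator measurableSet_UH, ← ofReal_integral_eq_lintegral_ofReal hint
      (Eventually.of_forall fun z => sq_nonneg _)]
    exact ENNReal.ofReal_le_ofReal hE
  set g : ℝ → ENNReal := fun t => ∫⁻ θ in Ioc 0 (0 + 2 * Real.pi),
    f (m + t * circ θ) * ENNReal.ofReal t with hg
  have hgm : Measurable g := by
    have h1 : Measurable fun x : ℝ × ℝ => f (m + x.1 * circ x.2) * ENNReal.ofReal x.1 :=
      (hfm.comp (continuous_pt m).measurable).mul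
        (ENNReal.measurable_ofReal.comp measurable_fst)
    exact h1.lintegral_prod_right'
  have hgi : ∫⁻ t in Ioc (2 * T) (4 * T), g t ≤ ENNReal.ofReal E := by
    refine le_trans ?_ hlf
    rw [hpol]
    refine lintegral_mono_set fun t ht => ?_
    have := ht.1
    show (0:ℝ) < t
    linarith
  have hvol : volume (Ioc (2 * T) (4 * T)) = ENNReal.ofReal (2 * T) := by
    rw [Real.volume_Ioc]
    congr 1
    ring
  obtain ⟨r, hr, hr1⟩ := exists_le_setLAverage (μ := volume) (s := Ioc (2 * T) (4 * T)) (f := g)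
    (by rw [hvol]; exact (ENNReal.ofReal_pos.2 (by linarith)).ne')
    (by rw [hvol]; exact ENNReal.ofReal_ne_top) hgm.aemeasurable
  have hrpos : 0 < r := by linarith [hr.1]
  refine ⟨r, hr, ?_⟩
  have h1 : ∫⁻ θ in Ioc 0 Real.pi, ENNReal.ofReal (φ (m + r * circ θ) ^ 2 * r) ≤ g r := by
    have h2 : ∫⁻ θ in Ioc 0 Real.pi, ENNReal.ofReal (φ (m + r * circ θ) ^ 2 * r) =
        ∫⁻ θ in Ioo 0 Real.pi, ENNReal.ofReal (φ (m + r * circ θ) ^ 2 * r) :=
      setLIntegral_congr Ioo_ae_eq_Ioc.symm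
    rw [h2]
    have h3 : ∫⁻ θ in Ioo 0 Real.pi, ENNReal.ofReal (φ (m + r * circ θ) ^ 2 * r) =
        ∫⁻ θ in Ioo 0 Real.pi, f (m + r * circ θ) * ENNReal.ofReal r := by
      refine setLIntegral_congr_fun measurableSet_Ioo fun θ hθ => ?_
      have h4 : (m : ℂ) + r * circ θ ∈ UH := by
        show 0 < ((m : ℂ) + r * circ θ).im
        rw [im_pt]
        exact mul_pos hrpos (Real.sin_pos_of_pos_of_lt_pi hθ.1 hθ.2)
      simp only [hf]
      rw [indicator_of_mem h4, ENNReal.ofReal_mul (sq_nonneg _)]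
    rw [h3, hg]
    refine lintegral_mono_set fun θ hθ => ⟨hθ.1, ?_⟩
    linarith [hθ.2, Real.pi_pos]
  refine h1.trans (hr1.trans ?_)
  rw [setLAverage_eq, hvol, ENNReal.ofReal_div_of_pos (by linarith)]
  exact ENNReal.div_le_div_right hgi _

end Pool.Agent.H823.HC.PFIN

namespace Pool.Agent.H823.HC

open PFIN

theorem t_FIN (hPOLAR : S_POLAR) (hPOLH : S_POLH) (hSELECT : S_SELECT) (hBD : S_BD.{w}) :
    S_FIN.{w} := by
  intro X _ u φ κ C₁ E hκ hC hHP hE m hm
  obtain ⟨T, hT⟩ : ∃ T, T = -m / 2 := ⟨_, rfl⟩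
  have hT0 : 0 < T := by rw [hT]; linarith
  have hmT : m = -(2 * T) := by rw [hT]; ring
  have hpi := Real.pi_pos
  have hE0 : 0 ≤ E := le_trans (integral_nonneg fun z => sq_nonneg _) hHP.energy
  -- the set `D`
  set D : Set ℂ := (fun x : ℝ × ℝ => (m : ℂ) + x.1 * circ x.2) ''
    (Icc T (4 * T) ×ˢ Icc (Real.pi / 4) (3 * Real.pi / 4)) with hD
  have hDc : IsCompact D := (isCompact_Icc.prod isCompact_Icc).image (continuous_pt m)
  have hDD : D ⊆ Dom := by
    rintro _ ⟨⟨t, s⟩, ⟨h1, h2⟩, rfl⟩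
    left
    simp only at h1 h2 ⊢
    rw [im_pt]
    exact mul_pos (hT0.trans_le h1.1) (Real.sin_pos_of_pos_of_lt_pi (by linarith [h2.1])
      (by linarith [h2.2]))
  -- the first part
  obtain ⟨θ, hθ, hsel⟩ := hSELECT φ C₁ E hC hHP.cont hHP.nonneg hHP.int hHP.energy (m : ℂ) 0
    Real.pi T (Real.pi / 4) (3 * Real.pi / 4) D hT0 hpi (by linarith) (by linarith) (by linarith)
    (by linarith) (by
      intro t ht s hs
      rw [zero_add] at hs
      rcases (mul_nonneg ht.1 (Real.sin_nonneg_of_nonneg_of_le_pi hs.1 hs.2)).eq_or_lt with h | h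
      · right
        rw [im_pt, re_pt]
        refine ⟨h.symm, ?_⟩
        have : t * Real.cos s ≤ t := by
          have := mul_le_mul_of_nonneg_left (Real.cos_le_one s) ht.1
          linarith
        have := ht.2
        linarith
      · left
        rw [im_pt]
        exact h) (by
      intro t ht
      rw [zero_add]
      have hmt : m + t < 0 := by
        have := ht.2
        linarith
      have h1 : ∫ z in Hc m t, φ z ^ 2 = ∫ s in (0:ℝ)..t, ∫ θ in (0:ℝ)..Real.pi,
          φ (m + s * circ θ) ^ 2 * s :=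
        hPOLH (fun z => φ z ^ 2) m t ht.1 ((hHP.cont.mono (Hc_subset_Dom hmt)).pow 2)
          fun z => sq_nonneg _
      rw [← h1]
      by_cases h2 : ∫ θ in (0:ℝ)..Real.pi, φ (m + t * circ θ) * t ≤ κ / 4
      · exact hBD X u φ κ C₁ E hκ hC hHP hE m t ht.1 hmt h2
      · push Not at h2
        have h3 : E ≤ C₁ * (κ / 4) ^ 2 := hE.trans (min_le_left _ _)
        have h4 : (κ / 4) ^ 2 ≤ (∫ θ in (0:ℝ)..Real.pi, φ (m + t * circ θ) * t) ^ 2 := by
          gcongr
        have h5 : C₁ * (κ / 4) ^ 2 ≤ C₁ * (∫ θ in (0:ℝ)..Real.pi, φ (m + t * circ θ) * t) ^ 2 :=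
          mul_le_mul_of_nonneg_left h4 (by linarith)
        exact (((integral_Hc_le hHP.int m t).trans hHP.energy).trans h3).trans h5) hDc hDD
  have hθ0 : 0 < θ := by linarith [hθ.1]
  have hθπ : θ < Real.pi := by linarith [hθ.2]
  -- the ray
  have hcray : ∀ a b : ℝ, 0 ≤ a → a ≤ b →
      IntervalIntegrable (fun t : ℝ => φ (m + t * circ θ)) volume a b := by
    intro a b ha hab
    refine ContinuousOn.intervalIntegrable_of_Icc hab ?_
    refine hHP.cont.comp (f := fun t : ℝ => (m : ℂ) + t * circ θ)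
      ((continuous_const.add (Complex.continuous_ofReal.mul continuous_const)).continuousOn) ?_
    intro t ht
    rcases (ha.trans ht.1).eq_or_lt with h0 | h0
    · right
      rw [im_pt, re_pt, ← h0]
      simpa using hm
    · left
      rw [im_pt]
      exact mul_pos h0 (Real.sin_pos_of_pos_of_lt_pi hθ0 hθπ)
  have hind : ∫ t in T..(4 * T), D.indicator φ (m + t * circ θ) =
      ∫ t in T..(4 * T), φ (m + t * circ θ) := by
    refine intervalIntegral.integral_congr fun t ht => ?_
    rw [uIcc_of_le (by linarith)] at ht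
    have : (m : ℂ) + t * circ θ ∈ D := ⟨(t, θ), ⟨ht, hθ⟩, rfl⟩
    simp only [indicator_of_mem this]
  rw [hind, intervalIntegral.integral_add_adjacent_intervals (hcray 0 T le_rfl hT0.le)
    (hcray T (4 * T) hT0.le (by linarith))] at hsel
  -- the circle
  obtain ⟨r, hr, hrE⟩ := good_circle hPOLAR hHP.cont hHP.int hHP.energy m hT0
  have hr0 : 0 < r := by linarith [hr.1]
  have hray : dist (u m) (u (m + r * circ θ)) ≤ 20 * √C₁ * √E := by
    refine (ray hHP hm hr0.le hθ0 hθπ).trans (le_trans ?_ hsel)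
    rw [← intervalIntegral.integral_add_adjacent_intervals (hcray 0 r le_rfl hr0.le)
      (hcray r (4 * T) hr0.le hr.2)]
    have : 0 ≤ ∫ t in r..(4 * T), φ (m + t * circ θ) :=
      intervalIntegral.integral_nonneg hr.2 fun t _ => hHP.nonneg _
    linarith
  have harc : ∀ ε ∈ Ioo 0 θ, dist (u m) (u (m + r * circ ε)) ≤ 23 * √C₁ * √E := by
    intro ε hε
    have h1 := arc hHP (m := m) hr0 hε.1 hε.2.le hθπ
    have hc : ContinuousOn (fun t : ℝ => φ (m + r * circ t)) (Icc ε θ) := by
      refine hHP.cont.comp (f := fun t : ℝ => (m : ℂ) + r * circ t)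
        ((continuous_const.add (continuous_const.mul continuous_circ)).continuousOn) ?_
      intro t ht
      left
      rw [im_pt]
      exact mul_pos hr0 (Real.sin_pos_of_pos_of_lt_pi (hε.1.trans_le ht.1) (ht.2.trans_lt hθπ))
    have h2 : (∫ t in ε..θ, φ (m + r * circ t) * r) ^ 2 ≤
        (θ - ε) * ∫ t in ε..θ, (φ (m + r * circ t) * r) ^ 2 :=
      sq_intervalIntegral_le hε.2.le
        (hc.mul (continuousOn_const : ContinuousOn (fun _ : ℝ => r) (Icc ε θ)))
    have h3 : ∫ t in ε..θ, φ (m + r * circ t) ^ 2 * r ≤ E / (2 * T) := by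
      rw [intervalIntegral.integral_of_le hε.2.le]
      have h4 : ∫⁻ t in Ioc ε θ, ENNReal.ofReal (φ (m + r * circ t) ^ 2 * r) ≤
          ENNReal.ofReal (E / (2 * T)) := by
        refine le_trans (lintegral_mono_set ?_) hrE
        exact Ioc_subset_Ioc hε.1.le hθπ.le
      have h5 : IntegrableOn (fun t : ℝ => φ (m + r * circ t) ^ 2 * r) (Ioc ε θ) :=
        ((hc.pow 2).mul (continuousOn_const : ContinuousOn (fun _ : ℝ => r) (Icc ε θ))
          ).integrableOn_Icc.mono_set Ioc_subset_Icc_self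
      rw [← ofReal_integral_eq_lintegral_ofReal h5 (Eventually.of_forall fun t =>
        mul_nonneg (sq_nonneg _) hr0.le)] at h4
      exact (ENNReal.ofReal_le_ofReal_iff (by positivity)).1 h4
    have h6 : ∫ t in ε..θ, (φ (m + r * circ t) * r) ^ 2 =
        r * ∫ t in ε..θ, φ (m + r * circ t) ^ 2 * r := by
      rw [← intervalIntegral.integral_const_mul]
      refine intervalIntegral.integral_congr fun t _ => ?_
      show (φ (m + r * circ t) * r) ^ 2 = r * (φ (m + r * circ t) ^ 2 * r)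
      ring
    have h7 : 0 ≤ ∫ t in ε..θ, φ (m + r * circ t) ^ 2 * r :=
      intervalIntegral.integral_nonneg hε.2.le fun t _ => mul_nonneg (sq_nonneg _) hr0.le
    have h8 : (∫ t in ε..θ, φ (m + r * circ t) * r) ^ 2 ≤ 9 * E := by
      refine h2.trans ?_
      rw [h6]
      have h9 : (θ - ε) * (r * ∫ t in ε..θ, φ (m + r * circ t) ^ 2 * r) ≤
          Real.pi * (4 * T * (E / (2 * T))) := by
        refine mul_le_mul (by linarith [hε.1]) (mul_le_mul hr.2 h3 h7 (by linarith))
          (mul_nonneg hr0.le h7) hpi.le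
      refine h9.trans ?_
      have h10 : 4 * T * (E / (2 * T)) = 2 * E := by
        field_simp
        ring
      rw [h10]
      nlinarith [Real.pi_lt_four]
    have h11 : ∫ t in ε..θ, φ (m + r * circ t) * r ≤ 3 * √C₁ * √E := by
      have h12 : ∫ t in ε..θ, φ (m + r * circ t) * r ≤ √(9 * E) := Real.le_sqrt_of_sq_le h8
      have h13 : √(9 * E) = 3 * √E := by
        rw [Real.sqrt_mul (by norm_num), show (9:ℝ) = 3 ^ 2 by norm_num,
          Real.sqrt_sq (by norm_num)]
      have h14 : 1 ≤ √C₁ := Real.one_le_sqrt.2 hC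
      have h15 : 3 * √E ≤ 3 * √C₁ * √E := by
        have := Real.sqrt_nonneg E
        nlinarith
      linarith
    have h16 := dist_triangle_right (u m) (u (m + r * circ ε)) (u (m + r * circ θ))
    linarith
  -- the limit
  refine ⟨m + r, by linarith [hr.1], ?_⟩
  have hlim : Tendsto (fun ε : ℝ => u (m + r * circ ε)) (𝓝[Ioo 0 θ] 0) (𝓝 (u (m + r * circ 0))) := by
    have h1 : ContinuousWithinAt u UHc (m + r * circ 0) := by
      refine hHP.unif.continuousOn _ ?_
      show 0 ≤ ((m : ℂ) + r * circ 0).im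
      rw [im_pt]
      simp
    refine h1.tendsto.comp (tendsto_nhdsWithin_iff.2 ⟨?_, ?_⟩)
    · have h2 : Continuous fun ε : ℝ => (m : ℂ) + r * circ ε :=
        continuous_const.add (continuous_const.mul continuous_circ)
      exact (h2.tendsto 0).mono_left nhdsWithin_le_nhds
    · filter_upwards [self_mem_nhdsWithin] with ε hε
      show 0 ≤ ((m : ℂ) + r * circ ε).im
      rw [im_pt]
      exact mul_nonneg hr0.le (Real.sin_nonneg_of_nonneg_of_le_pi hε.1.le (hε.2.trans hθπ).le)
  have hne : (𝓝[Ioo 0 θ] (0:ℝ)).NeBot := by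
    rw [nhdsWithin_Ioo_eq_nhdsGT hθ0]
    infer_instance
  have h1 : circ 0 = 1 := by
    unfold circ
    simp
  have h2 : ((m + r : ℝ) : ℂ) = (m : ℂ) + r * circ 0 := by
    rw [h1]
    push_cast
    ring
  rw [h2]
  refine le_of_tendsto (tendsto_const_nhds.dist hlim) ?_
  filter_upwards [self_mem_nhdsWithin] with ε hε
  exact harc ε hε

end Pool.Agent.H823.HC
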