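import Mathlib
import Pool.Agent.H823.HC.StmV

open scoped Topology ContDiff Manifold
open Set Metric Filter MeasureTheory

noncomputable section

namespace Pool.Agent.H823.HC.PGREEND

universe u

lemma continuous_circ : Continuous circ := by
  unfold circ
  fun_prop

lemma norm_circ (s : ℝ) : ‖circ s‖ = 1 := by
  unfold circ
  rw [Complex.norm_exp_ofReal_mul_I]

lemma hasDerivAt_circ (s : ℝ) : HasDerivAt circ (Complex.I * circ s) s := by
  unfold circ
  have h1 : HasDerivAt (fun s : ℝ => (s : ℂ) * Complex.I) (1 * Complex.I) s :=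
    (Complex.ofRealCLM.hasDerivAt (x := s)).mul_const Complex.I
  have h2 := h1.cexp
  have h3 : Complex.exp ((s : ℂ) * Complex.I) * (1 * Complex.I) =
      Complex.I * Complex.exp ((s : ℂ) * Complex.I) := by ring
  rw [h3] at h2
  exact h2

/-- the polar coordinates -/
def P (c : ℂ) (x : ℝ × ℝ) : ℂ := c + (x.1 : ℂ) * circ x.2

lemma continuous_P (c : ℂ) : Continuous (P c) := by
  unfold P
  exact continuous_const.add ((Complex.continuous_ofReal.comp continuous_fst).mul
    (continuous_circ.comp continuous_snd))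

lemma hasFDerivAt_circ2 (x : ℝ × ℝ) : HasFDerivAt (fun y : ℝ × ℝ => circ y.2)
    ((ContinuousLinearMap.snd ℝ ℝ ℝ).smulRight (Complex.I * circ x.2)) x := by
  have h1 : HasFDerivAt (fun y : ℝ × ℝ => y.2) (ContinuousLinearMap.snd ℝ ℝ ℝ) x := hasFDerivAt_snd
  have h2 := (hasDerivAt_circ x.2).hasFDerivAt.comp x h1
  refine h2.congr_fderiv ?_
  ext <;> simp

lemma hasFDerivAt_fst2 (x : ℝ × ℝ) : HasFDerivAt (fun y : ℝ × ℝ => (y.1 : ℂ))
    (Complex.ofRealCLM.comp (ContinuousLinearMap.fst ℝ ℝ ℝ)) x := by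
  exact (Complex.ofRealCLM.comp (ContinuousLinearMap.fst ℝ ℝ ℝ)).hasFDerivAt

/-- the derivative of `P` -/
def P' (x : ℝ × ℝ) : ℝ × ℝ →L[ℝ] ℂ :=
  (x.1 : ℂ) • ((ContinuousLinearMap.snd ℝ ℝ ℝ).smulRight (Complex.I * circ x.2)) +
    (circ x.2) • (Complex.ofRealCLM.comp (ContinuousLinearMap.fst ℝ ℝ ℝ))

lemma hasFDerivAt_P (c : ℂ) (x : ℝ × ℝ) : HasFDerivAt (P c) (P' x) x := by
  unfold P P'
  exact ((hasFDerivAt_fst2 x).mul (hasFDerivAt_circ2 x)).const_add c

lemma P'_one_zero (x : ℝ × ℝ) : P' x (1, 0) = circ x.2 := by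
  simp [P']

lemma P'_zero_one (x : ℝ × ℝ) : P' x (0, 1) = x.1 * (Complex.I * circ x.2) := by
  simp [P']

/-- the tangential field -/
def Q' (x : ℝ × ℝ) : ℝ × ℝ →L[ℝ] ℂ :=
  (x.1 : ℂ) • ((ContinuousLinearMap.snd ℝ ℝ ℝ).smulRight
      (Complex.I * (Complex.I * circ x.2))) +
    (Complex.I * circ x.2) • (Complex.ofRealCLM.comp (ContinuousLinearMap.fst ℝ ℝ ℝ))

lemma hasFDerivAt_Q (x : ℝ × ℝ) :
    HasFDerivAt (fun y : ℝ × ℝ => (y.1 : ℂ) * (Complex.I * circ y.2)) (Q' x) x := by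
  unfold Q'
  have h1 := (hasFDerivAt_circ2 x).const_mul Complex.I
  have h2 := (hasFDerivAt_fst2 x).mul h1
  refine h2.congr_fderiv ?_
  congr 1
  congr 1
  ext <;> simp

lemma Q'_one_zero (x : ℝ × ℝ) : Q' x (1, 0) = Complex.I * circ x.2 := by
  simp [Q']

/-- an alternating form on `ℂ` -/
lemma alt_circ (β : ℂ →L[ℝ] ℂ →L[ℝ] ℝ) (t s : ℝ) :
    β (circ s) (t * (Complex.I * circ s)) - β (t * (Complex.I * circ s)) (circ s) =
      t * (β 1 Complex.I - β Complex.I 1) := by
  have e1 : circ s = (Real.cos s) • (1 : ℂ) + (Real.sin s) • Complex.I := by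
    unfold circ
    rw [Complex.exp_mul_I]
    simp [mul_comm]
  have e2 : (t : ℂ) * (Complex.I * circ s) =
      (t * Real.cos s) • Complex.I - (t * Real.sin s) • (1 : ℂ) := by
    rw [e1]
    simp only [Complex.real_smul, mul_one]
    push_cast
    have : Complex.I * Complex.I = -1 := Complex.I_mul_I
    linear_combination (t * Complex.sin s) * this
  rw [e2, e1]
  simp only [map_add, map_sub, map_smul, add_apply,
    sub_apply, smul_apply, smul_eq_mul]
  have h := Real.sin_sq_add_cos_sq s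
  linear_combination (t * (β 1 Complex.I - β Complex.I 1)) * h

/-- Stokes' theorem on a disk in polar coordinates for a continuous one-form. -/
lemma stokes_polar (c : ℂ) (ρ : ℝ) (hρ : 0 < ρ) (al : ℂ → ℂ →L[ℝ] ℝ)
    (A : ℂ → ℂ →L[ℝ] ℂ →L[ℝ] ℝ) (W : ℂ → ℝ) (hc : ContinuousOn al (closedBall c ρ))
    (hA : ∀ z ∈ ball c ρ, HasFDerivAt al (A z) z)
    (hW : Continuous W) (hWA : ∀ z ∈ ball c ρ, W z = A z 1 Complex.I - A z Complex.I 1) :
    (∫ t in (0:ℝ)..ρ, ∫ θ in (0:ℝ)..(2 * Real.pi), W (c + t * circ θ) * t) =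
      ∫ θ in (0:ℝ)..(2 * Real.pi), al (c + ρ * circ θ) (ρ * (Complex.I * circ θ)) := by
  have hpi : (0:ℝ) ≤ 2 * Real.pi := by positivity
  set f : ℝ × ℝ → ℝ := fun x => al (P c x) ((x.1 : ℂ) * (Complex.I * circ x.2)) with hf
  set g : ℝ × ℝ → ℝ := fun x => -(al (P c x) (circ x.2)) with hg
  set f' : ℝ × ℝ → ℝ × ℝ →L[ℝ] ℝ := fun x =>
    (al (P c x)).comp (Q' x) +
      ((A (P c x)).comp (P' x)).flip ((x.1 : ℂ) * (Complex.I * circ x.2)) with hf'
  set g' : ℝ × ℝ → ℝ × ℝ →L[ℝ] ℝ := fun x =>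
    -((al (P c x)).comp ((ContinuousLinearMap.snd ℝ ℝ ℝ).smulRight (Complex.I * circ x.2)) +
      ((A (P c x)).comp (P' x)).flip (circ x.2)) with hg'
  have hPball : ∀ x : ℝ × ℝ, x ∈ Ioo 0 ρ ×ˢ Ioo 0 (2 * Real.pi) → P c x ∈ ball c ρ := by
    rintro ⟨t, s⟩ ⟨⟨h1, h2⟩, -⟩
    simp only [P, mem_ball, dist_eq_norm]
    rw [add_sub_cancel_left, norm_mul, norm_circ, mul_one, Complex.norm_real, Real.norm_eq_abs,
      abs_of_pos h1]
    exact h2
  have hPcball : ∀ x : ℝ × ℝ, x ∈ Icc 0 ρ ×ˢ Icc 0 (2 * Real.pi) → P c x ∈ closedBall c ρ := by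
    rintro ⟨t, s⟩ ⟨⟨h1, h2⟩, -⟩
    simp only [P, mem_closedBall, dist_eq_norm]
    rw [add_sub_cancel_left, norm_mul, norm_circ, mul_one, Complex.norm_real, Real.norm_eq_abs,
      abs_of_nonneg h1]
    exact h2
  have halP : ContinuousOn (fun x => al (P c x)) (Icc 0 ρ ×ˢ Icc 0 (2 * Real.pi)) :=
    hc.comp (continuous_P c).continuousOn hPcball
  have hcirc2 : Continuous (fun x : ℝ × ℝ => circ x.2) := continuous_circ.comp continuous_snd
  have hQc : Continuous (fun x : ℝ × ℝ => (x.1 : ℂ) * (Complex.I * circ x.2)) :=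
    (Complex.continuous_ofReal.comp continuous_fst).mul (continuous_const.mul hcirc2)
  have hcf : ContinuousOn f (uIcc 0 ρ ×ˢ uIcc 0 (2 * Real.pi)) := by
    rw [uIcc_of_le hρ.le, uIcc_of_le hpi]
    exact halP.clm_apply hQc.continuousOn
  have hcg : ContinuousOn g (uIcc 0 ρ ×ˢ uIcc 0 (2 * Real.pi)) := by
    rw [uIcc_of_le hρ.le, uIcc_of_le hpi]
    exact (halP.clm_apply hcirc2.continuousOn).neg
  have hdf : ∀ x ∈ Ioo (min 0 ρ) (max 0 ρ) ×ˢ Ioo (min 0 (2 * Real.pi)) (max 0 (2 * Real.pi)) \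
      (∅ : Set (ℝ × ℝ)), HasFDerivAt f (f' x) x := by
    intro x hx
    rw [min_eq_left hρ.le, max_eq_right hρ.le, min_eq_left hpi, max_eq_right hpi, sdiff_empty] at hx
    have h1 := (hA _ (hPball x hx)).comp x (hasFDerivAt_P c x)
    exact h1.clm_apply (hasFDerivAt_Q x)
  have hdg : ∀ x ∈ Ioo (min 0 ρ) (max 0 ρ) ×ˢ Ioo (min 0 (2 * Real.pi)) (max 0 (2 * Real.pi)) \
      (∅ : Set (ℝ × ℝ)), HasFDerivAt g (g' x) x := by
    intro x hx
    rw [min_eq_left hρ.le, max_eq_right hρ.le, min_eq_left hpi, max_eq_right hpi, sdiff_empty] at hx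
    have h1 := (hA _ (hPball x hx)).comp x (hasFDerivAt_P c x)
    exact (h1.clm_apply (hasFDerivAt_circ2 x)).neg
  have hdiv : ∀ x ∈ Ioo 0 ρ ×ˢ Ioo 0 (2 * Real.pi), f' x (1, 0) + g' x (0, 1) =
      W (c + x.1 * circ x.2) * x.1 := by
    intro x hx
    have h1 := alt_circ (A (P c x)) x.1 x.2
    have h2 := hWA _ (hPball x hx)
    have h3 : f' x (1, 0) = al (P c x) (Complex.I * circ x.2) +
        A (P c x) (circ x.2) ((x.1 : ℂ) * (Complex.I * circ x.2)) := by
      simp only [hf', add_apply, ContinuousLinearMap.comp_apply,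
        ContinuousLinearMap.flip_apply, Q'_one_zero, P'_one_zero]
    have h4 : g' x (0, 1) = -(al (P c x) (Complex.I * circ x.2) +
        A (P c x) ((x.1 : ℂ) * (Complex.I * circ x.2)) (circ x.2)) := by
      simp only [hg', neg_apply, add_apply,
        ContinuousLinearMap.comp_apply, ContinuousLinearMap.flip_apply, P'_zero_one,
        ContinuousLinearMap.smulRight_apply, ContinuousLinearMap.coe_snd', one_smul]
    rw [h3, h4]
    have h5 : W (c + x.1 * circ x.2) = W (P c x) := rfl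
    rw [h5, h2]
    linear_combination h1
  have hFd : Continuous (fun x : ℝ × ℝ => W (c + x.1 * circ x.2) * x.1) :=
    (hW.comp (continuous_P c)).mul continuous_fst
  have hae : (Ioo 0 ρ ×ˢ Ioo 0 (2 * Real.pi) : Set (ℝ × ℝ)) =ᵐ[volume]
      (Icc 0 ρ ×ˢ Icc 0 (2 * Real.pi) : Set (ℝ × ℝ)) :=
    Measure.set_prod_ae_eq Ioo_ae_eq_Icc Ioo_ae_eq_Icc
  have hi : IntegrableOn (fun x => f' x (1, 0) + g' x (0, 1))
      (uIcc 0 ρ ×ˢ uIcc 0 (2 * Real.pi)) volume := by
    rw [uIcc_of_le hρ.le, uIcc_of_le hpi]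
    have h1 : IntegrableOn (fun x : ℝ × ℝ => W (c + x.1 * circ x.2) * x.1)
        (Icc 0 ρ ×ˢ Icc 0 (2 * Real.pi)) volume :=
      hFd.continuousOn.integrableOn_compact (isCompact_Icc.prod isCompact_Icc)
    have h2 : IntegrableOn (fun x : ℝ × ℝ => W (c + x.1 * circ x.2) * x.1)
        (Ioo 0 ρ ×ˢ Ioo 0 (2 * Real.pi)) volume :=
      h1.mono_set (prod_mono Ioo_subset_Icc_self Ioo_subset_Icc_self)
    have h3 : IntegrableOn (fun x => f' x (1, 0) + g' x (0, 1))
        (Ioo 0 ρ ×ˢ Ioo 0 (2 * Real.pi)) volume :=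
      h2.congr_fun (fun x hx => (hdiv x hx).symm) (measurableSet_Ioo.prod measurableSet_Ioo)
    exact h3.congr_set_ae hae.symm
  have hmain := integral2_divergence_prod_of_hasFDerivAt_off_countable f g f' g' 0 0 ρ
    (2 * Real.pi) ∅ countable_empty hcf hcg hdf hdg hi
  have hL : (∫ t in (0:ℝ)..ρ, ∫ θ in (0:ℝ)..(2 * Real.pi), W (c + t * circ θ) * t) =
      ∫ t in (0:ℝ)..ρ, ∫ θ in (0:ℝ)..(2 * Real.pi), f' (t, θ) (1, 0) + g' (t, θ) (0, 1) := by
    rw [intervalIntegral.integral_of_le hρ.le, intervalIntegral.integral_of_le hρ.le,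
      integral_Ioc_eq_integral_Ioo, integral_Ioc_eq_integral_Ioo]
    refine setIntegral_congr_fun measurableSet_Ioo (fun t ht => ?_)
    rw [intervalIntegral.integral_of_le hpi, intervalIntegral.integral_of_le hpi,
      integral_Ioc_eq_integral_Ioo, integral_Ioc_eq_integral_Ioo]
    refine setIntegral_congr_fun measurableSet_Ioo (fun s hs => ?_)
    exact (hdiv (t, s) ⟨ht, hs⟩).symm
  rw [hL, hmain]
  have hg2 : ∀ t : ℝ, g (t, 2 * Real.pi) = g (t, 0) := by
    intro t
    have : circ (2 * Real.pi) = circ 0 := by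
      unfold circ
      push_cast
      rw [Complex.exp_two_pi_mul_I]
      simp
    simp only [hg, P, this]
  have hf0 : ∀ s : ℝ, f (0, s) = 0 := by
    intro s
    simp only [hf, Complex.ofReal_zero, zero_mul, map_zero]
  simp only [hg2, hf0, sub_self, zero_add, intervalIntegral.integral_zero, sub_zero]
  rfl

/-- The integral over a disk in polar coordinates, for a continuous function. -/
lemma pold (hPOLD : S_POLD) (W : ℂ → ℝ) (hW : Continuous W) (c : ℂ) (ρ : ℝ) (hρ : 0 < ρ) :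
    ∫ z in closedBall c ρ, W z =
      ∫ t in (0:ℝ)..ρ, ∫ θ in (0:ℝ)..(2 * Real.pi), W (c + t * circ θ) * t := by
  have key : ∀ f : ℂ → ℝ, Continuous f → (∀ z, 0 ≤ f z) →
      ∫ z in closedBall c ρ, f z =
        ∫ t in (0:ℝ)..ρ, ∫ θ in (0:ℝ)..(2 * Real.pi), f (c + t * circ θ) * t := by
    intro f hf hf0
    have h := hPOLD f c ρ 0 hρ hf.continuousOn hf0
    rw [zero_add] at h
    exact h
  set Wp : ℂ → ℝ := fun z => max (W z) 0 with hWp
  set Wm : ℂ → ℝ := fun z => max (-(W z)) 0 with hWm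
  have cp : Continuous Wp := hW.max continuous_const
  have cm : Continuous Wm := hW.neg.max continuous_const
  have hd : ∀ z, W z = Wp z - Wm z := by
    intro z
    simp only [hWp, hWm]
    rcases le_total 0 (W z) with h | h
    · rw [max_eq_left h, max_eq_right (by linarith)]; ring
    · rw [max_eq_right h, max_eq_left (by linarith)]; ring
  have ip : IntegrableOn Wp (closedBall c ρ) volume :=
    cp.continuousOn.integrableOn_compact (isCompact_closedBall c ρ)
  have im : IntegrableOn Wm (closedBall c ρ) volume :=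
    cm.continuousOn.integrableOn_compact (isCompact_closedBall c ρ)
  have h1 : ∫ z in closedBall c ρ, W z =
      (∫ z in closedBall c ρ, Wp z) - ∫ z in closedBall c ρ, Wm z := by
    rw [← integral_sub ip im]
    exact integral_congr_ae (Eventually.of_forall hd)
  rw [h1, key Wp cp (fun z => le_max_right _ _), key Wm cm (fun z => le_max_right _ _)]
  have cP : ∀ f : ℂ → ℝ, Continuous f →
      Continuous (Function.uncurry (fun t θ : ℝ => f (c + t * circ θ) * t)) := by
    intro f hf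
    exact (hf.comp (continuous_P c)).mul continuous_fst
  rw [← intervalIntegral.integral_sub]
  · refine intervalIntegral.integral_congr (fun t _ => ?_)
    rw [← intervalIntegral.integral_sub]
    · refine intervalIntegral.integral_congr (fun s _ => ?_)
      rw [hd]
      ring
    · exact ((cP Wp cp).comp (Continuous.prodMk_right t)).intervalIntegrable _ _
    · exact ((cP Wm cm).comp (Continuous.prodMk_right t)).intervalIntegrable _ _
  · exact (intervalIntegral.continuous_parametric_intervalIntegral_of_continuous' (cP Wp cp)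
      0 (2 * Real.pi)).intervalIntegrable _ _
  · exact (intervalIntegral.continuous_parametric_intervalIntegral_of_continuous' (cP Wm cm)
      0 (2 * Real.pi)).intervalIntegrable _ _

end Pool.Agent.H823.HC.PGREEND

namespace Pool.Agent.H823.HC

universe u v w

open PGREEND in
theorem t_GREEND (hPOLD : S_POLD) : S_GREEND.{u} := by
  intro V _ _ _ R ρ c lam v hR hρ hlam hv hvb
  set D : Set ℂ := closedBall c ρ with hD
  have hDu : UniqueDiffOn ℝ D := by
    refine uniqueDiffOn_convex (convex_closedBall c ρ) ?_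
    rw [interior_closedBall c hρ.ne']
    exact nonempty_ball.2 hρ
  have hv'c : ContinuousOn (fderivWithin ℝ v D) D :=
    hv.continuousOn_fderivWithin hDu (by simp)
  have hvc : ContinuousOn v D := hv.continuousOn
  have hlc : ContinuousOn lam (ball 0 R) := hlam.continuousOn
  have hlc' : ContinuousOn (fderiv ℝ lam) (ball 0 R) :=
    hlam.continuousOn_fderiv_of_isOpen isOpen_ball le_rfl
  have hlv : ContinuousOn (fun z => lam (v z)) D := hlc.comp hvc hvb
  have hlv' : ContinuousOn (fun z => fderiv ℝ lam (v z)) D := hlc'.comp hvc hvb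
  set W0 : ℂ → ℝ := fun z => fderiv ℝ lam (v z) (fderivWithin ℝ v D z 1)
      (fderivWithin ℝ v D z Complex.I) -
    fderiv ℝ lam (v z) (fderivWithin ℝ v D z Complex.I)
      (fderivWithin ℝ v D z 1) with hW0
  have c1 : ContinuousOn (fun z => fderivWithin ℝ v D z 1) D := hv'c.clm_apply continuousOn_const
  have cI : ContinuousOn (fun z => fderivWithin ℝ v D z Complex.I) D :=
    hv'c.clm_apply continuousOn_const
  have hW0c : ContinuousOn W0 D :=
    ((hlv'.clm_apply c1).clm_apply cI).sub ((hlv'.clm_apply cI).clm_apply c1)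
  obtain ⟨Wt, hWt⟩ := ContinuousMap.exists_restrict_eq (s := D) isClosed_closedBall
    (⟨fun z : D => W0 z, continuousOn_iff_continuous_domRestrict.1 hW0c⟩ : C(D, ℝ))
  have hWt' : ∀ z ∈ D, Wt z = W0 z := by
    intro z hz
    exact DFunLike.congr_fun hWt ⟨z, hz⟩
  have hint : ∫ z in D, W0 z = ∫ z in D, Wt z :=
    setIntegral_congr_fun measurableSet_closedBall (fun z hz => (hWt' z hz).symm)
  change ∫ z in D, W0 z = _
  rw [hint, pold hPOLD Wt Wt.continuous c ρ hρ]
  set al : ℂ → ℂ →L[ℝ] ℝ := fun z => (lam (v z)).comp (fderivWithin ℝ v D z) with hal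
  have halc : ContinuousOn al D := hlv.clm_comp hv'c
  set A : ℂ → ℂ →L[ℝ] ℂ →L[ℝ] ℝ := fderiv ℝ al with hA
  have hev : ∀ z ∈ ball c ρ, fderivWithin ℝ v D =ᶠ[𝓝 z] fderiv ℝ v := by
    intro z hz
    filter_upwards [isOpen_ball.mem_nhds hz] with y hy
    exact fderivWithin_of_mem_nhds (mem_of_superset (isOpen_ball.mem_nhds hy) ball_subset_closedBall)
  have hAd : ∀ z ∈ ball c ρ, HasFDerivAt al (A z) z ∧
      Wt z = A z 1 Complex.I - A z Complex.I 1 := by
    intro z hz
    have hzD : z ∈ D := ball_subset_closedBall hz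
    have hDn : D ∈ 𝓝 z := mem_of_superset (isOpen_ball.mem_nhds hz) ball_subset_closedBall
    have hva : ContDiffAt ℝ ∞ v z := hv.contDiffAt hDn
    have hvd : HasFDerivAt v (fderiv ℝ v z) z := (hva.differentiableAt (by simp)).hasFDerivAt
    have hvz : v z ∈ ball (0:V) R := hvb z hzD
    have hla : HasFDerivAt lam (fderiv ℝ lam (v z)) (v z) :=
      ((hlam.contDiffAt (isOpen_ball.mem_nhds hvz)).differentiableAt (by simp)).hasFDerivAt
    have hva' : ContDiffAt ℝ 1 (fderiv ℝ v) z := hva.fderiv_right (by norm_cast)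
    have hv2 : HasFDerivAt (fderiv ℝ v) (fderiv ℝ (fderiv ℝ v) z) z :=
      (hva'.differentiableAt (by simp)).hasFDerivAt
    have hv2' : HasFDerivAt (fderivWithin ℝ v D) (fderiv ℝ (fderiv ℝ v) z) z :=
      hv2.congr_of_eventuallyEq (hev z hz)
    have hlv2 : HasFDerivAt (fun y => lam (v y)) ((fderiv ℝ lam (v z)).comp (fderiv ℝ v z)) z :=
      hla.comp z hvd
    have h := hlv2.clm_comp hv2'
    have hAz : A z = _ := h.fderiv
    refine ⟨h.differentiableAt.hasFDerivAt, ?_⟩
    have hsymm : fderiv ℝ (fderiv ℝ v) z 1 Complex.I = fderiv ℝ (fderiv ℝ v) z Complex.I 1 := by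
      have h2 : minSmoothness ℝ 2 ≤ (∞ : WithTop ℕ∞) := by
        rw [minSmoothness_of_isRCLikeNormedField]
        exact WithTop.coe_le_coe.2 (le_top : (2 : ℕ∞) ≤ ⊤)
      exact (hva.isSymmSndFDerivAt h2).eq 1 Complex.I
    have hvw : fderivWithin ℝ v D z = fderiv ℝ v z := (hev z hz).self_of_nhds
    rw [hWt' z hzD, hAz]
    simp only [hW0, hvw, add_apply, ContinuousLinearMap.comp_apply,
      ContinuousLinearMap.compL_apply, ContinuousLinearMap.flip_apply, hsymm]
    ring
  exact stokes_polar c ρ hρ al A Wt halc (fun z hz => (hAd z hz).1) Wt.continuous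
    (fun z hz => (hAd z hz).2)

end Pool.Agent.H823.HC

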