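import Mathlib
import Pool.Agent.H823.HC.StmM
import Pool.Graph.R_seed8.Helper186.Hamiltonian

/-!
# HAMF: the finite-dimensional family of small Hamiltonian diffeomorphisms
-/

open scoped Topology ContDiff Manifold
open Set Metric Filter MeasureTheory Bundle

noncomputable section

namespace Pool.Agent.H823.HC

universe u v w

namespace PHAMF

open Pool.Agent.Helper186

set_option linter.unusedSectionVars false

section

variable {V : Type u} [NormedAddCommGroup V] [InnerProductSpace ℝ V]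
  [FiniteDimensional ℝ V] {M : Type v} [MetricSpace M] [ChartedSpace V M]
  [IsManifold 𝓘(ℝ, V) ∞ M] (A : AlmostKahler V M)

/-- the coordinate expression of `ω` as a bilinear map -/
def omB (e : OpenPartialHomeomorph M V) (y : V) : V →L[ℝ] V →L[ℝ] ℝ :=
  ContinuousLinearMap.bilinearComp (show V →L[ℝ] V →L[ℝ] ℝ from A.om (e.symm y))
    (show V →L[ℝ] V from mfderiv 𝓘(ℝ, V) 𝓘(ℝ, V) e.symm y)
    (show V →L[ℝ] V from mfderiv 𝓘(ℝ, V) 𝓘(ℝ, V) e.symm y)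

theorem omB_apply (e : OpenPartialHomeomorph M V) (y v w : V) :
    omB A e y v w = A.om (e.symm y) (frame e y v) (frame e y w) := rfl

theorem contDiffOn_omB {e : OpenPartialHomeomorph M V} (he : e ∈ Charts V M) :
    ContDiffOn ℝ ∞ (omB A e) e.target := by
  rw [contDiffOn_clm_apply]
  intro v
  rw [contDiffOn_clm_apply]
  intro w
  exact A.smooth_om e he v w

theorem trans_om {x : M} {y : M} (h : x = y) (a b : V) :
    A.om x (show TangentSpace 𝓘(ℝ, V) x from a) (show TangentSpace 𝓘(ℝ, V) x from b) =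
      A.om y (show TangentSpace 𝓘(ℝ, V) y from a) (show TangentSpace 𝓘(ℝ, V) y from b) := by
  subst h
  rfl

set_option backward.isDefEq.respectTransparency false in
/-- the frame of the chart at `x₀` is the inverse of the trivialization -/
theorem frame_coord {x₀ x : M} (hx : x ∈ (chartAt V x₀).source) (u : TangentSpace 𝓘(ℝ, V) x) :
    (mfderiv 𝓘(ℝ, V) 𝓘(ℝ, V) (chartAt V x₀).symm (chartAt V x₀ x) : V →L[ℝ] V)
      ((trivializationAt V (TangentSpace 𝓘(ℝ, V)) x₀)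
        (⟨x, u⟩ : TangentBundle 𝓘(ℝ, V) M)).2 = (u : V) := by
  have : IsManifold 𝓘(ℝ, V) 1 M := IsManifold.of_le (n := ∞) (by simp)
  have h1 := TangentBundle.symmL_trivializationAt (I := 𝓘(ℝ, V)) (𝕜 := ℝ) hx
  have h2 : mfderivWithin 𝓘(ℝ, V) 𝓘(ℝ, V) (extChartAt 𝓘(ℝ, V) x₀).symm (range 𝓘(ℝ, V))
      (extChartAt 𝓘(ℝ, V) x₀ x) =
      mfderiv 𝓘(ℝ, V) 𝓘(ℝ, V) (chartAt V x₀).symm (chartAt V x₀ x) := by
    simp only [modelWithCornersSelf_coe, range_id, mfderivWithin_univ]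
    rfl
  have hb : x ∈ (trivializationAt V (TangentSpace 𝓘(ℝ, V)) x₀).baseSet := hx
  have h3 := (trivializationAt V (TangentSpace 𝓘(ℝ, V)) x₀).symmL_continuousLinearMapAt
    (R := ℝ) hb u
  rw [← h2, ← h1]
  rw [Trivialization.continuousLinearMapAt_apply,
      Trivialization.coe_linearMapAt_of_mem (R := ℝ) _ hb] at h3
  exact h3

/-- `ω` is smooth, tested on smooth sections along a map. -/
theorem smoothBilin_om {E' : Type*} [NormedAddCommGroup E'] [NormedSpace ℝ E']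
    {H' : Type*} [TopologicalSpace H'] {J : ModelWithCorners ℝ E' H'}
    {P : Type*} [TopologicalSpace P] [ChartedSpace H' P] {f : P → M} {p₀ : P}
    (hf : ContMDiffAt J 𝓘(ℝ, V) ∞ f p₀) :
    SmoothBilinAt (I := 𝓘(ℝ, V)) J f (fun p => A.om (f p)) p₀ := by
  intro u v hu hv
  have he : chartAt V (f p₀) ∈ Charts V M := IsManifold.chart_mem_maximalAtlas (f p₀)
  have ha := contMDiffAt_coord hu
  have hb := contMDiffAt_coord hv
  have hB : ContMDiffAt J 𝓘(ℝ, V →L[ℝ] V →L[ℝ] ℝ) ∞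
      (fun p => omB A (chartAt V (f p₀)) (chartAt V (f p₀) (f p))) p₀ := by
    have h1 : ContDiffAt ℝ ∞ (omB A (chartAt V (f p₀))) (chartAt V (f p₀) (f p₀)) :=
      (contDiffOn_omB A he).contDiffAt ((chartAt V (f p₀)).open_target.mem_nhds
        ((chartAt V (f p₀)).map_source (mem_chart_source V _)))
    have h2 : ContMDiffAt 𝓘(ℝ, V) 𝓘(ℝ, V) ∞ (chartAt V (f p₀)) (f p₀) :=
      contMDiffAt_of_mem_maximalAtlas he (mem_chart_source V _)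
    exact ContMDiffAt.comp (g := omB A (chartAt V (f p₀)))
      (f := fun p => chartAt V (f p₀) (f p)) p₀ h1.contMDiffAt (h2.comp p₀ hf)
  refine ((hB.clm_apply ha).clm_apply hb).congr_of_eventuallyEq ?_
  have h3 : ∀ᶠ p in 𝓝 p₀, f p ∈ (chartAt V (f p₀)).source :=
    hf.continuousAt.preimage_mem_nhds
      ((chartAt V (f p₀)).open_source.mem_nhds (mem_chart_source V _))
  filter_upwards [h3] with p hp
  have e1 := (chartAt V (f p₀)).left_inv hp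
  have e2 := trans_om A e1.symm (u p) (v p)
  have e3 := frame_coord hp (u p)
  have e4 := frame_coord hp (v p)
  refine e2.trans ?_
  rw [omB_apply]
  unfold frame
  refine congrArg₂ (fun a b : V => A.om ((chartAt V (f p₀)).symm (chartAt V (f p₀) (f p)))
    (show TangentSpace 𝓘(ℝ, V) ((chartAt V (f p₀)).symm (chartAt V (f p₀) (f p))) from a)
    (show TangentSpace 𝓘(ℝ, V) ((chartAt V (f p₀)).symm (chartAt V (f p₀) (f p))) from b)) ?_ ?_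
  · exact e3.symm
  · exact e4.symm

theorem om_nondeg (x : M) (u : TangentSpace 𝓘(ℝ, V) x) (h : ∀ v, A.om x u v = 0) : u = 0 := by
  by_contra hu
  exact (A.pos x u hu).ne' (h _)

theorem om_anti (x : M) (u v : TangentSpace 𝓘(ℝ, V) x) : A.om x u v = - A.om x v u := by
  have h := A.alt x (u + v)
  rw [map_add, map_add, add_apply, add_apply, A.alt, A.alt] at h
  linarith

/-- The Hamiltonian vector field of a function. -/
theorem exists_X (h : M → ℝ) (x : M) : ∃ X : TangentSpace 𝓘(ℝ, V) x,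
    ∀ v, A.om x X v = (show ℝ from mfderiv 𝓘(ℝ, V) 𝓘(ℝ, ℝ) h x v) :=
  exists_sharp (I := 𝓘(ℝ, V)) (A.om x) (om_nondeg A x)
    (show TangentSpace 𝓘(ℝ, V) x →L[ℝ] ℝ from mfderiv 𝓘(ℝ, V) 𝓘(ℝ, ℝ) h x)

/-- The Hamiltonian vector field of a function. -/
def Xh (h : M → ℝ) (x : M) : TangentSpace 𝓘(ℝ, V) x := (exists_X A h x).choose

theorem Xh_spec (h : M → ℝ) (x : M) (v : TangentSpace 𝓘(ℝ, V) x) :
    A.om x (Xh A h x) v = (show ℝ from mfderiv 𝓘(ℝ, V) 𝓘(ℝ, ℝ) h x v) :=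
  (exists_X A h x).choose_spec v

theorem Xh_zero {h : M → ℝ} {x : M} (hx : mfderiv 𝓘(ℝ, V) 𝓘(ℝ, ℝ) h x = 0) : Xh A h x = 0 := by
  apply om_nondeg A x
  intro v
  rw [Xh_spec, hx]
  rfl

/-- The pairing of the differential of a smooth function with a section along a map. -/
theorem contMDiffAt_pair {E' : Type*} [NormedAddCommGroup E'] [NormedSpace ℝ E']
    {H' : Type*} [TopologicalSpace H'] {J : ModelWithCorners ℝ E' H'}
    {P : Type*} [TopologicalSpace P] [ChartedSpace H' P] {f : P → M} {p₀ : P}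
    {h : M → ℝ} (hh : ContMDiff 𝓘(ℝ, V) 𝓘(ℝ, ℝ) ∞ h) {v : (p : P) → TangentSpace 𝓘(ℝ, V) (f p)}
    (hv : ContMDiffAt J 𝓘(ℝ, V).tangent ∞
      (fun p => (⟨f p, v p⟩ : TangentBundle 𝓘(ℝ, V) M)) p₀) :
    ContMDiffAt J 𝓘(ℝ, ℝ) ∞
      (fun p => (show ℝ from mfderiv 𝓘(ℝ, V) 𝓘(ℝ, ℝ) h (f p) (v p))) p₀ := by
  have h1 : ContMDiff 𝓘(ℝ, V).tangent 𝓘(ℝ, ℝ).tangent ∞
      (tangentMap 𝓘(ℝ, V) 𝓘(ℝ, ℝ) h) := hh.contMDiff_tangentMap (by simp)
  have h2 := (h1 _).comp p₀ hv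
  have h3 : ContMDiff 𝓘(ℝ, ℝ).tangent 𝓘(ℝ, ℝ) ∞
      (fun v : TangentBundle 𝓘(ℝ, ℝ) ℝ => (show ℝ from v.2)) :=
    contMDiff_snd_tangentBundle_modelSpace ℝ 𝓘(ℝ, ℝ)
  exact (h3 _).comp p₀ h2

/-! ### The family of vector fields -/

variable {N : ℕ}

/-- The vertical field `χ(s) ∑ s_j X_{h_j}`. -/
def fld (h : Fin N → M → ℝ) (χ : EuclideanSpace ℝ (Fin N) → ℝ) (s : EuclideanSpace ℝ (Fin N))
    (x : M) : TangentSpace 𝓘(ℝ, V) x := ∑ j, (χ s * s j) • Xh A (h j) x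

theorem om_fld (h : Fin N → M → ℝ) (χ : EuclideanSpace ℝ (Fin N) → ℝ)
    (s : EuclideanSpace ℝ (Fin N)) (x : M) (v : TangentSpace 𝓘(ℝ, V) x) :
    A.om x (fld A h χ s x) v =
      ∑ j, (χ s * s j) * (show ℝ from mfderiv 𝓘(ℝ, V) 𝓘(ℝ, ℝ) (h j) x v) := by
  unfold fld
  rw [map_sum, sum_apply]
  refine Finset.sum_congr rfl fun j _ => ?_
  rw [map_smul, smul_apply, smul_eq_mul, Xh_spec]

theorem contMDiff_fld {h : Fin N → M → ℝ} {χ : EuclideanSpace ℝ (Fin N) → ℝ}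
    (hh : ∀ j, ContMDiff 𝓘(ℝ, V) 𝓘(ℝ, ℝ) ∞ (h j)) (hχ : ContDiff ℝ ∞ χ) :
    ContMDiff (𝓘(ℝ, EuclideanSpace ℝ (Fin N)).prod 𝓘(ℝ, V)) 𝓘(ℝ, V).tangent ∞
      (fun p : EuclideanSpace ℝ (Fin N) × M =>
        (⟨p.2, fld A h χ p.1 p.2⟩ : TangentBundle 𝓘(ℝ, V) M)) := by
  intro p₀
  refine contMDiffAt_of_pairing (f := fun p : EuclideanSpace ℝ (Fin N) × M => p.2)
    contMDiffAt_snd (smoothBilin_om A contMDiffAt_snd) (om_nondeg A p₀.2) ?_
  intro v hv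
  have h1 : (fun p : EuclideanSpace ℝ (Fin N) × M => A.om p.2 (fld A h χ p.1 p.2) (v p)) =
      fun p => ∑ j, (χ p.1 * p.1 j) *
        (show ℝ from mfderiv 𝓘(ℝ, V) 𝓘(ℝ, ℝ) (h j) p.2 (v p)) := by
    ext p
    exact om_fld A h χ p.1 p.2 (v p)
  rw [h1]
  refine contMDiffAt_finsetSum fun j _ => ?_
  refine ContMDiffAt.mul ?_ (contMDiffAt_pair (hh j) hv)
  have h2 : ContDiff ℝ ∞ (fun s : EuclideanSpace ℝ (Fin N) => χ s * s j) := by fun_prop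
  exact ContMDiffAt.comp p₀ h2.contMDiff.contMDiffAt contMDiffAt_fst

/-- The vector field on the product. -/
def Zf (h : Fin N → M → ℝ) (χ : EuclideanSpace ℝ (Fin N) → ℝ)
    (p : EuclideanSpace ℝ (Fin N) × M) :
    TangentSpace (𝓘(ℝ, EuclideanSpace ℝ (Fin N)).prod 𝓘(ℝ, V)) p :=
  ((0 : EuclideanSpace ℝ (Fin N)), fld A h χ p.1 p.2)

theorem contMDiff_Zf {h : Fin N → M → ℝ} {χ : EuclideanSpace ℝ (Fin N) → ℝ}
    (hh : ∀ j, ContMDiff 𝓘(ℝ, V) 𝓘(ℝ, ℝ) ∞ (h j)) (hχ : ContDiff ℝ ∞ χ) :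
    ContMDiff (𝓘(ℝ, EuclideanSpace ℝ (Fin N)).prod 𝓘(ℝ, V))
      (𝓘(ℝ, EuclideanSpace ℝ (Fin N)).prod 𝓘(ℝ, V)).tangent ∞
      (fun p : EuclideanSpace ℝ (Fin N) × M => (⟨p, Zf A h χ p⟩ :
        TangentBundle (𝓘(ℝ, EuclideanSpace ℝ (Fin N)).prod 𝓘(ℝ, V))
          (EuclideanSpace ℝ (Fin N) × M))) := by
  have h1 : ContMDiff (𝓘(ℝ, EuclideanSpace ℝ (Fin N)).prod 𝓘(ℝ, V))
      𝓘(ℝ, EuclideanSpace ℝ (Fin N)).tangent ∞
      (fun p : EuclideanSpace ℝ (Fin N) × M => (⟨p.1, (0 : EuclideanSpace ℝ (Fin N))⟩ :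
        TangentBundle 𝓘(ℝ, EuclideanSpace ℝ (Fin N)) (EuclideanSpace ℝ (Fin N)))) := by
    have h2 : ContMDiff 𝓘(ℝ, EuclideanSpace ℝ (Fin N)) 𝓘(ℝ, EuclideanSpace ℝ (Fin N)).tangent ∞
        (fun s : EuclideanSpace ℝ (Fin N) => (⟨s, (0 : EuclideanSpace ℝ (Fin N))⟩ :
          TangentBundle 𝓘(ℝ, EuclideanSpace ℝ (Fin N)) (EuclideanSpace ℝ (Fin N)))) :=
      contMDiff_vectorSpace_iff_contDiff.2 contDiff_const
    exact h2.comp contMDiff_fst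
  exact (contMDiff_equivTangentBundleProd_symm (I := 𝓘(ℝ, EuclideanSpace ℝ (Fin N)))
    (M := EuclideanSpace ℝ (Fin N)) (I' := 𝓘(ℝ, V)) (M' := M)).comp
    (h1.prodMk (contMDiff_fld A hh hχ))

theorem fld_eq_zero {h : Fin N → M → ℝ} {χ : EuclideanSpace ℝ (Fin N) → ℝ} {K : Set M}
    (hK : IsCompact K) (hhK : ∀ j, ∀ x ∉ K, h j x = 0) {s : EuclideanSpace ℝ (Fin N)} {x : M}
    (hs : χ s = 0 ∨ x ∉ K) : fld A h χ s x = 0 := by
  unfold fld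
  refine Finset.sum_eq_zero fun j _ => ?_
  rcases hs with hs | hx
  · rw [hs, zero_mul, zero_smul]
  · have h1 : h j =ᶠ[𝓝 x] fun _ => 0 := by
      filter_upwards [hK.isClosed.isOpen_compl.mem_nhds hx] with y hy
      exact hhK j y hy
    have h2 : mfderiv 𝓘(ℝ, V) 𝓘(ℝ, ℝ) (h j) x = 0 := by
      rw [h1.mfderiv_eq]
      exact mfderiv_const
    rw [Xh_zero A h2, smul_zero]

theorem Zf_eq_zero {h : Fin N → M → ℝ} {χ : EuclideanSpace ℝ (Fin N) → ℝ}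
    {p : EuclideanSpace ℝ (Fin N) × M} (hp : fld A h χ p.1 p.2 = 0) : Zf A h χ p = 0 := by
  unfold Zf
  rw [hp]
  rfl

/-- The flow of the field on the product. -/
theorem exists_Fl {h : Fin N → M → ℝ} {χ : EuclideanSpace ℝ (Fin N) → ℝ} {K : Set M}
    (hh : ∀ j, ContMDiff 𝓘(ℝ, V) 𝓘(ℝ, ℝ) ∞ (h j)) (hχ : ContDiff ℝ ∞ χ)
    (hχc : HasCompactSupport χ) (hK : IsCompact K) (hhK : ∀ j, ∀ x ∉ K, h j x = 0) :
    ∃ Fl : EuclideanSpace ℝ (Fin N) × M → ℝ → EuclideanSpace ℝ (Fin N) × M,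
      (∀ p, Fl p 0 = p) ∧ (∀ p, IsMIntegralCurve (Fl p) (Zf A h χ)) ∧
      ContMDiff ((𝓘(ℝ, EuclideanSpace ℝ (Fin N)).prod 𝓘(ℝ, V)).prod 𝓘(ℝ, ℝ))
        (𝓘(ℝ, EuclideanSpace ℝ (Fin N)).prod 𝓘(ℝ, V)) ∞
        (fun q : (EuclideanSpace ℝ (Fin N) × M) × ℝ => Fl q.1 q.2) ∧
      (∀ p s t, Fl p (s + t) = Fl (Fl p s) t) ∧
      (∀ p (γ : ℝ → EuclideanSpace ℝ (Fin N) × M), γ 0 = p →
        IsMIntegralCurve γ (Zf A h χ) → γ = Fl p) := by
  have : IsManifold (𝓘(ℝ, EuclideanSpace ℝ (Fin N)).prod 𝓘(ℝ, V)) 1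
    (EuclideanSpace ℝ (Fin N) × M) := IsManifold.of_le (n := ∞) (by simp)
  have hV := contMDiff_Zf A hh hχ
  obtain ⟨ε, hε, hC⟩ := exists_uniform_time_compact hV (hχc.isCompact.prod hK)
  have hex : ∀ p, ∃ γ : ℝ → EuclideanSpace ℝ (Fin N) × M, γ 0 = p ∧
      IsMIntegralCurve γ (Zf A h χ) := by
    refine exists_isMIntegralCurve_of_isMIntegralCurveOn (hV.of_le (by simp)) hε ?_
    intro p
    by_cases hp : p ∈ tsupport χ ×ˢ K
    · exact hC p hp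
    · refine ⟨fun _ => p, rfl, (isMIntegralCurve_const (Zf_eq_zero A ?_)).isMIntegralCurveOn _⟩
      apply fld_eq_zero A hK hhK
      by_contra hcon
      push Not at hcon
      exact hp ⟨subset_tsupport _ hcon.1, hcon.2⟩
  choose Fl h0 hFl using hex
  refine ⟨Fl, h0, hFl, contMDiff_flow hV h0 hFl, flow_add hV h0 hFl, ?_⟩
  intro p γ hγ0 hγ
  refine isMIntegralCurve_Ioo_eq_of_contMDiff_boundaryless (t₀ := 0)
      (hV.of_le (by simp)) hγ (hFl p) ?_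
  rw [h0, hγ0]

theorem Fl_fst {h : Fin N → M → ℝ} {χ : EuclideanSpace ℝ (Fin N) → ℝ}
    {Fl : EuclideanSpace ℝ (Fin N) × M → ℝ → EuclideanSpace ℝ (Fin N) × M}
    (h0 : ∀ p, Fl p 0 = p) (hFl : ∀ p, IsMIntegralCurve (Fl p) (Zf A h χ))
    (p : EuclideanSpace ℝ (Fin N) × M) (t : ℝ) : (Fl p t).1 = p.1 := by
  have hd : ∀ t, HasFDerivAt (fun t => (Fl p t).1) (0 : ℝ →L[ℝ] EuclideanSpace ℝ (Fin N)) t := by
    intro t
    have h1 : HasMFDerivAt 𝓘(ℝ, ℝ) 𝓘(ℝ, EuclideanSpace ℝ (Fin N)) (fun t => (Fl p t).1) t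
        (0 : ℝ →L[ℝ] EuclideanSpace ℝ (Fin N)) := by
      refine ((hasMFDerivAt_fst (I := 𝓘(ℝ, EuclideanSpace ℝ (Fin N))) (I' := 𝓘(ℝ, V))
        (Fl p t)).comp t (hFl p t)).congr_mfderiv ?_
      refine ContinuousLinearMap.ext fun (r : ℝ) => ?_
      exact smul_zero r
    exact hasMFDerivAt_iff_hasFDerivAt.1 h1
  have := is_const_of_fderiv_eq_zero (𝕜 := ℝ) (f := fun t => (Fl p t).1)
    (fun t => (hd t).differentiableAt) (fun t => (hd t).fderiv) t 0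
  simp only [h0] at this
  exact this

theorem Fl_snd {h : Fin N → M → ℝ} {χ : EuclideanSpace ℝ (Fin N) → ℝ}
    {Fl : EuclideanSpace ℝ (Fin N) × M → ℝ → EuclideanSpace ℝ (Fin N) × M}
    (h0 : ∀ p, Fl p 0 = p) (hFl : ∀ p, IsMIntegralCurve (Fl p) (Zf A h χ))
    (p : EuclideanSpace ℝ (Fin N) × M) (t : ℝ) :
    HasMFDerivAt 𝓘(ℝ, ℝ) 𝓘(ℝ, V) (fun t => (Fl p t).2) t
      ((1 : ℝ →L[ℝ] ℝ).smulRight (fld A h χ p.1 (Fl p t).2)) := by
  have h1 := (hasMFDerivAt_snd (I := 𝓘(ℝ, EuclideanSpace ℝ (Fin N))) (I' := 𝓘(ℝ, V))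
    (Fl p t)).comp t (hFl p t)
  refine h1.congr_mfderiv ?_
  have h3 : (Fl p t).1 = p.1 := Fl_fst A h0 hFl p t
  refine ContinuousLinearMap.ext fun (r : ℝ) => ?_
  show r • (fld A h χ (Fl p t).1 (Fl p t).2) = r • (fld A h χ p.1 (Fl p t).2)
  rw [h3]

theorem Fl_fix {h : Fin N → M → ℝ} {χ : EuclideanSpace ℝ (Fin N) → ℝ}
    {Fl : EuclideanSpace ℝ (Fin N) × M → ℝ → EuclideanSpace ℝ (Fin N) × M}
    (hu : ∀ p (γ : ℝ → EuclideanSpace ℝ (Fin N) × M), γ 0 = p →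
        IsMIntegralCurve γ (Zf A h χ) → γ = Fl p)
    (p : EuclideanSpace ℝ (Fin N) × M) (hp : fld A h χ p.1 p.2 = 0) (t : ℝ) : Fl p t = p :=
  (congrFun (hu p (fun _ => p) rfl (isMIntegralCurve_const (Zf_eq_zero A hp))) t).symm

theorem fld_smul {h : Fin N → M → ℝ} {χ : EuclideanSpace ℝ (Fin N) → ℝ}
    (h1 : ∀ s, ‖s‖ ≤ 1 → χ s = 1) {s : EuclideanSpace ℝ (Fin N)} (hs : ‖s‖ ≤ 1) {τ : ℝ}
    (hτ : |τ| ≤ 1) (x : M) : fld A h χ (τ • s) x = τ • fld A h χ s x := by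
  unfold fld
  have h2 : ‖τ • s‖ ≤ 1 := by
    rw [norm_smul, Real.norm_eq_abs]
    exact mul_le_one₀ hτ (norm_nonneg _) hs
  rw [Finset.smul_sum, h1 _ h2, h1 _ hs]
  refine Finset.sum_congr rfl fun j _ => ?_
  rw [smul_smul]
  congr 1
  simp

theorem Fl_smul {h : Fin N → M → ℝ} {χ : EuclideanSpace ℝ (Fin N) → ℝ}
    {Fl : EuclideanSpace ℝ (Fin N) × M → ℝ → EuclideanSpace ℝ (Fin N) × M}
    (h0 : ∀ p, Fl p 0 = p) (hFl : ∀ p, IsMIntegralCurve (Fl p) (Zf A h χ))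
    (hu : ∀ p (γ : ℝ → EuclideanSpace ℝ (Fin N) × M), γ 0 = p →
        IsMIntegralCurve γ (Zf A h χ) → γ = Fl p)
    (h1 : ∀ s, ‖s‖ ≤ 1 → χ s = 1) {s : EuclideanSpace ℝ (Fin N)} (hs : ‖s‖ ≤ 1) {τ : ℝ}
    (hτ : |τ| ≤ 1) (x : M) : (Fl (τ • s, x) 1).2 = (Fl (s, x) τ).2 := by
  have h2 := hu (τ • s, x) (fun t => (τ • s, (Fl (s, x) (τ * t)).2)) (by
    simp [h0]) (by
    intro t
    have g1 : HasMFDerivAt 𝓘(ℝ, ℝ) 𝓘(ℝ, ℝ) (fun t : ℝ => τ * t) t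
        ((1 : ℝ →L[ℝ] ℝ).smulRight τ) := by
      have := (hasDerivAt_id' t).const_mul τ
      rw [mul_one] at this
      exact this.hasFDerivAt.hasMFDerivAt
    have g2 := (Fl_snd A h0 hFl (s, x) (τ * t)).comp t g1
    have g3 : HasMFDerivAt 𝓘(ℝ, ℝ) 𝓘(ℝ, EuclideanSpace ℝ (Fin N))
        (fun _ : ℝ => τ • s) t (0 : ℝ →L[ℝ] EuclideanSpace ℝ (Fin N)) := hasMFDerivAt_const _ _
    have g4 := g3.prodMk g2
    refine g4.congr_mfderiv ?_
    refine ContinuousLinearMap.ext fun (r : ℝ) => Prod.ext ?_ ?_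
    · exact (smul_zero r).symm
    · show (r • τ) • (fld A h χ s (Fl (s, x) (τ * t)).2 : V) =
        r • (fld A h χ (τ • s) (Fl (s, x) (τ * t)).2 : V)
      rw [fld_smul A h1 hs hτ, smul_eq_mul, mul_smul])
  have h3 := congrArg Prod.snd (congrFun h2 1)
  simp only [mul_one] at h3
  exact h3.symm

/-- The derivative of the family at `s = 0`. -/
theorem deriv_zero {h : Fin N → M → ℝ} {χ : EuclideanSpace ℝ (Fin N) → ℝ}
    {Fl : EuclideanSpace ℝ (Fin N) × M → ℝ → EuclideanSpace ℝ (Fin N) × M}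
    (h0 : ∀ p, Fl p 0 = p) (hFl : ∀ p, IsMIntegralCurve (Fl p) (Zf A h χ))
    (hu : ∀ p (γ : ℝ → EuclideanSpace ℝ (Fin N) × M), γ 0 = p →
        IsMIntegralCurve γ (Zf A h χ) → γ = Fl p)
    (h1 : ∀ s, ‖s‖ ≤ 1 → χ s = 1) (x : M)
    (hd : MDifferentiableAt 𝓘(ℝ, EuclideanSpace ℝ (Fin N)) 𝓘(ℝ, V)
      (fun s => (Fl (s, x) 1).2) 0)
    (s : EuclideanSpace ℝ (Fin N)) (hs : ‖s‖ ≤ 1) :
    (mfderiv 𝓘(ℝ, EuclideanSpace ℝ (Fin N)) 𝓘(ℝ, V) (fun s => (Fl (s, x) 1).2) 0 s : V) =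
      fld A h χ s x := by
  have g1 : HasMFDerivAt 𝓘(ℝ, ℝ) 𝓘(ℝ, EuclideanSpace ℝ (Fin N)) (fun τ : ℝ => τ • s) 0
      ((1 : ℝ →L[ℝ] ℝ).smulRight s) := by
    have := (hasDerivAt_id' (0:ℝ)).smul_const s
    rw [one_smul] at this
    exact this.hasFDerivAt.hasMFDerivAt
  have hd' : HasMFDerivAt 𝓘(ℝ, EuclideanSpace ℝ (Fin N)) 𝓘(ℝ, V) (fun s => (Fl (s, x) 1).2)
      ((0:ℝ) • s) (mfderiv 𝓘(ℝ, EuclideanSpace ℝ (Fin N)) 𝓘(ℝ, V)
        (fun s => (Fl (s, x) 1).2) ((0:ℝ) • s)) := by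
    have : MDifferentiableAt 𝓘(ℝ, EuclideanSpace ℝ (Fin N)) 𝓘(ℝ, V)
      (fun s => (Fl (s, x) 1).2) ((0:ℝ) • s) := by
      rw [zero_smul]
      exact hd
    exact this.hasMFDerivAt
  have g2 := HasMFDerivAt.comp (0:ℝ) hd' g1
  have g3 : ((fun s => (Fl (s, x) 1).2) ∘ fun τ : ℝ => τ • s) =ᶠ[𝓝 0]
      fun τ => (Fl (s, x) τ).2 := by
    filter_upwards [Metric.closedBall_mem_nhds (0:ℝ) one_pos] with τ hτ
    rw [mem_closedBall, dist_zero_right, Real.norm_eq_abs] at hτ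
    exact Fl_smul A h0 hFl hu h1 hs hτ x
  have g4 := g2.mfderiv
  have g5 := g3.mfderiv_eq (I := 𝓘(ℝ, ℝ)) (I' := 𝓘(ℝ, V))
  have g6 := (Fl_snd A h0 hFl (s, x) 0).mfderiv
  have g7 : (mfderiv 𝓘(ℝ, ℝ) 𝓘(ℝ, V) ((fun s => (Fl (s, x) 1).2) ∘ fun τ : ℝ => τ • s) 0
      (1:ℝ) : V) = (mfderiv 𝓘(ℝ, ℝ) 𝓘(ℝ, V) (fun τ => (Fl (s, x) τ).2) 0 (1:ℝ) : V) := by
    rw [g5]
    rfl
  rw [g6, g4] at g7
  have g8 : (mfderiv 𝓘(ℝ, EuclideanSpace ℝ (Fin N)) 𝓘(ℝ, V) (fun s => (Fl (s, x) 1).2)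
      ((0:ℝ) • s) ((1:ℝ) • s) : V) = (1:ℝ) • (fld A h χ s (Fl (s, x) 0).2 : V) := g7
  rw [zero_smul, one_smul, one_smul, h0] at g8
  exact g8

theorem fld_single {h : Fin N → M → ℝ} {χ : EuclideanSpace ℝ (Fin N) → ℝ}
    (h1 : ∀ s, ‖s‖ ≤ 1 → χ s = 1) (j : Fin N) (x : M) :
    fld A h χ (EuclideanSpace.single j 1) x = Xh A (h j) x := by
  unfold fld
  rw [Finset.sum_eq_single j, h1 _ (by simp)]
  · simp
  · intro b _ hb
    simp [hb]
  · simp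

/-- surjectivity of the derivative of the family -/
theorem surj_zero {h : Fin N → M → ℝ} {χ : EuclideanSpace ℝ (Fin N) → ℝ}
    (h1 : ∀ s, ‖s‖ ≤ 1 → χ s = 1) (x : M) (D : EuclideanSpace ℝ (Fin N) →L[ℝ] V)
    (hD : ∀ s, ‖s‖ ≤ 1 → D s = (fld A h χ s x : V))
    (hsp : ∀ w : TangentSpace 𝓘(ℝ, V) x,
        (∀ j, mfderiv 𝓘(ℝ, V) 𝓘(ℝ, ℝ) (h j) x w = 0) → w = 0) : Function.Surjective D := by
  by_contra hns
  have h2 : LinearMap.range (D : EuclideanSpace ℝ (Fin N) →ₗ[ℝ] V) < ⊤ := by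
    rw [lt_top_iff_ne_top]
    intro h3
    apply hns
    intro y
    have h4 : y ∈ LinearMap.range (D : EuclideanSpace ℝ (Fin N) →ₗ[ℝ] V) := by
      rw [h3]
      exact Submodule.mem_top
    obtain ⟨z, hz⟩ := h4
    exact ⟨z, hz⟩
  obtain ⟨f, hf, hfk⟩ := Submodule.exists_le_ker_of_lt_top _ h2
  obtain ⟨θ, hθ⟩ : ∃ θ : V →L[ℝ] ℝ, ∀ y, θ y = f y :=
    ⟨LinearMap.toContinuousLinearMap f, fun _ => rfl⟩
  obtain ⟨u, hu⟩ := exists_sharp (I := 𝓘(ℝ, V)) (A.om x) (om_nondeg A x)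
    (show TangentSpace 𝓘(ℝ, V) x →L[ℝ] ℝ from θ)
  have h5 : ∀ j, f (Xh A (h j) x : V) = 0 := by
    intro j
    have h6 := hD (EuclideanSpace.single j 1) (by simp)
    rw [fld_single A h1] at h6
    have h7 : D (EuclideanSpace.single j 1) ∈
      LinearMap.range (D : EuclideanSpace ℝ (Fin N) →ₗ[ℝ] V) := ⟨_, rfl⟩
    have h8 := hfk h7
    rw [LinearMap.mem_ker, h6] at h8
    exact h8
  have h9 : u = 0 := by
    apply hsp
    intro j
    have h10 := Xh_spec A (h j) x u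
    have h11 := hu (Xh A (h j) x)
    have h12 : A.om x u (Xh A (h j) x) = 0 := h11.trans ((hθ _).trans (h5 j))
    rw [om_anti] at h12
    have h13 : A.om x (Xh A (h j) x) u = 0 := by linarith
    exact h10.symm.trans h13
  apply hf
  ext v
  have h14 := hu (show TangentSpace 𝓘(ℝ, V) x from v)
  rw [h9, map_zero] at h14
  exact ((hθ v).symm.trans h14.symm)

theorem hasMFDerivAt_ham {h : Fin N → M → ℝ}
    (hh : ∀ j, ContMDiff 𝓘(ℝ, V) 𝓘(ℝ, ℝ) ∞ (h j)) (s : EuclideanSpace ℝ (Fin N)) (y : M)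
    (v : TangentSpace 𝓘(ℝ, V) y) :
    (show ℝ from mfderiv 𝓘(ℝ, V) 𝓘(ℝ, ℝ) (fun y => ∑ j, s j * h j y) y v) =
      ∑ j, s j * (show ℝ from mfderiv 𝓘(ℝ, V) 𝓘(ℝ, ℝ) (h j) y v) := by
  have h1 : ∀ j ∈ (Finset.univ : Finset (Fin N)), HasMFDerivAt 𝓘(ℝ, V) 𝓘(ℝ, ℝ) (s j • h j) y
      (s j • (show TangentSpace 𝓘(ℝ, V) y →L[ℝ] ℝ from mfderiv 𝓘(ℝ, V) 𝓘(ℝ, ℝ) (h j) y)) :=
    fun j _ => (((hh j).mdifferentiableAt (by simp)).hasMFDerivAt).const_smul (s j)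
  have h2 := HasMFDerivAt.sum h1
  have h3 : (∑ j, s j • h j) = fun y => ∑ j, s j * h j y := by
    ext y
    simp
  rw [h3] at h2
  have h4 := DFunLike.congr_fun h2.mfderiv v
  refine Eq.trans h4 ?_
  show (∑ j, s j • (show TangentSpace 𝓘(ℝ, V) y →L[ℝ] ℝ from
    mfderiv 𝓘(ℝ, V) 𝓘(ℝ, ℝ) (h j) y)) v = _
  rw [sum_apply]
  rfl

end

end PHAMF

open PHAMF Pool.Agent.Helper186 in
theorem t_HAMF : S_HAMF.{u, v} := by
  intro V _ _ _ M _ _ _ A N h K hh hK hhK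
  -- the cutoff function
  obtain ⟨χ, hχ, hχc, hχ1⟩ : ∃ χ : EuclideanSpace ℝ (Fin N) → ℝ, ContDiff ℝ ∞ χ ∧
      HasCompactSupport χ ∧ ∀ s, ‖s‖ ≤ 1 → χ s = 1 := by
    let B : ContDiffBump (0 : EuclideanSpace ℝ (Fin N)) := ⟨1, 2, one_pos, by norm_num⟩
    refine ⟨B, B.contDiff, B.hasCompactSupport, fun s hs => ?_⟩
    apply B.one_of_mem_closedBall
    rw [mem_closedBall, dist_zero_right]
    exact hs
  obtain ⟨Fl, h0, hFl, hsm, hadd, hu⟩ := exists_Fl A hh hχ hχc hK hhK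
  have hψ : ContMDiff (𝓘(ℝ, EuclideanSpace ℝ (Fin N)).prod 𝓘(ℝ, V)) 𝓘(ℝ, V) ∞
      (fun p : EuclideanSpace ℝ (Fin N) × M => (Fl p 1).2) :=
    contMDiff_snd.comp (hsm.comp (contMDiff_id.prodMk contMDiff_const))
  have hfst := Fl_fst A h0 hFl
  have hz : ∀ x, fld A h χ 0 x = 0 := by
    intro x
    unfold fld
    refine Finset.sum_eq_zero fun j _ => ?_
    simp
  refine ⟨fun p => (Fl p 1).2, hψ, ?_, ?_, ?_, ?_⟩
  · intro x
    show (Fl (0, x) 1).2 = x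
    rw [Fl_fix A hu (0, x) (hz x)]
  · intro s
    refine ⟨fun x => (Fl (s, x) (-1)).2, ?_, ?_, ?_⟩
    · have h1 : ContMDiff 𝓘(ℝ, V) ((𝓘(ℝ, EuclideanSpace ℝ (Fin N)).prod 𝓘(ℝ, V)).prod 𝓘(ℝ, ℝ)) ∞
          (fun x : M => ((s, x), (-1 : ℝ))) :=
        (contMDiff_const.prodMk contMDiff_id).prodMk contMDiff_const
      exact contMDiff_snd.comp (hsm.comp h1)
    · intro x
      have h1 : (s, (Fl (s, x) 1).2) = Fl (s, x) 1 :=
        Prod.ext (hfst (s, x) 1).symm rfl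
      show (Fl (s, (Fl (s, x) 1).2) (-1)).2 = x
      rw [h1, ← hadd]
      norm_num [h0]
    · intro x
      have h1 : (s, (Fl (s, x) (-1)).2) = Fl (s, x) (-1) :=
        Prod.ext (hfst (s, x) (-1)).symm rfl
      show (Fl (s, (Fl (s, x) (-1)).2) 1).2 = x
      rw [h1, ← hadd]
      norm_num [h0]
  · intro x hsp
    have hd : MDifferentiableAt 𝓘(ℝ, EuclideanSpace ℝ (Fin N)) 𝓘(ℝ, V)
        (fun s => (Fl (s, x) 1).2) 0 := by
      have h1 : ContMDiff 𝓘(ℝ, EuclideanSpace ℝ (Fin N)) 𝓘(ℝ, V) ∞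
          (fun s : EuclideanSpace ℝ (Fin N) => (Fl (s, x) 1).2) :=
        hψ.comp (contMDiff_id.prodMk contMDiff_const)
      exact h1.mdifferentiableAt (by simp)
    exact surj_zero A hχ1 x _ (fun s hs => deriv_zero A h0 hFl hu hχ1 x hd s hs) hsp
  · intro ε hε
    -- a bound for the functions
    obtain ⟨C, hC0, hC⟩ : ∃ C : ℝ, 0 ≤ C ∧ ∀ x, ∑ j, |h j x| ≤ C := by
      have hcont : Continuous (fun x => ∑ j, |h j x|) :=
        continuous_finsetSum _ fun j _ => (hh j).continuous.abs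
      obtain ⟨C, hC⟩ := hK.bddAbove_image hcont.continuousOn
      refine ⟨max C 0, le_max_right _ _, fun x => ?_⟩
      by_cases hx : x ∈ K
      · exact (hC (mem_image_of_mem _ hx)).trans (le_max_left _ _)
      · have : ∑ j, |h j x| = 0 := Finset.sum_eq_zero fun j _ => by rw [hhK j x hx, abs_zero]
        rw [this]
        exact le_max_right _ _
    have hHb : ∀ (s : EuclideanSpace ℝ (Fin N)) (x : M), |∑ j, s j * h j x| ≤ ‖s‖ * C := by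
      intro s x
      calc |∑ j, s j * h j x| ≤ ∑ j, |s j * h j x| := Finset.abs_sum_le_sum_abs _ _
        _ ≤ ∑ j, ‖s‖ * |h j x| := by
            refine Finset.sum_le_sum fun j _ => ?_
            rw [abs_mul]
            gcongr
            exact EuclideanSpace.norm_eq s ▸ (by
              have := PiLp.norm_apply_le s j
              rwa [Real.norm_eq_abs, EuclideanSpace.norm_eq] at this)
        _ = ‖s‖ * ∑ j, |h j x| := by rw [Finset.mul_sum]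
        _ ≤ ‖s‖ * C := by gcongr; exact hC x
    -- the C⁰ distance
    have hdist : ∀ᶠ s in 𝓝 (0 : EuclideanSpace ℝ (Fin N)), ∀ x ∈ K,
        dist (Fl (s, x) 1).2 x < ε := by
      refine hK.eventually_forall_of_forall_eventually fun x _ => ?_
      have hc : Continuous (fun z : EuclideanSpace ℝ (Fin N) × M =>
          dist (Fl z 1).2 z.2) := hψ.continuous.dist continuous_snd
      have h1 : (fun z : EuclideanSpace ℝ (Fin N) × M =>
          dist (Fl z 1).2 z.2) (0, x) < ε := by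
        show dist (Fl (0, x) 1).2 x < ε
        rw [Fl_fix A hu (0, x) (hz x), dist_self]
        exact hε
      exact hc.continuousAt.eventually_lt continuousAt_const h1
    obtain ⟨δ₁, hδ₁, hδ₁'⟩ := Metric.eventually_nhds_iff.1 hdist
    refine ⟨min (min δ₁ 1) (ε / (2 * (C + 1))), by positivity, fun s hs => ?_⟩
    have hs1 : ‖s‖ < δ₁ := (hs.trans_le (min_le_left _ _)).trans_le (min_le_left _ _)
    have hs2 : ‖s‖ ≤ 1 := ((hs.trans_le (min_le_left _ _)).trans_le (min_le_right _ _)).le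
    have hs3 : ‖s‖ < ε / (2 * (C + 1)) := hs.trans_le (min_le_right _ _)
    refine ⟨fun p => ∑ j, s j * h j p.2, fun p => (Fl (s, p.2) p.1).2, ?_, ?_, ?_, ?_, ?_, ?_,
      ?_, ?_⟩
    · intro p
      refine contMDiffAt_finsetSum fun j _ => ?_
      exact contMDiffAt_const.mul (ContMDiffAt.comp p (hh j).contMDiffAt contMDiffAt_snd)
    · have h1 : ContMDiff (𝓘(ℝ, ℝ).prod 𝓘(ℝ, V))
          ((𝓘(ℝ, EuclideanSpace ℝ (Fin N)).prod 𝓘(ℝ, V)).prod 𝓘(ℝ, ℝ)) ∞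
          (fun p : ℝ × M => ((s, p.2), p.1)) :=
        (contMDiff_const.prodMk contMDiff_snd).prodMk contMDiff_fst
      exact contMDiff_snd.comp (hsm.comp h1)
    · refine ⟨K, hK, fun t _ x hx => ?_⟩
      exact Finset.sum_eq_zero fun j _ => by rw [hhK j x hx, mul_zero]
    · intro x
      show (Fl (s, x) 0).2 = x
      rw [h0]
    · intro t _ x v
      have h1 := (Fl_snd A h0 hFl (s, x) t).mfderiv
      have h2 : (mfderiv 𝓘(ℝ, ℝ) 𝓘(ℝ, V) (fun t => (Fl (s, x) t).2) t (1:ℝ)) =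
          fld A h χ s (Fl (s, x) t).2 := by
        rw [h1]
        exact one_smul ℝ _
      refine Eq.trans (congrArg (fun w => A.om (Fl (s, x) t).2 w v) h2) ?_
      rw [om_fld, hχ1 s hs2]
      simp only [one_mul]
      exact (hasMFDerivAt_ham hh s _ v).symm
    · intro x
      rfl
    · have h1 : (⨆ x, ∑ j, s j * h j x) ≤ ‖s‖ * C :=
        Real.iSup_le (fun x => (le_abs_self _).trans (hHb s x)) (by positivity)
      have h2 : -(‖s‖ * C) ≤ ⨅ x, ∑ j, s j * h j x := by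
        rcases isEmpty_or_nonempty M with hM | hM
        · rw [Real.iInf_of_isEmpty]
          have : 0 ≤ ‖s‖ * C := by positivity
          linarith
        · exact le_ciInf fun x => (neg_le_of_abs_le (hHb s x))
      have h3 : (∫ t in (0:ℝ)..1, ((⨆ x, ∑ j, s j * h j x) - ⨅ x, ∑ j, s j * h j x)) =
          (⨆ x, ∑ j, s j * h j x) - ⨅ x, ∑ j, s j * h j x := by
        rw [intervalIntegral.integral_const]
        simp
      refine lt_of_eq_of_lt h3 ?_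
      have h4 : ‖s‖ * (2 * (C + 1)) < ε := (lt_div_iff₀ (by positivity)).1 hs3
      have h5 := norm_nonneg s
      linarith
    · intro x
      show dist (Fl (s, x) 1).2 x < ε
      by_cases hx : x ∈ K
      · exact hδ₁' (by rwa [dist_zero_right]) x hx
      · rw [Fl_fix A hu (s, x) (fld_eq_zero A hK hhK (Or.inr hx)), dist_self]
        exact hε

end Pool.Agent.H823.HC
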