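import Mathlib
import Pool.Agent.H823.HC.StmV

/-!
# HESS: the second fundamental form bounds the second derivative of graphs
-/

open scoped Topology ContDiff Manifold
open Set Metric Filter MeasureTheory

noncomputable section

namespace Pool.Agent.H823.HC

universe u v w

namespace PHESS

theorem polar {E F : Type*} [NormedAddCommGroup E] [InnerProductSpace ℝ E]
    [NormedAddCommGroup F] [NormedSpace ℝ F] (B : E →L[ℝ] E →L[ℝ] F)
    (hs : ∀ v w, B v w = B w v) (C : ℝ) (h : ∀ v, ‖B v v‖ ≤ C * ‖v‖ ^ 2)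
    (v w : E) : ‖B v w‖ ≤ C * ‖v‖ * ‖w‖ := by
  by_cases hv : v = 0
  · subst hv; simp
  by_cases hw : w = 0
  · subst hw; simp
  have ha : 0 < ‖v‖ := norm_pos_iff.2 hv
  have hb : 0 < ‖w‖ := norm_pos_iff.2 hw
  set a := ‖v‖ with hadef
  set b := ‖w‖ with hbdef
  have e1 : B (b • v + a • w) (b • v + a • w) - B (b • v - a • w) (b • v - a • w) =
      (4 * (a * b)) • B v w := by
    simp only [map_add, map_sub, map_smul, _root_.add_apply,
      _root_.sub_apply, _root_.smul_apply, hs w v]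
    module
  have n1 : ‖b • v‖ = a * b := by
    rw [norm_smul, Real.norm_of_nonneg hb.le, mul_comm]
  have n2 : ‖a • w‖ = a * b := by
    rw [norm_smul, Real.norm_of_nonneg ha.le]
  have e2 := parallelogram_law_with_norm ℝ (b • v) (a • w)
  have e3 : ‖(4 * (a * b)) • B v w‖ ≤ C * (4 * (a * b) ^ 2) := by
    rw [← e1]
    refine (norm_sub_le _ _).trans ((add_le_add (h _) (h _)).trans (le_of_eq ?_))
    rw [n1, n2] at e2
    linear_combination C * e2
  have hab : 0 < 4 * (a * b) := by positivity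
  rw [norm_smul, Real.norm_of_nonneg hab.le] at e3
  have e4 : 4 * (a * b) * ‖B v w‖ ≤ 4 * (a * b) * (C * a * b) := by
    refine e3.trans (le_of_eq ?_)
    ring
  exact le_of_mul_le_mul_left e4 hab

theorem curve_facts {E F : Type*} [NormedAddCommGroup E] [NormedSpace ℝ E]
    [NormedAddCommGroup F] [NormedSpace ℝ F] (f : E → F) (t₀ w : E)
    (hf : ContDiffAt ℝ ∞ f t₀) :
    ContDiffAt ℝ ∞ (fun s : ℝ => f (t₀ + s • w)) 0 ∧
    (∀ᶠ s in 𝓝 (0:ℝ), HasDerivAt (fun s : ℝ => f (t₀ + s • w)) (fderiv ℝ f (t₀ + s • w) w) s) ∧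
    HasDerivAt (deriv fun s : ℝ => f (t₀ + s • w)) (fderiv ℝ (fderiv ℝ f) t₀ w w) 0 := by
  have hl : ∀ s : ℝ, HasDerivAt (fun s : ℝ => t₀ + s • w) w s := by
    intro s
    have := ((hasDerivAt_id s).smul_const w).const_add t₀
    simpa using this
  have h0 : t₀ + (0:ℝ) • w = t₀ := by simp
  have hc : Tendsto (fun s : ℝ => t₀ + s • w) (𝓝 0) (𝓝 t₀) := by
    have := (hl 0).continuousAt.tendsto
    rwa [h0] at this
  have h1 : ContDiffAt ℝ 1 f t₀ := hf.of_le (by exact_mod_cast le_top)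
  have h2 : ∀ᶠ y in 𝓝 t₀, ContDiffAt ℝ 1 f y := h1.eventually (by simp)
  have h3 : ∀ᶠ s in 𝓝 (0:ℝ), HasDerivAt (fun s : ℝ => f (t₀ + s • w))
      (fderiv ℝ f (t₀ + s • w) w) s := by
    filter_upwards [hc.eventually h2] with s hs
    have h4 : HasFDerivAt f (fderiv ℝ f (t₀ + s • w)) (t₀ + s • w) :=
      (hs.differentiableAt (by norm_num)).hasFDerivAt
    exact h4.comp_hasDerivAt s (hl s)
  refine ⟨?_, h3, ?_⟩
  · have h4 : ContDiffAt ℝ ∞ (fun s : ℝ => t₀ + s • w) 0 :=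
      contDiffAt_const.add (contDiffAt_id.smul contDiffAt_const)
    refine ContDiffAt.comp (0 : ℝ) (g := f) ?_ h4
    show ContDiffAt ℝ ∞ f (t₀ + (0:ℝ) • w)
    rw [h0]
    exact hf
  · have h4 : ContDiffAt ℝ 1 (fderiv ℝ f) t₀ := hf.fderiv_right (by norm_cast)
    have h5 : HasFDerivAt (fderiv ℝ f) (fderiv ℝ (fderiv ℝ f) t₀) (t₀ + (0:ℝ) • w) := by
      rw [h0]
      exact (h4.differentiableAt (by norm_num)).hasFDerivAt
    have h6 : HasDerivAt (fun s : ℝ => fderiv ℝ f (t₀ + s • w)) (fderiv ℝ (fderiv ℝ f) t₀ w) 0 :=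
      h5.comp_hasDerivAt 0 (hl 0)
    have h7 : HasDerivAt (fun s : ℝ => fderiv ℝ f (t₀ + s • w) w)
        (fderiv ℝ (fderiv ℝ f) t₀ w w) 0 :=
      (ContinuousLinearMap.apply ℝ F w).hasFDerivAt.comp_hasDerivAt 0 h6
    refine h7.congr_of_eventuallyEq ?_
    filter_upwards [h3] with s hs
    exact hs.deriv

/-- decomposition orthogonal for a positive definite form -/
theorem decomp {V : Type*} [NormedAddCommGroup V] [InnerProductSpace ℝ V]
    [FiniteDimensional ℝ V] (g : V →L[ℝ] V →L[ℝ] ℝ) (hpos : ∀ v, g v v = 0 → v = 0)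
    (Tx : Submodule ℝ V) (q : V) : ∃ τ ∈ Tx, ∀ v ∈ Tx, g v (q - τ) = 0 := by
  let L : Tx →ₗ[ℝ] (Tx →ₗ[ℝ] ℝ) :=
    { toFun := fun τ =>
        { toFun := fun v => g v τ
          map_add' := fun v v' => by simp
          map_smul' := fun c v => by simp }
      map_add' := fun τ τ' => by ext v; simp
      map_smul' := fun c τ => by ext v; simp }
  have hinj : Function.Injective L := by
    rw [← LinearMap.ker_eq_bot, LinearMap.ker_eq_bot']
    intro τ hτ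
    have h1 : g (τ : V) (τ : V) = 0 := LinearMap.congr_fun hτ τ
    exact Subtype.ext (hpos _ h1)
  have hdim : Module.finrank ℝ Tx = Module.finrank ℝ (Tx →ₗ[ℝ] ℝ) :=
    (Subspace.dual_finrank_eq (K := ℝ) (V := Tx)).symm
  have hsurj : Function.Surjective L :=
    (LinearMap.injective_iff_surjective_of_finrank_eq_finrank hdim).1 hinj
  obtain ⟨τ, hτ⟩ := hsurj
    { toFun := fun v => g v q
      map_add' := fun v v' => by simp
      map_smul' := fun c v => by simp }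
  refine ⟨τ, τ.2, fun v hv => ?_⟩
  have h1 : g v (τ : V) = g v q := LinearMap.congr_fun hτ ⟨v, hv⟩
  rw [map_sub, h1, sub_self]

end PHESS

open PHESS

theorem t_HESS (hTANV : S_TANV.{u}) : S_HESS.{u} := by
  intro V _ _ _ r K Lam n G Om S hr hK hLam hcp T hT f t₀ hf hev hslope
  set P := T.orthogonalProjectionOnto with hP
  have hx : f t₀ ∈ S := hev.self_of_nhds.1
  have hxb : f t₀ ∈ ball (0:V) r := hcp.S_sub hx
  have hK0 : 0 < K := lt_of_lt_of_le one_pos hK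
  -- curves
  have hline : ∀ w : T, Tendsto (fun s : ℝ => t₀ + s • w) (𝓝 0) (𝓝 t₀) := by
    intro w
    have h1 : Continuous (fun s : ℝ => t₀ + s • w) := by fun_prop
    have := h1.tendsto 0
    simpa using this
  have hcS : ∀ w : T, ∀ᶠ s in 𝓝 (0:ℝ), f (t₀ + s • w) ∈ S ∧ P (f (t₀ + s • w)) = t₀ + s • w :=
    fun w => (hline w).eventually hev
  have hderiv : ∀ w : T, deriv (fun s : ℝ => f (t₀ + s • w)) 0 = fderiv ℝ f t₀ w := by
    intro w
    have h1 := (curve_facts f t₀ w hf).2.1.self_of_nhds.deriv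
    simpa using h1
  have hPd : ∀ w : T, ∀ᶠ s in 𝓝 (0:ℝ), P (deriv (fun s : ℝ => f (t₀ + s • w)) s) = w := by
    intro w
    filter_upwards [(curve_facts f t₀ w hf).2.1, (hcS w).eventually_nhds] with s h1 h2
    have h3 : HasDerivAt (fun s : ℝ => P (f (t₀ + s • w)))
        (P (deriv (fun s : ℝ => f (t₀ + s • w)) s)) s := by
      rw [h1.deriv]
      exact P.hasFDerivAt.comp_hasDerivAt s h1
    have h4 : HasDerivAt (fun s : ℝ => t₀ + s • w) w s := by
      have := ((hasDerivAt_id s).smul_const w).const_add t₀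
      simpa using this
    have h5 : (fun s : ℝ => P (f (t₀ + s • w))) =ᶠ[𝓝 s] fun s : ℝ => t₀ + s • w :=
      h2.mono fun y hy => hy.2
    exact h3.unique (h4.congr_of_eventuallyEq h5)
  have hPD : ∀ w : T, P (fderiv ℝ f t₀ w) = w := by
    intro w
    have := (hPd w).self_of_nhds
    rwa [hderiv] at this
  have hPq : ∀ w : T, P (fderiv ℝ (fderiv ℝ f) t₀ w w) = 0 := by
    intro w
    have h1 : HasDerivAt (fun s : ℝ => P (deriv (fun s : ℝ => f (t₀ + s • w)) s))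
        (P (fderiv ℝ (fderiv ℝ f) t₀ w w)) 0 :=
      P.hasFDerivAt.comp_hasDerivAt 0 (curve_facts f t₀ w hf).2.2
    have h2 : HasDerivAt (fun _ : ℝ => w) (0 : T) 0 := hasDerivAt_const _ _
    exact h1.unique (h2.congr_of_eventuallyEq (hPd w))
  -- the tangent space
  obtain ⟨Tx, hTx1, hTx2⟩ := hTANV V n S (f t₀) (hcp.S_slice _ hx) hx
  have hmem : ∀ w : T, fderiv ℝ f t₀ w ∈ Tx := by
    intro w
    have h1 : fderiv ℝ f t₀ w ∈ tanV S (f t₀) :=
      ⟨fun s : ℝ => f (t₀ + s • w), (curve_facts f t₀ w hf).1, by simp,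
        (hcS w).mono fun s hs => hs.1, hderiv w⟩
    rw [← hTx2] at h1
    exact h1
  have hinj : Function.Injective (fderiv ℝ f t₀ : T →ₗ[ℝ] V) := by
    intro w w' h
    have h1 := congrArg P h
    have h2 : P (fderiv ℝ f t₀ w) = P (fderiv ℝ f t₀ w') := h1
    rwa [hPD, hPD] at h2
  have hrange : LinearMap.range (fderiv ℝ f t₀ : T →ₗ[ℝ] V) = Tx := by
    apply Submodule.eq_of_le_of_finrank_eq
    · rintro _ ⟨w, rfl⟩
      exact hmem w
    · rw [LinearMap.finrank_range_of_inj hinj, hTx1, hT]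
  -- norms
  have hpyth : ∀ z : V, ‖z‖ ^ 2 = ‖P z‖ ^ 2 + ‖z - (P z : V)‖ ^ 2 := by
    intro z
    have h1 : z = (P z : V) + (z - (P z : V)) := by abel
    have h2 : inner ℝ (P z : V) (z - (P z : V)) = 0 := by
      have h3 : z - (P z : V) ∈ Tᗮ := by
        rw [hP]
        exact Submodule.sub_starProjection_mem_orthogonal z
      exact h3 _ (P z).2
    have h3 := norm_add_sq_eq_norm_sq_add_norm_sq_of_inner_eq_zero (P z : V) (z - (P z : V)) h2
    rw [← h1] at h3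
    rw [pow_two, pow_two, pow_two, h3]
    rfl
  have hDn : ∀ w : T, ‖fderiv ℝ f t₀ w‖ ^ 2 ≤ 2 * ‖w‖ ^ 2 := by
    intro w
    rw [hpyth, hPD]
    have h1 := hslope w
    have h2 := norm_nonneg (fderiv ℝ f t₀ w - (w : V))
    nlinarith [norm_nonneg w]
  -- the form
  have hGl : ∀ v : V, (K⁻¹ * ‖v‖) ^ 2 ≤ G (f t₀) v v := hcp.tens.G_lower _ hxb
  have hGu : ∀ v : V, G (f t₀) v v ≤ (K * ‖v‖) ^ 2 := hcp.tens.G_upper _ hxb
  have hGs := hcp.tens.G_symm _ hxb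
  have hGpos : ∀ v : V, G (f t₀) v v = 0 → v = 0 := by
    intro v hv
    have h1 := hGl v
    rw [hv] at h1
    have h2 : K⁻¹ * ‖v‖ = 0 := by
      have : (K⁻¹ * ‖v‖) ^ 2 = 0 := le_antisymm h1 (sq_nonneg _)
      exact pow_eq_zero_iff (two_ne_zero) |>.1 this
    have h3 : ‖v‖ = 0 := by
      rcases mul_eq_zero.1 h2 with h | h
      · exact absurd h (inv_ne_zero hK0.ne')
      · exact h
    exact norm_eq_zero.1 h3
  -- the diagonal estimate
  have hdiag : ∀ w : T, ‖fderiv ℝ (fderiv ℝ f) t₀ w w‖ ≤ 3 * (Lam + 3 / 2) * K ^ 3 * ‖w‖ ^ 2 := by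
    intro w
    set q := fderiv ℝ (fderiv ℝ f) t₀ w w with hq
    set c' := fderiv ℝ f t₀ w with hc'
    obtain ⟨τ, hτ, hort⟩ := decomp (G (f t₀)) hGpos Tx q
    set ν := q - τ with hν
    have hort' : ∀ v ∈ tanV S (f t₀), G (f t₀) ν v = 0 := by
      intro v hv
      rw [hGs]
      refine hort v ?_
      rw [← hTx2] at hv
      exact hv
    have hsff := hcp.S_sff (fun s : ℝ => f (t₀ + s • w)) (curve_facts f t₀ w hf).1
      ((hcS w).mono fun s hs => hs.1) ν (by simpa using hort')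
    rw [hderiv w, (curve_facts f t₀ w hf).2.2.deriv] at hsff
    simp only [zero_smul, add_zero] at hsff
    rw [← hq, ← hc'] at hsff
    set γ := √(G (f t₀) ν ν) with hγ
    have hγ0 : 0 ≤ γ := Real.sqrt_nonneg _
    have hGνν : 0 ≤ G (f t₀) ν ν := (sq_nonneg _).trans (hGl ν)
    have hγsq : γ ^ 2 = G (f t₀) ν ν := Real.sq_sqrt hGνν
    have hνγ : ‖ν‖ ≤ K * γ := by
      have h1 : K⁻¹ * ‖ν‖ ≤ γ := by
        apply Real.le_sqrt_of_sq_le
        exact hGl ν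
      calc ‖ν‖ = K * (K⁻¹ * ‖ν‖) := by field_simp
        _ ≤ K * γ := mul_le_mul_of_nonneg_left h1 hK0.le
    have hGνq : G (f t₀) ν ν = G (f t₀) ν q := by
      have h1 : G (f t₀) ν τ = 0 := by
        apply hort'
        rw [← hTx2]
        exact hτ
      have h2 : q = ν + τ := by rw [hν]; abel
      have h3 : G (f t₀) ν q = G (f t₀) ν ν + G (f t₀) ν τ := by rw [h2, map_add]
      rw [h3, h1, add_zero]
    have d1 := hcp.tens.G_deriv _ hxb c' c' ν
    have d2 := hcp.tens.G_deriv _ hxb ν c' c'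
    have hc2 : ‖c'‖ ^ 2 ≤ 2 * ‖w‖ ^ 2 := hDn w
    have hgc := hGu c'
    have hLamK : 0 < Lam + 3 / 2 := by linarith
    -- `γ ^ 2 ≤ γ (Lam + 3/2) K ^ 2 ‖c'‖ ^ 2`
    have e1 : γ ^ 2 ≤ γ * ((Lam + 3 / 2) * K ^ 2 * ‖c'‖ ^ 2) := by
      rw [hγsq, hGνq]
      have h1 := (abs_le.1 hsff).2
      have h2 := (abs_le.1 d1).1
      have h3 := (abs_le.1 d2).2
      have h4 : Lam * γ * G (f t₀) c' c' ≤ Lam * γ * (K * ‖c'‖) ^ 2 :=
        mul_le_mul_of_nonneg_left hgc (mul_nonneg hLam hγ0)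
      have h5 : K * ‖c'‖ * ‖c'‖ * ‖ν‖ ≤ K * ‖c'‖ * ‖c'‖ * (K * γ) :=
        mul_le_mul_of_nonneg_left hνγ (by positivity)
      have h6 : K * ‖ν‖ * ‖c'‖ * ‖c'‖ = K * ‖c'‖ * ‖c'‖ * ‖ν‖ := by ring
      rw [h6] at h3
      nlinarith
    have e2 : γ ≤ (Lam + 3 / 2) * K ^ 2 * ‖c'‖ ^ 2 := by
      by_cases hγz : γ = 0
      · rw [hγz]; positivity
      · have hγp : 0 < γ := lt_of_le_of_ne hγ0 (Ne.symm hγz)
        have : γ * γ ≤ γ * ((Lam + 3 / 2) * K ^ 2 * ‖c'‖ ^ 2) := by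
          rw [← pow_two]; exact e1
        exact le_of_mul_le_mul_left this hγp
    have e3 : γ ≤ (Lam + 3 / 2) * K ^ 2 * (2 * ‖w‖ ^ 2) :=
      e2.trans (mul_le_mul_of_nonneg_left hc2 (by positivity))
    -- `‖q‖ ^ 2 ≤ 2 ‖ν‖ ^ 2`
    have e4 : ‖q‖ ^ 2 ≤ 2 * ‖ν‖ ^ 2 := by
      have hτr : τ ∈ LinearMap.range (fderiv ℝ f t₀ : T →ₗ[ℝ] V) := by rw [hrange]; exact hτ
      obtain ⟨w', hw'⟩ := hτr
      have hw'' : fderiv ℝ f t₀ w' = τ := hw'
      have hPν : P ν = -w' := by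
        rw [hν, map_sub, hPq w, ← hw'', hPD, zero_sub]
      have h1 := hpyth ν
      rw [hPν] at h1
      have h2 : ν - ((-w' : T) : V) = q - (τ - w') := by
        rw [hν]
        simp only [Submodule.coe_neg]
        abel
      rw [h2, norm_neg] at h1
      have h3 : ‖q‖ ≤ ‖q - (τ - w')‖ + ‖τ - (w' : V)‖ := by
        have := norm_add_le (q - (τ - (w' : V))) (τ - (w' : V))
        simpa using this
      have h4 : ‖τ - (w' : V)‖ ≤ ‖w'‖ := by
        rw [← hw'']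
        exact hslope w'
      have h5 : ‖q‖ ≤ ‖q - (τ - (w' : V))‖ + ‖w'‖ := h3.trans (add_le_add le_rfl h4)
      have h6 := norm_nonneg q
      rw [h1]
      nlinarith [sq_nonneg (‖q - (τ - (w' : V))‖ - ‖w'‖)]
    have e5 : ‖ν‖ ≤ K * ((Lam + 3 / 2) * K ^ 2 * (2 * ‖w‖ ^ 2)) :=
      hνγ.trans (mul_le_mul_of_nonneg_left e3 hK0.le)
    have e6 : ‖q‖ ^ 2 ≤ (3 * (Lam + 3 / 2) * K ^ 3 * ‖w‖ ^ 2) ^ 2 := by
      have h0 : K * ((Lam + 3 / 2) * K ^ 2 * (2 * ‖w‖ ^ 2)) =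
          2 * ((Lam + 3 / 2) * K ^ 3 * ‖w‖ ^ 2) := by ring
      have h00 : 3 * (Lam + 3 / 2) * K ^ 3 * ‖w‖ ^ 2 =
          3 * ((Lam + 3 / 2) * K ^ 3 * ‖w‖ ^ 2) := by ring
      rw [h0] at e5
      rw [h00]
      generalize (Lam + 3 / 2) * K ^ 3 * ‖w‖ ^ 2 = X at e5 ⊢
      have h1 : ‖ν‖ ^ 2 ≤ (2 * X) ^ 2 := pow_le_pow_left₀ (norm_nonneg _) e5 2
      have h2 : 0 ≤ X ^ 2 := sq_nonneg _
      calc ‖q‖ ^ 2 ≤ 2 * ‖ν‖ ^ 2 := e4
        _ ≤ 2 * (2 * X) ^ 2 := mul_le_mul_of_nonneg_left h1 (by norm_num)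
        _ ≤ (3 * X) ^ 2 := by linarith [mul_pow 2 X 2, mul_pow 3 X 2]
    exact (sq_le_sq₀ (norm_nonneg _) (by positivity)).1 e6
  -- polarization
  intro w w'
  refine polar (fderiv ℝ (fderiv ℝ f) t₀) ?_ _ hdiag w w'
  intro v v'
  have hsym : IsSymmSndFDerivAt ℝ f t₀ := hf.isSymmSndFDerivAt (by
    rw [minSmoothness_of_isRCLikeNormedField]
    exact WithTop.coe_le_coe.2 (le_top : (2 : ℕ∞) ≤ ⊤))
  exact hsym v v'

end Pool.Agent.H823.HC
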