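import Mathlib
import Pool.Agent.H823.HC.StmM

open scoped Topology ContDiff Manifold
open Set Metric Filter

noncomputable section

namespace Pool.Agent.H823.HC

universe u v w

namespace PHOLB

/-! ### The domain -/

theorem UH_subset : UH ⊆ Dom := fun _ hz => Or.inl hz

theorem isOpen_UH : IsOpen UH := isOpen_lt continuous_const Complex.continuous_im

theorem dom_mem_nhds {z : ℂ} (hz : z ∈ UH) : Dom ∈ 𝓝 z :=
  mem_of_superset (isOpen_UH.mem_nhds hz) UH_subset

theorem im_nonneg {z : ℂ} (hz : z ∈ Dom) : 0 ≤ z.im := by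
  rcases hz with h | h
  · exact h.le
  · exact h.1.ge

theorem convex_Dom : Convex ℝ Dom := by
  intro z hz w hw a b ha hb hab
  have h1 : (a • z + b • w).im = a * z.im + b * w.im := by simp
  have h2 : (a • z + b • w).re = a * z.re + b * w.re := by simp
  have hz0 := im_nonneg hz
  have hw0 := im_nonneg hw
  rcases eq_or_lt_of_le ha with ha0 | ha0
  · subst ha0
    have hb1 : b = 1 := by linarith
    subst hb1
    simpa using hw
  rcases eq_or_lt_of_le hb with hb0 | hb0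
  · subst hb0
    have ha1 : a = 1 := by linarith
    subst ha1
    simpa using hz
  rcases hz with h | h
  · left
    rw [h1]
    have := mul_pos ha0 h
    have := mul_nonneg hb0.le hw0
    linarith
  · rcases hw with h' | h'
    · left
      rw [h1]
      have := mul_pos hb0 h'
      have := mul_nonneg ha0.le hz0
      linarith
    · right
      rw [h1, h2, h.1, h'.1]
      refine ⟨by simp, ?_⟩
      have := mul_neg_of_pos_of_neg ha0 h.2
      have := mul_neg_of_pos_of_neg hb0 h'.2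
      linarith

theorem uniqueDiffOn_Dom : UniqueDiffOn ℝ Dom := by
  refine uniqueDiffOn_convex convex_Dom ⟨Complex.I, ?_⟩
  rw [mem_interior_iff_mem_nhds]
  exact dom_mem_nhds (by simp [UH])

theorem mem_closure_UH {z : ℂ} (hz : z ∈ Dom) : z ∈ closure UH := by
  have h : closure UH = {z : ℂ | 0 ≤ z.im} := Complex.closure_setOfPred_lt_im 0
  rw [h]
  exact im_nonneg hz

/-! ### Tensors in charts -/

section

variable {V : Type u} [NormedAddCommGroup V] [InnerProductSpace ℝ V]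
  {M : Type v} [MetricSpace M] [ChartedSpace V M] (A : AlmostKahler V M)

theorem om_congr {p q : M} (h : p = q) (a b : V) :
    A.om p (a : TangentSpace 𝓘(ℝ, V) p) (b : TangentSpace 𝓘(ℝ, V) p) =
      A.om q (a : TangentSpace 𝓘(ℝ, V) q) (b : TangentSpace 𝓘(ℝ, V) q) := by
  subst h
  rfl

theorem g_congr {p q : M} (h : p = q) (a b : V) :
    A.om p (a : TangentSpace 𝓘(ℝ, V) p) (A.J p (b : TangentSpace 𝓘(ℝ, V) p)) =
      A.om q (a : TangentSpace 𝓘(ℝ, V) q) (A.J q (b : TangentSpace 𝓘(ℝ, V) q)) := by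
  subst h
  rfl

theorem om_swap (x : M) (a b : TangentSpace 𝓘(ℝ, V) x) : A.om x a b = - A.om x b a := by
  have h := A.alt x (a + b)
  have ha := A.alt x a
  have hb := A.alt x b
  simp only [map_add, add_apply] at h
  linarith

theorem eq_zero_of_om (x : M) (a : TangentSpace 𝓘(ℝ, V) x) (h : A.om x (A.J x a) a = 0) :
    a = 0 := by
  by_contra hne
  have := A.pos x a hne
  rw [om_swap, h] at this
  simp at this

theorem frame_add (e : OpenPartialHomeomorph M V) (x v w : V) :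
    frame e x (v + w) = frame e x v + frame e x w :=
  (mfderiv 𝓘(ℝ, V) 𝓘(ℝ, V) e.symm x).map_add v w

theorem frame_smul (e : OpenPartialHomeomorph M V) (x : V) (c : ℝ) (v : V) :
    frame e x (c • v) = c • frame e x v :=
  (mfderiv 𝓘(ℝ, V) 𝓘(ℝ, V) e.symm x).map_smul c v

/-- The coordinate expression of `ω` as a bilinear map. -/
def omB (e : OpenPartialHomeomorph M V) (x : V) : V →ₗ[ℝ] V →ₗ[ℝ] ℝ :=
  LinearMap.mk₂ ℝ (fun v w => A.omC e x v w)
    (fun v v' w => by
      simp only [AlmostKahler.omC, frame_add, map_add, add_apply])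
    (fun c v w => by
      simp only [AlmostKahler.omC, frame_smul, map_smul, smul_apply])
    (fun v w w' => by simp only [AlmostKahler.omC, frame_add, map_add])
    (fun c v w => by simp only [AlmostKahler.omC, frame_smul, map_smul])

/-- The coordinate expression of `g_J` as a bilinear map. -/
def gB (e : OpenPartialHomeomorph M V) (x : V) : V →ₗ[ℝ] V →ₗ[ℝ] ℝ :=
  LinearMap.mk₂ ℝ (fun v w => A.gC e x v w)
    (fun v v' w => by
      simp only [AlmostKahler.gC, frame_add, map_add, add_apply])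
    (fun c v w => by
      simp only [AlmostKahler.gC, frame_smul, map_smul, smul_apply])
    (fun v w w' => by simp only [AlmostKahler.gC, frame_add, map_add])
    (fun c v w => by simp only [AlmostKahler.gC, frame_smul, map_smul])

theorem bil_expand [FiniteDimensional ℝ V] (B : V →ₗ[ℝ] V →ₗ[ℝ] ℝ) (v w : V) :
    B v w = ∑ i, ∑ j, (Module.finBasis ℝ V).repr v i * ((Module.finBasis ℝ V).repr w j *
      B (Module.finBasis ℝ V i) (Module.finBasis ℝ V j)) := by
  conv_lhs => rw [← (Module.finBasis ℝ V).sum_repr v, ← (Module.finBasis ℝ V).sum_repr w]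
  simp only [map_sum, map_smul, LinearMap.sum_apply, LinearMap.smul_apply, smul_eq_mul,
    Finset.mul_sum]
  rw [Finset.sum_comm]
  exact Finset.sum_congr rfl fun i _ => Finset.sum_congr rfl fun j _ => by ring

theorem cont_bil [FiniteDimensional ℝ V] {X : Type*} [TopologicalSpace X] {s : Set X} {z₀ : X}
    (B : X → V →ₗ[ℝ] V →ₗ[ℝ] ℝ) (v w : X → V)
    (hB : ∀ a b : V, ContinuousWithinAt (fun z => B z a b) s z₀)
    (hv : ContinuousWithinAt v s z₀) (hw : ContinuousWithinAt w s z₀) :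
    ContinuousWithinAt (fun z => B z (v z) (w z)) s z₀ := by
  have h : (fun z => B z (v z) (w z)) = fun z => ∑ i, ∑ j,
      (Module.finBasis ℝ V).repr (v z) i * ((Module.finBasis ℝ V).repr (w z) j *
      B z (Module.finBasis ℝ V i) (Module.finBasis ℝ V j)) := by
    funext z
    exact bil_expand _ _ _
  rw [h]
  have hc : ∀ i, Continuous fun x : V => (Module.finBasis ℝ V).repr x i := fun i =>
    LinearMap.continuous_of_finiteDimensional ((Module.finBasis ℝ V).coord i)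
  refine tendsto_finsetSum _ fun i _ => tendsto_finsetSum _ fun j _ => ?_
  have h1 : ContinuousWithinAt (fun z => (Module.finBasis ℝ V).repr (v z) i) s z₀ :=
    (hc i).continuousAt.comp_continuousWithinAt hv
  have h2 : ContinuousWithinAt (fun z => (Module.finBasis ℝ V).repr (w z) j) s z₀ :=
    (hc j).continuousAt.comp_continuousWithinAt hw
  exact h1.mul (h2.mul (hB _ _))

end

section

variable {V : Type u} [NormedAddCommGroup V] [InnerProductSpace ℝ V]
  {M : Type v} [MetricSpace M] [ChartedSpace V M] (A : AlmostKahler V M)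

theorem chart_mdiff {e : OpenPartialHomeomorph M V} (he : e ∈ Charts V M) :
    e.MDifferentiable 𝓘(ℝ, V) 𝓘(ℝ, V) :=
  ⟨(contMDiffOn_of_mem_maximalAtlas he).mdifferentiableOn (by simp),
    (contMDiffOn_symm_of_mem_maximalAtlas he).mdifferentiableOn (by simp)⟩

theorem frame_surj {e : OpenPartialHomeomorph M V} (he : e ∈ Charts V M) {p : M}
    (hp : p ∈ e.source) (a : V) : ∃ ξ : V, (frame e (e p) ξ : V) = a := by
  have h := (chart_mdiff he).symm_comp_deriv hp
  refine ⟨mfderiv 𝓘(ℝ, V) 𝓘(ℝ, V) e p a, ?_⟩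
  have h2 := DFunLike.congr_fun h a
  exact h2

theorem chart_smooth {e : OpenPartialHomeomorph M V} (he : e ∈ Charts V M) {u : ℂ → M}
    (hu : ContMDiffOn 𝓘(ℝ, ℂ) 𝓘(ℝ, V) ∞ u Dom) {z : ℂ} (hz : z ∈ Dom) (hs : u z ∈ e.source) :
    ContDiffWithinAt ℝ ∞ (fun z => e (u z)) Dom z := by
  have h := (contMDiffAt_of_mem_maximalAtlas he hs).comp_contMDiffWithinAt z (hu z hz)
  exact contMDiffWithinAt_iff_contDiffWithinAt.1 h

theorem mem_source_nhds {e : OpenPartialHomeomorph M V} {u : ℂ → M}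
    (hu : ContMDiffOn 𝓘(ℝ, ℂ) 𝓘(ℝ, V) ∞ u Dom) {z : ℂ} (hz : z ∈ Dom) (hs : u z ∈ e.source) :
    ∀ᶠ z' in 𝓝[Dom] z, u z' ∈ e.source :=
  (hu z hz).continuousWithinAt.eventually (e.open_source.mem_nhds hs)

theorem mfd_eq {e : OpenPartialHomeomorph M V} (he : e ∈ Charts V M) {u : ℂ → M}
    (hu : ContMDiffOn 𝓘(ℝ, ℂ) 𝓘(ℝ, V) ∞ u Dom) {z : ℂ} (hz : z ∈ Dom) (hs : u z ∈ e.source)
    (h : ℂ) : (mfderivWithin 𝓘(ℝ, ℂ) 𝓘(ℝ, V) u Dom z h : V) =
      (frame e (e (u z)) (fderivWithin ℝ (fun z => e (u z)) Dom z h) : V) := by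
  have h1 : u =ᶠ[𝓝[Dom] z] (e.symm ∘ fun z => e (u z)) := by
    filter_upwards [mem_source_nhds hu hz hs] with z' hz'
    exact (e.left_inv hz').symm
  have h2 := h1.mfderivWithin_eq (I := 𝓘(ℝ, ℂ)) (I' := 𝓘(ℝ, V)) (e.left_inv hs).symm
  have h3 : MDifferentiableWithinAt 𝓘(ℝ, ℂ) 𝓘(ℝ, V) (fun z => e (u z)) Dom z :=
    ((chart_smooth he hu hz hs).contMDiffWithinAt).mdifferentiableWithinAt (by simp)
  have h4 := mfderiv_comp_mfderivWithin (I := 𝓘(ℝ, ℂ)) (I' := 𝓘(ℝ, V)) (I'' := 𝓘(ℝ, V)) z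
    ((chart_mdiff he).mdifferentiableAt_symm (e.map_source hs)) h3
    (uniqueDiffOn_Dom.uniqueMDiffOn z hz)
  have h5 : mfderivWithin 𝓘(ℝ, ℂ) 𝓘(ℝ, V) (fun z => e (u z)) Dom z =
      fderivWithin ℝ (fun z => e (u z)) Dom z := mfderivWithin_eq_fderivWithin
  rw [h5] at h4
  have h6 := h2.trans h4
  exact DFunLike.congr_fun h6 h

theorem om_eq {e : OpenPartialHomeomorph M V} (he : e ∈ Charts V M) {u : ℂ → M}
    (hu : ContMDiffOn 𝓘(ℝ, ℂ) 𝓘(ℝ, V) ∞ u Dom) {z : ℂ} (hz : z ∈ Dom) (hs : u z ∈ e.source)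
    (ξ : V) (h : ℂ) :
    A.om (u z) (frame e (e (u z)) ξ : V) (mfderivWithin 𝓘(ℝ, ℂ) 𝓘(ℝ, V) u Dom z h) =
      A.omC e (e (u z)) ξ (fderivWithin ℝ (fun z => e (u z)) Dom z h) := by
  unfold AlmostKahler.omC
  refine Eq.trans ?_ (om_congr A (e.left_inv hs).symm _ _)
  have := mfd_eq he hu hz hs h
  exact congrArg (fun t : V => A.om (u z) (frame e (e (u z)) ξ : V) t) this

theorem g_eq {e : OpenPartialHomeomorph M V} (he : e ∈ Charts V M) {u : ℂ → M}
    (hu : ContMDiffOn 𝓘(ℝ, ℂ) 𝓘(ℝ, V) ∞ u Dom) {z : ℂ} (hz : z ∈ Dom) (hs : u z ∈ e.source)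
    (ξ : V) (h : ℂ) :
    A.om (u z) (frame e (e (u z)) ξ : V) (A.J (u z)
      (mfderivWithin 𝓘(ℝ, ℂ) 𝓘(ℝ, V) u Dom z h)) =
      A.gC e (e (u z)) ξ (fderivWithin ℝ (fun z => e (u z)) Dom z h) := by
  unfold AlmostKahler.gC
  refine Eq.trans ?_ (g_congr A (e.left_inv hs).symm _ _)
  have := mfd_eq he hu hz hs h
  exact congrArg (fun t : V => A.om (u z) (frame e (e (u z)) ξ : V) (A.J (u z) t)) this

theorem gg_eq {e : OpenPartialHomeomorph M V} (he : e ∈ Charts V M) {u : ℂ → M}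
    (hu : ContMDiffOn 𝓘(ℝ, ℂ) 𝓘(ℝ, V) ∞ u Dom) {z : ℂ} (hz : z ∈ Dom) (hs : u z ∈ e.source)
    (h : ℂ) :
    A.om (u z) (mfderivWithin 𝓘(ℝ, ℂ) 𝓘(ℝ, V) u Dom z h) (A.J (u z)
      (mfderivWithin 𝓘(ℝ, ℂ) 𝓘(ℝ, V) u Dom z h)) =
      A.gC e (e (u z)) (fderivWithin ℝ (fun z => e (u z)) Dom z h)
        (fderivWithin ℝ (fun z => e (u z)) Dom z h) := by
  unfold AlmostKahler.gC
  refine Eq.trans ?_ (g_congr A (e.left_inv hs).symm _ _)
  have := mfd_eq he hu hz hs h
  exact congrArg (fun t : V => A.om (u z) t (A.J (u z) t)) this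

/-- Continuity of the derivative of the coordinate expression. -/
theorem cont_fderiv {e : OpenPartialHomeomorph M V} (he : e ∈ Charts V M) {u : ℂ → M}
    (hu : ContMDiffOn 𝓘(ℝ, ℂ) 𝓘(ℝ, V) ∞ u Dom) {z : ℂ} (hz : z ∈ Dom) (hs : u z ∈ e.source)
    (h : ℂ) :
    ContinuousWithinAt (fun z' => fderivWithin ℝ (fun z => e (u z)) Dom z' h) Dom z := by
  have h1 := (chart_smooth he hu hz hs).fderivWithin_right (m := 0) uniqueDiffOn_Dom
    (by simp) hz
  exact h1.continuousWithinAt.clm_apply continuousWithinAt_const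

theorem cont_coord {e : OpenPartialHomeomorph M V} (he : e ∈ Charts V M) {u : ℂ → M}
    (hu : ContMDiffOn 𝓘(ℝ, ℂ) 𝓘(ℝ, V) ∞ u Dom) {z : ℂ} (hz : z ∈ Dom) (hs : u z ∈ e.source) :
    ContinuousWithinAt (fun z => e (u z)) Dom z :=
  (chart_smooth he hu hz hs).continuousWithinAt

theorem cont_omC {e : OpenPartialHomeomorph M V} (he : e ∈ Charts V M) {u : ℂ → M}
    (hu : ContMDiffOn 𝓘(ℝ, ℂ) 𝓘(ℝ, V) ∞ u Dom) {z : ℂ} (hz : z ∈ Dom) (hs : u z ∈ e.source)
    (a b : V) : ContinuousWithinAt (fun z => omB A e (e (u z)) a b) Dom z := by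
  have h1 : ContinuousAt (fun x => A.om (e.symm x) (frame e x a) (frame e x b)) (e (u z)) :=
    (A.smooth_om e he a b).continuousOn.continuousAt (e.open_target.mem_nhds (e.map_source hs))
  exact ContinuousAt.comp_continuousWithinAt (f := fun z => e (u z)) h1 (cont_coord he hu hz hs)

theorem cont_gC {e : OpenPartialHomeomorph M V} (he : e ∈ Charts V M) {u : ℂ → M}
    (hu : ContMDiffOn 𝓘(ℝ, ℂ) 𝓘(ℝ, V) ∞ u Dom) {z : ℂ} (hz : z ∈ Dom) (hs : u z ∈ e.source)
    (a b : V) : ContinuousWithinAt (fun z => gB A e (e (u z)) a b) Dom z := by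
  have h1 : ContinuousAt (fun x => A.om (e.symm x) (frame e x a) (A.J (e.symm x) (frame e x b)))
      (e (u z)) :=
    (A.smooth_g e he a b).continuousOn.continuousAt (e.open_target.mem_nhds (e.map_source hs))
  exact ContinuousAt.comp_continuousWithinAt (f := fun z => e (u z)) h1 (cont_coord he hu hz hs)

/-- The Cauchy-Riemann equation within `Dom`. -/
theorem hol_Dom [FiniteDimensional ℝ V] [IsManifold 𝓘(ℝ, V) ∞ M] {u : ℂ → M}
    (hu : ContMDiffOn 𝓘(ℝ, ℂ) 𝓘(ℝ, V) ∞ u Dom)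
    (hol : ∀ z ∈ UH, ∀ h : ℂ, mfderiv 𝓘(ℝ, ℂ) 𝓘(ℝ, V) u z (Complex.I * h) =
      A.J (u z) (mfderiv 𝓘(ℝ, ℂ) 𝓘(ℝ, V) u z h)) {z : ℂ} (hz : z ∈ Dom) (h : ℂ) :
    mfderivWithin 𝓘(ℝ, ℂ) 𝓘(ℝ, V) u Dom z (Complex.I * h) =
      A.J (u z) (mfderivWithin 𝓘(ℝ, ℂ) 𝓘(ℝ, V) u Dom z h) := by
  have he : chartAt V (u z) ∈ Charts V M := IsManifold.chart_mem_maximalAtlas (u z)
  have hs : u z ∈ (chartAt V (u z)).source := mem_chart_source V (u z)
  generalize chartAt V (u z) = e at he hs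
  -- the two sides, paired with a coordinate vector
  have key : ∀ ξ : V, A.omC e (e (u z)) ξ (fderivWithin ℝ (fun z => e (u z)) Dom z
      (Complex.I * h)) = A.gC e (e (u z)) ξ (fderivWithin ℝ (fun z => e (u z)) Dom z h) := by
    intro ξ
    have h1 : ContinuousWithinAt (fun z' => omB A e (e (u z')) ξ
        (fderivWithin ℝ (fun z => e (u z)) Dom z' (Complex.I * h))) Dom z :=
      cont_bil _ _ _ (fun a b => cont_omC A he hu hz hs a b) continuousWithinAt_const
        (cont_fderiv he hu hz hs _)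
    have h2 : ContinuousWithinAt (fun z' => gB A e (e (u z')) ξ
        (fderivWithin ℝ (fun z => e (u z)) Dom z' h)) Dom z :=
      cont_bil _ _ _ (fun a b => cont_gC A he hu hz hs a b) continuousWithinAt_const
        (cont_fderiv he hu hz hs _)
    have hne : (𝓝[UH] z).NeBot := mem_closure_iff_nhdsWithin_neBot.1 (mem_closure_UH hz)
    have hle : 𝓝[UH] z ≤ 𝓝[Dom] z := nhdsWithin_mono z UH_subset
    have heq : ∀ᶠ z' in 𝓝[UH] z, (gB A e (e (u z')) ξ
        (fderivWithin ℝ (fun z => e (u z)) Dom z' h)) = omB A e (e (u z')) ξ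
        (fderivWithin ℝ (fun z => e (u z)) Dom z' (Complex.I * h)) := by
      filter_upwards [hle (mem_source_nhds hu hz hs), self_mem_nhdsWithin] with z' hs' hz'
      have e1 := om_eq A he hu (UH_subset hz') hs' ξ (Complex.I * h)
      have e2 := g_eq A he hu (UH_subset hz') hs' ξ h
      have e3 := hol z' hz' h
      rw [← mfderivWithin_of_mem_nhds (dom_mem_nhds hz')] at e3
      rw [e3] at e1
      exact e2.symm.trans e1
    have h3 := h1.tendsto.mono_left hle
    have h4 := (h2.tendsto.mono_left hle).congr' heq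
    exact tendsto_nhds_unique h3 h4
  rw [← sub_eq_zero]
  refine eq_zero_of_om A _ _ ?_
  obtain ⟨ξ, hξ⟩ := frame_surj he hs (A.J (u z)
    (mfderivWithin 𝓘(ℝ, ℂ) 𝓘(ℝ, V) u Dom z (Complex.I * h) -
      A.J (u z) (mfderivWithin 𝓘(ℝ, ℂ) 𝓘(ℝ, V) u Dom z h)))
  have h5 := key ξ
  rw [← om_eq A he hu hz hs, ← g_eq A he hu hz hs, hξ, ← sub_eq_zero, ← map_sub] at h5
  exact h5

end

end PHOLB

theorem t_HOLB : S_HOLB.{u, v} := by
  intro V _ _ _ M _ _ _ A u hu hol
  have hmain : A.HolOn Dom u := ⟨hu, fun z hz h => PHOLB.hol_Dom A hu hol hz h⟩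
  refine ⟨hmain, ?_, ?_⟩
  · intro z hz
    have he : chartAt V (u z) ∈ Charts V M := IsManifold.chart_mem_maximalAtlas (u z)
    have hs : u z ∈ (chartAt V (u z)).source := mem_chart_source V (u z)
    generalize chartAt V (u z) = e at he hs
    have h1 : ContinuousWithinAt (fun z' => PHOLB.gB A e (e (u z'))
        (fderivWithin ℝ (fun z => e (u z)) Dom z' 1)
        (fderivWithin ℝ (fun z => e (u z)) Dom z' 1)) Dom z :=
      PHOLB.cont_bil _ _ _ (fun a b => PHOLB.cont_gC A he hu hz hs a b)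
        (PHOLB.cont_fderiv he hu hz hs _) (PHOLB.cont_fderiv he hu hz hs _)
    have h2 : ContinuousWithinAt (fun z' => Real.sqrt (PHOLB.gB A e (e (u z'))
        (fderivWithin ℝ (fun z => e (u z)) Dom z' 1)
        (fderivWithin ℝ (fun z => e (u z)) Dom z' 1))) Dom z :=
      Real.continuous_sqrt.continuousAt.comp_continuousWithinAt h1
    refine h2.congr_of_eventuallyEq ?_ ?_
    · filter_upwards [PHOLB.mem_source_nhds hu hz hs, self_mem_nhdsWithin] with z' hs' hz'
      exact congrArg Real.sqrt (PHOLB.gg_eq A he hu hz' hs' 1)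
    · exact congrArg Real.sqrt (PHOLB.gg_eq A he hu hz hs 1)
  · intro z hz
    have h1 := mfderivWithin_of_mem_nhds (I := 𝓘(ℝ, ℂ)) (I' := 𝓘(ℝ, V)) (f := u)
      (PHOLB.dom_mem_nhds hz)
    have h2 := hol z hz 1
    rw [mul_one] at h2
    unfold AlmostKahler.sp AlmostKahler.nrm
    rw [h1, h2, Real.sq_sqrt]
    by_cases h3 : mfderiv 𝓘(ℝ, ℂ) 𝓘(ℝ, V) u z (1:ℂ) = 0
    · rw [h3]
      simp
    · exact (A.pos _ _ h3).le

end Pool.Agent.H823.HC
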