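import Mathlib
import Pool.Agent.H823.HC.StmM

/-!
# Images of submanifolds under diffeomorphisms
-/

set_option autoImplicit false

open scoped Topology ContDiff Manifold
open Set Metric Filter MeasureTheory

universe u v w

namespace Pool.Agent.H823.HC

/-- IMG -/
theorem t_IMG : S_IMG.{u, v} := by
  intro V _ _ _ M _ _ _ φ φi n L hφ hφi h1 h2 hL
  rintro _ ⟨y, hy, rfl⟩
  obtain ⟨e, he, hye, W, hW, hsl⟩ := hL y hy
  -- the homeomorphism
  obtain ⟨Φ, hΦ⟩ : ∃ Φ : M ≃ₜ M, (∀ x, Φ x = φi x) ∧ ∀ x, Φ.symm x = φ x :=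
    ⟨{ toFun := φi, invFun := φ, left_inv := h2, right_inv := h1,
       continuous_toFun := hφi.continuous, continuous_invFun := hφ.continuous },
      fun _ => rfl, fun _ => rfl⟩
  have hfun : ∀ x, (Φ.toOpenPartialHomeomorph.trans e) x = e (φi x) := fun x => by
    rw [OpenPartialHomeomorph.coe_trans, Function.comp_apply, Homeomorph.toOpenPartialHomeomorph_apply, hΦ.1]
  have hsrc : (Φ.toOpenPartialHomeomorph.trans e).source = φi ⁻¹' e.source := by
    ext x
    rw [OpenPartialHomeomorph.trans_source]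
    simp [hΦ.1]
  have htgt : (Φ.toOpenPartialHomeomorph.trans e).target = e.target := by
    ext x
    rw [OpenPartialHomeomorph.trans_target]
    simp
  have hinv : ∀ x, (Φ.toOpenPartialHomeomorph.trans e).symm x = φ (e.symm x) := fun x => by
    rw [OpenPartialHomeomorph.trans_symm_eq_symm_trans_symm, OpenPartialHomeomorph.coe_trans,
      Function.comp_apply]
    exact hΦ.2 _
  refine ⟨Φ.toOpenPartialHomeomorph.trans e, ?_, ?_, W, hW, ?_⟩
  · refine OpenPartialHomeomorph.mem_maximalAtlas_of_contMDiffOn (I := 𝓘(ℝ, V)) (n := ∞)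
      (Φ.toOpenPartialHomeomorph.trans e) ?_ ?_
    · rw [hsrc]
      have h3 : ContMDiffOn 𝓘(ℝ, V) 𝓘(ℝ, V) ∞ (fun x => e (φi x)) (φi ⁻¹' e.source) :=
        (contMDiffOn_of_mem_maximalAtlas he).comp hφi.contMDiffOn (fun x hx => hx)
      exact h3.congr fun x _ => hfun x
    · rw [htgt]
      have h3 : ContMDiffOn 𝓘(ℝ, V) 𝓘(ℝ, V) ∞ (fun x => φ (e.symm x)) e.target :=
        hφ.comp_contMDiffOn (contMDiffOn_symm_of_mem_maximalAtlas he)
      exact h3.congr fun x _ => hinv x
  · rw [hsrc, mem_preimage, h1]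
    exact hye
  · intro z hz
    rw [hsrc, mem_preimage] at hz
    rw [hfun, ← hsl _ hz]
    constructor
    · rintro ⟨x, hx, rfl⟩
      rwa [h1]
    · intro h
      exact ⟨φi z, h, h2 z⟩

end Pool.Agent.H823.HC
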