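import Mathlib
import Pool.Agent.H823.HC.StmHP

/-!
# Project HC: the isoperimetric inequality for all the interior disks
-/

set_option autoImplicit false

open scoped Topology ContDiff Manifold
open Set Metric Filter MeasureTheory

noncomputable section

namespace Pool.Agent.H823.HC

universe u v w

namespace PINT

theorem norm_circ (θ : ℝ) : ‖circ θ‖ = 1 := Complex.norm_exp_ofReal_mul_I θ

theorem circ_periodic : Function.Periodic circ (2 * Real.pi) := by
  intro θ
  unfold circ
  push_cast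
  rw [add_mul, Complex.exp_add, Complex.exp_two_pi_mul_I, mul_one]

theorem circ_zero : circ 0 = 1 := by
  unfold circ
  simp

theorem contDiff_circ : ContDiff ℝ ∞ circ := by
  unfold circ
  exact Complex.contDiff_exp.comp (Complex.ofRealCLM.contDiff.mul contDiff_const)

theorem hasDerivAt_circ (θ : ℝ) : HasDerivAt circ (circ θ * Complex.I) θ := by
  have h1 : HasDerivAt (fun t : ℝ => (t : ℂ) * Complex.I) Complex.I θ := by
    have := (Complex.ofRealCLM.hasDerivAt (x := θ)).mul_const Complex.I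
    simpa using this
  exact h1.cexp

/-- the circle as a curve -/
theorem contDiff_arc (z : ℂ) (s : ℝ) : ContDiff ℝ ∞ (fun θ : ℝ => z + s * circ θ) :=
  contDiff_const.add (contDiff_const.mul contDiff_circ)

theorem norm_deriv_arc (z : ℂ) {s : ℝ} (hs : 0 ≤ s) (θ : ℝ) :
    ‖deriv (fun θ : ℝ => z + s * circ θ) θ‖ = s := by
  have h := ((hasDerivAt_circ θ).const_mul (s : ℂ)).const_add z
  rw [h.deriv, norm_mul, norm_mul, norm_circ, Complex.norm_I, Complex.norm_real,
    Real.norm_of_nonneg hs, mul_one, mul_one]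

theorem contDiff_ray (z c : ℂ) : ContDiff ℝ ∞ (fun t : ℝ => z + t * c) :=
  contDiff_const.add (Complex.ofRealCLM.contDiff.mul contDiff_const)

theorem norm_deriv_ray (z c : ℂ) (t : ℝ) : ‖deriv (fun t : ℝ => z + t * c) t‖ = ‖c‖ := by
  have h : HasDerivAt (fun t : ℝ => z + (t : ℂ) * c) c t := by
    have := ((Complex.ofRealCLM.hasDerivAt (x := t)).mul_const c).const_add z
    simpa using this
  rw [h.deriv]

theorem UH_sub : UH ⊆ Dom := fun _ hz => Or.inl hz

theorem UH_subc : UH ⊆ UHc := fun z (hz : 0 < z.im) => (le_of_lt hz : 0 ≤ z.im)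

section

variable {X : Type w} [MetricSpace X] {u : ℂ → X} {φ : ℂ → ℝ} {κ C₁ E : ℝ}

/-- the length of the circle -/
def ln (φ : ℂ → ℝ) (z : ℂ) (s : ℝ) : ℝ := ∫ θ in (0:ℝ)..(2 * Real.pi), φ (z + s * circ θ) * s

theorem ln_eq (φ : ℂ → ℝ) (z : ℂ) (s α : ℝ) :
    ∫ θ in α..(α + 2 * Real.pi), φ (z + s * circ θ) * s = ln φ z s := by
  have hp : Function.Periodic (fun θ : ℝ => φ (z + s * circ θ) * s) (2 * Real.pi) := by
    intro θ
    simp only [circ_periodic θ]
  have := hp.intervalIntegral_add_eq α 0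
  rw [zero_add] at this
  exact this

theorem ln_nonneg (h : HP u φ κ C₁ E) (z : ℂ) {s : ℝ} (hs : 0 ≤ s) : 0 ≤ ln φ z s :=
  intervalIntegral.integral_nonneg (by positivity) fun θ _ => mul_nonneg (h.nonneg _) hs

theorem area_le (h : HP u φ κ C₁ E) {z : ℂ} {s : ℝ} (hs : closedBall z s ⊆ UH) :
    ∫ w in closedBall z s, φ w ^ 2 ≤ E := by
  refine le_trans ?_ h.energy
  exact setIntegral_mono_set h.int (Filter.Eventually.of_forall fun w => sq_nonneg _)
    (Filter.Eventually.of_forall hs)

theorem arc_mem {z : ℂ} {s : ℝ} (hs : 0 ≤ s) (θ : ℝ) : z + s * circ θ ∈ closedBall z s := by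
  rw [mem_closedBall, dist_eq_norm, add_sub_cancel_left, norm_mul, norm_circ, mul_one,
    Complex.norm_real, Real.norm_of_nonneg hs]

/-- points of the boundary circle -/
theorem circle_le (h : HP u φ κ C₁ E) {z : ℂ} {s : ℝ} (hs : 0 < s) (hz : closedBall z s ⊆ UH)
    {w : ℂ} (hw : ‖w - z‖ = s) : dist (u w) (u (z + s)) ≤ ln φ z s := by
  -- the angle
  obtain ⟨θ, hθ0, hθ1, hθ⟩ : ∃ θ : ℝ, 0 ≤ θ ∧ θ ≤ 2 * Real.pi ∧ w = z + s * circ θ := by
    have h1 : w - z = s * circ (Complex.arg (w - z)) := by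
      unfold circ
      rw [← hw, Complex.norm_mul_exp_arg_mul_I]
    by_cases h0 : 0 ≤ Complex.arg (w - z)
    · refine ⟨Complex.arg (w - z), h0, ?_, ?_⟩
      · have := Complex.arg_le_pi (w - z)
        have := Real.pi_pos
        linarith
      · rw [← h1]; ring
    · refine ⟨Complex.arg (w - z) + 2 * Real.pi, ?_, ?_, ?_⟩
      · have := Complex.neg_pi_lt_arg (w - z)
        have := Real.pi_pos
        linarith
      · linarith
      · rw [circ_periodic, ← h1]; ring
  have h2 := h.len (fun θ : ℝ => z + s * circ θ) (contDiff_arc z s) 0 θ hθ0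
    (fun t _ => UH_sub (hz (arc_mem hs.le t)))
  simp only [norm_deriv_arc z hs.le] at h2
  rw [circ_zero, mul_one, ← hθ, dist_comm] at h2
  refine h2.trans ?_
  have hcont : Continuous fun θ : ℝ => φ (z + s * circ θ) * s := by
    refine Continuous.mul ?_ continuous_const
    exact (h.cont.mono UH_sub).comp_continuous (contDiff_arc z s).continuous
      fun t => hz (arc_mem hs.le t)
  unfold ln
  rw [← intervalIntegral.integral_add_adjacent_intervals (hcont.intervalIntegrable 0 θ)
    (hcont.intervalIntegrable θ (2 * Real.pi))]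
  have h3 : 0 ≤ ∫ t in θ..(2 * Real.pi), φ (z + s * circ t) * s :=
    intervalIntegral.integral_nonneg hθ1 fun t _ => mul_nonneg (h.nonneg _) hs.le
  linarith

/-- integral along a segment which stays in the disk up to the exit time -/
theorem ray_le (h : HP u φ κ C₁ E) {z z' : ℂ} {s T τ θ : ℝ} (hz : closedBall z s ⊆ UH)
    (hT : 0 < T) (hτ0 : 0 < τ) (hτ : τ ≤ 4 * T)
    (hT' : ∀ t ∈ Icc 0 T, z' + t * circ θ ∈ closedBall z s)
    (hτ' : ∀ t ∈ Icc 0 τ, z' + t * circ θ ∈ closedBall z s) :
    dist (u z') (u (z' + τ * circ θ)) ≤ (∫ t in (0:ℝ)..T, φ (z' + t * circ θ)) +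
      (∫ t in T..(4 * T), (closedBall z s).indicator φ (z' + t * circ θ)) := by
  have h2 := h.len (fun t : ℝ => z' + t * circ θ) (contDiff_ray z' (circ θ)) 0 τ hτ0.le
    (fun t ht => UH_sub (hz (hτ' t ht)))
  simp only [norm_deriv_ray, norm_circ, mul_one, Complex.ofReal_zero, zero_mul, add_zero] at h2
  refine h2.trans ?_
  have hγ : Continuous fun t : ℝ => z' + t * circ θ := (contDiff_ray z' (circ θ)).continuous
  have hc : ∀ a b : ℝ, (∀ t ∈ Icc a b, z' + t * circ θ ∈ closedBall z s) → a ≤ b →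
      IntervalIntegrable (fun t : ℝ => φ (z' + t * circ θ)) volume a b := by
    intro a b hab hle
    apply ContinuousOn.intervalIntegrable
    rw [uIcc_of_le hle]
    exact (h.cont.mono UH_sub).comp hγ.continuousOn fun t ht => hz (hab t ht)
  have hnn : ∀ t : ℝ, 0 ≤ (closedBall z s).indicator φ (z' + t * circ θ) := fun t =>
    indicator_nonneg (fun w _ => h.nonneg w) _
  by_cases hle : τ ≤ T
  · have e1 : ∫ t in (0:ℝ)..T, φ (z' + t * circ θ) = (∫ t in (0:ℝ)..τ, φ (z' + t * circ θ)) +
        ∫ t in τ..T, φ (z' + t * circ θ) := by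
      rw [intervalIntegral.integral_add_adjacent_intervals (hc 0 τ hτ' hτ0.le)
        (hc τ T (fun t ht => hT' t ⟨hτ0.le.trans ht.1, ht.2⟩) hle)]
    have e2 : 0 ≤ ∫ t in τ..T, φ (z' + t * circ θ) :=
      intervalIntegral.integral_nonneg hle fun t _ => h.nonneg _
    have e3 : 0 ≤ ∫ t in T..(4 * T), (closedBall z s).indicator φ (z' + t * circ θ) :=
      intervalIntegral.integral_nonneg (by linarith) fun t _ => hnn t
    linarith
  · push Not at hle
    -- integrability of the indicator
    have hI : ∀ a b : ℝ, a ≤ b → IntervalIntegrable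
        (fun t : ℝ => (closedBall z s).indicator φ (z' + t * circ θ)) volume a b := by
      intro a b hab
      rw [intervalIntegrable_iff_integrableOn_Icc_of_le hab]
      have hmeas : MeasurableSet ((fun t : ℝ => z' + t * circ θ) ⁻¹' closedBall z s) :=
        (isClosed_closedBall.preimage hγ).measurableSet
      have e : (fun t : ℝ => (closedBall z s).indicator φ (z' + t * circ θ)) =
          ((fun t : ℝ => z' + t * circ θ) ⁻¹' closedBall z s).indicator
            (fun t : ℝ => φ (z' + t * circ θ)) := by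
        funext t
        by_cases ht : z' + t * circ θ ∈ closedBall z s
        · rw [indicator_of_mem ht, indicator_of_mem (by exact ht)]
        · rw [indicator_of_notMem ht, indicator_of_notMem (by exact ht)]
      rw [e, IntegrableOn, integrable_indicator_iff hmeas, IntegrableOn,
        Measure.restrict_restrict hmeas]
      have hcomp : IsCompact (((fun t : ℝ => z' + t * circ θ) ⁻¹' closedBall z s) ∩ Icc a b) :=
        isCompact_Icc.inter_left (isClosed_closedBall.preimage hγ)
      refine ContinuousOn.integrableOn_compact hcomp ?_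
      exact (h.cont.mono UH_sub).comp hγ.continuousOn fun t ht => hz ht.1
    have e1 : ∫ t in (0:ℝ)..τ, φ (z' + t * circ θ) = (∫ t in (0:ℝ)..T, φ (z' + t * circ θ)) +
        ∫ t in T..τ, φ (z' + t * circ θ) := by
      rw [intervalIntegral.integral_add_adjacent_intervals (hc 0 T hT' hT.le)
        (hc T τ (fun t ht => hτ' t ⟨hT.le.trans ht.1, ht.2⟩) hle.le)]
    have e2 : ∫ t in T..τ, φ (z' + t * circ θ) =
        ∫ t in T..τ, (closedBall z s).indicator φ (z' + t * circ θ) := by
      refine intervalIntegral.integral_congr fun t ht => ?_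
      rw [uIcc_of_le hle.le] at ht
      exact (indicator_of_mem (hτ' t ⟨hT.le.trans ht.1, ht.2⟩) φ).symm
    have e3 : ∫ t in T..(4 * T), (closedBall z s).indicator φ (z' + t * circ θ) =
        (∫ t in T..τ, (closedBall z s).indicator φ (z' + t * circ θ)) +
        ∫ t in τ..(4 * T), (closedBall z s).indicator φ (z' + t * circ θ) := by
      rw [intervalIntegral.integral_add_adjacent_intervals (hI T τ hle.le) (hI τ (4 * T) hτ)]
    have e4 : 0 ≤ ∫ t in τ..(4 * T), (closedBall z s).indicator φ (z' + t * circ θ) :=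
      intervalIntegral.integral_nonneg hτ fun t _ => hnn t
    linarith

/-- the step -/
theorem core (hPOLD : S_POLD) (hSELECT : S_SELECT) (hEXIT : S_EXIT)
    (hκ : 0 < κ) (hC : 1 ≤ C₁) (h : HP u φ κ C₁ E) (hE : E ≤ cz κ C₁)
    {z : ℂ} {s : ℝ} (hs : 0 < s) (hz : closedBall z s ⊆ UH) (hl : ln φ z s ≤ κ / 4)
    (hQ : ∀ z' ∈ ball z s, ∀ t, 0 < t → t ≤ (s - ‖z' - z‖) / 2 →
      ∫ w in closedBall z' t, φ w ^ 2 ≤ C₁ * (ln φ z' t) ^ 2) :
    ∀ w ∈ closedBall z s, dist (u w) (u (z + s)) < κ := by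
  have hpi := Real.pi_pos
  have hE0 : 0 ≤ E := le_trans (setIntegral_nonneg (measurableSet_lt measurable_const
    Complex.measurable_im) fun z _ => sq_nonneg _) h.energy
  have hsC : 0 < √C₁ := Real.sqrt_pos.2 (by linarith)
  have hsE : 20 * √C₁ * √E ≤ κ / 8 := by
    have h1 : E ≤ (κ / (8 * (20 * √C₁))) ^ 2 := hE.trans (min_le_right _ _)
    have h2 : √E ≤ κ / (8 * (20 * √C₁)) := Real.sqrt_le_iff.2 ⟨by positivity, h1⟩
    calc 20 * √C₁ * √E ≤ 20 * √C₁ * (κ / (8 * (20 * √C₁))) :=
          mul_le_mul_of_nonneg_left h2 (by positivity)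
      _ = κ / 8 := by field_simp
  intro w hw
  rw [mem_closedBall, dist_eq_norm] at hw
  rcases hw.lt_or_eq with hlt | heq
  · set θ₀ := Complex.arg (w - z) with hθ₀
    have hwz : w - z = ‖w - z‖ * circ θ₀ := by
      unfold circ
      rw [hθ₀, Complex.norm_mul_exp_arg_mul_I]
    set T := (s - ‖w - z‖) / 2 with hT
    have hT0 : 0 < T := by rw [hT]; linarith
    have hball : ∀ t ∈ Icc 0 T, ∀ v : ℂ, ‖v‖ = 1 → w + t * v ∈ closedBall z s := by
      intro t ht v hv
      rw [mem_closedBall, dist_eq_norm]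
      calc ‖w + t * v - z‖ = ‖(w - z) + t * v‖ := by congr 1; ring
        _ ≤ ‖w - z‖ + ‖(t : ℂ) * v‖ := norm_add_le _ _
        _ = ‖w - z‖ + t := by
            rw [norm_mul, hv, mul_one, Complex.norm_real, Real.norm_of_nonneg ht.1]
        _ ≤ s := by
            have := ht.2
            rw [hT] at this
            have h3 := norm_nonneg (w - z)
            linarith
    have hsub : ∀ t, 0 < t → t ≤ T → closedBall w t ⊆ closedBall z s := by
      intro t ht0 ht
      apply closedBall_subset_closedBall'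
      rw [dist_eq_norm]
      rw [hT] at ht
      linarith
    obtain ⟨θ, hθ, hsum⟩ := hSELECT φ C₁ E hC h.cont h.nonneg h.int h.energy w (θ₀ - Real.pi)
      (2 * Real.pi) T (θ₀ - Real.pi / 3) (θ₀ + Real.pi / 3) (closedBall z s) hT0 (by positivity)
      le_rfl (by linarith) (by linarith) (by linarith)
      (fun t ht θ _ => UH_sub (hz (hball t ht _ (norm_circ θ))))
      (by
        intro t ht
        rw [ln_eq, ← hPOLD (fun v => φ v ^ 2) w t (θ₀ - Real.pi) ht.1
          (((h.cont.mono UH_sub).mono ((hsub t ht.1 ht.2).trans hz)).pow 2) (fun v => sq_nonneg _)]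
        exact hQ w (by rw [mem_ball, dist_eq_norm]; exact hlt) t ht.1 ht.2)
      (isCompact_closedBall z s) (hz.trans UH_sub)
    obtain ⟨τ, hτ, hτ1, hτ2⟩ := hEXIT z w s θ₀ θ hlt hwz (by
      rw [abs_le]
      constructor
      · linarith [hθ.1]
      · linarith [hθ.2])
    have hτ4 : τ ≤ 4 * T := by
      have := hτ.2
      rw [hT]
      linarith
    have h4 := ray_le h hz hT0 hτ.1 hτ4 (fun t ht => hball t ht _ (norm_circ θ)) hτ2
    have h5 := circle_le h hs hz hτ1
    calc dist (u w) (u (z + s)) ≤ dist (u w) (u (w + τ * circ θ)) +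
        dist (u (w + τ * circ θ)) (u (z + s)) := dist_triangle _ _ _
      _ < κ := by linarith
  · have h5 := circle_le h hs hz heq
    linarith

end

end PINT

open PINT in
theorem t_INT (hPOLD : S_POLD) (hSELECT : S_SELECT) (hEXIT : S_EXIT) : S_INT.{w} := by
  intro X _ u φ κ C₁ E hκ hC h hE
  have hEC : E ≤ C₁ * (κ / 4) ^ 2 := hE.trans (min_le_left _ _)
  -- the statement at the scale `r`
  have step : ∀ r : ℝ, (∀ (z : ℂ) (s : ℝ), 0 < s → s ≤ r → closedBall z s ⊆ UH →
      ln φ z s ≤ κ / 4 → ∫ w in closedBall z s, φ w ^ 2 ≤ C₁ * (ln φ z s) ^ 2) →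
      (∀ (z : ℂ) (s : ℝ), 0 < s → s ≤ 2 * r → closedBall z s ⊆ UH →
      ln φ z s ≤ κ / 4 → ∫ w in closedBall z s, φ w ^ 2 ≤ C₁ * (ln φ z s) ^ 2) := by
    intro r hr z s hs hsr hz hl
    refine h.iso_int z s hs hz (core hPOLD hSELECT hEXIT hκ hC h hE hs hz hl ?_)
    intro z' hz' t ht0 ht
    rw [mem_ball, dist_eq_norm] at hz'
    have h1 : closedBall z' t ⊆ UH := by
      refine Subset.trans ?_ hz
      apply closedBall_subset_closedBall'
      rw [dist_eq_norm]
      linarith
    by_cases h2 : ln φ z' t ≤ κ / 4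
    · refine hr z' t ht0 ?_ h1 h2
      have := norm_nonneg (z' - z)
      linarith
    · push Not at h2
      have h3 := area_le h h1
      have h4 : C₁ * (κ / 4) ^ 2 ≤ C₁ * (ln φ z' t) ^ 2 :=
        mul_le_mul_of_nonneg_left (pow_le_pow_left₀ (by positivity) h2.le 2) (by linarith)
      linarith
  -- small disks
  obtain ⟨δ, hδ, hunif⟩ := Metric.uniformContinuousOn_iff.1 h.unif κ hκ
  have base : ∀ (z : ℂ) (s : ℝ), 0 < s → s ≤ δ / 3 → closedBall z s ⊆ UH →
      ln φ z s ≤ κ / 4 → ∫ w in closedBall z s, φ w ^ 2 ≤ C₁ * (ln φ z s) ^ 2 := by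
    intro z s hs hsr hz hl
    refine h.iso_int z s hs hz fun w hw => ?_
    have h1 : z + s ∈ closedBall z s := by
      have := arc_mem (z := z) hs.le 0
      rwa [circ_zero, mul_one] at this
    refine hunif w (UH_subc (hz hw)) _ (UH_subc (hz h1)) ?_
    rw [mem_closedBall] at hw h1
    calc dist w (z + s) ≤ dist w z + dist (z + s) z := dist_triangle_right _ _ _
      _ ≤ s + s := add_le_add hw h1
      _ < δ := by linarith
  have all : ∀ n : ℕ, ∀ (z : ℂ) (s : ℝ), 0 < s → s ≤ 2 ^ n * (δ / 3) → closedBall z s ⊆ UH →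
      ln φ z s ≤ κ / 4 → ∫ w in closedBall z s, φ w ^ 2 ≤ C₁ * (ln φ z s) ^ 2 := by
    intro n
    induction n with
    | zero =>
      intro z s hs hsr
      rw [pow_zero, one_mul] at hsr
      exact base z s hs hsr
    | succ n ih =>
      intro z s hs hsr
      refine step _ ih z s hs ?_
      rw [pow_succ] at hsr
      linarith
  intro z s hs hz hl
  obtain ⟨n, hn⟩ := pow_unbounded_of_one_lt (s / (δ / 3)) (one_lt_two (α := ℝ))
  refine all n z s hs ?_ hz hl
  rw [div_lt_iff₀ (by positivity)] at hn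
  exact hn.le

end Pool.Agent.H823.HC
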