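import Mathlib
import Pool.Agent.H823.HC.StmM

open scoped Topology ContDiff Manifold
open Set Metric Filter MeasureTheory

noncomputable section

namespace Pool.Agent.H823.HC.PISOMH

universe u v

/-! ### The half disk -/

theorem Hc_eq (m ρ : ℝ) : Hc m ρ = closedBall (m : ℂ) ρ ∩ {z : ℂ | 0 ≤ z.im} := by
  ext z
  simp only [Hc, mem_ofPred_eq, mem_inter_iff, mem_closedBall, dist_eq_norm]

theorem Hc_closed (m ρ : ℝ) : IsClosed (Hc m ρ) := by
  rw [Hc_eq]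
  exact isClosed_closedBall.inter (isClosed_le continuous_const Complex.continuous_im)

theorem Hc_compact (m ρ : ℝ) : IsCompact (Hc m ρ) := by
  rw [Hc_eq]
  exact (isCompact_closedBall _ _).inter_right (isClosed_le continuous_const Complex.continuous_im)

theorem Hc_convex (m ρ : ℝ) : Convex ℝ (Hc m ρ) := by
  rw [Hc_eq]
  exact (convex_closedBall _ _).inter (convex_halfSpace_im_ge 0)

theorem Hc_interior (m ρ : ℝ) (hρ : 0 < ρ) : (interior (Hc m ρ)).Nonempty := by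
  have h1 : ball (m : ℂ) ρ ∩ {z : ℂ | 0 < z.im} ⊆ interior (Hc m ρ) := by
    apply interior_maximal
    · rw [Hc_eq]
      refine inter_subset_inter ball_subset_closedBall (fun z hz => ?_)
      simp only [mem_ofPred_eq] at hz ⊢
      exact hz.le
    · exact isOpen_ball.inter (isOpen_lt continuous_const Complex.continuous_im)
  refine ⟨(m : ℂ) + ((ρ / 2 : ℝ) : ℂ) * Complex.I, h1 ⟨?_, ?_⟩⟩
  · rw [mem_ball, dist_eq_norm, add_sub_cancel_left, norm_mul, Complex.norm_I, mul_one,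
      Complex.norm_real, Real.norm_eq_abs, abs_of_pos (by positivity)]
    linarith
  · simp only [mem_ofPred_eq, Complex.add_im, Complex.ofReal_im, Complex.mul_im, Complex.ofReal_re,
      Complex.I_im, Complex.I_re]
    linarith

theorem Hc_uniq (m ρ : ℝ) (hρ : 0 < ρ) : UniqueDiffOn ℝ (Hc m ρ) :=
  uniqueDiffOn_convex (Hc_convex m ρ) (Hc_interior m ρ hρ)

theorem norm_circ (θ : ℝ) : ‖circ θ‖ = 1 := Complex.norm_exp_ofReal_mul_I θ

theorem circ_im (θ : ℝ) : (circ θ).im = Real.sin θ := Complex.exp_ofReal_mul_I_im θ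

theorem continuous_circ : Continuous circ := by
  unfold circ; fun_prop

theorem mem_Hc_circ (m ρ : ℝ) (hρ : 0 < ρ) {θ : ℝ} (hθ : θ ∈ Icc (0:ℝ) Real.pi) :
    (m : ℂ) + ρ * circ θ ∈ Hc m ρ := by
  constructor
  · rw [add_sub_cancel_left, norm_mul, norm_circ, Complex.norm_real, Real.norm_eq_abs,
      abs_of_pos hρ, mul_one]
  · rw [Complex.add_im, Complex.ofReal_im, Complex.mul_im, Complex.ofReal_re, Complex.ofReal_im,
      circ_im]
    have := Real.sin_nonneg_of_mem_Icc hθ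
    nlinarith

theorem mem_Hc_real (m ρ : ℝ) {x : ℝ} (hx : x ∈ Icc (m - ρ) (m + ρ)) : (x : ℂ) ∈ Hc m ρ := by
  constructor
  · rw [← Complex.ofReal_sub, Complex.norm_real, Real.norm_eq_abs, abs_le]
    constructor <;> linarith [hx.1, hx.2]
  · rw [Complex.ofReal_im]

/-! ### The model -/

section flat

variable {V : Type u} [NormedAddCommGroup V] [InnerProductSpace ℝ V] [FiniteDimensional ℝ V]

/-- the displacement -/
def hh (T : Submodule ℝ V) (f : T → V) (x : V) : V :=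
  f (T.orthogonalProjectionOnto x) - (T.orthogonalProjectionOnto x : V)

/-- the data -/
structure Sheet (S : Set V) (R : ℝ) (T : Submodule ℝ V) (f : T → V) : Prop where
  smooth : ContDiffOn ℝ ∞ f (ball 0 R)
  zero : f 0 = 0
  sec : ∀ t ∈ ball (0:T) R, f t ∈ S ∧ T.orthogonalProjectionOnto (f t) = t
  slope : ∀ t ∈ ball (0:T) R, ∀ w : T, ‖fderiv ℝ f t w - w‖ ≤ (1 / 4) * ‖w‖

variable {S : Set V} {R : ℝ} {T : Submodule ℝ V} {f : T → V} (h : Sheet S R T f)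

theorem norm_P (T : Submodule ℝ V) (x : V) : ‖T.orthogonalProjectionOnto x‖ ≤ ‖x‖ := by
  have h1 := T.orthogonalProjectionOnto.le_opNorm x
  have h2 := T.orthogonalProjectionOnto_norm_le
  have h3 := norm_nonneg x
  nlinarith

theorem P_mem {R : ℝ} (T : Submodule ℝ V) {x : V} (hx : x ∈ ball (0:V) R) :
    T.orthogonalProjectionOnto x ∈ ball (0:T) R := by
  rw [mem_ball_zero_iff] at hx ⊢
  exact lt_of_le_of_lt (norm_P T x) hx

theorem P_coe (T : Submodule ℝ V) (t : T) : T.orthogonalProjectionOnto (t : V) = t :=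
  T.orthogonalProjectionOnto_mem_subspace_eq_self t

include h

theorem Sheet.diffAt {t : T} (ht : t ∈ ball (0:T) R) : DifferentiableAt ℝ f t :=
  (h.smooth.contDiffAt (isOpen_ball.mem_nhds ht)).differentiableAt (by norm_num)

theorem Sheet.g_fderiv {t : T} (ht : t ∈ ball (0:T) R) :
    HasFDerivAt (fun t : T => f t - (t : V)) (fderiv ℝ f t - T.subtypeL) t :=
  (h.diffAt ht).hasFDerivAt.sub T.subtypeL.hasFDerivAt

theorem Sheet.g_norm {t : T} (ht : t ∈ ball (0:T) R) :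
    ‖fderiv ℝ (fun t : T => f t - (t : V)) t‖ ≤ 1 / 4 := by
  rw [(h.g_fderiv ht).fderiv]
  refine ContinuousLinearMap.opNorm_le_bound _ (by norm_num) fun w => ?_
  exact h.slope t ht w

theorem Sheet.g_le {t : T} (ht : t ∈ ball (0:T) R) : ‖f t - (t : V)‖ ≤ (1 / 4) * ‖t‖ := by
  have h0 : (0:T) ∈ ball (0:T) R := by
    rw [mem_ball_zero_iff] at ht
    exact mem_ball_self (lt_of_le_of_lt (norm_nonneg _) ht)
  have := Convex.norm_image_sub_le_of_norm_fderiv_le (𝕜 := ℝ)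
    (f := fun t : T => f t - (t : V)) (s := ball (0:T) R) (C := 1 / 4)
    (fun x hx => (h.g_fderiv hx).differentiableAt) (fun x hx => h.g_norm hx)
    (convex_ball _ _) h0 ht
  simp only [h.zero, ZeroMemClass.coe_zero, sub_zero] at this
  exact this

theorem Sheet.hh_le {x : V} (hx : x ∈ ball (0:V) R) : ‖hh T f x‖ ≤ (1 / 4) * ‖x‖ := by
  have h1 := h.g_le (P_mem T hx)
  have h2 := norm_P T x
  unfold hh
  linarith

theorem Sheet.P_hh {x : V} (hx : x ∈ ball (0:V) R) :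
    T.orthogonalProjectionOnto (hh T f x) = 0 := by
  unfold hh
  rw [map_sub, (h.sec _ (P_mem T hx)).2, P_coe, sub_self]

theorem Sheet.hh_fderiv {x : V} (hx : x ∈ ball (0:V) R) :
    HasFDerivAt (hh T f) ((fderiv ℝ f (T.orthogonalProjectionOnto x) - T.subtypeL) ∘L
      T.orthogonalProjectionOnto) x :=
  HasFDerivAt.comp x (h.g_fderiv (P_mem T hx)) T.orthogonalProjectionOnto.hasFDerivAt

theorem Sheet.hh_fderiv_le {x : V} (hx : x ∈ ball (0:V) R) (w : V) :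
    ‖((fderiv ℝ f (T.orthogonalProjectionOnto x) - T.subtypeL) ∘L
      T.orthogonalProjectionOnto) w‖ ≤ (1 / 4) * ‖w‖ := by
  have h1 := h.slope _ (P_mem T hx) (T.orthogonalProjectionOnto w)
  have h2 := norm_P T w
  refine le_trans h1 ?_
  linarith

theorem Sheet.hh_smooth : ContDiffOn ℝ ∞ (hh T f) (ball 0 R) := by
  refine ContDiffOn.sub ?_ ?_
  · exact h.smooth.comp T.orthogonalProjectionOnto.contDiff.contDiffOn (fun x hx => P_mem T hx)
  · exact (T.subtypeL.contDiff.comp T.orthogonalProjectionOnto.contDiff).contDiffOn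

omit h

/-- the straightening map and its inverse -/
def ps (T : Submodule ℝ V) (f : T → V) (x : V) : V := x + hh T f x
def Ps (T : Submodule ℝ V) (f : T → V) (x : V) : V := x - hh T f x

include h

theorem Sheet.ps_smooth : ContDiffOn ℝ ∞ (ps T f) (ball 0 R) := contDiffOn_id.add h.hh_smooth
theorem Sheet.Ps_smooth : ContDiffOn ℝ ∞ (Ps T f) (ball 0 R) := contDiffOn_id.sub h.hh_smooth

theorem Sheet.ps_fderiv {x : V} (hx : x ∈ ball (0:V) R) (w : V) :
    fderiv ℝ (ps T f) x w = w + ((fderiv ℝ f (T.orthogonalProjectionOnto x) - T.subtypeL) ∘L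
      T.orthogonalProjectionOnto) w := by
  have := ((hasFDerivAt_id (𝕜 := ℝ) x).add (h.hh_fderiv hx)).fderiv
  have h2 : fderiv ℝ (ps T f) x = _ := this
  rw [h2]
  rfl

theorem Sheet.Ps_fderiv {x : V} (hx : x ∈ ball (0:V) R) (w : V) :
    fderiv ℝ (Ps T f) x w = w - ((fderiv ℝ f (T.orthogonalProjectionOnto x) - T.subtypeL) ∘L
      T.orthogonalProjectionOnto) w := by
  have := ((hasFDerivAt_id (𝕜 := ℝ) x).sub (h.hh_fderiv hx)).fderiv
  have h2 : fderiv ℝ (Ps T f) x = _ := this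
  rw [h2]
  rfl

theorem Sheet.ps_fderiv_le {x : V} (hx : x ∈ ball (0:V) R) (w : V) :
    ‖fderiv ℝ (ps T f) x w‖ ≤ (5 / 4) * ‖w‖ := by
  rw [h.ps_fderiv hx]
  have h1 := h.hh_fderiv_le hx w
  refine le_trans (norm_add_le _ _) ?_
  linarith

theorem Sheet.Ps_fderiv_le {x : V} (hx : x ∈ ball (0:V) R) (w : V) :
    ‖fderiv ℝ (Ps T f) x w‖ ≤ (5 / 4) * ‖w‖ := by
  rw [h.Ps_fderiv hx]
  have h1 := h.hh_fderiv_le hx w
  refine le_trans (norm_sub_le _ _) ?_
  linarith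

theorem Sheet.ps_norm {x : V} (hx : x ∈ ball (0:V) R) : ‖ps T f x‖ ≤ (5 / 4) * ‖x‖ := by
  have h1 := h.hh_le hx
  refine le_trans (norm_add_le _ _) ?_
  linarith

theorem Sheet.Ps_norm {x : V} (hx : x ∈ ball (0:V) R) : ‖Ps T f x‖ ≤ (5 / 4) * ‖x‖ := by
  have h1 := h.hh_le hx
  refine le_trans (norm_sub_le _ _) ?_
  linarith

theorem Sheet.ps_Ps {x : V} (hx : x ∈ ball (0:V) R) : ps T f (Ps T f x) = x := by
  have h1 : T.orthogonalProjectionOnto (Ps T f x) = T.orthogonalProjectionOnto x := by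
    unfold Ps
    rw [map_sub, h.P_hh hx, sub_zero]
  unfold ps hh
  rw [h1]
  unfold Ps hh
  abel

omit h in
theorem ps_coe (t : T) : ps T f (t : V) = f t := by
  unfold ps hh
  rw [P_coe]
  abel

theorem Sheet.ps_tan {t : T} (ht : t ∈ ball (0:T) R) (w : T) :
    fderiv ℝ (ps T f) (t : V) (w : V) ∈ tanV S (ps T f (t : V)) := by
  have htV : (t : V) ∈ ball (0:V) R := by
    rw [mem_ball_zero_iff] at ht ⊢
    exact ht
  rw [ps_coe, h.ps_fderiv htV]
  have e1 : (w : V) + ((fderiv ℝ f (T.orthogonalProjectionOnto (t : V)) - T.subtypeL) ∘L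
      T.orthogonalProjectionOnto) (w : V) = fderiv ℝ f t w := by
    rw [P_coe]
    show (w : V) + (fderiv ℝ f t (T.orthogonalProjectionOnto (w : V)) -
      (T.orthogonalProjectionOnto (w : V) : V)) = _
    rw [P_coe]
    abel
  rw [e1]
  have hl : HasDerivAt (fun s : ℝ => t + s • w) w 0 := by
    have := ((hasDerivAt_id (0:ℝ)).smul_const w).const_add t
    simpa using this
  have hlc : ContDiff ℝ ∞ (fun s : ℝ => t + s • w) := by fun_prop
  have h0 : (fun s : ℝ => t + s • w) 0 = t := by simp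
  refine ⟨fun s => f (t + s • w), ?_, by simp, ?_, ?_⟩
  · have h1 : ContDiffAt ℝ ∞ f ((fun s : ℝ => t + s • w) 0) := by
      rw [h0]; exact h.smooth.contDiffAt (isOpen_ball.mem_nhds ht)
    exact h1.comp 0 hlc.contDiffAt
  · have h1 : ∀ᶠ s in 𝓝 (0:ℝ), t + s • w ∈ ball (0:T) R := by
      have h2 : Tendsto (fun s : ℝ => t + s • w) (𝓝 0) (𝓝 t) := by
        have := hlc.continuous.tendsto 0
        simpa using this
      exact h2.eventually (isOpen_ball.mem_nhds ht)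
    filter_upwards [h1] with s hs using (h.sec _ hs).1
  · have h1 : HasFDerivAt f (fderiv ℝ f t) ((fun s : ℝ => t + s • w) 0) := by
      rw [h0]; exact (h.diffAt ht).hasFDerivAt
    exact (h1.comp_hasDerivAt (0:ℝ) hl).deriv

end flat

/-! ### Algebra in the tangent spaces -/

section alg

variable {V : Type u} [NormedAddCommGroup V] [InnerProductSpace ℝ V]
  {M : Type v} [MetricSpace M] [ChartedSpace V M] (A : AlmostKahler V M)

theorem om_neg (x : M) (v w : TangentSpace 𝓘(ℝ, V) x) : A.om x v w = - A.om x w v := by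
  have h1 := A.alt x (v + w)
  rw [map_add, map_add, add_apply, add_apply, A.alt,
    A.alt] at h1
  linarith

theorem om_nonneg (x : M) (v : TangentSpace 𝓘(ℝ, V) x) : 0 ≤ A.om x v (A.J x v) := by
  by_cases hv : v = 0
  · rw [hv]; simp
  · exact (A.pos x v hv).le

theorem nrm_sq (x : M) (v : TangentSpace 𝓘(ℝ, V) x) : A.nrm x v ^ 2 = A.om x v (A.J x v) :=
  Real.sq_sqrt (om_nonneg A x v)

theorem nrm_hol (x : M) (L : ℂ →L[ℝ] TangentSpace 𝓘(ℝ, V) x)
    (hL : ∀ h : ℂ, L (Complex.I * h) = A.J x (L h)) (h : ℂ) :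
    A.nrm x (L h) = ‖h‖ * A.nrm x (L 1) := by
  have e1 : L h = h.re • L 1 + h.im • A.J x (L 1) := by
    rw [← hL 1, mul_one, ← map_smul, ← map_smul, ← map_add]
    congr 1
    rw [Complex.real_smul, Complex.real_smul, mul_one, Complex.re_add_im]
  have e2 : A.om x (L h) (A.J x (L h)) = ‖h‖ ^ 2 * A.om x (L 1) (A.J x (L 1)) := by
    rw [e1]
    generalize L 1 = v
    simp only [map_add, map_smul, add_apply, smul_apply,
      smul_eq_mul, A.J_sq, map_neg, A.alt]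
    rw [om_neg A x (A.J x v) v, ← Complex.normSq_eq_norm_sq, Complex.normSq_apply]
    ring
  unfold AlmostKahler.nrm
  rw [e2, Real.sqrt_mul (sq_nonneg _), Real.sqrt_sq (norm_nonneg _)]

theorem om_congr {x y : M} (hxy : x = y) (v w : V) :
    A.om x (v : TangentSpace 𝓘(ℝ, V) x) (w : TangentSpace 𝓘(ℝ, V) x) =
    A.om y (v : TangentSpace 𝓘(ℝ, V) y) (w : TangentSpace 𝓘(ℝ, V) y) := by
  subst hxy; rfl

theorem omJ_congr {x y : M} (hxy : x = y) (v w : V) :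
    A.om x (v : TangentSpace 𝓘(ℝ, V) x) (A.J x (w : TangentSpace 𝓘(ℝ, V) x)) =
    A.om y (v : TangentSpace 𝓘(ℝ, V) y) (A.J y (w : TangentSpace 𝓘(ℝ, V) y)) := by
  subst hxy; rfl

end alg

/-! ### The chain rule -/

section chain

variable {V : Type u} [NormedAddCommGroup V] [InnerProductSpace ℝ V] [FiniteDimensional ℝ V]
  {M : Type v} [MetricSpace M] [ChartedSpace V M] [IsManifold 𝓘(ℝ, V) ∞ M]

omit [FiniteDimensional ℝ V] [IsManifold 𝓘(ℝ, V) ∞ M] in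
theorem comp_smooth {D : Set ℂ} {u : ℂ → M} (hu : ContMDiffOn 𝓘(ℝ, ℂ) 𝓘(ℝ, V) ∞ u D)
    {e : OpenPartialHomeomorph M V} (he : e ∈ Charts V M) (hD : ∀ z ∈ D, u z ∈ e.source) :
    ContDiffOn ℝ ∞ (fun z => e (u z)) D := by
  rw [← contMDiffOn_iff_contDiffOn]
  exact (contMDiffOn_of_mem_maximalAtlas he).comp hu hD

omit [FiniteDimensional ℝ V] [IsManifold 𝓘(ℝ, V) ∞ M] in
theorem mfderiv_frame {D : Set ℂ} {u : ℂ → M} (hu : ContMDiffOn 𝓘(ℝ, ℂ) 𝓘(ℝ, V) ∞ u D)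
    (hDu : UniqueDiffOn ℝ D)
    {e : OpenPartialHomeomorph M V} (he : e ∈ Charts V M) (hD : ∀ z ∈ D, u z ∈ e.source)
    {z : ℂ} (hz : z ∈ D) (h : ℂ) :
    (mfderivWithin 𝓘(ℝ, ℂ) 𝓘(ℝ, V) u D z h : V) =
      (frame e (e (u z)) (fderivWithin ℝ (fun z => e (u z)) D z h) : V) := by
  have hw := comp_smooth hu he hD
  have e1 : mfderivWithin 𝓘(ℝ, ℂ) 𝓘(ℝ, V) (e.symm ∘ fun z => e (u z)) D z =
      mfderivWithin 𝓘(ℝ, ℂ) 𝓘(ℝ, V) u D z :=
    mfderivWithin_congr (fun x hx => e.left_inv (hD x hx)) (e.left_inv (hD z hz))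
  have hs : MDifferentiableAt 𝓘(ℝ, V) 𝓘(ℝ, V) e.symm (e (u z)) :=
    ((contMDiffOn_symm_of_mem_maximalAtlas he).contMDiffAt
      (e.open_target.mem_nhds (e.map_source (hD z hz)))).mdifferentiableAt (by norm_num)
  have hwz : MDifferentiableWithinAt 𝓘(ℝ, ℂ) 𝓘(ℝ, V) (fun z => e (u z)) D z :=
    ((contMDiffOn_iff_contDiffOn.2 hw) z hz).mdifferentiableWithinAt (by norm_num)
  have e2 := mfderiv_comp_mfderivWithin z hs hwz (hDu.uniqueMDiffOn z hz)
  rw [mfderivWithin_eq_fderivWithin] at e2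
  have e3 := DFunLike.congr_fun e2 h
  have e4 : (mfderivWithin 𝓘(ℝ, ℂ) 𝓘(ℝ, V) u D z h : V) =
    (mfderivWithin 𝓘(ℝ, ℂ) 𝓘(ℝ, V) (e.symm ∘ fun z => e (u z)) D z h : V) := by rw [e1]; rfl
  exact e4.trans e3

variable (A : AlmostKahler V M)

omit [FiniteDimensional ℝ V] [IsManifold 𝓘(ℝ, V) ∞ M] in
theorem gC_eq {D : Set ℂ} {u : ℂ → M} (hu : ContMDiffOn 𝓘(ℝ, ℂ) 𝓘(ℝ, V) ∞ u D)
    (hDu : UniqueDiffOn ℝ D)
    {e : OpenPartialHomeomorph M V} (he : e ∈ Charts V M) (hD : ∀ z ∈ D, u z ∈ e.source)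
    {z : ℂ} (hz : z ∈ D) (h k : ℂ) :
    A.gC e (e (u z)) (fderivWithin ℝ (fun z => e (u z)) D z h)
      (fderivWithin ℝ (fun z => e (u z)) D z k) =
    A.om (u z) (mfderivWithin 𝓘(ℝ, ℂ) 𝓘(ℝ, V) u D z h)
      (A.J (u z) (mfderivWithin 𝓘(ℝ, ℂ) 𝓘(ℝ, V) u D z k)) := by
  have h1 := mfderiv_frame hu hDu he hD hz h
  have h2 := mfderiv_frame hu hDu he hD hz k
  have h3 := omJ_congr A (e.left_inv (hD z hz)) (frame e (e (u z))
    (fderivWithin ℝ (fun z => e (u z)) D z h)) (frame e (e (u z))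
    (fderivWithin ℝ (fun z => e (u z)) D z k))
  refine Eq.trans h3 ?_
  rw [← h1, ← h2]

omit [FiniteDimensional ℝ V] [IsManifold 𝓘(ℝ, V) ∞ M] in
theorem omC_eq {D : Set ℂ} {u : ℂ → M} (hu : ContMDiffOn 𝓘(ℝ, ℂ) 𝓘(ℝ, V) ∞ u D)
    (hDu : UniqueDiffOn ℝ D)
    {e : OpenPartialHomeomorph M V} (he : e ∈ Charts V M) (hD : ∀ z ∈ D, u z ∈ e.source)
    {z : ℂ} (hz : z ∈ D) (h k : ℂ) :
    A.omC e (e (u z)) (fderivWithin ℝ (fun z => e (u z)) D z h)
      (fderivWithin ℝ (fun z => e (u z)) D z k) =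
    A.om (u z) (mfderivWithin 𝓘(ℝ, ℂ) 𝓘(ℝ, V) u D z h)
      (mfderivWithin 𝓘(ℝ, ℂ) 𝓘(ℝ, V) u D z k) := by
  have h1 := mfderiv_frame hu hDu he hD hz h
  have h2 := mfderiv_frame hu hDu he hD hz k
  have h3 := om_congr A (e.left_inv (hD z hz)) (frame e (e (u z))
    (fderivWithin ℝ (fun z => e (u z)) D z h)) (frame e (e (u z))
    (fderivWithin ℝ (fun z => e (u z)) D z k))
  refine Eq.trans h3 ?_
  rw [← h1, ← h2]

end chain

/-! ### The bounds -/

section bounds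

variable {V : Type u} [NormedAddCommGroup V] [InnerProductSpace ℝ V] [FiniteDimensional ℝ V]

omit [FiniteDimensional ℝ V] in
theorem form_bound {r K : ℝ} {G Om : V → V →L[ℝ] V →L[ℝ] ℝ} (hK : 0 ≤ K)
    (hten : ChartTensors r K G Om) {x : V} (hx : x ∈ ball (0:V) r) (a b : V) :
    |Om x a b| ≤ (K * ‖a‖) * (K * ‖b‖) := by
  refine le_trans (hten.Om_le x hx a b) ?_
  have h1 : √(G x a a) ≤ K * ‖a‖ := by
    rw [Real.sqrt_le_left (by positivity)]
    exact hten.G_upper x hx a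
  have h2 : √(G x b b) ≤ K * ‖b‖ := by
    rw [Real.sqrt_le_left (by positivity)]
    exact hten.G_upper x hx b
  exact mul_le_mul h1 h2 (Real.sqrt_nonneg _) (by positivity)

end bounds

end Pool.Agent.H823.HC.PISOMH

namespace Pool.Agent.H823.HC

open PISOMH

universe u v

theorem t_ISOMH (hDIST : S_DIST.{u, v}) (hTENS : S_TENS.{u, v}) (hPIECE : S_PIECE.{u, v})
    (hSECT : S_SECT.{u}) (hCONT : S_CONT.{u}) (hPULL : S_PULL.{u}) (hISOVH : S_ISOVH.{u}) :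
    S_ISOMH.{u, v} := by
  intro V _ _ _ M _ _ _ A hBG Lam hLam
  obtain ⟨r, K, hr, hK, hgc⟩ := hBG
  have hK0 : 0 < K := by linarith
  obtain ⟨R, hR⟩ : ∃ R, R = Rad r K Lam := ⟨_, rfl⟩
  have hRpos : 0 < R := by
    rw [hR]; unfold Rad
    exact lt_min (by positivity) (by positivity)
  have hRr : R ≤ r / 8 := by rw [hR]; exact min_le_left _ _
  refine ⟨R / (4 * K), by positivity, 4 * K ^ 4, ?_, ?_⟩
  · have : 1 ≤ K ^ 4 := one_le_pow₀ hK
    show (1:ℝ) ≤ 4 * K ^ 4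
    linarith
  intro L hL hB u m ρ hρ hu hbd hdist
  obtain ⟨n, hn2, hsub⟩ := hL.submfd
  obtain ⟨b, hb⟩ : ∃ b, b = u ((m + ρ : ℝ) : ℂ) := ⟨_, rfl⟩
  rw [← hb] at hdist
  obtain ⟨e, he⟩ := hgc b
  have hD := Hc_uniq m ρ hρ
  have hsrc : ∀ z ∈ Hc m ρ, u z ∈ e.source ∧ ‖e (u z)‖ < R / 4 := by
    intro z hz
    have h1 := hdist z hz
    rw [dist_comm] at h1
    have h3 : R / (4 * K) ≤ r / K := by
      rw [div_le_div_iff₀ (by positivity) hK0]
      nlinarith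
    have h2 := hDIST V M A r K b e hr hK he (u z) (h1.trans_le h3)
    refine ⟨h2.1, lt_of_le_of_lt h2.2 ?_⟩
    calc K * dist b (u z) < K * (R / (4 * K)) := mul_lt_mul_of_pos_left h1 hK0
      _ = R / 4 := by field_simp
  obtain ⟨G, Om, hten, hGO⟩ := hTENS V M A r K b e hr hK he
  have hpiece := hPIECE V M A r K Lam b e G Om n L hr hK he hten hGO hL hsub hB
  have hbL : b ∈ L := by
    rw [hb]; exact hbd (m + ρ) ⟨by linarith, le_rfl⟩
  have h0S : (0:V) ∈ {x ∈ ball (0:V) r | e.symm x ∈ L} := by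
    refine ⟨mem_ball_self hr, ?_⟩
    rw [← he.centre, e.left_inv he.mem_source]
    exact hbL
  obtain ⟨T, f, hTn, hT0, hfs, hf0, hsec, hslope⟩ := hSECT V r K Lam n G Om _ hr hK hLam hpiece h0S
  rw [← hR] at hfs hsec hslope
  have hsh : Sheet {x ∈ ball (0:V) r | e.symm x ∈ L} R T f := ⟨hfs, hf0, hsec, hslope⟩
  -- the map in the chart
  have hws : ContDiffOn ℝ ∞ (fun z => e (u z)) (Hc m ρ) :=
    comp_smooth hu.smooth he.mem (fun z hz => (hsrc z hz).1)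
  have hwR : ∀ z ∈ Hc m ρ, e (u z) ∈ ball (0:V) R := by
    intro z hz
    rw [mem_ball_zero_iff]
    linarith [(hsrc z hz).2]
  have hwr : ∀ z ∈ Hc m ρ, e (u z) ∈ ball (0:V) r := by
    intro z hz
    rw [mem_ball_zero_iff]
    linarith [(hsrc z hz).2]
  have hvs : ContDiffOn ℝ ∞ (fun z => Ps T f (e (u z))) (Hc m ρ) := hsh.Ps_smooth.comp hws hwR
  have hvR : ∀ z ∈ Hc m ρ, Ps T f (e (u z)) ∈ ball (0:V) R := by
    intro z hz
    rw [mem_ball_zero_iff]
    have h1 := hsh.Ps_norm (hwR z hz)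
    have h2 := (hsrc z hz).2
    linarith
  have hpsr : ∀ x ∈ ball (0:V) R, ps T f x ∈ ball (0:V) r := by
    intro x hx
    have h1 := hsh.ps_norm hx
    rw [mem_ball_zero_iff] at hx ⊢
    linarith
  -- the form
  have hcl := hPULL V r R Om (ps T f) hten.form hsh.ps_smooth hpsr
  have hbound : ∀ x ∈ ball (0:V) R, ∀ a b, |((Om (ps T f x)).bilinearComp (fderiv ℝ (ps T f) x)
      (fderiv ℝ (ps T f) x)) a b| ≤ (2 * K ^ 2) * ‖a‖ * ‖b‖ := by
    intro x hx a b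
    have h1 := form_bound hK0.le hten (hpsr x hx) (fderiv ℝ (ps T f) x a) (fderiv ℝ (ps T f) x b)
    have h2 := hsh.ps_fderiv_le hx a
    have h3 := hsh.ps_fderiv_le hx b
    rw [ContinuousLinearMap.bilinearComp_apply]
    refine le_trans h1 ?_
    calc (K * ‖fderiv ℝ (ps T f) x a‖) * (K * ‖fderiv ℝ (ps T f) x b‖)
        ≤ (K * (5 / 4 * ‖a‖)) * (K * (5 / 4 * ‖b‖)) := by gcongr
      _ = 25 / 16 * (K ^ 2 * ‖a‖ * ‖b‖) := by ring
      _ ≤ 2 * (K ^ 2 * ‖a‖ * ‖b‖) := by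
          have : 0 ≤ K ^ 2 * ‖a‖ * ‖b‖ := by positivity
          linarith
      _ = (2 * K ^ 2) * ‖a‖ * ‖b‖ := by ring
  have hvan : ∀ x ∈ T, x ∈ ball (0:V) R → ∀ a ∈ T, ∀ b ∈ T,
      ((Om (ps T f x)).bilinearComp (fderiv ℝ (ps T f) x) (fderiv ℝ (ps T f) x)) a b = 0 := by
    intro x hx hxR a ha b hb
    have hxT : (⟨x, hx⟩ : T) ∈ ball (0:T) R := by
      rw [mem_ball_zero_iff] at hxR ⊢
      exact hxR
    rw [ContinuousLinearMap.bilinearComp_apply]
    have h1 := hsh.ps_tan hxT ⟨a, ha⟩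
    have h2 := hsh.ps_tan hxT ⟨b, hb⟩
    have h3 : ps T f x ∈ {x ∈ ball (0:V) r | e.symm x ∈ L} := by
      have h4 := (hsh.sec _ hxT).1
      have h5 := ps_coe (f := f) (⟨x, hx⟩ : T)
      rw [← h5] at h4
      exact h4
    exact hpiece.S_iso _ h3 _ h1 _ h2
  -- the boundary condition
  have hmid : ContinuousOn (fun x : ℝ => e (u (x : ℂ))) (Icc (m - ρ) (m + ρ)) :=
    hws.continuousOn.comp Complex.continuous_ofReal.continuousOn (fun x hx => mem_Hc_real m ρ hx)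
  have hend : e (u ((m + ρ : ℝ) : ℂ)) = 0 := by rw [← hb]; exact he.centre
  have hcon := hCONT V n _ R T f hpiece.S_slice hTn hfs hf0 hsec (fun x : ℝ => e (u (x : ℂ)))
    (m - ρ) (m + ρ) (by linarith) hmid (fun x hx => by
      have h1 := mem_Hc_real m ρ hx
      refine ⟨⟨hwr _ h1, ?_⟩, ?_⟩
      · show e.symm (e (u (x : ℂ))) ∈ L
        rw [e.left_inv (hsrc _ h1).1]
        exact hbd x hx
      · have := hwR _ h1
        rwa [mem_ball_zero_iff] at this) hend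
  have hreal : ∀ x ∈ Icc (m - ρ) (m + ρ), Ps T f (e (u (x : ℂ))) ∈ T := by
    intro x hx
    have h1 : e (u (x : ℂ)) = f (T.orthogonalProjectionOnto (e (u (x : ℂ)))) := hcon x hx
    have h2 : Ps T f (e (u (x : ℂ))) = (T.orthogonalProjectionOnto (e (u (x : ℂ))) : V) := by
      unfold Ps hh
      rw [← h1]
      abel
    rw [h2]
    exact Submodule.coe_mem _
  have hend0 : Ps T f (e (u ((m + ρ : ℝ) : ℂ))) = 0 := by
    rw [hend]
    unfold Ps hh
    rw [map_zero, hf0]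
    simp
  have key := hISOVH V R (2 * K ^ 2) m ρ _ T (fun z => Ps T f (e (u z))) hRpos (by positivity) hρ
    hcl hbound hvan hvs hvR hreal hend0
  -- derivatives
  have hpsPs : ∀ z ∈ Hc m ρ, ps T f (Ps T f (e (u z))) = e (u z) :=
    fun z hz => hsh.ps_Ps (hwR z hz)
  have hchain : ∀ z ∈ Hc m ρ, ∀ h : ℂ, fderiv ℝ (ps T f) (Ps T f (e (u z)))
      (fderivWithin ℝ (fun z => Ps T f (e (u z))) (Hc m ρ) z h) =
      fderivWithin ℝ (fun z => e (u z)) (Hc m ρ) z h := by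
    intro z hz h
    have h1 : DifferentiableAt ℝ (ps T f) (Ps T f (e (u z))) :=
      (hsh.ps_smooth.contDiffAt (isOpen_ball.mem_nhds (hvR z hz))).differentiableAt (by norm_num)
    have h2 : DifferentiableWithinAt ℝ (fun z => Ps T f (e (u z))) (Hc m ρ) z :=
      (hvs z hz).differentiableWithinAt (by norm_num)
    have h3 := fderiv_comp_fderivWithin z h1 h2 (hD z hz)
    have h4 : fderivWithin ℝ (ps T f ∘ fun z => Ps T f (e (u z))) (Hc m ρ) z =
        fderivWithin ℝ (fun z => e (u z)) (Hc m ρ) z :=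
      fderivWithin_congr (fun x hx => hpsPs x hx) (hpsPs z hz)
    rw [← h4, h3]
    rfl
  have hchain2 : ∀ z ∈ Hc m ρ, ∀ h : ℂ,
      fderivWithin ℝ (fun z => Ps T f (e (u z))) (Hc m ρ) z h =
      fderiv ℝ (Ps T f) (e (u z)) (fderivWithin ℝ (fun z => e (u z)) (Hc m ρ) z h) := by
    intro z hz h
    have h1 : DifferentiableAt ℝ (Ps T f) (e (u z)) :=
      (hsh.Ps_smooth.contDiffAt (isOpen_ball.mem_nhds (hwR z hz))).differentiableAt (by norm_num)
    have h2 : DifferentiableWithinAt ℝ (fun z => e (u z)) (Hc m ρ) z :=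
      (hws z hz).differentiableWithinAt (by norm_num)
    have h3 := fderiv_comp_fderivWithin z h1 h2 (hD z hz)
    have h4 : fderivWithin ℝ (fun z => Ps T f (e (u z))) (Hc m ρ) z =
        fderivWithin ℝ (Ps T f ∘ fun z => e (u z)) (Hc m ρ) z := rfl
    rw [h4, h3]
    rfl
  have hsp : ∀ z ∈ Hc m ρ, A.sp (Hc m ρ) u z = √(G (e (u z))
      (fderivWithin ℝ (fun z => e (u z)) (Hc m ρ) z 1)
      (fderivWithin ℝ (fun z => e (u z)) (Hc m ρ) z 1)) := by
    intro z hz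
    rw [(hGO _ (hwr z hz) _ _).1, gC_eq A hu.smooth hD he.mem (fun z hz => (hsrc z hz).1) hz]
    rfl
  have hleft : ∀ z ∈ Hc m ρ, A.sp (Hc m ρ) u z ^ 2 =
      ((Om (ps T f (Ps T f (e (u z))))).bilinearComp (fderiv ℝ (ps T f) (Ps T f (e (u z))))
        (fderiv ℝ (ps T f) (Ps T f (e (u z)))))
        (fderivWithin ℝ (fun z => Ps T f (e (u z))) (Hc m ρ) z 1)
        (fderivWithin ℝ (fun z => Ps T f (e (u z))) (Hc m ρ) z Complex.I) := by
    intro z hz
    rw [ContinuousLinearMap.bilinearComp_apply, hchain z hz, hchain z hz, hpsPs z hz,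
      (hGO _ (hwr z hz) _ _).2, omC_eq A hu.smooth hD he.mem (fun z hz => (hsrc z hz).1) hz]
    have h1 := hu.hol z hz 1
    rw [mul_one] at h1
    rw [h1]
    exact nrm_sq A _ _
  have hright : ∀ θ ∈ Icc (0:ℝ) Real.pi,
      ‖fderivWithin ℝ (fun z => Ps T f (e (u z))) (Hc m ρ) (m + ρ * circ θ)
        (ρ * (Complex.I * circ θ))‖ ≤ 2 * K * (A.sp (Hc m ρ) u (m + ρ * circ θ) * ρ) := by
    intro θ hθ
    have hz := mem_Hc_circ m ρ hρ hθ
    obtain ⟨z, hzz⟩ : ∃ z : ℂ, z = m + ρ * circ θ := ⟨_, rfl⟩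
    obtain ⟨h, hh'⟩ : ∃ h : ℂ, h = ρ * (Complex.I * circ θ) := ⟨_, rfl⟩
    rw [← hzz, ← hh']
    rw [← hzz] at hz
    have hn : ‖h‖ = ρ := by
      rw [hh', norm_mul, norm_mul, Complex.norm_I, norm_circ, Complex.norm_real, Real.norm_eq_abs,
        abs_of_pos hρ, mul_one, mul_one]
    rw [hchain2 z hz]
    have h1 := hsh.Ps_fderiv_le (hwR z hz) (fderivWithin ℝ (fun z => e (u z)) (Hc m ρ) z h)
    have h2 := hten.G_lower _ (hwr z hz) (fderivWithin ℝ (fun z => e (u z)) (Hc m ρ) z h)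
    rw [(hGO _ (hwr z hz) _ _).1, gC_eq A hu.smooth hD he.mem (fun z hz => (hsrc z hz).1) hz,
      ← nrm_sq] at h2
    have h7 : A.nrm (u z) (mfderivWithin 𝓘(ℝ, ℂ) 𝓘(ℝ, V) u (Hc m ρ) z h) =
        ρ * A.nrm (u z) (mfderivWithin 𝓘(ℝ, ℂ) 𝓘(ℝ, V) u (Hc m ρ) z (1:ℂ)) := by
      have h8 := nrm_hol A (u z) (mfderivWithin 𝓘(ℝ, ℂ) 𝓘(ℝ, V) u (Hc m ρ) z) (hu.hol z hz) h
      rw [hn] at h8
      exact h8
    rw [h7] at h2
    have h3 : (0:ℝ) ≤ ρ * A.nrm (u z) (mfderivWithin 𝓘(ℝ, ℂ) 𝓘(ℝ, V) u (Hc m ρ) z (1:ℂ)) :=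
      mul_nonneg hρ.le (Real.sqrt_nonneg _)
    have h4 := (sq_le_sq₀ (by positivity) h3).1 h2
    rw [inv_mul_le_iff₀ hK0] at h4
    show _ ≤ 2 * K * (A.nrm (u z) (mfderivWithin 𝓘(ℝ, ℂ) 𝓘(ℝ, V) u (Hc m ρ) z (1:ℂ)) * ρ)
    have h5 : 0 ≤ K * (ρ * A.nrm (u z) (mfderivWithin 𝓘(ℝ, ℂ) 𝓘(ℝ, V) u (Hc m ρ) z (1:ℂ))) :=
      mul_nonneg hK0.le h3
    calc _ ≤ 5 / 4 * ‖fderivWithin ℝ (fun z => e (u z)) (Hc m ρ) z h‖ := h1
      _ ≤ 5 / 4 * (K * (ρ * A.nrm (u z) (mfderivWithin 𝓘(ℝ, ℂ) 𝓘(ℝ, V) u (Hc m ρ) z (1:ℂ)))) := by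
          gcongr
      _ ≤ 2 * (K * (ρ * A.nrm (u z) (mfderivWithin 𝓘(ℝ, ℂ) 𝓘(ℝ, V) u (Hc m ρ) z (1:ℂ)))) := by
          linarith
      _ = _ := by ring
  -- continuity of the conformal factor
  have hDw : ContinuousOn (fun z => fderivWithin ℝ (fun z => e (u z)) (Hc m ρ) z 1) (Hc m ρ) :=
    (hws.continuousOn_fderivWithin hD (by norm_num)).clm_apply continuousOn_const
  have hGw : ContinuousOn (fun z => G (e (u z))) (Hc m ρ) :=
    hten.G_smooth.continuousOn.comp hws.continuousOn hwr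
  have hspc : ContinuousOn (A.sp (Hc m ρ) u) (Hc m ρ) := by
    have h1 : ContinuousOn (fun z => √(G (e (u z))
        (fderivWithin ℝ (fun z => e (u z)) (Hc m ρ) z 1)
        (fderivWithin ℝ (fun z => e (u z)) (Hc m ρ) z 1))) (Hc m ρ) :=
      ((hGw.clm_apply hDw).clm_apply hDw).sqrt
    exact h1.congr hsp
  have hint : IntervalIntegrable (fun θ : ℝ => 2 * K * (A.sp (Hc m ρ) u (m + ρ * circ θ) * ρ))
      volume 0 Real.pi := by
    apply ContinuousOn.intervalIntegrable_of_Icc Real.pi_pos.le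
    have h1 : ContinuousOn (fun θ : ℝ => A.sp (Hc m ρ) u (m + ρ * circ θ)) (Icc 0 Real.pi) :=
      hspc.comp (by
        have := continuous_circ
        fun_prop) (fun θ hθ => mem_Hc_circ m ρ hρ hθ)
    exact continuousOn_const.mul (h1.mul continuousOn_const)
  have hI : (∫ θ in (0:ℝ)..Real.pi,
      ‖fderivWithin ℝ (fun z => Ps T f (e (u z))) (Hc m ρ) (m + ρ * circ θ)
        (ρ * (Complex.I * circ θ))‖) ≤
      2 * K * ∫ θ in (0:ℝ)..Real.pi, A.sp (Hc m ρ) u (m + ρ * circ θ) * ρ := by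
    rw [← intervalIntegral.integral_const_mul, intervalIntegral.integral_of_le Real.pi_pos.le,
      intervalIntegral.integral_of_le Real.pi_pos.le]
    refine integral_mono_of_nonneg (Eventually.of_forall fun θ => norm_nonneg _) ?_ ?_
    · exact (intervalIntegrable_iff_integrableOn_Ioc_of_le Real.pi_pos.le).1 hint
    · refine (ae_restrict_iff' measurableSet_Ioc).2 (Eventually.of_forall fun θ hθ => ?_)
      exact hright θ ⟨hθ.1.le, hθ.2⟩
  have hI0 : 0 ≤ ∫ θ in (0:ℝ)..Real.pi,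
      ‖fderivWithin ℝ (fun z => Ps T f (e (u z))) (Hc m ρ) (m + ρ * circ θ)
        (ρ * (Complex.I * circ θ))‖ :=
    intervalIntegral.integral_nonneg Real.pi_pos.le fun θ _ => norm_nonneg _
  have hL' : ∫ z in Hc m ρ, A.sp (Hc m ρ) u z ^ 2 = ∫ z in Hc m ρ,
      ((Om (ps T f (Ps T f (e (u z))))).bilinearComp (fderiv ℝ (ps T f) (Ps T f (e (u z))))
        (fderiv ℝ (ps T f) (Ps T f (e (u z)))))
        (fderivWithin ℝ (fun z => Ps T f (e (u z))) (Hc m ρ) z 1)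
        (fderivWithin ℝ (fun z => Ps T f (e (u z))) (Hc m ρ) z Complex.I) :=
    setIntegral_congr_fun (Hc_closed m ρ).measurableSet hleft
  rw [hL']
  refine le_trans (le_abs_self _) (le_trans key ?_)
  calc 2 * K ^ 2 / 2 * (∫ θ in (0:ℝ)..Real.pi,
      ‖fderivWithin ℝ (fun z => Ps T f (e (u z))) (Hc m ρ) (m + ρ * circ θ)
        (ρ * (Complex.I * circ θ))‖) ^ 2
      ≤ 2 * K ^ 2 / 2 * (2 * K * ∫ θ in (0:ℝ)..Real.pi,
        A.sp (Hc m ρ) u (m + ρ * circ θ) * ρ) ^ 2 := by gcongr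
    _ = 4 * K ^ 4 * (∫ θ in (0:ℝ)..Real.pi, A.sp (Hc m ρ) u (m + ρ * circ θ) * ρ) ^ 2 := by ring

end Pool.Agent.H823.HC
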