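import Mathlib
import Pool.Agent.H823.HC.StmV

/-! Project HC, task ISOVD (helper597). -/

open scoped Topology ContDiff Manifold
open Set Metric Filter MeasureTheory

universe u v w

namespace Pool.Agent.H823.HC

namespace PISOVD

theorem circ_zero : circ 0 = 1 := by simp [circ]

theorem norm_circ (s : ℝ) : ‖circ s‖ = 1 := by
  unfold circ
  exact Complex.norm_exp_ofReal_mul_I s

theorem circ_deriv (s : ℝ) : HasDerivAt circ (Complex.I * circ s) s := by
  unfold circ
  have h1 : HasDerivAt (fun s : ℝ => ((s : ℂ) * Complex.I)) (1 * Complex.I) s :=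
    (Complex.ofRealCLM.hasDerivAt (x := s)).mul_const Complex.I
  have h2 := h1.cexp
  have h3 : Complex.exp ((s : ℂ) * Complex.I) * (1 * Complex.I) =
      Complex.I * Complex.exp ((s : ℂ) * Complex.I) := by ring
  rw [h3] at h2
  exact h2

theorem circ_cont : Continuous circ := by
  unfold circ
  fun_prop

variable {V : Type u} [NormedAddCommGroup V] [InnerProductSpace ℝ V]

theorem pt_mem (c : ℂ) {ρ : ℝ} (hρ : 0 < ρ) (θ : ℝ) : c + ρ * circ θ ∈ closedBall c ρ := by
  rw [mem_closedBall, dist_eq_norm]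
  simp [norm_circ, abs_of_pos hρ]

theorem curve_deriv (c : ℂ) {ρ : ℝ} (hρ : 0 < ρ) {v : ℂ → V}
    (hv : ContDiffOn ℝ ∞ v (closedBall c ρ)) (θ : ℝ) :
    HasDerivAt (fun θ : ℝ => v (c + ρ * circ θ))
      (fderivWithin ℝ v (closedBall c ρ) (c + ρ * circ θ) (ρ * (Complex.I * circ θ))) θ := by
  have h1 : HasFDerivWithinAt v (fderivWithin ℝ v (closedBall c ρ) (c + ρ * circ θ))
      (closedBall c ρ) (c + ρ * circ θ) :=
    ((hv.differentiableOn (by simp)) _ (pt_mem c hρ θ)).hasFDerivWithinAt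
  have h2 : HasDerivAt (fun θ : ℝ => c + ρ * circ θ) (ρ * (Complex.I * circ θ)) θ :=
    ((circ_deriv θ).const_mul (ρ : ℂ)).const_add c
  exact h1.comp_hasDerivAt θ h2 (Eventually.of_forall fun θ => pt_mem c hρ θ)

theorem w_cont (c : ℂ) {ρ : ℝ} (hρ : 0 < ρ) {v : ℂ → V}
    (hv : ContDiffOn ℝ ∞ v (closedBall c ρ)) :
    Continuous (fun θ : ℝ => fderivWithin ℝ v (closedBall c ρ) (c + ρ * circ θ)
      (ρ * (Complex.I * circ θ))) := by
  have hu : UniqueDiffOn ℝ (closedBall c ρ) := by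
    apply uniqueDiffOn_convex (convex_closedBall c ρ)
    rw [interior_closedBall c hρ.ne']
    exact nonempty_ball.2 hρ
  have h1 : ContinuousOn (fderivWithin ℝ v (closedBall c ρ)) (closedBall c ρ) :=
    hv.continuousOn_fderivWithin hu (by simp)
  have h2 : Continuous (fun θ : ℝ => c + ρ * circ θ) :=
    continuous_const.add (continuous_const.mul circ_cont)
  have h3 : Continuous (fun θ : ℝ => fderivWithin ℝ v (closedBall c ρ) (c + ρ * circ θ)) :=
    h1.comp_continuous h2 (fun θ => pt_mem c hρ θ)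
  exact h3.clm_apply (continuous_const.mul (continuous_const.mul circ_cont))

end PISOVD

open PISOVD in
theorem t_ISOVD (hPRIM : S_PRIM.{u}) (hGREEND : S_GREEND.{u}) : S_ISOVD.{u} := by
  intro V _ _ _ R B ρ c Om v hR hB hρ hcl hOm hv hvR hv0
  obtain ⟨lam, hl1, hl2, hl3, -⟩ := hPRIM V R B Om hR hB hcl hOm
  have hG := hGREEND V R ρ c lam v hR hρ hl1 hv hvR
  have h1 : ∫ z in closedBall c ρ, Om (v z) (fderivWithin ℝ v (closedBall c ρ) z 1)
      (fderivWithin ℝ v (closedBall c ρ) z Complex.I) =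
      ∫ z in closedBall c ρ, (fderiv ℝ lam (v z) (fderivWithin ℝ v (closedBall c ρ) z 1)
      (fderivWithin ℝ v (closedBall c ρ) z Complex.I) -
    fderiv ℝ lam (v z) (fderivWithin ℝ v (closedBall c ρ) z Complex.I)
      (fderivWithin ℝ v (closedBall c ρ) z 1)) := by
    apply setIntegral_congr_fun isClosed_closedBall.measurableSet
    intro z hz
    exact (hl2 (v z) (hvR z hz) _ _).symm
  rw [h1, hG]
  -- the length
  have hpi : (0 : ℝ) ≤ 2 * Real.pi := by positivity
  set w : ℝ → V := fun θ => fderivWithin ℝ v (closedBall c ρ) (c + ρ * circ θ)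
    (ρ * (Complex.I * circ θ)) with hw
  have hwc : Continuous w := w_cont c hρ hv
  have hwn : Continuous fun θ => ‖w θ‖ := hwc.norm
  obtain ⟨l, hl⟩ : ∃ l, l = ∫ θ in (0:ℝ)..(2 * Real.pi), ‖w θ‖ := ⟨_, rfl⟩
  have hbound : ∀ θ ∈ Ioc (0:ℝ) (2 * Real.pi), ‖v (c + ρ * circ θ)‖ ≤ l := by
    intro θ hθ
    have e1 : ∫ t in (0:ℝ)..θ, w t = v (c + ρ * circ θ) - v (c + ρ * circ 0) :=
      intervalIntegral.integral_eq_sub_of_hasDerivAt (fun t _ => curve_deriv c hρ hv t)
        (hwc.intervalIntegrable _ _)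
    rw [circ_zero, mul_one, hv0, sub_zero] at e1
    rw [← e1]
    calc ‖∫ t in (0:ℝ)..θ, w t‖ ≤ ∫ t in (0:ℝ)..θ, ‖w t‖ :=
          intervalIntegral.norm_integral_le_integral_norm hθ.1.le
      _ ≤ ∫ t in (0:ℝ)..(2 * Real.pi), ‖w t‖ := by
          apply intervalIntegral.integral_mono_interval le_rfl hθ.1.le hθ.2
          · exact Eventually.of_forall fun t => norm_nonneg _
          · exact hwn.intervalIntegrable _ _
      _ = l := hl.symm
  have h2 : ‖∫ θ in (0:ℝ)..(2 * Real.pi), lam (v (c + ρ * circ θ)) (w θ)‖ ≤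
      ∫ θ in (0:ℝ)..(2 * Real.pi), B / 2 * l * ‖w θ‖ := by
    apply intervalIntegral.norm_integral_le_of_norm_le hpi
    · refine Eventually.of_forall fun θ hθ => ?_
      have h3 := hl3 (v (c + ρ * circ θ)) (hvR _ (pt_mem c hρ θ)) (w θ)
      rw [Real.norm_eq_abs]
      refine h3.trans ?_
      have h4 := hbound θ hθ
      have h5 : B / 2 * ‖v (c + ρ * circ θ)‖ ≤ B / 2 * l :=
        mul_le_mul_of_nonneg_left h4 (by positivity)
      exact mul_le_mul_of_nonneg_right h5 (norm_nonneg _)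
    · exact (continuous_const.mul hwn).intervalIntegrable _ _
  rw [intervalIntegral.integral_const_mul, ← hl, Real.norm_eq_abs] at h2
  calc |∫ θ in (0:ℝ)..(2 * Real.pi), lam (v (c + ρ * circ θ)) (w θ)| ≤ B / 2 * l * l := h2
    _ = B / 2 * (∫ θ in (0:ℝ)..(2 * Real.pi), ‖w θ‖) ^ 2 := by rw [← hl]; ring

end Pool.Agent.H823.HC
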