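import Mathlib
import Pool.Agent.H823.HC.StmV

/-!
# Project HC: task ISOVH (helper385)
-/

set_option autoImplicit false

open scoped Topology ContDiff Manifold
open Set Metric Filter MeasureTheory

noncomputable section

namespace Pool.Agent.H823.HC

universe u

namespace PISOVH

lemma Hc_eq (m ρ : ℝ) : Hc m ρ = closedBall (m : ℂ) ρ ∩ {z : ℂ | 0 ≤ z.im} := by
  ext z
  simp [Hc, dist_eq_norm]

lemma Hc_measurable (m ρ : ℝ) : MeasurableSet (Hc m ρ) := by
  rw [Hc_eq]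
  exact measurableSet_closedBall.inter (measurableSet_le measurable_const Complex.measurable_im)

lemma Hc_convex (m ρ : ℝ) : Convex ℝ (Hc m ρ) := by
  rw [Hc_eq]
  exact (convex_closedBall _ _).inter (convex_halfSpace_im_ge 0)

lemma Hc_uniqueDiff (m ρ : ℝ) (hρ : 0 < ρ) : UniqueDiffOn ℝ (Hc m ρ) := by
  refine uniqueDiffOn_convex (Hc_convex m ρ) ?_
  have h1 : ball (m : ℂ) ρ ∩ {z : ℂ | 0 < z.im} ⊆ interior (Hc m ρ) := by
    refine interior_maximal ?_ (isOpen_ball.inter (isOpen_lt continuous_const Complex.continuous_im))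
    rw [Hc_eq]
    exact inter_subset_inter ball_subset_closedBall (fun z (hz : 0 < z.im) => hz.le)
  refine ⟨(m : ℂ) + ((ρ / 2 : ℝ) : ℂ) * Complex.I, h1 ⟨?_, ?_⟩⟩
  · rw [mem_ball, dist_eq_norm, add_sub_cancel_left, norm_mul, Complex.norm_I, mul_one,
      Complex.norm_real, Real.norm_eq_abs, abs_of_pos (by linarith)]
    linarith
  · simp only [mem_ofPred_eq, Complex.add_im, Complex.ofReal_im, Complex.mul_im, Complex.ofReal_re,
      Complex.I_im, Complex.I_re]
    linarith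

lemma circ_eq (s : ℝ) : circ s = (Real.cos s : ℂ) + (Real.sin s : ℂ) * Complex.I := by
  rw [circ, Complex.exp_mul_I]
  simp

lemma arc_mem (m ρ : ℝ) (hρ : 0 < ρ) (θ : ℝ) (hθ : θ ∈ Icc (0 : ℝ) Real.pi) :
    (m : ℂ) + ρ * circ θ ∈ Hc m ρ := by
  constructor
  · rw [add_sub_cancel_left, norm_mul, Complex.norm_real, Real.norm_eq_abs, abs_of_pos hρ, circ,
      Complex.norm_exp_ofReal_mul_I, mul_one]
  · rw [circ_eq]
    simp only [Complex.add_im, Complex.ofReal_im, Complex.mul_im, Complex.ofReal_re,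
      Complex.add_re, Complex.mul_re, Complex.I_im, Complex.I_re]
    have := Real.sin_nonneg_of_mem_Icc hθ
    have h2 : 0 ≤ ρ * Real.sin θ := by positivity
    linarith

lemma seg_mem (m ρ : ℝ) (x : ℝ) (hx : x ∈ Icc (m - ρ) (m + ρ)) : (x : ℂ) ∈ Hc m ρ := by
  constructor
  · rw [← Complex.ofReal_sub, Complex.norm_real, Real.norm_eq_abs, abs_le]
    exact ⟨by linarith [hx.1], by linarith [hx.2]⟩
  · simp

lemma circ_deriv (m ρ θ : ℝ) :
    HasDerivAt (fun θ : ℝ => (m : ℂ) + ρ * circ θ) (ρ * (Complex.I * circ θ)) θ := by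
  have h1 : HasDerivAt (fun s : ℝ => (s : ℂ) * Complex.I) Complex.I θ := by
    have h2 := (Complex.ofRealCLM.hasDerivAt (x := θ)).mul_const Complex.I
    simpa using h2
  have h3 := h1.cexp
  have h4 := (h3.const_mul (ρ : ℂ)).const_add (m : ℂ)
  have h5 : (ρ : ℂ) * (Complex.I * circ θ) = ρ * (Complex.exp (θ * Complex.I) * Complex.I) := by
    rw [circ, mul_comm Complex.I]
  rw [h5]
  exact h4

end PISOVH

open PISOVH in
/-- Task ISOVH. -/
theorem t_ISOVH (hPRIM : S_PRIM.{u}) (hGREENH : S_GREENH.{u}) : S_ISOVH.{u} := by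
  intro V _ _ _ R B m ρ Om T v hR hB hρ hOm hOmB hT hv hvR hvT hv0
  obtain ⟨lam, hl1, hl2, hl3, hl4⟩ := hPRIM V R B Om hR hB hOm hOmB
  have hG := hGREENH V R m ρ lam v hR hρ hl1 hv hvR
  have hL : ∫ z in Hc m ρ, (fderiv ℝ lam (v z) (fderivWithin ℝ v (Hc m ρ) z 1)
      (fderivWithin ℝ v (Hc m ρ) z Complex.I) -
    fderiv ℝ lam (v z) (fderivWithin ℝ v (Hc m ρ) z Complex.I)
      (fderivWithin ℝ v (Hc m ρ) z 1)) =
      ∫ z in Hc m ρ, Om (v z) (fderivWithin ℝ v (Hc m ρ) z 1)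
      (fderivWithin ℝ v (Hc m ρ) z Complex.I) := by
    refine setIntegral_congr_fun (Hc_measurable m ρ) ?_
    intro z hz
    exact hl2 _ (hvR z hz) _ _
  rw [hL] at hG
  have hud := Hc_uniqueDiff m ρ hρ
  have hdiff : ∀ z ∈ Hc m ρ, HasFDerivWithinAt v (fderivWithin ℝ v (Hc m ρ) z) (Hc m ρ) z :=
    fun z hz => ((hv z hz).differentiableWithinAt (by simp)).hasFDerivWithinAt
  have hcf : ContinuousOn (fun z => fderivWithin ℝ v (Hc m ρ) z) (Hc m ρ) :=
    hv.continuousOn_fderivWithin hud (by simp)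
  -- the segment
  have hseg : ∫ x in (m - ρ)..(m + ρ), lam (v x) (fderivWithin ℝ v (Hc m ρ) x 1) = 0 := by
    have h1 : ∀ x ∈ uIcc (m - ρ) (m + ρ), lam (v x) (fderivWithin ℝ v (Hc m ρ) x 1) =
        (fun _ => (0 : ℝ)) x := by
      intro x hx
      rw [uIcc_of_le (by linarith)] at hx
      have hxH := seg_mem m ρ x hx
      have h2 : HasDerivWithinAt (fun t : ℝ => v (t : ℂ)) (fderivWithin ℝ v (Hc m ρ) x 1)
          (Icc (m - ρ) (m + ρ)) x := by
        have h3 : HasDerivWithinAt (fun t : ℝ => (t : ℂ)) 1 (Icc (m - ρ) (m + ρ)) x := by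
          exact (hasDerivAt_id x).ofReal_comp.hasDerivWithinAt
        exact HasFDerivWithinAt.comp_hasDerivWithinAt x (hdiff _ hxH) h3
          (fun t ht => seg_mem m ρ t ht)
      have hud2 : UniqueDiffWithinAt ℝ (Icc (m - ρ) (m + ρ)) x :=
        uniqueDiffOn_Icc (by linarith) x hx
      have h4 := h2.derivWithin hud2
      have h5 : fderivWithin ℝ v (Hc m ρ) x 1 ∈ T := by
        have h6 := range_derivWithin_subset_closure_span_image (𝕜 := ℝ)
          (fun t : ℝ => v (t : ℂ)) (s := Icc (m - ρ) (m + ρ)) (t := Icc (m - ρ) (m + ρ))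
          (by rw [inter_self]; exact subset_closure)
        have h7 : fderivWithin ℝ v (Hc m ρ) x 1 ∈ closure
            (Submodule.span ℝ ((fun t : ℝ => v (t : ℂ)) '' Icc (m - ρ) (m + ρ)) : Set V) :=
          h6 ⟨x, h4⟩
        have h8 : (Submodule.span ℝ ((fun t : ℝ => v (t : ℂ)) '' Icc (m - ρ) (m + ρ)) : Set V) ⊆
            (T : Set V) := by
          apply Submodule.span_le.2
          rintro _ ⟨t, ht, rfl⟩
          exact hvT t ht
        exact (closure_minimal h8 (Submodule.closed_of_finiteDimensional T)) h7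
      exact hl4 T hT (v x) (hvT x hx) (hvR _ hxH) _ h5
    rw [intervalIntegral.integral_congr h1]
    simp
  rw [hseg, add_zero] at hG
  rw [hG]
  -- the arc
  obtain ⟨w, hw⟩ : ∃ w : ℝ → V, w = fun θ : ℝ => fderivWithin ℝ v (Hc m ρ) (m + ρ * circ θ)
    (ρ * (Complex.I * circ θ)) := ⟨_, rfl⟩
  have hπ := Real.pi_pos
  have hcc : Continuous circ := by
    unfold circ
    fun_prop
  have hwc : ContinuousOn w (Icc 0 Real.pi) := by
    rw [hw]
    refine ContinuousOn.clm_apply ?_ ?_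
    · refine hcf.comp ?_ (fun θ hθ => arc_mem m ρ hρ θ hθ)
      exact (continuous_const.add (continuous_const.mul hcc)).continuousOn
    · exact (continuous_const.mul (continuous_const.mul hcc)).continuousOn
  have hwn : ContinuousOn (fun θ => ‖w θ‖) (Icc 0 Real.pi) := hwc.norm
  have hg : ∀ θ ∈ Icc (0 : ℝ) Real.pi, HasDerivWithinAt (fun θ : ℝ => v (m + ρ * circ θ)) (w θ)
      (Icc 0 Real.pi) θ := by
    intro θ hθ
    rw [hw]
    exact HasFDerivWithinAt.comp_hasDerivWithinAt θ (hdiff _ (arc_mem m ρ hρ θ hθ))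
      (circ_deriv m ρ θ).hasDerivWithinAt (fun t ht => arc_mem m ρ hρ t ht)
  obtain ⟨ℓ, hℓ⟩ : ∃ ℓ : ℝ, ℓ = ∫ θ in (0:ℝ)..Real.pi, ‖w θ‖ := ⟨_, rfl⟩
  have hint : ∀ θ ∈ Icc (0 : ℝ) Real.pi, IntervalIntegrable w volume 0 θ := by
    intro θ hθ
    refine ContinuousOn.intervalIntegrable ?_
    rw [uIcc_of_le hθ.1]
    exact hwc.mono (Icc_subset_Icc le_rfl hθ.2)
  have hintn : IntervalIntegrable (fun θ => ‖w θ‖) volume 0 Real.pi :=
    (hint Real.pi ⟨hπ.le, le_rfl⟩).norm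
  have hgb : ∀ θ ∈ Icc (0 : ℝ) Real.pi, ‖v (m + ρ * circ θ)‖ ≤ ℓ := by
    intro θ hθ
    have h0 : v (m + ρ * circ 0) = 0 := by
      have : ((m : ℂ) + ρ * circ 0) = ((m + ρ : ℝ) : ℂ) := by
        simp [circ]
      rw [this, hv0]
    have h1 : ∫ t in (0:ℝ)..θ, w t = v (m + ρ * circ θ) - v (m + ρ * circ 0) := by
      refine intervalIntegral.integral_eq_sub_of_hasDerivAt_of_le hθ.1
        (f := fun θ : ℝ => v (m + ρ * circ θ)) ?_ ?_ (hint θ hθ)
      · intro t ht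
        exact ((hg t ⟨ht.1, ht.2.trans hθ.2⟩).continuousWithinAt).mono
          (Icc_subset_Icc le_rfl hθ.2)
      · intro t ht
        exact (hg t ⟨ht.1.le, ht.2.le.trans hθ.2⟩).hasDerivAt
          (Icc_mem_nhds ht.1 (ht.2.trans_le hθ.2))
    rw [h0, sub_zero] at h1
    rw [← h1, hℓ]
    refine (intervalIntegral.norm_integral_le_integral_norm hθ.1).trans ?_
    exact intervalIntegral.integral_mono_interval le_rfl hθ.1 hθ.2
      (ae_of_all _ (fun t => norm_nonneg _)) hintn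
  have hℓ0 : 0 ≤ ℓ := by
    rw [hℓ]
    exact intervalIntegral.integral_nonneg hπ.le (fun t _ => norm_nonneg _)
  have hgoal : |∫ θ in (0:ℝ)..Real.pi, lam (v (m + ρ * circ θ)) (w θ)| ≤ B / 2 * ℓ ^ 2 := by
    rw [← Real.norm_eq_abs]
    refine (intervalIntegral.norm_integral_le_of_norm_le (g := fun θ => B / 2 * ℓ * ‖w θ‖) hπ.le
      ?_ (hintn.const_mul _)).trans ?_
    · refine ae_of_all _ (fun θ hθ => ?_)
      have hθ' : θ ∈ Icc (0 : ℝ) Real.pi := ⟨hθ.1.le, hθ.2⟩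
      rw [Real.norm_eq_abs]
      refine (hl3 _ (hvR _ (arc_mem m ρ hρ θ hθ')) _).trans ?_
      have h1 := hgb θ hθ'
      have h2 : B / 2 * ‖v (m + ρ * circ θ)‖ ≤ B / 2 * ℓ :=
        mul_le_mul_of_nonneg_left h1 (by positivity)
      exact mul_le_mul_of_nonneg_right h2 (norm_nonneg _)
    · rw [intervalIntegral.integral_const_mul, ← hℓ]
      exact le_of_eq (by ring)
  rw [hℓ] at hgoal
  rw [hw] at hgoal
  exact hgoal

end Pool.Agent.H823.HC
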