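import Mathlib
import Pool.Agent.H823.HC.StmM

/-!
# Project HC, LEN: the distance is at most the length (helper264)

The curve `c` is reparametrized by `t ↦ (a + b) / 2 - (b - a) / 2 * cos (π t)`, which maps `ℝ` to
`[a, b]`, so that the composition is of class `C^1` on `ℝ`, and which is injective on `[0, 1]`.
-/

open scoped Topology ContDiff Manifold
open Set Metric Filter MeasureTheory

noncomputable section

namespace Pool.Agent.H823.HC

universe u v w

namespace PLEN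

/-- the reparametrization -/
def gg (a b t : ℝ) : ℝ := (a + b) / 2 - (b - a) / 2 * Real.cos (Real.pi * t)

theorem gg_zero (a b : ℝ) : gg a b 0 = a := by
  unfold gg
  rw [mul_zero, Real.cos_zero]
  ring

theorem gg_one (a b : ℝ) : gg a b 1 = b := by
  unfold gg
  rw [mul_one, Real.cos_pi]
  ring

theorem gg_contDiff (a b : ℝ) : ContDiff ℝ ∞ (gg a b) := by
  unfold gg
  exact contDiff_const.sub (contDiff_const.mul
    (Real.contDiff_cos.comp (contDiff_const.mul contDiff_id)))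

theorem gg_deriv (a b t : ℝ) :
    HasDerivAt (gg a b) ((b - a) / 2 * (Real.sin (Real.pi * t) * Real.pi)) t := by
  have h1 : HasDerivAt (fun t : ℝ => Real.pi * t) Real.pi t := by
    simpa using (hasDerivAt_id t).const_mul Real.pi
  have h2 := ((h1.cos).const_mul ((b - a) / 2)).const_sub ((a + b) / 2)
  unfold gg
  refine h2.congr_deriv ?_
  ring

theorem gg_mem {a b : ℝ} (h : a ≤ b) (t : ℝ) : gg a b t ∈ Icc a b := by
  unfold gg
  have h1 := Real.neg_one_le_cos (Real.pi * t)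
  have h2 := Real.cos_le_one (Real.pi * t)
  constructor <;> nlinarith

theorem gg_inj {a b : ℝ} (h : a < b) : InjOn (gg a b) (Icc 0 1) := by
  intro s hs t ht hst
  unfold gg at hst
  have h1 : Real.cos (Real.pi * s) = Real.cos (Real.pi * t) := by
    have h2 : (b - a) / 2 ≠ 0 := (half_pos (sub_pos.2 h)).ne'
    exact mul_left_cancel₀ h2 (by linarith)
  have hp := Real.pi_pos
  have h3 : ∀ x ∈ Icc (0 : ℝ) 1, Real.pi * x ∈ Icc 0 Real.pi := fun x hx =>
    ⟨mul_nonneg hp.le hx.1, mul_le_of_le_one_right hp.le hx.2⟩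
  exact mul_left_cancel₀ hp.ne' (Real.injOn_cos (h3 s hs) (h3 t ht) h1)

theorem gg_image {a b : ℝ} (h : a ≤ b) : gg a b '' Icc 0 1 = Icc a b := by
  apply Subset.antisymm
  · rintro _ ⟨t, _, rfl⟩
    exact gg_mem h t
  · have h1 := intermediate_value_Icc (zero_le_one (α := ℝ))
      ((gg_contDiff a b).continuous.continuousOn (s := Icc (0 : ℝ) 1))
    rwa [gg_zero, gg_one] at h1

theorem clm_smul {V : Type u} [NormedAddCommGroup V] [NormedSpace ℝ V] (L : ℝ →L[ℝ] V) (D : ℝ) :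
    L D = D • L 1 := by
  rw [← map_smul, smul_eq_mul, mul_one]

theorem nrm_smul {V : Type u} [NormedAddCommGroup V] [InnerProductSpace ℝ V]
    {M : Type v} [MetricSpace M] [ChartedSpace V M] (A : AlmostKahler V M) (x : M) (D : ℝ)
    (w : TangentSpace 𝓘(ℝ, V) x) : A.nrm x (D • w) = |D| * A.nrm x w := by
  unfold AlmostKahler.nrm
  rw [map_smul, map_smul, _root_.smul_apply, map_smul, smul_eq_mul, smul_eq_mul, ← mul_assoc,
    Real.sqrt_mul (mul_self_nonneg D), Real.sqrt_mul_self_eq_abs]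

end PLEN

open PLEN in
theorem t_LEN : S_LEN.{u, v} := by
  intro V _ _ _ M _ _ _ A c a b hab hc
  rcases hab.eq_or_lt with rfl | hlt
  · rw [dist_self, intervalIntegral.integral_same]
  have hg : ContMDiff 𝓘(ℝ, ℝ) 𝓘(ℝ, ℝ) 1 (gg a b) :=
    ((gg_contDiff a b).of_le (by exact_mod_cast le_top)).contMDiff
  have hcg : ContMDiff 𝓘(ℝ, ℝ) 𝓘(ℝ, V) 1 (c ∘ gg a b) := by
    rw [← contMDiffOn_univ]
    exact hc.comp hg.contMDiffOn (fun t _ => gg_mem hab t)
  have h1 := (A.isGLB_dist (c a) (c b)).1 ⟨c ∘ gg a b, hcg, by rw [Function.comp_apply, gg_zero],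
    by rw [Function.comp_apply, gg_one], rfl⟩
  refine h1.trans (le_of_eq ?_)
  rw [intervalIntegral.integral_of_le zero_le_one, intervalIntegral.integral_of_le hab,
    ← integral_Icc_eq_integral_Ioc, ← integral_Icc_eq_integral_Ioc, ← gg_image hab,
    integral_image_eq_integral_abs_deriv_smul measurableSet_Icc
      (fun t _ => (gg_deriv a b t).hasDerivWithinAt) (gg_inj hlt), gg_image hab]
  refine setIntegral_congr_fun measurableSet_Icc fun t _ => ?_
  have h2 : mfderiv 𝓘(ℝ, ℝ) 𝓘(ℝ, V) (c ∘ gg a b) t =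
      (mfderivWithin 𝓘(ℝ, ℝ) 𝓘(ℝ, V) c (Icc a b) (gg a b t)).comp
        (mfderiv 𝓘(ℝ, ℝ) 𝓘(ℝ, ℝ) (gg a b) t) := by
    have h3 := mfderivWithin_comp (I := 𝓘(ℝ, ℝ)) (I' := 𝓘(ℝ, ℝ)) (I'' := 𝓘(ℝ, V)) (s := univ)
      (u := Icc a b) (f := gg a b) (g := c) t
      ((hc _ (gg_mem hab t)).mdifferentiableWithinAt (by simp))
      (hg.mdifferentiable (by simp) t).mdifferentiableWithinAt (fun t _ => gg_mem hab t)
      (uniqueMDiffWithinAt_univ _)
    rw [mfderivWithin_univ, mfderivWithin_univ] at h3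
    exact h3
  have h4 : fderiv ℝ (gg a b) t (1 : ℝ) = (b - a) / 2 * (Real.sin (Real.pi * t) * Real.pi) := by
    rw [(gg_deriv a b t).hasFDerivAt.fderiv]
    simp
  have h5 : (mfderiv 𝓘(ℝ, ℝ) 𝓘(ℝ, ℝ) (gg a b) t : ℝ →L[ℝ] ℝ) (1 : ℝ) =
      (b - a) / 2 * (Real.sin (Real.pi * t) * Real.pi) := by
    rw [mfderiv_eq_fderiv]
    exact h4
  have h6 : (mfderiv 𝓘(ℝ, ℝ) 𝓘(ℝ, V) (c ∘ gg a b) t : ℝ →L[ℝ] V) (1 : ℝ) =
      ((b - a) / 2 * (Real.sin (Real.pi * t) * Real.pi)) •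
        (mfderivWithin 𝓘(ℝ, ℝ) 𝓘(ℝ, V) c (Icc a b) (gg a b t) : ℝ →L[ℝ] V) (1 : ℝ) := by
    refine Eq.trans (DFunLike.congr_fun h2 (1 : ℝ)) ?_
    refine Eq.trans (congrArg (mfderivWithin 𝓘(ℝ, ℝ) 𝓘(ℝ, V) c (Icc a b) (gg a b t) :
      ℝ →L[ℝ] V) h5) ?_
    exact clm_smul (V := V) _ _
  refine (congrArg (A.nrm (c (gg a b t))) h6).trans ?_
  exact nrm_smul A _ _ _

end Pool.Agent.H823.HC

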