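import Mathlib
import Pool.Agent.H823.HC.StmM

set_option autoImplicit false

open scoped Topology ContDiff Manifold
open Set Metric Filter MeasureTheory

noncomputable section

namespace Pool.Agent.H823.HC

universe u v w

namespace PLENU

variable {V : Type u} [NormedAddCommGroup V] [InnerProductSpace ℝ V]
  {M : Type v} [MetricSpace M] [ChartedSpace V M] (A : AlmostKahler V M)

theorem om_swap (x : M) (v w : TangentSpace 𝓘(ℝ, V) x) : A.om x v w = - A.om x w v := by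
  have h := A.alt x (v + w)
  simp only [map_add, add_apply, A.alt] at h
  linarith

theorem nrm_lin (x : M) (L : ℂ →L[ℝ] TangentSpace 𝓘(ℝ, V) x)
    (hL : ∀ h : ℂ, L (Complex.I * h) = A.J x (L h)) (h : ℂ) :
    A.nrm x (L h) = A.nrm x (L 1) * ‖h‖ := by
  have h1 : L h = h.re • L 1 + h.im • A.J x (L 1) := by
    have e1 : h = h.re • (1 : ℂ) + h.im • (Complex.I * 1) := by
      apply Complex.ext <;> simp
    conv_lhs => rw [e1]
    rw [map_add, map_smul, map_smul, hL]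
  have h2 : A.J x (L h) = h.re • A.J x (L 1) - h.im • L 1 := by
    rw [h1, map_add, map_smul, map_smul, A.J_sq, smul_neg, sub_eq_add_neg]
  have h3 : A.om x (L h) (A.J x (L h)) = (h.re ^ 2 + h.im ^ 2) * A.om x (L 1) (A.J x (L 1)) := by
    rw [h2, h1]
    simp only [map_add, map_sub, map_smul, add_apply,
      smul_apply, smul_eq_mul, A.alt]
    rw [om_swap A x (A.J x (L 1)) (L 1)]
    ring
  unfold AlmostKahler.nrm
  rw [h3]
  have h4 : h.re ^ 2 + h.im ^ 2 = ‖h‖ ^ 2 := by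
    rw [← Complex.normSq_eq_norm_sq, Complex.normSq_apply]
    ring
  rw [h4, Real.sqrt_mul (by positivity), Real.sqrt_sq (norm_nonneg _), mul_comm]

end PLENU

open PLENU in
theorem t_LENU (hLEN : S_LEN.{u, v}) : S_LENU.{u, v} := by
  intro V _ _ _ M _ _ _ A u hu γ hγ a b hab hmem
  rcases eq_or_lt_of_le hab with rfl | hlt
  · simp
  have hc : ContMDiffOn 𝓘(ℝ, ℝ) 𝓘(ℝ, V) 1 (u ∘ γ) (Icc a b) := by
    have h1 : ContMDiffOn 𝓘(ℝ, ℝ) 𝓘(ℝ, ℂ) ∞ γ (Icc a b) := hγ.contMDiff.contMDiffOn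
    have h2 : ContMDiffOn 𝓘(ℝ, ℝ) 𝓘(ℝ, V) ∞ (u ∘ γ) (Icc a b) := hu.smooth.comp h1 hmem
    exact h2.of_le (by simp)
  have key := hLEN V M A (u ∘ γ) a b hab hc
  refine key.trans (le_of_eq ?_)
  apply intervalIntegral.integral_congr
  intro t ht
  rw [uIcc_of_le hab] at ht
  have hus : UniqueMDiffWithinAt 𝓘(ℝ, ℝ) (Icc a b) t :=
    (uniqueDiffOn_Icc hlt t ht).uniqueMDiffWithinAt
  have hγd : MDifferentiableWithinAt 𝓘(ℝ, ℝ) 𝓘(ℝ, ℂ) γ (Icc a b) t :=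
    ((hγ.differentiable (by simp)) t).mdifferentiableAt.mdifferentiableWithinAt
  have hud : MDifferentiableWithinAt 𝓘(ℝ, ℂ) 𝓘(ℝ, V) u Dom (γ t) :=
    (hu.smooth (γ t) (hmem t ht)).mdifferentiableWithinAt (by simp)
  have hcomp := mfderivWithin_comp t hud hγd hmem hus
  have hdγ : mfderivWithin 𝓘(ℝ, ℝ) 𝓘(ℝ, ℂ) γ (Icc a b) t (1 : ℝ) = deriv γ t := by
    rw [mfderivWithin_eq_fderivWithin]
    show derivWithin γ (Icc a b) t = deriv γ t
    exact ((hγ.differentiable (by simp)) t).derivWithin (uniqueDiffOn_Icc hlt t ht)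
  show A.nrm (u (γ t)) (mfderivWithin 𝓘(ℝ, ℝ) 𝓘(ℝ, V) (u ∘ γ) (Icc a b) t (1:ℝ)) = _
  rw [hcomp]
  show A.nrm (u (γ t)) (mfderivWithin 𝓘(ℝ, ℂ) 𝓘(ℝ, V) u Dom (γ t)
    (mfderivWithin 𝓘(ℝ, ℝ) 𝓘(ℝ, ℂ) γ (Icc a b) t (1:ℝ))) = _
  rw [hdγ]
  exact nrm_lin A (u (γ t)) (mfderivWithin 𝓘(ℝ, ℂ) 𝓘(ℝ, V) u Dom (γ t))
    (hu.hol (γ t) (hmem t ht)) (deriv γ t)

end Pool.Agent.H823.HC
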