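import Mathlib
import Pool.Agent.H823.HC.StmV

open scoped Topology ContDiff Manifold
open Set Metric Filter MeasureTheory

noncomputable section

namespace Pool.Agent.H823.HC

universe u

namespace PLIFT

variable {V : Type u} [NormedAddCommGroup V] [InnerProductSpace ℝ V] [FiniteDimensional ℝ V]

/-- The slope of `S` over `T` at `x` is at most `a`. -/
def Slope (S : Set V) (T : Submodule ℝ V) (a : ℝ) (x : V) : Prop :=
  ∀ w ∈ tanV S x, ‖w - T.orthogonalProjectionOnto w‖ ≤ a * ‖T.orthogonalProjectionOnto w‖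

theorem deriv_mem {W : Submodule ℝ V} {c : ℝ → V} {d : V} (hd : HasDerivAt c d 0)
    (hW : ∀ᶠ t in 𝓝 (0:ℝ), c t ∈ W) : d ∈ W := by
  have hcl : IsClosed (W : Set V) := W.closed_of_finiteDimensional
  have h1 := hd.tendsto_slope
  have h0 : c 0 ∈ W := hW.self_of_nhds
  refine hcl.mem_of_tendsto h1 ?_
  have h2 : ∀ᶠ t in 𝓝[≠] (0:ℝ), c t ∈ W := hW.filter_mono nhdsWithin_le_nhds
  filter_upwards [h2] with t ht
  rw [slope_def_module]
  exact W.smul_mem _ (W.sub_mem ht h0)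

theorem tan_to {S : Set V} {Φ : OpenPartialHomeomorph V V} {W : Submodule ℝ V}
    (hΦ : ContDiffOn ℝ ∞ Φ Φ.source) (hS : ∀ z ∈ Φ.source, (z ∈ S ↔ Φ z ∈ W)) {x : V}
    (hx : x ∈ Φ.source) {w : V} (hw : w ∈ tanV S x) : fderiv ℝ Φ x w ∈ W := by
  obtain ⟨c, hc, hc0, hcS, hcd⟩ := hw
  have hcc : HasDerivAt c w 0 := by
    rw [← hcd]
    exact (hc.differentiableAt (by simp)).hasDerivAt
  have hΦx : DifferentiableAt ℝ Φ x :=
    ((hΦ x hx).contDiffAt (Φ.open_source.mem_nhds hx)).differentiableAt (by simp)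
  have h1 : HasDerivAt (fun t => Φ (c t)) (fderiv ℝ Φ x w) 0 := by
    have h2 : HasFDerivAt Φ (fderiv ℝ Φ x) (c 0) := by rw [hc0]; exact hΦx.hasFDerivAt
    exact h2.comp_hasDerivAt 0 hcc
  refine deriv_mem h1 ?_
  have h3 : ∀ᶠ t in 𝓝 (0:ℝ), c t ∈ Φ.source := by
    have : ContinuousAt c 0 := hc.continuousAt
    exact this.eventually_mem (by rw [hc0]; exact Φ.open_source.mem_nhds hx)
  filter_upwards [h3, hcS] with t h4 h5
  exact (hS _ h4).1 h5

omit [FiniteDimensional ℝ V] in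
theorem tan_of {S : Set V} {Φ : OpenPartialHomeomorph V V} {W : Submodule ℝ V}
    (hΦ : ContDiffOn ℝ ∞ Φ.symm Φ.target) (hS : ∀ z ∈ Φ.source, (z ∈ S ↔ Φ z ∈ W)) {x : V}
    (hx : x ∈ Φ.source) (hxS : x ∈ S) {w : V} (hw : w ∈ W) :
    fderiv ℝ Φ.symm (Φ x) w ∈ tanV S x := by
  have hΦx : Φ x ∈ Φ.target := Φ.map_source hx
  have hc : ContDiffAt ℝ ∞ Φ.symm (Φ x) := (hΦ _ hΦx).contDiffAt (Φ.open_target.mem_nhds hΦx)
  have hline : ContDiffAt ℝ ∞ (fun s : ℝ => Φ x + s • w) 0 := by fun_prop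
  refine ⟨fun s => Φ.symm (Φ x + s • w), ?_, ?_, ?_, ?_⟩
  · have h0 : ContDiffAt ℝ ∞ Φ.symm ((fun s : ℝ => Φ x + s • w) 0) := by simpa using hc
    exact h0.comp (0:ℝ) hline
  · simp [Φ.left_inv hx]
  · have h3 : ∀ᶠ t in 𝓝 (0:ℝ), Φ x + t • w ∈ Φ.target := by
      have : ContinuousAt (fun s : ℝ => Φ x + s • w) 0 := hline.continuousAt
      exact this.eventually_mem (by simpa using Φ.open_target.mem_nhds hΦx)
    filter_upwards [h3] with t ht
    rw [hS _ (Φ.map_target ht), Φ.right_inv ht]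
    exact W.add_mem ((hS _ hx).1 hxS) (W.smul_mem _ hw)
  · have hd : HasDerivAt (fun s : ℝ => Φ x + s • w) w 0 := by
      simpa using ((hasDerivAt_id (0:ℝ)).smul_const w).const_add (Φ x)
    have h2 : HasFDerivAt Φ.symm (fderiv ℝ Φ.symm (Φ x)) ((fun s : ℝ => Φ x + s • w) 0) := by
      simpa using (hc.differentiableAt (by simp)).hasFDerivAt
    exact (h2.comp_hasDerivAt 0 hd).deriv

theorem slope_lim {ι : Type*} {l : Filter ι} [l.NeBot] {n : ℕ} {S : Set V} {T : Submodule ℝ V}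
    {a : ℝ} {γ : ι → V} {x : V} (hx : SliceAt n S x) (hγ : Tendsto γ l (𝓝 x))
    (hγS : ∀ᶠ i in l, γ i ∈ S) (hs : ∀ᶠ i in l, Slope S T a (γ i)) : Slope S T a x := by
  obtain ⟨Φ, hxΦ, hΦ, hΦs, W, -, hS⟩ := hx
  intro u hu
  set w := fderiv ℝ Φ x u with hwdef
  have hw : w ∈ W := tan_to hΦ hS hxΦ hu
  have hsrc : ∀ᶠ i in l, γ i ∈ Φ.source := hγ.eventually_mem (Φ.open_source.mem_nhds hxΦ)
  have hmem : ∀ᶠ i in l, fderiv ℝ Φ.symm (Φ (γ i)) w ∈ tanV S (γ i) := by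
    filter_upwards [hsrc, hγS] with i h1 h2
    exact tan_of hΦs hS h1 h2 hw
  have hΦx : Φ x ∈ Φ.target := Φ.map_source hxΦ
  have hc1 : ContDiffAt ℝ ∞ Φ.symm (Φ x) := (hΦs _ hΦx).contDiffAt (Φ.open_target.mem_nhds hΦx)
  have hc2 : ContDiffAt ℝ ∞ Φ x := (hΦ _ hxΦ).contDiffAt (Φ.open_source.mem_nhds hxΦ)
  have hinv : fderiv ℝ Φ.symm (Φ x) w = u := by
    have h1 : HasFDerivAt Φ.symm (fderiv ℝ Φ.symm (Φ x)) (Φ x) :=
      (hc1.differentiableAt (by simp)).hasFDerivAt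
    have h2 : HasFDerivAt Φ (fderiv ℝ Φ x) x := (hc2.differentiableAt (by simp)).hasFDerivAt
    have h3 := h1.comp x h2
    have h4 : (Φ.symm ∘ Φ) =ᶠ[𝓝 x] id := by
      filter_upwards [Φ.open_source.mem_nhds hxΦ] with y hy
      exact Φ.left_inv hy
    have h5 := h3.congr_of_eventuallyEq h4.symm
    have h6 := h5.unique (hasFDerivAt_id x)
    have h7 := DFunLike.congr_fun h6 u
    simpa using h7
  have hlim : Tendsto (fun i => fderiv ℝ Φ.symm (Φ (γ i)) w) l (𝓝 u) := by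
    have h1 : ContinuousAt (fderiv ℝ Φ.symm) (Φ x) :=
      (hc1.fderiv_right (m := ∞) (by simp)).continuousAt
    have h2 : Tendsto (fun i => Φ (γ i)) l (𝓝 (Φ x)) := (hc2.continuousAt.tendsto).comp hγ
    have h3 := (h1.tendsto).comp h2
    have h4 : Continuous fun A : V →L[ℝ] V => A w := by fun_prop
    have h5 := (h4.tendsto (fderiv ℝ Φ.symm (Φ x))).comp h3
    rw [hinv] at h5
    exact h5
  have hP : Tendsto (fun i => T.orthogonalProjectionOnto (fderiv ℝ Φ.symm (Φ (γ i)) w)) l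
      (𝓝 (T.orthogonalProjectionOnto u)) :=
    (T.orthogonalProjectionOnto.continuous.tendsto u).comp hlim
  have hP' : Tendsto (fun i => ((T.orthogonalProjectionOnto
      (fderiv ℝ Φ.symm (Φ (γ i)) w) : T) : V)) l (𝓝 ((T.orthogonalProjectionOnto u : T) : V)) :=
    (continuous_subtype_val.tendsto _).comp hP
  refine le_of_tendsto_of_tendsto (hlim.sub hP').norm (hP.norm.const_mul a) ?_
  filter_upwards [hmem, hs] with i h1 h2
  exact h2 _ h1

/-- The data of a local section at `x₀`. -/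
structure LS (S : Set V) (T : Submodule ℝ V) (x₀ : V) (δ δ' : ℝ) (f : T → V) : Prop where
  dpos : 0 < δ
  dpos' : 0 < δ'
  smooth : ContDiffOn ℝ ∞ f (ball (T.orthogonalProjectionOnto x₀) δ)
  map : f (T.orthogonalProjectionOnto x₀) = x₀
  sec : ∀ t ∈ ball (T.orthogonalProjectionOnto x₀) δ, f t ∈ S ∧
    T.orthogonalProjectionOnto (f t) = t
  loc : ∀ x ∈ S, dist x x₀ < δ' →
    T.orthogonalProjectionOnto x ∈ ball (T.orthogonalProjectionOnto x₀) δ ∧
      f (T.orthogonalProjectionOnto x) = x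

theorem LS.cda {S : Set V} {T : Submodule ℝ V} {x₀ : V} {δ δ' : ℝ} {f : T → V}
    (h : LS S T x₀ δ δ' f) {t : T} (ht : t ∈ ball (T.orthogonalProjectionOnto x₀) δ) :
    ContDiffAt ℝ ∞ f t := (h.smooth t ht).contDiffAt (isOpen_ball.mem_nhds ht)

theorem LS.da {S : Set V} {T : Submodule ℝ V} {x₀ : V} {δ δ' : ℝ} {f : T → V}
    (h : LS S T x₀ δ δ' f) {t : T} (ht : t ∈ ball (T.orthogonalProjectionOnto x₀) δ) :
    DifferentiableAt ℝ f t := (h.cda ht).differentiableAt (by simp)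

theorem LS.tan {S : Set V} {T : Submodule ℝ V} {x₀ : V} {δ δ' : ℝ} {f : T → V}
    (h : LS S T x₀ δ δ' f) {t : T} (ht : t ∈ ball (T.orthogonalProjectionOnto x₀) δ) (w : T) :
    fderiv ℝ f t w ∈ tanV S (f t) := by
  have hline : ContDiffAt ℝ ∞ (fun s : ℝ => t + s • w) 0 := by fun_prop
  refine ⟨fun s => f (t + s • w), ?_, ?_, ?_, ?_⟩
  · have h0 : ContDiffAt ℝ ∞ f ((fun s : ℝ => t + s • w) 0) := by simpa using h.cda ht
    exact h0.comp (0:ℝ) hline
  · simp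
  · have h3 : ∀ᶠ s in 𝓝 (0:ℝ), t + s • w ∈ ball (T.orthogonalProjectionOnto x₀) δ := by
      have : ContinuousAt (fun s : ℝ => t + s • w) 0 := hline.continuousAt
      exact this.eventually_mem (by simpa using isOpen_ball.mem_nhds ht)
    filter_upwards [h3] with s hs
    exact (h.sec _ hs).1
  · have hd : HasDerivAt (fun s : ℝ => t + s • w) w 0 := by
      simpa using ((hasDerivAt_id (0:ℝ)).smul_const w).const_add t
    have h2 : HasFDerivAt f (fderiv ℝ f t) ((fun s : ℝ => t + s • w) 0) := by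
      simpa using (h.da ht).hasFDerivAt
    exact (h2.comp_hasDerivAt 0 hd).deriv

theorem LS.proj {S : Set V} {T : Submodule ℝ V} {x₀ : V} {δ δ' : ℝ} {f : T → V}
    (h : LS S T x₀ δ δ' f) {t : T} (ht : t ∈ ball (T.orthogonalProjectionOnto x₀) δ) (w : T) :
    T.orthogonalProjectionOnto (fderiv ℝ f t w) = w := by
  have h1 := T.orthogonalProjectionOnto.hasFDerivAt.comp t (h.da ht).hasFDerivAt
  have h2 : (T.orthogonalProjectionOnto ∘ f) =ᶠ[𝓝 t] id := by
    filter_upwards [isOpen_ball.mem_nhds ht] with y hy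
    exact (h.sec y hy).2
  have h3 := (h1.congr_of_eventuallyEq h2.symm).unique (hasFDerivAt_id t)
  have h4 := DFunLike.congr_fun h3 w
  simpa using h4

theorem LS.tan_eq {S : Set V} {T : Submodule ℝ V} {x₀ : V} {δ δ' : ℝ} {f : T → V}
    (h : LS S T x₀ δ δ' f) {t : T} (ht : t ∈ ball (T.orthogonalProjectionOnto x₀) δ)
    (hd : dist (f t) x₀ < δ') {u : V} (hu : u ∈ tanV S (f t)) :
    fderiv ℝ f t (T.orthogonalProjectionOnto u) = u := by
  obtain ⟨c, hc, hc0, hcS, hcd⟩ := hu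
  have hcc : HasDerivAt c u 0 := by
    rw [← hcd]
    exact (hc.differentiableAt (by simp)).hasDerivAt
  have h1 : HasDerivAt (fun s => T.orthogonalProjectionOnto (c s))
      (T.orthogonalProjectionOnto u) 0 :=
    (T.orthogonalProjectionOnto.hasFDerivAt (x := c 0)).comp_hasDerivAt 0 hcc
  have hPt : T.orthogonalProjectionOnto (c 0) = t := by rw [hc0]; exact (h.sec t ht).2
  have h2 : HasFDerivAt f (fderiv ℝ f t) (T.orthogonalProjectionOnto (c 0)) := by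
    rw [hPt]
    exact (h.da ht).hasFDerivAt
  have h3 : HasDerivAt (fun s => f (T.orthogonalProjectionOnto (c s)))
      (fderiv ℝ f t (T.orthogonalProjectionOnto u)) 0 := h2.comp_hasDerivAt 0 h1
  have h4 : (fun s => f (T.orthogonalProjectionOnto (c s))) =ᶠ[𝓝 0] c := by
    have h5 : ∀ᶠ s in 𝓝 (0:ℝ), dist (c s) x₀ < δ' := by
      have h6 : ContinuousAt c 0 := hc.continuousAt
      have h7 : ContinuousAt (fun s => dist (c s) x₀) 0 := h6.dist continuousAt_const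
      exact h7.eventually_lt continuousAt_const (by rw [hc0]; exact hd)
    filter_upwards [h5, hcS] with s h6 h7
    exact (h.loc _ h7 h6).2
  exact (h3.congr_of_eventuallyEq h4.symm).unique hcc

theorem LS.slope_of {S : Set V} {T : Submodule ℝ V} {x₀ : V} {δ δ' : ℝ} {f : T → V}
    (h : LS S T x₀ δ δ' f) {t : T} (ht : t ∈ ball (T.orthogonalProjectionOnto x₀) δ)
    (hd : dist (f t) x₀ < δ') {a : ℝ} (ha : ∀ w : T, ‖fderiv ℝ f t w - w‖ ≤ a * ‖w‖) :
    Slope S T a (f t) := by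
  intro u hu
  have h1 := ha (T.orthogonalProjectionOnto u)
  rwa [h.tan_eq ht hd hu] at h1

theorem LS.slope_to {S : Set V} {T : Submodule ℝ V} {x₀ : V} {δ δ' : ℝ} {f : T → V}
    (h : LS S T x₀ δ δ' f) {t : T} (ht : t ∈ ball (T.orthogonalProjectionOnto x₀) δ) {a : ℝ}
    (ha : Slope S T a (f t)) (w : T) : ‖fderiv ℝ f t w - w‖ ≤ a * ‖w‖ := by
  have h1 := ha _ (h.tan ht w)
  rwa [h.proj ht w] at h1

/-- A lift over `[0, τ]`. -/
structure Lift (S : Set V) (T : Submodule ℝ V) (v : T) (C τ : ℝ) (γ : ℝ → V) : Prop where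
  zero : γ 0 = 0
  lip : ∀ s ∈ Icc (0:ℝ) τ, ∀ t ∈ Icc (0:ℝ) τ, s ≤ t → ‖γ s - γ t‖ ≤ 5 / 4 * ‖v‖ * (t - s)
  mem : ∀ t ∈ Icc (0:ℝ) τ, γ t ∈ S
  proj : ∀ t ∈ Icc (0:ℝ) τ, T.orthogonalProjectionOnto (γ t) = t • v
  slope : ∀ t ∈ Icc (0:ℝ) τ, Slope S T (C * t * ‖v‖) (γ t)

theorem Lift.mono {S : Set V} {T : Submodule ℝ V} {v : T} {C τ τ' : ℝ} {γ : ℝ → V}
    (h : Lift S T v C τ γ) (hτ : τ' ≤ τ) : Lift S T v C τ' γ where
  zero := h.zero
  lip s hs t ht := h.lip s ⟨hs.1, hs.2.trans hτ⟩ t ⟨ht.1, ht.2.trans hτ⟩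
  mem t ht := h.mem t ⟨ht.1, ht.2.trans hτ⟩
  proj t ht := h.proj t ⟨ht.1, ht.2.trans hτ⟩
  slope t ht := h.slope t ⟨ht.1, ht.2.trans hτ⟩

theorem Lift.lip' {S : Set V} {T : Submodule ℝ V} {v : T} {C τ : ℝ} {γ : ℝ → V}
    (h : Lift S T v C τ γ) {s t : ℝ} (hs : s ∈ Icc (0:ℝ) τ) (ht : t ∈ Icc (0:ℝ) τ) :
    ‖γ s - γ t‖ ≤ 5 / 4 * ‖v‖ * |t - s| := by
  rcases le_total s t with h1 | h1
  · rw [abs_of_nonneg (by linarith)]
    exact h.lip s hs t ht h1
  · rw [abs_of_nonpos (by linarith), norm_sub_rev]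
    have := h.lip t ht s hs h1
    linarith

theorem Lift.cont {S : Set V} {T : Submodule ℝ V} {v : T} {C τ : ℝ} {γ : ℝ → V}
    (h : Lift S T v C τ γ) : ContinuousOn γ (Icc 0 τ) := by
  have h1 : LipschitzOnWith (5 / 4 * ‖v‖).toNNReal γ (Icc 0 τ) := by
    refine LipschitzOnWith.of_dist_le_mul ?_
    intro s hs t ht
    rw [dist_eq_norm, Real.dist_eq, Real.coe_toNNReal _ (by positivity)]
    rw [abs_sub_comm]
    exact h.lip' hs ht
  exact h1.continuousOn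

theorem getLS (hLOC : S_LOC.{u}) {n : ℕ} {S : Set V} {x₀ : V} {T : Submodule ℝ V}
    (hsl : SliceAt n S x₀) (hx : x₀ ∈ S) (hT : Module.finrank ℝ T = n) {a : ℝ}
    (hs : Slope S T a x₀) : ∃ δ δ' f, LS S T x₀ δ δ' f := by
  obtain ⟨δ, hδ, δ', hδ', f, h1, h2, h3, h4⟩ := hLOC V n S x₀ T hsl hx hT (by
    intro w hw hw0
    have h5 := hs w hw
    rw [hw0] at h5
    simpa using h5)
  exact ⟨δ, δ', f, hδ, hδ', h1, h2, h3, h4⟩

theorem Lift.uniq (hLOC : S_LOC.{u}) {n : ℕ} {S : Set V} {T : Submodule ℝ V} {v : T} {C τ : ℝ}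
    {γ γ' : ℝ → V} (hsl : ∀ x ∈ S, SliceAt n S x) (hT : Module.finrank ℝ T = n)
    (h : Lift S T v C τ γ) (h' : Lift S T v C τ γ') : ∀ t ∈ Icc (0:ℝ) τ, γ t = γ' t := by
  have hcl : IsClosed ({t | γ t = γ' t} ∩ Icc (0:ℝ) τ) := by
    have h1 : ContinuousOn (fun t => γ t - γ' t) (Icc 0 τ) := h.cont.sub h'.cont
    have h2 := h1.preimage_isClosed_of_isClosed isClosed_Icc (isClosed_singleton (x := (0:V)))
    have h3 : ({t | γ t = γ' t} ∩ Icc (0:ℝ) τ) =
        Icc 0 τ ∩ (fun t => γ t - γ' t) ⁻¹' {0} := by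
      ext t
      simp [sub_eq_zero, and_comm]
    rw [h3]
    exact h2
  refine hcl.Icc_subset_of_forall_mem_nhdsWithin ?_ ?_
  · show γ 0 = γ' 0
    rw [h.zero, h'.zero]
  · rintro x ⟨hx1, hx2⟩
    have hx3 : x ∈ Icc (0:ℝ) τ := ⟨hx2.1, hx2.2.le⟩
    have hx4 : γ x = γ' x := hx1
    obtain ⟨δ, δ', f, hf⟩ := getLS hLOC (hsl _ (h.mem x hx3)) (h.mem x hx3) hT (h.slope x hx3)
    have hI : Icc (0:ℝ) τ ∈ 𝓝[>] x := Icc_mem_nhdsGT_of_mem hx2
    have h1 : Tendsto γ (𝓝[>] x) (𝓝 (γ x)) :=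
      (h.cont x hx3).mono_left (nhdsWithin_le_of_mem hI)
    have h2 : Tendsto γ' (𝓝[>] x) (𝓝 (γ x)) := by
      rw [hx4]
      exact (h'.cont x hx3).mono_left (nhdsWithin_le_of_mem hI)
    have h3 : ∀ᶠ t in 𝓝[>] x, dist (γ t) (γ x) < δ' :=
      h1.eventually (ball_mem_nhds _ hf.dpos')
    have h4 : ∀ᶠ t in 𝓝[>] x, dist (γ' t) (γ x) < δ' :=
      h2.eventually (ball_mem_nhds _ hf.dpos')
    filter_upwards [h3, h4, hI] with t h5 h6 h7
    have h8 := (hf.loc _ (h.mem t h7) h5).2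
    have h9 := (hf.loc _ (h'.mem t h7) h6).2
    show γ t = γ' t
    rw [← h8, ← h9, h.proj t h7, h'.proj t h7]

section Gen

variable {E F : Type*} [NormedAddCommGroup E] [NormedSpace ℝ E] [NormedAddCommGroup F]
  [NormedSpace ℝ F]

theorem gen_mvt2 (f : E → F) {s : Set E} (hs : Convex ℝ s) (hf : ∀ x ∈ s, ContDiffAt ℝ ∞ f x)
    {C : ℝ} (hC : 0 ≤ C)
    (hb : ∀ x ∈ s, ∀ w w' : E, ‖fderiv ℝ (fderiv ℝ f) x w w'‖ ≤ C * ‖w‖ * ‖w'‖) {x y : E}
    (hx : x ∈ s) (hy : y ∈ s) (w : E) :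
    ‖fderiv ℝ f y w - fderiv ℝ f x w‖ ≤ C * ‖y - x‖ * ‖w‖ := by
  have h1 : ‖fderiv ℝ f y - fderiv ℝ f x‖ ≤ C * ‖y - x‖ := by
    refine hs.norm_image_sub_le_of_norm_fderiv_le (𝕜 := ℝ) ?_ ?_ hx hy
    · intro t ht
      exact ((hf t ht).fderiv_right (m := ∞) (by simp)).differentiableAt (by simp)
    · intro t ht
      refine ContinuousLinearMap.opNorm_le_bound _ hC ?_
      intro w
      exact ContinuousLinearMap.opNorm_le_bound _ (by positivity) (fun w' => hb t ht w w')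
  exact (fderiv ℝ f y - fderiv ℝ f x).le_of_opNorm_le h1 w

theorem gen_mvt1 (f : E → F) {s : Set E} (hs : Convex ℝ s) (hf : ∀ x ∈ s, DifferentiableAt ℝ f x)
    {C : ℝ} (hC : 0 ≤ C) (hb : ∀ x ∈ s, ∀ w : E, ‖fderiv ℝ f x w‖ ≤ C * ‖w‖) {x y : E}
    (hx : x ∈ s) (hy : y ∈ s) : ‖f y - f x‖ ≤ C * ‖y - x‖ := by
  refine hs.norm_image_sub_le_of_norm_fderiv_le hf ?_ hx hy
  intro t ht
  exact ContinuousLinearMap.opNorm_le_bound _ hC (hb t ht)

theorem gen_ev (f : E → F) (j : E →L[ℝ] F) {t₀ : E} (hf : ContDiffAt ℝ ∞ f t₀) {a b : ℝ}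
    (ha : 0 ≤ a) (hab : a < b) (h : ∀ w, ‖fderiv ℝ f t₀ w - j w‖ ≤ a * ‖w‖) :
    ∀ᶠ t in 𝓝 t₀, ∀ w, ‖fderiv ℝ f t w - j w‖ ≤ b * ‖w‖ := by
  have h1 : ‖fderiv ℝ f t₀ - j‖ ≤ a := ContinuousLinearMap.opNorm_le_bound _ ha h
  have h2 : ContinuousAt (fun t => ‖fderiv ℝ f t - j‖) t₀ :=
    ((hf.fderiv_right (m := ∞) (by simp)).continuousAt.sub continuousAt_const).norm
  have h3 : ∀ᶠ t in 𝓝 t₀, ‖fderiv ℝ f t - j‖ < b :=
    h2.eventually_lt continuousAt_const (lt_of_le_of_lt h1 hab)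
  filter_upwards [h3] with t ht w
  exact (fderiv ℝ f t - j).le_of_opNorm_le ht.le w

end Gen

theorem Slope.mono {S : Set V} {T : Submodule ℝ V} {a b : ℝ} {x : V} (h : Slope S T a x)
    (hab : a ≤ b) : Slope S T b x := fun w hw =>
  (h w hw).trans (mul_le_mul_of_nonneg_right hab (norm_nonneg _))

theorem Lift.extend (hLOC : S_LOC.{u}) (hHESS : S_HESS.{u}) {r K Lam : ℝ} {n : ℕ}
    {G Om : V → V →L[ℝ] V →L[ℝ] ℝ} {S : Set V} (hr : 0 < r) (hK : 1 ≤ K) (hL : 0 ≤ Lam)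
    (hS : ChartPiece r K Lam n G Om S) {T : Submodule ℝ V} (hT : Module.finrank ℝ T = n)
    {v : T} {C : ℝ} (hC : C = 3 * (Lam + 3 / 2) * K ^ 3) (hC0 : 0 ≤ C) (hCv : C * ‖v‖ < 1 / 4)
    {τ : ℝ} (h0 : 0 ≤ τ) (h1 : τ < 1) {γ : ℝ → V} (h : Lift S T v C τ γ) {y : ℝ} (hy : τ < y) :
    ∃ τ' ∈ Ioc τ y, ∃ γ', Lift S T v C τ' γ' := by
  have hτ : τ ∈ Icc 0 τ := ⟨h0, le_rfl⟩
  obtain ⟨δ, δ', f, hf⟩ := getLS hLOC (hS.S_slice _ (h.mem τ hτ)) (h.mem τ hτ) hT (h.slope τ hτ)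
  have hP : T.orthogonalProjectionOnto (γ τ) = τ • v := h.proj τ hτ
  have hb0 : τ • v ∈ ball (T.orthogonalProjectionOnto (γ τ)) δ := by
    rw [hP]; exact mem_ball_self hf.dpos
  have hft : f (τ • v) = γ τ := by rw [← hP]; exact hf.map
  have hv0 := norm_nonneg v
  have hlt : C * τ * ‖v‖ < 1 / 4 := by nlinarith [mul_nonneg hC0 hv0]
  have hev0 : ∀ᶠ t in 𝓝 (τ • v), ∀ w : T, ‖fderiv ℝ f t w - w‖ ≤ 1 / 4 * ‖w‖ := by
    refine gen_ev f T.subtypeL (hf.cda hb0) (a := C * τ * ‖v‖) (by positivity) hlt ?_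
    intro w
    refine hf.slope_to hb0 ?_ w
    rw [hft]
    exact h.slope τ hτ
  have hev : ∀ᶠ t in 𝓝 (τ • v), t ∈ ball (T.orthogonalProjectionOnto (γ τ)) δ ∧
      dist (f t) (γ τ) < δ' ∧ ∀ w : T, ‖fderiv ℝ f t w - w‖ ≤ 1 / 4 * ‖w‖ := by
    have h2 : ContinuousAt (fun t => dist (f t) (γ τ)) (τ • v) :=
      (hf.cda hb0).continuousAt.dist continuousAt_const
    have h3 : ∀ᶠ t in 𝓝 (τ • v), dist (f t) (γ τ) < δ' :=
      h2.eventually_lt continuousAt_const (by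
        show dist (f (τ • v)) (γ τ) < δ'
        rw [hft, dist_self]; exact hf.dpos')
    filter_upwards [isOpen_ball.mem_nhds hb0, h3, hev0] with t h5 h6 h7
    exact ⟨h5, h6, h7⟩
  obtain ⟨ρ, hρ, hball⟩ := Metric.eventually_nhds_iff_ball.1 hev
  have hbC : ∀ t ∈ ball (τ • v) ρ, ∀ w w' : T,
      ‖fderiv ℝ (fderiv ℝ f) t w w'‖ ≤ C * ‖w‖ * ‖w'‖ := by
    intro t ht
    obtain ⟨h5, h6, h7⟩ := hball t ht
    have h8 := hHESS V r K Lam n G Om S hr hK hL hS T hT f t (hf.cda h5) (by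
      filter_upwards [isOpen_ball.mem_nhds h5] with t' ht'
      exact hf.sec t' ht') (by
      intro w
      have h9 := h7 w
      have h10 := norm_nonneg w
      linarith)
    rw [hC]
    exact h8
  have hb1 : τ • v ∈ ball (τ • v) ρ := mem_ball_self hρ
  have hDD : ∀ t ∈ ball (τ • v) ρ, ∀ w : T,
      ‖fderiv ℝ f t w - fderiv ℝ f (τ • v) w‖ ≤ C * ‖t - τ • v‖ * ‖w‖ := by
    intro t ht w
    exact gen_mvt2 f (convex_ball (τ • v) ρ) (fun t' ht' => hf.cda (hball t' ht').1) hC0 hbC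
      hb1 ht w
  have hff : ∀ t ∈ ball (τ • v) ρ, ∀ t' ∈ ball (τ • v) ρ, ‖f t - f t'‖ ≤ 5 / 4 * ‖t - t'‖ := by
    intro t ht t' ht'
    refine gen_mvt1 f (convex_ball (τ • v) ρ) (fun t'' ht'' => hf.da (hball t'' ht'').1)
      (by norm_num) ?_ ht' ht
    intro t'' ht'' w
    have h5 := (hball t'' ht'').2.2 w
    have h6 : fderiv ℝ f t'' w = (fderiv ℝ f t'' w - w) + w := by abel
    rw [h6]
    have h7 := norm_add_le (fderiv ℝ f t'' w - w) (w : V)
    have h8 : ‖(w : V)‖ = ‖w‖ := rfl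
    linarith
  set η : ℝ := min (y - τ) (ρ / (2 * (‖v‖ + 1))) with hη
  have hη0 : 0 < η := lt_min (by linarith) (by positivity)
  have hηy : η ≤ y - τ := min_le_left _ _
  have hηρ : η * ‖v‖ < ρ := by
    have h5 : η ≤ ρ / (2 * (‖v‖ + 1)) := min_le_right _ _
    have h6 : ρ / (2 * (‖v‖ + 1)) * (2 * (‖v‖ + 1)) = ρ := by
      field_simp
    nlinarith
  have hin : ∀ t, τ ≤ t → t ≤ τ + η → t • v ∈ ball (τ • v) ρ := by
    intro t ht1 ht2
    rw [mem_ball, dist_eq_norm, ← sub_smul, norm_smul, Real.norm_eq_abs,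
      abs_of_nonneg (by linarith)]
    have : (t - τ) * ‖v‖ ≤ η * ‖v‖ := mul_le_mul_of_nonneg_right (by linarith) hv0
    linarith
  have hsub : ∀ s t : ℝ, s ≤ t → ‖s • v - t • v‖ = (t - s) * ‖v‖ := by
    intro s t hst
    rw [norm_sub_rev, ← sub_smul, norm_smul, Real.norm_eq_abs, abs_of_nonneg (by linarith)]
  refine ⟨τ + η, ⟨by linarith, by linarith⟩, fun t => if t ≤ τ then γ t else f (t • v), ?_, ?_,
    ?_, ?_, ?_⟩
  · simp only [h0, if_true]
    exact h.zero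
  · intro s hs t ht hst
    by_cases h5 : t ≤ τ
    · have h6 : s ≤ τ := hst.trans h5
      simp only [h5, h6, if_true]
      exact h.lip s ⟨hs.1, h6⟩ t ⟨ht.1, h5⟩ hst
    · push Not at h5
      by_cases h6 : s ≤ τ
      · simp only [not_le.2 h5, h6, if_true, if_false]
        have h7 := h.lip s ⟨hs.1, h6⟩ τ hτ h6
        have h8 := hff (τ • v) hb1 (t • v) (hin t h5.le ht.2)
        rw [hft, hsub τ t h5.le] at h8
        have h9 : γ s - f (t • v) = (γ s - γ τ) + (γ τ - f (t • v)) := by abel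
        rw [h9]
        refine (norm_add_le _ _).trans ?_
        nlinarith
      · push Not at h6
        simp only [not_le.2 h5, not_le.2 h6, if_false]
        have h8 := hff (s • v) (hin s h6.le hs.2) (t • v) (hin t h5.le ht.2)
        rw [hsub s t hst] at h8
        linarith
  · intro t ht
    by_cases h5 : t ≤ τ
    · simp only [h5, if_true]
      exact h.mem t ⟨ht.1, h5⟩
    · simp only [h5, if_false]
      push Not at h5
      exact (hf.sec _ (hball _ (hin t h5.le ht.2)).1).1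
  · intro t ht
    by_cases h5 : t ≤ τ
    · simp only [h5, if_true]
      exact h.proj t ⟨ht.1, h5⟩
    · simp only [h5, if_false]
      push Not at h5
      exact (hf.sec _ (hball _ (hin t h5.le ht.2)).1).2
  · intro t ht
    by_cases h5 : t ≤ τ
    · simp only [h5, if_true]
      exact h.slope t ⟨ht.1, h5⟩
    · simp only [h5, if_false]
      push Not at h5
      have h6 := hin t h5.le ht.2
      obtain ⟨h7, h8, -⟩ := hball _ h6
      refine hf.slope_of h7 h8 ?_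
      intro w
      have h9 := hDD _ h6 w
      rw [norm_sub_rev (t • v), hsub τ t h5.le] at h9
      have h10 : ‖fderiv ℝ f (τ • v) w - w‖ ≤ C * τ * ‖v‖ * ‖w‖ := by
        refine hf.slope_to hb0 ?_ w
        rw [hft]
        exact h.slope τ hτ
      have h11 : fderiv ℝ f (t • v) w - w =
          (fderiv ℝ f (t • v) w - fderiv ℝ f (τ • v) w) + (fderiv ℝ f (τ • v) w - w) := by abel
      rw [h11]
      refine (norm_add_le _ _).trans ?_
      have h12 : C * t * ‖v‖ * ‖w‖ = C * ((t - τ) * ‖v‖) * ‖w‖ + C * τ * ‖v‖ * ‖w‖ := by ring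
      rw [h12]
      linarith

theorem Lift.limit (hLOC : S_LOC.{u}) {r K Lam : ℝ} {n : ℕ}
    {G Om : V → V →L[ℝ] V →L[ℝ] ℝ} {S : Set V}
    (hS : ChartPiece r K Lam n G Om S) {T : Submodule ℝ V} (hT : Module.finrank ℝ T = n)
    {v : T} {C : ℝ} (hC0 : 0 ≤ C) {τ : ℝ} (h0 : 0 < τ) (hvr : 5 / 4 * ‖v‖ * τ < r)
    (hall : ∀ s, 0 ≤ s → s < τ → ∃ γ, Lift S T v C s γ) : ∃ γ, Lift S T v C τ γ := by
  have hall' : ∀ s, ∃ γ, (0 ≤ s → s < τ → Lift S T v C s γ) := by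
    intro s
    by_cases h : 0 ≤ s ∧ s < τ
    · obtain ⟨γ, hγ⟩ := hall s h.1 h.2
      exact ⟨γ, fun _ _ => hγ⟩
    · exact ⟨0, fun h1 h2 => absurd ⟨h1, h2⟩ h⟩
  choose g hg using hall'
  have hv0 := norm_nonneg v
  have key : ∀ s t, 0 ≤ s → s ≤ t → t < τ → g s s = g t s := fun s t h1 h2 h3 =>
    Lift.uniq hLOC hS.S_slice hT (hg s h1 (h2.trans_lt h3))
      ((hg t (h1.trans h2) h3).mono h2) s ⟨h1, le_rfl⟩
  have hlip : ∀ s t, 0 ≤ s → s ≤ t → t < τ → ‖g s s - g t t‖ ≤ 5 / 4 * ‖v‖ * (t - s) := by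
    intro s t h1 h2 h3
    rw [key s t h1 h2 h3]
    exact (hg t (h1.trans h2) h3).lip s ⟨h1, h2⟩ t ⟨h1.trans h2, le_rfl⟩ h2
  set un : ℕ → ℝ := fun m => τ - τ / (m + 1) with hun
  have hunlt : ∀ m, un m < τ := by
    intro m
    have : 0 < τ / (m + 1) := by positivity
    simp only [hun]; linarith
  have hun0 : ∀ m, 0 ≤ un m := by
    intro m
    have : τ / (m + 1) ≤ τ := div_le_self h0.le (by linarith [Nat.cast_nonneg (α := ℝ) m])
    simp only [hun]; linarith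
  have hunmono : ∀ m m', m ≤ m' → un m ≤ un m' := by
    intro m m' hm
    have h1 : (m : ℝ) ≤ m' := by exact_mod_cast hm
    have : τ / (m' + 1) ≤ τ / (m + 1) := by gcongr
    simp only [hun]; linarith
  have htend0 : Tendsto (fun m : ℕ => τ / ((m : ℝ) + 1)) atTop (𝓝 0) := by
    have h1 := (tendsto_one_div_add_atTop_nhds_zero_nat (𝕜 := ℝ)).const_mul τ
    simp only [mul_one_div, mul_zero] at h1
    exact h1
  have hunt : Tendsto un atTop (𝓝 τ) := by
    have h1 := (tendsto_const_nhds (x := τ)).sub htend0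
    simpa using h1
  have hcau : CauchySeq (fun m => g (un m) (un m)) := by
    refine cauchySeq_of_le_tendsto_0 (fun N : ℕ => 5 / 4 * ‖v‖ * (τ / ((N : ℝ) + 1))) ?_ ?_
    · intro m m' N hm hm'
      have hle : ∀ a b, N ≤ a → a ≤ b → dist (g (un a) (un a)) (g (un b) (un b)) ≤
          5 / 4 * ‖v‖ * (τ / ((N : ℝ) + 1)) := by
        intro a b ha hab
        rw [dist_eq_norm]
        refine (hlip _ _ (hun0 a) (hunmono a b hab) (hunlt b)).trans ?_
        refine mul_le_mul_of_nonneg_left ?_ (by positivity)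
        have h1 := hunmono N a ha
        have h2 := hunlt b
        have h3 : un N = τ - τ / ((N : ℝ) + 1) := rfl
        linarith
      rcases le_total m m' with h | h
      · exact hle m m' hm h
      · rw [dist_comm]
        exact hle m' m hm' h
    · have h1 := htend0.const_mul (5 / 4 * ‖v‖)
      simpa using h1
  obtain ⟨x, hx⟩ := cauchySeq_tendsto_of_complete hcau
  have hxd : ∀ t, 0 ≤ t → t < τ → ‖g t t - x‖ ≤ 5 / 4 * ‖v‖ * (τ - t) := by
    intro t h1 h2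
    have h3 : Tendsto (fun m => ‖g t t - g (un m) (un m)‖) atTop (𝓝 ‖g t t - x‖) :=
      (tendsto_const_nhds.sub hx).norm
    refine le_of_tendsto h3 ?_
    filter_upwards [hunt.eventually (lt_mem_nhds h2)] with m hm
    refine (hlip t (un m) h1 (le_of_lt hm) (hunlt m)).trans ?_
    refine mul_le_mul_of_nonneg_left ?_ (by positivity)
    linarith [hunlt m]
  have hgS : ∀ m, g (un m) (un m) ∈ S := fun m =>
    (hg _ (hun0 m) (hunlt m)).mem _ ⟨hun0 m, le_rfl⟩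
  have hxr : x ∈ ball (0:V) r := by
    have h1 := hxd 0 le_rfl h0
    rw [(hg 0 le_rfl h0).zero, zero_sub, norm_neg] at h1
    rw [mem_ball_zero_iff]
    simp only [sub_zero] at h1
    linarith
  have hxS : x ∈ S := hS.S_closed x hxr (mem_closure_of_tendsto hx (Eventually.of_forall hgS))
  have hxP : T.orthogonalProjectionOnto x = τ • v := by
    have h1 : Tendsto (fun m => T.orthogonalProjectionOnto (g (un m) (un m))) atTop
        (𝓝 (T.orthogonalProjectionOnto x)) :=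
      (T.orthogonalProjectionOnto.continuous.tendsto x).comp hx
    have h2 : (fun m => T.orthogonalProjectionOnto (g (un m) (un m))) = fun m => un m • v := by
      ext1 m
      exact (hg _ (hun0 m) (hunlt m)).proj _ ⟨hun0 m, le_rfl⟩
    rw [h2] at h1
    exact tendsto_nhds_unique h1 (hunt.smul_const v)
  have hxs : Slope S T (C * τ * ‖v‖) x := by
    refine slope_lim (hS.S_slice x hxS) hx (Eventually.of_forall hgS) (Eventually.of_forall ?_)
    intro m
    refine ((hg _ (hun0 m) (hunlt m)).slope _ ⟨hun0 m, le_rfl⟩).mono ?_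
    have := (hunlt m).le
    gcongr
  refine ⟨fun t => if t < τ then g t t else x, ?_, ?_, ?_, ?_, ?_⟩
  · simp only [h0, if_true]
    exact (hg 0 le_rfl h0).zero
  · intro s hs t ht hst
    by_cases h1 : t < τ
    · have h2 : s < τ := hst.trans_lt h1
      simp only [h1, h2, if_true]
      exact hlip s t hs.1 hst h1
    · have h3 : t = τ := le_antisymm ht.2 (not_lt.1 h1)
      by_cases h2 : s < τ
      · simp only [h1, h2, if_true, if_false]
        rw [h3]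
        exact hxd s hs.1 h2
      · simp only [h1, h2, if_false, sub_self, norm_zero]
        have : 0 ≤ t - s := by linarith
        positivity
  · intro t ht
    by_cases h1 : t < τ
    · simp only [h1, if_true]
      exact (hg t ht.1 h1).mem t ⟨ht.1, le_rfl⟩
    · simp only [h1, if_false]
      exact hxS
  · intro t ht
    by_cases h1 : t < τ
    · simp only [h1, if_true]
      exact (hg t ht.1 h1).proj t ⟨ht.1, le_rfl⟩
    · simp only [h1, if_false]
      rw [le_antisymm ht.2 (not_lt.1 h1)]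
      exact hxP
  · intro t ht
    by_cases h1 : t < τ
    · simp only [h1, if_true]
      exact (hg t ht.1 h1).slope t ⟨ht.1, le_rfl⟩
    · simp only [h1, if_false]
      rw [le_antisymm ht.2 (not_lt.1 h1)]
      exact hxs

end PLIFT

theorem t_LIFT (_hTANV : S_TANV.{u}) (hLOC : S_LOC.{u}) (hHESS : S_HESS.{u}) : S_LIFT.{u} := by
  intro V _ _ _ r K Lam n G Om S hr hK hL hS h0S T hT hTS v hv
  set C : ℝ := 3 * (Lam + 3 / 2) * K ^ 3 with hC
  have hKpos : 0 < K := by linarith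
  have hC0 : 0 < C := by positivity
  have hv1 : ‖v‖ < r / 8 := lt_of_lt_of_le hv (min_le_left _ _)
  have hv2 : ‖v‖ < 1 / (12 * (Lam + 3 / 2) * K ^ 3) := lt_of_lt_of_le hv (min_le_right _ _)
  have hCv : C * ‖v‖ < 1 / 4 := by
    have h1 : 0 < 12 * (Lam + 3 / 2) * K ^ 3 := by positivity
    rw [lt_div_iff₀ h1] at hv2
    have h2 : C * 4 = 12 * (Lam + 3 / 2) * K ^ 3 := by rw [hC]; ring
    rw [← h2] at hv2
    linarith
  have hv0 := norm_nonneg v
  set I : Set ℝ := {τ | ∃ γ, PLIFT.Lift S T v C τ γ} with hI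
  have hbase : (0:ℝ) ∈ I := by
    refine ⟨fun _ => 0, rfl, ?_, ?_, ?_, ?_⟩
    · intro s hs t ht hst
      simp only [sub_self, norm_zero]
      have : 0 ≤ t - s := by linarith
      positivity
    · intro t ht
      exact h0S
    · intro t ht
      have : t = 0 := le_antisymm ht.2 ht.1
      simp [this]
    · intro t ht w hw
      rw [← hTS] at hw
      have h1 : ((T.orthogonalProjectionOnto w : T) : V) = w := by
        have := T.orthogonalProjectionOnto_mem_subspace_eq_self ⟨w, hw⟩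
        exact congrArg Subtype.val this
      rw [h1, sub_self, norm_zero]
      have := ht.1
      positivity
  have hcl : IsClosed (I ∩ Icc (0:ℝ) 1) := by
    refine isClosed_of_closure_subset ?_
    intro τ hτ
    have hτI : τ ∈ Icc (0:ℝ) 1 := by
      have h1 : closure (I ∩ Icc (0:ℝ) 1) ⊆ Icc (0:ℝ) 1 :=
        closure_minimal inter_subset_right isClosed_Icc
      exact h1 hτ
    refine ⟨?_, hτI⟩
    rcases eq_or_lt_of_le hτI.1 with h1 | h1
    · rw [← h1]; exact hbase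
    · refine PLIFT.Lift.limit hLOC hS hT hC0.le h1 ?_ ?_
      · have := hτI.2
        nlinarith
      · intro s hs0 hsτ
        obtain ⟨τ', ⟨⟨γ, hγ⟩, -⟩, hd⟩ := Metric.mem_closure_iff.1 hτ (τ - s) (by linarith)
        rw [Real.dist_eq] at hd
        have h2 := (abs_lt.1 hd).2
        exact ⟨γ, hγ.mono (by linarith)⟩
  have hsub := hcl.Icc_subset_of_forall_exists_gt hbase (by
    rintro τ ⟨⟨γ, hγ⟩, hτ⟩ y hy
    obtain ⟨τ', hτ', h1⟩ := hγ.extend hLOC hHESS hr hK hL hS hT hC hC0.le hCv hτ.1 hτ.2 hy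
    exact ⟨τ', h1, hτ'⟩)
  obtain ⟨γ, hγ⟩ := hsub ⟨zero_le_one, le_rfl⟩
  refine ⟨γ, hγ.cont, hγ.zero, ?_⟩
  intro t ht
  refine ⟨hγ.mem t ht, hγ.proj t ht, ?_⟩
  refine (hγ.slope t ht).mono ?_
  have h1 := ht.2
  have h2 : C * t * ‖v‖ = t * (C * ‖v‖) := by ring
  rw [h2]
  have h3 : 0 ≤ C * ‖v‖ := by positivity
  nlinarith

end Pool.Agent.H823.HC
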