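import Mathlib
import Pool.Agent.H823.HC.StmV

open scoped Topology ContDiff Manifold
open Set Metric Filter MeasureTheory

noncomputable section

namespace Pool.Agent.H823.HC

universe u

set_option linter.unusedVariables false

namespace PLOC

variable {V : Type u} [NormedAddCommGroup V] [InnerProductSpace ℝ V] [FiniteDimensional ℝ V]

/-- the derivative of the inverse slice chart maps `W` to tangent vectors -/
theorem mem_tanV {S : Set V} {x₀ : V} (Φ : OpenPartialHomeomorph V V) (hx : x₀ ∈ Φ.source)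
    (hΨ : ContDiffOn ℝ ∞ Φ.symm Φ.target) (W : Submodule ℝ V)
    (hW : ∀ z ∈ Φ.source, (z ∈ S ↔ Φ z ∈ W)) (hS : x₀ ∈ S) (w : W) :
    fderiv ℝ Φ.symm (Φ x₀) (w : V) ∈ tanV S x₀ := by
  have ht : Φ x₀ ∈ Φ.target := Φ.map_source hx
  have hsm : ContDiffAt ℝ ∞ Φ.symm (Φ x₀) := hΨ.contDiffAt (Φ.open_target.mem_nhds ht)
  have hl : ContDiffAt ℝ ∞ (fun t : ℝ => Φ x₀ + t • (w : V)) 0 :=
    contDiffAt_const.add (contDiffAt_id.smul contDiffAt_const)
  have hl0 : (fun t : ℝ => Φ x₀ + t • (w : V)) 0 = Φ x₀ := by simp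
  have hld : HasDerivAt (fun t : ℝ => Φ x₀ + t • (w : V)) (w : V) 0 := by
    have h1 : HasDerivAt (fun t : ℝ => t • (w : V)) ((1 : ℝ) • (w : V)) 0 :=
      (hasDerivAt_id (0 : ℝ)).smul_const (w : V)
    rw [one_smul] at h1
    exact h1.const_add (Φ x₀)
  refine ⟨fun t => Φ.symm (Φ x₀ + t • (w : V)), ?_, ?_, ?_, ?_⟩
  · refine ContDiffAt.comp (g := Φ.symm) (0 : ℝ) ?_ hl
    rw [zero_smul, add_zero]; exact hsm
  · simp only [zero_smul, add_zero]
    exact Φ.left_inv hx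
  · have h1 : ∀ᶠ t in 𝓝 (0 : ℝ), Φ x₀ + t • (w : V) ∈ Φ.target := by
      have h2 : Tendsto (fun t : ℝ => Φ x₀ + t • (w : V)) (𝓝 0) (𝓝 (Φ x₀)) := by
        have := hl.continuousAt.tendsto
        rw [zero_smul, add_zero] at this
        exact this
      exact h2.eventually (Φ.open_target.mem_nhds ht)
    filter_upwards [h1] with t h2
    refine (hW _ (Φ.map_target h2)).2 ?_
    rw [Φ.right_inv h2]
    exact W.add_mem ((hW x₀ hx).1 hS) (W.smul_mem _ w.2)
  · have h1 : HasFDerivAt Φ.symm (fderiv ℝ Φ.symm (Φ x₀)) ((fun t : ℝ => Φ x₀ + t • (w : V)) 0) := by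
      rw [hl0]
      exact (hsm.differentiableAt (by simp)).hasFDerivAt
    exact (h1.comp_hasDerivAt (0 : ℝ) hld).deriv

theorem main (n : ℕ) (S : Set V) (x₀ : V) (T : Submodule ℝ V) (hsl : SliceAt n S x₀)
    (hS : x₀ ∈ S) (hT : Module.finrank ℝ T = n)
    (hinj : ∀ v ∈ tanV S x₀, T.orthogonalProjectionOnto v = 0 → v = 0) :
    ∃ δ > 0, ∃ δ' > 0, ∃ f : T → V, ContDiffOn ℝ ∞ f (ball (T.orthogonalProjectionOnto x₀) δ) ∧
    f (T.orthogonalProjectionOnto x₀) = x₀ ∧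
    (∀ t ∈ ball (T.orthogonalProjectionOnto x₀) δ, f t ∈ S ∧ T.orthogonalProjectionOnto (f t) = t) ∧
    ∀ x ∈ S, dist x x₀ < δ' → T.orthogonalProjectionOnto x ∈ ball (T.orthogonalProjectionOnto x₀) δ ∧
      f (T.orthogonalProjectionOnto x) = x := by
  obtain ⟨Φ, hx, hΦ, hΨ, W, hWn, hW⟩ := hsl
  have ht : Φ x₀ ∈ Φ.target := Φ.map_source hx
  set w₀ : W := ⟨Φ x₀, (hW x₀ hx).1 hS⟩ with hw₀
  have hsmΨ : ∀ y ∈ Φ.target, ContDiffAt ℝ ∞ Φ.symm y := fun y hy =>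
    hΨ.contDiffAt (Φ.open_target.mem_nhds hy)
  set q : W → T := fun w => T.orthogonalProjectionOnto (Φ.symm (w : V)) with hq
  have hval : ∀ w : W, ContDiffAt ℝ ∞ (fun w : W => (w : V)) w := fun w =>
    W.subtypeL.contDiff.contDiffAt
  have hqs : ∀ w : W, (w : V) ∈ Φ.target → ContDiffAt ℝ ∞ q w := by
    intro w hw
    have h1 : ContDiffAt ℝ ∞ (fun w : W => Φ.symm (w : V)) w :=
      ContDiffAt.comp (g := Φ.symm) w (hsmΨ _ hw) (hval w)
    exact T.orthogonalProjectionOnto.contDiff.contDiffAt.comp w h1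
  have hq0 : ContDiffAt ℝ ∞ q w₀ := hqs w₀ ht
  have hqd : HasFDerivAt q (T.orthogonalProjectionOnto.comp
      ((fderiv ℝ Φ.symm (Φ x₀)).comp W.subtypeL)) w₀ := by
    have h1 : HasFDerivAt Φ.symm (fderiv ℝ Φ.symm (Φ x₀)) ((w₀ : W) : V) :=
      ((hsmΨ _ ht).differentiableAt (by simp)).hasFDerivAt
    exact T.orthogonalProjectionOnto.hasFDerivAt.comp w₀ (h1.comp w₀ W.subtypeL.hasFDerivAt)
  set D : W →L[ℝ] T := T.orthogonalProjectionOnto.comp
      ((fderiv ℝ Φ.symm (Φ x₀)).comp W.subtypeL) with hD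
  have hDinj : Function.Injective D := by
    rw [injective_iff_map_eq_zero]
    intro w hw
    have h1 : fderiv ℝ Φ.symm (Φ x₀) (w : V) = 0 :=
      hinj _ (mem_tanV Φ hx hΨ W hW hS w) hw
    -- `Φ ∘ Φ.symm = id` near `Φ x₀`
    have h2 : HasFDerivAt Φ.symm (fderiv ℝ Φ.symm (Φ x₀)) (Φ x₀) :=
      ((hsmΨ _ ht).differentiableAt (by simp)).hasFDerivAt
    have h3 : HasFDerivAt Φ (fderiv ℝ Φ x₀) (Φ.symm (Φ x₀)) := by
      rw [Φ.left_inv hx]
      exact ((hΦ.contDiffAt (Φ.open_source.mem_nhds hx)).differentiableAt (by simp)).hasFDerivAt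
    have h4 := h3.comp (Φ x₀) h2
    have h5 : (Φ ∘ Φ.symm) =ᶠ[𝓝 (Φ x₀)] id := by
      filter_upwards [Φ.open_target.mem_nhds ht] with y hy
      exact Φ.right_inv hy
    have h6 : HasFDerivAt (id : V → V) ((fderiv ℝ Φ x₀).comp (fderiv ℝ Φ.symm (Φ x₀))) (Φ x₀) :=
      h4.congr_of_eventuallyEq h5.symm
    have h7 := h6.unique (hasFDerivAt_id (Φ x₀))
    have h8 : ((fderiv ℝ Φ x₀).comp (fderiv ℝ Φ.symm (Φ x₀))) (w : V) = (w : V) := by
      rw [h7]; rfl
    rw [ContinuousLinearMap.comp_apply, h1, map_zero] at h8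
    exact Subtype.ext h8.symm
  set L : W ≃L[ℝ] T := (LinearMap.linearEquivOfInjective (D : W →ₗ[ℝ] T) hDinj
    (hWn.trans hT.symm)).toContinuousLinearEquiv with hL
  have hLD : (L : W →L[ℝ] T) = D := by
    ext w
    rfl
  have hqL : HasFDerivAt q (L : W →L[ℝ] T) w₀ := by rw [hLD]; exact hqd
  set E := hq0.toOpenPartialHomeomorph q hqL (by simp) with hE
  have hEq : ∀ w, E w = q w := fun w => rfl
  have hEs : w₀ ∈ E.source := hq0.mem_toOpenPartialHomeomorph_source hqL (by simp)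
  have hqw₀ : q w₀ = T.orthogonalProjectionOnto x₀ := by
    show T.orthogonalProjectionOnto (Φ.symm (Φ x₀)) = _
    rw [Φ.left_inv hx]
  have hEt : T.orthogonalProjectionOnto x₀ ∈ E.target := by
    rw [← hqw₀]; exact E.map_source hEs
  have hEsy : E.symm (T.orthogonalProjectionOnto x₀) = w₀ := by
    rw [← hqw₀]; exact E.left_inv hEs
  -- the good neighbourhood in `W`
  have hN : ∀ᶠ w : W in 𝓝 w₀, (w : V) ∈ Φ.target ∧
      fderiv ℝ q w ∈ range ((↑) : (W ≃L[ℝ] T) → W →L[ℝ] T) := by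
    refine Filter.Eventually.and ?_ ?_
    · have h0 : ContinuousAt (fun w : W => (w : V)) w₀ := continuous_subtype_val.continuousAt
      exact h0.eventually (Φ.open_target.mem_nhds ht)
    · have h1 : ContinuousAt (fderiv ℝ q) w₀ :=
        (hq0.fderiv_right (m := 0) (by simp)).continuousAt
      have h2 : fderiv ℝ q w₀ = (L : W →L[ℝ] T) := hqL.fderiv
      refine h1.eventually ?_
      rw [h2]
      exact L.nhds
  have hN2 : ∀ᶠ t in 𝓝 (T.orthogonalProjectionOnto x₀), t ∈ E.target ∧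
      ((E.symm t : W) : V) ∈ Φ.target ∧
      fderiv ℝ q (E.symm t) ∈ range ((↑) : (W ≃L[ℝ] T) → W →L[ℝ] T) := by
    refine Filter.Eventually.and (E.open_target.mem_nhds hEt) ?_
    have h1 : ContinuousAt E.symm (T.orthogonalProjectionOnto x₀) := E.continuousAt_symm hEt
    have h2 : Tendsto E.symm (𝓝 (T.orthogonalProjectionOnto x₀)) (𝓝 w₀) := by
      have := h1.tendsto
      rw [hEsy] at this
      exact this
    exact h2.eventually hN
  obtain ⟨δ, hδ, hδN⟩ := Metric.eventually_nhds_iff.1 hN2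
  -- the neighbourhood of `x₀`
  have hM : ∀ᶠ x in 𝓝 x₀, x ∈ Φ.source ∧
      T.orthogonalProjectionOnto x ∈ ball (T.orthogonalProjectionOnto x₀) δ ∧
      ∀ h : Φ x ∈ W, (⟨Φ x, h⟩ : W) ∈ E.source := by
    refine Filter.Eventually.and (Φ.open_source.mem_nhds hx) (Filter.Eventually.and ?_ ?_)
    · exact T.orthogonalProjectionOnto.continuous.continuousAt.eventually
        (ball_mem_nhds _ hδ)
    · obtain ⟨ε, hε, hεE⟩ := Metric.mem_nhds_iff.1 (E.open_source.mem_nhds hEs)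
      have h1 : ∀ᶠ x in 𝓝 x₀, Φ x ∈ ball (Φ x₀) ε :=
        (Φ.continuousAt hx).eventually (ball_mem_nhds _ hε)
      filter_upwards [h1] with x h2 h
      exact hεE h2
  obtain ⟨δ', hδ', hδM⟩ := Metric.eventually_nhds_iff.1 hM
  refine ⟨δ, hδ, δ', hδ', fun t => Φ.symm ((E.symm t : W) : V), ?_, ?_, ?_, ?_⟩
  · intro t htb
    obtain ⟨h1, h2, h3⟩ := hδN htb
    obtain ⟨L', hL'⟩ := h3
    have h4 : ContDiffAt ℝ ∞ q (E.symm t) := hqs _ h2
    have h5 : HasFDerivAt E (L' : W →L[ℝ] T) (E.symm t) := by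
      rw [hL']
      exact (h4.differentiableAt (by simp)).hasFDerivAt
    have h6 : ContDiffAt ℝ ∞ E.symm t := E.contDiffAt_symm h1 h5 h4
    have h7 : ContDiffAt ℝ ∞ (fun t => ((E.symm t : W) : V)) t :=
      ContDiffAt.comp (g := fun w : W => (w : V)) t (hval _) h6
    exact (ContDiffAt.comp (g := Φ.symm) t (hsmΨ _ h2) h7).contDiffWithinAt
  · show Φ.symm ((E.symm (T.orthogonalProjectionOnto x₀) : W) : V) = x₀
    rw [hEsy]
    exact Φ.left_inv hx
  · intro t htb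
    obtain ⟨h1, h2, h3⟩ := hδN htb
    refine ⟨(hW _ (Φ.map_target h2)).2 ?_, ?_⟩
    · rw [Φ.right_inv h2]
      exact (E.symm t).2
    · exact E.right_inv h1
  · intro x hxS hd
    obtain ⟨h1, h2, h3⟩ := hδM hd
    refine ⟨h2, ?_⟩
    have h4 : Φ x ∈ W := (hW x h1).1 hxS
    have h5 : T.orthogonalProjectionOnto x = q ⟨Φ x, h4⟩ := by
      show _ = T.orthogonalProjectionOnto (Φ.symm (Φ x))
      rw [Φ.left_inv h1]
    show Φ.symm ((E.symm (T.orthogonalProjectionOnto x) : W) : V) = x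
    have h6 : E.symm (q ⟨Φ x, h4⟩) = ⟨Φ x, h4⟩ := E.left_inv (h3 h4)
    rw [h5, h6]
    exact Φ.left_inv h1

end PLOC

theorem t_LOC (hTANV : S_TANV.{u}) : S_LOC.{u} := by
  intro V _ _ _ n S x₀ T hsl hS hT hinj
  exact PLOC.main n S x₀ T hsl hS hT hinj

end Pool.Agent.H823.HC
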