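import Mathlib
import Pool.Agent.H823.HC.StmM

/-!
# Project HC, `PIECE`: a Lagrangian submanifold with bounded second fundamental form, in a good chart
-/

open scoped Topology ContDiff Manifold
open Set Metric Filter MeasureTheory

set_option linter.unusedSectionVars false

noncomputable section

namespace Pool.Agent.H823.HC

universe u v w

namespace PPIECE

section

variable {V : Type u} [NormedAddCommGroup V] [InnerProductSpace ℝ V]
  {M : Type v} [MetricSpace M] [ChartedSpace V M] [IsManifold 𝓘(ℝ, V) ∞ M]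

/-- A curve germ in the coordinates gives a curve germ in `L`. -/
theorem curve_symm {r : ℝ} {e : OpenPartialHomeomorph M V} (he : e ∈ Charts V M)
    (hb : ball (0 : V) r ⊆ e.target) {L : Set M} {c : ℝ → V} (hc : ContDiffAt ℝ ∞ c 0)
    (hcS : ∀ᶠ t in 𝓝 (0:ℝ), c t ∈ {x ∈ ball (0:V) r | e.symm x ∈ L}) :
    CurveIn (V := V) L (fun t => e.symm (c t)) ∧
      (fun t => e (e.symm (c t))) =ᶠ[𝓝 0] c := by
  have h0 : c 0 ∈ {x ∈ ball (0:V) r | e.symm x ∈ L} := hcS.self_of_nhds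
  refine ⟨⟨?_, ?_⟩, ?_⟩
  · have h1 : ContMDiffAt 𝓘(ℝ, V) 𝓘(ℝ, V) ∞ e.symm (c 0) :=
      contMDiffAt_symm_of_mem_maximalAtlas he (hb h0.1)
    exact ContMDiffAt.comp (0:ℝ) h1 hc.contMDiffAt
  · filter_upwards [hcS] with t ht
    exact ht.2
  · filter_upwards [hcS] with t ht
    exact e.right_inv (hb ht.1)

/-- A curve germ in `L` gives a curve germ in the coordinates. -/
theorem curve_chart {r : ℝ} {e : OpenPartialHomeomorph M V} (he : e ∈ Charts V M)
    {L : Set M} {c : ℝ → M} (hc : CurveIn (V := V) L c)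
    (h0 : c 0 ∈ e.source) (h1 : e (c 0) ∈ ball (0:V) r) :
    ContDiffAt ℝ ∞ (fun t => e (c t)) 0 ∧
      ∀ᶠ t in 𝓝 (0:ℝ), e (c t) ∈ {x ∈ ball (0:V) r | e.symm x ∈ L} := by
  have h2 : ContMDiffAt 𝓘(ℝ, V) 𝓘(ℝ, V) ∞ e (c 0) := contMDiffAt_of_mem_maximalAtlas he h0
  have h3 : ContDiffAt ℝ ∞ (fun t => e (c t)) 0 :=
    contMDiffAt_iff_contDiffAt.1 (ContMDiffAt.comp (0:ℝ) h2 hc.1)
  refine ⟨h3, ?_⟩
  have h4 : ∀ᶠ t in 𝓝 (0:ℝ), e (c t) ∈ ball (0:V) r :=
    h3.continuousAt.eventually_mem (isOpen_ball.mem_nhds h1)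
  have h5 : ∀ᶠ t in 𝓝 (0:ℝ), c t ∈ e.source :=
    hc.1.continuousAt.eventually_mem (e.open_source.mem_nhds h0)
  filter_upwards [h4, h5, hc.2] with t ht1 ht2 ht3
  refine ⟨ht1, ?_⟩
  rw [e.left_inv ht2]
  exact ht3

theorem tan_eq {r : ℝ} {e : OpenPartialHomeomorph M V} (he : e ∈ Charts V M)
    (hb : ball (0 : V) r ⊆ e.target) {L : Set M} {x : V}
    (hx : x ∈ {x ∈ ball (0:V) r | e.symm x ∈ L}) :
    tanV {x ∈ ball (0:V) r | e.symm x ∈ L} x = tanC e L (e.symm x) := by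
  ext v
  constructor
  · rintro ⟨c, hc, hc0, hcS, hv⟩
    obtain ⟨h1, h2⟩ := curve_symm he hb hc hcS
    exact ⟨fun t => e.symm (c t), by simp only [hc0], h1, by rw [h2.deriv_eq, hv]⟩
  · rintro ⟨c, hc0, hc, hv⟩
    have h0 : c 0 ∈ e.source := by rw [hc0]; exact e.map_target (hb hx.1)
    have h1 : e (c 0) = x := by rw [hc0]; exact e.right_inv (hb hx.1)
    obtain ⟨h2, h3⟩ := curve_chart (r := r) he hc h0 (by rw [h1]; exact hx.1)
    exact ⟨fun t => e (c t), h2, h1, h3, hv⟩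

theorem slice {r : ℝ} {e : OpenPartialHomeomorph M V} (he : e ∈ Charts V M)
    (hb : ball (0 : V) r ⊆ e.target) {n : ℕ} {L : Set M} (hL : IsSubmfd V n L) {x : V}
    (hx : x ∈ {x ∈ ball (0:V) r | e.symm x ∈ L}) :
    SliceAt n {x ∈ ball (0:V) r | e.symm x ∈ L} x := by
  obtain ⟨e', he', hxe', W, hW, hLW⟩ := hL (e.symm x) hx.2
  refine ⟨(e.symm.trans e').restrOpen (ball (0:V) r) isOpen_ball, ?_, ?_, ?_, W, hW, ?_⟩
  · rw [OpenPartialHomeomorph.restrOpen_source, OpenPartialHomeomorph.trans_source]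
    exact ⟨⟨hb hx.1, hxe'⟩, hx.1⟩
  · have h1 : ContMDiffOn 𝓘(ℝ, V) 𝓘(ℝ, V) ∞ (e' ∘ e.symm) (e.target ∩ e.symm ⁻¹' e'.source) :=
      (contMDiffOn_of_mem_maximalAtlas he').comp' (contMDiffOn_symm_of_mem_maximalAtlas he)
    refine (contMDiffOn_iff_contDiffOn.1 h1).mono ?_
    intro z hz
    rw [OpenPartialHomeomorph.restrOpen_source, OpenPartialHomeomorph.trans_source] at hz
    exact hz.1
  · have h1 : ContMDiffOn 𝓘(ℝ, V) 𝓘(ℝ, V) ∞ (e ∘ e'.symm) (e'.target ∩ e'.symm ⁻¹' e.source) :=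
      (contMDiffOn_of_mem_maximalAtlas he).comp' (contMDiffOn_symm_of_mem_maximalAtlas he')
    refine (contMDiffOn_iff_contDiffOn.1 h1).mono ?_
    intro z hz
    have h2 : z ∈ (e.symm.trans e').target := hz.1
    rw [OpenPartialHomeomorph.trans_target] at h2
    exact h2
  · intro z hz
    rw [OpenPartialHomeomorph.restrOpen_source, OpenPartialHomeomorph.trans_source] at hz
    have h1 := hLW (e.symm z) hz.1.2
    constructor
    · intro h
      exact h1.1 h.2
    · intro h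
      exact ⟨hz.2, h1.2 h⟩

theorem fderiv_eq {r : ℝ} {e : OpenPartialHomeomorph M V} (A : AlmostKahler V M)
    {G : V → V →L[ℝ] V →L[ℝ] ℝ} (hG : ContDiffOn ℝ ∞ G (ball 0 r))
    (hGO : ∀ x ∈ ball (0:V) r, ∀ v w, G x v w = A.gC e x v w) {x : V} (hx : x ∈ ball (0:V) r)
    (u v w : V) : fderiv ℝ (fun y => A.gC e y v w) x u = fderiv ℝ G x u v w := by
  have h1 : (fun y => A.gC e y v w) =ᶠ[𝓝 x] fun y => G y v w := by
    filter_upwards [isOpen_ball.mem_nhds hx] with y hy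
    exact (hGO y hy v w).symm
  have h2 : DifferentiableAt ℝ G x :=
    (hG.contDiffAt (isOpen_ball.mem_nhds hx)).differentiableAt (by simp)
  have h3 : HasFDerivAt (fun y => G y v) ((fderiv ℝ G x).flip v) x := by
    have := h2.hasFDerivAt.clm_apply (hasFDerivAt_const v x)
    refine this.congr_fderiv ?_
    ext u w
    simp
  have h4 : HasFDerivAt (fun y => G y v w) (((fderiv ℝ G x).flip v).flip w) x := by
    have := h3.clm_apply (hasFDerivAt_const w x)
    refine this.congr_fderiv ?_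
    ext u
    simp
  rw [h1.fderiv_eq, h4.fderiv]
  simp

end

end PPIECE

open PPIECE

theorem t_PIECE : S_PIECE.{u, v} := by
  intro V _ _ _ M _ _ _ A r K Lam p e G Om n L hr hK hGC hCT hGO hL hsub hS
  have he := hGC.mem
  have hb := hGC.ball_subset
  refine ⟨hCT, fun x hx => hx.1, ?_, fun x hx => slice he hb hsub hx, ?_, ?_⟩
  · intro x hx hxS
    refine ⟨hx, ?_⟩
    have h1 : ContinuousAt e.symm x := e.continuousAt_symm (hb hx)
    have h2 := mem_closure_image h1 hxS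
    have h3 : e.symm '' {x ∈ ball (0:V) r | e.symm x ∈ L} ⊆ L := by
      rintro _ ⟨y, hy, rfl⟩
      exact hy.2
    exact hL.compact.isClosed.closure_subset_iff.2 h3 h2
  · intro x hx v hv w hw
    rw [tan_eq he hb hx] at hv hw
    have h1 := hL.isotropic e he (e.symm x) hx.2 (e.map_target (hb hx.1)) v hv w hw
    rw [e.right_inv (hb hx.1)] at h1
    rw [(hGO x hx.1 v w).2, h1]
  · intro c hc hcS ξ hξ
    have h0 : c 0 ∈ {x ∈ ball (0:V) r | e.symm x ∈ L} := hcS.self_of_nhds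
    obtain ⟨h1, h2⟩ := curve_symm he hb hc hcS
    rw [tan_eq he hb h0] at hξ
    have h3 : e (e.symm (c 0)) = c 0 := e.right_inv (hb h0.1)
    have h4 := hS e he (fun t => e.symm (c t)) h1 (e.map_target (hb h0.1)) ξ (by
      intro v hv
      rw [h3, ← (hGO (c 0) h0.1 ξ v).1]
      exact hξ v hv)
    have h5 : deriv (fun t => e (e.symm (c t))) 0 = deriv c 0 := h2.deriv_eq
    have h6 : deriv (deriv (fun t => e (e.symm (c t)))) 0 = deriv (deriv c) 0 :=
      h2.deriv.deriv_eq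
    unfold AlmostKahler.covAcc at h4
    simp only [h3, h5, h6] at h4
    have hGg : ∀ x ∈ ball (0:V) r, ∀ v w, G x v w = A.gC e x v w := fun x hx v w => (hGO x hx v w).1
    rw [fderiv_eq A hCT.G_smooth hGg h0.1, fderiv_eq A hCT.G_smooth hGg h0.1,
      ← hGg _ h0.1, ← hGg _ h0.1, ← hGg _ h0.1] at h4
    exact h4

end Pool.Agent.H823.HC
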