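import Mathlib
import Pool.Agent.H823.HC.StmHP

set_option autoImplicit false

universe u v w

open MeasureTheory Set Metric Filter Topology

namespace Pool.Agent.H823.HC

namespace PPOLD

theorem continuous_circ : Continuous circ := by
  unfold circ
  fun_prop

theorem norm_circ (θ : ℝ) : ‖circ θ‖ = 1 := by
  have h : circ θ = Complex.exp (θ * Complex.I) := by
    unfold circ
    rw [Complex.exp_mul_I]
    try push_cast
    try ring
  rw [h, Complex.norm_exp_ofReal_mul_I]

theorem mem_ball_iff (c : ℂ) (ρ t θ : ℝ) (ht : 0 ≤ t) :
    c + t * circ θ ∈ closedBall c ρ ↔ t ≤ ρ := by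
  rw [mem_closedBall, dist_eq_norm, add_sub_cancel_left, norm_mul, norm_circ, mul_one,
    Complex.norm_real, Real.norm_of_nonneg ht]

end PPOLD

open PPOLD in
theorem t_POLD (hPOLAR : S_POLAR) : S_POLD := by
  classical
  intro f c ρ α hρ hf hf0
  have hpi := Real.pi_pos
  set B := closedBall c ρ with hB
  have hBm : MeasurableSet B := measurableSet_closedBall
  have hBc : IsCompact B := isCompact_closedBall c ρ
  set g : ℂ → ENNReal := B.piecewise (fun z => ENNReal.ofReal (f z)) (fun _ => 0) with hg
  have hgm : Measurable g :=
    ContinuousOn.measurable_piecewise (ENNReal.continuous_ofReal.comp_continuousOn hf)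
      continuousOn_const hBm
  have hP := hPOLAR g hgm c α
  -- left side
  have hL : ∫ z in B, f z = (∫⁻ z, g z).toReal := by
    rw [integral_eq_lintegral_of_nonneg_ae (Eventually.of_forall hf0)
      (hf.aestronglyMeasurable hBm)]
    congr 1
    rw [← lintegral_indicator hBm]
    apply lintegral_congr
    intro z
    by_cases hz : z ∈ B
    · simp [hg, hz]
    · simp [hg, hz]
  set F : ℝ → ENNReal := fun t => ∫⁻ θ in Ioc α (α + 2 * Real.pi),
    g (c + t * circ θ) * ENNReal.ofReal t with hF
  have hFm : Measurable F := by
    apply Measurable.lintegral_prod_right'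
      (f := fun p : ℝ × ℝ => g (c + p.1 * circ p.2) * ENNReal.ofReal p.1)
    apply Measurable.mul
    · apply hgm.comp
      apply Continuous.measurable
      have := continuous_circ
      fun_prop
    · fun_prop
  have hI : ∫⁻ t in Ioi (0 : ℝ), F t = ∫⁻ t in Ioc 0 ρ, F t := by
    rw [← lintegral_indicator measurableSet_Ioi, ← lintegral_indicator measurableSet_Ioc]
    apply lintegral_congr
    intro t
    by_cases h1 : t ∈ Ioc 0 ρ
    · have h2 : t ∈ Ioi (0 : ℝ) := h1.1
      simp [h1, h2]
    · by_cases h2 : t ∈ Ioi (0 : ℝ)
      · have h3 : ρ < t := by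
          by_contra h
          push Not at h
          exact h1 ⟨h2, h⟩
        rw [indicator_of_mem h2, indicator_of_notMem h1]
        simp only [hF]
        rw [lintegral_eq_zero_iff']
        · apply Eventually.of_forall
          intro θ
          have h4 : c + t * circ θ ∉ B := by
            rw [hB, mem_ball_iff c ρ t θ (le_of_lt h2)]
            linarith
          simp [hg, h4]
        · apply Measurable.aemeasurable
          apply Measurable.mul_const
          apply hgm.comp
          apply Continuous.measurable
          have := continuous_circ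
          fun_prop
      · rw [indicator_of_notMem h2, indicator_of_notMem h1]
  have hcont : ∀ t ∈ Ioc 0 ρ, Continuous fun θ : ℝ => f (c + t * circ θ) * t := by
    intro t ht
    apply Continuous.mul _ continuous_const
    apply hf.comp_continuous
    · have := continuous_circ
      fun_prop
    · intro θ
      rw [hB, mem_ball_iff c ρ t θ ht.1.le]
      exact ht.2
  have hFe : ∀ t ∈ Ioc 0 ρ, F t = ∫⁻ θ in Ioc α (α + 2 * Real.pi),
      ENNReal.ofReal (f (c + t * circ θ) * t) := by
    intro t ht
    simp only [hF]
    apply lintegral_congr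
    intro θ
    have h4 : c + t * circ θ ∈ B := by
      rw [hB, mem_ball_iff c ρ t θ ht.1.le]
      exact ht.2
    rw [ENNReal.ofReal_mul (hf0 _)]
    simp [hg, h4]
  have hFlt : ∀ t ∈ Ioc 0 ρ, F t < ⊤ := by
    intro t ht
    rw [hFe t ht]
    have h5 : IntegrableOn (fun θ : ℝ => f (c + t * circ θ) * t) (Ioc α (α + 2 * Real.pi)) :=
      ((hcont t ht).integrableOn_Icc).mono_set Ioc_subset_Icc_self
    exact h5.lintegral_lt_top
  have hFr : ∀ t ∈ Ioc 0 ρ, (F t).toReal =
      ∫ θ in α..(α + 2 * Real.pi), f (c + t * circ θ) * t := by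
    intro t ht
    rw [intervalIntegral.integral_of_le (by linarith), hFe t ht,
      integral_eq_lintegral_of_nonneg_ae]
    · exact Eventually.of_forall fun θ => mul_nonneg (hf0 _) ht.1.le
    · exact (hcont t ht).aestronglyMeasurable
  rw [hL, hP]
  show (∫⁻ t in Ioi (0 : ℝ), F t).toReal = _
  rw [hI, ← integral_toReal hFm.aemeasurable, intervalIntegral.integral_of_le hρ.le]
  · exact setIntegral_congr_fun measurableSet_Ioc fun t ht => hFr t ht
  · exact (ae_restrict_iff' measurableSet_Ioc).2 (Eventually.of_forall hFlt)

end Pool.Agent.H823.HC
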