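import Mathlib
import Pool.Agent.H823.HC.StmHP

/-!
# Project HC: the integral over a closed half disk in polar coordinates (task POLH)
-/

open scoped Topology ContDiff Manifold
open Set Metric Filter MeasureTheory

noncomputable section

namespace Pool.Agent.H823.HC

universe u v w

namespace PPOLH

theorem circ_im (θ : ℝ) : (circ θ).im = Real.sin θ := Complex.exp_ofReal_mul_I_im θ

theorem circ_norm (θ : ℝ) : ‖circ θ‖ = 1 := Complex.norm_exp_ofReal_mul_I θ

theorem pt_im (m t θ : ℝ) : ((m : ℂ) + t * circ θ).im = t * Real.sin θ := by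
  rw [Complex.add_im, Complex.ofReal_im, Complex.mul_im, Complex.ofReal_re, Complex.ofReal_im,
    circ_im]
  ring

theorem pt_norm (m t θ : ℝ) : ‖((m : ℂ) + t * circ θ) - m‖ = |t| := by
  rw [add_sub_cancel_left, norm_mul, circ_norm, mul_one, Complex.norm_real, Real.norm_eq_abs]

theorem closed_Hc (m ρ : ℝ) : IsClosed (Hc m ρ) := by
  have h1 : Hc m ρ = {z : ℂ | ‖z - m‖ ≤ ρ} ∩ {z : ℂ | 0 ≤ z.im} := rfl
  rw [h1]
  exact (isClosed_le (by fun_prop) continuous_const).inter
    (isClosed_le continuous_const Complex.continuous_im)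

theorem compact_Hc (m ρ : ℝ) : IsCompact (Hc m ρ) := by
  refine Metric.isCompact_of_isClosed_isBounded (closed_Hc m ρ) ?_
  refine (isBounded_closedBall (x := (m : ℂ)) (r := ρ)).subset ?_
  intro z hz
  rw [mem_closedBall, dist_eq_norm]
  exact hz.1

theorem continuous_pt (m : ℝ) : Continuous (fun p : ℝ × ℝ => (m : ℂ) + p.1 * circ p.2) := by
  unfold circ
  fun_prop

end PPOLH

open PPOLH

theorem t_POLH (hPOLAR : S_POLAR) : S_POLH := by
  classical
  intro f m ρ hρ hf hf0
  have hπ := Real.pi_pos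
  set S := Hc m ρ with hS
  have hSc : IsClosed S := closed_Hc m ρ
  have hSm : MeasurableSet S := hSc.measurableSet
  set g : ℂ → ℝ := S.indicator f with hg
  have hgm : Measurable g := by
    have h1 : g = S.piecewise f 0 := by
      rw [hg, Set.piecewise_eq_indicator]
    rw [h1]
    exact ContinuousOn.measurable_piecewise hf continuousOn_const hSm
  have hg0 : ∀ z, 0 ≤ g z := fun z => Set.indicator_nonneg (fun z _ => hf0 z) z
  obtain ⟨B, hB⟩ := (compact_Hc m ρ).exists_bound_of_continuousOn hf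
  have hgB : ∀ z, ‖g z‖ ≤ max B 0 := by
    intro z
    by_cases hz : z ∈ S
    · rw [hg, Set.indicator_of_mem hz]
      exact (hB z hz).trans (le_max_left _ _)
    · rw [hg, Set.indicator_of_notMem hz, norm_zero]
      exact le_max_right _ _
  -- the left hand side
  have hL : ∫ z in S, f z = (∫⁻ z, ENNReal.ofReal (g z)).toReal := by
    rw [← integral_indicator hSm,
      integral_eq_lintegral_of_nonneg_ae (Eventually.of_forall hg0) hgm.aestronglyMeasurable]
  -- the function in polar coordinates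
  set k : ℝ × ℝ → ℝ := fun p => g ((m : ℂ) + p.1 * circ p.2) * p.1 with hk
  have hkm : Measurable k := (hgm.comp (continuous_pt m).measurable).mul measurable_fst
  have hk0 : ∀ p : ℝ × ℝ, 0 ≤ p.1 → 0 ≤ k p := fun p hp => mul_nonneg (hg0 _) hp
  have hkint : ∀ t : ℝ, IntegrableOn (fun θ => k (t, θ)) (Ioc 0 Real.pi) := by
    intro t
    refine Measure.integrableOn_of_bounded (M := max B 0 * |t|) ?_ ?_ ?_
    · rw [Real.volume_Ioc]; exact ENNReal.ofReal_ne_top
    · exact (hkm.comp (measurable_const.prodMk measurable_id)).aestronglyMeasurable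
    · refine Eventually.of_forall fun θ => ?_
      simp only [hk]
      rw [norm_mul, Real.norm_eq_abs t]
      exact mul_le_mul_of_nonneg_right (hgB _) (abs_nonneg _)
  -- the polar coordinates
  have hP := hPOLAR (fun z => ENNReal.ofReal (g z)) hgm.ennreal_ofReal m (-Real.pi)
  have hπ2 : -Real.pi + 2 * Real.pi = Real.pi := by ring
  rw [hπ2] at hP
  have hinner : ∀ t ∈ Ioi (0 : ℝ), ∫⁻ θ in Ioc (-Real.pi) Real.pi,
      ENNReal.ofReal (g ((m : ℂ) + t * circ θ)) * ENNReal.ofReal t =
      ∫⁻ θ in Ioc 0 Real.pi, ENNReal.ofReal (k (t, θ)) := by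
    intro t ht
    have ht0 : (0 : ℝ) < t := ht
    have e1 : ∀ θ : ℝ, ENNReal.ofReal (g ((m : ℂ) + t * circ θ)) * ENNReal.ofReal t =
        ENNReal.ofReal (k (t, θ)) := fun θ => by
      rw [← ENNReal.ofReal_mul (hg0 _)]
    simp_rw [e1]
    have e2 : Ioc (-Real.pi) Real.pi = Ioc (-Real.pi) 0 ∪ Ioc 0 Real.pi :=
      (Ioc_union_Ioc_eq_Ioc (by linarith) hπ.le).symm
    have e3 : Disjoint (Ioc (-Real.pi) 0) (Ioc 0 Real.pi) := by
      rw [Set.disjoint_left]
      intro x hx hx'
      exact absurd hx.2 (not_le.2 hx'.1)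
    rw [e2, lintegral_union measurableSet_Ioc e3]
    have e4 : ∫⁻ θ in Ioc (-Real.pi) 0, ENNReal.ofReal (k (t, θ)) = 0 := by
      rw [← setLIntegral_congr (Ioo_ae_eq_Ioc (a := -Real.pi) (b := (0 : ℝ)) (μ := volume))]
      have e5 : ∀ θ ∈ Ioo (-Real.pi) 0, ENNReal.ofReal (k (t, θ)) = 0 := by
        intro θ hθ
        have h1 : ((m : ℂ) + t * circ θ) ∉ S := by
          intro h2
          have h3 : 0 ≤ ((m : ℂ) + t * circ θ).im := h2.2
          rw [pt_im] at h3
          have h4 : Real.sin θ < 0 := Real.sin_neg_of_neg_of_neg_pi_lt hθ.2 hθ.1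
          nlinarith
        simp only [hk]
        rw [hg, Set.indicator_of_notMem h1, zero_mul, ENNReal.ofReal_zero]
      rw [setLIntegral_congr_fun measurableSet_Ioo e5]
      simp
    rw [e4, zero_add]
  have hP2 : ∫⁻ z, ENNReal.ofReal (g z) =
      ∫⁻ t in Ioc 0 ρ, ∫⁻ θ in Ioc 0 Real.pi, ENNReal.ofReal (k (t, θ)) := by
    rw [hP, setLIntegral_congr_fun measurableSet_Ioi hinner]
    have e2 : Ioi (0 : ℝ) = Ioc 0 ρ ∪ Ioi ρ := (Ioc_union_Ioi_eq_Ioi hρ.le).symm
    have e3 : Disjoint (Ioc 0 ρ) (Ioi ρ) := by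
      rw [Set.disjoint_left]
      intro x hx hx'
      exact absurd hx.2 (not_le.2 hx')
    rw [e2, lintegral_union measurableSet_Ioi e3]
    have e4 : ∫⁻ t in Ioi ρ, ∫⁻ θ in Ioc 0 Real.pi, ENNReal.ofReal (k (t, θ)) = 0 := by
      have e5 : ∀ t ∈ Ioi ρ, ∫⁻ θ in Ioc 0 Real.pi, ENNReal.ofReal (k (t, θ)) = 0 := by
        intro t ht
        have ht' : ρ < t := ht
        have e6 : ∀ θ : ℝ, ENNReal.ofReal (k (t, θ)) = 0 := by
          intro θ
          have h1 : ((m : ℂ) + t * circ θ) ∉ S := by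
            intro h2
            have h3 : ‖((m : ℂ) + t * circ θ) - m‖ ≤ ρ := h2.1
            rw [pt_norm, abs_of_pos (hρ.trans ht')] at h3
            linarith
          simp only [hk]
          rw [hg, Set.indicator_of_notMem h1, zero_mul, ENNReal.ofReal_zero]
        simp_rw [e6]
        simp
      rw [setLIntegral_congr_fun measurableSet_Ioi e5]
      simp
    rw [e4, add_zero]
  -- the right hand side
  have hR : ∫ t in (0:ℝ)..ρ, ∫ θ in (0:ℝ)..Real.pi, f (m + t * circ θ) * t =
      ∫ t in Ioc 0 ρ, ∫ θ in Ioc 0 Real.pi, k (t, θ) := by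
    rw [intervalIntegral.integral_of_le hρ.le]
    refine setIntegral_congr_fun measurableSet_Ioc fun t ht => ?_
    rw [intervalIntegral.integral_of_le hπ.le]
    refine setIntegral_congr_fun measurableSet_Ioc fun θ hθ => ?_
    have h1 : ((m : ℂ) + t * circ θ) ∈ S := by
      refine ⟨?_, ?_⟩
      · rw [pt_norm, abs_of_pos ht.1]
        exact ht.2
      · rw [pt_im]
        exact mul_nonneg ht.1.le (Real.sin_nonneg_of_nonneg_of_le_pi hθ.1.le hθ.2)
    simp only [hk]
    rw [hg, Set.indicator_of_mem h1]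
  rw [hL, hP2, hR]
  have hGm : StronglyMeasurable fun t : ℝ => ∫ θ in Ioc 0 Real.pi, k (t, θ) :=
    hkm.stronglyMeasurable.integral_prod_right
  have hG0 : ∀ᵐ t ∂(volume.restrict (Ioc 0 ρ)), 0 ≤ ∫ θ in Ioc 0 Real.pi, k (t, θ) := by
    refine (ae_restrict_iff' measurableSet_Ioc).2 (Eventually.of_forall fun t ht => ?_)
    exact integral_nonneg fun θ => hk0 _ ht.1.le
  rw [integral_eq_lintegral_of_nonneg_ae hG0 hGm.aestronglyMeasurable]
  congr 1
  refine setLIntegral_congr_fun measurableSet_Ioc fun t ht => ?_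
  rw [ofReal_integral_eq_lintegral_ofReal (hkint t) (Eventually.of_forall fun θ => hk0 _ ht.1.le)]

end Pool.Agent.H823.HC
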