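import Mathlib
import Pool.Agent.H823.HC.StmV

/-!
# Project HC: primitives of closed two-forms on a ball
-/

open scoped Topology ContDiff Manifold
open Set Metric Filter MeasureTheory

noncomputable section

universe u v w

set_option maxSynthPendingDepth 3

namespace Pool.Agent.H823.HC.PPRIM

section Par

variable {V : Type u} [NormedAddCommGroup V] [NormedSpace ℝ V] [FiniteDimensional ℝ V]
  {W : Type v} [NormedAddCommGroup W] [NormedSpace ℝ W] [CompleteSpace W]

/-- the partial derivative -/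
def dx (Φ : V × ℝ → W) (x : V) (t : ℝ) : V →L[ℝ] W :=
  (fderiv ℝ Φ (x, t)).comp (ContinuousLinearMap.inl ℝ V ℝ)

theorem dx_cont {Φ : V × ℝ → W} (h : ContDiff ℝ 1 Φ) :
    Continuous (Function.uncurry (dx Φ)) := by
  have h1 : Continuous (fderiv ℝ Φ) := h.continuous_fderiv (by norm_num)
  have h2 : Continuous fun L : (V × ℝ) →L[ℝ] W => L.comp (ContinuousLinearMap.inl ℝ V ℝ) :=
    ((ContinuousLinearMap.compL ℝ V (V × ℝ) W).flip (ContinuousLinearMap.inl ℝ V ℝ)).continuous
  exact h2.comp h1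

theorem par_hasFDerivAt {Φ : V × ℝ → W} (h : ContDiff ℝ 1 Φ) (x₀ : V) :
    HasFDerivAt (fun x => ∫ t in (0:ℝ)..1, Φ (x, t)) (∫ t in (0:ℝ)..1, dx Φ x₀ t) x₀ := by
  have hc := dx_cont h
  obtain ⟨C, hC⟩ : ∃ C, ∀ p ∈ closedBall x₀ 1 ×ˢ Icc (0:ℝ) 1, ‖Function.uncurry (dx Φ) p‖ ≤ C :=
    ((isCompact_closedBall x₀ 1).prod isCompact_Icc).exists_bound_of_continuousOn hc.continuousOn
  have hdiff : ∀ x t, HasFDerivAt (fun x => Φ (x, t)) (dx Φ x t) x := by
    intro x t
    have h1 : HasFDerivAt Φ (fderiv ℝ Φ (x, t)) (x, t) :=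
      (h.differentiable (by norm_num) (x, t)).hasFDerivAt
    have h2 : HasFDerivAt (fun x : V => (x, t)) (ContinuousLinearMap.inl ℝ V ℝ) x :=
      hasFDerivAt_prodMk_left x t
    exact h1.comp x h2
  refine intervalIntegral.hasFDerivAt_integral_of_dominated_of_fderiv_le (s := ball x₀ 1)
    (bound := fun _ => C) (ball_mem_nhds x₀ one_pos) ?_ ?_ ?_ ?_ ?_ ?_
  · exact Eventually.of_forall fun x =>
      (h.continuous.comp (Continuous.prodMk_right x)).aestronglyMeasurable
  · exact (h.continuous.comp (Continuous.prodMk_right x₀)).intervalIntegrable _ _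
  · exact (hc.comp (Continuous.prodMk_right x₀)).aestronglyMeasurable
  · refine Eventually.of_forall fun t ht x hx => hC (x, t) ⟨ball_subset_closedBall hx, ?_⟩
    rw [uIoc_of_le zero_le_one] at ht
    exact Ioc_subset_Icc_self ht
  · exact intervalIntegrable_const
  · exact Eventually.of_forall fun t _ x _ => hdiff x t

theorem par_contDiff {Φ : V × ℝ → W} (h : ContDiff ℝ 1 Φ) :
    ContDiff ℝ 1 (fun x => ∫ t in (0:ℝ)..1, Φ (x, t)) := by
  rw [contDiff_one_iff_hasFDerivAt]
  exact ⟨fun x => ∫ t in (0:ℝ)..1, dx Φ x t,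
    intervalIntegral.continuous_parametric_intervalIntegral_of_continuous' (dx_cont h) 0 1,
    fun x => par_hasFDerivAt h x⟩

end Par

section Form

variable {V : Type u} [NormedAddCommGroup V] [InnerProductSpace ℝ V] [FiniteDimensional ℝ V]

/-- the primitive -/
def lam (Om : V → V →L[ℝ] V →L[ℝ] ℝ) (x : V) : V →L[ℝ] ℝ :=
  ∫ t in (0:ℝ)..1, t • Om (t • x) x

/-- the cut-off form -/
theorem cut {R r : ℝ} {Om : V → V →L[ℝ] V →L[ℝ] ℝ} (hr : 0 < r) (hrR : r < R)
    (h : ContDiffOn ℝ ∞ Om (ball 0 R)) :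
    ∃ Om' : V → V →L[ℝ] V →L[ℝ] ℝ, ContDiff ℝ ∞ Om' ∧ ∀ x ∈ ball (0:V) r, Om' x = Om x := by
  let f : ContDiffBump (0:V) := ⟨r, (r + R) / 2, hr, by linarith⟩
  refine ⟨fun x => f x • Om x, ?_, fun x hx => ?_⟩
  · rw [contDiff_iff_contDiffAt]
    intro x
    by_cases hx : x ∈ ball (0:V) R
    · exact f.contDiff.contDiffAt.smul (h.contDiffAt (isOpen_ball.mem_nhds hx))
    · have h1 : x ∉ tsupport f := by
        rw [f.tsupport_eq, mem_closedBall]
        rw [mem_ball, not_lt] at hx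
        have : f.rOut = (r + R) / 2 := rfl
        rw [this]
        intro h2
        linarith
      have h2 : f =ᶠ[𝓝 x] 0 := notMem_tsupport_iff_eventuallyEq.1 h1
      refine (contDiffAt_const (c := (0 : V →L[ℝ] V →L[ℝ] ℝ))).congr_of_eventuallyEq ?_
      filter_upwards [h2] with y hy
      rw [hy]
      simp
  · have h1 : f x = 1 := f.one_of_mem_closedBall (ball_subset_closedBall hx)
    simp only [h1, one_smul]

theorem smul_mem {r : ℝ} {x : V} (hx : x ∈ ball (0:V) r) {t : ℝ} (ht : t ∈ Icc (0:ℝ) 1) :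
    t • x ∈ ball (0:V) r := by
  rw [mem_ball_zero_iff] at hx ⊢
  rw [norm_smul, Real.norm_eq_abs, abs_of_nonneg ht.1]
  nlinarith [norm_nonneg x, ht.1, ht.2]

theorem cont_t {R : ℝ} {Om : V → V →L[ℝ] V →L[ℝ] ℝ} (h : ContDiffOn ℝ ∞ Om (ball 0 R)) {x : V}
    (hx : x ∈ ball (0:V) R) :
    ContinuousOn (fun t : ℝ => Om (t • x)) (Icc 0 1) :=
  h.continuousOn.comp (Continuous.continuousOn (by fun_prop)) fun _ ht => smul_mem hx ht

theorem contD_t {R : ℝ} {Om : V → V →L[ℝ] V →L[ℝ] ℝ} (h : ContDiffOn ℝ ∞ Om (ball 0 R)) {x : V}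
    (hx : x ∈ ball (0:V) R) :
    ContinuousOn (fun t : ℝ => fderiv ℝ Om (t • x)) (Icc 0 1) :=
  (h.continuousOn_fderiv_of_isOpen isOpen_ball (by norm_num)).comp
    (Continuous.continuousOn (by fun_prop)) fun _ ht => smul_mem hx ht

/-- the derivative of the primitive -/
def dlam (Om : V → V →L[ℝ] V →L[ℝ] ℝ) (x : V) (t : ℝ) : V →L[ℝ] V →L[ℝ] ℝ :=
  t • (t • (fderiv ℝ Om (t • x)).flip x + Om (t • x))

theorem main_diff {R : ℝ} {Om : V → V →L[ℝ] V →L[ℝ] ℝ} (h : ContDiffOn ℝ ∞ Om (ball 0 R)) {x₀ : V}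
    (hx : x₀ ∈ ball (0:V) R) :
    ContDiffAt ℝ 1 (lam Om) x₀ ∧
      HasFDerivAt (lam Om) (∫ t in (0:ℝ)..1, dlam Om x₀ t) x₀ := by
  have hx' := mem_ball_zero_iff.1 hx
  obtain ⟨r, hr1, hr2⟩ := exists_between hx'
  have hr0 : 0 < r := (norm_nonneg x₀).trans_lt hr1
  obtain ⟨Om', h1, h2⟩ := cut hr0 hr2 h
  set Φ : V × ℝ → (V →L[ℝ] ℝ) := fun p => p.2 • Om' (p.2 • p.1) p.1 with hΦ
  have hs : ContDiff ℝ ∞ Φ := by
    refine contDiff_snd.smul (ContDiff.clm_apply (h1.comp (contDiff_snd.smul contDiff_fst)) contDiff_fst)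
  have hs1 : ContDiff ℝ 1 Φ := hs.of_le (by norm_num)
  have hmem : x₀ ∈ ball (0:V) r := mem_ball_zero_iff.2 hr1
  have heq : ∀ x ∈ ball (0:V) r, lam Om x = ∫ t in (0:ℝ)..1, Φ (x, t) := by
    intro x hx
    refine intervalIntegral.integral_congr fun t ht => ?_
    rw [uIcc_of_le zero_le_one] at ht
    simp only [hΦ]
    rw [h2 _ (smul_mem hx ht)]
  have hev : lam Om =ᶠ[𝓝 x₀] fun x => ∫ t in (0:ℝ)..1, Φ (x, t) :=
    Filter.eventuallyEq_of_mem (isOpen_ball.mem_nhds hmem) heq
  refine ⟨(par_contDiff hs1).contDiffAt.congr_of_eventuallyEq hev, ?_⟩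
  have hd := (par_hasFDerivAt hs1 x₀).congr_of_eventuallyEq hev
  have he : (∫ t in (0:ℝ)..1, dx Φ x₀ t) = ∫ t in (0:ℝ)..1, dlam Om x₀ t := by
    refine intervalIntegral.integral_congr fun t ht => ?_
    rw [uIcc_of_le zero_le_one] at ht
    have hm := smul_mem hmem ht
    have e1 : Om' =ᶠ[𝓝 (t • x₀)] Om := Filter.eventuallyEq_of_mem (isOpen_ball.mem_nhds hm) h2
    have e2 : fderiv ℝ Om' (t • x₀) = fderiv ℝ Om (t • x₀) := e1.fderiv_eq
    have e3 : Om' (t • x₀) = Om (t • x₀) := h2 _ hm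
    have hO : HasFDerivAt Om' (fderiv ℝ Om (t • x₀)) (t • x₀) := by
      rw [← e2]
      exact (h1.differentiable (by norm_num) _).hasFDerivAt
    have hfst : HasFDerivAt (fun x : V => x) (ContinuousLinearMap.id ℝ V) x₀ := hasFDerivAt_id x₀
    have h3 : HasFDerivAt (fun x : V => Om' (t • x))
        ((fderiv ℝ Om (t • x₀)).comp (t • ContinuousLinearMap.id ℝ V)) x₀ :=
      HasFDerivAt.comp (g := Om') (f := fun x : V => t • x) x₀ hO (hfst.const_smul t)
    have h4 := (h3.clm_apply hfst).const_smul t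
    have h5 : HasFDerivAt (fun x : V => Φ (x, t)) (dx Φ x₀ t) x₀ := by
      have h1' : HasFDerivAt Φ (fderiv ℝ Φ (x₀, t)) (x₀, t) :=
        (hs1.differentiable (by norm_num) (x₀, t)).hasFDerivAt
      have h2' : HasFDerivAt (fun x : V => (x, t)) (ContinuousLinearMap.inl ℝ V ℝ) x₀ :=
        hasFDerivAt_prodMk_left x₀ t
      exact h1'.comp x₀ h2'
    have h6 := h5.unique h4
    rw [h6]
    ext u v
    simp only [dlam, e3, _root_.smul_apply, _root_.add_apply,
      ContinuousLinearMap.comp_apply, ContinuousLinearMap.flip_apply, ContinuousLinearMap.id_apply,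
      map_smul]
    simp only [smul_eq_mul]
    ring
  rw [← he]
  exact hd

theorem dlam_int {R : ℝ} {Om : V → V →L[ℝ] V →L[ℝ] ℝ} (h : ContDiffOn ℝ ∞ Om (ball 0 R)) {x : V}
    (hx : x ∈ ball (0:V) R) : IntervalIntegrable (dlam Om x) volume 0 1 := by
  refine ContinuousOn.intervalIntegrable ?_
  rw [uIcc_of_le zero_le_one]
  have h1 := cont_t h hx
  have h2 := contD_t h hx
  have h3 : ContinuousOn (fun t : ℝ => (fderiv ℝ Om (t • x)).flip x) (Icc 0 1) := by
    have : Continuous fun L : V →L[ℝ] V →L[ℝ] V →L[ℝ] ℝ => L.flip x :=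
      ((ContinuousLinearMap.flipₗᵢ ℝ V V (V →L[ℝ] ℝ)).continuous).clm_apply continuous_const
    exact this.comp_continuousOn h2
  unfold dlam
  exact continuousOn_id.smul ((continuousOn_id.smul h3).add h1)

theorem lam_apply {R : ℝ} {Om : V → V →L[ℝ] V →L[ℝ] ℝ} (h : ContDiffOn ℝ ∞ Om (ball 0 R)) {x : V}
    (hx : x ∈ ball (0:V) R) (v : V) : lam Om x v = ∫ t in (0:ℝ)..1, t * Om (t • x) x v := by
  unfold lam
  rw [ContinuousLinearMap.intervalIntegral_apply]
  · refine intervalIntegral.integral_congr fun t _ => ?_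
    simp
  · refine ContinuousOn.intervalIntegrable ?_
    rw [uIcc_of_le zero_le_one]
    have h1 := cont_t h hx
    exact continuousOn_id.smul (h1.clm_apply continuousOn_const)

end Form

end Pool.Agent.H823.HC.PPRIM

namespace Pool.Agent.H823.HC

open PPRIM

theorem t_PRIM : S_PRIM.{u} := by
  intro V _ _ _ R B Om hR hB hcl hbd
  have hsm := hcl.smooth
  refine ⟨lam Om, fun x hx => (main_diff hsm hx).1.contDiffWithinAt, ?_, ?_, ?_⟩
  · intro x hx u v
    have hint := dlam_int hsm hx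
    have e0 : fderiv ℝ (lam Om) x = ∫ t in (0:ℝ)..1, dlam Om x t := (main_diff hsm hx).2.fderiv
    have hap : ∀ a b : V, fderiv ℝ (lam Om) x a b = ∫ t in (0:ℝ)..1, dlam Om x t a b := by
      intro a b
      rw [e0, ContinuousLinearMap.intervalIntegral_apply hint]
      have h2 : IntervalIntegrable (fun t => dlam Om x t a) volume 0 1 := by
        refine ⟨?_, ?_⟩
        · exact (ContinuousLinearMap.apply ℝ (V →L[ℝ] ℝ) a).integrable_comp hint.1
        · exact (ContinuousLinearMap.apply ℝ (V →L[ℝ] ℝ) a).integrable_comp hint.2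
      rw [ContinuousLinearMap.intervalIntegral_apply h2]
    have hi : ∀ a b : V, IntervalIntegrable (fun t => dlam Om x t a b) volume 0 1 := by
      intro a b
      refine ⟨?_, ?_⟩
      · exact (ContinuousLinearMap.apply ℝ ℝ b).integrable_comp
          ((ContinuousLinearMap.apply ℝ (V →L[ℝ] ℝ) a).integrable_comp hint.1)
      · exact (ContinuousLinearMap.apply ℝ ℝ b).integrable_comp
          ((ContinuousLinearMap.apply ℝ (V →L[ℝ] ℝ) a).integrable_comp hint.2)
    rw [hap, hap, ← intervalIntegral.integral_sub (hi u v) (hi v u)]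
    -- antisymmetry
    have hanti : ∀ y ∈ ball (0:V) R, ∀ a b, Om y a b = -Om y b a := by
      intro y hy a b
      have h1 := hcl.alt y hy (a + b)
      simp only [map_add, _root_.add_apply] at h1
      rw [hcl.alt y hy a, hcl.alt y hy b] at h1
      linarith
    have hOmd : ∀ y ∈ ball (0:V) R, HasFDerivAt Om (fderiv ℝ Om y) y := fun y hy =>
      ((hsm.contDiffAt (isOpen_ball.mem_nhds hy)).differentiableAt (by norm_num)).hasFDerivAt
    have hOab : ∀ y ∈ ball (0:V) R, ∀ a b, HasFDerivAt (fun y => Om y a b)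
        (((ContinuousLinearMap.apply ℝ ℝ b).comp (ContinuousLinearMap.apply ℝ (V →L[ℝ] ℝ) a)).comp
          (fderiv ℝ Om y)) y := by
      intro y hy a b
      exact (((ContinuousLinearMap.apply ℝ ℝ b).comp
        (ContinuousLinearMap.apply ℝ (V →L[ℝ] ℝ) a)).hasFDerivAt).comp y (hOmd y hy)
    have hDanti : ∀ y ∈ ball (0:V) R, ∀ c a b, fderiv ℝ Om y c a b = -fderiv ℝ Om y c b a := by
      intro y hy c a b
      have h1 := hOab y hy a b
      have h2 := (hOab y hy b a).neg
      have h3 : (fun y => Om y a b) =ᶠ[𝓝 y] -fun y => Om y b a :=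
        Filter.eventuallyEq_of_mem (isOpen_ball.mem_nhds hy) fun z hz => hanti z hz a b
      have h4 := h1.unique (h2.congr_of_eventuallyEq h3)
      have h5 := congrArg (fun L : V →L[ℝ] ℝ => L c) h4
      simpa using h5
    -- the derivative of `t ^ 2 * Om (t x) u v`
    have hder : ∀ t ∈ uIcc (0:ℝ) 1, HasDerivAt (fun t : ℝ => t ^ 2 * Om (t • x) u v)
        (dlam Om x t u v - dlam Om x t v u) t := by
      intro t ht
      rw [uIcc_of_le zero_le_one] at ht
      have hy := smul_mem hx ht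
      have h1 : HasDerivAt (fun t : ℝ => t • x) x t := by
        simpa using (hasDerivAt_id t).smul_const x
      have h2 := (hOab (t • x) hy u v).comp_hasDerivAt t h1
      have h3 := (hasDerivAt_pow 2 t).mul h2
      refine h3.congr_deriv ?_
      have c1 := hcl.closed (t • x) hy u v x
      have c2 := hDanti (t • x) hy v x u
      have c3 := hDanti (t • x) hy u v x
      have c4 := hanti (t • x) hy u v
      simp only [dlam, _root_.smul_apply, _root_.add_apply,
        ContinuousLinearMap.comp_apply, ContinuousLinearMap.flip_apply,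
        ContinuousLinearMap.apply_apply, smul_eq_mul, Function.comp]
      push_cast
      have c5 : fderiv ℝ Om (t • x) x u v =
          fderiv ℝ Om (t • x) u x v - fderiv ℝ Om (t • x) v x u := by linarith
      rw [c5]
      have c6 : Om (t • x) v u = -Om (t • x) u v := by linarith
      rw [c6]
      ring
    rw [intervalIntegral.integral_eq_sub_of_hasDerivAt hder ((hi u v).sub (hi v u))]
    simp
  · intro x hx v
    rw [lam_apply hsm hx v]
    have h1 : ∀ t ∈ Icc (0:ℝ) 1, |t * Om (t • x) x v| ≤ t * (B * ‖x‖ * ‖v‖) := by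
      intro t ht
      rw [abs_mul, abs_of_nonneg ht.1]
      exact mul_le_mul_of_nonneg_left (hbd _ (smul_mem hx ht) x v) ht.1
    have h2 : ‖∫ t in (0:ℝ)..1, t * Om (t • x) x v‖ ≤ ∫ t in (0:ℝ)..1, t * (B * ‖x‖ * ‖v‖) := by
      refine intervalIntegral.norm_integral_le_of_norm_le zero_le_one ?_ ?_
      · exact Eventually.of_forall fun t ht => h1 t (Ioc_subset_Icc_self ht)
      · exact Continuous.intervalIntegrable (by fun_prop) _ _
    rw [Real.norm_eq_abs] at h2
    refine h2.trans (le_of_eq ?_)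
    rw [intervalIntegral.integral_mul_const, integral_id]
    ring
  · intro T hT x hxT hx v hv
    rw [lam_apply hsm hx v]
    have : ∫ t in (0:ℝ)..1, t * Om (t • x) x v = ∫ t in (0:ℝ)..1, (0:ℝ) := by
      refine intervalIntegral.integral_congr fun t ht => ?_
      rw [uIcc_of_le zero_le_one] at ht
      rw [hT (t • x) (T.smul_mem t hxT) (smul_mem hx ht) x hxT v hv, mul_zero]
    rw [this]
    simp

end Pool.Agent.H823.HC
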