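import Mathlib
import Pool.Agent.H823.HC.StmM

/-! # Project HC, task PROPER: bounded geometry implies that closed balls are compact -/

open scoped Topology ContDiff Manifold
open Set Metric Filter MeasureTheory

noncomputable section

universe u v w

namespace Pool.Agent.H823.HC.PPROPER

set_option linter.unusedSectionVars false

variable {V : Type u} [NormedAddCommGroup V] [InnerProductSpace ℝ V] [FiniteDimensional ℝ V]
  {M : Type v} [MetricSpace M] [ChartedSpace V M] [IsManifold 𝓘(ℝ, V) ∞ M]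
  (A : AlmostKahler V M)

/-- the velocity of a curve, in a chart -/
theorem mfderiv_eq_frame (e : OpenPartialHomeomorph M V) (he : e ∈ Charts V M) (c : ℝ → M) (t : ℝ)
    (hc : MDifferentiableAt 𝓘(ℝ, ℝ) 𝓘(ℝ, V) c t) (ht : c t ∈ e.source) :
    (mfderiv 𝓘(ℝ, ℝ) 𝓘(ℝ, V) c t (1:ℝ) : V) =
      (frame e (e (c t)) (deriv (fun s => e (c s)) t) : V) := by
  have h1 : (fun s => e.symm (e (c s))) =ᶠ[𝓝 t] c := by
    have : ∀ᶠ s in 𝓝 t, c s ∈ e.source := hc.continuousAt.eventually_mem (e.open_source.mem_nhds ht)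
    filter_upwards [this] with s hs using e.left_inv hs
  have he1 : MDifferentiableAt 𝓘(ℝ, V) 𝓘(ℝ, V) e (c t) :=
    (contMDiffAt_of_mem_maximalAtlas he ht).mdifferentiableAt (by simp)
  have he2 : MDifferentiableAt 𝓘(ℝ, V) 𝓘(ℝ, V) e.symm (e (c t)) :=
    (contMDiffAt_symm_of_mem_maximalAtlas he (e.map_source ht)).mdifferentiableAt (by simp)
  have h2 : MDifferentiableAt 𝓘(ℝ, ℝ) 𝓘(ℝ, V) (fun s => e (c s)) t := he1.comp t hc
  have h3 : mfderiv 𝓘(ℝ, ℝ) 𝓘(ℝ, V) (fun s => e.symm (e (c s))) t =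
      (mfderiv 𝓘(ℝ, V) 𝓘(ℝ, V) e.symm (e (c t))).comp
        (mfderiv 𝓘(ℝ, ℝ) 𝓘(ℝ, V) (fun s => e (c s)) t) :=
    mfderiv_comp t he2 h2
  have h4 : mfderiv 𝓘(ℝ, ℝ) 𝓘(ℝ, V) (fun s => e.symm (e (c s))) t =
      mfderiv 𝓘(ℝ, ℝ) 𝓘(ℝ, V) c t := h1.mfderiv_eq
  have h5 := h4.symm.trans h3
  have h6 : (mfderiv 𝓘(ℝ, ℝ) 𝓘(ℝ, V) c t : ℝ →L[ℝ] V) (1:ℝ) =
    ((mfderiv 𝓘(ℝ, V) 𝓘(ℝ, V) e.symm (e (c t)) : V →L[ℝ] V).comp
        (mfderiv 𝓘(ℝ, ℝ) 𝓘(ℝ, V) (fun s => e (c s)) t : ℝ →L[ℝ] V)) (1:ℝ) :=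
    congrArg (fun f : ℝ →L[ℝ] V => f (1:ℝ)) h5
  refine h6.trans ?_
  rw [mfderiv_eq_fderiv]
  rfl

/-- the square of the norm does not depend on the way a point is written -/
theorem nrm_congr {p q : M} (hpq : p = q) (v : V) : A.nrm p v = A.nrm q v := by
  subst hpq; rfl

/-- the speed of a curve, in a chart -/
theorem nrm_eq_gC (e : OpenPartialHomeomorph M V) (he : e ∈ Charts V M) (c : ℝ → M) (t : ℝ)
    (hc : MDifferentiableAt 𝓘(ℝ, ℝ) 𝓘(ℝ, V) c t) (ht : c t ∈ e.source) :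
    A.nrm (c t) (mfderiv 𝓘(ℝ, ℝ) 𝓘(ℝ, V) c t (1:ℝ)) =
      Real.sqrt (A.gC e (e (c t)) (deriv (fun s => e (c s)) t) (deriv (fun s => e (c s)) t)) := by
  have h1 := mfderiv_eq_frame e he c t hc ht
  have h2 : A.nrm (c t) (mfderiv 𝓘(ℝ, ℝ) 𝓘(ℝ, V) c t (1:ℝ)) =
      A.nrm (c t) (frame e (e (c t)) (deriv (fun s => e (c s)) t) : V) :=
    congrArg (fun v : V => A.nrm (c t) v) h1
  rw [h2]
  exact (nrm_congr A (e.left_inv ht) _).symm

/-- the metric in coordinates -/
theorem gC_basis (e : OpenPartialHomeomorph M V) {ι : Type*} [Fintype ι]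
    (b : OrthonormalBasis ι ℝ V) (x v w : V) :
    A.gC e x v w = ∑ i, ∑ j, inner ℝ (b i) v * inner ℝ (b j) w * A.gC e x (b i) (b j) := by
  let D : V →L[ℝ] V := mfderiv 𝓘(ℝ, V) 𝓘(ℝ, V) e.symm x
  let O : V →L[ℝ] V →L[ℝ] ℝ := A.om (e.symm x)
  let J : V →L[ℝ] V := A.J (e.symm x)
  have key : ∀ v w : V, A.gC e x v w = O (D v) (J (D w)) := fun v w => rfl
  simp only [key]
  conv_lhs => rw [← b.sum_repr' v, ← b.sum_repr' w]
  simp only [map_sum, map_smul, _root_.sum_apply, _root_.smul_apply,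
    smul_eq_mul, Finset.mul_sum]
  rw [Finset.sum_comm]
  refine Finset.sum_congr rfl fun i _ => Finset.sum_congr rfl fun j _ => ?_
  ring

/-- continuity of the speed -/
theorem continuous_speed (c : ℝ → M) (hc : ContMDiff 𝓘(ℝ, ℝ) 𝓘(ℝ, V) 1 c) :
    Continuous (fun t => A.nrm (c t) (mfderiv 𝓘(ℝ, ℝ) 𝓘(ℝ, V) c t (1:ℝ))) := by
  rw [continuous_iff_continuousAt]
  intro t₀
  set e := chartAt V (c t₀) with he
  have hem : e ∈ Charts V M := IsManifold.chart_mem_maximalAtlas (c t₀)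
  have hs : c t₀ ∈ e.source := mem_chart_source V (c t₀)
  have hev : ∀ᶠ t in 𝓝 t₀, c t ∈ e.source :=
    hc.continuous.continuousAt.eventually_mem (e.open_source.mem_nhds hs)
  have h1 : (fun t => Real.sqrt (A.gC e (e (c t)) (deriv (fun s => e (c s)) t)
      (deriv (fun s => e (c s)) t))) =ᶠ[𝓝 t₀]
      (fun t => A.nrm (c t) (mfderiv 𝓘(ℝ, ℝ) 𝓘(ℝ, V) c t (1:ℝ))) := by
    filter_upwards [hev] with t ht
    exact (nrm_eq_gC A e hem c t ((hc t).mdifferentiableAt (by simp)) ht).symm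
  refine ContinuousAt.congr ?_ h1
  refine ContinuousAt.comp (g := Real.sqrt) Real.continuous_sqrt.continuousAt ?_
  have h2 : ContMDiffAt 𝓘(ℝ, ℝ) 𝓘(ℝ, V) 1 (fun s => e (c s)) t₀ :=
    ((contMDiffAt_of_mem_maximalAtlas hem hs).of_le (by simp)).comp t₀ (hc t₀)
  have h3 : ContDiffAt ℝ 1 (fun s => e (c s)) t₀ := contMDiffAt_iff_contDiffAt.1 h2
  have h4 : ContinuousAt (deriv (fun s => e (c s))) t₀ := by
    have h5 : ContinuousAt (fderiv ℝ (fun s => e (c s))) t₀ :=
      (h3.fderiv_right (m := 0) (by simp)).continuousAt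
    have h6 : deriv (fun s => e (c s)) = fun t => fderiv ℝ (fun s => e (c s)) t 1 := by
      funext t; rfl
    rw [h6]
    exact h5.clm_apply continuousAt_const
  have h7 : ∀ v w : V, ContinuousAt (fun t => A.gC e (e (c t)) v w) t₀ := by
    intro v w
    have h8 : ContinuousAt (fun x => A.gC e x v w) (e (c t₀)) :=
      ((A.smooth_g e hem v w).continuousOn).continuousAt (e.open_target.mem_nhds (e.map_source hs))
    exact ContinuousAt.comp (f := fun t => e (c t)) h8 h3.continuousAt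
  let b := stdOrthonormalBasis ℝ V
  simp_rw [gC_basis A e b (e (c _)) (deriv _ _) (deriv _ _)]
  refine tendsto_finsetSum _ fun i _ => tendsto_finsetSum _ fun j _ => ?_
  exact ((continuousAt_const.inner h4).mul (continuousAt_const.inner h4)).mul (h7 _ _)

/-- the length of a piece of a curve bounds the distance of its end points -/
theorem dist_le_len (hLEN : S_LEN.{u, v}) (c : ℝ → M) (hc : ContMDiff 𝓘(ℝ, ℝ) 𝓘(ℝ, V) 1 c)
    {a b : ℝ} (hab : a ≤ b) :
    dist (c a) (c b) ≤ ∫ t in a..b, A.nrm (c t) (mfderiv 𝓘(ℝ, ℝ) 𝓘(ℝ, V) c t (1:ℝ)) := by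
  rcases hab.eq_or_lt with rfl | hlt
  · simp
  have h := hLEN V M A c a b hab hc.contMDiffOn
  refine h.trans (le_of_eq ?_)
  refine intervalIntegral.integral_congr fun t ht => ?_
  rw [uIcc_of_le hab] at ht
  have hu : UniqueMDiffWithinAt 𝓘(ℝ, ℝ) (Icc a b) t :=
    (uniqueDiffOn_Icc hlt t ht).uniqueMDiffWithinAt
  have h2 := mfderivWithin_eq_mfderiv hu ((hc t).mdifferentiableAt (by simp))
  exact congrArg (fun f : ℝ →L[ℝ] V => A.nrm (c t) (f (1:ℝ))) h2

include A in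
/-- `M` is a length space -/
theorem exists_mid (hLEN : S_LEN.{u, v}) (p z : M) {R δ η : ℝ} (hR : 0 ≤ R) (hδ : 0 ≤ δ)
    (hη : 0 < η) (hz : dist p z ≤ R + δ) : ∃ y, dist p y ≤ R ∧ dist y z ≤ δ + η := by
  by_cases h : dist p z ≤ R
  · exact ⟨z, h, by simpa using (by linarith : (0:ℝ) ≤ δ + η)⟩
  push Not at h
  have hglb := A.isGLB_dist p z
  obtain ⟨ℓ, ⟨c, hc, hc0, hc1, hl⟩, hlt⟩ :=
    (isGLB_lt_iff hglb).1 (by linarith : dist p z < dist p z + η)
  have hl' : ℓ = ∫ t in (0:ℝ)..1, A.nrm (c t) (mfderiv 𝓘(ℝ, ℝ) 𝓘(ℝ, V) c t (1:ℝ)) := hl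
  have hcont : Continuous (fun t => dist p (c t)) := continuous_const.dist hc.continuous
  have hIVT : R ∈ (fun t => dist p (c t)) '' Icc (0:ℝ) 1 := by
    refine intermediate_value_Icc zero_le_one hcont.continuousOn ⟨?_, ?_⟩
    · simpa [hc0] using hR
    · simpa [hc1] using h.le
  obtain ⟨t, ht, htR⟩ := hIVT
  have hsp := continuous_speed A c hc
  have hadd := intervalIntegral.integral_add_adjacent_intervals (μ := volume)
    (hsp.intervalIntegrable 0 t) (hsp.intervalIntegrable t 1)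
  have h1 := dist_le_len A hLEN c hc ht.1
  have h2 := dist_le_len A hLEN c hc ht.2
  simp only at htR
  rw [hc0, htR] at h1
  rw [hc1] at h2
  exact ⟨c t, htR.le, by linarith⟩

end Pool.Agent.H823.HC.PPROPER

namespace Pool.Agent.H823.HC

open PPROPER

theorem t_PROPER (hLEN : S_LEN.{u, v}) (hDIST : S_DIST.{u, v}) : S_PROPER.{u, v} := by
  intro V _ _ _ M _ _ _ A hA
  obtain ⟨r, K, hr, hK, hgood⟩ := hA
  have hK0 : 0 < K := lt_of_lt_of_le one_pos hK
  set κ := r / (2 * K) with hκ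
  have hκ0 : 0 < κ := by positivity
  have hκr : κ < r / K := by
    rw [hκ, div_lt_div_iff₀ (by positivity) hK0]
    nlinarith [mul_pos hr hK0]
  -- the small balls
  have hsmall : ∀ p : M, IsCompact (closedBall p κ) := by
    intro p
    obtain ⟨e, he⟩ := hgood p
    have hsub : closedBall p κ ⊆ e.symm '' closedBall (0:V) (r / 2) := by
      intro x hx
      rw [mem_closedBall, dist_comm] at hx
      obtain ⟨hxs, hxn⟩ := hDIST V M A r K p e hr hK he x (hx.trans_lt hκr)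
      refine ⟨e x, ?_, e.left_inv hxs⟩
      rw [mem_closedBall_zero_iff]
      calc ‖e x‖ ≤ K * dist p x := hxn
        _ ≤ K * κ := by gcongr
        _ = r / 2 := by rw [hκ]; field_simp
    have hballs : closedBall (0:V) (r / 2) ⊆ e.target :=
      (closedBall_subset_ball (by linarith)).trans he.ball_subset
    have hprop : ProperSpace V := FiniteDimensional.proper ℝ V
    have hc : IsCompact (e.symm '' closedBall (0:V) (r / 2)) :=
      (isCompact_closedBall (0:V) (r / 2)).image_of_continuousOn (e.continuousOn_symm.mono hballs)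
    exact hc.of_isClosed_subset isClosed_closedBall hsub
  have hind : ∀ (n : ℕ) (p : M), IsCompact (closedBall p (n * (κ / 4))) := by
    intro n
    induction n with
    | zero => intro p; simp
    | succ n ih =>
      intro p
      obtain ⟨s, hs, hcov⟩ := (ih p).elim_nhds_subcover (fun y => ball y (κ / 4))
        (fun y _ => ball_mem_nhds y (by positivity))
      have hcc : IsCompact (⋃ y ∈ s, closedBall y κ) :=
        s.isCompact_biUnion fun y _ => hsmall y
      refine hcc.of_isClosed_subset isClosed_closedBall fun z hz => ?_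
      rw [mem_closedBall, dist_comm] at hz
      push_cast at hz
      obtain ⟨y, hy1, hy2⟩ := exists_mid A hLEN p z (R := n * (κ / 4)) (δ := κ / 4)
        (η := κ / 4) (by positivity) (by positivity) (by positivity) (by linarith)
      have hy : y ∈ closedBall p (n * (κ / 4)) := by rwa [mem_closedBall, dist_comm]
      obtain ⟨w, hw, hyw⟩ := mem_iUnion₂.1 (hcov hy)
      refine mem_iUnion₂.2 ⟨w, hw, ?_⟩
      rw [mem_ball] at hyw
      rw [mem_closedBall]
      calc dist z w ≤ dist z y + dist y w := dist_triangle _ _ _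
        _ ≤ κ := by rw [dist_comm z y]; linarith
  refine ⟨fun p R => ?_⟩
  obtain ⟨n, hn⟩ := exists_nat_gt (R / (κ / 4))
  refine (hind n p).of_isClosed_subset isClosed_closedBall (closedBall_subset_closedBall ?_)
  rw [div_lt_iff₀ (by positivity)] at hn
  exact hn.le

end Pool.Agent.H823.HC
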