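import Mathlib
import Pool.Agent.H823.HC.StmV

/-!
# Project HC: `S_PULL`, the pull back of a closed alternating two-form is closed
-/

open scoped Topology ContDiff Manifold
open Set Metric Filter MeasureTheory

noncomputable section

universe u

namespace Pool.Agent.H823.HC.PPULL

section

variable {V : Type u} [NormedAddCommGroup V] [NormedSpace ℝ V]

lemma fderiv_apply2 {F : V → V →L[ℝ] V →L[ℝ] ℝ} {x : V} (hF : DifferentiableAt ℝ F x)
    (u v w : V) : fderiv ℝ F x u v w = fderiv ℝ (fun y => F y v w) x u := by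
  have h1 : HasFDerivAt (fun y => F y v w)
      ((F x v).comp (0 : V →L[ℝ] V) + ((F x).comp (0 : V →L[ℝ] V) +
        (fderiv ℝ F x).flip v).flip w) x :=
    ((hF.hasFDerivAt.clm_apply (hasFDerivAt_const v x)).clm_apply (hasFDerivAt_const w x))
  rw [h1.fderiv]
  simp

lemma fderiv_pull {Om : V → V →L[ℝ] V →L[ℝ] ℝ} {ψ : V → V} {x : V}
    (hO : DifferentiableAt ℝ Om (ψ x)) (hψ : DifferentiableAt ℝ ψ x)
    (hψ2 : DifferentiableAt ℝ (fderiv ℝ ψ) x) (u v w : V) :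
    fderiv ℝ (fun y => Om (ψ y) (fderiv ℝ ψ y v) (fderiv ℝ ψ y w)) x u =
      fderiv ℝ Om (ψ x) (fderiv ℝ ψ x u) (fderiv ℝ ψ x v) (fderiv ℝ ψ x w) +
      Om (ψ x) (fderiv ℝ (fderiv ℝ ψ) x u v) (fderiv ℝ ψ x w) +
      Om (ψ x) (fderiv ℝ ψ x v) (fderiv ℝ (fderiv ℝ ψ) x u w) := by
  have hc : HasFDerivAt (fun y => Om (ψ y)) ((fderiv ℝ Om (ψ x)).comp (fderiv ℝ ψ x)) x :=
    HasFDerivAt.comp (g := Om) (f := ψ) x hO.hasFDerivAt hψ.hasFDerivAt
  have hv : HasFDerivAt (fun y => fderiv ℝ ψ y v)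
      ((fderiv ℝ ψ x).comp (0 : V →L[ℝ] V) + (fderiv ℝ (fderiv ℝ ψ) x).flip v) x :=
    hψ2.hasFDerivAt.clm_apply (hasFDerivAt_const v x)
  have hw : HasFDerivAt (fun y => fderiv ℝ ψ y w)
      ((fderiv ℝ ψ x).comp (0 : V →L[ℝ] V) + (fderiv ℝ (fderiv ℝ ψ) x).flip w) x :=
    hψ2.hasFDerivAt.clm_apply (hasFDerivAt_const w x)
  have h := (hc.clm_apply hv).clm_apply hw
  rw [h.fderiv]
  simp only [add_apply, ContinuousLinearMap.comp_apply,
    ContinuousLinearMap.flip_apply, zero_apply, map_zero, zero_add]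
  ring

end

end Pool.Agent.H823.HC.PPULL

namespace Pool.Agent.H823.HC

open PPULL

theorem t_PULL : S_PULL.{u} := by
  intro V _ _ _ R R' Om ψ hOm hψ hm
  have hb : IsOpen (ball (0:V) R) := isOpen_ball
  have hb' : IsOpen (ball (0:V) R') := isOpen_ball
  have hD : ContDiffOn ℝ ∞ (fderiv ℝ ψ) (ball 0 R') :=
    hψ.fderiv_of_isOpen hb' (by simp)
  have hcomp : ContDiffOn ℝ ∞ (fun x => Om (ψ x)) (ball 0 R') :=
    hOm.smooth.comp hψ hm
  have hsm : ContDiffOn ℝ ∞ (fun x => (Om (ψ x)).bilinearComp (fderiv ℝ ψ x) (fderiv ℝ ψ x))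
      (ball 0 R') := by
    rw [contDiffOn_clm_apply]
    intro v
    rw [contDiffOn_clm_apply]
    intro w
    have h1 : ContDiffOn ℝ ∞ (fun x => Om (ψ x) (fderiv ℝ ψ x v) (fderiv ℝ ψ x w))
        (ball 0 R') :=
      (hcomp.clm_apply (hD.clm_apply contDiffOn_const)).clm_apply (hD.clm_apply contDiffOn_const)
    exact h1
  have hskew : ∀ x ∈ ball (0:V) R, ∀ v w, Om x v w = - Om x w v := by
    intro x hx v w
    have h1 := hOm.alt x hx (v + w)
    have h2 := hOm.alt x hx v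
    have h3 := hOm.alt x hx w
    simp only [map_add, add_apply] at h1
    linarith
  refine ⟨hsm, fun x hx v => ?_, fun x hx u v w => ?_⟩
  · exact hOm.alt _ (hm x hx) _
  · have hFd : DifferentiableAt ℝ
        (fun x => (Om (ψ x)).bilinearComp (fderiv ℝ ψ x) (fderiv ℝ ψ x)) x :=
      (hsm.contDiffAt (hb'.mem_nhds hx)).differentiableAt (by simp)
    have hψd : DifferentiableAt ℝ ψ x :=
      (hψ.contDiffAt (hb'.mem_nhds hx)).differentiableAt (by simp)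
    have hψ2 : DifferentiableAt ℝ (fderiv ℝ ψ) x :=
      (hD.contDiffAt (hb'.mem_nhds hx)).differentiableAt (by simp)
    have hOd : DifferentiableAt ℝ Om (ψ x) :=
      (hOm.smooth.contDiffAt (hb.mem_nhds (hm x hx))).differentiableAt (by simp)
    have hsym : IsSymmSndFDerivAt ℝ ψ x :=
      (hψ.contDiffAt (hb'.mem_nhds hx)).isSymmSndFDerivAt (by simp only [minSmoothness_of_isRCLikeNormedField]; exact ENat.LEInfty.out)
    have key : ∀ u v w : V, fderiv ℝ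
        (fun x => (Om (ψ x)).bilinearComp (fderiv ℝ ψ x) (fderiv ℝ ψ x)) x u v w =
        fderiv ℝ Om (ψ x) (fderiv ℝ ψ x u) (fderiv ℝ ψ x v) (fderiv ℝ ψ x w) +
        Om (ψ x) (fderiv ℝ (fderiv ℝ ψ) x u v) (fderiv ℝ ψ x w) +
        Om (ψ x) (fderiv ℝ ψ x v) (fderiv ℝ (fderiv ℝ ψ) x u w) := by
      intro u v w
      rw [fderiv_apply2 hFd]
      exact fderiv_pull hOd hψd hψ2 u v w
    rw [key u v w, key v w u, key w u v]
    have hcl := hOm.closed (ψ x) (hm x hx) (fderiv ℝ ψ x u) (fderiv ℝ ψ x v) (fderiv ℝ ψ x w)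
    have e1 : fderiv ℝ (fderiv ℝ ψ) x v u = fderiv ℝ (fderiv ℝ ψ) x u v := hsym.eq v u
    have e2 : fderiv ℝ (fderiv ℝ ψ) x w u = fderiv ℝ (fderiv ℝ ψ) x u w := hsym.eq w u
    have e3 : fderiv ℝ (fderiv ℝ ψ) x w v = fderiv ℝ (fderiv ℝ ψ) x v w := hsym.eq w v
    rw [e1, e2, e3]
    have s1 := hskew (ψ x) (hm x hx) (fderiv ℝ (fderiv ℝ ψ) x u v) (fderiv ℝ ψ x w)
    have s2 := hskew (ψ x) (hm x hx) (fderiv ℝ (fderiv ℝ ψ) x u w) (fderiv ℝ ψ x v)
    have s3 := hskew (ψ x) (hm x hx) (fderiv ℝ (fderiv ℝ ψ) x v w) (fderiv ℝ ψ x u)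
    linarith

end Pool.Agent.H823.HC
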