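import Mathlib
import Pool.Agent.H823.HC.StmM

open scoped Topology ContDiff Manifold
open Set Metric Filter MeasureTheory

noncomputable section

namespace Pool.Agent.H823.HC

universe u v w

namespace PPULLU

theorem norm_circ (s : ℝ) : ‖circ s‖ = 1 := by
  unfold circ
  exact Complex.norm_exp_ofReal_mul_I s

theorem circ_inj {s s' : ℝ} (h : circ s = circ s') (h1 : |s - s'| < 2 * Real.pi) : s = s' := by
  unfold circ at h
  rw [Complex.exp_eq_exp_iff_exists_int] at h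
  obtain ⟨n, hn⟩ := h
  have h2 : s = s' + n * (2 * Real.pi) := by
    have h3 : ((s : ℂ)) * Complex.I = ((s' + n * (2 * Real.pi) : ℝ) : ℂ) * Complex.I := by
      rw [hn]
      push_cast
      ring
    have h4 := mul_right_cancel₀ Complex.I_ne_zero h3
    exact_mod_cast h4
  have hpi := Real.pi_pos
  rw [h2] at h1
  have h3 : |(n : ℝ)| * (2 * Real.pi) < 1 * (2 * Real.pi) := by
    have h4 : s' + n * (2 * Real.pi) - s' = n * (2 * Real.pi) := by ring
    rw [h4, abs_mul, abs_of_pos (show 0 < 2 * Real.pi by positivity)] at h1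
    linarith
  have h4 : |(n : ℝ)| < 1 := lt_of_mul_lt_mul_right h3 (by positivity)
  have h5 : |n| < 1 := by exact_mod_cast h4
  have h6 : n = 0 := Int.abs_lt_one_iff.1 h5
  rw [h2, h6]
  simp

section

variable {V : Type u} [NormedAddCommGroup V] [InnerProductSpace ℝ V]
  {M : Type v} [MetricSpace M] [ChartedSpace V M] (A : AlmostKahler V M)

theorem om_swap (x : M) (a b : TangentSpace 𝓘(ℝ, V) x) : A.om x a b = - A.om x b a := by
  have h := A.alt x (a + b)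
  have e1 : A.om x (a + b) = A.om x a + A.om x b := map_add _ _ _
  rw [e1] at h
  change A.om x a (a + b) + A.om x b (a + b) = 0 at h
  rw [map_add, map_add, A.alt, A.alt] at h
  linarith

theorem om_conf (x : M) (L : ℂ →L[ℝ] TangentSpace 𝓘(ℝ, V) x)
    (hL : ∀ h : ℂ, L (Complex.I * h) = A.J x (L h)) (c : ℂ) :
    A.om x (L (c * 1)) (L (c * Complex.I)) = A.om x (L 1) (L Complex.I) * ‖c‖ ^ 2 := by
  have e1 : L Complex.I = A.J x (L 1) := by
    have := hL 1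
    rwa [mul_one] at this
  have e2 : L (c * 1) = c.re • L 1 + c.im • A.J x (L 1) := by
    rw [← e1, ← map_smul, ← map_smul, ← map_add]
    congr 1
    apply Complex.ext <;> simp
  have e3 : L (c * Complex.I) = c.re • A.J x (L 1) - c.im • L 1 := by
    have h1 : c * Complex.I = Complex.I * (c * 1) := by ring
    rw [h1, hL, e2, map_add, map_smul, map_smul, A.J_sq, smul_neg, ← sub_eq_add_neg]
  rw [e2, e3, e1]
  have e4 := om_swap A x (A.J x (L 1)) (L 1)
  have e5 := A.alt x (L 1)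
  have e6 := A.alt x (A.J x (L 1))
  simp only [map_add, map_sub, map_smul, add_apply, smul_apply, smul_eq_mul]
  rw [e4, e5, e6, Complex.sq_norm, Complex.normSq_apply]
  ring

end

end PPULLU

open PPULLU

theorem t_PULLU (hCAY : S_CAY) : S_PULLU.{u, v} := by
  intro V _ _ _ M _ _ _ A m t Lag u hu
  have ht01 : t 0 < t 1 := hu.mono (by
    rw [Fin.lt_def]
    simp)
  have h1last : (1 : Fin (m + 3)) < Fin.last (m + 2) := by
    rw [Fin.lt_def]
    simp
  have ht12 : t 1 < t 0 + 2 * Real.pi := by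
    rw [← hu.turn]
    exact hu.mono h1last
  set β : ℝ := - (Real.cos ((t 1 - t 0) / 2) / Real.sin ((t 1 - t 0) / 2)) with hβ
  obtain ⟨c1, c2, c3, c4, c5, c6, c7⟩ := hCAY (t 0) (t 1) β ht01 ht12 hβ
  set C : ℂ → ℂ := cay (t 0) β with hC
  have hpi := Real.pi_pos
  -- the punctures
  have hball : ball (0 : ℂ) 1 ⊆ closedBall 0 1 \ range fun i => circ (t i) := by
    intro z hz
    refine ⟨ball_subset_closedBall hz, ?_⟩
    rintro ⟨i, rfl⟩
    rw [mem_ball_zero_iff, norm_circ] at hz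
    exact lt_irrefl _ hz
  have hmaps : MapsTo C Dom (closedBall 0 1 \ range fun i => circ (t i)) := by
    rintro z (hz | ⟨hz, hz'⟩)
    · exact hball (c2 z hz).1
    · have hzx : z = ((z.re : ℝ) : ℂ) := Complex.ext (by simp) (by simp [hz])
      obtain ⟨s, hs, hs'⟩ := c5 z.re hz'
      rw [← hzx] at hs'
      refine ⟨(c1 z (show 0 ≤ z.im by rw [hz])).1, ?_⟩
      rintro ⟨i, hi⟩
      simp only at hi
      rw [hs'] at hi
      have hi0 : t 0 ≤ t i := hu.mono.monotone (Fin.zero_le i)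
      have hil : t i ≤ t 0 + 2 * Real.pi := by
        rw [← hu.turn]
        exact hu.mono.monotone (Fin.le_last i)
      have h1 : t i = s := circ_inj hi (by
        rw [abs_lt]
        constructor <;> linarith [hs.1, hs.2])
      by_cases h0 : i = 0
      · rw [h0] at h1
        linarith [hs.1]
      · have h2 : (1 : Fin (m + 3)) ≤ i := by
          rw [Fin.le_def]
          have h3 : (i : ℕ) ≠ 0 := fun h => h0 (Fin.ext h)
          simp
          omega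
        have := hu.mono.monotone h2
        linarith [hs.2]
  have hmd : ∀ w ∈ ball (0 : ℂ) 1, MDifferentiableAt 𝓘(ℝ, ℂ) 𝓘(ℝ, V) u w := by
    intro w hw
    have h1 : ContMDiffAt 𝓘(ℝ, ℂ) 𝓘(ℝ, V) ∞ u w :=
      hu.smooth.contMDiffAt (Filter.mem_of_superset (isOpen_ball.mem_nhds hw) hball)
    exact h1.mdifferentiableAt (by simp)
  have hUHc : ∀ z ∈ UH, z ∈ UHc := fun z hz => by
    have h1 : 0 < z.im := hz
    show 0 ≤ z.im
    exact h1.le
  -- the derivative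
  have hder : ∀ z ∈ UH, ∀ h : ℂ, mfderiv 𝓘(ℝ, ℂ) 𝓘(ℝ, V) (fun z => u (C z)) z h =
      mfderiv 𝓘(ℝ, ℂ) 𝓘(ℝ, V) u (C z) (deriv C z * h) := by
    intro z hz h
    have h1 := (c1 z (hUHc z hz)).2.1
    have h2 : HasFDerivAt C
        ((ContinuousLinearMap.toSpanSingleton ℂ (deriv C z)).restrictScalars ℝ) z :=
      h1.hasDerivAt.hasFDerivAt.restrictScalars ℝ
    have h3 : MDifferentiableAt 𝓘(ℝ, ℂ) 𝓘(ℝ, ℂ) C z := h2.differentiableAt.mdifferentiableAt
    have h4 := mfderiv_comp (I := 𝓘(ℝ, ℂ)) (I' := 𝓘(ℝ, ℂ)) (I'' := 𝓘(ℝ, V)) z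
      (hmd (C z) (c2 z hz).1) h3
    have h5 : mfderiv 𝓘(ℝ, ℂ) 𝓘(ℝ, V) (fun z => u (C z)) z =
        (mfderiv 𝓘(ℝ, ℂ) 𝓘(ℝ, V) u (C z)).comp (mfderiv 𝓘(ℝ, ℂ) 𝓘(ℝ, ℂ) C z) := h4
    have h6 : mfderiv 𝓘(ℝ, ℂ) 𝓘(ℝ, ℂ) C z =
        (ContinuousLinearMap.toSpanSingleton ℂ (deriv C z)).restrictScalars ℝ := by
      rw [mfderiv_eq_fderiv]
      exact h2.fderiv
    have h7 : mfderiv 𝓘(ℝ, ℂ) 𝓘(ℝ, ℂ) C z h = deriv C z * h := by
      rw [h6]
      show h * deriv C z = _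
      rw [mul_comm]
    rw [h5]
    exact congrArg (mfderiv 𝓘(ℝ, ℂ) 𝓘(ℝ, V) u (C z)) h7
  have hhol : ∀ w ∈ ball (0 : ℂ) 1, ∀ h : ℂ, mfderiv 𝓘(ℝ, ℂ) 𝓘(ℝ, V) u w (Complex.I * h) =
      A.J (u w) (mfderiv 𝓘(ℝ, ℂ) 𝓘(ℝ, V) u w h) := hu.hol
  have hom : ∀ z ∈ UH, A.om (u (C z)) (mfderiv 𝓘(ℝ, ℂ) 𝓘(ℝ, V) u (C z) (1 : ℂ))
      (mfderiv 𝓘(ℝ, ℂ) 𝓘(ℝ, V) u (C z) Complex.I) * ‖deriv C z‖ ^ 2 =
      A.om (u (C z)) (mfderiv 𝓘(ℝ, ℂ) 𝓘(ℝ, V) (fun z => u (C z)) z (1 : ℂ))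
        (mfderiv 𝓘(ℝ, ℂ) 𝓘(ℝ, V) (fun z => u (C z)) z Complex.I) := by
    intro z hz
    rw [hder z hz, hder z hz]
    exact (om_conf A (u (C z)) (mfderiv 𝓘(ℝ, ℂ) 𝓘(ℝ, V) u (C z)) (hhol (C z) (c2 z hz).1)
      (deriv C z)).symm
  have hUHm : MeasurableSet UH := (isOpen_lt continuous_const Complex.continuous_im).measurableSet
  obtain ⟨i1, i2⟩ := c7 _ hu.energy
  refine ⟨fun z => u (C z), ?_, ?_, ?_, ?_, ?_, ?_, ?_, ?_⟩
  · -- uniform continuity
    have h1 : UniformContinuousOn u (closedBall 0 1) :=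
      (isCompact_closedBall (0 : ℂ) 1).uniformContinuousOn_of_continuous hu.cont
    rw [Metric.uniformContinuousOn_iff] at h1 ⊢
    intro ε hε
    obtain ⟨δ, hδ, h2⟩ := h1 ε hε
    refine ⟨δ / 2, by positivity, fun z hz z' hz' hd => ?_⟩
    refine h2 _ (c1 z hz).1 _ (c1 z' hz').1 ?_
    have := c3 z hz z' hz'
    linarith
  · -- smoothness
    have h1 : ContMDiffOn 𝓘(ℝ, ℂ) 𝓘(ℝ, ℂ) ∞ C Dom := by
      intro z hz
      have hz' : z ∈ UHc := by
        show 0 ≤ z.im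
        rcases hz with hz | hz
        · exact le_of_lt hz
        · exact le_of_eq hz.1.symm
      exact ((c1 z hz').2.2).contMDiffAt.contMDiffWithinAt
    exact hu.smooth.comp h1 hmaps
  · intro z hz h
    rw [hder z hz, hder z hz]
    have h1 : deriv C z * (Complex.I * h) = Complex.I * (deriv C z * h) := by ring
    rw [h1]
    exact hhol (C z) (c2 z hz).1 _
  · intro x hx
    obtain ⟨s, hs, hs'⟩ := c5 x hx
    have h1 := hu.boundary 0 s hs
    rw [← hs'] at h1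
    exact h1
  · intro s hs
    obtain ⟨x, hx, hx'⟩ := c4 s hs
    exact ⟨x, hx, congrArg u hx'⟩
  · intro x hx
    obtain ⟨s, hs, hs'⟩ := c6 x hx
    exact ⟨s, ⟨hs.1, hs.2.le⟩, congrArg u hs'⟩
  · exact i1.congr_fun (fun z hz => hom z hz) hUHm
  · unfold AlmostKahler.area
    rw [← i2]
    exact (setIntegral_congr_fun hUHm (fun z hz => hom z hz)).symm

end Pool.Agent.H823.HC
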