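import Mathlib
import Pool.Agent.H823.HC.StmHP

/-!
Leaf RAY of project HC: integrals over the rays in a sector where the isoperimetric inequality
holds for all the radii.
-/

universe u v w

namespace Pool.Agent.H823.HC

open MeasureTheory Set Filter Topology

namespace PRAY

/-- Cauchy-Schwarz. -/
theorem cs (f : ℝ → ℝ) (hf : Continuous f) (α Θ : ℝ) (hΘ : 0 < Θ) :
    (∫ θ in α..(α + Θ), f θ) ^ 2 ≤ Θ * ∫ θ in α..(α + Θ), f θ ^ 2 := by
  set q := ∫ θ in α..(α + Θ), f θ with hq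
  have h0 : 0 ≤ ∫ θ in α..(α + Θ), (f θ - q / Θ) ^ 2 :=
    intervalIntegral.integral_nonneg (by linarith) fun θ _ => sq_nonneg _
  have h1 : ∫ θ in α..(α + Θ), (f θ - q / Θ) ^ 2 =
      (∫ θ in α..(α + Θ), f θ ^ 2) - 2 * (q / Θ) * q + (q / Θ) ^ 2 * Θ := by
    have e : ∀ θ, (f θ - q / Θ) ^ 2 = f θ ^ 2 - 2 * (q / Θ) * f θ + (q / Θ) ^ 2 := fun θ => by ring
    simp only [e]
    rw [intervalIntegral.integral_add, intervalIntegral.integral_sub,
      intervalIntegral.integral_const_mul, intervalIntegral.integral_const, ← hq]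
    · simp only [smul_eq_mul]
      ring
    · exact (hf.pow 2).intervalIntegrable _ _
    · exact (continuous_const.mul hf).intervalIntegrable _ _
    · exact ((hf.pow 2).sub (continuous_const.mul hf)).intervalIntegrable _ _
    · exact continuous_const.intervalIntegrable _ _
  rw [h1] at h0
  have h2 : 2 * (q / Θ) * q - (q / Θ) ^ 2 * Θ = q ^ 2 / Θ := by
    field_simp
    ring
  have h3 : q ^ 2 / Θ ≤ ∫ θ in α..(α + Θ), f θ ^ 2 := by linarith
  rw [div_le_iff₀ hΘ] at h3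
  linarith

theorem ray_cont (Q : ℝ → ℝ → ℝ) (C₁ T α Θ : ℝ) (hC : 0 ≤ C₁) (hT : 0 < T) (hΘ : 0 < Θ)
    (hQ : Continuous (Function.uncurry Q)) (hp : ∀ t θ, 0 ≤ Q t θ)
    (hiso : ∀ t ∈ Ioc 0 T, ∫ s in (0:ℝ)..t, ∫ θ in α..(α + Θ), Q s θ ^ 2 * s ≤
      C₁ * (∫ θ in α..(α + Θ), Q t θ * t) ^ 2) :
    ∫ t in (0:ℝ)..T, ∫ θ in α..(α + Θ), Q t θ ≤
      2 * Θ * √(C₁ * ∫ s in (0:ℝ)..T, ∫ θ in α..(α + Θ), Q s θ ^ 2 * s) := by
  set q : ℝ → ℝ := fun t => ∫ θ in α..(α + Θ), Q t θ with hqd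
  set a : ℝ → ℝ := fun t => ∫ θ in α..(α + Θ), Q t θ ^ 2 * t with had
  have hqc : Continuous q :=
    intervalIntegral.continuous_parametric_intervalIntegral_of_continuous' hQ _ _
  have hac : Continuous a := by
    apply intervalIntegral.continuous_parametric_intervalIntegral_of_continuous'
    exact (hQ.pow 2).mul continuous_fst
  have hQt : ∀ t, Continuous (Q t) := fun t => hQ.comp (Continuous.prodMk_right t)
  have hq0 : ∀ t, 0 ≤ q t := fun t =>
    intervalIntegral.integral_nonneg (by linarith) fun θ _ => hp t θ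
  have ha0 : ∀ t, 0 ≤ t → 0 ≤ a t := fun t ht =>
    intervalIntegral.integral_nonneg (by linarith) fun θ _ => mul_nonneg (sq_nonneg _) ht
  have hcs : ∀ t, 0 ≤ t → q t ^ 2 * t ≤ Θ * a t := by
    intro t ht
    have h := mul_le_mul_of_nonneg_right (cs (Q t) (hQt t) α Θ hΘ) ht
    have e : a t = (∫ θ in α..(α + Θ), Q t θ ^ 2) * t := by
      simp only [had]
      rw [intervalIntegral.integral_mul_const]
    rw [e]
    calc q t ^ 2 * t ≤ (Θ * ∫ θ in α..(α + Θ), Q t θ ^ 2) * t := h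
      _ = _ := by ring
  set A : ℝ → ℝ := fun t => ∫ s in (0:ℝ)..t, a s with hA
  set G : ℝ → ℝ := fun t => ∫ s in (0:ℝ)..t, q s with hG
  have hAd : ∀ t, HasDerivAt A (a t) t := fun t =>
    (hac.integral_hasStrictDerivAt 0 t).hasDerivAt
  have hGd : ∀ t, HasDerivAt G (q t) t := fun t =>
    (hqc.integral_hasStrictDerivAt 0 t).hasDerivAt
  have hAc : Continuous A := continuous_iff_continuousAt.2 fun t => (hAd t).continuousAt
  have hGc : Continuous G := continuous_iff_continuousAt.2 fun t => (hGd t).continuousAt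
  have hAn : ∀ t, 0 ≤ t → 0 ≤ A t := fun t ht =>
    intervalIntegral.integral_nonneg ht fun s hs => ha0 s hs.1
  have hiso' : ∀ t ∈ Ioc 0 T, A t ≤ C₁ * (q t * t) ^ 2 := by
    intro t ht
    have h := hiso t ht
    rw [intervalIntegral.integral_mul_const] at h
    exact h
  have key : ∀ t ∈ Ioc 0 T, q t * √(A t) ≤ √C₁ * (Θ * a t) := by
    intro t ht
    have h1 : √(A t) ≤ √C₁ * (q t * t) := by
      have h2 : √(A t) ≤ √(C₁ * (q t * t) ^ 2) := Real.sqrt_le_sqrt (hiso' t ht)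
      rwa [Real.sqrt_mul hC, Real.sqrt_sq (mul_nonneg (hq0 t) ht.1.le)] at h2
    calc q t * √(A t) ≤ q t * (√C₁ * (q t * t)) := mul_le_mul_of_nonneg_left h1 (hq0 t)
      _ = √C₁ * (q t ^ 2 * t) := by ring
      _ ≤ √C₁ * (Θ * a t) := mul_le_mul_of_nonneg_left (hcs t ht.1.le) (Real.sqrt_nonneg _)
  -- the last zero of `A`
  have hZc : IsCompact (Icc 0 T ∩ A ⁻¹' {0}) :=
    isCompact_Icc.inter_right (isClosed_singleton.preimage hAc)
  have hZn : (Icc 0 T ∩ A ⁻¹' {0}).Nonempty := ⟨0, ⟨le_refl _, hT.le⟩, by simp [hA]⟩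
  obtain ⟨t₀, ht₀, hmax⟩ := hZc.exists_isGreatest hZn
  have hAt₀ : A t₀ = 0 := ht₀.2
  have hpos : ∀ t, t₀ < t → t ≤ T → 0 < A t := by
    intro t h1 h2
    have h0 : 0 ≤ t := ht₀.1.1.trans h1.le
    rcases (hAn t h0).lt_or_eq with h | h
    · exact h
    · exact absurd (hmax ⟨⟨h0, h2⟩, h.symm⟩) (not_le.2 h1)
  -- `q = 0` on `[0, t₀]`
  have hG₀ : G t₀ = 0 := by
    have hz : ∀ t ∈ Ioc 0 t₀, q t = 0 := by
      intro t ht
      have ha : a t = 0 := by
        by_contra hne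
        have hlt : 0 < a t := lt_of_le_of_ne (ha0 t ht.1.le) (Ne.symm hne)
        have := intervalIntegral.integral_pos (ht.1.trans_le ht.2) hac.continuousOn
          (fun x hx => ha0 x hx.1.le) ⟨t, ⟨ht.1.le, ht.2⟩, hlt⟩
        exact absurd hAt₀ this.ne'
      have h := hcs t ht.1.le
      rw [ha, mul_zero] at h
      have h3 : q t ^ 2 ≤ 0 := by
        by_contra h4
        push Not at h4
        exact absurd h (not_le.2 (mul_pos h4 ht.1))
      nlinarith [hq0 t]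
    simp only [hG]
    rw [intervalIntegral.integral_congr_ae (g := fun _ => (0:ℝ))]
    · simp
    · refine ae_of_all _ fun s hs => ?_
      rw [uIoc_of_le ht₀.1.1] at hs
      exact hz s hs
  -- monotonicity
  set c := 2 * Θ * √C₁ with hc
  have hmono : MonotoneOn (fun t => c * √(A t) - G t) (Icc t₀ T) := by
    have hd : ∀ t ∈ Ioo t₀ T, HasDerivAt (fun t => c * √(A t) - G t)
        (c * (a t / (2 * √(A t))) - q t) t := by
      intro t ht
      exact (((hAd t).sqrt (hpos t ht.1 ht.2.le).ne').const_mul c).sub (hGd t)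
    apply monotoneOn_of_deriv_nonneg (convex_Icc _ _)
    · exact (((hAc.sqrt).const_mul c).sub hGc).continuousOn
    · rw [interior_Icc]
      intro t ht
      exact (hd t ht).differentiableAt.differentiableWithinAt
    · rw [interior_Icc]
      intro t ht
      rw [(hd t ht).deriv]
      have h1 : 0 < √(A t) := Real.sqrt_pos.2 (hpos t ht.1 ht.2.le)
      have h2 := key t ⟨ht₀.1.1.trans_lt ht.1, ht.2.le⟩
      have h3 : c * (a t / (2 * √(A t))) = √C₁ * (Θ * a t) / √(A t) := by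
        rw [hc]
        field_simp
      rw [h3, sub_nonneg, le_div_iff₀ h1]
      exact h2
  have hfin := hmono ⟨le_refl _, ht₀.1.2⟩ ⟨ht₀.1.2, le_refl _⟩ ht₀.1.2
  simp only [hAt₀, hG₀, Real.sqrt_zero, mul_zero, sub_zero] at hfin
  rw [Real.sqrt_mul hC]
  have : G T ≤ c * √(A T) := by linarith
  calc G T ≤ c * √(A T) := this
    _ = 2 * Θ * (√C₁ * √(A T)) := by rw [hc]; ring

end PRAY

open PRAY in
/-- **RAY.** -/
theorem t_RAY : S_RAY := by
  intro Q C₁ T α Θ hC hT hΘ hQ hp hiso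
  have hα : α ≤ α + Θ := by linarith
  set Q' : ℝ → ℝ → ℝ := fun t θ => Q (projIcc 0 T hT.le t) (projIcc α (α + Θ) hα θ) with hQ'
  have hQc : Continuous (Function.uncurry Q') := by
    have h1 : Continuous (fun x : ℝ × ℝ => (((projIcc 0 T hT.le x.1 : ℝ), (projIcc α (α + Θ) hα x.2 : ℝ)) : ℝ × ℝ)) :=
      ((continuous_subtype_val.comp continuous_projIcc).comp continuous_fst).prodMk
        ((continuous_subtype_val.comp continuous_projIcc).comp continuous_snd)
    exact hQ.comp_continuous h1 fun x => ⟨(projIcc 0 T hT.le x.1).2, (projIcc α (α + Θ) hα x.2).2⟩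
  have he : ∀ t ∈ Icc 0 T, ∀ θ ∈ Icc α (α + Θ), Q' t θ = Q t θ := by
    intro t ht θ hθ
    simp only [hQ']
    rw [projIcc_of_mem hT.le ht, projIcc_of_mem hα hθ]
  have he2 : ∀ t ∈ Icc 0 T, ∀ g : ℝ → ℝ, ∫ θ in α..(α + Θ), g (Q' t θ) = ∫ θ in α..(α + Θ), g (Q t θ) := by
    intro t ht g
    refine intervalIntegral.integral_congr fun θ hθ => ?_
    rw [uIcc_of_le hα] at hθ
    simp only [he t ht θ hθ]
  have he3 : ∀ t ∈ Icc 0 T, ∫ s in (0:ℝ)..t, ∫ θ in α..(α + Θ), Q' s θ ^ 2 * s =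
      ∫ s in (0:ℝ)..t, ∫ θ in α..(α + Θ), Q s θ ^ 2 * s := by
    intro t ht
    refine intervalIntegral.integral_congr fun s hs => ?_
    rw [uIcc_of_le ht.1] at hs
    exact he2 s ⟨hs.1, hs.2.trans ht.2⟩ (fun x => x ^ 2 * s)
  have h := ray_cont Q' C₁ T α Θ hC hT hΘ hQc (fun t θ => hp _ _) (by
    intro t ht
    rw [he3 t ⟨ht.1.le, ht.2⟩, he2 t ⟨ht.1.le, ht.2⟩ (fun x => x * t)]
    exact hiso t ht)
  rw [he3 T ⟨hT.le, le_refl _⟩] at h
  have h4 : ∫ t in (0:ℝ)..T, ∫ θ in α..(α + Θ), Q' t θ = ∫ t in (0:ℝ)..T, ∫ θ in α..(α + Θ), Q t θ := by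
    refine intervalIntegral.integral_congr fun s hs => ?_
    rw [uIcc_of_le hT.le] at hs
    exact he2 s hs (fun x => x)
  rw [h4] at h
  exact h

end Pool.Agent.H823.HC
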