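import Mathlib
import Pool.Agent.H823.HC.StmM

/-!
# Project HC, task RESTR: restriction of derivatives within convex sets
-/

set_option autoImplicit false

open scoped Topology ContDiff Manifold
open Set Metric Filter MeasureTheory

noncomputable section

namespace Pool.Agent.H823.HC

universe u v w

theorem t_RESTR : S_RESTR.{u, v} := by
  intro V _ _ _ M _ _ _ A u hu D hD hconv hint
  have huniq : UniqueDiffOn ℝ D := uniqueDiffOn_convex hconv hint
  have key : ∀ z ∈ D, mfderivWithin 𝓘(ℝ, ℂ) 𝓘(ℝ, V) u D z =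
      mfderivWithin 𝓘(ℝ, ℂ) 𝓘(ℝ, V) u Dom z := by
    intro z hz
    have h1 : MDifferentiableWithinAt 𝓘(ℝ, ℂ) 𝓘(ℝ, V) u Dom z :=
      (hu.smooth z (hD hz)).mdifferentiableWithinAt (by simp)
    exact mfderivWithin_subset hD (huniq z hz).uniqueMDiffWithinAt h1
  refine ⟨⟨hu.smooth.mono hD, ?_⟩, ?_⟩
  · intro z hz h
    rw [key z hz]
    exact hu.hol z (hD hz) h
  · intro z hz
    unfold AlmostKahler.sp
    rw [key z hz]

end Pool.Agent.H823.HC
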