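import Mathlib
import Pool.Agent.H823.HC.StmV

/-!
# Parametric transversality (subtask HC-SARD)

The map `Φ(p, q) = (κ p + B j q, G(p, q))`, where `B` is a right inverse of `D_p G(p₀, q₀)`, `κ` the
projection on its kernel along the range of `B` and `j : Q ≃ V` a linear isomorphism, is a local
diffeomorphism `P × Q → P × V`.  If `Ψ` is its local inverse and `Σ x = fst (Ψ (x, 0))`, the bad
parameters are critical values of `Σ : P → P`.
-/

open scoped Topology ContDiff
open Set Metric Filter MeasureTheory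

noncomputable section

universe u v w

namespace Pool.Agent.H823.HC

namespace PSARD

/-- An endomorphism of a finite-dimensional space which kills a nonzero vector has determinant
zero. -/
theorem det_zero {E : Type*} [NormedAddCommGroup E] [NormedSpace ℝ E] [FiniteDimensional ℝ E]
    (T : E →L[ℝ] E) {x : E} (hx : x ≠ 0) (h : T x = 0) : T.det = 0 := by
  by_contra hd
  have hd' : LinearMap.det (T : E →ₗ[ℝ] E) ≠ 0 := hd
  have h1 : (LinearMap.equivOfDetNeZero (T : E →ₗ[ℝ] E) hd') x = 0 := h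
  exact hx ((LinearMap.equivOfDetNeZero (T : E →ₗ[ℝ] E) hd').map_eq_zero_iff.1 h1)

/-- A right inverse of a surjective continuous linear map. -/
theorem rightInv {E F : Type*} [NormedAddCommGroup E] [NormedSpace ℝ E]
    [NormedAddCommGroup F] [NormedSpace ℝ F] [FiniteDimensional ℝ F]
    (A : E →L[ℝ] F) (hA : Function.Surjective A) : ∃ B : F →L[ℝ] E, ∀ y, A (B y) = y := by
  obtain ⟨B, hB⟩ := (A : E →ₗ[ℝ] F).exists_rightInverse_of_surjective
    (LinearMap.range_eq_top.2 hA)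
  refine ⟨LinearMap.toContinuousLinearMap B, fun y => ?_⟩
  have := LinearMap.congr_fun hB y
  simpa using this

section Main

variable {P Q V : Type*} [NormedAddCommGroup P] [NormedSpace ℝ P] [FiniteDimensional ℝ P]
  [NormedAddCommGroup Q] [NormedSpace ℝ Q] [FiniteDimensional ℝ Q]
  [NormedAddCommGroup V] [NormedSpace ℝ V] [FiniteDimensional ℝ V]

/-- The linear part of the auxiliary map. -/
def Th (A : P →L[ℝ] V) (B : V →L[ℝ] P) (j : Q ≃L[ℝ] V) : P × Q →L[ℝ] P :=
  (ContinuousLinearMap.id ℝ P - B.comp A).comp (ContinuousLinearMap.fst ℝ P Q) +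
    (B.comp (j : Q →L[ℝ] V)).comp (ContinuousLinearMap.snd ℝ P Q)

omit [FiniteDimensional ℝ P] [FiniteDimensional ℝ Q] [FiniteDimensional ℝ V] in
theorem Th_apply (A : P →L[ℝ] V) (B : V →L[ℝ] P) (j : Q ≃L[ℝ] V) (p : P) (q : Q) :
    Th A B j (p, q) = p - B (A p) + B (j q) := by
  simp [Th]

theorem main [MeasurableSpace P] [BorelSpace P] (μ : Measure P) [μ.IsAddHaarMeasure]
    (G : P × Q → V) (p₀ : P) (q₀ : Q)
    (hdim : Module.finrank ℝ Q = Module.finrank ℝ V) (hG : ContDiffAt ℝ 1 G (p₀, q₀))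
    (hs : Function.Surjective (fderiv ℝ (fun p => G (p, q₀)) p₀)) :
    ∃ O ∈ 𝓝 p₀, ∃ O' ∈ 𝓝 q₀, μ
      {p ∈ O | ∃ q ∈ O', G (p, q) = 0 ∧ ¬ Function.Surjective (fderiv ℝ (fun q => G (p, q)) q)}
        = 0 := by
  classical
  have hGd : HasFDerivAt G (fderiv ℝ G (p₀, q₀)) (p₀, q₀) :=
    (hG.differentiableAt one_ne_zero).hasFDerivAt
  -- the partial derivatives
  have hA : fderiv ℝ (fun p => G (p, q₀)) p₀ =
      (fderiv ℝ G (p₀, q₀)).comp (ContinuousLinearMap.inl ℝ P Q) := by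
    have h1 : HasFDerivAt (fun p : P => (p, q₀)) (ContinuousLinearMap.inl ℝ P Q) p₀ :=
      hasFDerivAt_prodMk_left p₀ q₀
    exact (hGd.comp p₀ h1).fderiv
  obtain ⟨B, hB⟩ := rightInv _ hs
  set A : P →L[ℝ] V := fderiv ℝ (fun p => G (p, q₀)) p₀ with hAdef
  let j : Q ≃L[ℝ] V := ContinuousLinearEquiv.ofFinrankEq hdim
  let Φ : P × Q → P × V := fun z => (Th A B j z, G z)
  have hΦ : ContDiffAt ℝ 1 Φ (p₀, q₀) :=
    (Th A B j).contDiff.contDiffAt.prodMk hG
  have hder : ∀ z : P × Q, DifferentiableAt ℝ G z →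
      HasFDerivAt Φ ((Th A B j).prod (fderiv ℝ G z)) z := fun z hz =>
    (Th A B j).hasFDerivAt.prodMk hz.hasFDerivAt
  -- the derivative at the base point is an isomorphism
  have hinj : Function.Injective ((Th A B j).prod (fderiv ℝ G (p₀, q₀))) := by
    rw [injective_iff_map_eq_zero]
    rintro ⟨p, q⟩ h
    have h1 : Th A B j (p, q) = 0 := congrArg Prod.fst h
    have h2 : fderiv ℝ G (p₀, q₀) (p, q) = 0 := congrArg Prod.snd h
    rw [Th_apply] at h1
    have h3 : A (p - B (A p) + B (j q)) = 0 := by rw [h1, map_zero]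
    rw [map_add, map_sub, hB, hB, sub_self, zero_add] at h3
    have hq : q = 0 := by simpa using h3
    subst hq
    have h4 : A p = 0 := by
      rw [hA]
      simpa using h2
    rw [h4] at h1
    have : p = 0 := by simpa using h1
    simp [this]
  have hfin : Module.finrank ℝ (P × Q) = Module.finrank ℝ (P × V) := by
    rw [Module.finrank_prod, Module.finrank_prod, hdim]
  let D : (P × Q) ≃L[ℝ] (P × V) :=
    (LinearEquiv.ofInjectiveOfFinrankEq
      (((Th A B j).prod (fderiv ℝ G (p₀, q₀)) : (P × Q) →L[ℝ] (P × V)) :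
        (P × Q) →ₗ[ℝ] (P × V)) hinj hfin).toContinuousLinearEquiv
  have hD : HasFDerivAt Φ (D : (P × Q) →L[ℝ] (P × V)) (p₀, q₀) := by
    have h1 := hder (p₀, q₀) (hG.differentiableAt one_ne_zero)
    have h2 : (D : (P × Q) →L[ℝ] (P × V)) = (Th A B j).prod (fderiv ℝ G (p₀, q₀)) := by
      ext z <;> rfl
    rw [h2]
    exact h1
  have hΨ := hΦ.to_localInverse hD one_ne_zero
  set Ψ : P × V → P × Q := hΦ.localInverse hD one_ne_zero with hΨdef
  have hleft : ∀ᶠ z in 𝓝 (p₀, q₀), Ψ (Φ z) = z :=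
    (hΦ.hasStrictFDerivAt' hD one_ne_zero).eventually_left_inverse
  have hleft2 : ∀ᶠ z in 𝓝 (p₀, q₀), ∀ᶠ y in 𝓝 z, Ψ (Φ y) = y := eventually_eventually_nhds.2 hleft
  have hΨ2 : ∀ᶠ z in 𝓝 (p₀, q₀), DifferentiableAt ℝ Ψ (Φ z) := by
    have h1 : ∀ᶠ y in 𝓝 (Φ (p₀, q₀)), ContDiffAt ℝ 1 Ψ y :=
      hΨ.eventually (by simp)
    filter_upwards [hΦ.continuousAt.eventually h1] with z hz
    exact hz.differentiableAt one_ne_zero
  have hG2 : ∀ᶠ z in 𝓝 (p₀, q₀), DifferentiableAt ℝ G z := by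
    filter_upwards [hG.eventually (by simp)] with z hz
    exact hz.differentiableAt one_ne_zero
  have hall := hleft2.and (hΨ2.and hG2)
  rw [nhds_prod_eq] at hall
  obtain ⟨O, hO, O', hO', hsub⟩ := Filter.mem_prod_iff.1 hall
  refine ⟨O, hO, O', hO', ?_⟩
  let S : P → P := fun x => (Ψ (x, 0)).1
  have hnull : μ (S '' {x | DifferentiableAt ℝ S x ∧ (fderiv ℝ S x).det = 0}) = 0 :=
    MeasureTheory.addHaar_image_eq_zero_of_det_fderivWithin_eq_zero μ
      (fun x hx => hx.1.hasFDerivAt.hasFDerivWithinAt) (fun x hx => hx.2)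
  refine measure_mono_null ?_ hnull
  rintro p ⟨hp, q, hq, hz, hns⟩
  obtain ⟨hl, hd, hg⟩ := hsub (Set.mk_mem_prod hp hq)
  -- the value of the auxiliary map
  have hΦz : Φ (p, q) = (Th A B j (p, q), 0) := by
    simp only [Φ, hz]
  have hSp : S (Th A B j (p, q)) = p := by
    have h1 := hl.self_of_nhds
    rw [hΦz] at h1
    simp only [S, h1]
  -- a kernel vector of the partial derivative
  have hpart : fderiv ℝ (fun q => G (p, q)) q =
      (fderiv ℝ G (p, q)).comp (ContinuousLinearMap.inr ℝ P Q) := by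
    have h1 : HasFDerivAt (fun q : Q => (p, q)) (ContinuousLinearMap.inr ℝ P Q) q :=
      hasFDerivAt_prodMk_right p q
    exact (hg.hasFDerivAt.comp q h1).fderiv
  have hker : ∃ r : Q, r ≠ 0 ∧ fderiv ℝ G (p, q) (0, r) = 0 := by
    by_contra hcon
    push Not at hcon
    apply hns
    have hi : Function.Injective
        ((fderiv ℝ (fun q => G (p, q)) q : Q →L[ℝ] V) : Q →ₗ[ℝ] V) := by
      rw [injective_iff_map_eq_zero]
      intro r hr
      by_contra hr0
      apply hcon r hr0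
      have h2 : fderiv ℝ (fun q => G (p, q)) q r = 0 := hr
      rw [hpart] at h2
      simpa using h2
    exact (LinearMap.injective_iff_surjective_of_finrank_eq_finrank hdim).1 hi
  obtain ⟨r, hr0, hr⟩ := hker
  -- the derivative of `S` kills `B (j r)`
  have hSd : HasFDerivAt S (((ContinuousLinearMap.fst ℝ P Q).comp
      (fderiv ℝ Ψ (Φ (p, q)))).comp (ContinuousLinearMap.inl ℝ P V)) (Th A B j (p, q)) := by
    have h1 : HasFDerivAt (fun x : P => (x, (0 : V))) (ContinuousLinearMap.inl ℝ P V)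
        (Th A B j (p, q)) := hasFDerivAt_prodMk_left _ _
    have h2 : HasFDerivAt Ψ (fderiv ℝ Ψ (Φ (p, q))) (Th A B j (p, q), (0 : V)) := by
      rw [← hΦz]
      exact hd.hasFDerivAt
    have h4 : HasFDerivAt (fun x : P => Ψ (x, (0 : V)))
        ((fderiv ℝ Ψ (Φ (p, q))).comp (ContinuousLinearMap.inl ℝ P V)) (Th A B j (p, q)) :=
      HasFDerivAt.comp (f := fun x : P => (x, (0 : V))) (g := Ψ) (Th A B j (p, q)) h2 h1
    have h3 := (ContinuousLinearMap.fst ℝ P Q).hasFDerivAt.comp (Th A B j (p, q)) h4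
    rw [ContinuousLinearMap.comp_assoc]
    exact h3
  have hchain : (fderiv ℝ Ψ (Φ (p, q))).comp ((Th A B j).prod (fderiv ℝ G (p, q))) =
      ContinuousLinearMap.id ℝ (P × Q) := by
    have h1 : HasFDerivAt (fun y => Ψ (Φ y)) ((fderiv ℝ Ψ (Φ (p, q))).comp
        ((Th A B j).prod (fderiv ℝ G (p, q)))) (p, q) :=
      hd.hasFDerivAt.comp (p, q) (hder (p, q) hg)
    have h2 : HasFDerivAt (fun y : P × Q => y) (ContinuousLinearMap.id ℝ (P × Q)) (p, q) :=
      hasFDerivAt_id _
    have h3 : HasFDerivAt (fun y => Ψ (Φ y)) (ContinuousLinearMap.id ℝ (P × Q)) (p, q) :=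
      h2.congr_of_eventuallyEq hl
    exact h1.unique h3
  have hkey : fderiv ℝ Ψ (Φ (p, q)) (B (j r), 0) = (0, r) := by
    have h1 := congrArg (fun T : (P × Q) →L[ℝ] (P × Q) => T (0, r)) hchain
    simp only [ContinuousLinearMap.comp_apply, ContinuousLinearMap.prod_apply, Th_apply, map_zero,
      sub_zero, zero_add, hr, ContinuousLinearMap.id_apply] at h1
    exact h1
  have hne : B (j r) ≠ 0 := by
    intro h0
    have h1 : j r = 0 := by rw [← hB (j r), h0, map_zero]
    exact hr0 (by simpa using h1)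
  refine ⟨Th A B j (p, q), ⟨hSd.differentiableAt, ?_⟩, hSp⟩
  rw [hSd.fderiv]
  refine det_zero _ hne ?_
  simp only [ContinuousLinearMap.comp_apply, ContinuousLinearMap.inl_apply]
  rw [hkey]
  rfl

end Main

end PSARD

theorem t_SARD : S_SARD.{u} := by
  intro N Q V _ _ _ _ _ _ G p₀ q₀ hdim hG hs
  exact PSARD.main volume G p₀ q₀ hdim (hG.of_le (by simp)) hs

end Pool.Agent.H823.HC
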