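import Mathlib
import Pool.Agent.H823.HC.StmV

/-!
# Project HC, part SECT: the sheet through `0`
-/

open scoped Topology ContDiff Manifold
open Set Metric Filter MeasureTheory

noncomputable section

namespace Pool.Agent.H823.HC.PSECT

universe u

variable {V : Type u} [NormedAddCommGroup V] [InnerProductSpace ℝ V] [FiniteDimensional ℝ V]

/-- the projection to `T` is injective on the tangent space of `S` at `x` -/
def Inj (T : Submodule ℝ V) (S : Set V) (x : V) : Prop :=
  ∀ v ∈ tanV S x, T.orthogonalProjectionOnto v = 0 → v = 0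

/-- the range of the derivative of a section is tangent -/
theorem der_mem {T : Submodule ℝ V} {S : Set V} {f : T → V} {t₀ : T} (hf : ContDiffAt ℝ ∞ f t₀)
    (hS : ∀ᶠ t in 𝓝 t₀, f t ∈ S ∧ T.orthogonalProjectionOnto (f t) = t) (w : T) :
    fderiv ℝ f t₀ w ∈ tanV S (f t₀) ∧ T.orthogonalProjectionOnto (fderiv ℝ f t₀ w) = w := by
  have hd : HasFDerivAt f (fderiv ℝ f t₀) t₀ := (hf.differentiableAt (by simp)).hasFDerivAt
  constructor
  · have hl : HasDerivAt (fun s : ℝ => t₀ + s • w) w 0 := by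
      have := ((hasDerivAt_id (0:ℝ)).smul_const w).const_add t₀
      simpa using this
    refine ⟨fun s => f (t₀ + s • w), ?_, by simp, ?_, ?_⟩
    · have h1 : ContDiffAt ℝ ∞ (fun s : ℝ => t₀ + s • w) 0 := by fun_prop
      have h2 : ContDiffAt ℝ ∞ f (t₀ + (0:ℝ) • w) := by simpa using hf
      exact h2.comp 0 h1
    · have h1 : Tendsto (fun s : ℝ => t₀ + s • w) (𝓝 0) (𝓝 t₀) := by
        have h2 : ContinuousAt (fun s : ℝ => t₀ + s • w) 0 := hl.continuousAt
        unfold ContinuousAt at h2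
        simpa using h2
      exact (h1.eventually hS).mono fun s hs => hs.1
    · have h2 : HasFDerivAt f (fderiv ℝ f t₀) (t₀ + (0:ℝ) • w) := by simpa using hd
      exact (h2.comp_hasDerivAt 0 hl).deriv
  · have h1 : HasFDerivAt (fun t => T.orthogonalProjectionOnto (f t))
        (T.orthogonalProjectionOnto.comp (fderiv ℝ f t₀)) t₀ :=
      T.orthogonalProjectionOnto.hasFDerivAt.comp t₀ hd
    have h2 : HasFDerivAt (fun t => T.orthogonalProjectionOnto (f t))
        (ContinuousLinearMap.id ℝ T) t₀ :=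
      (hasFDerivAt_id t₀).congr_of_eventuallyEq (hS.mono fun t ht => ht.2)
    exact DFunLike.congr_fun (h1.unique h2) w

/-- the projection is injective on the tangent spaces at the points of a section -/
theorem inj_of_section (hTANV : S_TANV.{u}) {n : ℕ} {T : Submodule ℝ V} {S : Set V}
    (hT : Module.finrank ℝ T = n) {f : T → V} {t₀ : T} (hf : ContDiffAt ℝ ∞ f t₀)
    (hS : ∀ᶠ t in 𝓝 t₀, f t ∈ S ∧ T.orthogonalProjectionOnto (f t) = t)
    (hsl : SliceAt n S (f t₀)) : Inj T S (f t₀) := by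
  obtain ⟨Tx, hn, hTx⟩ := hTANV V n S (f t₀) hsl hS.self_of_nhds.1
  have hD := der_mem hf hS
  have hinj : Function.Injective (fderiv ℝ f t₀ : T →ₗ[ℝ] V) := by
    intro a b hab
    rw [← (hD a).2, ← (hD b).2]
    exact congrArg _ hab
  have hle : LinearMap.range (fderiv ℝ f t₀ : T →ₗ[ℝ] V) ≤ Tx := by
    rintro _ ⟨w, rfl⟩
    have h1 := (hD w).1
    rw [← hTx] at h1
    exact h1
  have heq : LinearMap.range (fderiv ℝ f t₀ : T →ₗ[ℝ] V) = Tx := by
    refine Submodule.eq_of_le_of_finrank_eq hle ?_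
    rw [LinearMap.finrank_range_of_inj hinj, hT, hn]
  intro v hv h0
  have h1 : v ∈ Tx := by
    rw [← hTx] at hv
    exact hv
  rw [← heq] at h1
  obtain ⟨w, rfl⟩ := h1
  have h2 : T.orthogonalProjectionOnto (fderiv ℝ f t₀ w) = 0 := h0
  rw [(hD w).2] at h2
  rw [h2]
  exact map_zero _

/-- the good points -/
def SS (T : Submodule ℝ V) (S : Set V) : Set V := {x | x ∈ S ∧ Inj T S x}

/-- the projection of the good points -/
def pr (T : Submodule ℝ V) (S : Set V) (x : SS T S) : T := T.orthogonalProjectionOnto x.1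

theorem pr_cont (T : Submodule ℝ V) (S : Set V) : Continuous (pr T S) :=
  T.orthogonalProjectionOnto.continuous.comp continuous_subtype_val

/-- the projection of the good points is a local homeomorphism -/
theorem loc_homeo (hTANV : S_TANV.{u}) (hLOC : S_LOC.{u}) {n : ℕ} {T : Submodule ℝ V} {S : Set V}
    (hT : Module.finrank ℝ T = n) (hsl : ∀ x ∈ S, SliceAt n S x) :
    IsLocalHomeomorph (pr T S) := by
  intro x
  obtain ⟨δ, hδ, δ', hδ', f, hf, hf0, hfS, hun⟩ :=
    hLOC V n S x.1 T (hsl _ x.2.1) x.2.1 hT x.2.2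
  obtain ⟨U, hU⟩ : ∃ U, U = ball (T.orthogonalProjectionOnto x.1) δ := ⟨_, rfl⟩
  have hUo : IsOpen U := by rw [hU]; exact isOpen_ball
  rw [← hU] at hf hfS hun
  have hfin : ∀ t ∈ U, f t ∈ SS T S := by
    intro t ht
    have hnb : ∀ᶠ t' in 𝓝 t, t' ∈ U := hUo.mem_nhds ht
    exact ⟨(hfS t ht).1, inj_of_section hTANV hT (hf.contDiffAt (hUo.mem_nhds ht))
      (hnb.mono hfS) (hsl _ (hfS t ht).1)⟩
  classical
  let inv : T → SS T S := fun t => if h : t ∈ U then ⟨f t, hfin t h⟩ else x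
  have hinv : ∀ t ∈ U, (inv t).1 = f t := fun t ht => by
    simp only [inv, dif_pos ht]
  have hto : IsOpen (U ∩ f ⁻¹' (ball x.1 δ')) :=
    hf.continuousOn.isOpen_inter_preimage hUo isOpen_ball
  refine ⟨{ toFun := pr T S
            invFun := inv
            source := {y | dist y.1 x.1 < δ'}
            target := U ∩ f ⁻¹' (ball x.1 δ')
            map_source' := ?_
            map_target' := ?_
            left_inv' := ?_
            right_inv' := ?_
            open_source := ?_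
            open_target := hto
            continuousOn_toFun := (pr_cont T S).continuousOn
            continuousOn_invFun := ?_ }, ?_, rfl⟩
  · intro y hy
    obtain ⟨h1, h2⟩ := hun y.1 y.2.1 hy
    refine ⟨h1, ?_⟩
    change f (T.orthogonalProjectionOnto y.1) ∈ ball x.1 δ'
    rw [h2]
    exact hy
  · intro t ht
    change dist (inv t).1 x.1 < δ'
    rw [hinv t ht.1]
    exact ht.2
  · intro y hy
    obtain ⟨h1, h2⟩ := hun y.1 y.2.1 hy
    apply Subtype.ext
    change (inv (T.orthogonalProjectionOnto y.1)).1 = y.1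
    rw [hinv _ h1]
    exact h2
  · intro t ht
    change T.orthogonalProjectionOnto (inv t).1 = t
    rw [hinv t ht.1]
    exact (hfS t ht.1).2
  · rw [Topology.IsInducing.subtypeVal.continuousOn_iff]
    exact (hf.continuousOn.mono inter_subset_left).congr fun t ht => hinv t ht.1
  · exact isOpen_lt (continuous_subtype_val.dist continuous_const) continuous_const
  · change dist x.1 x.1 < δ'
    rw [dist_self]
    exact hδ'

end Pool.Agent.H823.HC.PSECT

namespace Pool.Agent.H823.HC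

universe u

open PSECT

theorem t_SECT (hTANV : S_TANV.{u}) (hLOC : S_LOC.{u}) (hLIFT : S_LIFT.{u}) : S_SECT.{u} := by
  intro V _ _ _ r K Lam n G Om S hr hK hLam hP h0S
  have hsl := hP.S_slice
  obtain ⟨T, hT, hT0⟩ := hTANV V n S 0 (hsl 0 h0S) h0S
  obtain ⟨R, hR⟩ : ∃ R, R = Rad r K Lam := ⟨_, rfl⟩
  have hR0 : 0 < R := by
    rw [hR]
    unfold Rad
    refine lt_min (by positivity) ?_
    have : 0 < K := by linarith
    positivity
  have key : ∀ v : ball (0:T) R, ∃ γ : ℝ → V, ContinuousOn γ (Icc 0 1) ∧ γ 0 = 0 ∧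
      (v.1 = 0 → γ 1 = 0) ∧
      ∀ t ∈ Icc (0:ℝ) 1, γ t ∈ S ∧ T.orthogonalProjectionOnto (γ t) = t • v.1 ∧
      ∀ w ∈ tanV S (γ t), ‖w - T.orthogonalProjectionOnto w‖ ≤
        (1 / 4) * ‖T.orthogonalProjectionOnto w‖ := by
    intro v
    by_cases hv : v.1 = 0
    · refine ⟨fun _ => 0, continuousOn_const, rfl, fun _ => rfl, fun t _ => ⟨h0S, ?_, ?_⟩⟩
      · rw [hv, smul_zero, map_zero]
      · intro w hw
        rw [← hT0] at hw
        have h1 : (T.orthogonalProjectionOnto w : V) = w :=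
          congrArg Subtype.val (Submodule.orthogonalProjectionOnto_mem_subspace_eq_self (K := T) ⟨w, hw⟩)
        rw [h1, sub_self, norm_zero]
        positivity
    · have hv2 : ‖v.1‖ < Rad r K Lam := by
        rw [← hR]
        exact mem_ball_zero_iff.1 v.2
      obtain ⟨γ, h1, h2, h3⟩ := hLIFT V r K Lam n G Om S hr hK hLam hP h0S T hT hT0 v.1 hv2
      exact ⟨γ, h1, h2, fun h => absurd h hv, h3⟩
  choose γ hγ1 hγ2 hγ3 hγ4 using key
  have hin : ∀ (v : ball (0:T) R), ∀ t ∈ Icc (0:ℝ) 1, γ v t ∈ SS T S := by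
    intro v t ht
    refine ⟨(hγ4 v t ht).1, fun w hw h0 => ?_⟩
    have h1 := (hγ4 v t ht).2.2 w hw
    rw [h0, norm_zero, mul_zero] at h1
    have h2 : w - ((0 : T) : V) = 0 := norm_le_zero_iff.1 h1
    rwa [Submodule.coe_zero, sub_zero] at h2
  -- the lift
  let g : unitInterval × ball (0:T) R → SS T S := fun ta => ⟨γ ta.2 ta.1, hin ta.2 ta.1 ta.1.2⟩
  let f₀ : C(unitInterval × ball (0:T) R, T) :=
    ⟨fun ta => (ta.1 : ℝ) • ta.2.1, by fun_prop⟩
  have hgc : Continuous g := by
    refine (loc_homeo hTANV hLOC hT hsl).continuous_lift (T2Space.isSeparatedMap _) f₀ ?_ ?_ ?_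
    · funext ta
      exact (hγ4 ta.2 ta.1 ta.1.2).2.1
    · have h1 : (fun a : ball (0:T) R => g ⟨0, a⟩) = fun _ => ⟨0, by
          have := hin ⟨0, by simpa using hR0⟩ 0 (by simp)
          rwa [hγ2] at this⟩ := by
        funext a
        exact Subtype.ext (hγ2 a)
      rw [h1]
      exact continuous_const
    · intro a
      refine Continuous.subtype_mk ?_ _
      exact (continuousOn_iff_continuous_domRestrict.1 (hγ1 a))
  classical
  let F : T → V := fun v => if h : v ∈ ball (0:T) R then γ ⟨v, h⟩ 1 else 0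
  have hF : ∀ (v : T) (h : v ∈ ball (0:T) R), F v = γ ⟨v, h⟩ 1 := fun v h => by
    simp only [F, dif_pos h]
  have hFc : ContinuousOn F (ball 0 R) := by
    rw [continuousOn_iff_continuous_domRestrict]
    have h1 : (ball (0:T) R).domRestrict F = fun a => (g (1, a)).1 := by
      funext a
      exact hF a.1 a.2
    rw [h1]
    exact continuous_subtype_val.comp (hgc.comp (by fun_prop))
  have hFS : ∀ v ∈ ball (0:T) R, F v ∈ S ∧ T.orthogonalProjectionOnto (F v) = v := by
    intro v hv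
    rw [hF v hv]
    obtain ⟨h1, h2, -⟩ := hγ4 ⟨v, hv⟩ 1 (by simp)
    refine ⟨h1, ?_⟩
    rw [h2, one_smul]
  have hFd : ∀ v ∈ ball (0:T) R, ContDiffAt ℝ ∞ F v := by
    intro v hv
    have h1 : F v ∈ SS T S := by
      rw [hF v hv]
      exact hin ⟨v, hv⟩ 1 (by simp)
    obtain ⟨δ, hδ, δ', hδ', f, hf, hf0, hfS, hun⟩ :=
      hLOC V n S (F v) T (hsl _ h1.1) h1.1 hT h1.2
    rw [(hFS v hv).2] at hf
    have h2 : ContDiffAt ℝ ∞ f v := hf.contDiffAt (ball_mem_nhds v hδ)
    refine h2.congr_of_eventuallyEq ?_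
    have h3 : ContinuousAt F v := hFc.continuousAt (isOpen_ball.mem_nhds hv)
    have h4 : ∀ᶠ v' in 𝓝 v, dist (F v') (F v) < δ' := h3 (ball_mem_nhds (F v) hδ')
    have h5 : ∀ᶠ v' in 𝓝 v, v' ∈ ball (0:T) R := isOpen_ball.mem_nhds hv
    filter_upwards [h4, h5] with v' h6 h7
    obtain ⟨h8, h9⟩ := hFS v' h7
    have h10 := (hun (F v') h8 h6).2
    rw [h9] at h10
    exact h10.symm
  refine ⟨T, F, hT, hT0, ?_, ?_, ?_, ?_⟩
  · rw [← hR]
    exact fun v hv => (hFd v hv).contDiffWithinAt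
  · have h0 : (0:T) ∈ ball (0:T) R := by simpa using hR0
    rw [hF 0 h0]
    exact hγ3 ⟨0, h0⟩ rfl
  · rw [← hR]
    exact hFS
  · rw [← hR]
    intro t ht w
    have hev : ∀ᶠ t' in 𝓝 t, F t' ∈ S ∧ T.orthogonalProjectionOnto (F t') = t' := by
      have h5 : ∀ᶠ v' in 𝓝 t, v' ∈ ball (0:T) R := isOpen_ball.mem_nhds ht
      exact h5.mono hFS
    obtain ⟨h1, h2⟩ := der_mem (hFd t ht) hev w
    rw [hF t ht] at h1
    have h3 := (hγ4 ⟨t, ht⟩ 1 (by simp)).2.2 _ h1
    rw [h2] at h3
    exact h3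

end Pool.Agent.H823.HC
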