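import Mathlib
import Pool.Agent.H823.HC.StmHP

/-!
# Project HC, part SELECT (helper71)
-/

open scoped Topology ContDiff Manifold ENNReal
open Set Metric Filter MeasureTheory

noncomputable section

namespace Pool.Agent.H823.HC

namespace PSELECT

theorem measurableSet_Dom : MeasurableSet Dom := by
  have h1 : MeasurableSet {z : ℂ | 0 < z.im} :=
    (isOpen_lt continuous_const Complex.continuous_im).measurableSet
  have h2 : MeasurableSet {z : ℂ | z.im = 0} :=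
    (isClosed_eq Complex.continuous_im continuous_const).measurableSet
  have h3 : MeasurableSet {z : ℂ | z.re < 0} :=
    (isOpen_lt Complex.continuous_re continuous_const).measurableSet
  exact h1.union (h2.inter h3)

theorem null_real : volume {z : ℂ | z.im = 0} = 0 := by
  have h : LinearMap.ker Complex.imLm ≠ ⊤ := by
    intro h
    have h1 : Complex.I ∈ LinearMap.ker Complex.imLm := by rw [h]; trivial
    rw [LinearMap.mem_ker, Complex.imLm_coe, Complex.I_im] at h1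
    exact one_ne_zero h1
  exact Measure.addHaar_submodule (volume : Measure ℂ) (LinearMap.ker Complex.imLm) h

theorem Dom_ae : (Dom : Set ℂ) =ᵐ[volume] UH := by
  have h : Dom = UH ∪ {z | z.im = 0 ∧ z.re < 0} := rfl
  rw [h]
  apply union_ae_eq_left_of_ae_eq_empty
  rw [ae_eq_empty]
  exact measure_mono_null (fun z hz => hz.1) null_real

/-- the conformal factor as a measurable function -/
def psi (φ : ℂ → ℝ) (z : ℂ) : ℝ≥0∞ := ENNReal.ofReal (Dom.indicator φ z)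

theorem measurable_psi {φ : ℂ → ℝ} (hφ : ContinuousOn φ Dom) : Measurable (psi φ) := by
  classical
  have h : Measurable (Dom.indicator φ) := by
    rw [← piecewise_eq_indicator]
    exact hφ.measurable_piecewise continuousOn_const measurableSet_Dom
  exact h.ennreal_ofReal

theorem psi_eq {φ : ℂ → ℝ} {z : ℂ} (hz : z ∈ Dom) : psi φ z = ENNReal.ofReal (φ z) := by
  unfold psi
  rw [indicator_of_mem hz]

theorem lint_psi {φ : ℂ → ℝ} {E : ℝ} (h0 : ∀ z, 0 ≤ φ z)
    (hi : IntegrableOn (fun z => φ z ^ 2) UH) (hE : ∫ z in UH, φ z ^ 2 ≤ E) :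
    ∫⁻ z, psi φ z ^ 2 ≤ ENNReal.ofReal E := by
  have h1 : (fun z => psi φ z ^ 2) = Dom.indicator (fun z => ENNReal.ofReal (φ z ^ 2)) := by
    funext z
    by_cases hz : z ∈ Dom
    · rw [psi_eq hz, indicator_of_mem hz, ENNReal.ofReal_pow (h0 z)]
    · unfold psi
      rw [indicator_of_notMem hz, indicator_of_notMem hz]
      simp
  rw [h1, lintegral_indicator measurableSet_Dom, setLIntegral_congr Dom_ae,
    ← ofReal_integral_eq_lintegral_ofReal hi (ae_of_all _ fun z => sq_nonneg (φ z))]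
  exact ENNReal.ofReal_le_ofReal hE

theorem continuous_ray (c : ℂ) : Continuous (fun p : ℝ × ℝ => c + p.1 * circ p.2) := by
  unfold circ
  fun_prop

/-- an interval integral over a rectangle, for a nonnegative function given on the rectangle by a
continuous function -/
theorem rect_eq {h : ℝ → ℝ → ℝ} {a b α β : ℝ} (hab : a ≤ b) (hαβ : α ≤ β)
    (hc : ContinuousOn (Function.uncurry h) (Icc a b ×ˢ Icc α β)) (h0 : ∀ t θ, 0 ≤ t → 0 ≤ h t θ)
    (ha : 0 ≤ a) :
    ENNReal.ofReal (∫ t in a..b, ∫ θ in α..β, h t θ) =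
      ∫⁻ t in Ioc a b, ∫⁻ θ in Ioc α β, ENNReal.ofReal (h t θ) := by
  have hi : IntegrableOn (Function.uncurry h) (Ioc a b ×ˢ Ioc α β) (volume.prod volume) := by
    have h1 : IntegrableOn (Function.uncurry h) (Icc a b ×ˢ Icc α β) (volume.prod volume) :=
      hc.integrableOn_compact (isCompact_Icc.prod isCompact_Icc)
    exact h1.mono_set (prod_mono Ioc_subset_Icc_self Ioc_subset_Icc_self)
  unfold IntegrableOn at hi
  rw [← Measure.prod_restrict] at hi
  have h2 : (∫ t in a..b, ∫ θ in α..β, h t θ) =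
      ∫ p, Function.uncurry h p ∂((volume.restrict (Ioc a b)).prod (volume.restrict (Ioc α β))) := by
    rw [integral_prod _ hi, intervalIntegral.integral_of_le hab]
    refine integral_congr_ae (ae_of_all _ fun t => ?_)
    exact intervalIntegral.integral_of_le hαβ
  have h3 : 0 ≤ᵐ[(volume.restrict (Ioc a b)).prod (volume.restrict (Ioc α β))]
      Function.uncurry h := by
    rw [Measure.prod_restrict]
    filter_upwards [ae_restrict_mem (measurableSet_Ioc.prod measurableSet_Ioc)] with p hp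
    exact h0 p.1 p.2 (ha.trans hp.1.1.le)
  rw [h2, ofReal_integral_eq_lintegral_ofReal hi h3,
    lintegral_prod _ hi.aestronglyMeasurable.aemeasurable.ennreal_ofReal]
  rfl

theorem aux1 {a b : ℝ} (ha : 1 ≤ a) (hb : 0 ≤ b) :
    4 * Real.pi * (a * b) + 3 * b ≤ 5 * Real.pi * (a * b) := by
  have h1 : 3 ≤ Real.pi * a := by
    have := Real.pi_gt_three
    nlinarith
  have h2 : 3 * b ≤ (Real.pi * a) * b := mul_le_mul_of_nonneg_right h1 hb
  linarith

theorem aux2 {a b d : ℝ} (ha : 0 ≤ a) (hb : 0 ≤ b) (hd : Real.pi / 4 ≤ d) :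
    5 * Real.pi * (a * b) ≤ 20 * a * b * d := by
  have h := mul_le_mul_of_nonneg_left hd (mul_nonneg (mul_nonneg (by norm_num : (0:ℝ) ≤ 20) ha) hb)
  linarith

/-- Cauchy-Schwarz for the outer part -/
theorem outer {Ψ : ℝ → ℝ → ℝ≥0∞} (hΨ : Measurable (Function.uncurry Ψ)) {T θ₁ θ₂ E : ℝ}
    (hT : 0 < T) (hle : θ₂ - θ₁ ≤ 2 * Real.pi)
    (hE : ∫⁻ t in Ioc T (4 * T), ∫⁻ θ in Ioc θ₁ θ₂, Ψ t θ ^ 2 * ENNReal.ofReal t ≤
      ENNReal.ofReal E) :
    ∫⁻ θ in Ioc θ₁ θ₂, ∫⁻ t in Ioc T (4 * T), Ψ t θ ≤ ENNReal.ofReal (3 * √E) := by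
  let μ : Measure (ℝ × ℝ) :=
    (volume.restrict (Ioc T (4 * T))).prod (volume.restrict (Ioc θ₁ θ₂))
  let f : ℝ × ℝ → ℝ≥0∞ := fun p => Ψ p.1 p.2 * ENNReal.ofReal (√p.1)
  let g : ℝ × ℝ → ℝ≥0∞ := fun p => ENNReal.ofReal (√p.1)⁻¹
  have hf : Measurable f := hΨ.mul (measurable_fst.sqrt.ennreal_ofReal)
  have hg : Measurable g := measurable_fst.sqrt.inv.ennreal_ofReal
  have hmem : ∀ᵐ p ∂μ, p.1 ∈ Ioc T (4 * T) := by
    have h : μ = (volume.prod volume).restrict (Ioc T (4 * T) ×ˢ Ioc θ₁ θ₂) :=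
      Measure.prod_restrict _ _
    rw [h]
    filter_upwards [ae_restrict_mem (measurableSet_Ioc.prod measurableSet_Ioc)] with p hp
    exact hp.1
  have h1 : ∫⁻ θ in Ioc θ₁ θ₂, ∫⁻ t in Ioc T (4 * T), Ψ t θ = ∫⁻ p, (f * g) p ∂μ := by
    rw [← lintegral_lintegral_swap hΨ.aemeasurable, lintegral_lintegral hΨ.aemeasurable]
    refine lintegral_congr_ae ?_
    filter_upwards [hmem] with p hp
    have hp0 : 0 < p.1 := hT.trans hp.1
    show Ψ p.1 p.2 = Ψ p.1 p.2 * ENNReal.ofReal (√p.1) * ENNReal.ofReal (√p.1)⁻¹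
    rw [mul_assoc, ← ENNReal.ofReal_mul (Real.sqrt_nonneg _),
      mul_inv_cancel₀ (Real.sqrt_pos.2 hp0).ne', ENNReal.ofReal_one, mul_one]
  have h2 : ∫⁻ p, f p ^ (2:ℝ) ∂μ ≤ ENNReal.ofReal E := by
    refine le_trans (le_of_eq ?_) hE
    have hm : Measurable (fun p : ℝ × ℝ => Ψ p.1 p.2 ^ 2 * ENNReal.ofReal p.1) :=
      (hΨ.pow_const 2).mul measurable_fst.ennreal_ofReal
    rw [lintegral_lintegral (f := fun t θ => Ψ t θ ^ 2 * ENNReal.ofReal t) hm.aemeasurable]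
    refine lintegral_congr_ae ?_
    filter_upwards [hmem] with p hp
    have hp0 : 0 < p.1 := hT.trans hp.1
    show (Ψ p.1 p.2 * ENNReal.ofReal (√p.1)) ^ (2:ℝ) = Ψ p.1 p.2 ^ 2 * ENNReal.ofReal p.1
    rw [ENNReal.rpow_two, mul_pow, ← ENNReal.ofReal_pow (Real.sqrt_nonneg _), Real.sq_sqrt hp0.le]
  have h3 : ∫⁻ p, g p ^ (2:ℝ) ∂μ ≤ ENNReal.ofReal 9 := by
    have hm : Measurable (fun t : ℝ => ENNReal.ofReal (t⁻¹)) := measurable_inv.ennreal_ofReal
    have e1 : ∫⁻ p, g p ^ (2:ℝ) ∂μ = ∫⁻ t in Ioc T (4 * T), ∫⁻ _ in Ioc θ₁ θ₂,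
        ENNReal.ofReal (t⁻¹) := by
      rw [lintegral_lintegral (f := fun t (_ : ℝ) => ENNReal.ofReal (t⁻¹))
        (hm.comp measurable_fst).aemeasurable]
      refine lintegral_congr_ae ?_
      filter_upwards [hmem] with p hp
      have hp0 : 0 < p.1 := hT.trans hp.1
      show (ENNReal.ofReal (√p.1)⁻¹) ^ (2:ℝ) = ENNReal.ofReal (p.1⁻¹)
      rw [ENNReal.rpow_two, ← ENNReal.ofReal_pow (by positivity), inv_pow, Real.sq_sqrt hp0.le]
    have e2 : ∫⁻ t in Ioc T (4 * T), ENNReal.ofReal (t⁻¹) = ENNReal.ofReal (Real.log 4) := by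
      have hi : IntegrableOn (fun t : ℝ => t⁻¹) (Ioc T (4 * T)) := by
        refine (ContinuousOn.integrableOn_compact isCompact_Icc ?_).mono_set Ioc_subset_Icc_self
        exact continuousOn_inv₀.mono fun t ht => (hT.trans_le ht.1).ne'
      have h0 : 0 ≤ᵐ[volume.restrict (Ioc T (4 * T))] fun t : ℝ => t⁻¹ := by
        filter_upwards [ae_restrict_mem measurableSet_Ioc] with t ht
        exact inv_nonneg.2 (hT.trans ht.1).le
      rw [← ofReal_integral_eq_lintegral_ofReal hi h0,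
        ← intervalIntegral.integral_of_le (by linarith), integral_inv_of_pos hT (by linarith)]
      congr 2
      field_simp
    rw [e1]
    simp only [lintegral_const, Measure.restrict_apply_univ, Real.volume_Ioc]
    rw [lintegral_mul_const _ hm, e2, ← ENNReal.ofReal_mul (Real.log_nonneg (by norm_num))]
    apply ENNReal.ofReal_le_ofReal
    have h4 : Real.log 4 = 2 * Real.log 2 := by
      rw [show (4:ℝ) = 2 ^ 2 by norm_num, Real.log_pow]
      norm_num
    have h5 := Real.log_two_lt_d9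
    have h6 := Real.log_two_gt_d9
    have h7 := Real.pi_lt_d2
    rw [h4]
    calc 2 * Real.log 2 * (θ₂ - θ₁) ≤ 2 * Real.log 2 * (2 * Real.pi) :=
          mul_le_mul_of_nonneg_left hle (by linarith)
      _ ≤ 9 := by nlinarith [Real.pi_pos]
  rw [h1]
  refine (ENNReal.lintegral_mul_le_Lp_mul_Lq μ Real.HolderConjugate.two_two hf.aemeasurable
    hg.aemeasurable).trans ?_
  have e3 : (ENNReal.ofReal E) ^ (1 / 2 : ℝ) ≤ ENNReal.ofReal (√E) := by
    rcases le_total 0 E with h | h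
    · rw [ENNReal.ofReal_rpow_of_nonneg h (by norm_num), ← Real.sqrt_eq_rpow]
    · rw [ENNReal.ofReal_of_nonpos h, ENNReal.zero_rpow_of_pos (by norm_num)]
      exact zero_le
  have e4 : (ENNReal.ofReal 9) ^ (1 / 2 : ℝ) = ENNReal.ofReal 3 := by
    rw [ENNReal.ofReal_rpow_of_nonneg (by norm_num) (by norm_num), ← Real.sqrt_eq_rpow]
    congr 1
    rw [show (9:ℝ) = 3 ^ 2 by norm_num, Real.sqrt_sq (by norm_num)]
  calc (∫⁻ p, f p ^ (2:ℝ) ∂μ) ^ (1 / 2 : ℝ) * (∫⁻ p, g p ^ (2:ℝ) ∂μ) ^ (1 / 2 : ℝ)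
      ≤ (ENNReal.ofReal E) ^ (1 / 2 : ℝ) * (ENNReal.ofReal 9) ^ (1 / 2 : ℝ) := by gcongr
    _ ≤ ENNReal.ofReal (√E) * ENNReal.ofReal 3 := by
        rw [e4]
        gcongr
    _ = ENNReal.ofReal (3 * √E) := by
        rw [← ENNReal.ofReal_mul (Real.sqrt_nonneg _), mul_comm]

end PSELECT

open PSELECT in
theorem t_SELECT (hPOLAR : S_POLAR) (hRAY : S_RAY) : S_SELECT := by
  intro φ C₁ E hC hφ h0 hi hE c α Θ T θ₁ θ₂ D hT hΘ hΘ2 hα hθ₂ h12 hsec hiso hD hDD
  have hE0 : 0 ≤ E := le_trans (integral_nonneg fun z => sq_nonneg (φ z)) hE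
  have hpi := Real.pi_gt_three
  have hθ : θ₁ < θ₂ := by linarith
  have hcirc := continuous_ray c
  have hψm := measurable_psi hφ
  have hΨm : Measurable (fun p : ℝ × ℝ => psi φ (c + p.1 * circ p.2)) :=
    hψm.comp hcirc.measurable
  -- the energy in polar coordinates
  have hpol : ∫⁻ t in Ioi (0:ℝ), ∫⁻ θ in Ioc α (α + 2 * Real.pi),
      psi φ (c + t * circ θ) ^ 2 * ENNReal.ofReal t ≤ ENNReal.ofReal E := by
    have h := hPOLAR (fun z => psi φ z ^ 2) (hψm.pow_const 2) c α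
    rw [← h]
    exact lint_psi h0 hi hE
  -- the inner part
  have hQc : ContinuousOn (Function.uncurry fun (t θ : ℝ) => φ (c + t * circ θ))
      (Icc 0 T ×ˢ Icc α (α + Θ)) :=
    hφ.comp hcirc.continuousOn fun p hp => hsec p.1 hp.1 p.2 hp.2
  have hQ2c : ContinuousOn (Function.uncurry fun (t θ : ℝ) => φ (c + t * circ θ) ^ 2 * t)
      (Icc 0 T ×ˢ Icc α (α + Θ)) :=
    (hQc.pow 2).mul continuous_fst.continuousOn
  have hinE : ∫ s in (0:ℝ)..T, ∫ θ in α..(α + Θ), φ (c + s * circ θ) ^ 2 * s ≤ E := by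
    rw [← ENNReal.ofReal_le_ofReal_iff hE0, rect_eq hT.le (by linarith) hQ2c
      (fun t θ ht => mul_nonneg (sq_nonneg _) ht) le_rfl]
    refine le_trans ?_ hpol
    calc ∫⁻ t in Ioc 0 T, ∫⁻ θ in Ioc α (α + Θ), ENNReal.ofReal (φ (c + t * circ θ) ^ 2 * t)
        ≤ ∫⁻ t in Ioc 0 T, ∫⁻ θ in Ioc α (α + 2 * Real.pi),
          psi φ (c + t * circ θ) ^ 2 * ENNReal.ofReal t := by
          refine setLIntegral_mono' measurableSet_Ioc fun t ht => ?_
          refine le_trans (le_of_eq ?_) (lintegral_mono_set (Ioc_subset_Ioc_right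
            (by linarith : α + Θ ≤ α + 2 * Real.pi)))
          refine setLIntegral_congr_fun measurableSet_Ioc fun θ hθ => ?_
          rw [psi_eq (hsec t ⟨ht.1.le, ht.2⟩ θ ⟨hθ.1.le, hθ.2⟩),
            ENNReal.ofReal_mul (sq_nonneg _), ENNReal.ofReal_pow (h0 _)]
      _ ≤ _ := lintegral_mono_set Ioc_subset_Ioi_self
  have hin : ∫ t in (0:ℝ)..T, ∫ θ in α..(α + Θ), φ (c + t * circ θ) ≤
      4 * Real.pi * (√C₁ * √E) := by
    have h := hRAY (fun (t θ : ℝ) => φ (c + t * circ θ)) C₁ T α Θ (by linarith) hT hΘ hQc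
      (fun t θ => h0 _) hiso
    refine h.trans ?_
    rw [← Real.sqrt_mul (by linarith : 0 ≤ C₁)]
    have h1 : √(C₁ * ∫ s in (0:ℝ)..T, ∫ θ in α..(α + Θ), φ (c + s * circ θ) ^ 2 * s) ≤
        √(C₁ * E) := Real.sqrt_le_sqrt (mul_le_mul_of_nonneg_left hinE (by linarith))
    have h2 : 0 ≤ √(C₁ * E) := Real.sqrt_nonneg _
    calc 2 * Θ * √(C₁ * ∫ s in (0:ℝ)..T, ∫ θ in α..(α + Θ), φ (c + s * circ θ) ^ 2 * s)
        ≤ 2 * Θ * √(C₁ * E) := mul_le_mul_of_nonneg_left h1 (by linarith)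
      _ ≤ 4 * Real.pi * √(C₁ * E) := mul_le_mul_of_nonneg_right (by linarith) h2
  have hin' : ∫⁻ θ in Ioc θ₁ θ₂, ∫⁻ t in Ioc 0 T, psi φ (c + t * circ θ) ≤
      ENNReal.ofReal (4 * Real.pi * (√C₁ * √E)) := by
    refine le_trans ?_ (ENNReal.ofReal_le_ofReal hin)
    rw [rect_eq hT.le (by linarith) hQc (fun t θ _ => h0 _) le_rfl,
      ← lintegral_lintegral_swap hΨm.aemeasurable]
    refine setLIntegral_mono' measurableSet_Ioc fun t ht => ?_
    refine le_trans (lintegral_mono_set (Ioc_subset_Ioc hα hθ₂)) (le_of_eq ?_)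
    refine setLIntegral_congr_fun measurableSet_Ioc fun θ hθ => ?_
    rw [psi_eq (hsec t ⟨ht.1.le, ht.2⟩ θ ⟨hθ.1.le, hθ.2⟩)]
  -- the outer part
  have hout : ∫⁻ θ in Ioc θ₁ θ₂, ∫⁻ t in Ioc T (4 * T), psi φ (c + t * circ θ) ≤
      ENNReal.ofReal (3 * √E) := by
    refine outer (Ψ := fun t θ => psi φ (c + t * circ θ)) hΨm hT (by linarith) ?_
    refine le_trans ?_ hpol
    calc ∫⁻ t in Ioc T (4 * T), ∫⁻ θ in Ioc θ₁ θ₂, psi φ (c + t * circ θ) ^ 2 * ENNReal.ofReal t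
        ≤ ∫⁻ t in Ioc T (4 * T), ∫⁻ θ in Ioc α (α + 2 * Real.pi),
          psi φ (c + t * circ θ) ^ 2 * ENNReal.ofReal t :=
          lintegral_mono fun t => lintegral_mono_set (Ioc_subset_Ioc hα (by linarith))
      _ ≤ _ := lintegral_mono_set fun t ht => lt_trans hT ht.1
  -- the choice of the direction
  let G : ℝ → ℝ≥0∞ := fun θ => (∫⁻ t in Ioc 0 T, psi φ (c + t * circ θ)) +
    ∫⁻ t in Ioc T (4 * T), psi φ (c + t * circ θ)
  have hswap : Measurable (fun p : ℝ × ℝ => psi φ (c + p.2 * circ p.1)) :=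
    hψm.comp (hcirc.comp continuous_swap).measurable
  have hG1 : Measurable (fun θ : ℝ => ∫⁻ t in Ioc 0 T, psi φ (c + t * circ θ)) :=
    Measurable.lintegral_prod_right' (f := fun p : ℝ × ℝ => psi φ (c + p.2 * circ p.1)) hswap
  have hG2 : Measurable (fun θ : ℝ => ∫⁻ t in Ioc T (4 * T), psi φ (c + t * circ θ)) :=
    Measurable.lintegral_prod_right' (f := fun p : ℝ × ℝ => psi φ (c + p.2 * circ p.1)) hswap
  have hvol : volume (Ioc θ₁ θ₂) = ENNReal.ofReal (θ₂ - θ₁) := Real.volume_Ioc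
  have hvol0 : volume (Ioc θ₁ θ₂) ≠ 0 := by
    rw [hvol]
    exact (ENNReal.ofReal_pos.2 (by linarith)).ne'
  have hvol1 : volume (Ioc θ₁ θ₂) ≠ ⊤ := by
    rw [hvol]
    exact ENNReal.ofReal_ne_top
  obtain ⟨θ, hθm, hGθ⟩ := exists_le_setLAverage hvol0 hvol1 (hG1.add hG2).aemeasurable
  have hsum : ∫⁻ θ in Ioc θ₁ θ₂, G θ ≤ ENNReal.ofReal (5 * Real.pi * (√C₁ * √E)) := by
    have h1 : ∫⁻ θ in Ioc θ₁ θ₂, G θ = (∫⁻ θ in Ioc θ₁ θ₂, ∫⁻ t in Ioc 0 T, psi φ (c + t * circ θ)) +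
        ∫⁻ θ in Ioc θ₁ θ₂, ∫⁻ t in Ioc T (4 * T), psi φ (c + t * circ θ) :=
      lintegral_add_left hG1 _
    rw [h1]
    refine (add_le_add hin' hout).trans ?_
    rw [← ENNReal.ofReal_add (by positivity) (by positivity)]
    apply ENNReal.ofReal_le_ofReal
    exact aux1 (Real.one_le_sqrt.2 hC) (Real.sqrt_nonneg _)
  have hGle : G θ ≤ ENNReal.ofReal (20 * √C₁ * √E) := by
    refine hGθ.trans ?_
    rw [setLAverage_eq, hvol]
    refine (ENNReal.div_le_div_right hsum _).trans ?_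
    rw [← ENNReal.ofReal_div_of_pos (by linarith)]
    apply ENNReal.ofReal_le_ofReal
    rw [div_le_iff₀ (by linarith)]
    exact aux2 (Real.sqrt_nonneg _) (Real.sqrt_nonneg _) h12
  refine ⟨θ, ⟨hθm.1.le, hθm.2⟩, ?_⟩
  have hθα : θ ∈ Icc α (α + Θ) := ⟨by linarith [hθm.1], by linarith [hθm.2]⟩
  have hray : Continuous (fun t : ℝ => c + t * circ θ) := by fun_prop
  have e1 : ∫ t in (0:ℝ)..T, φ (c + t * circ θ) =
      (∫⁻ t in Ioc 0 T, psi φ (c + t * circ θ)).toReal := by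
    rw [intervalIntegral.integral_of_le hT.le, integral_eq_lintegral_of_nonneg_ae
      (ae_of_all _ fun t => h0 _)]
    · congr 1
      refine setLIntegral_congr_fun measurableSet_Ioc fun t ht => ?_
      rw [psi_eq (hsec t ⟨ht.1.le, ht.2⟩ θ hθα)]
    · refine ContinuousOn.aestronglyMeasurable ?_ measurableSet_Ioc
      exact hφ.comp hray.continuousOn fun t ht => hsec t ⟨ht.1.le, ht.2⟩ θ hθα
  have hne : G θ ≠ ⊤ := ne_top_of_le_ne_top ENNReal.ofReal_ne_top hGle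
  have hne1 : ∫⁻ t in Ioc 0 T, psi φ (c + t * circ θ) ≠ ⊤ := (ENNReal.add_ne_top.1 hne).1
  have hne2 : ∫⁻ t in Ioc T (4 * T), psi φ (c + t * circ θ) ≠ ⊤ := (ENNReal.add_ne_top.1 hne).2
  have e2 : ∫ t in T..(4 * T), D.indicator φ (c + t * circ θ) ≤
      (∫⁻ t in Ioc T (4 * T), psi φ (c + t * circ θ)).toReal := by
    have hDm : Measurable (D.indicator φ) := by
      classical
      rw [← piecewise_eq_indicator]
      exact (hφ.mono hDD).measurable_piecewise continuousOn_const hD.measurableSet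
    rw [intervalIntegral.integral_of_le (by linarith), integral_eq_lintegral_of_nonneg_ae
      (ae_of_all _ fun t => indicator_nonneg (fun z _ => h0 z) _)
      (hDm.comp hray.measurable).aestronglyMeasurable]
    refine ENNReal.toReal_mono hne2 (lintegral_mono fun t => ENNReal.ofReal_le_ofReal ?_)
    exact indicator_le_indicator_of_subset hDD h0 _
  calc (∫ t in (0:ℝ)..T, φ (c + t * circ θ)) + (∫ t in T..(4 * T), D.indicator φ (c + t * circ θ))
      ≤ (∫⁻ t in Ioc 0 T, psi φ (c + t * circ θ)).toReal +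
        (∫⁻ t in Ioc T (4 * T), psi φ (c + t * circ θ)).toReal := by
        rw [e1]
        exact add_le_add le_rfl e2
    _ = (G θ).toReal := (ENNReal.toReal_add hne1 hne2).symm
    _ ≤ 20 * √C₁ * √E := ENNReal.toReal_le_of_le_ofReal (by positivity) hGle

end Pool.Agent.H823.HC
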