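import Mathlib
import Pool.Agent.H823.HC.StmM

/-!
# Compactly supported functions whose differentials span (subtask HC-SPAN)
-/

open scoped Topology ContDiff Manifold
open Set Metric Filter MeasureTheory

noncomputable section

universe u v w

namespace Pool.Agent.H823.HC

namespace PSPAN

variable {V : Type u} [NormedAddCommGroup V] [InnerProductSpace ℝ V] [FiniteDimensional ℝ V]
  {M : Type v} [MetricSpace M] [ChartedSpace V M] [IsManifold 𝓘(ℝ, V) ∞ M]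

/-- The map `χ * e`, where `e` is the preferred chart at `p` and `χ` a bump function. -/
def loc {p : M} (f : SmoothBumpFunction 𝓘(ℝ, V) p) (x : M) : V :=
  f x • extChartAt 𝓘(ℝ, V) p x

theorem loc_contMDiff {p : M} (f : SmoothBumpFunction 𝓘(ℝ, V) p) :
    ContMDiff 𝓘(ℝ, V) 𝓘(ℝ, V) ∞ (loc f) :=
  f.contMDiff_smul contMDiffOn_extChartAt

/-- The component functions of `loc`. -/
def comp {p : M} (f : SmoothBumpFunction 𝓘(ℝ, V) p) (v : V) (x : M) : ℝ :=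
  innerSL ℝ v (loc f x)

theorem comp_contMDiff {p : M} (f : SmoothBumpFunction 𝓘(ℝ, V) p) (v : V) :
    ContMDiff 𝓘(ℝ, V) 𝓘(ℝ, ℝ) ∞ (comp f v) :=
  (innerSL ℝ v).contMDiff.comp (loc_contMDiff f)

omit [IsManifold 𝓘(ℝ, V) ∞ M] in
theorem comp_zero {p : M} (f : SmoothBumpFunction 𝓘(ℝ, V) p) (v : V) {x : M}
    (hx : x ∉ tsupport f) : comp f v x = 0 := by
  have h1 : f x = 0 := image_eq_zero_of_notMem_tsupport hx
  simp [comp, loc, h1]

theorem comp_mfderiv {p : M} (f : SmoothBumpFunction 𝓘(ℝ, V) p) (v : V) (x : M)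
    (w : TangentSpace 𝓘(ℝ, V) x) :
    mfderiv 𝓘(ℝ, V) 𝓘(ℝ, ℝ) (comp f v) x w =
      inner ℝ v (show V from mfderiv 𝓘(ℝ, V) 𝓘(ℝ, V) (loc f) x w) := by
  have h1 : MDifferentiableAt 𝓘(ℝ, V) 𝓘(ℝ, V) (loc f) x :=
    (loc_contMDiff f).mdifferentiableAt (by simp)
  have h2 := (innerSL ℝ v : V →L[ℝ] ℝ).hasMFDerivAt (x := loc f x)
  have h3 := h2.comp x h1.hasMFDerivAt
  have h4 : mfderiv 𝓘(ℝ, V) 𝓘(ℝ, ℝ) (comp f v) x = _ := h3.mfderiv
  rw [h4]
  rfl

/-- At the points near which the bump function is one, the differentials of the components of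
`loc f` span. -/
theorem span {ι : Type*} [Fintype ι] (b : OrthonormalBasis ι ℝ V) {p : M}
    (f : SmoothBumpFunction 𝓘(ℝ, V) p) (x : M) (hx : x ∈ (chartAt V p).source)
    (hf : f =ᶠ[𝓝 x] 1) (w : TangentSpace 𝓘(ℝ, V) x)
    (hw : ∀ i, mfderiv 𝓘(ℝ, V) 𝓘(ℝ, ℝ) (comp f (b i)) x w = 0) : w = 0 := by
  have h1 : (show V from mfderiv 𝓘(ℝ, V) 𝓘(ℝ, V) (loc f) x w) = 0 := by
    have h2 := b.sum_repr' (show V from mfderiv 𝓘(ℝ, V) 𝓘(ℝ, V) (loc f) x w)
    rw [← h2]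
    refine Finset.sum_eq_zero fun i _ => ?_
    have h3 : inner ℝ (b i) (show V from mfderiv 𝓘(ℝ, V) 𝓘(ℝ, V) (loc f) x w) = (0 : ℝ) :=
      (comp_mfderiv f (b i) x w).symm.trans (hw i)
    exact (congrArg (fun c : ℝ => c • b i) h3).trans (zero_smul ℝ (b i))
  have h3 : loc f =ᶠ[𝓝 x] extChartAt 𝓘(ℝ, V) p := by
    filter_upwards [hf] with y hy
    simp [loc, hy]
  have h4 : mfderiv 𝓘(ℝ, V) 𝓘(ℝ, V) (loc f) x =
      mfderiv 𝓘(ℝ, V) 𝓘(ℝ, V) (extChartAt 𝓘(ℝ, V) p) x := by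
    rw [h3.mfderiv_eq]
  have hinv := isInvertible_mfderiv_extChartAt (I := 𝓘(ℝ, V)) (x := p) (y := x)
    (by simpa using hx)
  have h5 : mfderiv 𝓘(ℝ, V) 𝓘(ℝ, V) (extChartAt 𝓘(ℝ, V) p) x w = 0 := by
    rw [← h4]
    exact h1
  exact hinv.injective (by rw [h5, map_zero])

end PSPAN

open PSPAN in
theorem t_SPAN : S_SPAN.{u, v} := by
  intro V _ _ _ M _ _ _ F hF
  classical
  let f : (p : M) → SmoothBumpFunction 𝓘(ℝ, V) p := fun p => Classical.arbitrary _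
  let b := stdOrthonormalBasis ℝ V
  have hU : ∀ p ∈ F, {x | x ∈ (chartAt V p).source ∧ f p =ᶠ[𝓝 x] 1} ∈ 𝓝 p := fun p _ =>
    inter_mem ((chartAt V p).open_source.mem_nhds (mem_chart_source V p))
      (eventually_eventually_nhds.2 (f p).eventuallyEq_one)
  obtain ⟨t, -, ht⟩ := hF.elim_nhds_subcover _ hU
  let e := Fintype.equivFin (t × Fin (Module.finrank ℝ V))
  refine ⟨Fintype.card (t × Fin (Module.finrank ℝ V)),
    fun j => comp (f ((e.symm j).1 : M)) (b (e.symm j).2), fun j => comp_contMDiff _ _,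
    ⟨⋃ p ∈ t, tsupport (f p), t.isCompact_biUnion fun p _ => (f p).hasCompactSupport, ?_⟩, ?_⟩
  · intro j x hx
    apply comp_zero
    intro h
    exact hx (mem_biUnion (e.symm j).1.2 h)
  · intro x hx w hw
    obtain ⟨p, hp, hxp⟩ := mem_iUnion₂.1 (ht hx)
    refine span b (f p) x hxp.1 hxp.2 w fun i => ?_
    have h1 := hw (e (⟨p, hp⟩, i))
    have h2 : comp (f ((e.symm (e (⟨p, hp⟩, i))).1 : M)) (b (e.symm (e (⟨p, hp⟩, i))).2) =
        comp (f p) (b i) := by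
      rw [Equiv.symm_apply_apply]
    rw [← h2]
    exact h1

end Pool.Agent.H823.HC
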