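import Mathlib
import Pool.Agent.H823.HC.StmV

/-!
# TANV: the tangent vectors of a slice set form a linear subspace
-/

open scoped Topology ContDiff Manifold
open Set Metric Filter MeasureTheory

noncomputable section

namespace Pool.Agent.H823.HC

universe u v w

namespace PTANV

theorem deriv_mem {V : Type u} [NormedAddCommGroup V] [InnerProductSpace ℝ V]
    [FiniteDimensional ℝ V] (W : Submodule ℝ V) (g : ℝ → V) (v : V) (hg : HasDerivAt g v 0)
    (h : ∀ᶠ t in 𝓝 (0:ℝ), g t ∈ W) : v ∈ W := by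
  have hc : IsClosed (W : Set V) := W.closed_of_finiteDimensional
  have h0 : g 0 ∈ W := h.self_of_nhds
  rw [hasDerivAt_iff_tendsto_slope] at hg
  refine hc.mem_of_tendsto hg ?_
  filter_upwards [h.filter_mono nhdsWithin_le_nhds] with t ht
  rw [slope_def_module]
  exact W.smul_mem _ (W.sub_mem ht h0)

end PTANV

open PTANV in
theorem t_TANV : S_TANV.{u} := by
  intro V _ _ _ n S x hSl hxS
  obtain ⟨Φ, hx, hΦ, hΨ, W, hW, hS⟩ := hSl
  have hy : Φ x ∈ Φ.target := Φ.map_source hx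
  have hsn : Φ.source ∈ 𝓝 x := Φ.open_source.mem_nhds hx
  have htn : Φ.target ∈ 𝓝 (Φ x) := Φ.open_target.mem_nhds hy
  have cΦ : ContDiffAt ℝ ∞ Φ x := hΦ.contDiffAt hsn
  have cΨ : ContDiffAt ℝ ∞ Φ.symm (Φ x) := hΨ.contDiffAt htn
  have dΦ : HasFDerivAt Φ (fderiv ℝ Φ x) x := (cΦ.differentiableAt (by simp)).hasFDerivAt
  have dΨ : HasFDerivAt Φ.symm (fderiv ℝ Φ.symm (Φ x)) (Φ x) :=
    (cΨ.differentiableAt (by simp)).hasFDerivAt
  have hsx : Φ.symm (Φ x) = x := Φ.left_inv hx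
  obtain ⟨D, hD⟩ : ∃ D, D = fderiv ℝ Φ x := ⟨_, rfl⟩
  obtain ⟨D', hD'⟩ : ∃ D', D' = fderiv ℝ Φ.symm (Φ x) := ⟨_, rfl⟩
  rw [← hD] at dΦ
  rw [← hD'] at dΨ
  have e1 : D'.comp D = ContinuousLinearMap.id ℝ V := by
    have h1 : HasFDerivAt (fun z => Φ.symm (Φ z)) (D'.comp D) x := dΨ.comp x dΦ
    have h2 : HasFDerivAt (fun z => Φ.symm (Φ z)) (ContinuousLinearMap.id ℝ V) x := by
      refine (hasFDerivAt_id x).congr_of_eventuallyEq ?_
      filter_upwards [hsn] with z hz
      exact Φ.left_inv hz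
    exact h1.unique h2
  have e2 : D.comp D' = ContinuousLinearMap.id ℝ V := by
    have dΦ' : HasFDerivAt Φ D (Φ.symm (Φ x)) := by rw [hsx]; exact dΦ
    have h1 : HasFDerivAt (fun z => Φ (Φ.symm z)) (D.comp D') (Φ x) := dΦ'.comp (Φ x) dΨ
    have h2 : HasFDerivAt (fun z => Φ (Φ.symm z)) (ContinuousLinearMap.id ℝ V) (Φ x) := by
      refine (hasFDerivAt_id (Φ x)).congr_of_eventuallyEq ?_
      filter_upwards [htn] with z hz
      exact Φ.right_inv hz
    exact h1.unique h2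
  have e1' : ∀ v, D' (D v) = v := fun v => by
    have := congrArg (fun L : V →L[ℝ] V => L v) e1
    exact this
  have e2' : ∀ v, D (D' v) = v := fun v => by
    have := congrArg (fun L : V →L[ℝ] V => L v) e2
    exact this
  obtain ⟨L, hL⟩ : ∃ L : V ≃L[ℝ] V, L = ContinuousLinearEquiv.equivOfInverse D' D e2' e1' :=
    ⟨_, rfl⟩
  have hLa : ∀ v, L v = D' v := fun v => by rw [hL]; rfl
  have hxW : Φ x ∈ W := (hS x hx).1 hxS
  refine ⟨W.map L.toLinearEquiv.toLinearMap, ?_, ?_⟩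
  · rw [← hW]
    exact LinearEquiv.finrank_map_eq L.toLinearEquiv W
  · ext v
    constructor
    · rintro ⟨w, hw, rfl⟩
      have hv : (L.toLinearEquiv.toLinearMap : V →ₗ[ℝ] V) w = D' w := hLa w
      rw [hv]
      refine ⟨fun t => Φ.symm (Φ x + t • w), ?_, ?_, ?_, ?_⟩
      · have h1 : ContDiffAt ℝ ∞ (fun t : ℝ => Φ x + t • w) 0 := by fun_prop
        have h2 : ContDiffAt ℝ ∞ Φ.symm ((fun t : ℝ => Φ x + t • w) 0) := by
          simpa only [zero_smul, add_zero] using cΨ
        exact h2.comp (0:ℝ) h1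
      · show Φ.symm (Φ x + (0:ℝ) • w) = x
        rw [zero_smul, add_zero, hsx]
      · have h1 : Tendsto (fun t : ℝ => Φ x + t • w) (𝓝 0) (𝓝 (Φ x)) := by
          have h2 : Continuous fun t : ℝ => Φ x + t • w := by fun_prop
          have h3 := h2.tendsto 0
          simpa only [zero_smul, add_zero] using h3
        filter_upwards [h1 htn] with t ht
        have ht' : Φ x + t • w ∈ Φ.target := ht
        rw [hS _ (Φ.map_target ht'), Φ.right_inv ht']
        exact W.add_mem hxW (W.smul_mem t hw)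
      · have h1 : HasDerivAt (fun t : ℝ => Φ x + t • w) w 0 := by
          have h2 := ((hasDerivAt_id (0:ℝ)).smul_const w).const_add (Φ x)
          simpa only [id, one_smul] using h2
        have h2 : HasFDerivAt Φ.symm D' ((fun t : ℝ => Φ x + t • w) 0) := by
          simpa only [zero_smul, add_zero] using dΨ
        exact (h2.comp_hasDerivAt (0:ℝ) h1).deriv
    · rintro ⟨c, hc, hc0, hcS, rfl⟩
      have hcd : HasDerivAt c (deriv c 0) 0 := (hc.differentiableAt (by simp)).hasDerivAt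
      have dΦc : HasFDerivAt Φ D (c 0) := by rw [hc0]; exact dΦ
      have h1 : HasDerivAt (fun t => Φ (c t)) (D (deriv c 0)) 0 :=
        dΦc.comp_hasDerivAt (0:ℝ) hcd
      have hcs : ∀ᶠ t in 𝓝 (0:ℝ), c t ∈ Φ.source := by
        have h2 : Tendsto c (𝓝 0) (𝓝 (c 0)) := hc.continuousAt
        rw [hc0] at h2
        exact h2 hsn
      have h3 : D (deriv c 0) ∈ W := by
        refine deriv_mem W _ _ h1 ?_
        filter_upwards [hcS, hcs] with t t1 t2
        exact (hS _ t2).1 t1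
      exact ⟨D (deriv c 0), h3, (hLa _).trans (e1' _)⟩

end Pool.Agent.H823.HC
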