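import Mathlib
import Pool.Agent.H823.HC.StmM

set_option autoImplicit false

open scoped Topology ContDiff Manifold
open Set Metric Filter MeasureTheory

universe u v w

namespace Pool.Agent.H823.HC.PTOP

variable {X : Type v} [MetricSpace X]

lemma exists_near {A L₀ : Set X} (hd : DiscreteTopology ↥A) {a : X} (ha : a ∈ L₀)
    (hacc : AccPt a (𝓟 L₀)) {r : ℝ} (hr : 0 < r) : ∃ y ∈ L₀, dist y a < r ∧ y ∉ A := by
  by_cases haA : a ∈ A
  · have h1 : ∃ U : Set X, IsOpen U ∧ a ∈ U ∧ ∀ y ∈ U, y ∈ A → y = a := by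
      have h2 : IsOpen ({⟨a, haA⟩} : Set ↥A) := isOpen_discrete _
      rw [isOpen_induced_iff] at h2
      obtain ⟨U, hU, hU2⟩ := h2
      refine ⟨U, hU, ?_, ?_⟩
      · have : (⟨a, haA⟩ : ↥A) ∈ (Subtype.val ⁻¹' U : Set ↥A) := by
          rw [hU2]; exact Set.mem_singleton _
        exact this
      · intro y hy hyA
        have : (⟨y, hyA⟩ : ↥A) ∈ (Subtype.val ⁻¹' U : Set ↥A) := hy
        rw [hU2] at this
        exact congrArg Subtype.val (Set.mem_singleton_iff.1 this)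
    obtain ⟨U, hU, haU, hUA⟩ := h1
    rw [accPt_iff_nhds] at hacc
    obtain ⟨y, hy, hya⟩ := hacc (U ∩ ball a r) ((hU.inter isOpen_ball).mem_nhds
      ⟨haU, mem_ball_self hr⟩)
    exact ⟨y, hy.2, mem_ball.1 hy.1.2, fun hyA => hya (hUA y hy.1.1 hyA)⟩
  · exact ⟨a, ha, by rw [dist_self]; exact hr, haA⟩

lemma part_b (B₁ B₂ L₀ : Set X) (L : ℕ → Set X) (ε : ℕ → ℝ) (hB₁ : IsClosed B₁)
    (hB₂ : IsClosed B₂) (hd : DiscreteTopology ↥(B₁ ∩ B₂)) (hL₀ : IsCompact L₀)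
    (hacc : ∀ x ∈ L₀, AccPt x (𝓟 L₀)) (hne : ∀ n, (L n).Nonempty)
    (hε : Tendsto ε atTop (𝓝 0))
    (h : ∀ᶠ n in atTop, ∀ x ∈ L₀, infDist x (L n ∪ B₁) ≤ ε n ∧ infDist x (L n ∪ B₂) ≤ ε n)
    {η : ℝ} (hη : 0 < η) : ∀ᶠ n in atTop, ∀ x ∈ L₀, infDist x (L n) < η := by
  by_contra hcon
  rw [not_eventually] at hcon
  obtain ⟨φ, hφ, hφ2⟩ := extraction_of_frequently_atTop hcon
  have hφ3 : ∀ n, ∃ x ∈ L₀, η ≤ infDist x (L (φ n)) := by
    intro n
    have := hφ2 n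
    push Not at this
    exact this
  choose x hx hx2 using hφ3
  obtain ⟨a, ha, ψ, hψ, hψ2⟩ := hL₀.tendsto_subseq hx
  obtain ⟨y, hy, hya, hyB⟩ := exists_near hd ha (hacc a ha) (show (0 : ℝ) < η / 4 by linarith)
  -- the distance of `y` to `L (φ (ψ k))`
  have h1 : ∀ᶠ k in atTop, η / 2 ≤ infDist y (L (φ (ψ k))) := by
    have h2 : ∀ᶠ k in atTop, dist (x (ψ k)) a < η / 4 :=
      (tendsto_iff_dist_tendsto_zero.1 hψ2).eventually (gt_mem_nhds (by linarith))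
    filter_upwards [h2] with k hk
    have h3 := hx2 (ψ k)
    have h4 : infDist (x (ψ k)) (L (φ (ψ k))) ≤ infDist y (L (φ (ψ k))) + dist (x (ψ k)) y :=
      infDist_le_infDist_add_dist
    have h5 : dist (x (ψ k)) y ≤ dist (x (ψ k)) a + dist y a := dist_triangle_right _ _ _
    linarith
  have key : ∀ B : Set X, IsClosed B → y ∉ B →
      (∀ᶠ n in atTop, infDist y (L n ∪ B) ≤ ε n) → False := by
    intro B hB hyB h6
    obtain ⟨c, hc, hcB⟩ := Metric.isOpen_iff.1 hB.isOpen_compl y hyB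
    have hm : 0 < min (η / 2) c := lt_min (by linarith) hc
    have h7 : ∀ᶠ k in atTop, infDist y (L (φ (ψ k)) ∪ B) ≤ ε (φ (ψ k)) :=
      (hφ.tendsto_atTop.comp hψ.tendsto_atTop).eventually h6
    have h8 : ∀ᶠ k in atTop, ε (φ (ψ k)) < min (η / 2) c :=
      ((hε.comp (hφ.tendsto_atTop.comp hψ.tendsto_atTop)).eventually (gt_mem_nhds hm))
    obtain ⟨k, hk1, hk7, hk8⟩ := (h1.and (h7.and h8)).exists
    have h9 : min (η / 2) c ≤ infDist y (L (φ (ψ k)) ∪ B) := by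
      rw [le_infDist ((hne _).mono Set.subset_union_left)]
      rintro z (hz | hz)
      · exact (min_le_left _ _).trans (hk1.trans (infDist_le_dist_of_mem hz))
      · refine (min_le_right _ _).trans ?_
        by_contra hlt
        have : z ∈ Bᶜ := hcB (by rw [mem_ball, dist_comm]; exact not_le.1 hlt)
        exact this hz
    linarith
  by_cases h2 : y ∈ B₁
  · have h3 : y ∉ B₂ := fun h3 => hyB ⟨h2, h3⟩
    exact key B₂ hB₂ h3 (h.mono fun n hn => (hn y hy).2)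
  · exact key B₁ hB₁ h2 (h.mono fun n hn => (hn y hy).1)

lemma compact_C [ProperSpace X] {L₀ : Set X} (hL₀ : IsCompact L₀) (hne : L₀.Nonempty) (r : ℝ) :
    IsCompact {x | infDist x L₀ ≤ r} := by
  apply Metric.isCompact_of_isClosed_isBounded
  · exact isClosed_le (continuous_infDist_pt L₀) continuous_const
  · obtain ⟨a, ha⟩ := hne
    obtain ⟨R, hR⟩ := hL₀.isBounded.subset_closedBall a
    refine (isBounded_closedBall (x := a) (r := r + R)).subset fun x hx => ?_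
    obtain ⟨y, hy, hxy⟩ := hL₀.exists_infDist_eq_dist ⟨a, ha⟩ x
    have h1 := mem_closedBall.1 (hR hy)
    have h2 : infDist x L₀ ≤ r := hx
    rw [mem_closedBall]
    have := dist_triangle x y a
    linarith

lemma part_a [ProperSpace X] (B₁ B₂ L₀ : Set X) (L : ℕ → Set X) (ε : ℕ → ℝ) (hB₁ : IsClosed B₁)
    (hB₂ : IsClosed B₂) (hd : DiscreteTopology ↥(B₁ ∩ B₂)) (hL₀ : IsCompact L₀)
    (hL₀ne : L₀.Nonempty) (hcon : ∀ n, IsConnected (L n))
    (hε : Tendsto ε atTop (𝓝 0))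
    (h : ∀ᶠ n in atTop, ∀ x ∈ L n, infDist x (L₀ ∪ B₁) ≤ ε n ∧ infDist x (L₀ ∪ B₂) ≤ ε n)
    (hb : ∀ η : ℝ, 0 < η → ∀ᶠ n in atTop, ∀ x ∈ L₀, infDist x (L n) < η)
    {s₀ : ℝ} (hs₀ : 0 < s₀) : ∀ᶠ n in atTop, ∀ x ∈ L n, infDist x L₀ < s₀ := by
  have hfin : ((B₁ ∩ B₂) ∩ {x | infDist x L₀ ≤ s₀}).Finite := by
    apply IsCompact.finite
    · exact (compact_C hL₀ hL₀ne s₀).inter_left (hB₁.inter hB₂)
    · exact ⟨DiscreteTopology.of_subset hd Set.inter_subset_left⟩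
  obtain ⟨s, hs0, hss, hs⟩ : ∃ s : ℝ, 0 < s ∧ s < s₀ ∧
      ∀ x ∈ (B₁ ∩ B₂) ∩ {x | infDist x L₀ ≤ s₀}, 0 < infDist x L₀ → s < infDist x L₀ := by
    have h1 : ∀ᶠ s in 𝓝[>] (0 : ℝ), ∀ x ∈ (B₁ ∩ B₂) ∩ {x | infDist x L₀ ≤ s₀},
        0 < infDist x L₀ → s < infDist x L₀ := by
      rw [Filter.eventually_all_finite hfin]
      intro x _
      by_cases hx : 0 < infDist x L₀
      · have : ∀ᶠ s in 𝓝[>] (0 : ℝ), s < infDist x L₀ :=
          mem_nhdsWithin_of_mem_nhds (gt_mem_nhds hx)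
        exact this.mono fun s hs _ => hs
      · exact Filter.Eventually.of_forall fun s h => absurd h hx
    have h2 : ∀ᶠ s in 𝓝[>] (0 : ℝ), s < s₀ := mem_nhdsWithin_of_mem_nhds (gt_mem_nhds hs₀)
    have h3 : ∀ᶠ s in 𝓝[>] (0 : ℝ), 0 < s := self_mem_nhdsWithin
    obtain ⟨s, hs1, hs2, hs3⟩ := (h1.and (h2.and h3)).exists
    exact ⟨s, hs3, hs2, hs1⟩
  -- no points in the shell
  have hsh : ∀ᶠ n in atTop, ∀ x ∈ L n, infDist x L₀ < s / 2 ∨ s < infDist x L₀ := by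
    by_contra hc
    rw [not_eventually] at hc
    obtain ⟨φ, hφ, hφ2⟩ := extraction_of_frequently_atTop hc
    have hφ3 : ∀ n, ∃ x ∈ L (φ n), s / 2 ≤ infDist x L₀ ∧ infDist x L₀ ≤ s := by
      intro n
      have := hφ2 n
      push Not at this
      exact this
    choose x hx hx1 hx2 using hφ3
    obtain ⟨a, ha, ψ, hψ, hψ2⟩ := (compact_C hL₀ hL₀ne s).tendsto_subseq (x := x) hx2
    have ha1 : s / 2 ≤ infDist a L₀ := by
      refine ge_of_tendsto (((continuous_infDist_pt L₀).tendsto a).comp hψ2) ?_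
      exact Filter.Eventually.of_forall fun k => hx1 (ψ k)
    have ha2 : infDist a L₀ ≤ s := ha
    have key : ∀ B : Set X, IsClosed B →
        (∀ᶠ n in atTop, ∀ x ∈ L n, infDist x (L₀ ∪ B) ≤ ε n) → a ∈ B := by
      intro B hB h6
      have h7 : infDist a (L₀ ∪ B) ≤ 0 := by
        refine le_of_tendsto_of_tendsto
          (((continuous_infDist_pt (L₀ ∪ B)).tendsto a).comp hψ2)
          (hε.comp (hφ.tendsto_atTop.comp hψ.tendsto_atTop)) ?_
        have h8 := (hφ.tendsto_atTop.comp hψ.tendsto_atTop).eventually h6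
        filter_upwards [h8] with k hk
        exact hk _ (hx (ψ k))
      have h9 : a ∈ L₀ ∪ B := by
        have hcl : IsClosed (L₀ ∪ B) := hL₀.isClosed.union hB
        rw [hcl.mem_iff_infDist_zero (hL₀ne.mono Set.subset_union_left)]
        exact le_antisymm h7 infDist_nonneg
      rcases h9 with h9 | h9
      · rw [infDist_zero_of_mem h9] at ha1
        linarith
      · exact h9
    have hm : a ∈ (B₁ ∩ B₂) ∩ {x | infDist x L₀ ≤ s₀} :=
      ⟨⟨key B₁ hB₁ (h.mono fun n hn x hx => (hn x hx).1),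
        key B₂ hB₂ (h.mono fun n hn x hx => (hn x hx).2)⟩, ha2.trans hss.le⟩
    have := hs a hm (by linarith)
    linarith
  filter_upwards [hsh, hb (s / 2) (by linarith)] with n hn1 hn2 z hz
  obtain ⟨x₀, hx₀⟩ := hL₀ne
  have h1 := hn2 x₀ hx₀
  obtain ⟨y, hy, hy2⟩ := (infDist_lt_iff (hcon n).nonempty).1 h1
  have h3 : infDist y L₀ < s / 2 := by
    refine (infDist_le_dist_of_mem hx₀).trans_lt ?_
    rw [dist_comm]; exact hy2
  by_contra h4
  have h5 : s / 2 ∈ Set.Icc (infDist y L₀) (infDist z L₀) := ⟨h3.le, by linarith⟩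
  obtain ⟨w, hw, hw2⟩ := (hcon n).isPreconnected.intermediate_value hy hz
    (continuous_infDist_pt L₀).continuousOn h5
  have hw3 : infDist w L₀ = s / 2 := hw2
  rcases hn1 w hw with h6 | h6 <;> linarith

end Pool.Agent.H823.HC.PTOP

namespace Pool.Agent.H823.HC

theorem t_TOP : S_TOP.{v} := by
  intro X _ _ B₁ B₂ L₀ L ε hB₁ hB₂ hd hL₀ hL₀ne hacc hcomp hcon hε h
  have hb : ∀ η : ℝ, 0 < η → ∀ᶠ n in atTop, ∀ x ∈ L₀, infDist x (L n) < η := fun η hη =>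
    PTOP.part_b B₁ B₂ L₀ L ε hB₁ hB₂ hd hL₀ hacc (fun n => (hcon n).nonempty) hε
      (h.mono fun n hn => hn.2) hη
  rw [Metric.tendsto_nhds]
  intro η hη
  have ha := PTOP.part_a B₁ B₂ L₀ L ε hB₁ hB₂ hd hL₀ hL₀ne hcon hε
    (h.mono fun n hn => hn.1) hb (show (0 : ℝ) < η / 2 by linarith)
  filter_upwards [ha, hb (η / 2) (by linarith)] with n hn1 hn2
  rw [Real.dist_eq, sub_zero, abs_of_nonneg hausdorffDist_nonneg]
  have := hausdorffDist_le_of_infDist (show (0 : ℝ) ≤ η / 2 by linarith)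
    (fun x hx => (hn1 x hx).le) (fun x hx => (hn2 x hx).le)
  linarith

end Pool.Agent.H823.HC
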