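import Mathlib
import Pool.Agent.H823.HC.StmM

/-!
# Project HC: TRANS, pairwise transversality by successive small perturbations
-/

open scoped Topology ContDiff Manifold
open Set Metric Filter MeasureTheory

noncomputable section

namespace Pool.Agent.H823.HC

universe u v w

namespace PTRANS

section

variable {V : Type u} [NormedAddCommGroup V] [InnerProductSpace ℝ V]
  {M : Type v} [MetricSpace M] [ChartedSpace V M]

theorem trans_symm {L N : Set M} (h : Transverse V L N) : Transverse V N L := by
  intro e he y hy hys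
  rw [Set.union_comm]
  exact h e he y ⟨hy.2, hy.1⟩ hys

theorem hamSmall_id [IsManifold 𝓘(ℝ, V) ∞ M] (A : AlmostKahler V M) {ε : ℝ} (hε : 0 < ε) :
    A.HamSmall id ε := by
  refine ⟨fun _ => 0, fun p => p.2, contMDiff_const, contMDiff_snd, ⟨∅, isCompact_empty, ?_⟩,
    fun _ => rfl, ?_, fun _ => rfl, ?_, ?_⟩
  · intro _ _ _ _; rfl
  · intro t _ x v
    have h1 : mfderiv 𝓘(ℝ, ℝ) 𝓘(ℝ, V) (fun _ : ℝ => x) t = 0 := mfderiv_const
    have h2 : mfderiv 𝓘(ℝ, V) 𝓘(ℝ, ℝ) (fun _ : M => (0 : ℝ)) x = 0 := mfderiv_const
    show A.om x (mfderiv 𝓘(ℝ, ℝ) 𝓘(ℝ, V) (fun _ : ℝ => x) t (1:ℝ)) v =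
      mfderiv 𝓘(ℝ, V) 𝓘(ℝ, ℝ) (fun _ : M => (0 : ℝ)) x v
    rw [h1, h2]
    have h3 : (0 : TangentSpace 𝓘(ℝ, ℝ) t →L[ℝ] TangentSpace 𝓘(ℝ, V) x) (1:ℝ) = 0 := rfl
    have h4 : A.om x ((0 : TangentSpace 𝓘(ℝ, ℝ) t →L[ℝ] TangentSpace 𝓘(ℝ, V) x) (1:ℝ)) v = 0 := by
      rw [h3, map_zero]
      rfl
    exact h4
  · simp only [Real.iSup_const_zero, Real.iInf_const_zero, sub_zero,
      intervalIntegral.integral_zero]
    exact hε
  · intro x
    show dist x x < ε
    rw [dist_self]
    exact hε

end

end PTRANS

open PTRANS in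
theorem t_TRANS (hTRANS1 : S_TRANS1.{u, v}) (hIMG : S_IMG.{u, v}) : S_TRANS.{u, v} := by
  intro V _ _ _ M _ _ _ A n k F j₀ hn hF hS ε hε
  have key : ∀ S : Finset (Fin k), ∃ Φ Φi : Fin k → M → M, Φ j₀ = id ∧
      (∀ i, ContMDiff 𝓘(ℝ, V) 𝓘(ℝ, V) ∞ (Φ i)) ∧ (∀ i, ContMDiff 𝓘(ℝ, V) 𝓘(ℝ, V) ∞ (Φi i)) ∧
      (∀ i x, Φi i (Φ i x) = x) ∧ (∀ i x, Φ i (Φi i x) = x) ∧ (∀ i, A.HamSmall (Φ i) ε) ∧
      ∀ i j, (i ∈ S ∨ i = j₀) → (j ∈ S ∨ j = j₀) → i ≠ j →
        Transverse V (Φ i '' F i) (Φ j '' F j) := by
    intro S
    induction S using Finset.induction_on with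
    | empty =>
      refine ⟨fun _ => id, fun _ => id, rfl, fun _ => contMDiff_id, fun _ => contMDiff_id,
        fun _ _ => rfl, fun _ _ => rfl, fun _ => hamSmall_id A hε, ?_⟩
      rintro i j (hi | hi) (hj | hj) hij
      · exact absurd hi (Finset.notMem_empty _)
      · exact absurd hi (Finset.notMem_empty _)
      · exact absurd hj (Finset.notMem_empty _)
      · exact absurd (hi.trans hj.symm) hij
    | insert a S ha ih =>
      obtain ⟨Φ, Φi, h0, h1, h2, h3, h4, h5, h6⟩ := ih
      by_cases haj : a = j₀
      · refine ⟨Φ, Φi, h0, h1, h2, h3, h4, h5, fun i j hi hj hij => h6 i j ?_ ?_ hij⟩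
        · rcases hi with hi | hi
          · rcases Finset.mem_insert.mp hi with hi | hi
            · exact Or.inr (hi.trans haj)
            · exact Or.inl hi
          · exact Or.inr hi
        · rcases hj with hj | hj
          · rcases Finset.mem_insert.mp hj with hj | hj
            · exact Or.inr (hj.trans haj)
            · exact Or.inl hj
          · exact Or.inr hj
      · obtain ⟨φ, φi, g1, g2, g3, g4, g5, g6⟩ := hTRANS1 V M A n k (F a) (fun i => Φ i '' F i) hn
          (hF a) (hS a) (fun i => (hF i).image (h1 i).continuous)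
          (fun i => hIMG V M (Φ i) (Φi i) n (F i) (h1 i) (h2 i) (h3 i) (h4 i) (hS i)) ε hε
        refine ⟨Function.update Φ a φ, Function.update Φi a φi, ?_, ?_, ?_, ?_, ?_, ?_, ?_⟩
        · rw [Function.update_of_ne (Ne.symm haj), h0]
        · intro i
          by_cases hi : i = a
          · subst hi; rw [Function.update_self]; exact g1
          · rw [Function.update_of_ne hi]; exact h1 i
        · intro i
          by_cases hi : i = a
          · subst hi; rw [Function.update_self]; exact g2
          · rw [Function.update_of_ne hi]; exact h2 i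
        · intro i
          by_cases hi : i = a
          · subst hi; rw [Function.update_self, Function.update_self]; exact g3
          · rw [Function.update_of_ne hi, Function.update_of_ne hi]; exact h3 i
        · intro i
          by_cases hi : i = a
          · subst hi; rw [Function.update_self, Function.update_self]; exact g4
          · rw [Function.update_of_ne hi, Function.update_of_ne hi]; exact h4 i
        · intro i
          by_cases hi : i = a
          · subst hi; rw [Function.update_self]; exact g5
          · rw [Function.update_of_ne hi]; exact h5 i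
        · intro i j hi hj hij
          have hmem : ∀ l : Fin k, (l ∈ insert a S ∨ l = j₀) → l ≠ a → (l ∈ S ∨ l = j₀) := by
            rintro l (hl | hl) hla
            · rcases Finset.mem_insert.mp hl with hl | hl
              · exact absurd hl hla
              · exact Or.inl hl
            · exact Or.inr hl
          by_cases hia : i = a
          · have hja : j ≠ a := fun h => hij (hia.trans h.symm)
            rw [hia, Function.update_self, Function.update_of_ne hja]
            exact g6 j
          · by_cases hja : j = a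
            · rw [hja, Function.update_self, Function.update_of_ne hia]
              exact trans_symm (g6 i)
            · rw [Function.update_of_ne hia, Function.update_of_ne hja]
              exact h6 i j (hmem i hi hia) (hmem j hj hja) hij
  obtain ⟨Φ, -, h0, h1, -, -, -, h5, h6⟩ := key Finset.univ
  exact ⟨Φ, h0, h5, fun i => (h1 i).continuous, fun i j hij =>
    h6 i j (Or.inl (Finset.mem_univ _)) (Or.inl (Finset.mem_univ _)) hij⟩

end Pool.Agent.H823.HC
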