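import Mathlib
import Pool.Agent.H823.HC.StmM

/-!
# Project HC, TRANS1: a small Hamiltonian perturbation makes a submanifold transverse to others
-/

open scoped Topology ContDiff Manifold
open Set Metric Filter MeasureTheory

noncomputable section

namespace Pool.Agent.H823.HC

universe u v w

namespace PTRANS1

variable {V : Type u} [NormedAddCommGroup V] [InnerProductSpace ℝ V]
  {M : Type v} [MetricSpace M] [ChartedSpace V M] [IsManifold 𝓘(ℝ, V) ∞ M]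

theorem ch_at {e : OpenPartialHomeomorph M V} (he : e ∈ Charts V M) {x : M} (hx : x ∈ e.source) :
    ContMDiffAt 𝓘(ℝ, V) 𝓘(ℝ, V) ∞ e x :=
  (contMDiffOn_of_mem_maximalAtlas he).contMDiffAt (e.open_source.mem_nhds hx)

theorem ch_symm_at {e : OpenPartialHomeomorph M V} (he : e ∈ Charts V M) {z : V}
    (hz : z ∈ e.target) : ContMDiffAt 𝓘(ℝ, V) 𝓘(ℝ, V) ∞ e.symm z :=
  (contMDiffOn_symm_of_mem_maximalAtlas he).contMDiffAt (e.open_target.mem_nhds hz)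

theorem ch_md {e : OpenPartialHomeomorph M V} (he : e ∈ Charts V M) :
    e.MDifferentiable 𝓘(ℝ, V) 𝓘(ℝ, V) :=
  ⟨(contMDiffOn_of_mem_maximalAtlas he).mdifferentiableOn (by simp),
    (contMDiffOn_symm_of_mem_maximalAtlas he).mdifferentiableOn (by simp)⟩

/-- the change of charts is differentiable -/
theorem tr_diff {e e' : OpenPartialHomeomorph M V} (he : e ∈ Charts V M) (he' : e' ∈ Charts V M)
    {y : M} (hy : y ∈ e.source) (hy' : y ∈ e'.source) :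
    DifferentiableAt ℝ (fun z => e (e'.symm z)) (e' y) := by
  have h1 : ContMDiffAt 𝓘(ℝ, V) 𝓘(ℝ, V) ∞ (fun z => e (e'.symm z)) (e' y) :=
    ContMDiffAt.comp (e' y) (g := e) (by
      rw [e'.left_inv hy']
      exact ch_at he hy) (ch_symm_at he' (e'.map_source hy'))
  exact (contMDiffAt_iff_contDiffAt.1 h1).differentiableAt (by simp)

/-- the derivative of a change of charts is onto -/
theorem tr_surj {e e' : OpenPartialHomeomorph M V} (he : e ∈ Charts V M) (he' : e' ∈ Charts V M)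
    {y : M} (hy : y ∈ e.source) (hy' : y ∈ e'.source) :
    Function.Surjective (fderiv ℝ (fun z => e (e'.symm z)) (e' y)) := by
  have h1 : HasFDerivAt (fun z => e (e'.symm z)) (fderiv ℝ (fun z => e (e'.symm z)) (e' y)) (e' y) :=
    (tr_diff he he' hy hy').hasFDerivAt
  have h2 : HasFDerivAt (fun z => e' (e.symm z)) (fderiv ℝ (fun z => e' (e.symm z)) (e y))
      (e (e'.symm (e' y))) := by
    rw [e'.left_inv hy']
    exact (tr_diff he' he hy' hy).hasFDerivAt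
  have h1' : HasFDerivAt (fun z => e (e'.symm z)) (fderiv ℝ (fun z => e (e'.symm z)) (e' y))
      (e' (e.symm (e y))) := by
    rw [e.left_inv hy]; exact h1
  have h2' : HasFDerivAt (fun z => e' (e.symm z)) (fderiv ℝ (fun z => e' (e.symm z)) (e y)) (e y) :=
    (tr_diff he' he hy' hy).hasFDerivAt
  -- composition e (e'.symm (e' (e.symm z))) = z near e y
  have h3 := h1'.comp (e y) h2'
  have h4 : (fun z => e (e'.symm z)) ∘ (fun z => e' (e.symm z)) =ᶠ[𝓝 (e y)] id := by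
    have h5 : ∀ᶠ z in 𝓝 (e y), z ∈ e.target := e.open_target.mem_nhds (e.map_source hy)
    have h6 : ∀ᶠ z in 𝓝 (e y), e.symm z ∈ e'.source := by
      have : ContinuousAt e.symm (e y) := e.continuousAt_symm (e.map_source hy)
      apply this
      rw [e.left_inv hy]
      exact e'.open_source.mem_nhds hy'
    filter_upwards [h5, h6] with z h7 h8
    simp only [Function.comp_apply, id_eq]
    rw [e'.left_inv h8, e.right_inv h7]
  have h5 : HasFDerivAt (id : V → V) (ContinuousLinearMap.id ℝ V) (e y) := hasFDerivAt_id _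
  have h6 := (h3.congr_of_eventuallyEq h4.symm).unique h5
  intro v
  refine ⟨fderiv ℝ (fun z => e' (e.symm z)) (e y) v, ?_⟩
  have := congrArg (fun L : V →L[ℝ] V => L v) h6
  simpa using this

/-- tangent vectors in two charts -/
theorem tan_tr {e e' : OpenPartialHomeomorph M V} (he : e ∈ Charts V M) (he' : e' ∈ Charts V M)
    {y : M} (hy : y ∈ e.source) (hy' : y ∈ e'.source) {L : Set M} {v : V} (hv : v ∈ tanC e' L y) :
    fderiv ℝ (fun z => e (e'.symm z)) (e' y) v ∈ tanC e L y := by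
  obtain ⟨c, h0, hc, hd⟩ := hv
  refine ⟨c, h0, hc, ?_⟩
  have hcc : ContinuousAt c 0 := hc.1.continuousAt
  have h1 : ContMDiffAt 𝓘(ℝ, ℝ) 𝓘(ℝ, V) ∞ (fun t => e' (c t)) 0 :=
    ContMDiffAt.comp (0 : ℝ) (g := e') (by rw [h0]; exact ch_at he' hy') hc.1
  have h2 : HasDerivAt (fun t => e' (c t)) v 0 := by
    rw [← hd]
    exact ((contMDiffAt_iff_contDiffAt.1 h1).differentiableAt (by simp)).hasDerivAt
  have h3 : HasFDerivAt (fun z => e (e'.symm z)) (fderiv ℝ (fun z => e (e'.symm z)) (e' y))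
      (e' (c 0)) := by
    rw [h0]; exact (tr_diff he he' hy hy').hasFDerivAt
  have h4 := h3.comp_hasDerivAt (0 : ℝ) h2
  have h5 : (fun t => e (c t)) =ᶠ[𝓝 0] (fun z => e (e'.symm z)) ∘ fun t => e' (c t) := by
    have h6 : ∀ᶠ t in 𝓝 (0 : ℝ), c t ∈ e'.source := by
      apply hcc
      rw [h0]
      exact e'.open_source.mem_nhds hy'
    filter_upwards [h6] with t ht
    simp only [Function.comp_apply]
    rw [e'.left_inv ht]
  exact (h4.congr_of_eventuallyEq h5).deriv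

theorem span_tr {e e' : OpenPartialHomeomorph M V} (he : e ∈ Charts V M) (he' : e' ∈ Charts V M)
    {y : M} (hy : y ∈ e.source) (hy' : y ∈ e'.source) {L N : Set M}
    (h : Submodule.span ℝ (tanC e' L y ∪ tanC e' N y) = (⊤ : Submodule ℝ V)) :
    Submodule.span ℝ (tanC e L y ∪ tanC e N y) = (⊤ : Submodule ℝ V) := by
  rw [Submodule.eq_top_iff']
  intro v
  obtain ⟨w, rfl⟩ := tr_surj he he' hy hy' v
  have hw : w ∈ Submodule.span ℝ (tanC e' L y ∪ tanC e' N y) := by rw [h]; trivial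
  induction hw using Submodule.span_induction with
  | mem x hx =>
    apply Submodule.subset_span
    rcases hx with hx | hx
    · exact Or.inl (tan_tr he he' hy hy' hx)
    · exact Or.inr (tan_tr he he' hy hy' hx)
  | zero => rw [map_zero]; exact Submodule.zero_mem _
  | add x y _ _ hx hy => rw [map_add]; exact Submodule.add_mem _ hx hy
  | smul a x _ hx => rw [map_smul]; exact Submodule.smul_mem _ a hx

/-- the straight curves in a slice chart -/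
theorem slice_curve {e : OpenPartialHomeomorph M V} (he : e ∈ Charts V M) {L : Set M}
    {W : Submodule ℝ V} (hW : ∀ z ∈ e.source, (z ∈ L ↔ e z ∈ W)) {x : M} (hx : x ∈ e.source)
    (hxL : x ∈ L) {a : V} (ha : a ∈ W) :
    CurveIn (V := V) L (fun t : ℝ => e.symm (e x + t • a)) ∧
      (fun t : ℝ => e (e.symm (e x + t • a))) =ᶠ[𝓝 0] fun t => e x + t • a := by
  have hl : ContDiff ℝ ∞ (fun t : ℝ => e x + t • a) := by fun_prop
  have hl0 : e x + (0 : ℝ) • a = e x := by rw [zero_smul, add_zero]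
  have ht : ∀ᶠ t in 𝓝 (0 : ℝ), e x + t • a ∈ e.target := by
    apply hl.continuous.continuousAt
    show e.target ∈ 𝓝 (e x + (0 : ℝ) • a)
    rw [hl0]
    exact e.open_target.mem_nhds (e.map_source hx)
  refine ⟨⟨?_, ?_⟩, ?_⟩
  · apply ContMDiffAt.comp (I' := 𝓘(ℝ, V)) (0 : ℝ) (g := e.symm) (f := fun t : ℝ => e x + t • a)
    · rw [hl0]
      exact ch_symm_at he (e.map_source hx)
    · exact hl.contMDiff.contMDiffAt
  · filter_upwards [ht] with t h1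
    rw [hW _ (e.map_target h1), e.right_inv h1]
    exact W.add_mem ((hW x hx).1 hxL) (W.smul_mem _ ha)
  · filter_upwards [ht] with t h1
    exact e.right_inv h1

/-- surjectivity of the derivative gives transversality -/
theorem span_of_surj {F N : Set M} {φ : M → M} (hφ : ContMDiff 𝓘(ℝ, V) 𝓘(ℝ, V) ∞ φ)
    {e₁ e₂ : OpenPartialHomeomorph M V} (he₁ : e₁ ∈ Charts V M) (he₂ : e₂ ∈ Charts V M)
    {W₁ W₂ : Submodule ℝ V} (hW₁ : ∀ z ∈ e₁.source, (z ∈ F ↔ e₁ z ∈ W₁))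
    (hW₂ : ∀ z ∈ e₂.source, (z ∈ N ↔ e₂ z ∈ W₂)) {x : M} (hx : x ∈ e₁.source) (hxF : x ∈ F)
    (hy : φ x ∈ e₂.source) (hyN : φ x ∈ N) {A : V →L[ℝ] V}
    (hA : HasFDerivAt (fun z => e₂ (φ (e₁.symm z))) A (e₁ x))
    (hs : ∀ v : V, ∃ a ∈ W₁, ∃ b ∈ W₂, v = A a - b) :
    Submodule.span ℝ (tanC e₂ (φ '' F) (φ x) ∪ tanC e₂ N (φ x)) = (⊤ : Submodule ℝ V) := by
  rw [eq_top_iff]
  intro v _
  obtain ⟨a, ha, b, hb, rfl⟩ := hs v
  apply Submodule.sub_mem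
  · apply Submodule.subset_span
    left
    obtain ⟨h1, h2⟩ := slice_curve he₁ hW₁ hx hxF ha
    refine ⟨fun t : ℝ => φ (e₁.symm (e₁ x + t • a)), ?_, ⟨?_, ?_⟩, ?_⟩
    · beta_reduce
      rw [zero_smul, add_zero, e₁.left_inv hx]
    · exact hφ.contMDiffAt.comp (0 : ℝ) h1.1
    · filter_upwards [h1.2] with t ht
      exact ⟨_, ht, rfl⟩
    · have h3 : HasDerivAt (fun t : ℝ => e₁ x + t • a) a 0 := by
        have := ((hasDerivAt_id (0 : ℝ)).smul_const a).const_add (e₁ x)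
        simpa using this
      have h4 : HasFDerivAt (fun z => e₂ (φ (e₁.symm z))) A (e₁ x + (0 : ℝ) • a) := by
        rw [zero_smul, add_zero]; exact hA
      exact (h4.comp_hasDerivAt (0 : ℝ) h3).deriv
  · apply Submodule.subset_span
    right
    obtain ⟨h1, h2⟩ := slice_curve he₂ hW₂ hy hyN hb
    refine ⟨fun t : ℝ => e₂.symm (e₂ (φ x) + t • b), ?_, h1, ?_⟩
    · beta_reduce
      rw [zero_smul, add_zero, e₂.left_inv hy]
    · have h3 : HasDerivAt (fun t : ℝ => e₂ (φ x) + t • b) b 0 := by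
        have := ((hasDerivAt_id (0 : ℝ)).smul_const b).const_add (e₂ (φ x))
        simpa using this
      exact (h3.congr_of_eventuallyEq h2).deriv

/-- the bad points -/
def Bad (L N : Set M) (y : M) : Prop :=
  ¬ ∀ e ∈ Charts V M, y ∈ e.source →
    Submodule.span ℝ (tanC e L y ∪ tanC e N y) = (⊤ : Submodule ℝ V)

/-- the local statement at a common point -/
theorem local_eq (hSARD : S_SARD.{u}) [FiniteDimensional ℝ V] {n k : ℕ} {F N : Set M}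
    (hn : 2 * n = Module.finrank ℝ V) (hF : IsSubmfd V n F) (hN : IsSubmfd V n N)
    {ψ : EuclideanSpace ℝ (Fin k) × M → M}
    (hψ : ContMDiff (𝓘(ℝ, EuclideanSpace ℝ (Fin k)).prod 𝓘(ℝ, V)) 𝓘(ℝ, V) ∞ ψ)
    (hψ0 : ∀ x, ψ (0, x) = x) {x₀ : M} (hx₀ : x₀ ∈ F) (hy₀ : x₀ ∈ N)
    (hsur : Function.Surjective
        (mfderiv 𝓘(ℝ, EuclideanSpace ℝ (Fin k)) 𝓘(ℝ, V) (fun s => ψ (s, x₀)) 0)) :
    ∃ O ∈ 𝓝 (0 : EuclideanSpace ℝ (Fin k)), ∃ U ∈ 𝓝 x₀, ∃ U' ∈ 𝓝 x₀,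
      (volume : Measure (EuclideanSpace ℝ (Fin k)))
        {s ∈ O | ∃ x ∈ U, ∃ y ∈ U', x ∈ F ∧ y ∈ N ∧ ψ (s, x) = y ∧
          Bad (V := V) ((fun x => ψ (s, x)) '' F) N y} = 0 := by
  obtain ⟨e₁, he₁, hx₁, W₁, hd₁, hW₁⟩ := hF x₀ hx₀
  obtain ⟨e₂, he₂, hx₂, W₂, hd₂, hW₂⟩ := hN x₀ hy₀
  obtain ⟨G, hG⟩ : ∃ G : EuclideanSpace ℝ (Fin k) × (W₁ × W₂) → V, G = fun z =>
    e₂ (ψ (z.1, e₁.symm (e₁ x₀ + (z.2.1 : V)))) - (e₂ x₀ + (z.2.2 : V)) := ⟨_, rfl⟩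
  have hl1 : ContDiff ℝ ∞ fun z : EuclideanSpace ℝ (Fin k) × (W₁ × W₂) => e₁ x₀ + (z.2.1 : V) :=
    contDiff_const.add (W₁.subtypeL.contDiff.comp (contDiff_fst.comp contDiff_snd))
  have hl2 : ContDiff ℝ ∞ fun z : EuclideanSpace ℝ (Fin k) × (W₁ × W₂) => e₂ x₀ + (z.2.2 : V) :=
    contDiff_const.add (W₂.subtypeL.contDiff.comp (contDiff_snd.comp contDiff_snd))
  have hGs : ContDiffAt ℝ ∞ G (0, 0) := by
    have h1 : ContMDiffAt 𝓘(ℝ, EuclideanSpace ℝ (Fin k) × (W₁ × W₂)) 𝓘(ℝ, V) ∞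
        (fun z : EuclideanSpace ℝ (Fin k) × (W₁ × W₂) => e₁.symm (e₁ x₀ + (z.2.1 : V))) (0, 0) := by
      apply ContMDiffAt.comp (I' := 𝓘(ℝ, V)) (0, 0) (g := e₁.symm)
        (f := fun z : EuclideanSpace ℝ (Fin k) × (W₁ × W₂) => e₁ x₀ + (z.2.1 : V))
      · have : e₁ x₀ + (((0, 0) : EuclideanSpace ℝ (Fin k) × (W₁ × W₂)).2.1 : V) = e₁ x₀ := by simp
        rw [this]
        exact ch_symm_at he₁ (e₁.map_source hx₁)
      · exact hl1.contMDiff.contMDiffAt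
    have h2 : ContMDiffAt 𝓘(ℝ, EuclideanSpace ℝ (Fin k) × (W₁ × W₂))
        (𝓘(ℝ, EuclideanSpace ℝ (Fin k)).prod 𝓘(ℝ, V)) ∞
        (fun z : EuclideanSpace ℝ (Fin k) × (W₁ × W₂) =>
          (z.1, e₁.symm (e₁ x₀ + (z.2.1 : V)))) (0, 0) :=
      ContMDiffAt.prodMk (contDiff_fst.contMDiff.contMDiffAt) h1
    have h3 := hψ.contMDiffAt.comp (0, 0) h2
    have h4 : ContMDiffAt 𝓘(ℝ, EuclideanSpace ℝ (Fin k) × (W₁ × W₂)) 𝓘(ℝ, V) ∞
        (fun z : EuclideanSpace ℝ (Fin k) × (W₁ × W₂) =>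
          e₂ (ψ (z.1, e₁.symm (e₁ x₀ + (z.2.1 : V))))) (0, 0) := by
      apply ContMDiffAt.comp (0, 0) (g := e₂) _ h3
      have : (ψ ∘ fun z : EuclideanSpace ℝ (Fin k) × (W₁ × W₂) =>
          (z.1, e₁.symm (e₁ x₀ + (z.2.1 : V)))) (0, 0) = x₀ := by
        simp [hψ0, e₁.left_inv hx₁]
      rw [this]
      exact ch_at he₂ hx₂
    rw [hG]
    exact (contMDiffAt_iff_contDiffAt.1 h4).sub hl2.contDiffAt
  have hGp : Function.Surjective (fderiv ℝ (fun p => G (p, 0)) 0) := by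
    have h1 : (fun p => G (p, 0)) = fun p => e₂ (ψ (p, x₀)) - e₂ x₀ := by
      funext p
      rw [hG]
      simp [e₁.left_inv hx₁]
    have h2 : MDifferentiableAt 𝓘(ℝ, EuclideanSpace ℝ (Fin k)) 𝓘(ℝ, V)
        (fun s => ψ (s, x₀)) 0 := by
      have h3 : ContMDiffAt 𝓘(ℝ, EuclideanSpace ℝ (Fin k)) 𝓘(ℝ, V) ∞ (fun s => ψ (s, x₀)) 0 :=
        hψ.contMDiffAt.comp (0 : EuclideanSpace ℝ (Fin k))
          (ContMDiffAt.prodMk contMDiffAt_id contMDiffAt_const)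
      exact h3.mdifferentiableAt (by simp)
    have h4 : MDifferentiableAt 𝓘(ℝ, V) 𝓘(ℝ, V) e₂ (ψ (0, x₀)) := by
      rw [hψ0]
      exact (ch_at he₂ hx₂).mdifferentiableAt (by simp)
    have h5 := mfderiv_comp (0 : EuclideanSpace ℝ (Fin k)) h4 h2
    have h6 : Function.Surjective (mfderiv 𝓘(ℝ, V) 𝓘(ℝ, V) e₂ (ψ (0, x₀))) := by
      have := (ch_md he₂).mfderiv_surjective (x := ψ (0, x₀)) (by rw [hψ0]; exact hx₂)
      exact this
    have h7 : Function.Surjective (mfderiv 𝓘(ℝ, EuclideanSpace ℝ (Fin k)) 𝓘(ℝ, V)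
        (e₂ ∘ fun s => ψ (s, x₀)) 0) := by
      rw [h5]
      exact h6.comp hsur
    rw [mfderiv_eq_fderiv] at h7
    rw [h1, fderiv_sub_const]
    exact h7
  have hdim : Module.finrank ℝ (W₁ × W₂) = Module.finrank ℝ V := by
    rw [Module.finrank_prod, hd₁, hd₂]; omega
  obtain ⟨O, hO, O', hO', hnull⟩ := hSARD k (W₁ × W₂) V G 0 0 hdim hGs hGp
  have hx0W : e₁ x₀ ∈ W₁ := (hW₁ _ hx₁).1 hx₀
  have hy0W : e₂ x₀ ∈ W₂ := (hW₂ _ hx₂).1 hy₀
  -- neighbourhoods in W₁ and W₂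
  obtain ⟨A, hA, B, hB, hAB⟩ : ∃ A ∈ 𝓝 (0 : W₁), ∃ B ∈ 𝓝 (0 : W₂), A ×ˢ B ⊆ O' := by
    have : O' ∈ 𝓝 ((0, 0) : W₁ × W₂) := hO'
    rw [nhds_prod_eq] at this
    exact Filter.mem_prod_iff.1 this
  obtain ⟨A', hA', hAA⟩ : ∃ A' ∈ 𝓝 (0 : V), ∀ w : W₁, (w : V) ∈ A' → w ∈ A := by
    rw [nhds_induced, Filter.mem_comap] at hA
    obtain ⟨A', h1, h2⟩ := hA
    exact ⟨A', by simpa using h1, fun w hw => h2 hw⟩
  obtain ⟨B', hB', hBB⟩ : ∃ B' ∈ 𝓝 (0 : V), ∀ w : W₂, (w : V) ∈ B' → w ∈ B := by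
    rw [nhds_induced, Filter.mem_comap] at hB
    obtain ⟨B', h1, h2⟩ := hB
    exact ⟨B', by simpa using h1, fun w hw => h2 hw⟩
  have hU1 : ∀ᶠ x in 𝓝 x₀, x ∈ e₁.source ∧ e₁ x - e₁ x₀ ∈ A' := by
    apply Filter.Eventually.and (e₁.open_source.mem_nhds hx₁)
    have h1 : ContinuousAt (fun x => e₁ x - e₁ x₀) x₀ :=
      (e₁.continuousAt hx₁).sub continuousAt_const
    apply h1
    show A' ∈ 𝓝 (e₁ x₀ - e₁ x₀)
    rw [sub_self]
    exact hA'
  have hU2 : ∀ᶠ y in 𝓝 x₀, y ∈ e₂.source ∧ e₂ y - e₂ x₀ ∈ B' := by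
    apply Filter.Eventually.and (e₂.open_source.mem_nhds hx₂)
    have h1 : ContinuousAt (fun x => e₂ x - e₂ x₀) x₀ :=
      (e₂.continuousAt hx₂).sub continuousAt_const
    apply h1
    show B' ∈ 𝓝 (e₂ x₀ - e₂ x₀)
    rw [sub_self]
    exact hB'
  refine ⟨O, hO, _, hU1, _, hU2, ?_⟩
  refine measure_mono_null ?_ hnull
  rintro s ⟨hsO, x, ⟨hxs, hxA⟩, y, ⟨hys, hyB⟩, hxF, hyN, hxy, hbad⟩
  refine ⟨hsO, ?_⟩
  have hxW : e₁ x ∈ W₁ := (hW₁ _ hxs).1 hxF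
  have hyW : e₂ y ∈ W₂ := (hW₂ _ hys).1 hyN
  obtain ⟨q, hq⟩ : ∃ q : W₁ × W₂, q =
    (⟨e₁ x - e₁ x₀, W₁.sub_mem hxW hx0W⟩, ⟨e₂ y - e₂ x₀, W₂.sub_mem hyW hy0W⟩) := ⟨_, rfl⟩
  have hq1 : e₁ x₀ + (q.1 : V) = e₁ x := by rw [hq]; simp
  have hq2 : e₂ x₀ + (q.2 : V) = e₂ y := by rw [hq]; simp
  refine ⟨q, hAB ⟨hAA _ (by rw [hq]; exact hxA), hBB _ (by rw [hq]; exact hyB)⟩, ?_, ?_⟩
  · rw [hG]
    show e₂ (ψ (s, e₁.symm (e₁ x₀ + (q.1 : V)))) - (e₂ x₀ + (q.2 : V)) = 0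
    rw [hq1, hq2, e₁.left_inv hxs, hxy, sub_self]
  · intro hs
    apply hbad
    intro e he hye
    have hφ : ContMDiff 𝓘(ℝ, V) 𝓘(ℝ, V) ∞ (fun x => ψ (s, x)) :=
      hψ.comp (contMDiff_const.prodMk contMDiff_id)
    have hcd : ContMDiffAt 𝓘(ℝ, V) 𝓘(ℝ, V) ∞ (fun z => e₂ (ψ (s, e₁.symm z))) (e₁ x) := by
      apply ContMDiffAt.comp (I' := 𝓘(ℝ, V)) (e₁ x) (g := e₂) (f := fun z => ψ (s, e₁.symm z))
      · rw [e₁.left_inv hxs, hxy]
        exact ch_at he₂ hys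
      · exact hφ.contMDiffAt.comp (e₁ x) (ch_symm_at he₁ (e₁.map_source hxs))
    obtain ⟨A₀, hA₀⟩ : ∃ A₀, HasFDerivAt (fun z => e₂ (ψ (s, e₁.symm z))) A₀ (e₁ x) :=
      ⟨_, ((contMDiffAt_iff_contDiffAt.1 hcd).differentiableAt (by simp)).hasFDerivAt⟩
    have hG' : HasFDerivAt (fun q : W₁ × W₂ => G (s, q))
        (A₀.comp (W₁.subtypeL.comp (ContinuousLinearMap.fst ℝ W₁ W₂)) -
          W₂.subtypeL.comp (ContinuousLinearMap.snd ℝ W₁ W₂)) q := by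
      have h1 : HasFDerivAt (fun q : W₁ × W₂ => e₁ x₀ + (q.1 : V))
          (W₁.subtypeL.comp (ContinuousLinearMap.fst ℝ W₁ W₂)) q :=
        (W₁.subtypeL.comp (ContinuousLinearMap.fst ℝ W₁ W₂)).hasFDerivAt.const_add _
      have h2 : HasFDerivAt (fun q : W₁ × W₂ => e₂ x₀ + (q.2 : V))
          (W₂.subtypeL.comp (ContinuousLinearMap.snd ℝ W₁ W₂)) q :=
        (W₂.subtypeL.comp (ContinuousLinearMap.snd ℝ W₁ W₂)).hasFDerivAt.const_add _
      have h3 : HasFDerivAt (fun z => e₂ (ψ (s, e₁.symm z))) A₀ (e₁ x₀ + (q.1 : V)) := by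
        rw [hq1]; exact hA₀
      have h4 := (h3.comp q h1).sub h2
      rw [hG]
      exact h4
    rw [hG'.fderiv] at hs
    subst hxy
    apply span_tr he he₂ hye hys
    apply span_of_surj hφ he₁ he₂ hW₁ hW₂ hxs hxF hys hyN hA₀
    intro v
    obtain ⟨w, hw⟩ := hs v
    refine ⟨(w.1 : V), w.1.2, (w.2 : V), w.2.2, ?_⟩
    rw [← hw]
    rfl

/-- the bad parameters near `0` are a null set -/
theorem null_of_compact (hSARD : S_SARD.{u}) [FiniteDimensional ℝ V] {n k : ℕ} {F N : Set M}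
    (hn : 2 * n = Module.finrank ℝ V) (hF : IsSubmfd V n F) (hN : IsSubmfd V n N)
    (hFc : IsCompact F) (hNc : IsCompact N)
    {ψ : EuclideanSpace ℝ (Fin k) × M → M}
    (hψ : ContMDiff (𝓘(ℝ, EuclideanSpace ℝ (Fin k)).prod 𝓘(ℝ, V)) 𝓘(ℝ, V) ∞ ψ)
    (hψ0 : ∀ x, ψ (0, x) = x)
    (hsur : ∀ x ∈ F, Function.Surjective
        (mfderiv 𝓘(ℝ, EuclideanSpace ℝ (Fin k)) 𝓘(ℝ, V) (fun s => ψ (s, x)) 0)) :
    ∃ O ∈ 𝓝 (0 : EuclideanSpace ℝ (Fin k)), (volume : Measure (EuclideanSpace ℝ (Fin k)))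
        {s ∈ O | ∃ x ∈ F, ψ (s, x) ∈ N ∧
          Bad (V := V) ((fun x => ψ (s, x)) '' F) N (ψ (s, x))} = 0 := by
  obtain ⟨p, hp⟩ : ∃ p : Set (M × M) → Prop, p = fun S =>
    ∃ O ∈ 𝓝 (0 : EuclideanSpace ℝ (Fin k)), (volume : Measure (EuclideanSpace ℝ (Fin k)))
      {s ∈ O | ∃ z ∈ S, z.1 ∈ F ∧ z.2 ∈ N ∧ ψ (s, z.1) = z.2 ∧
        Bad (V := V) ((fun x => ψ (s, x)) '' F) N z.2} = 0 := ⟨_, rfl⟩
  have hmain : p (F ×ˢ N) := by
    refine (hFc.prod hNc).induction_on (p := p) ?_ ?_ ?_ ?_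
    · rw [hp]
      refine ⟨univ, univ_mem, ?_⟩
      apply measure_mono_null _ measure_empty
      rintro s ⟨-, z, hz, -⟩
      exact hz.elim
    · intro S T hST hT
      rw [hp] at hT ⊢
      obtain ⟨O, hO, h0⟩ := hT
      refine ⟨O, hO, measure_mono_null ?_ h0⟩
      rintro s ⟨h1, z, hz, h2⟩
      exact ⟨h1, z, hST hz, h2⟩
    · intro S T hS hT
      rw [hp] at hS hT ⊢
      obtain ⟨O, hO, h0⟩ := hS
      obtain ⟨O', hO', h0'⟩ := hT
      refine ⟨O ∩ O', Filter.inter_mem hO hO', measure_mono_null ?_ (measure_union_null h0 h0')⟩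
      rintro s ⟨⟨h1, h1'⟩, z, hz | hz, h2⟩
      · exact Or.inl ⟨h1, z, hz, h2⟩
      · exact Or.inr ⟨h1', z, hz, h2⟩
    · rintro ⟨x₀, y₀⟩ ⟨hx₀, hy₀⟩
      by_cases hxy : x₀ = y₀
      · subst hxy
        obtain ⟨O, hO, U, hU, U', hU', h0⟩ := local_eq hSARD hn hF hN hψ hψ0 hx₀ hy₀ (hsur x₀ hx₀)
        refine ⟨U ×ˢ U', mem_nhdsWithin_of_mem_nhds (prod_mem_nhds hU hU'), ?_⟩
        rw [hp]
        refine ⟨O, hO, measure_mono_null ?_ h0⟩
        rintro s ⟨h1, z, hz, h2⟩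
        exact ⟨h1, z.1, hz.1, z.2, hz.2, h2⟩
      · -- different points
        have hc : ContinuousAt (fun w : EuclideanSpace ℝ (Fin k) × (M × M) =>
            (ψ (w.1, w.2.1), w.2.2)) (0, (x₀, y₀)) := by
          have h1 : Continuous (fun w : EuclideanSpace ℝ (Fin k) × (M × M) =>
              (ψ (w.1, w.2.1), w.2.2)) :=
            (hψ.continuous.comp (continuous_fst.prodMk (continuous_fst.comp continuous_snd))).prodMk
              (continuous_snd.comp continuous_snd)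
          exact h1.continuousAt
        have hne : ∀ᶠ w : EuclideanSpace ℝ (Fin k) × (M × M) in 𝓝 (0, (x₀, y₀)),
            ψ (w.1, w.2.1) ≠ w.2.2 := by
          have h2 : {q : M × M | q.1 ≠ q.2} ∈ 𝓝 ((x₀, y₀) : M × M) := by
            apply IsOpen.mem_nhds _ hxy
            exact isOpen_ne_fun continuous_fst continuous_snd
          have h3 : {q : M × M | q.1 ≠ q.2} ∈
              𝓝 ((fun w : EuclideanSpace ℝ (Fin k) × (M × M) =>
                (ψ (w.1, w.2.1), w.2.2)) (0, (x₀, y₀))) := by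
            show _ ∈ 𝓝 (ψ (0, x₀), y₀)
            rw [hψ0]
            exact h2
          exact hc h3
        rw [nhds_prod_eq, Filter.eventually_prod_iff] at hne
        obtain ⟨pa, hpa, pb, hpb, hh⟩ := hne
        refine ⟨{q | pb q}, mem_nhdsWithin_of_mem_nhds hpb, ?_⟩
        rw [hp]
        refine ⟨{s | pa s}, hpa, ?_⟩
        apply measure_mono_null _ measure_empty
        rintro s ⟨h1, z, hz, h2, h3, h4, h5⟩
        exact absurd h4 (hh h1 hz)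
  rw [hp] at hmain
  obtain ⟨O, hO, h0⟩ := hmain
  refine ⟨O, hO, measure_mono_null ?_ h0⟩
  rintro s ⟨h1, x, hx, hxN, hb⟩
  exact ⟨h1, (x, ψ (s, x)), ⟨hx, hxN⟩, hx, hxN, rfl, hb⟩

end PTRANS1

open PTRANS1 in
theorem t_TRANS1 (hSPAN : S_SPAN.{u, v}) (hHAMF : S_HAMF.{u, v}) (hSARD : S_SARD.{u}) :
    S_TRANS1.{u, v} := by
  intro V _ _ _ M _ _ _ A n k F N hn hFc hF hNc hN ε hε
  obtain ⟨m, h, hh, ⟨K, hK, hK0⟩, hspan⟩ := hSPAN V M F hFc
  obtain ⟨ψ, hψ, hψ0, hψi, hsur, hham⟩ := hHAMF V M A m h K hh hK hK0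
  have hloc : ∀ i, ∃ O ∈ 𝓝 (0 : EuclideanSpace ℝ (Fin m)),
      (volume : Measure (EuclideanSpace ℝ (Fin m)))
        {s ∈ O | ∃ x ∈ F, ψ (s, x) ∈ N i ∧
          Bad (V := V) ((fun x => ψ (s, x)) '' F) (N i) (ψ (s, x))} = 0 := fun i =>
    null_of_compact hSARD hn hF (hN i) hFc (hNc i) hψ hψ0 (fun x hx => hsur x (hspan x hx))
  choose O hO hnull using hloc
  obtain ⟨δ, hδ, hsmall⟩ := hham ε hε
  obtain ⟨Z, hZ⟩ : ∃ Z : Set (EuclideanSpace ℝ (Fin m)), Z = ⋃ i, {s ∈ O i | ∃ x ∈ F,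
    ψ (s, x) ∈ N i ∧ Bad (V := V) ((fun x => ψ (s, x)) '' F) (N i) (ψ (s, x))} := ⟨_, rfl⟩
  have hZ0 : (volume : Measure (EuclideanSpace ℝ (Fin m))) Z = 0 := by
    rw [hZ]; exact measure_iUnion_null hnull
  have hB : (⋂ i, O i) ∩ ball 0 δ ∈ 𝓝 (0 : EuclideanSpace ℝ (Fin m)) :=
    Filter.inter_mem (Filter.iInter_mem.2 hO) (ball_mem_nhds _ hδ)
  have hex : ∃ s ∈ (⋂ i, O i) ∩ ball (0 : EuclideanSpace ℝ (Fin m)) δ, s ∉ Z := by
    by_contra hc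
    push Not at hc
    have h1 : (volume : Measure (EuclideanSpace ℝ (Fin m))) ((⋂ i, O i) ∩ ball 0 δ) = 0 :=
      measure_mono_null (fun s hs => hc s hs) hZ0
    exact (Measure.measure_pos_of_mem_nhds _ hB).ne' h1
  obtain ⟨s, ⟨hsO, hsδ⟩, hsZ⟩ := hex
  obtain ⟨ψi, hψi1, hψi2, hψi3⟩ := hψi s
  have hφ : ContMDiff 𝓘(ℝ, V) 𝓘(ℝ, V) ∞ (fun x => ψ (s, x)) :=
    hψ.comp (contMDiff_const.prodMk contMDiff_id)
  refine ⟨fun x => ψ (s, x), ψi, hφ, hψi1, hψi2, hψi3, hsmall s (by simpa using hsδ), ?_⟩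
  intro i e he y hy hye
  obtain ⟨⟨x, hx, rfl⟩, hyN⟩ := hy
  by_contra hc
  apply hsZ
  rw [hZ, mem_iUnion]
  exact ⟨i, mem_iInter.1 hsO i, x, hx, hyN, fun hall => hc (hall e he hye)⟩

end Pool.Agent.H823.HC
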