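import Pool.Agent.H823.HC.P_POLAR
import Pool.Agent.H823.HC.P_POLD
import Pool.Agent.H823.HC.P_POLH
import Pool.Agent.H823.HC.P_RAY
import Pool.Agent.H823.HC.P_EXIT
import Pool.Agent.H823.HC.P_INT
import Pool.Agent.H823.HC.P_BD
import Pool.Agent.H823.HC.P_FIN
import Pool.Agent.H823.HC.P_TANV
import Pool.Agent.H823.HC.P_LOC
import Pool.Agent.H823.HC.P_HESS
import Pool.Agent.H823.HC.P_SECT
import Pool.Agent.H823.HC.P_CONT
import Pool.Agent.H823.HC.P_PRIM
import Pool.Agent.H823.HC.P_GREENH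
import Pool.Agent.H823.HC.P_GREEND
import Pool.Agent.H823.HC.P_PULL
import Pool.Agent.H823.HC.P_ISOVH
import Pool.Agent.H823.HC.P_ISOVD
import Pool.Agent.H823.HC.P_SARD
import Pool.Agent.H823.HC.P_LEN
import Pool.Agent.H823.HC.P_DIST
import Pool.Agent.H823.HC.P_PROPER
import Pool.Agent.H823.HC.P_TENS
import Pool.Agent.H823.HC.P_PIECE
import Pool.Agent.H823.HC.P_HOLB
import Pool.Agent.H823.HC.P_RESTR
import Pool.Agent.H823.HC.P_LENU
import Pool.Agent.H823.HC.P_ISOMD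
import Pool.Agent.H823.HC.P_CAY
import Pool.Agent.H823.HC.P_PULLU
import Pool.Agent.H823.HC.P_ARCS
import Pool.Agent.H823.HC.P_COMP
import Pool.Agent.H823.HC.P_SPAN
import Pool.Agent.H823.HC.P_IMG
import Pool.Agent.H823.HC.P_TRANS
import Pool.Agent.H823.HC.P_TOP
import Pool.Agent.H823.HC.P_SELECT
import Pool.Agent.H823.HC.P_LIFT
import Pool.Agent.H823.HC.P_ISOMH
import Pool.Agent.H823.HC.P_HAMF
import Pool.Agent.H823.HC.P_TRANS1
import Pool.Agent.H823.HC.P_ACC
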