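import Mathlib
import Pool.Agent.H823.HC.StmM

/-! # Project HC: assembly, part 1: the half-plane theorem on the manifold -/

open scoped Topology ContDiff Manifold
open Set Metric Filter MeasureTheory

noncomputable section

namespace Pool.Agent.H823.HC

universe u v w

/-- The half-plane theorem for `J`-holomorphic maps with boundary on a Lagrangian with bounded
second fundamental form. -/
def S_HPM : Prop := ∀ (V : Type u) [NormedAddCommGroup V] [InnerProductSpace ℝ V]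
  [FiniteDimensional ℝ V] (M : Type v) [MetricSpace M] [ChartedSpace V M]
  [IsManifold 𝓘(ℝ, V) ∞ M] (A : AlmostKahler V M), A.BoundedGeometry → ∀ Lam : ℝ, 0 ≤ Lam →
  ∃ c₀ > 0, ∃ C₂ > 0, ∀ L : Set M, A.IsLagr L → A.SFFBound L Lam → ∀ (v : ℂ → M),
    UniformContinuousOn v UHc → ContMDiffOn 𝓘(ℝ, ℂ) 𝓘(ℝ, V) ∞ v Dom →
    (∀ z ∈ UH, ∀ h : ℂ, mfderiv 𝓘(ℝ, ℂ) 𝓘(ℝ, V) v z (Complex.I * h) =
      A.J (v z) (mfderiv 𝓘(ℝ, ℂ) 𝓘(ℝ, V) v z h)) →
    (∀ x : ℝ, x < 0 → v x ∈ L) →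
    IntegrableOn (fun z => A.om (v z) (mfderiv 𝓘(ℝ, ℂ) 𝓘(ℝ, V) v z (1:ℂ))
      (mfderiv 𝓘(ℝ, ℂ) 𝓘(ℝ, V) v z Complex.I)) UH →
    ∫ z in UH, A.om (v z) (mfderiv 𝓘(ℝ, ℂ) 𝓘(ℝ, V) v z (1:ℂ))
      (mfderiv 𝓘(ℝ, ℂ) 𝓘(ℝ, V) v z Complex.I) ≤ c₀ →
    ∀ x : ℝ, x < 0 → ∃ y : ℝ, 0 ≤ y ∧ dist (v x) (v y) ≤ C₂ *
      √(∫ z in UH, A.om (v z) (mfderiv 𝓘(ℝ, ℂ) 𝓘(ℝ, V) v z (1:ℂ))
        (mfderiv 𝓘(ℝ, ℂ) 𝓘(ℝ, V) v z Complex.I))

lemma Hc_subset_Dom {m ρ : ℝ} (h : m + ρ < 0) : Hc m ρ ⊆ Dom := by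
  rintro z ⟨hz1, hz2⟩
  rcases hz2.lt_or_eq with h2 | h2
  · exact Or.inl h2
  · refine Or.inr ⟨h2.symm, ?_⟩
    have h3 : |(z - m).re| ≤ ‖z - m‖ := Complex.abs_re_le_norm _
    simp only [Complex.sub_re, Complex.ofReal_re] at h3
    linarith [abs_le.1 (h3.trans hz1)]

lemma UH_subset_Dom : UH ⊆ Dom := fun _ hz => Or.inl hz

lemma convex_Hc (m ρ : ℝ) : Convex ℝ (Hc m ρ) := by
  have h1 : Hc m ρ = closedBall (m : ℂ) ρ ∩ {z : ℂ | 0 ≤ z.im} := by
    ext z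
    simp [Hc, mem_closedBall, dist_eq_norm]
  rw [h1]
  exact (convex_closedBall _ _).inter (convex_halfSpace_im_ge 0)

lemma interior_Hc_nonempty (m : ℝ) {ρ : ℝ} (h : 0 < ρ) : (interior (Hc m ρ)).Nonempty := by
  have h1 : ball (m : ℂ) ρ ∩ {z : ℂ | 0 < z.im} ⊆ Hc m ρ := by
    rintro z ⟨h1, h2⟩
    refine ⟨?_, le_of_lt h2⟩
    rw [mem_ball, dist_eq_norm] at h1
    exact h1.le
  have h2 : IsOpen (ball (m : ℂ) ρ ∩ {z : ℂ | 0 < z.im}) :=
    isOpen_ball.inter (isOpen_lt continuous_const Complex.continuous_im)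
  refine ⟨(m : ℂ) + (ρ / 2 : ℝ) * Complex.I, interior_maximal h1 h2 ⟨?_, ?_⟩⟩
  · rw [mem_ball, dist_eq_norm]
    simp only [add_sub_cancel_left, norm_mul, Complex.norm_I, mul_one, Complex.norm_real,
      Real.norm_eq_abs]
    rw [abs_of_pos (by linarith)]
    linarith
  · simp only [mem_ofPred_eq, Complex.add_im, Complex.ofReal_im, Complex.mul_im, Complex.ofReal_re,
      Complex.I_im, mul_one, Complex.I_re, mul_zero]
    linarith

lemma measurableSet_UH : MeasurableSet UH :=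
  (isOpen_lt continuous_const Complex.continuous_im).measurableSet

lemma circ_norm (s : ℝ) : ‖circ s‖ = 1 := Complex.norm_exp_ofReal_mul_I s

lemma circ_im (s : ℝ) : (circ s).im = Real.sin s := by
  unfold circ
  rw [Complex.exp_ofReal_mul_I_im]

lemma circ_re (s : ℝ) : (circ s).re = Real.cos s := by
  unfold circ
  rw [Complex.exp_ofReal_mul_I_re]

lemma cz_pos {κ C₁ : ℝ} (hκ : 0 < κ) (hC : 1 ≤ C₁) : 0 < cz κ C₁ := by
  unfold cz
  have : 0 < √C₁ := Real.sqrt_pos.2 (by linarith)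
  refine lt_min ?_ ?_ <;> positivity

lemma Hc_isCompact (m ρ : ℝ) : IsCompact (Hc m ρ) := by
  have h1 : Hc m ρ = closedBall (m : ℂ) ρ ∩ {z : ℂ | 0 ≤ z.im} := by
    ext z
    simp [Hc, mem_closedBall, dist_eq_norm]
  rw [h1]
  exact (isCompact_closedBall _ _).inter_right (isClosed_le continuous_const Complex.continuous_im)

theorem t_HPM (hFIN : S_FIN.{v}) (hHOLB : S_HOLB.{u, v}) (hRESTR : S_RESTR.{u, v})
    (hLENU : S_LENU.{u, v}) (hISOMH : S_ISOMH.{u, v}) (hISOMD : S_ISOMD.{u, v}) :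
    S_HPM.{u, v} := by
  intro V _ _ _ M _ _ _ A hA Lam hLam
  obtain ⟨κ₁, hκ₁, C₁, hC₁, h1⟩ := hISOMH V M A hA Lam hLam
  obtain ⟨κ₂, hκ₂, C₂, hC₂, h2⟩ := hISOMD V M A hA
  set κ := min κ₁ κ₂ with hκdef
  set C := max C₁ C₂ with hCdef
  have hκ : 0 < κ := lt_min hκ₁ hκ₂
  have hC : 1 ≤ C := le_max_of_le_left hC₁
  refine ⟨cz κ C, cz_pos hκ hC, 23 * √C, by positivity, ?_⟩
  intro L hL hLs v hvu hvs hvh hvL hvi hve
  obtain ⟨hHol, hcont, hsq⟩ := hHOLB V M A v hvs hvh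
  have hint : IntegrableOn (fun z => A.sp Dom v z ^ 2) UH := by
    refine hvi.congr_fun ?_ measurableSet_UH
    intro z hz
    exact (hsq z hz).symm
  have heq : ∫ z in UH, A.sp Dom v z ^ 2 = ∫ z in UH, A.om (v z)
      (mfderiv 𝓘(ℝ, ℂ) 𝓘(ℝ, V) v z (1:ℂ)) (mfderiv 𝓘(ℝ, ℂ) 𝓘(ℝ, V) v z Complex.I) :=
    setIntegral_congr_fun measurableSet_UH fun z hz => hsq z hz
  have hHP : HP v (A.sp Dom v) κ C (∫ z in UH, A.sp Dom v z ^ 2) := by
    refine ⟨hvu, hcont, fun z => Real.sqrt_nonneg _, hint, le_rfl, ?_, ?_, ?_⟩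
    · intro γ hγ a b hab hγD
      exact hLENU V M A v hHol γ hγ a b hab hγD
    · intro z s hs hzs hd
      have hsub : closedBall z s ⊆ Dom := hzs.trans UH_subset_Dom
      obtain ⟨h3, h4⟩ := hRESTR V M A v hHol (closedBall z s) hsub (convex_closedBall _ _)
        ⟨z, mem_interior_iff_mem_nhds.2 (closedBall_mem_nhds z hs)⟩
      have h5 := h2 v z s hs h3 (fun w hw => (hd w hw).trans_le (min_le_right _ _))
      have h6 : ∫ w in closedBall z s, A.sp (closedBall z s) v w ^ 2 =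
          ∫ w in closedBall z s, A.sp Dom v w ^ 2 := by
        refine setIntegral_congr_fun measurableSet_closedBall ?_
        intro w hw
        simp only [h4 w hw]
      have h7 : ∫ θ in (0:ℝ)..(2 * Real.pi), A.sp (closedBall z s) v (z + s * circ θ) * s =
          ∫ θ in (0:ℝ)..(2 * Real.pi), A.sp Dom v (z + s * circ θ) * s := by
        refine intervalIntegral.integral_congr ?_
        intro θ _
        simp only
        rw [h4]
        rw [mem_closedBall, dist_eq_norm, add_sub_cancel_left, norm_mul, circ_norm, mul_one,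
          Complex.norm_real, Real.norm_eq_abs, abs_of_pos hs]
      rw [h6, h7] at h5
      exact h5.trans (mul_le_mul_of_nonneg_right (le_max_right _ _) (sq_nonneg _))
    · intro m ρ hρ hm hd
      have hsub : Hc m ρ ⊆ Dom := Hc_subset_Dom hm
      obtain ⟨h3, h4⟩ := hRESTR V M A v hHol (Hc m ρ) hsub (convex_Hc _ _)
        (interior_Hc_nonempty m hρ)
      have h5 := h1 L hL hLs v m ρ hρ h3
        (fun x hx => hvL x (by linarith [hx.2]))
        (fun w hw => (hd w hw).trans_le (min_le_left _ _))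
      have h6 : ∫ w in Hc m ρ, A.sp (Hc m ρ) v w ^ 2 = ∫ w in Hc m ρ, A.sp Dom v w ^ 2 := by
        refine setIntegral_congr_fun (Hc_isCompact m ρ).measurableSet ?_
        intro w hw
        simp only [h4 w hw]
      have h7 : ∫ θ in (0:ℝ)..Real.pi, A.sp (Hc m ρ) v (m + ρ * circ θ) * ρ =
          ∫ θ in (0:ℝ)..Real.pi, A.sp Dom v (m + ρ * circ θ) * ρ := by
        refine intervalIntegral.integral_congr ?_
        intro θ hθ
        rw [uIcc_of_le Real.pi_pos.le] at hθ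
        simp only
        rw [h4]
        refine ⟨?_, ?_⟩
        · rw [add_sub_cancel_left, norm_mul, circ_norm, mul_one,
            Complex.norm_real, Real.norm_eq_abs, abs_of_pos hρ]
        · have : ((m:ℂ) + ρ * circ θ).im = ρ * Real.sin θ := by
            simp [Complex.add_im, Complex.mul_im, circ_im]
          rw [this]
          exact mul_nonneg hρ.le (Real.sin_nonneg_of_nonneg_of_le_pi hθ.1 hθ.2)
      rw [h6, h7] at h5
      exact h5.trans (mul_le_mul_of_nonneg_right (le_max_left _ _) (sq_nonneg _))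
  intro x hx
  obtain ⟨y, hy, hxy⟩ := hFIN M v (A.sp Dom v) κ C _ hκ hC hHP (by rw [heq]; exact hve) x hx
  refine ⟨y, hy, ?_⟩
  rw [heq] at hxy
  exact hxy

end Pool.Agent.H823.HC
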