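import Mathlib
import Pool.Agent.H823.HC.Asm1

/-! # Project HC: assembly, part 2: polygons, and the Hausdorff convergence -/

open scoped Topology ContDiff Manifold
open Set Metric Filter MeasureTheory

noncomputable section

namespace Pool.Agent.H823.HC

universe u v w

/-- Monotonicity without tameness: a polygon with one boundary arc on a Lagrangian `L` with bounded
second fundamental form and small area stays close to the other Lagrangians along this arc. -/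
def S_MONO : Prop := ∀ (V : Type u) [NormedAddCommGroup V] [InnerProductSpace ℝ V]
  [FiniteDimensional ℝ V] (M : Type v) [MetricSpace M] [ChartedSpace V M]
  [IsManifold 𝓘(ℝ, V) ∞ M] (A : AlmostKahler V M), A.BoundedGeometry → ∀ Lam : ℝ, 0 ≤ Lam →
  ∃ c₀ > 0, ∃ C₂ > 0, ∀ L : Set M, A.IsLagr L → A.SFFBound L Lam →
  ∀ (k : ℕ) (G : Fin (k + 2) → Set M) (j : Fin (k + 2)) (x : M) (u : ℂ → M), G j = L →
    (∀ i, IsClosed (G i)) → A.PolygonThrough G j x u → A.area u ≤ c₀ →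
    ∃ i, i ≠ j ∧ ∃ y ∈ G i, dist x y ≤ C₂ * √(A.area u)

lemma circ_add_two_pi (s : ℝ) : circ (s + 2 * Real.pi) = circ s := by
  unfold circ
  have : ((s + 2 * Real.pi : ℝ) : ℂ) * Complex.I = s * Complex.I + 2 * Real.pi * Complex.I := by
    push_cast; ring
  rw [this, Complex.exp_add, Complex.exp_two_pi_mul_I, mul_one]

theorem t_MONO (hHPM : S_HPM.{u, v}) (hPULLU : S_PULLU.{u, v}) (hARCS : S_ARCS.{u, v}) :
    S_MONO.{u, v} := by
  intro V _ _ _ M _ _ _ A hA Lam hLam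
  obtain ⟨c₀, hc₀, C₂, hC₂, h⟩ := hHPM V M A hA Lam hLam
  refine ⟨c₀, hc₀, C₂, hC₂, ?_⟩
  rintro L hL hLs k G j x u hGj hGc ⟨m, t, lab, hlab0, hlab, hpoly, s, hs, hsx⟩ harea
  obtain ⟨v, hvu, hvs, hvh, hv0, hvarc, hvcomp, hvi, hve⟩ := hPULLU V M A m t _ u hpoly
  have hL0 : ∀ x : ℝ, x < 0 → v x ∈ L := by
    intro x hx
    have := hv0 x hx
    rw [hlab0, hGj] at this
    exact this
  have hT1 : t 1 ≤ t 0 + 2 * Real.pi := by
    rw [← hpoly.turn]
    exact hpoly.mono.monotone (Fin.le_last _)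
  have hT0 : t 0 ≤ t 1 := hpoly.mono.monotone (by simp)
  -- the point on the complementary arc
  obtain ⟨s', hs', hdist⟩ : ∃ s' ∈ Icc (t 1) (t 0 + 2 * Real.pi),
      dist (u (circ s)) (u (circ s')) ≤ C₂ * √(A.area u) := by
    have hnn : 0 ≤ C₂ * √(A.area u) := by positivity
    rcases eq_or_ne s (t 0) with rfl | hs0
    · exact ⟨t 0 + 2 * Real.pi, ⟨hT1, le_rfl⟩, by rw [circ_add_two_pi, dist_self]; exact hnn⟩
    rcases eq_or_ne s (t 1) with rfl | hs1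
    · exact ⟨t 1, ⟨le_rfl, hT1⟩, by rw [dist_self]; exact hnn⟩
    obtain ⟨a, ha, hva⟩ := hvarc s ⟨lt_of_le_of_ne hs.1 (Ne.symm hs0), lt_of_le_of_ne hs.2 hs1⟩
    obtain ⟨y, hy, hxy⟩ := h L hL hLs v hvu hvs hvh hL0 hvi (by rw [hve]; exact harea) a ha
    obtain ⟨s', hs', hvy⟩ := hvcomp y hy
    refine ⟨s', hs', ?_⟩
    rw [hve, hva, hvy] at hxy
    exact hxy
  obtain ⟨i, hi, hui⟩ := hARCS V M A m t _ u hpoly (fun i => hGc _) s' hs'
  exact ⟨lab i, hlab i hi, u (circ s'), hui, by rw [← hsx]; exact hdist⟩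

/-- The key estimate: all the points of `L` (resp. `L'`) are close to `L' ∪ ⋃ 𝓕` (resp.
`L ∪ ⋃ 𝓕`). -/
def S_KEY : Prop := ∀ (V : Type u) [NormedAddCommGroup V] [InnerProductSpace ℝ V]
  [FiniteDimensional ℝ V] (M : Type v) [MetricSpace M] [ChartedSpace V M]
  [IsManifold 𝓘(ℝ, V) ∞ M] (A : AlmostKahler V M), A.BoundedGeometry → ∀ Lam : ℝ, 0 ≤ Lam →
  ∃ c₀ > 0, ∃ C₂ > 0, ∀ (𝓛 𝓕 : Set (Set M)) (d : Set M → Set M → ℝ), (∀ L ∈ 𝓛, A.IsLagr L) →
    𝓕 ⊆ 𝓛 → A.JAdapted 𝓛 𝓕 d → ∀ L ∈ 𝓛, ∀ L' ∈ 𝓛, d L L' < c₀ →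
    (A.SFFBound L Lam → ∀ x ∈ L, infDist x (L' ∪ ⋃₀ 𝓕) ≤ C₂ * √(d L L')) ∧
    (A.SFFBound L' Lam → ∀ x ∈ L', infDist x (L ∪ ⋃₀ 𝓕) ≤ C₂ * √(d L L'))

theorem t_KEY (hMONO : S_MONO.{u, v}) (hTRANS : S_TRANS.{u, v}) : S_KEY.{u, v} := by
  intro V _ _ _ M _ _ _ A hA Lam hLam
  obtain ⟨c₀, hc₀, C₂, hC₂, h⟩ := hMONO V M A hA Lam hLam
  refine ⟨c₀, hc₀, C₂, hC₂, ?_⟩
  intro 𝓛 𝓕 d h𝓛 h𝓕 hJ L hL L' hL' hd
  -- the general statement
  have key : ∀ δ > 0, d L L' + δ ≤ c₀ → ∀ η > 0, ∀ b : Bool,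
      A.SFFBound (if b then L else L') Lam → ∀ x ∈ (if b then L else L'),
      ∃ y ∈ ((if b then L' else L) ∪ ⋃₀ 𝓕), dist x y ≤ C₂ * √(d L L' + δ) + η := by
    intro δ hδ hδc η hη b hb x hx
    obtain ⟨k, F, hF, ε, hε, hJ1⟩ := hJ δ hδ L hL L' hL'
    set G₀ : Fin (k + 2) → Set M := Fin.cons L (Fin.cons L' F) with hG₀
    have hG0 : G₀ 0 = L := rfl
    have hG1 : G₀ 1 = L' := rfl
    have hG2 : ∀ i : Fin k, G₀ i.succ.succ = F i := fun i => rfl
    have hmem : ∀ i, G₀ i ∈ 𝓛 := by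
      intro i
      refine Fin.cases hL (fun i => ?_) i
      refine Fin.cases hL' (fun i => ?_) i
      exact h𝓕 (hF i)
    obtain ⟨n, hn, -⟩ := (h𝓛 L hL).submfd
    have hsub : ∀ i, IsSubmfd V n (G₀ i) := by
      intro i
      obtain ⟨n', hn', hn2⟩ := (h𝓛 _ (hmem i)).submfd
      have : n' = n := by omega
      rwa [this] at hn2
    set j₀ : Fin (k + 2) := if b then 0 else 1 with hj₀
    have hGj : G₀ j₀ = (if b then L else L') := by
      cases b <;> simp [hj₀, hG0, hG1]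
    have hother : ∀ i, i ≠ j₀ → G₀ i ⊆ (if b then L' else L) ∪ ⋃₀ 𝓕 := by
      intro i hi
      cases b
      · simp only [hj₀, Bool.false_eq_true, if_false] at hi ⊢
        revert hi
        refine Fin.cases ?_ (fun i => ?_) i
        · intro _
          rw [hG0]; exact subset_union_left
        · refine Fin.cases ?_ (fun i => ?_) i
          · intro hi
            exact absurd rfl hi
          · intro _
            rw [hG2]
            exact (subset_sUnion_of_mem (hF i)).trans subset_union_right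
      · simp only [hj₀, if_true] at hi ⊢
        revert hi
        refine Fin.cases ?_ (fun i => ?_) i
        · intro hi
          exact absurd rfl hi
        · refine Fin.cases ?_ (fun i => ?_) i
          · intro _
            show G₀ 1 ⊆ _
            rw [hG1]; exact subset_union_left
          · intro _
            rw [hG2]
            exact (subset_sUnion_of_mem (hF i)).trans subset_union_right
    obtain ⟨Φ, hΦ0, hΦs, hΦc, hΦt⟩ := hTRANS V M A n (k + 2) G₀ j₀ hn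
      (fun i => (h𝓛 _ (hmem i)).compact) hsub (min ε η) (lt_min hε hη)
    have hsmall : ∀ i, A.HamSmall (Φ i) ε := by
      intro i
      obtain ⟨H, ψ, h1, h2, h3, h4, h5, h6, h7, h8⟩ := hΦs i
      exact ⟨H, ψ, h1, h2, h3, h4, h5, h6, h7.trans_le (min_le_left _ _),
        fun x => (h8 x).trans_le (min_le_left _ _)⟩
    have hclose : ∀ i x, dist (Φ i x) x < η := by
      intro i x
      obtain ⟨H, ψ, h1, h2, h3, h4, h5, h6, h7, h8⟩ := hΦs i
      exact (h8 x).trans_le (min_le_right _ _)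
    have hGjx : Φ j₀ '' G₀ j₀ = (if b then L else L') := by
      rw [hΦ0, image_id, hGj]
    have hj01 : j₀ = 0 ∨ j₀ = 1 := by
      cases b <;> simp [hj₀]
    obtain ⟨u, hu1, -, hu3⟩ := hJ1 Φ hsmall (fun i => Φ i '' G₀ i) (fun i => rfl) hΦt j₀ hj01 x
      (by rw [hGjx]; exact hx)
    have hLagr : A.IsLagr (if b then L else L') := by
      cases b
      · exact h𝓛 _ hL'
      · exact h𝓛 _ hL
    obtain ⟨i, hi, y, hy, hxy⟩ := h _ hLagr hb k (fun i => Φ i '' G₀ i) j₀ x u hGjx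
      (fun i => ((h𝓛 _ (hmem i)).compact.image (hΦc i)).isClosed) hu1 (hu3.trans hδc)
    obtain ⟨y₀, hy₀, rfl⟩ := hy
    refine ⟨y₀, hother i hi hy₀, ?_⟩
    calc dist x y₀ ≤ dist x (Φ i y₀) + dist (Φ i y₀) y₀ := dist_triangle _ _ _
      _ ≤ C₂ * √(d L L' + δ) + η := by
        refine add_le_add (hxy.trans ?_) (hclose i y₀).le
        exact mul_le_mul_of_nonneg_left (Real.sqrt_le_sqrt hu3) hC₂.le
  -- pass to the limit
  have key2 : ∀ b : Bool, A.SFFBound (if b then L else L') Lam → ∀ x ∈ (if b then L else L'),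
      infDist x ((if b then L' else L) ∪ ⋃₀ 𝓕) ≤ C₂ * √(d L L') := by
    intro b hb x hx
    have h1 : ∀ᶠ δ in 𝓝[>] (0:ℝ), infDist x ((if b then L' else L) ∪ ⋃₀ 𝓕) ≤
        C₂ * √(d L L' + δ) + δ := by
      filter_upwards [Ioo_mem_nhdsGT (sub_pos.2 hd)] with δ hδ
      obtain ⟨y, hy, hxy⟩ := key δ hδ.1 (by linarith [hδ.2]) δ hδ.1 b hb x hx
      exact (infDist_le_dist_of_mem hy).trans hxy
    have h2 : Tendsto (fun δ : ℝ => C₂ * √(d L L' + δ) + δ) (𝓝[>] 0)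
        (𝓝 (C₂ * √(d L L' + 0) + 0)) := by
      refine Tendsto.mono_left ?_ nhdsWithin_le_nhds
      exact Continuous.tendsto (by fun_prop) 0
    rw [add_zero, add_zero] at h2
    exact ge_of_tendsto h2 h1
  exact ⟨fun hb x hx => by simpa using key2 true (by simpa using hb) x (by simpa using hx),
    fun hb x hx => by simpa using key2 false (by simpa using hb) x (by simpa using hx)⟩

/-- **Cornea's question**, in all dimensions: Hausdorff convergence of Lagrangians with uniformly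
bounded second fundamental forms under `J`-adapted metrics. -/
def S_MAIN : Prop := ∀ (V : Type u) [NormedAddCommGroup V] [InnerProductSpace ℝ V]
  [FiniteDimensional ℝ V] [Nontrivial V] (M : Type v) [MetricSpace M] [ChartedSpace V M]
  [IsManifold 𝓘(ℝ, V) ∞ M] (A : AlmostKahler V M), A.BoundedGeometry →
  ∀ (𝓛 𝓕 𝓕' : Set (Set M)) (d d' : Set M → Set M → ℝ), (∀ L ∈ 𝓛, A.IsLagr L) → 𝓕 ⊆ 𝓛 →
  𝓕' ⊆ 𝓛 → DiscreteTopology ↥(closure (⋃₀ 𝓕) ∩ closure (⋃₀ 𝓕')) →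
  IsPseudometricOn 𝓛 d → IsPseudometricOn 𝓛 d' → A.JAdapted 𝓛 𝓕 d → A.JAdapted 𝓛 𝓕' d' →
  ∀ (Lam : ℝ) (L : ℕ → Set M) (L₀ : Set M), (∀ n, L n ∈ 𝓛 ∧ A.SFFBound (L n) Lam) →
  L₀ ∈ 𝓛 ∧ A.SFFBound L₀ Lam → Tendsto (fun n => max (d (L n) L₀) (d' (L n) L₀)) atTop (𝓝 0) →
  Tendsto (fun n => hausdorffDist (L n) L₀) atTop (𝓝 0)

lemma SFFBound_mono {V : Type u} [NormedAddCommGroup V] [InnerProductSpace ℝ V]
    {M : Type v} [MetricSpace M] [ChartedSpace V M] {A : AlmostKahler V M} {L : Set M}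
    {a b : ℝ} (hab : a ≤ b) (h : A.SFFBound L a) : A.SFFBound L b := by
  intro e he c hc hce ξ hξ
  refine (h e he c hc hce ξ hξ).trans ?_
  have h1 : ∀ x v, 0 ≤ A.gC e x v v := by
    intro x v
    unfold AlmostKahler.gC
    rcases eq_or_ne (frame e x v) 0 with h0 | h0
    · rw [h0]; simp
    · exact (A.pos _ _ h0).le
  exact mul_le_mul_of_nonneg_right (mul_le_mul_of_nonneg_right hab (Real.sqrt_nonneg _)) (h1 _ _)

theorem t_MAIN (hKEY : S_KEY.{u, v}) (hPROPER : S_PROPER.{u, v}) (hACC : S_ACC.{u, v})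
    (hTOP : S_TOP.{v}) : S_MAIN.{u, v} := by
  intro V _ _ _ _ M _ _ _ A hA 𝓛 𝓕 𝓕' d d' h𝓛 h𝓕 h𝓕' hdisc hd hd' hJ hJ' Lam L L₀ hL hL₀ hconv
  have hprop : ProperSpace M := hPROPER V M A hA
  obtain ⟨c₀, hc₀, C₂, hC₂, h⟩ := hKEY V M A hA (max Lam 0) (le_max_right _ _)
  have hLs : ∀ n, A.SFFBound (L n) (max Lam 0) := fun n => SFFBound_mono (le_max_left _ _) (hL n).2
  have hL₀s : A.SFFBound L₀ (max Lam 0) := SFFBound_mono (le_max_left _ _) hL₀.2
  set D : ℕ → ℝ := fun n => max (d (L n) L₀) (d' (L n) L₀) with hD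
  have hLagr₀ := h𝓛 L₀ hL₀.1
  obtain ⟨n₀, hn₀, hsub₀⟩ := hLagr₀.submfd
  have hn₀pos : 0 < n₀ := by
    have := Module.finrank_pos (R := ℝ) (M := V)
    omega
  refine hTOP M (closure (⋃₀ 𝓕)) (closure (⋃₀ 𝓕')) L₀ L (fun n => C₂ * √(D n)) isClosed_closure
    isClosed_closure hdisc hLagr₀.compact hLagr₀.connected.nonempty
    (hACC V M n₀ L₀ hn₀pos hsub₀) (fun n => (h𝓛 _ (hL n).1).compact)
    (fun n => (h𝓛 _ (hL n).1).connected) ?_ ?_
  · have h1 : Tendsto (fun n => C₂ * √(D n)) atTop (𝓝 (C₂ * √0)) :=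
      (Real.continuous_sqrt.tendsto 0 |>.comp hconv).const_mul C₂
    simpa using h1
  · have hev : ∀ᶠ n in atTop, D n < c₀ := hconv.eventually (gt_mem_nhds hc₀)
    filter_upwards [hev] with n hn
    have h1 : d (L n) L₀ < c₀ := (le_max_left _ _).trans_lt hn
    have h2 : d' (L n) L₀ < c₀ := (le_max_right _ _).trans_lt hn
    obtain ⟨a1, a2⟩ := h 𝓛 𝓕 d h𝓛 h𝓕 hJ (L n) (hL n).1 L₀ hL₀.1 h1
    obtain ⟨b1, b2⟩ := h 𝓛 𝓕' d' h𝓛 h𝓕' hJ' (L n) (hL n).1 L₀ hL₀.1 h2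
    have e1 : C₂ * √(d (L n) L₀) ≤ C₂ * √(D n) :=
      mul_le_mul_of_nonneg_left (Real.sqrt_le_sqrt (le_max_left _ _)) hC₂.le
    have e2 : C₂ * √(d' (L n) L₀) ≤ C₂ * √(D n) :=
      mul_le_mul_of_nonneg_left (Real.sqrt_le_sqrt (le_max_right _ _)) hC₂.le
    have hne : (L₀ : Set M).Nonempty := hLagr₀.connected.nonempty
    have hne' : (L n : Set M).Nonempty := (h𝓛 _ (hL n).1).connected.nonempty
    have mono : ∀ (x : M) (P Q : Set M), P.Nonempty →
        infDist x (P ∪ closure Q) ≤ infDist x (P ∪ Q) := by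
      intro x P Q hP
      exact infDist_le_infDist_of_subset (union_subset_union_right _ subset_closure)
        (hP.mono subset_union_left)
    refine ⟨fun x hx => ⟨?_, ?_⟩, fun x hx => ⟨?_, ?_⟩⟩
    · exact (mono x _ _ hne).trans ((a1 (hLs n) x hx).trans e1)
    · exact (mono x _ _ hne).trans ((b1 (hLs n) x hx).trans e2)
    · exact (mono x _ _ hne').trans ((a2 hL₀s x hx).trans e1)
    · exact (mono x _ _ hne').trans ((b2 hL₀s x hx).trans e2)

end Pool.Agent.H823.HC
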