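import Mathlib
import Pool.Agent.H823.HC.Asm2
import Pool.Agent.H823.HC.All1

/-! # Project HC: everything together -/

open scoped Topology ContDiff Manifold
open Set Metric Filter MeasureTheory

noncomputable section

namespace Pool.Agent.H823.HC

universe u v

theorem main_SELECT : S_SELECT := t_SELECT t_POLAR t_RAY

theorem main_POLD : S_POLD := t_POLD t_POLAR

theorem main_POLH : S_POLH := t_POLH t_POLAR

theorem main_FIN : S_FIN.{v} :=
  t_FIN t_POLAR main_POLH main_SELECT
    (t_BD main_POLD main_POLH main_SELECT t_EXIT (t_INT main_POLD main_SELECT t_EXIT))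

theorem main_LOC : S_LOC.{u} := t_LOC t_TANV

theorem main_SECT : S_SECT.{u} :=
  t_SECT t_TANV main_LOC (t_LIFT t_TANV main_LOC (t_HESS t_TANV))

theorem main_CONT : S_CONT.{u} := t_CONT t_TANV main_LOC

theorem main_DIST : S_DIST.{u, v} := t_DIST

theorem main_ISOMH : S_ISOMH.{u, v} :=
  t_ISOMH main_DIST t_TENS t_PIECE main_SECT main_CONT t_PULL
    (t_ISOVH t_PRIM (t_GREENH main_POLH))

theorem main_ISOMD : S_ISOMD.{u, v} :=
  t_ISOMD main_DIST t_TENS (t_ISOVD t_PRIM (t_GREEND main_POLD))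

theorem main_HPM : S_HPM.{u, v} :=
  t_HPM main_FIN t_HOLB t_RESTR (t_LENU t_LEN) main_ISOMH main_ISOMD

theorem main_MONO : S_MONO.{u, v} := t_MONO main_HPM (t_PULLU t_CAY) t_ARCS

theorem main_TRANS : S_TRANS.{u, v} := t_TRANS (t_TRANS1 t_SPAN t_HAMF t_SARD) t_IMG

theorem main_KEY : S_KEY.{u, v} := t_KEY main_MONO main_TRANS

/-- The main theorem. -/
theorem main : S_MAIN.{u, v} := t_MAIN main_KEY (t_PROPER t_LEN main_DIST) t_ACC t_TOP

theorem main_COMP : S_COMP.{u, v} := t_COMP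

end Pool.Agent.H823.HC
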