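import Mathlib
import Pool.Agent.H823.HC.StmV

/-!
# GREENH: Stokes for the pull back of a one-form on a half disk
-/

set_option autoImplicit false

open scoped Topology ContDiff Manifold
open Set Metric Filter MeasureTheory

noncomputable section

universe u v w

namespace Pool.Agent.H823.HC.PGREENH

open Pool.Agent.H823.HC

lemma hasDerivAt_circ (s : ℝ) : HasDerivAt circ (Complex.I * circ s) s := by
  unfold circ
  have h1 : HasDerivAt (fun s : ℝ => (s : ℂ) * Complex.I) (1 * Complex.I) s :=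
    (Complex.ofRealCLM.hasDerivAt (x := s)).mul_const Complex.I
  have h2 := h1.cexp
  refine h2.congr_deriv ?_
  ring

lemma continuous_circ : Continuous circ := by
  rw [continuous_iff_continuousAt]
  exact fun s => (hasDerivAt_circ s).continuousAt

lemma norm_circ (s : ℝ) : ‖circ s‖ = 1 := by
  unfold circ
  exact Complex.norm_exp_ofReal_mul_I s

lemma circ_eq (s : ℝ) : circ s = Real.cos s + Real.sin s * Complex.I := by
  unfold circ
  rw [Complex.exp_mul_I, Complex.ofReal_cos, Complex.ofReal_sin]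

lemma circ_im (s : ℝ) : (circ s).im = Real.sin s := by
  unfold circ
  exact Complex.exp_ofReal_mul_I_im s

/-- polar coordinates -/
def Fm (m : ℝ) (x : ℝ × ℝ) : ℂ := m + x.1 * circ x.2

lemma continuous_Fm (m : ℝ) : Continuous (Fm m) := by
  unfold Fm
  exact continuous_const.add ((Complex.continuous_ofReal.comp continuous_fst).mul
    (continuous_circ.comp continuous_snd))

/-- the derivative of polar coordinates -/
def Fm' (x : ℝ × ℝ) : ℝ × ℝ →L[ℝ] ℂ :=
  (ContinuousLinearMap.fst ℝ ℝ ℝ).smulRight (circ x.2) +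
    (ContinuousLinearMap.snd ℝ ℝ ℝ).smulRight ((x.1 : ℂ) * (Complex.I * circ x.2))

lemma hasFDerivAt_circ (x : ℝ × ℝ) : HasFDerivAt (fun y : ℝ × ℝ => circ y.2)
    ((ContinuousLinearMap.snd ℝ ℝ ℝ).smulRight (Complex.I * circ x.2)) x := by
  have h := (hasDerivAt_circ x.2).hasFDerivAt.comp x (hasFDerivAt_snd (𝕜 := ℝ) (p := x))
  refine h.congr_fderiv ?_
  ext y <;> simp

lemma hasFDerivAt_fst (x : ℝ × ℝ) : HasFDerivAt (fun y : ℝ × ℝ => (y.1 : ℂ))
    ((ContinuousLinearMap.fst ℝ ℝ ℝ).smulRight (1 : ℂ)) x := by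
  have h := (Complex.ofRealCLM.hasFDerivAt (x := x.1)).comp x
    (_root_.hasFDerivAt_fst (𝕜 := ℝ) (p := x))
  refine h.congr_fderiv ?_
  ext y <;> simp

lemma hasFDerivAt_Fm (m : ℝ) (x : ℝ × ℝ) : HasFDerivAt (Fm m) (Fm' x) x := by
  have h := ((hasFDerivAt_fst x).mul (hasFDerivAt_circ x)).const_add (m : ℂ)
  refine h.congr_fderiv ?_
  ext y <;> simp [Fm']

/-- the angular velocity -/
def um (x : ℝ × ℝ) : ℂ := x.1 * (Complex.I * circ x.2)

/-- its derivative -/
def um' (x : ℝ × ℝ) : ℝ × ℝ →L[ℝ] ℂ :=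
  (ContinuousLinearMap.fst ℝ ℝ ℝ).smulRight (Complex.I * circ x.2) +
    (ContinuousLinearMap.snd ℝ ℝ ℝ).smulRight ((x.1 : ℂ) * (Complex.I * (Complex.I * circ x.2)))

lemma hasFDerivAt_um (x : ℝ × ℝ) : HasFDerivAt um (um' x) x := by
  have h := (hasFDerivAt_fst x).mul ((hasFDerivAt_circ x).const_mul Complex.I)
  refine h.congr_fderiv ?_
  ext y <;> simp [um']

lemma continuous_um : Continuous um := by
  unfold um
  exact (Complex.continuous_ofReal.comp continuous_fst).mul
    (continuous_const.mul (continuous_circ.comp continuous_snd))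

/-- the open half disk -/
def Ho (m ρ : ℝ) : Set ℂ := {z | ‖z - m‖ < ρ ∧ 0 < z.im}

lemma isOpen_Ho (m ρ : ℝ) : IsOpen (Ho m ρ) :=
  (isOpen_lt (continuous_id.sub continuous_const).norm continuous_const).inter
    (isOpen_lt continuous_const Complex.continuous_im)

lemma Ho_subset (m ρ : ℝ) : Ho m ρ ⊆ Hc m ρ := fun _ hz => ⟨hz.1.le, hz.2.le⟩

lemma Fm_mem_Hc {m ρ : ℝ} {x : ℝ × ℝ} (h : x ∈ Icc 0 ρ ×ˢ Icc 0 Real.pi) :
    Fm m x ∈ Hc m ρ := by
  obtain ⟨⟨h1, h2⟩, h3, h4⟩ := h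
  constructor
  · unfold Fm
    rw [add_sub_cancel_left, norm_mul, norm_circ, mul_one, Complex.norm_real, Real.norm_eq_abs,
      abs_of_nonneg h1]
    exact h2
  · unfold Fm
    rw [Complex.add_im, Complex.ofReal_im, zero_add, Complex.im_ofReal_mul, circ_im]
    exact mul_nonneg h1 (Real.sin_nonneg_of_nonneg_of_le_pi h3 h4)

lemma Fm_mem_Ho {m ρ : ℝ} {x : ℝ × ℝ} (h : x ∈ Ioo 0 ρ ×ˢ Ioo 0 Real.pi) :
    Fm m x ∈ Ho m ρ := by
  obtain ⟨⟨h1, h2⟩, h3, h4⟩ := h
  constructor
  · unfold Fm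
    rw [add_sub_cancel_left, norm_mul, norm_circ, mul_one, Complex.norm_real, Real.norm_eq_abs,
      abs_of_nonneg h1.le]
    exact h2
  · unfold Fm
    rw [Complex.add_im, Complex.ofReal_im, zero_add, Complex.im_ofReal_mul, circ_im]
    exact mul_pos h1 (Real.sin_pos_of_pos_of_lt_pi h3 h4)

lemma alt (B : ℂ →L[ℝ] ℂ →L[ℝ] ℝ) (t s : ℝ) :
    B (circ s) (t * (Complex.I * circ s)) - B (t * (Complex.I * circ s)) (circ s) =
      t * (B 1 Complex.I - B Complex.I 1) := by
  have e1 : circ s = (Real.cos s) • (1 : ℂ) + (Real.sin s) • Complex.I := by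
    rw [circ_eq, Complex.real_smul, Complex.real_smul, mul_one]
  have e2 : (t : ℂ) * (Complex.I * circ s) =
      (-(t * Real.sin s)) • (1 : ℂ) + (t * Real.cos s) • Complex.I := by
    rw [circ_eq, Complex.real_smul, Complex.real_smul]
    push_cast
    linear_combination ((t : ℂ) * Complex.sin s) * Complex.I_mul_I
  rw [e2, e1]
  simp only [map_add, map_smul, ContinuousLinearMap.add_apply, ContinuousLinearMap.smul_apply,
    smul_eq_mul]
  linear_combination (t * (B 1 Complex.I - B Complex.I 1)) * Real.sin_sq_add_cos_sq s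

/-- Green's theorem in polar coordinates for a one-form on the half disk -/
lemma green (m ρ : ℝ) (hρ : 0 < ρ) (μ : ℂ → ℂ →L[ℝ] ℝ) (Dμ : ℂ → ℂ →L[ℝ] ℂ →L[ℝ] ℝ)
    (g : ℂ → ℝ) (hμ : ContinuousOn μ (Hc m ρ)) (hD : ∀ z ∈ Ho m ρ, HasFDerivAt μ (Dμ z) z)
    (hg : ContinuousOn g (Hc m ρ))
    (hgD : ∀ z ∈ Ho m ρ, Dμ z 1 Complex.I - Dμ z Complex.I 1 = g z) :
    ∫ t in (0:ℝ)..ρ, ∫ θ in (0:ℝ)..Real.pi, g (m + t * circ θ) * t =
      (∫ θ in (0:ℝ)..Real.pi, μ (m + ρ * circ θ) (ρ * (Complex.I * circ θ))) +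
        ∫ x in (m - ρ)..(m + ρ), μ x 1 := by
  have hpi := Real.pi_pos
  set f : ℝ × ℝ → ℝ := fun x => μ (Fm m x) (um x) with hf
  set h : ℝ × ℝ → ℝ := fun x => -μ (Fm m x) (circ x.2) with hh
  set f' : ℝ × ℝ → ℝ × ℝ →L[ℝ] ℝ := fun x =>
    (μ (Fm m x)).comp (um' x) + ((Dμ (Fm m x)).comp (Fm' x)).flip (um x) with hf'
  set h' : ℝ × ℝ → ℝ × ℝ →L[ℝ] ℝ := fun x =>
    -((μ (Fm m x)).comp ((ContinuousLinearMap.snd ℝ ℝ ℝ).smulRight (Complex.I * circ x.2)) +
      ((Dμ (Fm m x)).comp (Fm' x)).flip (circ x.2)) with hh'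
  have hQ : uIcc (0:ℝ) ρ ×ˢ uIcc (0:ℝ) Real.pi = Icc 0 ρ ×ˢ Icc 0 Real.pi := by
    rw [uIcc_of_le hρ.le, uIcc_of_le hpi.le]
  have hmaps : MapsTo (Fm m) (Icc 0 ρ ×ˢ Icc 0 Real.pi) (Hc m ρ) := fun x hx => Fm_mem_Hc hx
  have hμF : ContinuousOn (fun x => μ (Fm m x)) (Icc 0 ρ ×ˢ Icc 0 Real.pi) :=
    hμ.comp (continuous_Fm m).continuousOn hmaps
  have hsum : ∀ x ∈ Ioo 0 ρ ×ˢ Ioo 0 Real.pi, f' x (1, 0) + h' x (0, 1) = g (Fm m x) * x.1 := by
    intro x hx
    have h1 := alt (Dμ (Fm m x)) x.1 x.2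
    rw [hgD _ (Fm_mem_Ho hx)] at h1
    simp only [hf', hh', um', Fm', um, ContinuousLinearMap.add_apply,
      ContinuousLinearMap.comp_apply, ContinuousLinearMap.flip_apply,
      ContinuousLinearMap.neg_apply, ContinuousLinearMap.smulRight_apply,
      ContinuousLinearMap.coe_fst', ContinuousLinearMap.coe_snd', one_smul, zero_smul, add_zero,
      zero_add]
    linarith
  have hGc : ContinuousOn (fun x : ℝ × ℝ => g (Fm m x) * x.1) (Icc 0 ρ ×ˢ Icc 0 Real.pi) :=
    (hg.comp (continuous_Fm m).continuousOn hmaps).mul continuousOn_fst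
  have hopen : Ioo (0:ℝ) ρ ×ˢ Ioo (0:ℝ) Real.pi ⊆ Icc 0 ρ ×ˢ Icc 0 Real.pi :=
    prod_mono Ioo_subset_Icc_self Ioo_subset_Icc_self
  have hGi : IntegrableOn (fun x : ℝ × ℝ => g (Fm m x) * x.1) (Icc 0 ρ ×ˢ Icc 0 Real.pi) :=
    hGc.integrableOn_compact (isCompact_Icc.prod isCompact_Icc)
  have hi : IntegrableOn (fun x => f' x (1, 0) + h' x (0, 1))
      (uIcc (0:ℝ) ρ ×ˢ uIcc (0:ℝ) Real.pi) := by
    rw [hQ]
    have h1 : IntegrableOn (fun x => f' x (1, 0) + h' x (0, 1)) (Ioo 0 ρ ×ˢ Ioo 0 Real.pi) :=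
      (hGi.mono_set hopen).congr_fun (fun x hx => (hsum x hx).symm)
        (measurableSet_Ioo.prod measurableSet_Ioo)
    refine h1.congr_set_ae ?_
    exact (Measure.set_prod_ae_eq Ioo_ae_eq_Icc Ioo_ae_eq_Icc).symm
  have hdiv := integral2_divergence_prod_of_hasFDerivAt_off_countable f h f' h' 0 0 ρ Real.pi ∅
    countable_empty
    (by
      rw [hQ]
      exact hμF.clm_apply continuous_um.continuousOn)
    (by
      rw [hQ]
      exact (hμF.clm_apply (continuous_circ.comp continuous_snd).continuousOn).neg)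
    (by
      rw [min_eq_left hρ.le, max_eq_right hρ.le, min_eq_left hpi.le, max_eq_right hpi.le,
        diff_empty]
      intro x hx
      have h1 := (hD _ (Fm_mem_Ho hx)).comp x (hasFDerivAt_Fm m x)
      exact h1.clm_apply (hasFDerivAt_um x))
    (by
      rw [min_eq_left hρ.le, max_eq_right hρ.le, min_eq_left hpi.le, max_eq_right hpi.le,
        diff_empty]
      intro x hx
      have h1 := (hD _ (Fm_mem_Ho hx)).comp x (hasFDerivAt_Fm m x)
      exact (h1.clm_apply (hasFDerivAt_circ x)).neg)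
    hi
  have hleft : ∫ t in (0:ℝ)..ρ, ∫ θ in (0:ℝ)..Real.pi, g (m + t * circ θ) * t =
      ∫ x in (0:ℝ)..ρ, ∫ y in (0:ℝ)..Real.pi, f' (x, y) (1, 0) + h' (x, y) (0, 1) := by
    rw [intervalIntegral.integral_of_le hρ.le, intervalIntegral.integral_of_le hρ.le,
      integral_Ioc_eq_integral_Ioo, integral_Ioc_eq_integral_Ioo]
    refine setIntegral_congr_fun measurableSet_Ioo fun x hx => ?_
    rw [intervalIntegral.integral_of_le hpi.le, intervalIntegral.integral_of_le hpi.le,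
      integral_Ioc_eq_integral_Ioo, integral_Ioc_eq_integral_Ioo]
    refine setIntegral_congr_fun measurableSet_Ioo fun y hy => ?_
    exact (hsum (x, y) ⟨hx, hy⟩).symm
  rw [hleft, hdiv]
  have c0 : circ 0 = 1 := by unfold circ; simp
  have cpi : circ Real.pi = -1 := by unfold circ; exact Complex.exp_pi_mul_I
  have k1 : ∫ y in (0:ℝ)..Real.pi, f (0, y) = 0 := by
    have : ∀ y : ℝ, f (0, y) = 0 := fun y => by simp [hf, um]
    simp [this]
  have k2 : ∫ x in (0:ℝ)..ρ, h (x, Real.pi) = ∫ x in (m - ρ)..m, μ x 1 := by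
    have e : ∀ x : ℝ, h (x, Real.pi) = (fun y : ℝ => μ y 1) (m - x) := by
      intro x
      simp only [hh, Fm, cpi, map_neg, neg_neg]
      congr 2
      push_cast
      ring
    simp only [e]
    rw [intervalIntegral.integral_comp_sub_left (fun y : ℝ => μ y 1) m, sub_zero]
  have k3 : ∫ x in (0:ℝ)..ρ, h (x, 0) = -∫ x in m..(m + ρ), μ x 1 := by
    have e : ∀ x : ℝ, h (x, 0) = -(fun y : ℝ => μ y 1) (m + x) := by
      intro x
      simp only [hh, Fm, c0]
      congr 3
      push_cast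
      ring
    simp only [e]
    rw [intervalIntegral.integral_neg,
      intervalIntegral.integral_comp_add_left (fun y : ℝ => μ y 1) m, add_zero]
  have hline : ContinuousOn (fun y : ℝ => μ y 1) (Icc (m - ρ) (m + ρ)) := by
    have h1 : ContinuousOn (fun y : ℝ => μ y) (Icc (m - ρ) (m + ρ)) := by
      refine hμ.comp Complex.continuous_ofReal.continuousOn fun y hy => ?_
      constructor
      · rw [← Complex.ofReal_sub, Complex.norm_real, Real.norm_eq_abs, abs_le]
        constructor <;> linarith [hy.1, hy.2]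
      · rw [Complex.ofReal_im]
    exact h1.clm_apply continuousOn_const
  have i1 : IntervalIntegrable (fun y : ℝ => μ y 1) volume (m - ρ) m := by
    refine (hline.mono ?_).intervalIntegrable
    rw [uIcc_of_le (by linarith)]
    exact Icc_subset_Icc le_rfl (by linarith)
  have i2 : IntervalIntegrable (fun y : ℝ => μ y 1) volume m (m + ρ) := by
    refine (hline.mono ?_).intervalIntegrable
    rw [uIcc_of_le (by linarith)]
    exact Icc_subset_Icc (by linarith) le_rfl
  rw [k1, k2, k3, ← intervalIntegral.integral_add_adjacent_intervals i1 i2]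
  have k4 : ∫ y in (0:ℝ)..Real.pi, f (ρ, y) =
      ∫ θ in (0:ℝ)..Real.pi, μ (m + ρ * circ θ) (ρ * (Complex.I * circ θ)) := rfl
  rw [k4]
  ring

lemma isCompact_Hc (m ρ : ℝ) : IsCompact (Hc m ρ) := by
  have h1 : Hc m ρ = closedBall (m : ℂ) ρ ∩ {z | 0 ≤ z.im} := by
    ext z
    simp only [Hc, mem_inter_iff, mem_closedBall, dist_eq_norm]
    rfl
  rw [h1]
  exact (isCompact_closedBall _ _).inter_right (isClosed_le continuous_const Complex.continuous_im)

/-- polar coordinates for continuous functions of any sign -/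
lemma polh_signed (hPOLH : S_POLH) (g : ℂ → ℝ) (m ρ : ℝ) (hρ : 0 < ρ)
    (hg : ContinuousOn g (Hc m ρ)) :
    ∫ z in Hc m ρ, g z = ∫ t in (0:ℝ)..ρ, ∫ θ in (0:ℝ)..Real.pi, g (m + t * circ θ) * t := by
  have hpi := Real.pi_pos
  have hK := isCompact_Hc m ρ
  obtain ⟨C, hC⟩ := hK.exists_bound_of_continuousOn hg
  have hC' : ∀ z ∈ Hc m ρ, 0 ≤ g z + |C| := by
    intro z hz
    have h1 := hC z hz
    rw [Real.norm_eq_abs] at h1
    have h2 := neg_le_of_abs_le h1
    have h3 := le_abs_self C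
    linarith
  have h1 := hPOLH (fun z => max (g z + |C|) 0) m ρ hρ
    ((hg.add continuousOn_const).sup continuousOn_const) (fun z => le_max_right _ _)
  have h2 := hPOLH (fun _ => |C|) m ρ hρ continuousOn_const (fun z => abs_nonneg C)
  have h3 : ∫ z in Hc m ρ, max (g z + |C|) 0 = (∫ z in Hc m ρ, g z) + ∫ z in Hc m ρ, |C| := by
    rw [← integral_add (hg.integrableOn_compact hK) (continuousOn_const.integrableOn_compact hK)]
    refine setIntegral_congr_fun hK.measurableSet fun z hz => ?_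
    exact max_eq_left (hC' z hz)
  -- a continuous extension in polar coordinates
  set G : ℝ → ℝ → ℝ := fun t θ => g (Fm m (max 0 (min t ρ), max 0 (min θ Real.pi))) with hG
  have hGc : Continuous (Function.uncurry G) := by
    have h4 : Continuous fun x : ℝ × ℝ =>
        ((max 0 (min x.1 ρ), max 0 (min x.2 Real.pi)) : ℝ × ℝ) :=
      (continuous_const.max (continuous_fst.min continuous_const)).prodMk
        (continuous_const.max (continuous_snd.min continuous_const))
    have h5 : Continuous fun x : ℝ × ℝ => Fm m (max 0 (min x.1 ρ), max 0 (min x.2 Real.pi)) :=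
      (continuous_Fm m).comp h4
    refine hg.comp_continuous h5 fun x => Fm_mem_Hc ⟨⟨le_max_left _ _, ?_⟩, le_max_left _ _, ?_⟩
    · exact max_le hρ.le (min_le_right _ _)
    · exact max_le hpi.le (min_le_right _ _)
  have hGe : ∀ t ∈ Icc 0 ρ, ∀ θ ∈ Icc 0 Real.pi, g (m + t * circ θ) = G t θ := by
    intro t ht θ hθ
    simp only [hG]
    rw [min_eq_left ht.2, min_eq_left hθ.2, max_eq_right ht.1, max_eq_right hθ.1]
    rfl
  have e1 : ∫ t in (0:ℝ)..ρ, ∫ θ in (0:ℝ)..Real.pi, max (g (m + t * circ θ) + |C|) 0 * t =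
      ∫ t in (0:ℝ)..ρ, ∫ θ in (0:ℝ)..Real.pi, (G t θ * t + |C| * t) := by
    refine intervalIntegral.integral_congr fun t ht => ?_
    rw [uIcc_of_le hρ.le] at ht
    refine intervalIntegral.integral_congr fun θ hθ => ?_
    rw [uIcc_of_le hpi.le] at hθ
    have h6 : 0 ≤ g (m + t * circ θ) + |C| := hC' _ (Fm_mem_Hc (x := (t, θ)) ⟨ht, hθ⟩)
    show max (g (m + t * circ θ) + |C|) 0 * t = G t θ * t + |C| * t
    rw [max_eq_left h6, hGe t ht θ hθ]
    ring
  have e2 : ∫ t in (0:ℝ)..ρ, ∫ θ in (0:ℝ)..Real.pi, g (m + t * circ θ) * t =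
      ∫ t in (0:ℝ)..ρ, ∫ θ in (0:ℝ)..Real.pi, G t θ * t := by
    refine intervalIntegral.integral_congr fun t ht => ?_
    rw [uIcc_of_le hρ.le] at ht
    refine intervalIntegral.integral_congr fun θ hθ => ?_
    rw [uIcc_of_le hpi.le] at hθ
    show g (m + t * circ θ) * t = G t θ * t
    rw [hGe t ht θ hθ]
  have c1 : Continuous (Function.uncurry fun t θ : ℝ => G t θ * t) :=
    hGc.mul continuous_fst
  have c2 : Continuous (Function.uncurry fun t _ : ℝ => |C| * t) :=
    continuous_const.mul continuous_fst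
  have e3 : ∫ t in (0:ℝ)..ρ, ∫ θ in (0:ℝ)..Real.pi, (G t θ * t + |C| * t) =
      (∫ t in (0:ℝ)..ρ, ∫ θ in (0:ℝ)..Real.pi, G t θ * t) +
        ∫ t in (0:ℝ)..ρ, ∫ θ in (0:ℝ)..Real.pi, |C| * t := by
    rw [← intervalIntegral.integral_add]
    · refine intervalIntegral.integral_congr fun t _ => ?_
      show ∫ θ in (0:ℝ)..Real.pi, (G t θ * t + |C| * t) =
        (∫ θ in (0:ℝ)..Real.pi, G t θ * t) + ∫ θ in (0:ℝ)..Real.pi, |C| * t
      rw [← intervalIntegral.integral_add]
      · exact (c1.comp (continuous_const.prodMk continuous_id)).intervalIntegrable _ _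
      · exact continuous_const.intervalIntegrable _ _
    · exact (intervalIntegral.continuous_parametric_intervalIntegral_of_continuous' c1 0
        Real.pi).intervalIntegrable _ _
    · exact (intervalIntegral.continuous_parametric_intervalIntegral_of_continuous' c2 0
        Real.pi).intervalIntegrable _ _
  rw [e1, e3, h3, h2] at h1
  rw [e2]
  linarith

lemma uniqueDiffOn_Hc {m ρ : ℝ} (hρ : 0 < ρ) : UniqueDiffOn ℝ (Hc m ρ) := by
  have hconv : Convex ℝ (Hc m ρ) := by
    have h1 : Hc m ρ = closedBall (m : ℂ) ρ ∩ {z | 0 ≤ z.im} := by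
      ext z
      simp only [Hc, mem_inter_iff, mem_closedBall, dist_eq_norm]
      rfl
    rw [h1]
    exact (convex_closedBall _ _).inter (convex_halfSpace_im_ge 0)
  refine uniqueDiffOn_convex hconv ?_
  have hne : (Ho m ρ).Nonempty := by
    refine ⟨Fm m (ρ / 2, Real.pi / 2), Fm_mem_Ho ⟨⟨by positivity, by
      show ρ / 2 < ρ
      linarith⟩, ⟨by
      show 0 < Real.pi / 2
      have := Real.pi_pos
      linarith, by
      show Real.pi / 2 < Real.pi
      have := Real.pi_pos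
      linarith⟩⟩⟩
  exact hne.mono (interior_maximal (Ho_subset m ρ) (isOpen_Ho m ρ))

lemma two_le : (2 : WithTop ℕ∞) ≤ ∞ := WithTop.coe_le_coe.2 le_top

end Pool.Agent.H823.HC.PGREENH

namespace Pool.Agent.H823.HC

open PGREENH

theorem t_GREENH (hPOLH : S_POLH) : S_GREENH.{u} := by
  intro V _ _ _ R m ρ lam v hR hρ hlam hv hmaps
  have hU := uniqueDiffOn_Hc (m := m) hρ
  set D := Hc m ρ with hDdef
  set dv : ℂ → ℂ →L[ℝ] V := fun z => fderivWithin ℝ v D z with hdv
  have hdvc : ContinuousOn dv D := hv.continuousOn_fderivWithin hU (by simp)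
  have hlamc : ContinuousOn lam (ball 0 R) := hlam.continuousOn
  have hdlc : ContinuousOn (fun x => fderiv ℝ lam x) (ball (0:V) R) :=
    hlam.continuousOn_fderiv_of_isOpen isOpen_ball le_rfl
  have hmaps' : MapsTo v D (ball 0 R) := hmaps
  set μ : ℂ → ℂ →L[ℝ] ℝ := fun z => (lam (v z)).comp (dv z) with hμdef
  have hμc : ContinuousOn μ D := (hlamc.comp hv.continuousOn hmaps').clm_comp hdvc
  set g : ℂ → ℝ := fun z => fderiv ℝ lam (v z) (dv z 1) (dv z Complex.I) -
    fderiv ℝ lam (v z) (dv z Complex.I) (dv z 1) with hgdef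
  have hgc : ContinuousOn g D := by
    have h1 : ContinuousOn (fun z => fderiv ℝ lam (v z)) D :=
      hdlc.comp hv.continuousOn hmaps'
    have h2 : ContinuousOn (fun z => dv z 1) D := hdvc.clm_apply continuousOn_const
    have h3 : ContinuousOn (fun z => dv z Complex.I) D := hdvc.clm_apply continuousOn_const
    exact ((h1.clm_apply h2).clm_apply h3).sub ((h1.clm_apply h3).clm_apply h2)
  have hnhds : ∀ z ∈ Ho m ρ, D ∈ 𝓝 z := fun z hz =>
    Filter.mem_of_superset ((isOpen_Ho m ρ).mem_nhds hz) (Ho_subset m ρ)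
  have hdve : ∀ z ∈ Ho m ρ, dv =ᶠ[𝓝 z] fderiv ℝ v := by
    intro z hz
    filter_upwards [(isOpen_Ho m ρ).mem_nhds hz] with w hw
    exact fderivWithin_of_mem_nhds (hnhds w hw)
  have hvat : ∀ z ∈ Ho m ρ, ContDiffAt ℝ ∞ v z := fun z hz => hv.contDiffAt (hnhds z hz)
  have hdvd : ∀ z ∈ Ho m ρ, HasFDerivAt dv (fderiv ℝ (fderiv ℝ v) z) z := by
    intro z hz
    have h1 : ContDiffAt ℝ 1 (fderiv ℝ v) z :=
      ((hvat z hz).of_le two_le).fderiv_right (by norm_num)
    exact ((h1.differentiableAt (by norm_num)).hasFDerivAt).congr_of_eventuallyEq (hdve z hz)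
  have hlv : ∀ z ∈ Ho m ρ, HasFDerivAt (fun w => lam (v w))
      ((fderiv ℝ lam (v z)).comp (dv z)) z := by
    intro z hz
    have h1 : HasFDerivAt v (dv z) z := by
      have := ((hvat z hz).differentiableAt (by simp)).hasFDerivAt
      rwa [← (hdve z hz).self_of_nhds] at this
    have h2 : HasFDerivAt lam (fderiv ℝ lam (v z)) (v z) :=
      ((hlam.contDiffAt (isOpen_ball.mem_nhds (hmaps z (Ho_subset m ρ hz)))).differentiableAt
        (by norm_num)).hasFDerivAt
    exact h2.comp z h1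
  have hμd : ∀ z ∈ Ho m ρ, HasFDerivAt μ (fderiv ℝ μ z) z := fun z hz =>
    ((hlv z hz).clm_comp (hdvd z hz)).differentiableAt.hasFDerivAt
  have hμe : ∀ z ∈ Ho m ρ, fderiv ℝ μ z 1 Complex.I - fderiv ℝ μ z Complex.I 1 = g z := by
    intro z hz
    rw [((hlv z hz).clm_comp (hdvd z hz)).fderiv]
    have hsym : fderiv ℝ (fderiv ℝ v) z 1 Complex.I = fderiv ℝ (fderiv ℝ v) z Complex.I 1 := by
      have h1 : ContDiffAt ℝ 2 v z :=
        (hvat z hz).of_le two_le
      exact (h1.isSymmSndFDerivAt (by simp)).eq 1 Complex.I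
    simp only [ContinuousLinearMap.add_apply, ContinuousLinearMap.comp_apply,
      ContinuousLinearMap.compL_apply, ContinuousLinearMap.flip_apply, hsym, hgdef]
    ring
  have hgreen := green m ρ hρ μ (fderiv ℝ μ) g hμc hμd hgc hμe
  rw [← polh_signed hPOLH g m ρ hρ hgc] at hgreen
  exact hgreen

end Pool.Agent.H823.HC
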