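import Mathlib
import Pool.Agent.H823.HC.StmM

/-!
# Project HC: the isoperimetric inequality for disks (ISOMD)
-/

open scoped Topology ContDiff Manifold
open Set Metric Filter MeasureTheory

noncomputable section

namespace Pool.Agent.H823.HC

universe u v w

namespace PISOMD

variable {V : Type u} [NormedAddCommGroup V] [InnerProductSpace ℝ V]
  {M : Type v} [MetricSpace M] [ChartedSpace V M] (A : AlmostKahler V M)

theorem om_congr {x y : M} (h : x = y) (a b : V) :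
    A.om x (show TangentSpace 𝓘(ℝ, V) x from a) (show TangentSpace 𝓘(ℝ, V) x from b) =
      A.om y (show TangentSpace 𝓘(ℝ, V) y from a) (show TangentSpace 𝓘(ℝ, V) y from b) := by
  subst h
  rfl

theorem om_J_congr {x y : M} (h : x = y) (a b : V) :
    A.om x (show TangentSpace 𝓘(ℝ, V) x from a) (A.J x (show TangentSpace 𝓘(ℝ, V) x from b)) =
      A.om y (show TangentSpace 𝓘(ℝ, V) y from a)
        (A.J y (show TangentSpace 𝓘(ℝ, V) y from b)) := by
  subst h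
  rfl

/-- the chain rule in a chart -/
theorem chain [IsManifold 𝓘(ℝ, V) ∞ M] {e : OpenPartialHomeomorph M V} (he : e ∈ Charts V M)
    {D : Set ℂ} (hD : UniqueDiffOn ℝ D) {u : ℂ → M}
    (hu : ContMDiffOn 𝓘(ℝ, ℂ) 𝓘(ℝ, V) ∞ u D) (hs : ∀ z ∈ D, u z ∈ e.source) {z : ℂ}
    (hz : z ∈ D) (h : ℂ) :
    (mfderivWithin 𝓘(ℝ, ℂ) 𝓘(ℝ, V) u D z h : V) =
      frame e (e (u z)) (fderivWithin ℝ (fun z => e (u z)) D z h) := by
  have hv : ContMDiffOn 𝓘(ℝ, ℂ) 𝓘(ℝ, V) ∞ (fun z => e (u z)) D :=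
    (contMDiffOn_of_mem_maximalAtlas he).comp hu hs
  have h1 : MDifferentiableWithinAt 𝓘(ℝ, ℂ) 𝓘(ℝ, V) (fun z => e (u z)) D z :=
    (hv z hz).mdifferentiableWithinAt (by simp)
  have h2 : MDifferentiableAt 𝓘(ℝ, V) 𝓘(ℝ, V) e.symm (e (u z)) := by
    have := (contMDiffOn_symm_of_mem_maximalAtlas he) (e (u z)) (e.map_source (hs z hz))
    exact (this.contMDiffAt (e.open_target.mem_nhds (e.map_source (hs z hz)))).mdifferentiableAt
      (by simp)
  have h3 : UniqueMDiffWithinAt 𝓘(ℝ, ℂ) D z := (hD z hz).uniqueMDiffWithinAt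
  have h4 := mfderiv_comp_mfderivWithin z h2 h1 h3
  have h5 : mfderivWithin 𝓘(ℝ, ℂ) 𝓘(ℝ, V) (e.symm ∘ fun z => e (u z)) D z =
      mfderivWithin 𝓘(ℝ, ℂ) 𝓘(ℝ, V) u D z := by
    refine mfderivWithin_congr ?_ ?_
    · intro y hy
      exact e.left_inv (hs y hy)
    · exact e.left_inv (hs z hz)
  have h6 := h5.symm.trans h4
  have h7 := congrArg (fun (L : ℂ →L[ℝ] V) => L h) h6
  rw [mfderivWithin_eq_fderivWithin] at h7
  exact h7

/-- antisymmetry -/
theorem om_anti (x : M) (a b : TangentSpace 𝓘(ℝ, V) x) : A.om x a b = -A.om x b a := by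
  have h := A.alt x (a + b)
  simp only [map_add, add_apply, A.alt] at h
  linarith

theorem g_nonneg (x : M) (a : TangentSpace 𝓘(ℝ, V) x) : 0 ≤ A.om x a (A.J x a) := by
  by_cases h : a = 0
  · rw [h]
    simp
  · exact (A.pos x a h).le

/-- conformality -/
theorem g_conf (x : M) (X : TangentSpace 𝓘(ℝ, V) x) (a b : ℝ) :
    A.om x (a • X + b • A.J x X) (A.J x (a • X + b • A.J x X)) =
      (a ^ 2 + b ^ 2) * A.om x X (A.J x X) := by
  have h1 := om_anti A x (A.J x X) X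
  simp only [map_add, map_smul, add_apply, smul_apply,
    A.J_sq, A.alt, map_neg, smul_eq_mul, h1]
  ring

theorem nrm_sq (x : M) (X : TangentSpace 𝓘(ℝ, V) x) : A.nrm x X ^ 2 = A.om x X (A.J x X) :=
  Real.sq_sqrt (g_nonneg A x X)

/-- the energy density -/
theorem area_eq {D : Set ℂ} {u : ℂ → M} (hu : A.HolOn D u) {z : ℂ} (hz : z ∈ D) :
    A.om (u z) (mfderivWithin 𝓘(ℝ, ℂ) 𝓘(ℝ, V) u D z (1:ℂ))
      (mfderivWithin 𝓘(ℝ, ℂ) 𝓘(ℝ, V) u D z Complex.I) = A.sp D u z ^ 2 := by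
  have h := hu.hol z hz 1
  rw [mul_one] at h
  rw [h]
  exact (nrm_sq A _ _).symm

/-- the norm of the other derivatives -/
theorem nrm_dir {D : Set ℂ} {u : ℂ → M} (hu : A.HolOn D u) {z : ℂ} (hz : z ∈ D) (h : ℂ) :
    A.om (u z) (mfderivWithin 𝓘(ℝ, ℂ) 𝓘(ℝ, V) u D z h)
      (A.J (u z) (mfderivWithin 𝓘(ℝ, ℂ) 𝓘(ℝ, V) u D z h)) = (‖h‖ * A.sp D u z) ^ 2 := by
  have h1 := hu.hol z hz 1
  rw [mul_one] at h1
  have h2 : mfderivWithin 𝓘(ℝ, ℂ) 𝓘(ℝ, V) u D z h =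
      h.re • mfderivWithin 𝓘(ℝ, ℂ) 𝓘(ℝ, V) u D z (1:ℂ) +
        h.im • A.J (u z) (mfderivWithin 𝓘(ℝ, ℂ) 𝓘(ℝ, V) u D z (1:ℂ)) := by
    rw [← h1]
    have h3 : h = h.re • (1:ℂ) + h.im • Complex.I := by
      apply Complex.ext <;> simp
    conv_lhs => rw [h3]
    exact ((mfderivWithin 𝓘(ℝ, ℂ) 𝓘(ℝ, V) u D z).map_add (h.re • (1:ℂ))
      (h.im • Complex.I)).trans (congrArg₂ (· + ·)
      ((mfderivWithin 𝓘(ℝ, ℂ) 𝓘(ℝ, V) u D z).map_smul h.re (1:ℂ))
      ((mfderivWithin 𝓘(ℝ, ℂ) 𝓘(ℝ, V) u D z).map_smul h.im Complex.I))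
  rw [h2, g_conf, mul_pow, ← nrm_sq]
  congr 1
  rw [Complex.sq_norm, Complex.normSq_apply]
  ring

end PISOMD

open PISOMD in
theorem t_ISOMD (hDIST : S_DIST.{u, v}) (hTENS : S_TENS.{u, v}) (hISOVD : S_ISOVD.{u}) :
    S_ISOMD.{u, v} := by
  intro V _ _ _ M _ _ _ A hA
  obtain ⟨r, K, hr, hK, hch⟩ := hA
  have hK0 : 0 < K := by linarith
  have hK4 : (1:ℝ) ≤ K ^ 4 := one_le_pow₀ hK
  refine ⟨r / (2 * K), by positivity, K ^ 4, hK4, ?_⟩
  intro u c ρ hρ hu hd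
  set D : Set ℂ := closedBall c ρ with hD
  have hDu : UniqueDiffOn ℝ D := uniqueDiffOn_convex (convex_closedBall c ρ) (by
    rw [interior_closedBall c hρ.ne']
    exact ⟨c, mem_ball_self hρ⟩)
  obtain ⟨e, he⟩ := hch (u (c + ρ))
  have hsrc : ∀ z ∈ D, u z ∈ e.source ∧ ‖e (u z)‖ < r := by
    intro z hz
    have h1 := hd z hz
    rw [dist_comm] at h1
    have h2 : r / (2 * K) = (r / K) / 2 := by
      field_simp
    have h3 : 0 < r / K := by positivity
    obtain ⟨h4, h5⟩ := hDIST V M A r K (u (c + ρ)) e hr hK he (u z) (by linarith)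
    refine ⟨h4, h5.trans_lt ?_⟩
    calc K * dist (u (c + ρ)) (u z) < K * (r / (2 * K)) := by gcongr
      _ = r / 2 := by field_simp
      _ < r := by linarith
  obtain ⟨G, Om, hT, hGO⟩ := hTENS V M A r K (u (c + ρ)) e hr hK he
  set v : ℂ → V := fun z => e (u z) with hv
  have hvs : ContDiffOn ℝ ∞ v D :=
    contMDiffOn_iff_contDiffOn.1
      ((contMDiffOn_of_mem_maximalAtlas he.mem).comp hu.smooth fun z hz => (hsrc z hz).1)
  have hvb : ∀ z ∈ D, v z ∈ ball (0:V) r := fun z hz => by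
    rw [mem_ball_zero_iff]
    exact (hsrc z hz).2
  have hcρ : c + ρ ∈ D := by
    rw [hD, mem_closedBall, dist_eq_norm]
    simp [abs_of_pos hρ]
  have hv0 : v (c + ρ) = 0 := he.centre
  have hOmle : ∀ x ∈ ball (0:V) r, ∀ a b, |Om x a b| ≤ K ^ 2 * ‖a‖ * ‖b‖ := by
    intro x hx a b
    refine (hT.Om_le x hx a b).trans ?_
    have h1 : √(G x a a) ≤ K * ‖a‖ := by
      rw [← Real.sqrt_sq (by positivity : (0:ℝ) ≤ K * ‖a‖)]
      exact Real.sqrt_le_sqrt (hT.G_upper x hx a)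
    have h2 : √(G x b b) ≤ K * ‖b‖ := by
      rw [← Real.sqrt_sq (by positivity : (0:ℝ) ≤ K * ‖b‖)]
      exact Real.sqrt_le_sqrt (hT.G_upper x hx b)
    calc √(G x a a) * √(G x b b) ≤ (K * ‖a‖) * (K * ‖b‖) := by gcongr
      _ = K ^ 2 * ‖a‖ * ‖b‖ := by ring
  have hiso := hISOVD V r (K ^ 2) ρ c Om v hr (by positivity) hρ hT.form hOmle hvs hvb hv0
  -- the coordinate expressions
  have hfr : ∀ z ∈ D, ∀ h : ℂ, (mfderivWithin 𝓘(ℝ, ℂ) 𝓘(ℝ, V) u D z h : V) =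
      frame e (v z) (fderivWithin ℝ v D z h) := fun z hz h =>
    chain he.mem hDu hu.smooth (fun z hz => (hsrc z hz).1) hz h
  have hleft : ∀ z ∈ D, e.symm (v z) = u z := fun z hz => e.left_inv (hsrc z hz).1
  have hOm : ∀ z ∈ D, Om (v z) (fderivWithin ℝ v D z 1) (fderivWithin ℝ v D z Complex.I) =
      A.sp D u z ^ 2 := by
    intro z hz
    rw [(hGO (v z) (hvb z hz) _ _).2, ← area_eq A hu hz]
    refine (om_congr A (hleft z hz) _ _).trans ?_
    show A.om (u z) (frame e (v z) (fderivWithin ℝ v D z 1))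
      (frame e (v z) (fderivWithin ℝ v D z Complex.I)) = _
    rw [← hfr z hz, ← hfr z hz]
  have hG : ∀ z ∈ D, ∀ h : ℂ, G (v z) (fderivWithin ℝ v D z h) (fderivWithin ℝ v D z h) =
      (‖h‖ * A.sp D u z) ^ 2 := by
    intro z hz h
    rw [(hGO (v z) (hvb z hz) _ _).1, ← nrm_dir A hu hz]
    refine (om_J_congr A (hleft z hz) _ _).trans ?_
    show A.om (u z) (frame e (v z) (fderivWithin ℝ v D z h))
      (A.J (u z) (frame e (v z) (fderivWithin ℝ v D z h))) = _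
    rw [← hfr z hz]
  have hsp0 : ∀ z, 0 ≤ A.sp D u z := fun z => Real.sqrt_nonneg _
  -- continuity
  have hcf : ContinuousOn (fderivWithin ℝ v D) D := hvs.continuousOn_fderivWithin hDu (by simp)
  have hcv : ContinuousOn v D := hvs.continuousOn
  have hcsp : ContinuousOn (A.sp D u) D := by
    have h1 : ContinuousOn (fun z => √(G (v z) (fderivWithin ℝ v D z 1)
        (fderivWithin ℝ v D z 1))) D := by
      refine ContinuousOn.sqrt ?_
      have h2 : ContinuousOn (fun z => G (v z)) D :=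
        hT.G_smooth.continuousOn.comp hcv hvb
      have h3 : ContinuousOn (fun z => fderivWithin ℝ v D z 1) D := hcf.clm_apply continuousOn_const
      exact (h2.clm_apply h3).clm_apply h3
    refine h1.congr fun z hz => ?_
    show A.sp D u z = √(((G (v z)) ((fderivWithin ℝ v D z) 1)) ((fderivWithin ℝ v D z) 1))
    rw [hG z hz, norm_one, one_mul, Real.sqrt_sq (hsp0 z)]
  have hcirc : Continuous circ := by
    unfold circ
    fun_prop
  have hnc : ∀ θ : ℝ, ‖circ θ‖ = 1 := fun θ => by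
    unfold circ
    exact Complex.norm_exp_ofReal_mul_I θ
  have hmem : ∀ θ : ℝ, c + ρ * circ θ ∈ D := by
    intro θ
    rw [hD, mem_closedBall, dist_eq_norm]
    simp [hnc, abs_of_pos hρ]
  have hcm : Continuous fun θ : ℝ => c + ρ * circ θ := by fun_prop
  have hc1 : Continuous fun θ : ℝ => A.sp D u (c + ρ * circ θ) * ρ := by
    have : Continuous fun θ : ℝ => A.sp D u (c + ρ * circ θ) :=
      hcsp.comp_continuous hcm hmem
    fun_prop
  have hc2 : Continuous fun θ : ℝ =>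
      ‖fderivWithin ℝ v D (c + ρ * circ θ) (ρ * (Complex.I * circ θ))‖ := by
    have h1 : Continuous fun θ : ℝ => fderivWithin ℝ v D (c + ρ * circ θ) :=
      hcf.comp_continuous hcm hmem
    have h2 : Continuous fun θ : ℝ => ((ρ : ℂ) * (Complex.I * circ θ)) := by fun_prop
    exact (h1.clm_apply h2).norm
  have hpt : ∀ θ : ℝ, ‖fderivWithin ℝ v D (c + ρ * circ θ) (ρ * (Complex.I * circ θ))‖ ≤
      K * (A.sp D u (c + ρ * circ θ) * ρ) := by
    intro θ
    set z := c + ρ * circ θ with hz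
    set w := fderivWithin ℝ v D z (ρ * (Complex.I * circ θ)) with hw
    have h1 := hT.G_lower (v z) (hvb z (hmem θ)) w
    rw [hw, hG z (hmem θ), ← hw] at h1
    have h2 : ‖(ρ : ℂ) * (Complex.I * circ θ)‖ = ρ := by
      simp [hnc, abs_of_pos hρ]
    rw [h2] at h1
    have h3 : K⁻¹ * ‖w‖ ≤ ρ * A.sp D u z :=
      _root_.le_of_sq_le_sq h1 (mul_nonneg hρ.le (hsp0 z))
    calc ‖w‖ = K * (K⁻¹ * ‖w‖) := by field_simp
      _ ≤ K * (ρ * A.sp D u z) := by gcongr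
      _ = K * (A.sp D u z * ρ) := by ring
  have hint : ∫ θ in (0:ℝ)..(2 * Real.pi),
      ‖fderivWithin ℝ v D (c + ρ * circ θ) (ρ * (Complex.I * circ θ))‖ ≤
      K * ∫ θ in (0:ℝ)..(2 * Real.pi), A.sp D u (c + ρ * circ θ) * ρ := by
    rw [← intervalIntegral.integral_const_mul]
    exact intervalIntegral.integral_mono (by positivity) (hc2.intervalIntegrable _ _)
      ((continuous_const.mul hc1).intervalIntegrable _ _) hpt
  have hint0 : 0 ≤ ∫ θ in (0:ℝ)..(2 * Real.pi),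
      ‖fderivWithin ℝ v D (c + ρ * circ θ) (ρ * (Complex.I * circ θ))‖ :=
    intervalIntegral.integral_nonneg (by positivity) fun θ _ => norm_nonneg _
  have hE : ∫ z in D, Om (v z) (fderivWithin ℝ v D z 1) (fderivWithin ℝ v D z Complex.I) =
      ∫ z in D, A.sp D u z ^ 2 :=
    setIntegral_congr_fun measurableSet_closedBall fun z hz => hOm z hz
  rw [hE] at hiso
  refine (le_abs_self _).trans (hiso.trans ?_)
  calc K ^ 2 / 2 * (∫ θ in (0:ℝ)..(2 * Real.pi),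
      ‖fderivWithin ℝ v D (c + ρ * circ θ) (ρ * (Complex.I * circ θ))‖) ^ 2
      ≤ K ^ 2 / 2 * (K * ∫ θ in (0:ℝ)..(2 * Real.pi), A.sp D u (c + ρ * circ θ) * ρ) ^ 2 := by
        gcongr
    _ = K ^ 4 / 2 * (∫ θ in (0:ℝ)..(2 * Real.pi), A.sp D u (c + ρ * circ θ) * ρ) ^ 2 := by ring
    _ ≤ K ^ 4 * (∫ θ in (0:ℝ)..(2 * Real.pi), A.sp D u (c + ρ * circ θ) * ρ) ^ 2 := by
        gcongr
        linarith

end Pool.Agent.H823.HC
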