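import Mathlib
import Pool.Agent.H823.HC.StmHP

/-!
Polar coordinates with an arbitrary centre and angular interval.
-/

set_option autoImplicit false

open MeasureTheory Set

namespace Pool.Agent.H823.HC

namespace PPOLAR

theorem circ_mul (a b : ℝ) : circ a * circ b = circ (b + a) := by
  unfold circ
  rw [← Complex.exp_add]
  congr 1
  push_cast
  ring

/-- the case of the centre `0` and the interval `(-π, π]` -/
theorem polar0 (f : ℂ → ENNReal) (hf : Measurable f) :
    ∫⁻ z, f z = ∫⁻ t in Ioi (0:ℝ), ∫⁻ θ in Ioc (-Real.pi) Real.pi,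
      f (t * circ θ) * ENNReal.ofReal t := by
  rw [← Complex.lintegral_comp_polarCoord_symm, polarCoord_target]
  have hm : (volume : Measure (ℝ × ℝ)).restrict (Ioi (0:ℝ) ×ˢ Ioo (-Real.pi) Real.pi) =
      ((volume : Measure ℝ).restrict (Ioi 0)).prod
        ((volume : Measure ℝ).restrict (Ioo (-Real.pi) Real.pi)) := by
    rw [Measure.prod_restrict]; rfl
  have hc : Continuous fun p : ℝ × ℝ => (p.1 : ℂ) * circ p.2 := by
    unfold circ
    fun_prop
  have hpt : ∀ p : ℝ × ℝ, Complex.polarCoord.symm p = (p.1 : ℂ) * circ p.2 := by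
    intro p
    rw [Complex.polarCoord_symm_apply]
    unfold circ
    rw [Complex.exp_mul_I]
    push_cast
    rfl
  have hg : Measurable fun p : ℝ × ℝ => ENNReal.ofReal p.1 • f (Complex.polarCoord.symm p) := by
    have : (fun p : ℝ × ℝ => ENNReal.ofReal p.1 • f (Complex.polarCoord.symm p)) =
        fun p : ℝ × ℝ => ENNReal.ofReal p.1 * f ((p.1 : ℂ) * circ p.2) := by
      funext p
      rw [hpt, smul_eq_mul]
    rw [this]
    exact (ENNReal.measurable_ofReal.comp measurable_fst).mul (hf.comp hc.measurable)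
  rw [hm, lintegral_prod _ hg.aemeasurable, restrict_Ioo_eq_restrict_Ioc]
  refine lintegral_congr fun t => lintegral_congr fun θ => ?_
  simp only
  rw [hpt, smul_eq_mul, mul_comm]

end PPOLAR

theorem t_POLAR : S_POLAR := by
  intro f hf c α
  have h1 : ∫⁻ z, f z = ∫⁻ z, f (c + z) := (lintegral_add_left_eq_self f c).symm
  have h2 : ∫⁻ z, f (c + z) = ∫⁻ z, f (c + circ (α + Real.pi) * z) := by
    have hmp := (rotation (Circle.exp (α + Real.pi))).measurePreserving
    have h3 := hmp.lintegral_comp (f := fun z => f (c + z)) (hf.comp (measurable_const_add c))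
    rw [← h3]
    refine lintegral_congr fun z => ?_
    rw [rotation_apply, Circle.coe_exp]
    rfl
  have h7 := PPOLAR.polar0 (fun z => f (c + circ (α + Real.pi) * z))
    (hf.comp ((measurable_const_mul _).const_add c))
  rw [h1, h2, h7]
  refine lintegral_congr fun t => ?_
  have hmp := measurePreserving_add_right (volume : Measure ℝ) (α + Real.pi)
  have hc : Continuous fun θ : ℝ => c + (t : ℂ) * circ θ := by
    unfold circ
    fun_prop
  have hG : Measurable fun θ : ℝ => f (c + t * circ θ) * ENNReal.ofReal t :=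
    (hf.comp hc.measurable).mul_const _
  have h4 := hmp.setLIntegral_comp_preimage (s := Ioc α (α + 2 * Real.pi)) measurableSet_Ioc hG
  have h5 : (fun x : ℝ => x + (α + Real.pi)) ⁻¹' Ioc α (α + 2 * Real.pi) =
      Ioc (-Real.pi) Real.pi := by
    rw [preimage_add_const_Ioc]
    congr 1 <;> ring
  rw [h5] at h4
  rw [← h4]
  refine lintegral_congr fun θ => ?_
  have h6 : circ (α + Real.pi) * ((t : ℂ) * circ θ) = t * circ (θ + (α + Real.pi)) := by
    rw [← PPOLAR.circ_mul (α + Real.pi) θ]
    ring
  rw [h6]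

end Pool.Agent.H823.HC
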